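import Mathlib

namespace Pool.Agent.H16.Astral

open Set

/-- A combinatorial configuration (n_4): points and lines are both indexed by `Fin n`. -/
structure Config4 (n : ℕ) where
  inc : Fin n → Fin n → Prop
  line4 : ∀ l, {p | inc p l}.ncard = 4
  point4 : ∀ p, {l | inc p l}.ncard = 4
  atMostOne : ∀ p q l l', p ≠ q → inc p l → inc q l → inc p l' → inc q l' → l = l'

/-- A line of the plane F x F. -/
def IsLine {F : Type} [Field F] (s : Set (F × F)) : Prop :=
  ∃ a b c : F, (a ≠ 0 ∨ b ≠ 0) ∧ s = {p | a * p.1 + b * p.2 = c}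

/-- A geometric realization in F x F, with no extra incidences. -/
structure Realization (F : Type) [Field F] {n : ℕ} (C : Config4 n) where
  pt : Fin n → F × F
  ln : Fin n → Set (F × F)
  pt_inj : Function.Injective pt
  ln_inj : Function.Injective ln
  isLine : ∀ l, IsLine (ln l)
  mem_iff : ∀ p l, pt p ∈ ln l ↔ C.inc p l

/-- Squared Euclidean distance. -/
def d2 (p q : ℝ × ℝ) : ℝ := (p.1 - q.1) ^ 2 + (p.2 - q.2) ^ 2

/-- The symmetry group: Euclidean isometries of the plane mapping the set of points onto itself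
and the set of lines onto itself. -/
def symGroup {n : ℕ} {C : Config4 n} (R : Realization ℝ C) : Subgroup (Equiv.Perm (ℝ × ℝ)) where
  carrier := {f | (∀ p q, d2 (f p) (f q) = d2 p q) ∧ f '' range R.pt = range R.pt ∧
    (fun s => f '' s) '' range R.ln = range R.ln}
  one_mem' := by simp
  mul_mem' := by
    rintro f g ⟨h1, h2, h3⟩ ⟨k1, k2, k3⟩
    refine ⟨fun p q => by simp [h1, k1], ?_, ?_⟩
    · rw [Equiv.Perm.coe_mul, image_comp, k2, h2]
    · have : (fun s : Set (ℝ × ℝ) => (f * g) '' s) = (fun s => f '' s) ∘ (fun s => g '' s) := by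
        funext s; simp [image_image]
      rw [this, image_comp, k3, h3]
  inv_mem' := by
    rintro f ⟨h1, h2, h3⟩
    refine ⟨fun p q => by rw [← h1]; simp, ?_, ?_⟩
    · conv_lhs => rw [← h2]
      simp [image_image]
    · conv_lhs => rw [← h3]
      simp [image_image]

/-- The vertex set of a regular m-gon. -/
def IsRegularPolygon (m : ℕ) (S : Set (ℝ × ℝ)) : Prop :=
  ∃ (c : ℝ × ℝ) (ρ θ : ℝ), 0 < ρ ∧ S = {p | ∃ j : ℕ, j < m ∧
    p = (c.1 + ρ * Real.cos (θ + 2 * Real.pi * j / m), c.2 + ρ * Real.sin (θ + 2 * Real.pi * j / m))}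

/-- k-astral with dihedral symmetry group of order 2m; `op`, `ol` name the orbits of the
symmetry group on points and on lines. -/
def IsAstral (k m : ℕ) {n : ℕ} {C : Config4 n} (R : Realization ℝ C) : Prop :=
  Nonempty (symGroup R ≃* DihedralGroup m) ∧
  ∃ op ol : Fin n → Fin k,
    (∀ p q, op p = op q ↔ ∃ f ∈ symGroup R, f (R.pt p) = R.pt q) ∧
    (∀ l l', ol l = ol l' ↔ ∃ f ∈ symGroup R, f '' R.ln l = R.ln l') ∧
    (∀ j, {p | op p = j}.ncard = m) ∧ (∀ j, {l | ol l = j}.ncard = m) ∧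
    (∀ j, IsRegularPolygon m (R.pt '' {p | op p = j})) ∧
    (∀ p, ∃ i j, i ≠ j ∧ {l | C.inc p l ∧ ol l = i}.ncard = 2 ∧
      {l | C.inc p l ∧ ol l = j}.ncard = 2) ∧
    (∀ l, ∃ i j, i ≠ j ∧ {p | C.inc p l ∧ op p = i}.ncard = 2 ∧
      {p | C.inc p l ∧ op p = j}.ncard = 2)

end Pool.Agent.H16.Astral
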