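import Pool.Agent.H16.Astral

namespace Pool.Agent.H16.Astral.Twelve

open Set

abbrev Z2 := Zsqrtd 3

def PZ : Fin 24 → Z2 × Z2 := ![ (⟨2,0⟩,⟨0,0⟩), (⟨0,1⟩,⟨1,0⟩), (⟨1,0⟩,⟨0,1⟩), (⟨0,0⟩,⟨2,0⟩), (⟨-1,0⟩,⟨0,1⟩), (⟨0,-1⟩,⟨1,0⟩), (⟨-2,0⟩,⟨0,0⟩), (⟨0,-1⟩,⟨-1,0⟩), (⟨-1,0⟩,⟨0,-1⟩), (⟨0,0⟩,⟨-2,0⟩), (⟨1,0⟩,⟨0,-1⟩), (⟨0,1⟩,⟨-1,0⟩), (⟨-1,1⟩,⟨-1,1⟩), (⟨2,-1⟩,⟨1,0⟩), (⟨-2,1⟩,⟨1,0⟩), (⟨1,-1⟩,⟨-1,1⟩), (⟨-1,0⟩,⟨2,-1⟩), (⟨-1,0⟩,⟨-2,1⟩), (⟨1,-1⟩,⟨1,-1⟩), (⟨-2,1⟩,⟨-1,0⟩), (⟨2,-1⟩,⟨-1,0⟩), (⟨-1,1⟩,⟨1,-1⟩), (⟨1,0⟩,⟨-2,1⟩), (⟨1,0⟩,⟨2,-1⟩) ]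

def NZ : Fin 24 → Z2 × Z2 := ![ (⟨1,0⟩,⟨0,1⟩), (⟨0,0⟩,⟨2,0⟩), (⟨-1,0⟩,⟨0,1⟩), (⟨0,-1⟩,⟨1,0⟩), (⟨-2,0⟩,⟨0,0⟩), (⟨0,-1⟩,⟨-1,0⟩), (⟨-1,0⟩,⟨0,-1⟩), (⟨0,0⟩,⟨-2,0⟩), (⟨1,0⟩,⟨0,-1⟩), (⟨0,1⟩,⟨-1,0⟩), (⟨2,0⟩,⟨0,0⟩), (⟨0,1⟩,⟨1,0⟩), (⟨-1,0⟩,⟨2,1⟩), (⟨-1,-1⟩,⟨1,1⟩), (⟨-2,-1⟩,⟨1,0⟩), (⟨-2,-1⟩,⟨-1,0⟩), (⟨-1,-1⟩,⟨-1,-1⟩), (⟨-1,0⟩,⟨-2,-1⟩), (⟨1,0⟩,⟨-2,-1⟩), (⟨1,1⟩,⟨-1,-1⟩), (⟨2,1⟩,⟨-1,0⟩), (⟨2,1⟩,⟨1,0⟩), (⟨1,1⟩,⟨1,1⟩), (⟨1,0⟩,⟨2,1⟩) ]

def PQ : Fin 24 → ℚ × ℚ := ![ (-1/2,0), (0,0), (-11/49,1/49), (17/29,-43/29), (0,-1), (-1/2,-1/2), (-7/5,21/5), (-5/31,7/31), (1/7,-5/7), (-7/23,5/23), (-5/31,-17/31), (-7/5,29/5), (1,-3), (-1/3,-1/3), (-7/41,-7/41), (-1/2,1), (1/5,-3/5), (-7/5,-19/5), (-1/3,1/9), (1,-5), (1/61,-35/61), (-7/5,1), (-7/29,5/29), (-1/2,5/2) ]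

def LQ : Fin 24 → ℚ × ℚ × ℚ := ![ (2,1,-1), (1,-1,0), (32,9,-7), (16,7,-1), (2,-1,1), (11,-3,-4), (23,6,-7), (9,2,-1), (10,9,-5), (5,7,0), (9,1,-2), (11,3,2), (3,1,0), (13,-4,-3), (26,15,-7), (4,1,-1), (-1,-7,4), (-5,0,7), (-2,3,1), (5,1,0), (37,15,-8), (-5,-4,3), (34,7,-7), (-2,0,1) ]

def incZ (p l : Fin 24) : Prop := (NZ l).1 * (PZ p).1 + (NZ l).2 * (PZ p).2 = 2

instance : ∀ p l, Decidable (incZ p l) := fun p l => by unfold incZ; infer_instance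

theorem ncard_eq {P : Fin 24 → Prop} [DecidablePred P] :
    {p | P p}.ncard = (Finset.univ.filter P).card := by
  rw [← Set.ncard_coe_finset]; congr 1; ext; simp

theorem c1 : ∀ l, (Finset.univ.filter fun p => incZ p l).card = 4 := by decide +kernel
theorem c2 : ∀ p, (Finset.univ.filter fun l => incZ p l).card = 4 := by decide +kernel
theorem c3 : ∀ p l, incZ p l → ∀ q, incZ q l → p ≠ q → ∀ l', incZ p l' → incZ q l' → l = l' := by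
  decide +kernel
theorem c4 : ∀ l l', (∀ p, incZ p l ↔ incZ p l') → l = l' := by decide +kernel

def conf : Config4 24 where
  inc := incZ
  line4 l := by rw [ncard_eq]; exact c1 l
  point4 p := by rw [ncard_eq]; exact c2 p
  atMostOne p q l l' h a b c d := c3 p l a q b h l' c d

theorem q1 : ∀ p q, PQ p = PQ q → p = q := by decide +kernel
theorem q2 : ∀ p l, (LQ l).1 * (PQ p).1 + (LQ l).2.1 * (PQ p).2 = (LQ l).2.2 ↔ incZ p l := by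
  decide +kernel
theorem q3 : ∀ l, (LQ l).1 ≠ 0 ∨ (LQ l).2.1 ≠ 0 := by decide +kernel

def ratR : Realization ℚ conf where
  pt := PQ
  ln l := {p | (LQ l).1 * p.1 + (LQ l).2.1 * p.2 = (LQ l).2.2}
  pt_inj := q1
  ln_inj l l' h := c4 l l' fun p => by
    rw [← q2, ← q2]
    have := congrArg (fun s => PQ p ∈ s) h
    simpa using this
  isLine l := ⟨_, _, _, q3 l, rfl⟩
  mem_iff := q2

noncomputable def tr : Z2 →+* ℝ := Zsqrtd.toReal (by norm_num)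

theorem tr_inj : Function.Injective tr := by
  apply Zsqrtd.toReal_injective
  intro n h
  have h1 : n < 2 := by nlinarith
  have h2 : -2 < n := by nlinarith
  interval_cases n <;> omega

theorem tr_two : tr 2 = 2 := map_ofNat tr 2
theorem tr_four : tr 4 = 4 := map_ofNat tr 4

noncomputable def tp (v : Z2 × Z2) : ℝ × ℝ := (tr v.1, tr v.2)

theorem tp_inj : Function.Injective tp := by
  intro u v h
  simp only [tp, Prod.mk.injEq] at h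
  exact Prod.ext (tr_inj h.1) (tr_inj h.2)

noncomputable def lnR (v : Z2 × Z2) : Set (ℝ × ℝ) := {p | tr v.1 * p.1 + tr v.2 * p.2 = 2}

theorem r1 : ∀ p q, PZ p = PZ q → p = q := by decide +kernel
theorem r3 : ∀ l, (NZ l).1 ≠ 0 ∨ (NZ l).2 ≠ 0 := by decide +kernel

theorem mem_lnR (p l : Fin 24) : tp (PZ p) ∈ lnR (NZ l) ↔ incZ p l := by
  simp only [lnR, tp, mem_ofPred_eq, incZ]
  rw [← map_mul, ← map_mul, ← map_add, ← tr_two]
  exact tr_inj.eq_iff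

noncomputable def realR : Realization ℝ conf where
  pt p := tp (PZ p)
  ln l := lnR (NZ l)
  pt_inj p q h := r1 p q (tp_inj h)
  ln_inj l l' h := c4 l l' fun p => by
    rw [← mem_lnR, ← mem_lnR]
    have h' : lnR (NZ l) = lnR (NZ l') := h
    rw [h']
  isLine l := ⟨tr (NZ l).1, tr (NZ l).2, 2, by
    rcases r3 l with h | h
    · left; intro e; exact h (tr_inj (by rw [e, map_zero]))
    · right; intro e; exact h (tr_inj (by rw [e, map_zero])), rfl⟩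
  mem_iff := mem_lnR

/-- twice the cosine of i times a twelfth of the full turn -/
def cT : ZMod 12 → Z2 := ![⟨2,0⟩, ⟨0,1⟩, ⟨1,0⟩, ⟨0,0⟩, ⟨-1,0⟩, ⟨0,-1⟩, ⟨-2,0⟩, ⟨0,-1⟩, ⟨-1,0⟩, ⟨0,0⟩, ⟨1,0⟩, ⟨0,1⟩]
def sT (i : ZMod 12) : Z2 := cT (i - 3)

/-- twice the matrix of a dihedral element -/
def M : DihedralGroup 12 → Z2 × Z2 × Z2 × Z2
  | .r i => (cT i, -sT i, sT i, cT i)
  | .sr i => (cT i, -sT i, -sT i, -cT i)

def ap (A : Z2 × Z2 × Z2 × Z2) (v : Z2 × Z2) : Z2 × Z2 :=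
  (A.1 * v.1 + A.2.1 * v.2, A.2.2.1 * v.1 + A.2.2.2 * v.2)

def dbl (v : Z2 × Z2) : Z2 × Z2 := (2 * v.1, 2 * v.2)

theorem m_mul : ∀ g h : DihedralGroup 12,
    2 * (M (g * h)).1 = (M g).1 * (M h).1 + (M g).2.1 * (M h).2.2.1 ∧
    2 * (M (g * h)).2.1 = (M g).1 * (M h).2.1 + (M g).2.1 * (M h).2.2.2 ∧
    2 * (M (g * h)).2.2.1 = (M g).2.2.1 * (M h).1 + (M g).2.2.2 * (M h).2.2.1 ∧
    2 * (M (g * h)).2.2.2 = (M g).2.2.1 * (M h).2.1 + (M g).2.2.2 * (M h).2.2.2 := by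
  decide +kernel

theorem m_orth : ∀ g : DihedralGroup 12,
    (M g).1 * (M g).1 + (M g).2.2.1 * (M g).2.2.1 = 4 ∧
    (M g).2.1 * (M g).2.1 + (M g).2.2.2 * (M g).2.2.2 = 4 ∧
    (M g).1 * (M g).2.1 + (M g).2.2.1 * (M g).2.2.2 = 0 := by
  decide +kernel

noncomputable def act (g : DihedralGroup 12) (p : ℝ × ℝ) : ℝ × ℝ :=
  ((tr (M g).1 * p.1 + tr (M g).2.1 * p.2) / 2, (tr (M g).2.2.1 * p.1 + tr (M g).2.2.2 * p.2) / 2)

theorem act_one (p : ℝ × ℝ) : act 1 p = p := by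
  have : M 1 = (2, 0, 0, 2) := by decide +kernel
  simp only [act, this, tr_two, map_zero]
  ext <;> simp

theorem act_mul (g h : DihedralGroup 12) (p : ℝ × ℝ) : act (g * h) p = act g (act h p) := by
  obtain ⟨a, b, c, d⟩ := m_mul g h
  have a' := congrArg tr a
  have b' := congrArg tr b
  have c' := congrArg tr c
  have d' := congrArg tr d
  simp only [map_mul, map_add, tr_two] at a' b' c' d'
  simp only [act]
  ext
  · simp only; linear_combination (p.1 / 4) * a' + (p.2 / 4) * b'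
  · simp only; linear_combination (p.1 / 4) * c' + (p.2 / 4) * d'

noncomputable def phi : DihedralGroup 12 →* Equiv.Perm (ℝ × ℝ) :=
  MonoidHom.toHomPerm
    { toFun := fun g => act g
      map_one' := funext act_one
      map_mul' := fun g h => funext (act_mul g h) }

theorem phi_apply (g : DihedralGroup 12) (p : ℝ × ℝ) : phi g p = act g p := rfl

theorem orthR (g : DihedralGroup 12) :
    tr (M g).1 * tr (M g).1 + tr (M g).2.2.1 * tr (M g).2.2.1 = 4 ∧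
    tr (M g).2.1 * tr (M g).2.1 + tr (M g).2.2.2 * tr (M g).2.2.2 = 4 ∧
    tr (M g).1 * tr (M g).2.1 + tr (M g).2.2.1 * tr (M g).2.2.2 = 0 := by
  obtain ⟨a, b, c⟩ := m_orth g
  have a' := congrArg tr a
  have b' := congrArg tr b
  have c' := congrArg tr c
  simp only [map_mul, map_add, tr_four, map_zero] at a' b' c'
  exact ⟨a', b', c'⟩

theorem act_d2 (g : DihedralGroup 12) (p q : ℝ × ℝ) : d2 (act g p) (act g q) = d2 p q := by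
  obtain ⟨a, b, c⟩ := orthR g
  simp only [d2, act]
  linear_combination ((p.1 - q.1) ^ 2 / 4) * a + ((p.2 - q.2) ^ 2 / 4) * b +
    ((p.1 - q.1) * (p.2 - q.2) / 2) * c

theorem act_tp (g : DihedralGroup 12) (u v : Z2 × Z2) :
    act g (tp u) = tp v ↔ ap (M g) u = dbl v := by
  rw [← tp_inj.eq_iff]
  simp only [act, tp, ap, dbl, map_add, map_mul, tr_two, Prod.mk.injEq]
  constructor <;> rintro ⟨a, b⟩ <;> constructor <;> linarith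

theorem act_ln (g : DihedralGroup 12) (u v : Z2 × Z2) (h : ap (M g) u = dbl v) :
    phi g '' lnR u = lnR v := by
  have key : ∀ p, act g p ∈ lnR v ↔ p ∈ lnR u := by
    intro p
    have h' := (act_tp g u v).2 h
    simp only [act, tp, Prod.mk.injEq] at h'
    obtain ⟨a, b, c⟩ := orthR g
    simp only [lnR, mem_ofPred_eq, act, ← h'.1, ← h'.2]
    have : (tr (M g).1 * tr u.1 + tr (M g).2.1 * tr u.2) / 2 *
        ((tr (M g).1 * p.1 + tr (M g).2.1 * p.2) / 2) +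
        (tr (M g).2.2.1 * tr u.1 + tr (M g).2.2.2 * tr u.2) / 2 *
        ((tr (M g).2.2.1 * p.1 + tr (M g).2.2.2 * p.2) / 2) = tr u.1 * p.1 + tr u.2 * p.2 := by
      linear_combination (tr u.1 * p.1 / 4) * a + (tr u.2 * p.2 / 4) * b +
        ((tr u.1 * p.2 + tr u.2 * p.1) / 4) * c
    rw [this]
  ext p
  constructor
  · rintro ⟨q, hq, rfl⟩; exact (key q).2 hq
  · intro hp
    refine ⟨(phi g).symm p, (key _).1 ?_, by simp⟩
    rw [← phi_apply]; simpa using hp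

theorem s1 : ∀ g i, ∃ j, ap (M g) (PZ i) = dbl (PZ j) := by decide +kernel
theorem s1' : ∀ g j, ∃ i, ap (M g) (PZ i) = dbl (PZ j) := by decide +kernel
theorem s2 : ∀ g i, ∃ j, ap (M g) (NZ i) = dbl (NZ j) := by decide +kernel
theorem s2' : ∀ g j, ∃ i, ap (M g) (NZ i) = dbl (NZ j) := by decide +kernel

theorem phi_mem (g : DihedralGroup 12) : phi g ∈ symGroup realR := by
  refine ⟨act_d2 g, ?_, ?_⟩
  · ext p
    constructor
    · rintro ⟨_, ⟨i, rfl⟩, rfl⟩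
      obtain ⟨j, hj⟩ := s1 g i
      exact ⟨j, ((act_tp g _ _).2 hj).symm⟩
    · rintro ⟨j, rfl⟩
      obtain ⟨i, hi⟩ := s1' g j
      exact ⟨_, ⟨i, rfl⟩, (act_tp g _ _).2 hi⟩
  · ext s
    constructor
    · rintro ⟨_, ⟨i, rfl⟩, rfl⟩
      obtain ⟨j, hj⟩ := s2 g i
      exact ⟨j, (act_ln g _ _ hj).symm⟩
    · rintro ⟨j, rfl⟩
      obtain ⟨i, hi⟩ := s2' g j
      exact ⟨_, ⟨i, rfl⟩, act_ln g _ _ hi⟩

def dZ (u v : Z2 × Z2) : Z2 := (u.1 - v.1) * (u.1 - v.1) + (u.2 - v.2) * (u.2 - v.2)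

theorem d2_tp (u v : Z2 × Z2) : d2 (tp u) (tp v) = tr (dZ u v) := by
  simp only [d2, tp, dZ, map_add, map_mul, map_sub]; ring

theorem t1 : ∀ x y : Fin 24, dZ (PZ x) (PZ y) = dZ (PZ 0) (PZ 6) → ∀ z : Fin 24,
    dZ (PZ x) (PZ z) = dZ (PZ 0) (PZ 3) → dZ (PZ y) (PZ z) = dZ (PZ 6) (PZ 3) →
    ∃ g, ap (M g) (PZ 0) = dbl (PZ x) ∧ ap (M g) (PZ 6) = dbl (PZ y) ∧
      ap (M g) (PZ 3) = dbl (PZ z) := by decide +kernel

theorem P0 : tp (PZ 0) = (2, 0) := by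
  have : PZ 0 = (2, 0) := by decide +kernel
  simp [this, tp, tr_two]
theorem P4 : tp (PZ 6) = (-2, 0) := by
  have : PZ 6 = (-2, 0) := by decide +kernel
  simp [this, tp, tr_two]
theorem P2 : tp (PZ 3) = (0, 2) := by
  have : PZ 3 = (0, 2) := by decide +kernel
  simp [this, tp, tr_two]

theorem fix_id (f : ℝ × ℝ → ℝ × ℝ) (h : ∀ p q, d2 (f p) (f q) = d2 p q)
    (h0 : f (2, 0) = (2, 0)) (h4 : f (-2, 0) = (-2, 0)) (h2 : f (0, 2) = (0, 2)) (p : ℝ × ℝ) :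
    f p = p := by
  have a := h p (2, 0)
  have b := h p (-2, 0)
  have c := h p (0, 2)
  rw [h0] at a; rw [h4] at b; rw [h2] at c
  simp only [d2] at a b c
  ext
  · linarith
  · linarith

theorem mem_range (f : Equiv.Perm (ℝ × ℝ)) (hf : f ∈ symGroup realR) : ∃ g, phi g = f := by
  have hi : ∀ i, ∃ j, f (tp (PZ i)) = tp (PZ j) := by
    intro i
    have : f (tp (PZ i)) ∈ range realR.pt := by
      rw [← hf.2.1]; exact ⟨_, ⟨i, rfl⟩, rfl⟩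
    obtain ⟨j, hj⟩ := this
    exact ⟨j, hj.symm⟩
  obtain ⟨x, hx⟩ := hi 0
  obtain ⟨y, hy⟩ := hi 6
  obtain ⟨z, hz⟩ := hi 3
  have e : ∀ a b a' b' : Fin 24, f (tp (PZ a)) = tp (PZ a') → f (tp (PZ b)) = tp (PZ b') →
      dZ (PZ a') (PZ b') = dZ (PZ a) (PZ b) := by
    intro a b a' b' h1 h2
    apply tr_inj
    rw [← d2_tp, ← d2_tp, ← h1, ← h2, hf.1]
  obtain ⟨g, g1, g2, g3⟩ := t1 x y (e _ _ _ _ hx hy) z (e _ _ _ _ hx hz) (e _ _ _ _ hy hz)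
  refine ⟨g, ?_⟩
  have hm : (phi g)⁻¹ * f ∈ symGroup realR :=
    (symGroup realR).mul_mem ((symGroup realR).inv_mem (phi_mem g)) hf
  have fx : ∀ a a' : Fin 24, f (tp (PZ a)) = tp (PZ a') → ap (M g) (PZ a) = dbl (PZ a') →
      ((phi g)⁻¹ * f) (tp (PZ a)) = tp (PZ a) := by
    intro a a' h1 h2
    rw [Equiv.Perm.mul_apply, h1, ← (act_tp g _ _).2 h2, ← phi_apply]; simp
  have := fix_id _ hm.1 (by rw [← P0]; exact fx _ _ hx g1)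
    (by rw [← P4]; exact fx _ _ hy g2) (by rw [← P2]; exact fx _ _ hz g3)
  have h1 : (phi g)⁻¹ * f = 1 := Equiv.ext this
  exact inv_mul_eq_one.1 h1

theorem i1 : ∀ g : DihedralGroup 12, ap (M g) (PZ 0) = dbl (PZ 0) → ap (M g) (PZ 3) = dbl (PZ 3) →
    g = 1 := by decide +kernel

theorem phi_inj : Function.Injective phi := by
  rw [injective_iff_map_eq_one]
  intro g h
  apply i1 g <;> rw [← act_tp, ← phi_apply, h] <;> rfl

theorem range_phi : phi.range = symGroup realR := by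
  ext f
  constructor
  · rintro ⟨g, rfl⟩; exact phi_mem g
  · exact mem_range f

def orb (i : Fin 24) : Fin 2 := ⟨i.val / 12, by omega⟩

theorem o1 : ∀ p q, orb p = orb q ↔ ∃ g, ap (M g) (PZ p) = dbl (PZ q) := by decide +kernel
theorem o2 : ∀ p q, orb p = orb q ↔ ∃ g, ap (M g) (NZ p) = dbl (NZ q) := by decide +kernel
theorem o3 : ∀ j, (Finset.univ.filter fun p => orb p = j).card = 12 := by decide +kernel
theorem o4 : ∀ p, ∃ i j, i ≠ j ∧ (Finset.univ.filter fun l => incZ p l ∧ orb l = i).card = 2 ∧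
    (Finset.univ.filter fun l => incZ p l ∧ orb l = j).card = 2 := by decide +kernel
theorem o5 : ∀ l, ∃ i j, i ≠ j ∧ (Finset.univ.filter fun p => incZ p l ∧ orb p = i).card = 2 ∧
    (Finset.univ.filter fun p => incZ p l ∧ orb p = j).card = 2 := by decide +kernel

def base : Fin 2 → Fin 24 := ![0, 12]

theorem o6 : ∀ j p, orb p = j ↔ ∃ i : Fin 12, ap (M (.r (i.val : ZMod 12))) (PZ (base j)) = dbl (PZ p) := by
  decide +kernel
theorem o7 : ∀ j, ∀ i : Fin 12, ∃ p, ap (M (.r (i.val : ZMod 12))) (PZ (base j)) = dbl (PZ p) := by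
  decide +kernel
theorem o8 : ∀ j, (PZ (base j)).1 ≠ 0 := by decide +kernel
theorem o9 : ∀ i : ZMod 12, 2 * cT (i + 1) = ⟨0, 1⟩ * cT i - sT i ∧
    2 * sT (i + 1) = ⟨0, 1⟩ * sT i + cT i := by decide +kernel

theorem tr_sqrt : tr ⟨0, 1⟩ = Real.sqrt 3 := by
  simp [tr, Zsqrtd.toReal]

theorem trig (j : ℕ) : Real.cos (2 * Real.pi * j / (12 : ℕ)) = tr (cT j) / 2 ∧
    Real.sin (2 * Real.pi * j / (12 : ℕ)) = tr (sT j) / 2 := by
  induction j with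
  | zero =>
    have a : cT ((0 : ℕ) : ZMod 12) = 2 := by decide +kernel
    have b : sT ((0 : ℕ) : ZMod 12) = 0 := by decide +kernel
    rw [a, b, tr_two]; simp
  | succ j ih =>
    have e : 2 * Real.pi * ((j + 1 : ℕ) : ℝ) / (12 : ℕ) = 2 * Real.pi * j / (12 : ℕ) + Real.pi / 6 := by
      push_cast; ring
    obtain ⟨a, b⟩ := o9 j
    have a' := congrArg tr a
    have b' := congrArg tr b
    simp only [map_mul, map_add, map_sub, tr_two, tr_sqrt] at a' b'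
    rw [e, Real.cos_add, Real.sin_add, ih.1, ih.2, Real.cos_pi_div_six, Real.sin_pi_div_six]
    push_cast
    constructor <;> linarith

theorem regular (j : Fin 2) : IsRegularPolygon 12 (realR.pt '' {p | orb p = j}) := by
  set v := tp (PZ (base j)) with hv
  let z : ℂ := ⟨v.1, v.2⟩
  have hz : z ≠ 0 := by
    intro h
    have : v.1 = 0 := congrArg Complex.re h
    exact o8 j (tr_inj (by rw [map_zero]; exact this))
  have hc : ‖z‖ * Real.cos z.arg = v.1 := Complex.norm_mul_cos_arg z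
  have hs : ‖z‖ * Real.sin z.arg = v.2 := Complex.norm_mul_sin_arg z
  have key : ∀ i : ℕ, ((0 : ℝ) + ‖z‖ * Real.cos (z.arg + 2 * Real.pi * i / (12 : ℕ)),
      (0 : ℝ) + ‖z‖ * Real.sin (z.arg + 2 * Real.pi * i / (12 : ℕ))) = act (.r (i : ZMod 12)) v := by
    intro i
    rw [Real.cos_add, Real.sin_add, (trig i).1, (trig i).2]
    simp only [act, M, map_neg, ← hc, ← hs]
    ext <;> simp only <;> ring
  refine ⟨(0, 0), ‖z‖, z.arg, norm_pos_iff.2 hz, ?_⟩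
  ext p
  constructor
  · rintro ⟨q, hq, rfl⟩
    obtain ⟨i, hi⟩ := (o6 j q).1 hq
    refine ⟨i.val, i.2, ?_⟩
    rw [key]; exact ((act_tp _ _ _).2 hi).symm
  · rintro ⟨i, hi, rfl⟩
    obtain ⟨q, hq⟩ := o7 j ⟨i, hi⟩
    refine ⟨q, (o6 j q).2 ⟨⟨i, hi⟩, hq⟩, ?_⟩
    rw [key]; exact ((act_tp _ _ _).2 hq).symm

theorem astral : IsAstral 2 12 realR := by
  refine ⟨⟨((MonoidHom.ofInjective phi_inj).trans (MulEquiv.subgroupCongr range_phi)).symm⟩,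
    orb, orb, ?_, ?_, ?_, ?_, regular, ?_, ?_⟩
  · intro p q
    rw [o1]
    constructor
    · rintro ⟨g, hg⟩; exact ⟨phi g, phi_mem g, (act_tp g _ _).2 hg⟩
    · rintro ⟨f, hf, h⟩
      obtain ⟨g, rfl⟩ := mem_range f hf
      exact ⟨g, (act_tp g _ _).1 h⟩
  · intro p q
    rw [o2]
    constructor
    · rintro ⟨g, hg⟩; exact ⟨phi g, phi_mem g, act_ln g _ _ hg⟩
    · rintro ⟨f, hf, h⟩
      obtain ⟨g, rfl⟩ := mem_range f hf
      obtain ⟨j, hj⟩ := s2 g p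
      have : realR.ln j = realR.ln q := by rw [← h]; exact (act_ln g _ _ hj).symm
      obtain rfl := realR.ln_inj this
      exact ⟨g, hj⟩
  · intro j; rw [ncard_eq]; exact o3 j
  · intro j; rw [ncard_eq]; exact o3 j
  · intro p
    obtain ⟨i, j, h, a, b⟩ := o4 p
    exact ⟨i, j, h, (ncard_eq (P := fun l => incZ p l ∧ orb l = i)).trans a,
      (ncard_eq (P := fun l => incZ p l ∧ orb l = j)).trans b⟩
  · intro l
    obtain ⟨i, j, h, a, b⟩ := o5 l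
    exact ⟨i, j, h, (ncard_eq (P := fun p => incZ p l ∧ orb p = i)).trans a,
      (ncard_eq (P := fun p => incZ p l ∧ orb p = j)).trans b⟩

theorem main : ∃ m : ℕ, 2 ≤ m ∧ ∃ C : Config4 (2 * m),
    (∃ R : Realization ℝ C, IsAstral 2 m R) ∧ Nonempty (Realization ℚ C) :=
  ⟨12, by norm_num, conf, ⟨realR, astral⟩, ⟨ratR⟩⟩

end Pool.Agent.H16.Astral.Twelve
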