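import Mathlib

set_option autoImplicit false

namespace Pool.Agent.H16.AvgMix
open Finset Matrix

variable {V : Type} [Fintype V] [DecidableEq V]

lemma sum_fib {β : Type} [DecidableEq β] (g g' : V → β) (f : β → ℝ)
    (h : ∀ b, (univ.filter (fun w => g w = b)).card = (univ.filter (fun w => g' w = b)).card) :
    ∑ w, f (g w) = ∑ w, f (g' w) := by
  have h1 := Finset.sum_fiberwise_of_maps_to (s := univ) (t := univ.image g ∪ univ.image g') (g := g)
    (fun x _ => by simp) (fun w => f (g w))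
  have h2 := Finset.sum_fiberwise_of_maps_to (s := univ) (t := univ.image g ∪ univ.image g') (g := g')
    (fun x _ => by simp) (fun w => f (g' w))
  rw [← h1, ← h2]
  refine Finset.sum_congr rfl (fun b _ => ?_)
  rw [Finset.sum_congr rfl (g := fun _ => f b) (fun w hw => by rw [(Finset.mem_filter.1 hw).2]),
    Finset.sum_congr (s₁ := univ.filter (fun w => g' w = b)) rfl (g := fun _ => f b)
      (fun w hw => by rw [(Finset.mem_filter.1 hw).2])]
  simp [h b]

def Rad (G : SimpleGraph V) (M : Matrix V V ℝ) : Prop :=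
  ∀ x y x' y', G.dist x y = G.dist x' y' → M x y = M x' y'

def DR (G : SimpleGraph V) : Prop :=
  ∀ u v u' v' : V, G.dist u v = G.dist u' v' → ∀ j k : ℕ,
        (Finset.univ.filter (fun w => G.dist u w = j ∧ G.dist v w = k)).card =
        (Finset.univ.filter (fun w => G.dist u' w = j ∧ G.dist v' w = k)).card

variable {G : SimpleGraph V}

omit [Fintype V] [DecidableEq V] in
lemma Rad.ex {M : Matrix V V ℝ} (h : Rad G M) : ∃ m : ℕ → ℝ, ∀ x y, M x y = m (G.dist x y) := by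
  classical
  refine ⟨fun r => if hr : ∃ p : V × V, G.dist p.1 p.2 = r then M hr.choose.1 hr.choose.2 else 0,
    fun x y => ?_⟩
  have hr : ∃ p : V × V, G.dist p.1 p.2 = G.dist x y := ⟨(x, y), rfl⟩
  simp only [dif_pos hr]
  exact h _ _ _ _ hr.choose_spec.symm

lemma Rad.mul (hd : DR G) {M N : Matrix V V ℝ} (hM : Rad G M) (hN : Rad G N) : Rad G (M * N) := by
  obtain ⟨m, hm⟩ := hM.ex
  obtain ⟨n, hn⟩ := hN.ex
  intro x y x' y' h
  simp only [Matrix.mul_apply, hm, hn]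
  have := sum_fib (fun w => (G.dist x w, G.dist y w)) (fun w => (G.dist x' w, G.dist y' w))
    (fun p => m p.1 * n p.2) (fun b => by
      have := hd x y x' y' h b.1 b.2
      simpa [Prod.ext_iff] using this)
  simpa [SimpleGraph.dist_comm] using this

omit [Fintype V] [DecidableEq V] in
lemma Rad.add {M N : Matrix V V ℝ} (hM : Rad G M) (hN : Rad G N) : Rad G (M + N) := by
  intro x y x' y' h; simp [hM _ _ _ _ h, hN _ _ _ _ h]

omit [Fintype V] [DecidableEq V] in
lemma Rad.sub {M N : Matrix V V ℝ} (hM : Rad G M) (hN : Rad G N) : Rad G (M - N) := by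
  intro x y x' y' h; simp [hM _ _ _ _ h, hN _ _ _ _ h]

omit [Fintype V] [DecidableEq V] in
lemma Rad.smul (c : ℝ) {M : Matrix V V ℝ} (hM : Rad G M) : Rad G (c • M) := by
  intro x y x' y' h; simp [hM _ _ _ _ h]

omit [Fintype V] [DecidableEq V] in
lemma Rad.had {M N : Matrix V V ℝ} (hM : Rad G M) (hN : Rad G N) : Rad G (M.hadamard N) := by
  intro x y x' y' h; simp [hM _ _ _ _ h, hN _ _ _ _ h]

omit [Fintype V] [DecidableEq V] in
lemma Rad.sum {ι : Type} (s : Finset ι) (M : ι → Matrix V V ℝ) (h : ∀ i ∈ s, Rad G (M i)) :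
    Rad G (∑ i ∈ s, M i) := by
  intro x y x' y' hh
  simp only [Matrix.sum_apply]
  exact Finset.sum_congr rfl (fun i hi => h i hi _ _ _ _ hh)

omit [Fintype V] [DecidableEq V] in
lemma Rad.symm {M : Matrix V V ℝ} (hM : Rad G M) (x y : V) : M x y = M y x :=
  hM _ _ _ _ SimpleGraph.dist_comm

omit [Fintype V] in
lemma rad_one (hc : G.Connected) : Rad G (1 : Matrix V V ℝ) := by
  intro x y x' y' h
  have e1 : x = y ↔ x' = y' := by
    rw [← hc.dist_eq_zero_iff, ← hc.dist_eq_zero_iff, h]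
  simp only [Matrix.one_apply, e1]

variable [DecidableRel G.Adj]

omit [Fintype V] [DecidableEq V] in
lemma rad_adj : Rad G (G.adjMatrix ℝ) := by
  intro x y x' y' h
  have e1 : G.Adj x y ↔ G.Adj x' y' := by
    rw [← SimpleGraph.dist_eq_one_iff_adj, ← SimpleGraph.dist_eq_one_iff_adj, h]
  simp only [SimpleGraph.adjMatrix_apply, e1]

lemma rad_pow (hc : G.Connected) (hd : DR G) (m : ℕ) : Rad G (G.adjMatrix ℝ ^ m) := by
  induction m with
  | zero => simpa using rad_one hc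
  | succ m ih => rw [pow_succ]; exact ih.mul hd rad_adj

lemma pow_zero_of_lt {m : ℕ} {x y : V} (h : m < G.dist x y) : (G.adjMatrix ℝ ^ m) x y = 0 := by
  rw [SimpleGraph.adjMatrix_pow_apply_eq_card_walk]
  have : IsEmpty {p : G.Walk x y | p.length = m} := ⟨fun p => by
    have h1 := SimpleGraph.dist_le p.1
    have h2 : p.1.length = m := p.2
    omega⟩
  simp

lemma pow_ne_of_eq (hc : G.Connected) {m : ℕ} {x y : V} (h : G.dist x y = m) :
    (G.adjMatrix ℝ ^ m) x y ≠ 0 := by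
  rw [SimpleGraph.adjMatrix_pow_apply_eq_card_walk]
  obtain ⟨p, hp⟩ := hc.exists_walk_length_eq_dist x y
  have : Nonempty {p : G.Walk x y | p.length = m} := ⟨⟨p, by simpa [h] using hp⟩⟩
  exact_mod_cast Fintype.card_ne_zero

lemma rad_poly (hc : G.Connected) (hd : DR G) (i : ℕ) : ∀ M : Matrix V V ℝ, Rad G M →
    (∀ x y, i < G.dist x y → M x y = 0) →
    ∃ c : ℕ → ℝ, M = ∑ m ∈ range (i + 1), c m • G.adjMatrix ℝ ^ m := by
  induction i with
  | zero =>
    intro M hM h0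
    obtain ⟨m, hm⟩ := hM.ex
    refine ⟨fun _ => m 0, ?_⟩
    ext x y
    by_cases hxy : x = y
    · subst hxy; simp [hm]
    · have : 0 < G.dist x y := Nat.pos_of_ne_zero (fun h => hxy (hc.dist_eq_zero_iff.1 h))
      simp [h0 x y this, hxy]
  | succ i ih =>
    intro M hM h0
    have key : ∃ γ : ℝ, ∀ x y, G.dist x y = i + 1 → M x y = γ * (G.adjMatrix ℝ ^ (i + 1)) x y := by
      by_cases hex : ∃ x y, G.dist x y = i + 1
      · obtain ⟨x0, y0, h⟩ := hex
        refine ⟨M x0 y0 / (G.adjMatrix ℝ ^ (i + 1)) x0 y0, fun x y hxy => ?_⟩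
        rw [hM x y x0 y0 (hxy.trans h.symm), rad_pow hc hd (i + 1) x y x0 y0 (hxy.trans h.symm)]
        have := pow_ne_of_eq hc h
        field_simp
      · exact ⟨0, fun x y h => absurd ⟨x, y, h⟩ hex⟩
    obtain ⟨γ, hγ⟩ := key
    obtain ⟨c, hc'⟩ := ih (M - γ • G.adjMatrix ℝ ^ (i + 1)) (hM.sub ((rad_pow hc hd _).smul γ)) (by
      intro x y h
      rcases Nat.lt_or_ge (i + 1) (G.dist x y) with h1 | h1
      · simp [h0 x y h1, pow_zero_of_lt h1]
      · have : G.dist x y = i + 1 := by omega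
        simp [hγ x y this])
    refine ⟨fun m => if m = i + 1 then γ else c m, ?_⟩
    rw [Finset.sum_range_succ]
    have : ∑ m ∈ range (i + 1), (if m = i + 1 then γ else c m) • G.adjMatrix ℝ ^ m
        = ∑ m ∈ range (i + 1), c m • G.adjMatrix ℝ ^ m := by
      refine Finset.sum_congr rfl (fun m hm => ?_)
      have : m ≠ i + 1 := by have := Finset.mem_range.1 hm; omega
      simp [this]
    rw [this, ← hc']
    simp

omit [DecidableEq V] [DecidableRel G.Adj] in
lemma dist_le_diam' (hc : G.Connected) (x y : V) : G.dist x y ≤ G.diam := by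
  have : Nonempty V := ⟨x⟩
  exact SimpleGraph.dist_le_diam (SimpleGraph.connected_iff_ediam_ne_top.1 hc)

lemma rad_poly' (hc : G.Connected) (hd : DR G) (M : Matrix V V ℝ) (hM : Rad G M) :
    ∃ c : ℕ → ℝ, M = ∑ m ∈ range (G.diam + 1), c m • G.adjMatrix ℝ ^ m :=
  rad_poly hc hd _ M hM (fun x y h => absurd (dist_le_diam' hc x y) (by omega))

section spec
variable {s : Finset ℝ} {E : ℝ → Matrix V V ℝ}

omit [DecidableEq V] in
lemma spec_mul (h1 : ∀ θ ∈ s, E θ * E θ = E θ) (h2 : ∀ θ ∈ s, ∀ θ' ∈ s, θ ≠ θ' → E θ * E θ' = 0)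
    (f g : ℝ → ℝ) :
    (∑ θ ∈ s, f θ • E θ) * (∑ θ ∈ s, g θ • E θ) = ∑ θ ∈ s, (f θ * g θ) • E θ := by
  rw [Finset.sum_mul]
  refine Finset.sum_congr rfl (fun θ hθ => ?_)
  rw [Finset.mul_sum, Finset.sum_eq_single θ]
  · rw [smul_mul_smul_comm, h1 θ hθ]
  · intro b hb hne
    rw [smul_mul_smul_comm, h2 θ hθ b hb (Ne.symm hne), smul_zero]
  · intro h; exact absurd hθ h

omit [DecidableEq V] in
lemma spec_mul_E (h1 : ∀ θ ∈ s, E θ * E θ = E θ) (h2 : ∀ θ ∈ s, ∀ θ' ∈ s, θ ≠ θ' → E θ * E θ' = 0)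
    (f : ℝ → ℝ) {t : ℝ} (ht : t ∈ s) :
    (∑ θ ∈ s, f θ • E θ) * E t = f t • E t ∧ E t * (∑ θ ∈ s, f θ • E θ) = f t • E t := by
  constructor
  · rw [Finset.sum_mul, Finset.sum_eq_single t]
    · rw [smul_mul_assoc, h1 t ht]
    · intro b hb hne; rw [smul_mul_assoc, h2 b hb t ht hne, smul_zero]
    · intro h; exact absurd ht h
  · rw [Finset.mul_sum, Finset.sum_eq_single t]
    · rw [mul_smul_comm, h1 t ht]
    · intro b hb hne; rw [mul_smul_comm, h2 t ht b hb (Ne.symm hne), smul_zero]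
    · intro h; exact absurd ht h

lemma spec_pow (h1 : ∀ θ ∈ s, E θ * E θ = E θ) (h2 : ∀ θ ∈ s, ∀ θ' ∈ s, θ ≠ θ' → E θ * E θ' = 0)
    (h3 : (∑ θ ∈ s, E θ) = 1) {A : Matrix V V ℝ} (h4 : A = ∑ θ ∈ s, θ • E θ) (m : ℕ) :
    A ^ m = ∑ θ ∈ s, (θ ^ m) • E θ := by
  induction m with
  | zero => simp [h3]
  | succ m ih =>
    rw [pow_succ, ih]
    conv_lhs => rw [h4]
    rw [spec_mul h1 h2 (fun θ => θ ^ m) (fun θ => θ)]
    simp [pow_succ]

lemma rad_E (hc : G.Connected) (hd : DR G) (h1 : ∀ θ ∈ s, E θ * E θ = E θ)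
    (h2 : ∀ θ ∈ s, ∀ θ' ∈ s, θ ≠ θ' → E θ * E θ' = 0)
    (h3 : (∑ θ ∈ s, E θ) = 1) (h4 : G.adjMatrix ℝ = ∑ θ ∈ s, θ • E θ) {t : ℝ} (ht : t ∈ s) :
    Rad G (E t) := by
  have key : ∀ T : Finset ℝ, Rad G (∑ θ ∈ s, (∏ u ∈ T, (θ - u)) • E θ) := by
    intro T
    induction T using Finset.induction_on with
    | empty => simpa [h3] using rad_one hc
    | insert u T hu ih =>
      have e : G.adjMatrix ℝ - u • (1 : Matrix V V ℝ) = ∑ θ ∈ s, (θ - u) • E θ := by
        rw [h4, ← h3, Finset.smul_sum, ← Finset.sum_sub_distrib]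
        simp [sub_smul]
      have := (rad_adj.sub ((rad_one hc).smul u)).mul hd ih
      rw [e, spec_mul h1 h2 (fun θ => θ - u)] at this
      simpa [Finset.prod_insert hu] using this
  have k2 := key (s.erase t)
  rw [Finset.sum_eq_single t] at k2
  · have hne : (∏ u ∈ s.erase t, (t - u)) ≠ 0 :=
      Finset.prod_ne_zero_iff.2 (fun u hu => sub_ne_zero.2 (Finset.ne_of_mem_erase hu).symm)
    have := k2.smul (∏ u ∈ s.erase t, (t - u))⁻¹
    rwa [smul_smul, inv_mul_cancel₀ hne, one_smul] at this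
  · intro b hb hne
    rw [Finset.prod_eq_zero (Finset.mem_erase.2 ⟨hne, hb⟩) (sub_self b), zero_smul]
  · intro h; exact absurd ht h

end spec

end Pool.Agent.H16.AvgMix
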