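import Pool.Agent.H16.AvgMix

set_option autoImplicit false
set_option linter.unusedSectionVars false

namespace Pool.Agent.H16.AvgMix
open Finset Matrix

variable {V : Type} [Fintype V] [DecidableEq V] {G : SimpleGraph V} [DecidableRel G.Adj]
variable {s : Finset ℝ} {E : ℝ → Matrix V V ℝ}

lemma diag_zero (h1 : ∀ θ ∈ s, E θ * E θ = E θ) (hs : ∀ θ ∈ s, ∀ x y, E θ x y = E θ y x)
    (v : V → ℝ) (hv : ∀ y, ∑ z, (∑ θ ∈ s, Matrix.hadamard (E θ) (E θ)) y z * v z = 0) :
    ∀ θ ∈ s, E θ * diagonal v * E θ = 0 := by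
  have hT : ∀ θ ∈ s, (E θ)ᴴ = E θ := by
    intro θ hθ; ext x y; simp [hs θ hθ x y]
  have e : ∀ θ ∈ s, ((E θ * diagonal v * E θ)ᴴ * (E θ * diagonal v * E θ)).trace
      = ∑ y, ∑ z, v y * (E θ y z * E θ y z * v z) := by
    intro θ hθ
    have hD : (diagonal v)ᴴ = diagonal v := by simp [diagonal_conjTranspose]
    rw [conjTranspose_mul, conjTranspose_mul, hT θ hθ, hD]
    have : E θ * (diagonal v * E θ) * (E θ * diagonal v * E θ)
        = (E θ * diagonal v * E θ * diagonal v) * E θ := by
      calc _ = E θ * diagonal v * (E θ * E θ) * diagonal v * E θ := by simp only [Matrix.mul_assoc]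
        _ = _ := by rw [h1 θ hθ]
    rw [this, Matrix.trace_mul_comm]
    have : E θ * (E θ * diagonal v * E θ * diagonal v) = (E θ * diagonal v) * (E θ * diagonal v) := by
      calc _ = (E θ * E θ) * diagonal v * E θ * diagonal v := by simp only [Matrix.mul_assoc]
        _ = _ := by rw [h1 θ hθ]; simp only [Matrix.mul_assoc]
    rw [this]
    simp only [Matrix.trace, Matrix.diag, Matrix.mul_apply (M := E θ * diagonal v), mul_diagonal]
    refine Finset.sum_congr rfl (fun y _ => Finset.sum_congr rfl (fun z _ => ?_))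
    rw [hs θ hθ z y]; ring
  have tot : ∑ θ ∈ s, ((E θ * diagonal v * E θ)ᴴ * (E θ * diagonal v * E θ)).trace = 0 := by
    rw [Finset.sum_congr rfl e, Finset.sum_comm]
    refine Finset.sum_eq_zero (fun y _ => ?_)
    rw [Finset.sum_comm]
    have := hv y
    simp only [Matrix.sum_apply, hadamard_apply, Finset.sum_mul] at this
    simp only [← Finset.mul_sum]
    rw [this, mul_zero]
  have nn : ∀ θ ∈ s, 0 ≤ ((E θ * diagonal v * E θ)ᴴ * (E θ * diagonal v * E θ)).trace :=
    fun θ _ => (Matrix.posSemidef_conjTranspose_mul_self _).trace_nonneg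
  intro θ hθ
  exact Matrix.trace_conjTranspose_mul_self_eq_zero_iff.1
    ((Finset.sum_eq_zero_iff_of_nonneg nn).1 tot θ hθ)

lemma ball (hc : G.Connected) (Y : Matrix V V ℝ) (v : V → ℝ) (x : V)
    (hY : G.adjMatrix ℝ * Y - Y * G.adjMatrix ℝ = diagonal v) (h0 : ∀ y, Y y x = 0) (m : ℕ) :
    ∀ y, m ≤ G.dist y x → (Y * G.adjMatrix ℝ ^ m) y x = 0 := by
  induction m with
  | zero => intro y _; simpa using h0 y
  | succ m ih =>
    intro y hy
    have e : Y * G.adjMatrix ℝ ^ (m + 1)
        = G.adjMatrix ℝ * (Y * G.adjMatrix ℝ ^ m) - diagonal v * G.adjMatrix ℝ ^ m := by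
      rw [← hY, pow_succ', Matrix.sub_mul]; simp only [Matrix.mul_assoc]; abel
    rw [e, Matrix.sub_apply, diagonal_mul, pow_zero_of_lt (by omega), mul_zero, sub_zero,
      SimpleGraph.adjMatrix_mul_apply]
    refine Finset.sum_eq_zero (fun w hw => ih w ?_)
    have hadj : G.Adj y w := by simpa using hw
    have h1 := hc.dist_triangle (u := y) (v := w) (w := x)
    have h2 : G.dist y w = 1 := SimpleGraph.dist_eq_one_iff_adj.2 hadj
    omega

lemma antip (hc : G.Connected) (hd : DR G) (h1 : ∀ θ ∈ s, E θ * E θ = E θ)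
    (h2 : ∀ θ ∈ s, ∀ θ' ∈ s, θ ≠ θ' → E θ * E θ' = 0)
    (h3 : (∑ θ ∈ s, E θ) = 1) (h4 : G.adjMatrix ℝ = ∑ θ ∈ s, θ • E θ) {j : ℝ} (hj : j ∈ s)
    (hM : (∑ θ ∈ s, Matrix.hadamard (E θ) (E θ)) * E j = 0) (x y : V) (hxy : G.dist y x = G.diam) :
    E j y x = - E j x x := by
  have hR : ∀ θ ∈ s, Rad G (E θ) := fun θ hθ => rad_E hc hd h1 h2 h3 h4 hθ
  set A := G.adjMatrix ℝ with hA
  set J : Matrix V V ℝ := Matrix.of (fun _ _ => 1) with hJ
  have hJR : Rad G J := fun _ _ _ _ _ => rfl
  set v : V → ℝ := fun w => E j w x with hv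
  have hz : ∀ θ ∈ s, E θ * diagonal v * E θ = 0 :=
    diag_zero h1 (fun θ hθ => (hR θ hθ).symm) v (fun y => by
      have := congrFun (congrFun hM y) x
      simpa [Matrix.mul_apply] using this)
  have hAE : ∀ t ∈ s, A * E t = t • E t ∧ E t * A = t • E t := fun t ht => by
    rw [h4]; exact spec_mul_E h1 h2 (fun θ => θ) ht
  set k : ℝ := (A * J) x x with hk
  have hAJ : A * J = k • J := by
    ext a b
    have : (A * J) a b = (A * J) a a := by simp [Matrix.mul_apply, hJ]
    rw [this, (rad_adj.mul hd hJR) a a x x (by simp)]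
    exact (mul_one k).symm
  have hEJ : ∀ t ∈ s, t ≠ k → E t * J = 0 := by
    intro t ht hne
    have e1 : E t * (A * J) = (t • E t) * J := by rw [← Matrix.mul_assoc, (hAE t ht).2]
    rw [hAJ, mul_smul_comm, smul_mul_assoc] at e1
    have : (t - k) • (E t * J) = 0 := by rw [sub_smul, e1, sub_self]
    exact (smul_eq_zero.1 this).resolve_left (sub_ne_zero.2 hne)
  have hsumJ : ∑ t ∈ s, E t * J = J := by rw [← Finset.sum_mul, h3, Matrix.one_mul]
  have hJne : J ≠ 0 := fun h => by simpa [hJ] using congrFun (congrFun h x) x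
  have hks : k ∈ s := by
    by_contra hn
    exact hJne (by rw [← hsumJ]; exact Finset.sum_eq_zero (fun t ht => hEJ t ht (fun h => hn (h ▸ ht))))
  have hEk : E k * J = J := by
    rw [← hsumJ, Finset.sum_eq_single k (fun t ht hne => hEJ t ht hne) (fun h => absurd hks h)]
    rw [← Matrix.mul_assoc, h1 k hks]
  have hjk : j ≠ k := by
    intro h
    have e1 : (∑ θ ∈ s, Matrix.hadamard (E θ) (E θ)) * J = 0 := by
      rw [← hEk, ← Matrix.mul_assoc, ← h, hM, Matrix.zero_mul]
    have e2 := congrFun (congrFun e1 x) x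
    simp only [Matrix.mul_apply, Matrix.sum_apply, hadamard_apply, hJ, Matrix.of_apply, mul_one,
      Matrix.zero_apply] at e2
    rw [Finset.sum_comm] at e2
    have e3 : ∀ θ ∈ s, ∑ z, E θ x z * E θ x z = E θ x x := by
      intro θ hθ
      conv_rhs => rw [← h1 θ hθ]
      simp only [Matrix.mul_apply]
      exact Finset.sum_congr rfl (fun z _ => by rw [(hR θ hθ).symm z x])
    rw [Finset.sum_congr rfl e3] at e2
    have := congrFun (congrFun h3 x) x
    simp only [Matrix.sum_apply, Matrix.one_apply_eq] at this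
    linarith
  set X : Matrix V V ℝ := ∑ r ∈ s, ∑ t ∈ s, (r - t)⁻¹ • (E r * diagonal v * E t) with hX
  set F : Matrix V V ℝ := ∑ r ∈ s, ∑ t ∈ s, (r - t)⁻¹ • (E r * (E j).hadamard (E t)) with hF
  have hFR : Rad G F := Rad.sum _ _ (fun r hr => Rad.sum _ _ (fun t ht =>
    ((hR r hr).mul hd ((hR j hj).had (hR t ht))).smul _))
  have hXF : ∀ w, X w x = F w x := by
    intro w
    simp only [hX, hF, Matrix.sum_apply, Matrix.smul_apply]
    refine Finset.sum_congr rfl (fun r _ => Finset.sum_congr rfl (fun t _ => ?_))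
    congr 1
    rw [Matrix.mul_apply, Matrix.mul_apply]
    refine Finset.sum_congr rfl (fun z _ => ?_)
    simp [mul_diagonal, hv, mul_assoc]
  have hcomm : A * X - X * A = diagonal v := by
    have e1 : A * X - X * A = ∑ r ∈ s, ∑ t ∈ s, E r * diagonal v * E t := by
      rw [hX, Finset.mul_sum, Finset.sum_mul, ← Finset.sum_sub_distrib]
      refine Finset.sum_congr rfl (fun r hr => ?_)
      rw [Finset.mul_sum, Finset.sum_mul, ← Finset.sum_sub_distrib]
      refine Finset.sum_congr rfl (fun t ht => ?_)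
      have a1 : A * (E r * diagonal v * E t) = r • (E r * diagonal v * E t) := by
        rw [← Matrix.mul_assoc, ← Matrix.mul_assoc, (hAE r hr).1, smul_mul_assoc, smul_mul_assoc]
      have a2 : (E r * diagonal v * E t) * A = t • (E r * diagonal v * E t) := by
        rw [Matrix.mul_assoc, (hAE t ht).2, mul_smul_comm]
      rw [mul_smul_comm, smul_mul_assoc, a1, a2, ← smul_sub, ← sub_smul, smul_smul]
      by_cases hrt : r = t
      · subst hrt; simp [hz r hr]
      · rw [inv_mul_cancel₀ (sub_ne_zero.2 hrt), one_smul]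
    rw [e1]
    simp only [← Finset.mul_sum, ← Finset.sum_mul, h3, Matrix.mul_one, Matrix.one_mul]
  have hFA : A * F = F * A := by
    obtain ⟨c, hc'⟩ := rad_poly' hc hd F hFR
    rw [hc', Finset.mul_sum, Finset.sum_mul]
    refine Finset.sum_congr rfl (fun m _ => ?_)
    rw [mul_smul_comm, smul_mul_assoc, ← pow_succ, ← pow_succ']
  have hb := ball hc (X - F) v x (by
    rw [Matrix.mul_sub, Matrix.sub_mul, hFA, ← hcomm]; abel) (fun w => by simp [hXF w])
  have hYJ : ((X - F) * J) y x = 0 := by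
    obtain ⟨c, hc'⟩ := rad_poly' hc hd J hJR
    rw [hc', Finset.mul_sum, Matrix.sum_apply]
    refine Finset.sum_eq_zero (fun m hm => ?_)
    rw [mul_smul_comm, Matrix.smul_apply, hb m y (by have := Finset.mem_range.1 hm; omega), smul_zero]
  have hanti : ∀ a b, X a b = - X b a := by
    intro a b
    simp only [hX, Matrix.sum_apply, Matrix.smul_apply]
    rw [Finset.sum_comm, ← Finset.sum_neg_distrib]
    refine Finset.sum_congr rfl (fun r hr => ?_)
    rw [← Finset.sum_neg_distrib]
    refine Finset.sum_congr rfl (fun t ht => ?_)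
    have : (E t * diagonal v * E r) a b = (E r * diagonal v * E t) b a := by
      rw [Matrix.mul_apply, Matrix.mul_apply]
      refine Finset.sum_congr rfl (fun z _ => ?_)
      simp only [mul_diagonal]
      rw [(hR t ht).symm a z, (hR r hr).symm z b]; ring
    rw [this, ← neg_sub r t, inv_neg]; simp
  have hXJ : ∀ a, (X * J) a x = (j - k)⁻¹ * E j a x := by
    intro a
    have e1 : X * J = ∑ r ∈ s, (r - k)⁻¹ • (E r * diagonal v * J) := by
      rw [hX, Finset.sum_mul]
      refine Finset.sum_congr rfl (fun r _ => ?_)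
      rw [Finset.sum_mul, Finset.sum_eq_single k]
      · rw [smul_mul_assoc, Matrix.mul_assoc, hEk]
      · intro t ht hne; rw [smul_mul_assoc, Matrix.mul_assoc, hEJ t ht hne]; simp
      · intro h; exact absurd hks h
    have e2 : ∀ r, (E r * diagonal v * J) a x = (E r * E j) a x := by
      intro r
      rw [Matrix.mul_apply, Matrix.mul_apply]
      refine Finset.sum_congr rfl (fun z _ => ?_)
      simp [mul_diagonal, hv, hJ]
    rw [e1, Matrix.sum_apply, Finset.sum_eq_single j]
    · rw [Matrix.smul_apply, e2, h1 j hj, smul_eq_mul]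
    · intro r hr hne; rw [Matrix.smul_apply, e2, h2 r hr j hj hne]; simp
    · intro h; exact absurd hj h
  have p1 : (X * J) y x = (F * J) x x := by
    rw [Matrix.sub_mul, Matrix.sub_apply, sub_eq_zero] at hYJ
    rw [hYJ]
    have : (F * J) y x = (F * J) y y := by simp [Matrix.mul_apply, hJ]
    rw [this]; exact (hFR.mul hd hJR) y y x x (by simp)
  have p2 : (X * J) x x = - (F * J) x x := by
    simp only [Matrix.mul_apply, hJ, Matrix.of_apply, mul_one]
    rw [← Finset.sum_neg_distrib]
    exact Finset.sum_congr rfl (fun w _ => by rw [hanti x w, hXF w, hFR.symm w x])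
  have q1 := hXJ y
  have q2 := hXJ x
  have hne : (j - k)⁻¹ ≠ 0 := inv_ne_zero (sub_ne_zero.2 hjk)
  apply mul_left_cancel₀ hne
  linarith

lemma col_eq {P : Matrix V V ℝ} (hP : P * P = P) (hR : Rad G P) (x y : V) (c : ℝ) (hc : c * c = 1)
    (h : P y x = c * P x x) : ∀ w, P w y = c * P w x := by
  have e : ∀ a b, ∑ w, P w a * P w b = P a b := by
    intro a b
    conv_rhs => rw [← hP]
    simp only [Matrix.mul_apply]
    exact Finset.sum_congr rfl (fun z _ => by rw [hR.symm z a])
  have e0 : ∑ w, (P w y - c * P w x) ^ 2 = 0 := by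
    have : ∀ w, (P w y - c * P w x) ^ 2
        = P w y * P w y - 2 * c * (P w y * P w x) + c * c * (P w x * P w x) := fun w => by ring
    simp only [this, Finset.sum_add_distrib, Finset.sum_sub_distrib, ← Finset.mul_sum, e]
    rw [hR y y x x (by simp), h]
    linear_combination (-P x x) * hc
  intro w
  have := (Finset.sum_eq_zero_iff_of_nonneg (fun w _ => sq_nonneg _)).1 e0 w (Finset.mem_univ _)
  exact sub_eq_zero.1 (pow_eq_zero_iff (two_ne_zero) |>.1 this)

lemma conn_ind {H : SimpleGraph V} (hH : H.Connected) (x : V) (Q : V → Prop) (h0 : Q x)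
    (hs : ∀ a b, H.Adj a b → Q a → Q b) : ∀ y, Q y := by
  intro y
  obtain ⟨p⟩ := hH.preconnected x y
  induction p with
  | nil => exact h0
  | cons h _ ih => exact ih (hs _ _ h h0)

lemma final (hc : G.Connected)
    (hp : ∀ i : ℕ, 1 ≤ i → i ≤ G.diam →
        (SimpleGraph.fromRel (fun u v : V => G.dist u v = i)).Connected)
    (h2 : Fintype.card V ≠ 2) {P : Matrix V V ℝ} (hP : P * P = P) (hR : Rad G P)
    (ha : ∀ x y, G.dist y x = G.diam → P y x = - P x x) : P = 0 := by
  have : Nonempty V := hc.nonempty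
  obtain ⟨x, y, hxy⟩ := G.exists_dist_eq_diam
  have zero : ∀ a, P a a = 0 → P = 0 := by
    intro a h
    ext w b
    have := col_eq hP hR b b (-1) (by norm_num) (by rw [hR b b a a (by simp), h]; simp) w
    simp only [Matrix.zero_apply]; linarith
  have neg : ∀ a b, G.dist b a = G.diam → ∀ w, P w b = - P w a := fun a b h w => by
    simpa using col_eq hP hR a b (-1) (by norm_num) (by simpa using ha a b h) w
  rcases Nat.eq_zero_or_pos G.diam with h0 | h0
  · have := neg x x (by simp [h0]) x
    exact zero x (by linarith)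
  have hD := hp _ h0 le_rfl
  have pm : ∀ a b, (∀ w, P w b = P w a) ∨ (∀ w, P w b = - P w a) := by
    intro a
    refine conn_ind hD a _ (Or.inl fun _ => rfl) (fun b c hbc hb => ?_)
    have hd : G.dist c b = G.diam := by
      rcases ((SimpleGraph.fromRel_adj _ _ _).1 hbc).2 with h | h
      · rwa [SimpleGraph.dist_comm]
      · exact h
    rcases hb with hb | hb
    · right; intro w; rw [neg b c hd w, hb w]
    · left; intro w; rw [neg b c hd w, hb w, neg_neg]
  have hne : x ≠ y := by
    intro h; rw [h] at hxy; simp at hxy; omega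
  obtain ⟨p⟩ := hc.preconnected x y
  obtain ⟨z, hz⟩ : ∃ z, G.Adj x z := by
    cases p with
    | nil => exact absurd rfl hne
    | cons h _ => exact ⟨_, h⟩
  have adj1 : ∀ a b, G.Adj a b → P b a = P z x ∧ P a a = P x x := fun a b h =>
    ⟨hR _ _ _ _ (by rw [SimpleGraph.dist_eq_one_iff_adj.2 h.symm,
      SimpleGraph.dist_eq_one_iff_adj.2 hz.symm]), hR _ _ _ _ (by simp)⟩
  rcases pm x z with h | h
  · have hzx : P z x = P x x := by rw [hR.symm z x, h x]
    have all : ∀ b, ∀ w, P w b = P w x := by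
      refine conn_ind hc x _ (fun _ => rfl) (fun a b hab hq w => ?_)
      have := col_eq hP hR a b 1 (by norm_num) (by rw [(adj1 a b hab).1, (adj1 a b hab).2, hzx, one_mul]) w
      rw [this, one_mul, hq]
    have e1 := neg x y (by rwa [SimpleGraph.dist_comm]) x
    have e2 := all y x
    exact zero x (by linarith)
  · have hzx : P z x = - P x x := by rw [hR.symm z x, h x]
    have nb : ∀ a b, G.Adj a b → ∀ w, P w b = - P w a := fun a b hab w => by
      simpa using col_eq hP hR a b (-1) (by norm_num)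
        (by rw [(adj1 a b hab).1, (adj1 a b hab).2, hzx]; simp) w
    rcases Nat.lt_or_ge G.diam 2 with h1 | h1
    · have cadj : ∀ a b, a ≠ b → G.Adj a b := by
        intro a b hab
        have e1 := dist_le_diam' hc a b
        have e2 : G.dist a b ≠ 0 := fun h => hab (hc.dist_eq_zero_iff.1 h)
        exact SimpleGraph.dist_eq_one_iff_adj.1 (by omega)
      have h3 : 2 < Fintype.card V := by
        have : 1 < Fintype.card V := Fintype.one_lt_card_iff.2 ⟨x, y, hne⟩
        omega
      obtain ⟨a, b, c, hab, hac, hbc⟩ := Fintype.two_lt_card_iff.1 h3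
      have e1 := nb a b (cadj a b hab) a
      have e2 := nb a c (cadj a c hac) a
      have e3 := nb b c (cadj b c hbc) a
      exact zero a (by linarith)
    · have h22 := hp 2 (by norm_num) h1
      have all : ∀ b, ∀ w, P w b = P w x := by
        refine conn_ind h22 x _ (fun _ => rfl) (fun a b hab hq w => ?_)
        have hd : G.dist a b = 2 := by
          rcases ((SimpleGraph.fromRel_adj _ _ _).1 hab).2 with h | h
          · exact h
          · rwa [SimpleGraph.dist_comm]
        obtain ⟨q, hq'⟩ := hc.exists_walk_length_eq_dist a b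
        rw [hd] at hq'
        have a1 := q.adj_getVert_succ (i := 0) (by omega)
        have a2 := q.adj_getVert_succ (i := 1) (by omega)
        have a3 : q.getVert (1 + 1) = b := q.getVert_of_length_le (by omega)
        rw [a3] at a2
        rw [q.getVert_zero] at a1
        rw [nb _ _ a2 w, nb _ _ a1 w, neg_neg, hq]
      have e1 := all z x
      have e2 := nb x z hz x
      exact zero x (by linarith)

theorem main (hc : G.Connected) (hd : DR G)
    (hp : ∀ i : ℕ, 1 ≤ i → i ≤ G.diam →
        (SimpleGraph.fromRel (fun u v : V => G.dist u v = i)).Connected)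
    (hcard : Fintype.card V ≠ 2) (h1 : ∀ θ ∈ s, E θ * E θ = E θ)
    (h2 : ∀ θ ∈ s, ∀ θ' ∈ s, θ ≠ θ' → E θ * E θ' = 0)
    (h3 : (∑ θ ∈ s, E θ) = 1) (h4 : G.adjMatrix ℝ = ∑ θ ∈ s, θ • E θ) :
    (∑ θ ∈ s, Matrix.hadamard (E θ) (E θ)).rank = Fintype.card V := by
  have hR : ∀ θ ∈ s, Rad G (E θ) := fun θ hθ => rad_E hc hd h1 h2 h3 h4 hθ
  set M := ∑ θ ∈ s, Matrix.hadamard (E θ) (E θ) with hM
  have hMR : Rad G M := Rad.sum _ _ (fun θ hθ => (hR θ hθ).had (hR θ hθ))
  obtain ⟨c, hc'⟩ := rad_poly' hc hd M hMR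
  have e : M = ∑ θ ∈ s, (∑ m ∈ range (G.diam + 1), c m * θ ^ m) • E θ := by
    rw [hc']
    simp only [spec_pow h1 h2 h3 h4, Finset.smul_sum, smul_smul, Finset.sum_smul]
    exact Finset.sum_comm
  set g : ℝ → ℝ := fun θ => ∑ m ∈ range (G.diam + 1), c m * θ ^ m with hg
  apply Matrix.rank_of_isUnit
  have : M * (∑ θ ∈ s, (g θ)⁻¹ • E θ) = 1 := by
    rw [e, spec_mul h1 h2 g, ← h3]
    refine Finset.sum_congr rfl (fun θ hθ => ?_)
    by_cases h0 : g θ = 0
    · have hME : M * E θ = 0 := by
        rw [e, (spec_mul_E h1 h2 g hθ).1, h0, zero_smul]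
      have := final hc hp hcard (h1 θ hθ) (hR θ hθ)
        (fun x y h => antip hc hd h1 h2 h3 h4 hθ hME x y h)
      simp [this]
    · rw [mul_inv_cancel₀ h0, one_smul]
  exact IsUnit.of_mul_eq_one _ this

end Pool.Agent.H16.AvgMix
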