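import Mathlib

namespace H16.Avoid

open Classical

inductive T (d : ℕ) : Type
  | root (y : Fin d) : T d
  | node (i : ℕ) (ch : Fin d → T d) (tag : ℕ) : T d

def T.lev {d : ℕ} : T d → ℕ
  | .root _ => 0
  | .node i _ _ => i + 1

def Lev (d m : ℕ) : ℕ → Set (T d)
  | 0 => Set.range T.root
  | i + 1 => {t | ∃ ch : Fin d → T d, ∃ tag, tag < m ∧ Function.Injective ch ∧
      (∀ j, ch j ∈ Lev d m i) ∧ t = T.node i ch tag}

theorem lev_finite (d m : ℕ) : ∀ i, (Lev d m i).Finite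
  | 0 => Set.finite_range _
  | i + 1 => by
    have h1 : {ch : Fin d → T d | ∀ j, ch j ∈ Lev d m i}.Finite :=
      Set.Finite.pi' (fun _ => lev_finite d m i)
    have h2 := (h1.prod (Set.finite_lt_nat m)).image (fun p => T.node i p.1 p.2)
    refine h2.subset ?_
    rintro t ⟨ch, tag, ht, -, hch, rfl⟩
    exact ⟨(ch, tag), ⟨hch, ht⟩, rfl⟩

theorem lev_eq {d m : ℕ} : ∀ {i} {t : T d}, t ∈ Lev d m i → t.lev = i
  | 0, _, ⟨_, h⟩ => by subst h; rfl
  | _ + 1, _, ⟨_, _, _, _, _, h⟩ => by subst h; rfl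

def L (d m h : ℕ) : Set (T d) := {t | ∃ i, i ≤ h ∧ t ∈ Lev d m i}

theorem L_finite (d m h : ℕ) : (L d m h).Finite := by
  have : L d m h = ⋃ i ∈ Set.Iic h, Lev d m i := by
    ext t; simp [L]
  rw [this]
  exact (Set.finite_Iic h).biUnion (fun i _ => lev_finite d m i)

instance (d m h : ℕ) : Finite (L d m h) := (L_finite d m h).to_subtype

abbrev Col (d m h : ℕ) := L d m h → Fin d → Bool

noncomputable def ext {d m h : ℕ} (c : Col d m h) (t : T d) : Fin d → Bool :=
  if ht : t ∈ L d m h then c ⟨t, ht⟩ else fun _ => false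

/-- a chain of `d`-sets, monochromatic on each positive level for all colourings in `Z`. -/
def Chain {d m h : ℕ} (Z : Finset (Col d m h)) (S : ℕ → Fin d → T d) : Prop :=
  ∀ i, Function.Injective (S i) ∧ (∀ j, S i j ∈ Lev d m i) ∧
    (∀ j, ∃ tag, S (i + 1) j = T.node i (S i) tag) ∧
    ∀ c ∈ Z, ∀ j j', ext c (S (i + 1) j) = ext c (S (i + 1) j')

theorem step {d m h : ℕ} (hm : 2 ^ (d * d) * d ≤ m) (Z : Finset (Col d m h)) (hZ : Z.card ≤ d)
    (i : ℕ) (S : Fin d → T d) :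
    ∃ tag : Fin d → ℕ, Function.Injective tag ∧ (∀ j, tag j < m) ∧
      ∀ c ∈ Z, ∀ j j', ext c (T.node i S (tag j)) = ext c (T.node i S (tag j')) := by
  let f : Fin m → (Z → Fin d → Bool) := fun t c => ext c.1 (T.node i S t.1)
  have hc : Fintype.card (Z → Fin d → Bool) * d ≤ Fintype.card (Fin m) := by
    simp only [Fintype.card_fun, Fintype.card_bool, Fintype.card_fin, Fintype.card_coe]
    refine le_trans (Nat.mul_le_mul_right _ ?_) hm
    rw [← pow_mul]
    exact Nat.pow_le_pow_right (by norm_num) (Nat.mul_le_mul_left _ hZ)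
  obtain ⟨y, hy⟩ := Fintype.exists_le_card_fiber_of_mul_le_card f hc
  obtain ⟨g, hg⟩ : ∃ g : Fin d ↪ Fin m, ∀ j, g j ∈ Finset.univ.filter (fun x => f x = y) := by
    have := Function.Embedding.exists_of_card_le_finset (α := Fin d)
      (s := Finset.univ.filter (fun x => f x = y)) (by simpa using hy)
    obtain ⟨g, hg⟩ := this
    exact ⟨g, fun j => hg ⟨j, rfl⟩⟩
  refine ⟨fun j => (g j).1, fun a b hab => g.injective (Fin.ext hab), fun j => (g j).2, ?_⟩
  intro c hc j j'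
  have h1 := (Finset.mem_filter.1 (hg j)).2
  have h2 := (Finset.mem_filter.1 (hg j')).2
  exact congrFun (h1.trans h2.symm) ⟨c, hc⟩

theorem exists_chain {d m h : ℕ} (hm : 2 ^ (d * d) * d ≤ m) (Z : Finset (Col d m h))
    (hZ : Z.card ≤ d) : ∃ S, Chain Z S := by
  choose tg htg using step hm Z hZ
  let S : ℕ → Fin d → T d := fun n =>
    Nat.rec (motive := fun _ => Fin d → T d) T.root (fun i Si j => T.node i Si (tg i Si j)) n
  have hS : ∀ i j, S (i + 1) j = T.node i (S i) (tg i (S i) j) := fun _ _ => rfl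
  have h12 : ∀ i, Function.Injective (S i) ∧ ∀ j, S i j ∈ Lev d m i := by
    intro i
    induction i with
    | zero => exact ⟨fun a b hab => T.root.inj hab, fun j => ⟨j, rfl⟩⟩
    | succ i ih =>
      refine ⟨fun a b hab => ?_, fun j => ⟨S i, _, (htg i (S i)).2.1 j, ih.1, ih.2, hS i j⟩⟩
      rw [hS, hS] at hab
      exact (htg i (S i)).1 (T.node.inj hab).2.2
  refine ⟨S, fun i => ⟨(h12 i).1, (h12 i).2, fun j => ⟨_, hS i j⟩, fun c hc j j' => ?_⟩⟩
  rw [hS, hS]
  exact (htg i (S i)).2.2 c hc j j'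

abbrev V (d m h : ℕ) := L d m h ⊕ Finset (Col d m h)

instance (d m h : ℕ) : Finite (V d m h) := by
  have : Fintype (L d m h) := Fintype.ofFinite _
  infer_instance

/-- out-neighbourhood of a selection node. -/
def G {d m h : ℕ} (S : Finset (Col d m h) → ℕ → Fin d → T d) (Z : Finset (Col d m h))
    (w : V d m h) : Prop :=
  (d ≤ Z.card ∧ ∃ z ∈ Z, w = Sum.inr (Z.erase z)) ∨
    (Z.card < d ∧ ∃ j, ∃ v : L d m h, v.1 = S Z h j ∧ w = Sum.inl v)

noncomputable def full (d m h : ℕ) : Finset (Col d m h) := (Set.toFinite Set.univ).toFinset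

def A {d m h : ℕ} (S : Finset (Col d m h) → ℕ → Fin d → T d) : V d m h → V d m h → Prop
  | Sum.inr Z, w => G S Z w
  | Sum.inl v, w => ((∃ y, v.1 = T.root y) ∧ G S (full d m h) w) ∨
      ∃ i ch tag j, ∃ u : L d m h, v.1 = T.node i ch tag ∧ u.1 = ch j ∧ w = Sum.inl u

theorem child_mem {d m h i tag : ℕ} {ch : Fin d → T d} (hv : T.node i ch tag ∈ L d m h) :
    i + 1 ≤ h ∧ Function.Injective ch ∧ ∀ j, ch j ∈ Lev d m i := by
  obtain ⟨n, hn, ht⟩ := hv
  have hl := lev_eq ht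
  simp only [T.lev] at hl
  subst hl
  obtain ⟨ch', tag', -, h1, h2, h3⟩ := ht
  obtain ⟨-, rfl, -⟩ := T.node.inj h3
  exact ⟨hn, h1, h2⟩

theorem irrefl {d m h : ℕ} (hh : 0 < h) (S : Finset (Col d m h) → ℕ → Fin d → T d)
    (hS : ∀ Z, Z.card < d → Chain Z (S Z)) (v : V d m h) : ¬ A S v v := by
  rcases v with v | Z
  · rintro (⟨⟨y, hy⟩, (⟨-, z, -, hz⟩ | ⟨hZ, j, u, hu, huv⟩)⟩ | ⟨i, ch, tag, j, u, hv, hu, huv⟩)
    · cases hz
    · obtain rfl := Sum.inl.inj huv
      have := lev_eq ((hS _ hZ h).2.1 j)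
      rw [← hu, hy] at this
      simp only [T.lev] at this
      omega
    · obtain rfl := Sum.inl.inj huv
      have h1 := child_mem (hv ▸ v.2)
      have := lev_eq (h1.2.2 j)
      rw [← hu, hv] at this
      simp only [T.lev] at this
      omega
  · rintro (⟨-, z, hz, h⟩ | ⟨-, j, u, -, h⟩)
    · have h' := Sum.inr.inj h
      have : z ∈ Z.erase z := h' ▸ hz
      simp at this
    · cases h

theorem le_ncard {α β : Type} [Finite β] [Fintype α] {s : Set β} (f : α → β)
    (hf : Function.Injective f) (h : ∀ a, f a ∈ s) : Fintype.card α ≤ s.ncard := by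
  have h1 : (Set.range f).ncard = Fintype.card α := by
    rw [← Set.image_univ, Set.ncard_image_of_injective _ hf, Set.ncard_univ, Nat.card_eq_fintype_card]
  rw [← h1]
  exact Set.ncard_le_ncard (by rintro _ ⟨a, rfl⟩; exact h a) (Set.toFinite _)

theorem G_deg {d m h : ℕ} (S : Finset (Col d m h) → ℕ → Fin d → T d)
    (hS : ∀ Z, Z.card < d → Chain Z (S Z)) (Z : Finset (Col d m h)) :
    d ≤ {w | G S Z w}.ncard := by
  by_cases hZ : d ≤ Z.card
  · refine hZ.trans ?_
    rw [← Fintype.card_coe]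
    refine le_ncard (fun z : Z => Sum.inr (Z.erase z.1)) ?_ (fun z => Or.inl ⟨hZ, z.1, z.2, rfl⟩)
    intro a b hab
    exact Subtype.ext (Finset.erase_injOn Z a.2 b.2 (Sum.inr.inj hab))
  · have hZ' : Z.card < d := not_le.1 hZ
    have hc := hS Z hZ' h
    have := le_ncard (s := {w | G S Z w})
      (fun j : Fin d => (Sum.inl ⟨S Z h j, h, le_rfl, hc.2.1 j⟩ : V d m h))
      (fun a b hab => hc.1 (congrArg Subtype.val (Sum.inl.inj hab)))
      (fun j => Or.inr ⟨hZ', j, _, rfl, rfl⟩)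
    simpa using this

theorem A_deg {d m h : ℕ} (S : Finset (Col d m h) → ℕ → Fin d → T d)
    (hS : ∀ Z, Z.card < d → Chain Z (S Z)) (v : V d m h) : d ≤ {w | A S v w}.ncard := by
  rcases v with ⟨t, ht⟩ | Z
  · cases t with
    | root y =>
      exact (G_deg S hS (full d m h)).trans (Set.ncard_le_ncard
        (fun w hw => Or.inl ⟨⟨y, rfl⟩, hw⟩) (Set.toFinite _))
    | node i ch tag =>
      have h1 := child_mem ht
      have := le_ncard (s := {w | A S (Sum.inl ⟨T.node i ch tag, ht⟩) w})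
        (fun j : Fin d => (Sum.inl ⟨ch j, i, by omega, h1.2.2 j⟩ : V d m h))
        (fun a b hab => h1.2.1 (congrArg Subtype.val (Sum.inl.inj hab)))
        (fun j => Or.inr ⟨i, ch, tag, j, _, rfl, rfl, rfl⟩)
      simpa using this
  · exact G_deg S hS Z

end H16.Avoid
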