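import Pool.Agent.H16.Avoid

namespace H16.Avoid

open Classical

section
variable {d m h k : ℕ} {S : Finset (Col d m h) → ℕ → Fin d → T d}
  {U : Set (V d m h)} {B : V d m h → V d m h → Prop}

theorem two_out (hk : 2 ≤ k) (hdeg : ∀ v ∈ U, k ≤ {w | B v w}.ncard) {v : V d m h} (hv : v ∈ U) :
    ∃ w w', B v w ∧ B v w' ∧ w ≠ w' := by
  have := (Set.one_lt_ncard_iff (Set.toFinite {w | B v w})).1 (by have := hdeg v hv; omega)
  exact this

def P (S : Finset (Col d m h) → ℕ → Fin d → T d) (U : Set (V d m h))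
    (B : V d m h → V d m h → Prop) (Z : Finset (Col d m h)) : Prop :=
  ∃ u ∈ U, ∀ w, B u w → G S Z w

theorem lemA (hk : 2 ≤ k) (hdeg : ∀ v ∈ U, k ≤ {w | B v w}.ncard)
    (hsub : ∀ u v, B u v → A S u v ∧ u ∈ U ∧ v ∈ U) :
    ∀ n (Z : Finset (Col d m h)), Z.card = n → P S U B Z → ∃ v : L d m h, Sum.inl v ∈ U := by
  intro n
  induction n using Nat.strong_induction_on with
  | _ n ih =>
    rintro Z rfl ⟨u, hu, hG⟩
    obtain ⟨w, -, hw, -, -⟩ := two_out hk hdeg hu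
    rcases hG w hw with ⟨-, z, hz, rfl⟩ | ⟨-, j, v, -, rfl⟩
    · exact ih _ (Finset.card_erase_lt_of_mem hz) _ rfl
        ⟨_, (hsub _ _ hw).2.2, fun w' hw' => (hsub _ _ hw').1⟩
    · exact ⟨v, (hsub _ _ hw).2.2⟩

theorem lemB (hk : 2 ≤ k) (hdeg : ∀ v ∈ U, k ≤ {w | B v w}.ncard)
    (hsub : ∀ u v, B u v → A S u v ∧ u ∈ U ∧ v ∈ U) :
    ∀ n (v : L d m h), v.1.lev = n → Sum.inl v ∈ U → P S U B (full d m h) := by
  intro n
  induction n using Nat.strong_induction_on with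
  | _ n ih =>
    rintro ⟨t, ht⟩ rfl hv
    cases t with
    | root y =>
      refine ⟨_, hv, fun w hw => ?_⟩
      rcases (hsub _ _ hw).1 with ⟨-, hG⟩ | ⟨i, ch, tag, j, u, h1, -, -⟩
      · exact hG
      · cases h1
    | node i ch tag =>
      obtain ⟨w, -, hw, -, -⟩ := two_out hk hdeg hv
      rcases (hsub _ _ hw).1 with ⟨⟨y, hy⟩, -⟩ | ⟨i', ch', tag', j, u, h1, h2, rfl⟩
      · cases hy
      · obtain ⟨rfl, rfl, rfl⟩ := T.node.inj h1
        have h3 := lev_eq ((child_mem ht).2.2 j)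
        refine ih u.1.lev ?_ u rfl (hsub _ _ hw).2.2
        rw [h2, h3]; simp [T.lev]

theorem lemC (hk : 2 ≤ k) (hdeg : ∀ v ∈ U, k ≤ {w | B v w}.ncard)
    (hsub : ∀ u v, B u v → A S u v ∧ u ∈ U ∧ v ∈ U) (c : Col d m h) :
    ∀ n (Z : Finset (Col d m h)), Z.card = n → P S U B Z → c ∈ Z →
      ∃ Z' : Finset (Col d m h), c ∈ Z' ∧ Z'.card < d ∧
        ∃ j, ∃ v : L d m h, v.1 = S Z' h j ∧ Sum.inl v ∈ U := by
  intro n
  induction n using Nat.strong_induction_on with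
  | _ n ih =>
    rintro Z rfl ⟨u, hu, hG⟩ hc
    obtain ⟨w, w', hw, hw', hne⟩ := two_out hk hdeg hu
    have key : ∀ z ∈ Z, z ≠ c → B u (Sum.inr (Z.erase z)) → ∃ Z' : Finset (Col d m h),
        c ∈ Z' ∧ Z'.card < d ∧ ∃ j, ∃ v : L d m h, v.1 = S Z' h j ∧ Sum.inl v ∈ U :=
      fun z hz hzc hb => ih _ (Finset.card_erase_lt_of_mem hz) _ rfl
        ⟨_, (hsub _ _ hb).2.2, fun w' hw' => (hsub _ _ hw').1⟩
        (Finset.mem_erase.2 ⟨fun e => hzc e.symm, hc⟩)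
    rcases hG w hw with ⟨-, z, hz, rfl⟩ | ⟨hZ, j, v, hv, rfl⟩
    · rcases hG w' hw' with ⟨-, z', hz', rfl⟩ | ⟨hZ, j, v, hv, rfl⟩
      · by_cases hzc : z = c
        · refine key z' hz' (fun e => hne ?_) hw'
          rw [hzc, e]
        · exact key z hz hzc hw
      · exact ⟨Z, hc, hZ, j, v, hv, (hsub _ _ hw').2.2⟩
    · exact ⟨Z, hc, hZ, j, v, hv, (hsub _ _ hw).2.2⟩

noncomputable def col (B : V d m h → V d m h → Prop) : Col d m h := fun v j =>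
  decide (∃ i ch tag, ∃ u : L d m h, v.1 = T.node i ch tag ∧ u.1 = ch j ∧
    B (Sum.inl v) (Sum.inl u))

theorem lemR (hdeg : ∀ v ∈ U, k ≤ {w | B v w}.ncard)
    (hsub : ∀ u v, B u v → A S u v ∧ u ∈ U ∧ v ∈ U) {Z : Finset (Col d m h)}
    {R : ℕ → Fin d → T d} (hR : Chain Z R) (hc : col B ∈ Z) (i : ℕ) (hi : i + 1 ≤ h)
    (hQ : ∃ j, ∃ v : L d m h, v.1 = R (i + 1) j ∧ Sum.inl v ∈ U) :
    ∃ g : Fin k ↪ Fin d, ∀ a j, ∀ v u : L d m h, v.1 = R (i + 1) j → u.1 = R i (g a) →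
      B (Sum.inl v) (Sum.inl u) := by
  obtain ⟨j0, v0, hv0, hU⟩ := hQ
  let I : Finset (Fin d) := Finset.univ.filter (fun j => col B v0 j = true)
  let φ : Fin d → V d m h := fun j => Sum.inl ⟨R i j, i, by omega, (hR i).2.1 j⟩
  have hsubI : {w | B (Sum.inl v0) w} ⊆ φ '' (I : Set (Fin d)) := by
    intro w hw
    obtain ⟨tag0, htag0⟩ := (hR i).2.2.1 j0
    rcases (hsub _ _ hw).1 with ⟨⟨y, hy⟩, -⟩ | ⟨i', ch', tag', j, u, h1, h2, rfl⟩
    · rw [hv0, htag0] at hy; cases hy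
    · have h3 := h1
      rw [hv0, htag0] at h3
      obtain ⟨rfl, rfl, rfl⟩ := T.node.inj h3
      refine ⟨j, ?_, congrArg Sum.inl (Subtype.ext h2.symm)⟩
      simp only [I, Finset.coe_filter, Finset.mem_univ, true_and, Set.mem_ofPred_eq, col,
        decide_eq_true_eq]
      exact ⟨_, _, _, u, h1, h2, hw⟩
  have hcard : Fintype.card (Fin k) ≤ I.card := by
    have h1 := Set.ncard_le_ncard hsubI (Set.toFinite _)
    have h2 := Set.ncard_image_le (f := φ) (s := (I : Set (Fin d))) (Set.toFinite _)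
    have h3 := hdeg _ hU
    rw [Set.ncard_coe_finset] at h2
    simp only [Fintype.card_fin]; omega
  obtain ⟨g, hg⟩ := Function.Embedding.exists_of_card_le_finset hcard
  refine ⟨g, fun a j v u hv hu => ?_⟩
  have h1 : col B v0 (g a) = true := by
    have := hg ⟨a, rfl⟩
    simpa [I] using this
  have h2 := congrFun ((hR i).2.2.2 _ hc j j0) (g a)
  rw [← hv, ← hv0] at h2
  simp only [ext, v.2, v0.2, dif_pos] at h2
  have h3 : col B v (g a) = true := h2.trans h1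
  simp only [col, decide_eq_true_eq] at h3
  obtain ⟨i', ch, tag, u', h4, h5, h6⟩ := h3
  obtain ⟨tag0, htag0⟩ := (hR i).2.2.1 j
  rw [hv, htag0] at h4
  obtain ⟨rfl, rfl, rfl⟩ := T.node.inj h4
  obtain rfl : u' = u := Subtype.ext (h5.trans hu.symm)
  exact h6

theorem main (hk : 2 ≤ k) (hS : ∀ Z, Z.card < d → Chain Z (S Z)) (hne : U.Nonempty)
    (hdeg : ∀ v ∈ U, k ≤ {w | B v w}.ncard)
    (hsub : ∀ u v, B u v → A S u v ∧ u ∈ U ∧ v ∈ U)
    {W : Type} (F : W → W → Prop) (e : W ↪ Fin k) (lv : W → ℕ) (hlv : ∀ w, lv w + 1 ≤ h)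
    (hF : ∀ a b, F a b → lv a = lv b + 1) :
    ∃ f : W → V d m h, Function.Injective f ∧ (∀ w, f w ∈ U) ∧ ∀ a b, F a b → B (f a) (f b) := by
  obtain ⟨v1, hv1⟩ : ∃ v : L d m h, Sum.inl v ∈ U := by
    obtain ⟨u | Z, hu⟩ := hne
    · exact ⟨u, hu⟩
    · exact lemA hk hdeg hsub _ Z rfl ⟨_, hu, fun w hw => (hsub _ _ hw).1⟩
  obtain ⟨Z, hc, hZ, hQ⟩ := lemC hk hdeg hsub (col B) _ _ rfl (lemB hk hdeg hsub _ v1 rfl hv1)
    (by simp [full])
  have hR := hS Z hZ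
  have hmem : ∀ i j, i ≤ h → S Z i j ∈ L d m h := fun i j hi => ⟨i, hi, (hR i).2.1 j⟩
  have hQ' : ∀ n i, i + n = h → ∃ j, ∃ v : L d m h, v.1 = S Z i j ∧ Sum.inl v ∈ U := by
    intro n
    induction n with
    | zero => intro i hi; obtain rfl : i = h := by omega
              exact hQ
    | succ n ih =>
      intro i hi
      have h1 := ih (i + 1) (by omega)
      obtain ⟨g, hg⟩ := lemR hdeg hsub hR hc i (by omega) h1
      obtain ⟨j, v, hv, -⟩ := h1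
      exact ⟨g ⟨0, by omega⟩, ⟨_, hmem i _ (by omega)⟩, rfl,
        (hsub _ _ (hg ⟨0, by omega⟩ j v _ hv rfl)).2.2⟩
  have hg : ∀ i, i + 1 ≤ h → ∃ g : Fin k ↪ Fin d, ∀ a j, ∀ v u : L d m h,
      v.1 = S Z (i + 1) j → u.1 = S Z i (g a) → B (Sum.inl v) (Sum.inl u) :=
    fun i hi => lemR hdeg hsub hR hc i hi (hQ' (h - (i + 1)) _ (by omega))
  choose g hg using hg
  refine ⟨fun w => Sum.inl ⟨S Z (lv w) (g _ (hlv w) (e w)), hmem _ _ (by have := hlv w; omega)⟩,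
    fun a b hab => ?_, fun w => ?_, fun a b hab => ?_⟩
  · have h1 : S Z (lv a) (g _ (hlv a) (e a)) = S Z (lv b) (g _ (hlv b) (e b)) :=
      congrArg Subtype.val (Sum.inl.inj hab)
    have h2 : lv a = lv b := by
      rw [← lev_eq ((hR (lv a)).2.1 (g _ (hlv a) (e a))), h1, lev_eq ((hR (lv b)).2.1 _)]
    have h3 : ∀ i (hi : i + 1 ≤ h) (hi' : i = lv b), S Z i (g i hi (e a)) =
        S Z (lv b) (g _ (hlv b) (e b)) → a = b := by
      intro i hi hi' h4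
      subst hi'
      exact e.injective ((g _ _).injective ((hR _).1 h4))
    exact h3 _ _ h2 h1
  · obtain ⟨j, v, hv, -⟩ := hQ' (h - (lv w + 1)) (lv w + 1) (by have := hlv w; omega)
    exact (hsub _ _ (hg _ (hlv w) (e w) j v _ hv rfl)).2.2
  · refine hg _ (hlv b) (e b) (g _ (hlv a) (e a)) _ _ ?_ rfl
    simp only
    rw [← hF a b hab]

end

end H16.Avoid
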