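import Mathlib

set_option autoImplicit false

namespace Pool.Agent.H16.BarRig
open Set

abbrev E2 := EuclideanSpace ℝ (Fin 2)

/-- The framework (G, p) is flexible: a continuous motion on [0,1] starting at p keeps all bar
lengths and reaches a placement that is not congruent to p (some pairwise distance changes). -/
def Flexible {n : ℕ} (G : SimpleGraph (Fin n)) (p : Fin n → E2) : Prop :=
  ∃ q : ℝ → Fin n → E2, ContinuousOn q (Icc 0 1) ∧ q 0 = p ∧
    (∀ t ∈ Icc (0 : ℝ) 1, ∀ u v, G.Adj u v → dist (q t u) (q t v) = dist (p u) (p v)) ∧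
    ∃ t ∈ Icc (0 : ℝ) 1, ∃ u v, dist (q t u) (q t v) ≠ dist (p u) (p v)

/-- G is generically rigid in the plane: (G, p) is rigid for every generic p. -/
def GenRigid {n : ℕ} (G : SimpleGraph (Fin n)) : Prop :=
  ∀ p : Fin n → E2, AlgebraicIndependent ℚ (fun x : Fin n × Fin 2 => p x.1 x.2) → ¬ Flexible G p

theorem dist_iff (x y z w : E2) : dist x y = dist z w ↔
    (x 0 - y 0) ^ 2 + (x 1 - y 1) ^ 2 = (z 0 - w 0) ^ 2 + (z 1 - w 1) ^ 2 := by
  rw [EuclideanSpace.dist_eq, EuclideanSpace.dist_eq, Real.sqrt_inj (by positivity) (by positivity)]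
  simp [Fin.sum_univ_two, Real.dist_eq, sq_abs]

section
variable {n : ℕ} (v0 v1 : Fin n) (e : Fin n × Fin 2 → Fin n × Fin n)

def RM {R : Type} [CommRing R] (m : Fin n × Fin 2 → R) : Matrix (Fin n × Fin 2) (Fin n × Fin 2) R :=
  fun x y => if x.1 = v0 ∨ x.1 = v1 then (if y = x then 1 else 0) else
    (if y.1 = (e x).1 then m ((e x).1, y.2) - m ((e x).2, y.2) else 0) -
    (if y.1 = (e x).2 then m ((e x).1, y.2) - m ((e x).2, y.2) else 0)

theorem RM_mulVec {R : Type} [CommRing R] (m δ : Fin n × Fin 2 → R) (x : Fin n × Fin 2) :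
    (RM v0 v1 e m).mulVec δ x = if x.1 = v0 ∨ x.1 = v1 then δ x else
      (m ((e x).1, 0) - m ((e x).2, 0)) * (δ ((e x).1, 0) - δ ((e x).2, 0)) +
      (m ((e x).1, 1) - m ((e x).2, 1)) * (δ ((e x).1, 1) - δ ((e x).2, 1)) := by
  unfold Matrix.mulVec dotProduct RM
  by_cases h : x.1 = v0 ∨ x.1 = v1
  · simp [h]
  · simp only [h, if_false, sub_mul, Finset.sum_sub_distrib, Fintype.sum_prod_type, ite_mul,
      zero_mul, Fin.sum_univ_two, Finset.sum_add_distrib, Finset.sum_ite_eq', Finset.mem_univ,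
      if_true]
    ring

theorem RM_map {R S : Type} [CommRing R] [CommRing S] (f : R →+* S) (m : Fin n × Fin 2 → R) :
    f.mapMatrix (RM v0 v1 e m) = RM v0 v1 e (fun x => f (m x)) := by
  ext x y
  simp only [RingHom.mapMatrix_apply, Matrix.map_apply, RM]
  split_ifs <;> simp

theorem det_gen (p0 : Fin n × Fin 2 → ℚ) (h0 : (RM v0 v1 e p0).det ≠ 0)
    (p : Fin n × Fin 2 → ℝ) (hp : AlgebraicIndependent ℚ p) : (RM v0 v1 e p).det ≠ 0 := by
  intro h
  apply h0
  have a1 := RingHom.map_det (MvPolynomial.aeval p : MvPolynomial (Fin n × Fin 2) ℚ →ₐ[ℚ] ℝ).toRingHom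
    (RM v0 v1 e MvPolynomial.X)
  have a2 := RingHom.map_det (MvPolynomial.aeval p0 : MvPolynomial (Fin n × Fin 2) ℚ →ₐ[ℚ] ℚ).toRingHom
    (RM v0 v1 e MvPolynomial.X)
  rw [RM_map] at a1 a2
  simp only [AlgHom.toRingHom_eq_coe, RingHom.coe_coe, MvPolynomial.aeval_X] at a1 a2
  have a3 : (RM v0 v1 e (MvPolynomial.X : _ → MvPolynomial (Fin n × Fin 2) ℚ)).det = 0 := by
    apply hp
    rw [a1, map_zero]
    exact h
  rw [← a2, a3, map_zero]

theorem cont_det : Continuous (fun m : Fin n × Fin 2 → ℝ => (RM v0 v1 e m).det) := by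
  apply Continuous.matrix_det
  refine continuous_pi fun x => continuous_pi fun y => ?_
  simp only [RM]
  split_ifs <;> fun_prop

end

theorem gen_rigid {n : ℕ} (G : SimpleGraph (Fin n)) (v0 v1 : Fin n) (h01 : G.Adj v0 v1)
    (e : Fin n × Fin 2 → Fin n × Fin n)
    (he : ∀ x : Fin n × Fin 2, ¬ (x.1 = v0 ∨ x.1 = v1) → G.Adj (e x).1 (e x).2)
    (p0 : Fin n × Fin 2 → ℚ)
    (hp0 : ∀ δ : Fin n × Fin 2 → ℚ, (RM v0 v1 e p0).mulVec δ = 0 → δ = 0) : GenRigid G := by
  have h0 : (RM v0 v1 e p0).det ≠ 0 := by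
    intro h
    obtain ⟨δ, hδ, h2⟩ := Matrix.exists_mulVec_eq_zero_iff.2 h
    exact hδ (hp0 δ h2)
  rintro p hp ⟨q, hq, hq0, hlen, t, ht, u, v, hne⟩
  have hd := det_gen v0 v1 e p0 h0 _ hp
  set P : Fin n × Fin 2 → ℝ := fun x => p x.1 x.2 with hP
  -- the edge v0 v1 has positive length
  set A := p v1 0 - p v0 0 with hA
  set B := p v1 1 - p v0 1 with hB
  have hA0 : A ≠ 0 := by
    intro h
    have : P (v1, 0) = P (v0, 0) := sub_eq_zero.1 h
    have := hp.injective this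
    exact h01.ne (Prod.mk.inj this).1.symm
  have hL : 0 < A ^ 2 + B ^ 2 := by positivity
  let C : ℝ → ℝ := fun s => q s v1 0 - q s v0 0
  let D : ℝ → ℝ := fun s => q s v1 1 - q s v0 1
  let α : ℝ → ℝ := fun s => (A * C s + B * D s) / (A ^ 2 + B ^ 2)
  let β : ℝ → ℝ := fun s => (B * C s - A * D s) / (A ^ 2 + B ^ 2)
  have hCD : ∀ s ∈ Icc (0 : ℝ) 1, C s ^ 2 + D s ^ 2 = A ^ 2 + B ^ 2 := fun s hs =>
    (dist_iff _ _ _ _).1 (hlen s hs v1 v0 h01.symm)
  have hαβ : ∀ s ∈ Icc (0 : ℝ) 1, α s ^ 2 + β s ^ 2 = 1 := by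
    intro s hs
    have := hCD s hs
    simp only [α, β]
    field_simp
    linear_combination (A ^ 2 + B ^ 2) * this
  let r : ℝ → Fin n × Fin 2 → ℝ := fun s x =>
    if x.2 = 0 then p v0 0 + (α s * (q s x.1 0 - q s v0 0) - β s * (q s x.1 1 - q s v0 1))
    else p v0 1 + (β s * (q s x.1 0 - q s v0 0) + α s * (q s x.1 1 - q s v0 1))
  have hr : ∀ s ∈ Icc (0 : ℝ) 1, ∀ a b : Fin n,
      (r s (a, 0) - r s (b, 0)) ^ 2 + (r s (a, 1) - r s (b, 1)) ^ 2 =
        (q s a 0 - q s b 0) ^ 2 + (q s a 1 - q s b 1) ^ 2 := by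
    intro s hs a b
    have := hαβ s hs
    simp only [r, if_true, one_ne_zero, if_false]
    linear_combination ((q s a 0 - q s b 0) ^ 2 + (q s a 1 - q s b 1) ^ 2) * this
  have hc : ∀ (a : Fin n) (k : Fin 2), ContinuousOn (fun s => q s a k) (Icc 0 1) := by
    intro a k
    have h1 : Continuous (fun z : Fin n → E2 => z a k) := by fun_prop
    exact h1.comp_continuousOn hq
  have hαc : ContinuousOn α (Icc 0 1) :=
    ((continuousOn_const.mul ((hc v1 0).sub (hc v0 0))).add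
      (continuousOn_const.mul ((hc v1 1).sub (hc v0 1)))).div_const _
  have hβc : ContinuousOn β (Icc 0 1) :=
    ((continuousOn_const.mul ((hc v1 0).sub (hc v0 0))).sub
      (continuousOn_const.mul ((hc v1 1).sub (hc v0 1)))).div_const _
  have hrc : ContinuousOn r (Icc 0 1) := by
    refine continuousOn_pi.2 fun x => ?_
    simp only [r]
    split_ifs
    · exact continuousOn_const.add ((hαc.mul ((hc _ 0).sub (hc v0 0))).sub
        (hβc.mul ((hc _ 1).sub (hc v0 1))))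
    · exact continuousOn_const.add ((hβc.mul ((hc _ 0).sub (hc v0 0))).add
        (hαc.mul ((hc _ 1).sub (hc v0 1))))
  have hr0 : r 0 = P := by
    have h1 : α 0 = 1 := by
      simp only [α, C, D, hq0, ← hA, ← hB]
      field_simp
    have h2 : β 0 = 0 := by
      simp only [β, C, D, hq0, ← hA, ← hB]
      field_simp
      ring
    ext ⟨a, k⟩
    fin_cases k <;> simp [r, h1, h2, hq0, hP]
  have hpin : ∀ s ∈ Icc (0 : ℝ) 1, ∀ x : Fin n × Fin 2, (x.1 = v0 ∨ x.1 = v1) → r s x = P x := by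
    rintro s hs ⟨a, k⟩ (rfl | rfl)
    · fin_cases k <;> simp [r, hP]
    · have := hCD s hs
      fin_cases k
      · have h1 : α s * C s - β s * D s = A := by
          simp only [α, β]
          field_simp
          linear_combination A * this
        simp only [C, D] at h1
        simp [r, hP, h1, hA]
      · have h1 : β s * C s + α s * D s = B := by
          simp only [α, β]
          field_simp
          linear_combination B * this
        simp only [C, D] at h1
        simp [r, hP, h1, hB]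
  have hloc : ∀ s ∈ Icc (0 : ℝ) 1, (RM v0 v1 e (fun x => (r s x + P x) / 2)).det ≠ 0 → r s = P := by
    intro s hs hdet
    have hz : (RM v0 v1 e (fun x => (r s x + P x) / 2)).mulVec (r s - P) = 0 := by
      ext x
      rw [RM_mulVec]
      split_ifs with hx
      · simp [hpin s hs x hx]
      · have h1 := (dist_iff _ _ _ _).1 (hlen s hs _ _ (he x hx))
        have h2 := hr s hs (e x).1 (e x).2
        simp only [Pi.sub_apply, Pi.zero_apply, hP]
        linear_combination (h1 + h2) / 2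
    by_contra hne
    exact hdet (Matrix.exists_mulVec_eq_zero_iff.1 ⟨_, sub_ne_zero.2 hne, hz⟩)
  have hall : ∀ s ∈ Icc (0 : ℝ) 1, r s = P := by
    let f : Icc (0 : ℝ) 1 → (Fin n × Fin 2 → ℝ) := fun s => r s
    have hf : Continuous f := hrc.domRestrict
    have hcl : IsClosed {s | f s = P} := isClosed_eq hf continuous_const
    have hop : IsOpen {s | f s = P} := by
      have : {s | f s = P} = {s | (RM v0 v1 e (fun x => (f s x + P x) / 2)).det ≠ 0} := by
        ext s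
        constructor
        · intro h
          have h' : f s = P := h
          have : (fun x => (f s x + P x) / 2) = P := by
            ext x
            rw [h']
            ring
          show (RM v0 v1 e (fun x => (f s x + P x) / 2)).det ≠ 0
          rw [this]
          exact hd
        · intro h
          exact hloc s s.2 h
      rw [this]
      refine isOpen_ne_fun ((cont_det v0 v1 e).comp ?_) continuous_const
      fun_prop
    have : {s | f s = P} = univ :=
      IsClopen.eq_univ ⟨hcl, hop⟩ ⟨⟨0, by simp⟩, hr0⟩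
    intro s hs
    have h2 : (⟨s, hs⟩ : Icc (0 : ℝ) 1) ∈ {s | f s = P} := by
      rw [this]
      trivial
    exact h2
  apply hne
  rw [dist_iff, ← hr t ht u v, hall t ht]

theorem ift_path {N : ℕ} (Φ : (Fin N → ℝ) → (Fin N → ℝ)) (hΦ : ContDiff ℝ 1 Φ) (x0 w : Fin N → ℝ)
    (hq : ∀ (v : Fin N → ℝ) (s : ℝ) (i : Fin N), Φ (x0 + s • v) i = Φ x0 i +
      s * ((Φ (x0 + v) i - Φ (x0 - v) i) / 2) + s ^ 2 * ((Φ (x0 + v) i + Φ (x0 - v) i) / 2 - Φ x0 i))
    (hinj : ∀ v, Φ (x0 + v) = Φ (x0 - v) → v = 0) :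
    ∃ ε : ℝ, 0 < ε ∧ ∃ γ : ℝ → Fin N → ℝ, ContinuousOn γ (Icc 0 1) ∧ γ 0 = x0 ∧
      ∀ t ∈ Icc (0 : ℝ) 1, Φ (γ t) = Φ x0 + (t * ε) • w := by
  have hd : HasFDerivAt Φ (fderiv ℝ Φ x0) x0 := (hΦ.differentiable one_ne_zero x0).hasFDerivAt
  have hi : Function.Injective (fderiv ℝ Φ x0).toLinearMap := by
    rw [injective_iff_map_eq_zero]
    intro v hv
    apply hinj
    ext i
    have h1 : HasDerivAt (fun s : ℝ => x0 + s • v) v 0 := by
      simpa using ((hasDerivAt_id (0 : ℝ)).smul_const v).const_add x0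
    have h2 : HasFDerivAt Φ (fderiv ℝ Φ x0) (x0 + (0 : ℝ) • v) := by simpa using hd
    have h3 := (hasDerivAt_pi.1 (h2.comp_hasDerivAt (0 : ℝ) h1)) i
    have hv' : (fderiv ℝ Φ x0) v = 0 := hv
    rw [hv'] at h3
    have h4 : HasDerivAt (fun s : ℝ => Φ x0 i + s * ((Φ (x0 + v) i - Φ (x0 - v) i) / 2) +
        s ^ 2 * ((Φ (x0 + v) i + Φ (x0 - v) i) / 2 - Φ x0 i)) ((Φ (x0 + v) i - Φ (x0 - v) i) / 2) 0 := by
      have a := ((hasDerivAt_id (0 : ℝ)).mul_const ((Φ (x0 + v) i - Φ (x0 - v) i) / 2)).const_add (Φ x0 i)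
      have b := (hasDerivAt_pow 2 (0 : ℝ)).mul_const ((Φ (x0 + v) i + Φ (x0 - v) i) / 2 - Φ x0 i)
      have c := a.add b
      refine (c.congr_deriv ?_).congr_of_eventuallyEq (Filter.Eventually.of_forall fun s => rfl)
      simp
    have h5 : (fun s : ℝ => (Φ ∘ fun s : ℝ => x0 + s • v) s i) = fun s : ℝ => Φ x0 i +
        s * ((Φ (x0 + v) i - Φ (x0 - v) i) / 2) +
        s ^ 2 * ((Φ (x0 + v) i + Φ (x0 - v) i) / 2 - Φ x0 i) := by
      ext s
      exact hq v s i
    rw [h5] at h3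
    have := h3.unique h4
    simp only [Pi.zero_apply] at this
    linarith
  let L : (Fin N → ℝ) ≃L[ℝ] (Fin N → ℝ) :=
    (LinearEquiv.ofInjectiveEndo _ hi).toContinuousLinearEquiv
  have hL : HasFDerivAt Φ (L : (Fin N → ℝ) →L[ℝ] (Fin N → ℝ)) x0 := by
    have : (L : (Fin N → ℝ) →L[ℝ] (Fin N → ℝ)) = fderiv ℝ Φ x0 := by
      ext1 v
      rfl
    rw [this]
    exact hd
  let H := hΦ.contDiffAt.toOpenPartialHomeomorph Φ hL one_ne_zero
  have hs : x0 ∈ H.source := ContDiffAt.mem_toOpenPartialHomeomorph_source _ _ _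
  have hH : (H : (Fin N → ℝ) → (Fin N → ℝ)) = Φ := rfl
  have htg : Φ x0 ∈ H.target := hH ▸ H.map_source hs
  obtain ⟨δ, hδ, hball⟩ := Metric.isOpen_iff.1 H.open_target _ htg
  have hw : 0 < ‖w‖ + 1 := by positivity
  have hin : ∀ t ∈ Icc (0 : ℝ) 1, Φ x0 + (t * (δ / (‖w‖ + 1))) • w ∈ H.target := by
    intro t ht
    apply hball
    rw [mem_ball_iff_norm, add_sub_cancel_left, norm_smul, Real.norm_eq_abs,
      abs_of_nonneg (mul_nonneg ht.1 (by positivity))]
    have h1 : t * (δ / (‖w‖ + 1)) ≤ δ / (‖w‖ + 1) := mul_le_of_le_one_left (by positivity) ht.2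
    have h2 : δ / (‖w‖ + 1) * ‖w‖ < δ := by
      rw [div_mul_eq_mul_div, div_lt_iff₀ hw]
      nlinarith
    exact lt_of_le_of_lt (mul_le_mul_of_nonneg_right h1 (norm_nonneg _)) h2
  refine ⟨δ / (‖w‖ + 1), by positivity, fun t => H.symm (Φ x0 + (t * (δ / (‖w‖ + 1))) • w), ?_, ?_, ?_⟩
  · refine H.continuousOn_symm.comp (by fun_prop) fun t ht => hin t ht
  · simp only [zero_mul, zero_smul, add_zero]
    rw [← hH]
    exact H.left_inv hs
  · intro t ht
    rw [← hH]
    exact H.right_inv (hH ▸ hin t ht)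

theorem conn_of_cert {n : ℕ} (G : SimpleGraph (Fin n)) (X : Set (Fin n)) (r : Fin n) (hr : r ∉ X)
    (par : Fin n → Fin n) (dep : Fin n → ℕ)
    (h : ∀ v, v ∉ X → v = r ∨ (par v ∉ X ∧ G.Adj (par v) v ∧ dep (par v) < dep v)) :
    (G.induce Xᶜ).Connected := by
  rw [SimpleGraph.connected_iff_exists_forall_reachable]
  refine ⟨⟨r, hr⟩, fun ⟨v, hv⟩ => ?_⟩
  induction hk : dep v using Nat.strong_induction_on generalizing v with
  | _ k ih =>
    rcases h v hv with rfl | ⟨h1, h2, h3⟩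
    · exact SimpleGraph.Reachable.refl _
    · exact (ih _ (hk ▸ h3) (par v) h1 rfl).trans (SimpleGraph.Adj.reachable h2)

end Pool.Agent.H16.BarRig
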