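import Mathlib

namespace Pool.Agent.H16.Blocks

open Finset

variable {α : Type} [DecidableEq α]

theorem exists_blocks (r : ℕ) (hr : 1 ≤ r) (k : ℕ) : ∀ Y : Finset α, r * k ≤ Y.card →
    ∃ M : Finset (Finset α), M.card = k ∧ (∀ A ∈ M, A.card = r) ∧
      (∀ A ∈ M, ∀ B ∈ M, A ≠ B → Disjoint A B) ∧ ∀ A ∈ M, A ⊆ Y := by
  induction k with
  | zero => intro Y _; exact ⟨∅, by simp⟩
  | succ k ih =>
    intro Y hY
    rw [Nat.mul_succ] at hY
    obtain ⟨A, hA, hc⟩ := exists_subset_card_eq (s := Y) (n := r) (by omega)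
    obtain ⟨M, h1, h2, h3, h4⟩ := ih (Y \ A) (by rw [card_sdiff_of_subset hA]; omega)
    have hd : ∀ B ∈ M, Disjoint A B := fun B hB =>
      disjoint_of_subset_right (h4 B hB) disjoint_sdiff
    have hn : A ∉ M := by
      intro h
      have := (disjoint_self_iff_empty A).1 (hd A h)
      rw [this] at hc; simp at hc; omega
    refine ⟨insert A M, by rw [card_insert_of_notMem hn, h1], ?_, ?_, ?_⟩
    · intro B hB
      rcases mem_insert.1 hB with rfl | hB
      · exact hc
      · exact h2 B hB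
    · intro B hB C hC hBC
      rcases mem_insert.1 hB with rfl | hB' <;> rcases mem_insert.1 hC with rfl | hC'
      · exact absurd rfl hBC
      · exact hd C hC'
      · exact (hd B hB').symm
      · exact h3 B hB' C hC' hBC
    · intro B hB
      rcases mem_insert.1 hB with rfl | hB
      · exact hA
      · exact (h4 B hB).trans sdiff_subset

theorem card_bU (r : ℕ) (M : Finset (Finset α)) (h2 : ∀ A ∈ M, A.card = r)
    (h3 : ∀ A ∈ M, ∀ B ∈ M, A ≠ B → Disjoint A B) : (M.biUnion id).card = r * M.card := by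
  rw [card_biUnion (t := id) (fun A hA B hB h => h3 A hA B hB h), mul_comm]
  exact sum_const_nat h2

theorem card_choice (M : Finset (Finset α)) (c : Finset α → α) (hc : ∀ A ∈ M, c A ∈ A)
    (h3 : ∀ A ∈ M, ∀ B ∈ M, A ≠ B → Disjoint A B) : (M.image c).card = M.card := by
  apply card_image_of_injOn
  intro A hA B hB h
  by_contra hn
  exact disjoint_left.1 (h3 A hA B hB hn) (hc A hA) (h ▸ hc B hB)

theorem choice_sub (M : Finset (Finset α)) (c : Finset α → α) (hc : ∀ A ∈ M, c A ∈ A) :
    M.image c ⊆ M.biUnion id := by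
  intro x hx
  obtain ⟨A, hA, rfl⟩ := mem_image.1 hx
  exact mem_biUnion.2 ⟨A, hA, hc A hA⟩

end Pool.Agent.H16.Blocks
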