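import Mathlib

namespace Pool.Agent.H16.CG

open Filter Topology

/-- Convex geometry: (G1), (G2), (G3). -/
def IsCG {X : Type} (G : Set (Set X)) : Prop :=
  ∅ ∈ G ∧ (∀ F ∈ G, ∀ H ∈ G, F ∩ H ∈ G) ∧ ∀ F ∈ G, F ≠ Set.univ → ∃ x, x ∉ F ∧ insert x F ∈ G

/-- The convex hull: the least member containing `A`. -/
def conv {X : Type} (G : Set (Set X)) (A : Set X) : Set X := ⋂₀ {B | B ∈ G ∧ A ⊆ B}

/-- Extreme points of `A`. -/
def ex {X : Type} (G : Set (Set X)) (A : Set X) : Set X := {a | a ∈ A ∧ a ∉ conv G (A \ {a})}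

/-- Isomorphism of set families. -/
def Iso {X Y : Type} (G : Set (Set X)) (G' : Set (Set Y)) : Prop :=
  ∃ e : X ≃ Y, ∀ D, D ∈ G ↔ e '' D ∈ G'

/-- The resolution of the base `GX` into the fibers `GY x`, on the disjoint union of the fibers:
(R1), (R2), (R3). -/
def resol {X : Type} {Y : X → Type} (GX : Set (Set X)) (GY : ∀ x, Set (Set (Y x))) :
    Set (Set (Σ x, Y x)) :=
  {D | Sigma.fst '' D ∈ GX ∧ (∀ x ∈ Sigma.fst '' D, Sigma.mk x ⁻¹' D ∈ GY x) ∧
    ∀ x ∈ Sigma.fst '' D \ ex GX (Sigma.fst '' D), ∀ y : Y x, (⟨x, y⟩ : Σ x, Y x) ∈ D}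

/-- Primitive: not isomorphic to a resolution with a base of at least two points, nonempty
fibers, and some fiber of at least two points. -/
def Primitive {Z : Type} (G : Set (Set Z)) : Prop :=
  ¬ ∃ (k : ℕ) (m : Fin k → ℕ) (GX : Set (Set (Fin k))) (GY : ∀ x, Set (Set (Fin (m x)))),
    2 ≤ k ∧ (∀ x, 1 ≤ m x) ∧ (∃ x, 2 ≤ m x) ∧ IsCG GX ∧ (∀ x, IsCG (GY x)) ∧
      Iso G (resol (Y := fun x => Fin (m x)) GX GY)

/-- Labeled counts. -/
noncomputable def L (n : ℕ) : ℕ := {G : Set (Set (Fin n)) | IsCG G}.ncard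

noncomputable def Lpr (n : ℕ) : ℕ := {G : Set (Set (Fin n)) | IsCG G ∧ Primitive G}.ncard

/-- The isomorphism class of a family on `Fin n`. -/
def cls {n : ℕ} (G : Set (Set (Fin n))) : Set (Set (Set (Fin n))) := {G' | Iso G G'}

/-- Numbers of isomorphism classes. -/
noncomputable def U (n : ℕ) : ℕ := (cls '' {G : Set (Set (Fin n)) | IsCG G}).ncard

noncomputable def Upr (n : ℕ) : ℕ :=
  (cls '' {G : Set (Set (Fin n)) | IsCG G ∧ Primitive G}).ncard

def extn {n : ℕ} (G H : Set (Set (Fin n))) : Set (Set (Fin (n + 1))) :=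
  {D | (0 ∈ D ∧ Fin.succ ⁻¹' D ∈ G) ∨ (0 ∉ D ∧ Fin.succ ⁻¹' D ∈ H)}

theorem extn_cg {n : ℕ} {G H : Set (Set (Fin n))} (hG : IsCG G) (h0 : ∅ ∈ H) (hs : H ⊆ G)
    (hd : ∀ S ∈ H, ∀ T ∈ G, T ⊆ S → T ∈ H) : IsCG (extn G H) := by
  obtain ⟨g0, g1, g2⟩ := hG
  refine ⟨Or.inr ⟨by simp, by simpa using h0⟩, ?_, ?_⟩
  · rintro F (⟨a, b⟩ | ⟨a, b⟩) K (⟨c, d⟩ | ⟨c, d⟩)
    · exact Or.inl ⟨⟨a, c⟩, by rw [Set.preimage_inter]; exact g1 _ b _ d⟩
    · refine Or.inr ⟨fun h => c h.2, ?_⟩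
      rw [Set.preimage_inter]
      exact hd _ d _ (g1 _ b _ (hs d)) Set.inter_subset_right
    · refine Or.inr ⟨fun h => a h.1, ?_⟩
      rw [Set.preimage_inter]
      exact hd _ b _ (g1 _ (hs b) _ d) Set.inter_subset_left
    · refine Or.inr ⟨fun h => a h.1, ?_⟩
      rw [Set.preimage_inter]
      exact hd _ b _ (g1 _ (hs b) _ (hs d)) Set.inter_subset_left
  · rintro F (⟨a, b⟩ | ⟨a, b⟩) hF
    · have hne : Fin.succ ⁻¹' F ≠ Set.univ := by
        intro h
        apply hF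
        rw [Set.eq_univ_iff_forall] at h ⊢
        intro x
        refine Fin.cases a (fun i => h i) x
      obtain ⟨x, hx, hx2⟩ := g2 _ b hne
      refine ⟨x.succ, hx, Or.inl ⟨Or.inr a, ?_⟩⟩
      have : Fin.succ ⁻¹' (insert x.succ F) = insert x (Fin.succ ⁻¹' F) := by
        ext y
        simp [Fin.succ_inj]
      rw [this]
      exact hx2
    · refine ⟨0, a, Or.inl ⟨Or.inl rfl, ?_⟩⟩
      have : Fin.succ ⁻¹' (insert 0 F) = Fin.succ ⁻¹' F := by
        ext y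
        simp [Fin.succ_ne_zero]
      rw [this]
      exact hs b

theorem extn_inj {n : ℕ} {G H G' H' : Set (Set (Fin n))} (h : extn G H = extn G' H') :
    G = G' ∧ H = H' := by
  have e1 : ∀ S : Set (Fin n), Fin.succ ⁻¹' (insert 0 (Fin.succ '' S)) = S := by
    intro S
    ext y
    simp [Fin.succ_ne_zero, Fin.succ_inj]
  have e2 : ∀ S : Set (Fin n), Fin.succ ⁻¹' (Fin.succ '' S) = S := by
    intro S
    ext y
    simp [Fin.succ_inj]
  have e3 : ∀ S : Set (Fin n), (0 : Fin (n + 1)) ∉ Fin.succ '' S := by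
    rintro S ⟨y, -, hy⟩
    exact Fin.succ_ne_zero y hy
  have k1 : ∀ (G H : Set (Set (Fin n))) S, insert 0 (Fin.succ '' S) ∈ extn G H ↔ S ∈ G := by
    intro G H S
    simp only [extn, Set.mem_ofPred_eq, e1]
    simp
  have k2 : ∀ (G H : Set (Set (Fin n))) S, Fin.succ '' S ∈ extn G H ↔ S ∈ H := by
    intro G H S
    simp only [extn, Set.mem_ofPred_eq, e2]
    simp only [e3, false_and, not_false_eq_true, true_and, false_or]
  constructor
  · ext S
    rw [← k1 G H, h, k1]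
  · ext S
    rw [← k2 G H, h, k2]

theorem ext_count {n w : ℕ} (F : Set (Set (Set (Fin n)))) (hF : ∀ G ∈ F, IsCG G)
    (hw : ∀ G ∈ F, ∃ i, 1 ≤ i ∧ w ≤ {S | S ∈ G ∧ S.ncard = i}.ncard) :
    F.ncard * 2 ^ w ≤ L (n + 1) := by
  classical
  have hw' : ∀ G : F, ∃ i, 1 ≤ i ∧ ∃ f : Fin w → Set (Fin n), Function.Injective f ∧
      ∀ j, f j ∈ G.1 ∧ (f j).ncard = i := by
    intro G
    obtain ⟨i, hi, h⟩ := hw G.1 G.2
    refine ⟨i, hi, ?_⟩
    have : Nonempty (Fin w ↪ {S | S ∈ G.1 ∧ S.ncard = i}) := by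
      let _ : Fintype {S | S ∈ G.1 ∧ S.ncard = i} := Fintype.ofFinite _
      apply Function.Embedding.nonempty_of_card_le
      rw [Fintype.card_fin, ← Nat.card_eq_fintype_card, Nat.card_coe_set_eq]
      exact h
    obtain ⟨f⟩ := this
    exact ⟨fun j => (f j).1, fun a b hab => f.injective (Subtype.ext hab), fun j => (f j).2⟩
  choose i hi f hf hf2 using hw'
  let H : F → Set (Fin w) → Set (Set (Fin n)) := fun G T =>
    {S | S ∈ G.1 ∧ S.ncard < i G} ∪ f G '' T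
  let Φ : F × Set (Fin w) → {G : Set (Set (Fin (n + 1))) | IsCG G} := fun p =>
    ⟨extn p.1.1 (H p.1 p.2), by
      apply extn_cg (hF _ p.1.2)
      · exact Or.inl ⟨(hF _ p.1.2).1, by rw [Set.ncard_empty]; exact hi p.1⟩
      · rintro S (h | ⟨j, -, rfl⟩)
        · exact h.1
        · exact (hf2 _ j).1
      · rintro S (h | ⟨j, hj, rfl⟩) T hT hTS
        · exact Or.inl ⟨hT, lt_of_le_of_lt (Set.ncard_le_ncard hTS) h.2⟩
        · by_cases hlt : T.ncard < i p.1
          · exact Or.inl ⟨hT, hlt⟩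
          · right
            refine ⟨j, hj, ?_⟩
            symm
            apply Set.eq_of_subset_of_ncard_le hTS
            rw [(hf2 _ j).2]
            omega⟩
  have hΦ : Function.Injective Φ := by
    rintro ⟨G, T⟩ ⟨G', T'⟩ h
    have h' : extn G.1 (H G T) = extn G'.1 (H G' T') := congrArg Subtype.val h
    obtain ⟨h1, h2⟩ := extn_inj h'
    have h1' : G = G' := Subtype.ext h1
    subst h1'
    have key : ∀ T : Set (Fin w), ∀ j, f G j ∈ H G T ↔ j ∈ T := by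
      intro T j
      constructor
      · rintro (h | ⟨j', hj', e⟩)
        · have := h.2
          rw [(hf2 G j).2] at this
          omega
        · rw [← hf G e]
          exact hj'
      · intro hj
        exact Or.inr ⟨j, hj, rfl⟩
    have : T = T' := by
      ext j
      rw [← key T, h2, key]
    rw [this]
  have := Nat.card_le_card_of_injective Φ hΦ
  rw [Nat.card_prod, Nat.card_coe_set_eq, Nat.card_coe_set_eq] at this
  have e : Nat.card (Set (Fin w)) = 2 ^ w := by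
    rw [Nat.card_eq_fintype_card, Fintype.card_set, Fintype.card_fin]
  rw [e] at this
  exact this

theorem L_mono : Monotone L := by
  apply monotone_nat_of_le_succ
  intro n
  have := ext_count (n := n) (w := 0) {G | IsCG G} (fun _ h => h)
    (fun _ _ => ⟨1, le_refl _, Nat.zero_le _⟩)
  simpa [L] using this

theorem level {n w : ℕ} (hw : 2 ≤ w) (G : Set (Set (Fin n))) (h : (n + 1) * w ≤ G.ncard) :
    ∃ i, 1 ≤ i ∧ w ≤ {S | S ∈ G ∧ S.ncard = i}.ncard := by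
  classical
  have hfin : G.Finite := Set.toFinite G
  obtain ⟨i, -, hi⟩ := Finset.exists_le_card_fiber_of_mul_le_card_of_maps_to
    (s := hfin.toFinset) (t := Finset.range (n + 1)) (f := fun S => S.ncard) (n := w)
    (by
      intro S _
      rw [Finset.mem_range, Nat.lt_succ_iff]
      have := Set.ncard_le_ncard (Set.subset_univ S)
      simpa [Set.ncard_univ] using this)
    ⟨0, by simp⟩
    (by rw [Finset.card_range, ← Set.ncard_eq_toFinset_card G hfin]; exact h)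
  have e : {S | S ∈ G ∧ S.ncard = i}.ncard =
      (hfin.toFinset.filter (fun S => S.ncard = i)).card := by
    rw [← Set.ncard_coe_finset]
    congr 1
    ext S
    rw [Finset.mem_coe, Finset.mem_filter, Set.Finite.mem_toFinset]
    exact Iff.rfl
  refine ⟨i, ?_, by rw [e]; exact hi⟩
  by_contra h0
  have h0 : i = 0 := by omega
  subst h0
  rw [← e] at hi
  have : {S | S ∈ G ∧ S.ncard = 0} ⊆ {∅} := by
    rintro S ⟨-, hS⟩
    exact (Set.ncard_eq_zero (Set.toFinite S)).1 hS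
  have := Set.ncard_le_ncard this
  rw [Set.ncard_singleton] at this
  omega

theorem card_fam (n : ℕ) : Nat.card (Set (Fin n)) = 2 ^ n := by
  rw [Nat.card_eq_fintype_card, Fintype.card_set, Fintype.card_fin]

theorem L_lower {n w : ℕ} (hw : 2 ≤ w) (h : (n + 1) * w ≤ 2 ^ n) : 2 ^ w ≤ L (n + 1) := by
  have := ext_count (n := n) (w := w) {Set.univ} (by
    rintro G rfl
    refine ⟨trivial, fun _ _ _ _ => trivial, fun F _ hF => ?_⟩
    obtain ⟨x, hx⟩ := (Set.ne_univ_iff_exists_notMem F).1 hF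
    exact ⟨x, hx, trivial⟩) (by
    rintro G rfl
    apply level hw
    rw [Set.ncard_univ, card_fam]
    exact h)
  simpa using this

theorem L_upper (n : ℕ) : L n ≤ 2 ^ 2 ^ n := by
  have := Set.ncard_le_ncard (Set.subset_univ {G : Set (Set (Fin n)) | IsCG G})
  rw [Set.ncard_univ, Nat.card_eq_fintype_card, Fintype.card_set, Fintype.card_set,
    Fintype.card_fin] at this
  exact this

theorem thin (n W : ℕ) :
    {G : Set (Set (Fin n)) | IsCG G ∧ G.ncard < W}.ncard ≤ 2 ^ (n * W) := by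
  classical
  have : {G : Set (Set (Fin n)) | IsCG G ∧ G.ncard < W} ⊆
      (fun f : Fin W → Set (Fin n) => Set.range f) '' Set.univ := by
    rintro G ⟨hG, hW⟩
    have h1 : Nonempty (G ↪ Fin W) := by
      let _ : Fintype G := Fintype.ofFinite _
      apply Function.Embedding.nonempty_of_card_le
      rw [Fintype.card_fin, ← Nat.card_eq_fintype_card, Nat.card_coe_set_eq]
      exact hW.le
    obtain ⟨g, hg⟩ := (Function.exists_surjective_iff (α := Fin W) (β := G)).2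
      ⟨⟨fun _ => ⟨∅, hG.1⟩⟩, h1⟩
    refine ⟨fun j => (g j).1, trivial, ?_⟩
    ext S
    constructor
    · rintro ⟨j, rfl⟩
      exact (g j).2
    · intro hS
      obtain ⟨j, hj⟩ := hg ⟨S, hS⟩
      exact ⟨j, by simp [hj]⟩
  refine (Set.ncard_le_ncard this).trans ((Set.ncard_image_le (Set.toFinite _)).trans ?_)
  rw [Set.ncard_univ, Nat.card_fun, card_fam, Nat.card_eq_fintype_card, Fintype.card_fin,
    ← pow_mul]

theorem L_step {n w : ℕ} (hw : 2 ≤ w) (h : 2 ^ (n * ((n + 1) * w) + 1) ≤ L n) :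
    L n * 2 ^ w ≤ 2 * L (n + 1) := by
  have h1 := thin n ((n + 1) * w)
  have h2 := ext_count (n := n) (w := w) {G | IsCG G ∧ (n + 1) * w ≤ G.ncard} (fun _ h => h.1)
    (fun G hG => level hw G hG.2)
  have h3 : L n ≤ {G : Set (Set (Fin n)) | IsCG G ∧ G.ncard < (n + 1) * w}.ncard +
      {G : Set (Set (Fin n)) | IsCG G ∧ (n + 1) * w ≤ G.ncard}.ncard := by
    refine le_trans (Set.ncard_le_ncard ?_) (Set.ncard_union_le _ _)
    intro G hG
    rcases lt_or_ge G.ncard ((n + 1) * w) with h | h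
    · exact Or.inl ⟨hG, h⟩
    · exact Or.inr ⟨hG, h⟩
  rw [pow_succ] at h
  have h4 : L n ≤ 2 * {G : Set (Set (Fin n)) | IsCG G ∧ (n + 1) * w ≤ G.ncard}.ncard := by omega
  calc L n * 2 ^ w ≤ (2 * {G : Set (Set (Fin n)) | IsCG G ∧ (n + 1) * w ≤ G.ncard}.ncard) * 2 ^ w :=
        Nat.mul_le_mul_right _ h4
    _ = 2 * ({G : Set (Set (Fin n)) | IsCG G ∧ (n + 1) * w ≤ G.ncard}.ncard * 2 ^ w) := by ring
    _ ≤ 2 * L (n + 1) := Nat.mul_le_mul_left _ h2


noncomputable def NP (n : ℕ) : ℕ := {G : Set (Set (Fin n)) | IsCG G ∧ ¬ Primitive G}.ncard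

theorem sigma_le {ι : Type} [Finite ι] (β : ι → Type) [∀ i, Finite (β i)] (M : ℕ)
    (h : ∀ i, Nat.card (β i) ≤ M) : Nat.card (Σ i, β i) ≤ Nat.card ι * M := by
  let _ : Fintype ι := Fintype.ofFinite _
  rw [Nat.card_sigma, Nat.card_eq_fintype_card, ← Finset.card_univ, ← smul_eq_mul]
  exact Finset.sum_le_card_nsmul _ _ _ (fun i _ => h i)

theorem sum_facts {n k : ℕ} (m : Fin k → ℕ) (hs : ∑ x, m x = n) (h1 : ∀ x, 1 ≤ m x)
    (x0 : Fin k) : k + m x0 ≤ n + 1 ∧ ∀ x, x ≠ x0 → m x + m x0 ≤ n := by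
  classical
  have e := Finset.add_sum_erase Finset.univ m (Finset.mem_univ x0)
  constructor
  · have : (Finset.univ.erase x0).card • 1 ≤ ∑ x ∈ Finset.univ.erase x0, m x :=
      Finset.card_nsmul_le_sum _ _ _ (fun x _ => h1 x)
    rw [Finset.card_erase_of_mem (Finset.mem_univ _), Finset.card_univ, Fintype.card_fin,
      smul_eq_mul] at this
    have := x0.2
    omega
  · intro x hx
    have : m x ≤ ∑ x ∈ Finset.univ.erase x0, m x :=
      Finset.single_le_sum (f := m) (fun _ _ => Nat.zero_le _) (by simp [hx])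
    omega

theorem prod_bound {n k : ℕ} (m : Fin k → ℕ) (hs : ∑ x, m x = n + 1) (hk : 2 ≤ k)
    (h1 : ∀ x, 1 ≤ m x) (h2 : ∃ x, 2 ≤ m x) :
    L k * ∏ x, L (m x) ≤ L n * (2 ^ 2 ^ ((n + 1) / 2 + 1)) ^ (n + 1) := by
  classical
  set B := 2 ^ 2 ^ ((n + 1) / 2 + 1) with hB
  have hB1 : 1 ≤ B := Nat.one_le_two_pow
  have small : ∀ j, j ≤ (n + 1) / 2 + 1 → L j ≤ B := fun j hj =>
    (L_upper j).trans (Nat.pow_le_pow_right (by norm_num) (Nat.pow_le_pow_right (by norm_num) hj))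
  obtain ⟨x1, hx1⟩ := h2
  have hkn : k ≤ n := by
    have := (sum_facts m hs h1 x1).1
    omega
  by_cases hc : ∀ x, m x ≤ (n + 1) / 2 + 1
  · refine Nat.mul_le_mul (L_mono hkn) ?_
    calc ∏ x, L (m x) ≤ B ^ (Finset.univ : Finset (Fin k)).card :=
          Finset.prod_le_pow_card _ _ _ (fun x _ => small _ (hc x))
      _ ≤ B ^ (n + 1) := Nat.pow_le_pow_right hB1 (by simp; omega)
  · push Not at hc
    obtain ⟨x0, hx0⟩ := hc
    obtain ⟨f1, f2⟩ := sum_facts m hs h1 x0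
    have e := Finset.mul_prod_erase Finset.univ (fun x => L (m x)) (Finset.mem_univ x0)
    have a1 : L k ≤ B := small _ (by omega)
    have a2 : L (m x0) ≤ L n := L_mono (by omega)
    have a3 : ∏ x ∈ Finset.univ.erase x0, L (m x) ≤ B ^ n := by
      calc ∏ x ∈ Finset.univ.erase x0, L (m x) ≤ B ^ (Finset.univ.erase x0).card :=
            Finset.prod_le_pow_card _ _ _ (fun x hx => small _ (by
              have := f2 x (Finset.ne_of_mem_erase hx)
              omega))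
        _ ≤ B ^ n := Nat.pow_le_pow_right hB1 (by
            rw [Finset.card_erase_of_mem (Finset.mem_univ _), Finset.card_univ, Fintype.card_fin]
            omega)
    rw [← e]
    calc L k * (L (m x0) * ∏ x ∈ Finset.univ.erase x0, L (m x)) ≤ B * (L n * B ^ n) :=
          Nat.mul_le_mul a1 (Nat.mul_le_mul a2 a3)
      _ = L n * B ^ (n + 1) := by ring

def Cond (n k : ℕ) (m : Fin k → Fin (n + 2)) : Prop :=
  ∑ x, (m x : ℕ) = n + 1 ∧ 2 ≤ k ∧ (∀ x, 1 ≤ (m x : ℕ)) ∧ ∃ x, 2 ≤ (m x : ℕ)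

abbrev Dat (n k : ℕ) (m : Fin k → Fin (n + 2)) : Type :=
  (Fin (n + 1) ≃ Σ x, Fin (m x)) × {G : Set (Set (Fin k)) | IsCG G} ×
    ∀ x, {G : Set (Set (Fin (m x))) | IsCG G}

theorem card_equiv_le {n : ℕ} {β : Type} [Finite β] : Nat.card (Fin n ≃ β) ≤ n ^ n := by
  rcases isEmpty_or_nonempty (Fin n ≃ β) with h | ⟨⟨e⟩⟩
  · simp
  · have := Nat.card_le_card_of_injective (fun f : Fin n ≃ β => (fun x => e.symm (f x) : Fin n → Fin n))
      (by
        intro f g h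
        ext x
        exact e.symm.injective (congrFun h x))
    rw [Nat.card_fun, Nat.card_eq_fintype_card (α := Fin n), Fintype.card_fin] at this
    exact this

theorem NP_le (n : ℕ) : NP (n + 1) ≤ (n + 2) * ((n + 2) ^ (n + 1) *
    ((n + 1) ^ (n + 1) * (L n * (2 ^ 2 ^ ((n + 1) / 2 + 1)) ^ (n + 1)))) := by
  classical
  let T := Σ k : Fin (n + 2), Σ m : {m : Fin k → Fin (n + 2) // Cond n k m}, Dat n k m.1
  let Ψ : T → Set (Set (Fin (n + 1))) := fun t =>
    {D | t.2.2.1 '' D ∈ resol (Y := fun x => Fin (t.2.1.1 x)) t.2.2.2.1.1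
      (fun x => (t.2.2.2.2 x).1)}
  have hsub : {G : Set (Set (Fin (n + 1))) | IsCG G ∧ ¬ Primitive G} ⊆ Ψ '' Set.univ := by
    rintro G ⟨-, hG⟩
    unfold Primitive at hG
    rw [not_not] at hG
    obtain ⟨k, m, GX, GY, hk, h1, h2, hX, hY, e, he⟩ := hG
    have hs : ∑ x, m x = n + 1 := by
      have := Fintype.card_congr e
      simpa using this.symm
    have hm : ∀ x, m x < n + 2 := by
      intro x
      have : m x ≤ ∑ x, m x :=
        Finset.single_le_sum (f := m) (fun _ _ => Nat.zero_le _) (Finset.mem_univ x)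
      omega
    have hk' : k < n + 2 := by
      obtain ⟨x, hx⟩ := h2
      have := (sum_facts m hs h1 x).1
      omega
    refine ⟨⟨⟨k, hk'⟩, ⟨fun x => ⟨m x, hm x⟩, hs, hk, h1, h2⟩, e, ⟨GX, hX⟩,
      fun x => ⟨GY x, hY x⟩⟩, trivial, ?_⟩
    ext D
    exact (he D).symm
  have hT : Nat.card T ≤ (n + 2) * ((n + 2) ^ (n + 1) *
      ((n + 1) ^ (n + 1) * (L n * (2 ^ 2 ^ ((n + 1) / 2 + 1)) ^ (n + 1)))) := by
    refine (sigma_le _ ((n + 2) ^ (n + 1) *
      ((n + 1) ^ (n + 1) * (L n * (2 ^ 2 ^ ((n + 1) / 2 + 1)) ^ (n + 1)))) ?_).trans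
      (by simp)
    intro k
    refine (sigma_le _ ((n + 1) ^ (n + 1) * (L n * (2 ^ 2 ^ ((n + 1) / 2 + 1)) ^ (n + 1)))
      ?_).trans (Nat.mul_le_mul_right _ ?_)
    · rintro ⟨m, hs, hk, h1, h2⟩
      rw [Nat.card_prod, Nat.card_prod, Nat.card_pi]
      refine Nat.mul_le_mul card_equiv_le ?_
      simp only [Nat.card_coe_set_eq]
      exact prod_bound (fun x => (m x : ℕ)) hs hk h1 h2
    · refine (Nat.card_le_card_of_injective Subtype.val Subtype.val_injective).trans ?_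
      rw [Nat.card_fun, Nat.card_eq_fintype_card (α := Fin (n + 2)),
        Nat.card_eq_fintype_card (α := Fin k), Fintype.card_fin, Fintype.card_fin]
      exact Nat.pow_le_pow_right (by omega) (by have := k.2; omega)
  refine (Set.ncard_le_ncard hsub).trans ((Set.ncard_image_le (Set.toFinite _)).trans ?_)
  rw [Set.ncard_univ]
  exact hT

theorem num1 (s : ℕ) (hs : 50 ≤ s) : 15552 * s ^ 5 ≤ 2 ^ s := by
  induction s, hs using Nat.le_induction with
  | base => norm_num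
  | succ s hs ih =>
    have h1 : (10 * (s + 1)) ^ 5 ≤ (11 * s) ^ 5 := Nat.pow_le_pow_left (by omega) 5
    rw [mul_pow, mul_pow] at h1
    rw [pow_succ 2 s]
    norm_num at h1
    omega

theorem core (q : ℕ) (hq : 100 ≤ q) :
    NP (q + 2) * (q + 2).factorial * (q + 2) ≤ L (q + 2) ∧ 0 < L (q + 2) := by
  obtain ⟨Q, hQ⟩ : ∃ Q, Q = 2 ^ ((q + 2) / 2 + 1) := ⟨_, rfl⟩
  have hQ1 : 1 ≤ Q := by rw [hQ]; exact Nat.one_le_two_pow
  obtain ⟨p, hp⟩ : ∃ p, p = q + 2 := ⟨_, rfl⟩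
  have hp1 : 1 ≤ p := by omega
  obtain ⟨w, hw⟩ : ∃ w, w = 7 * (p ^ 2 * Q) := ⟨_, rfl⟩
  have hpp : 1 ≤ p ^ 2 := Nat.one_le_pow _ _ hp1
  have hpQ : 1 ≤ p ^ 2 * Q := Nat.mul_le_mul hpp hQ1
  have hw2 : 2 ≤ w := by omega
  have hnum : 8 * p ^ 5 * Q ≤ 2 ^ q := by
    have h1 := num1 ((q + 2) / 2) (by omega)
    have h2 : p ^ 5 ≤ (3 * ((q + 2) / 2)) ^ 5 := Nat.pow_le_pow_left (by omega) 5
    rw [mul_pow, show (3 : ℕ) ^ 5 = 243 by norm_num] at h2
    have h3 : 64 * p ^ 5 ≤ 2 ^ ((q + 2) / 2) := by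
      omega
    have h4 : 2 ^ ((q + 2) / 2) * Q ≤ 8 * 2 ^ q := by
      rw [hQ, ← pow_add, show 8 * 2 ^ q = 2 ^ (q + 3) by ring]
      exact Nat.pow_le_pow_right (by norm_num) (by omega)
    have h5 : 64 * p ^ 5 * Q ≤ 2 ^ ((q + 2) / 2) * Q := Nat.mul_le_mul_right _ h3
    have h6 : 64 * p ^ 5 * Q = 8 * (8 * p ^ 5 * Q) := by ring
    omega
  have hlow : 2 ^ ((q + 1) * ((q + 1 + 1) * w) + 1) ≤ L (q + 1) := by
    apply L_lower
    · have : 1 ≤ (q + 1) * ((q + 1 + 1) * w) := Nat.mul_pos (by omega) (Nat.mul_pos (by omega) (by omega))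
      omega
    · refine le_trans ?_ hnum
      have a1 : (q + 1) * ((q + 1) * ((q + 1 + 1) * w) + 1) ≤ p * (p * (p * w) + p ^ 4 * Q) := by
        refine Nat.mul_le_mul (by omega) (Nat.add_le_add
          (Nat.mul_le_mul (by omega) (Nat.mul_le_mul_right _ (by omega))) ?_)
        exact Nat.mul_le_mul (Nat.one_le_pow 4 _ hp1) hQ1
      refine a1.trans (le_of_eq ?_)
      rw [hw]
      ring
  have hstep := L_step hw2 hlow
  have hNP := NP_le (q + 1)
  have hpos : 0 < L (q + 1) := lt_of_lt_of_le (by positivity) hlow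
  rw [show q + 1 + 1 = p by omega] at hstep
  rw [show q + 1 + 1 = p by omega, show q + 1 + 2 = p + 1 by omega] at hNP
  rw [← hp] at hQ ⊢
  rw [← hQ] at hNP
  refine ⟨?_, lt_of_lt_of_le hpos (L_mono (by omega))⟩
  have b1 : p + 1 ≤ 2 ^ p := Nat.lt_two_pow_self
  have b2 : p ≤ 2 ^ p := by omega
  have b3 : (p + 1) ^ p ≤ 2 ^ (p * p) := by
    rw [pow_mul]
    exact Nat.pow_le_pow_left b1 p
  have b4 : p ^ p ≤ 2 ^ (p * p) := by
    rw [pow_mul]
    exact Nat.pow_le_pow_left b2 p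
  have b5 : p.factorial ≤ 2 ^ (p * p) := (Nat.factorial_le_pow p).trans b4
  have b6 : NP p ≤ 2 ^ p * (2 ^ (p * p) * (2 ^ (p * p) * (L (q + 1) * (2 ^ Q) ^ p))) :=
    hNP.trans (Nat.mul_le_mul b1 (Nat.mul_le_mul b3 (Nat.mul_le_mul_right _ b4)))
  have b7 : NP p * p.factorial * p ≤
      2 ^ p * (2 ^ (p * p) * (2 ^ (p * p) * (L (q + 1) * (2 ^ Q) ^ p))) * 2 ^ (p * p) * 2 ^ p :=
    Nat.mul_le_mul (Nat.mul_le_mul b6 b5) b2
  have b8 : 2 * (2 ^ p * (2 ^ (p * p) * (2 ^ (p * p) * (L (q + 1) * (2 ^ Q) ^ p))) *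
      2 ^ (p * p) * 2 ^ p) = L (q + 1) * 2 ^ (1 + 2 * p + 3 * (p * p) + Q * p) := by
    rw [← pow_mul]
    ring
  have b9 : 1 + 2 * p + 3 * (p * p) + Q * p ≤ w := by
    have c1 : p ≤ p ^ 2 * Q := by nlinarith
    have c2 : p * p ≤ p ^ 2 * Q := by nlinarith
    have c3 : Q * p ≤ p ^ 2 * Q := by nlinarith
    omega
  have b10 : L (q + 1) * 2 ^ (1 + 2 * p + 3 * (p * p) + Q * p) ≤ L (q + 1) * 2 ^ w :=
    Nat.mul_le_mul_left _ (Nat.pow_le_pow_right (by norm_num) b9)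
  omega

theorem L_split (n : ℕ) : Lpr n ≤ L n ∧ L n ≤ Lpr n + NP n := by
  refine ⟨Set.ncard_le_ncard (fun _ h => h.1), ?_⟩
  refine le_trans (Set.ncard_le_ncard ?_) (Set.ncard_union_le _ _)
  intro G hG
  by_cases h : Primitive G
  · exact Or.inl ⟨hG, h⟩
  · exact Or.inr ⟨hG, h⟩

theorem U_split (n : ℕ) : Upr n ≤ U n ∧ U n ≤ Upr n + NP n := by
  refine ⟨Set.ncard_le_ncard (Set.image_mono (fun _ h => h.1)), ?_⟩
  have h1 : (cls '' {G : Set (Set (Fin n)) | IsCG G ∧ ¬ Primitive G}).ncard ≤ NP n :=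
    Set.ncard_image_le (Set.toFinite _)
  refine le_trans (le_trans (Set.ncard_le_ncard ?_) (Set.ncard_union_le _ _))
    (Nat.add_le_add_left h1 _)
  rintro _ ⟨G, hG, rfl⟩
  by_cases h : Primitive G
  · exact Or.inl ⟨G, ⟨hG, h⟩, rfl⟩
  · exact Or.inr ⟨G, ⟨hG, h⟩, rfl⟩

theorem L_le_U (n : ℕ) : L n ≤ U n * n.factorial := by
  classical
  have hc : ∀ c : cls '' {G : Set (Set (Fin n)) | IsCG G}, ∃ G, cls G = c.1 := by
    rintro ⟨c, G, -, h⟩
    exact ⟨G, h⟩
  choose r hr using hc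
  let Ψ : (cls '' {G : Set (Set (Fin n)) | IsCG G}) × (Fin n ≃ Fin n) → Set (Set (Fin n)) :=
    fun t => {D | t.2 ⁻¹' D ∈ r t.1}
  have hsub : {G : Set (Set (Fin n)) | IsCG G} ⊆ Ψ '' Set.univ := by
    intro G hG
    have h1 : G ∈ cls G := ⟨Equiv.refl _, fun D => by simp⟩
    have h2 : cls (r ⟨cls G, G, hG, rfl⟩) = cls G := hr ⟨cls G, G, hG, rfl⟩
    have h3 : G ∈ cls (r ⟨cls G, G, hG, rfl⟩) := by
      rw [h2]
      exact h1
    obtain ⟨e, he⟩ := h3
    refine ⟨(⟨cls G, G, hG, rfl⟩, e), trivial, ?_⟩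
    ext D
    have := he (e ⁻¹' D)
    rw [Set.image_preimage_eq D e.surjective] at this
    exact this
  refine (Set.ncard_le_ncard hsub).trans ((Set.ncard_image_le (Set.toFinite _)).trans ?_)
  rw [Set.ncard_univ, Nat.card_prod, Nat.card_coe_set_eq, Nat.card_eq_fintype_card,
    Fintype.card_equiv (Equiv.refl _), Fintype.card_fin]
  rfl

theorem lim (a b c : ℕ → ℕ) (h1 : ∀ n, a n ≤ b n ∧ b n ≤ a n + c n)
    (h2 : ∀ n, 102 ≤ n → c n * n ≤ b n ∧ 0 < b n) :
    Tendsto (fun n => (a n : ℝ) / b n) atTop (𝓝 1) := by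
  have t : Tendsto (fun n : ℕ => 1 - 1 / (n : ℝ)) atTop (𝓝 1) := by
    have := (tendsto_const_nhds (x := (1 : ℝ))).sub tendsto_one_div_atTop_nhds_zero_nat
    simpa using this
  refine tendsto_of_tendsto_of_tendsto_of_le_of_le' t tendsto_const_nhds ?_ ?_
  · filter_upwards [eventually_ge_atTop 102] with n hn
    obtain ⟨k1, k2⟩ := h2 n hn
    have hb : (0 : ℝ) < b n := by exact_mod_cast k2
    have hn' : (0 : ℝ) < n := by exact_mod_cast (by omega : 0 < n)
    have k1' : (c n : ℝ) * n ≤ b n := by exact_mod_cast k1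
    have k3 : (b n : ℝ) ≤ a n + c n := by exact_mod_cast (h1 n).2
    have k4 : (c n : ℝ) ≤ 1 / n * b n := by
      rw [one_div, inv_mul_eq_div, le_div_iff₀ hn']
      exact k1'
    rw [le_div_iff₀ hb]
    linarith
  · filter_upwards [eventually_ge_atTop 102] with n hn
    have hb : (0 : ℝ) < b n := by exact_mod_cast (h2 n hn).2
    rw [div_le_one hb]
    exact_mod_cast (h1 n).1

theorem both :
    Tendsto (fun n => (Lpr n : ℝ) / L n) atTop (𝓝 1) ∧
      Tendsto (fun n => (Upr n : ℝ) / U n) atTop (𝓝 1) := by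
  have key : ∀ n, 102 ≤ n → NP n * n.factorial * n ≤ L n ∧ 0 < L n := by
    intro n hn
    obtain ⟨q, rfl⟩ : ∃ q, n = q + 2 := ⟨n - 2, by omega⟩
    exact core q (by omega)
  refine ⟨lim Lpr L NP L_split (fun n hn => ⟨?_, (key n hn).2⟩),
    lim Upr U NP U_split (fun n hn => ⟨?_, ?_⟩)⟩
  · refine le_trans (Nat.mul_le_mul_right _ ?_) (key n hn).1
    exact Nat.le_mul_of_pos_right _ (Nat.factorial_pos n)
  · have h := (key n hn).1.trans (L_le_U n)
    rw [mul_right_comm] at h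
    exact Nat.le_of_mul_le_mul_right h (Nat.factorial_pos n)
  · have h := lt_of_lt_of_le (key n hn).2 (L_le_U n)
    exact Nat.pos_of_mul_pos_right h

end Pool.Agent.H16.CG
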