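import Mathlib

/-! Freezing words at the first moment they stop being factors of a fixed word. -/

set_option autoImplicit false

namespace Pool.Agent.H16.Cg

open List

open Classical in
noncomputable def go (Z : List ℕ) : List ℕ → List ℕ → List ℕ
  | acc, [] => acc
  | acc, a :: l => if acc ++ [a] <:+: Z then go Z (acc ++ [a]) l else acc ++ [a]

/-- the shortest initial segment that is not a factor of `Z` (the list itself if there is none) -/
noncomputable def nm (Z l : List ℕ) : List ℕ := go Z [] l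

variable {Z : List ℕ}

theorem go_app (p : List ℕ) : ∀ acc l, acc ++ p <:+: Z → go Z acc (p ++ l) = go Z (acc ++ p) l := by
  induction p with
  | nil => simp
  | cons a p ih =>
    intro acc l h
    have e : acc ++ a :: p = (acc ++ [a]) ++ p := by simp
    rw [e] at h ⊢
    rw [cons_append, go, if_pos ((prefix_append _ _).isInfix.trans h), ih _ _ h]

theorem nm_live {l : List ℕ} (h : l <:+: Z) : nm Z l = l := by
  have := go_app (Z := Z) l [] [] h
  simpa [nm, go] using this

theorem nm_eq {p : List ℕ} {a : ℕ} (l : List ℕ) (h : p <:+: Z) (h' : ¬ p ++ [a] <:+: Z) :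
    nm Z (p ++ a :: l) = p ++ [a] := by
  rw [nm, go_app p [] _ h, nil_append, go, if_neg h']

theorem dec {l : List ℕ} (h : ¬ l <:+: Z) :
    ∃ p a r, l = p ++ a :: r ∧ p <:+: Z ∧ ¬ p ++ [a] <:+: Z := by
  induction l using List.reverseRecOn with
  | nil => exact absurd nil_infix h
  | append_singleton l a ih =>
    by_cases h' : l <:+: Z
    · exact ⟨l, a, [], rfl, h', h⟩
    · obtain ⟨p, b, r, rfl, h1, h2⟩ := ih h'
      exact ⟨p, b, r ++ [a], by simp, h1, h2⟩

theorem nm_dead {p : List ℕ} (h : ¬ p <:+: Z) (l : List ℕ) : nm Z (p ++ l) = nm Z p := by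
  obtain ⟨q, a, r, rfl, h1, h2⟩ := dec h
  rw [append_assoc, cons_append, nm_eq _ h1 h2, nm_eq _ h1 h2]

theorem nm_nm (p l : List ℕ) : nm Z (p ++ nm Z l) = nm Z (p ++ l) := by
  by_cases h : l <:+: Z
  · rw [nm_live h]
  · obtain ⟨q, a, r, rfl, h1, h2⟩ := dec h
    have h3 : ¬ p ++ (q ++ [a]) <:+: Z := fun h => h2 ((suffix_append _ _).isInfix.trans h)
    rw [nm_eq _ h1 h2, ← nm_dead h3 r]
    simp

theorem nm_pre (l : List ℕ) : nm Z l <+: l := by
  by_cases h : l <:+: Z
  · rw [nm_live h]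
  · obtain ⟨q, a, r, rfl, h1, h2⟩ := dec h
    rw [nm_eq _ h1 h2]
    exact ⟨r, by simp⟩

theorem pre_nm {p : List ℕ} (h : p <:+: Z) (l : List ℕ) : p <+: nm Z (p ++ l) := by
  by_cases h' : p ++ l <:+: Z
  · rw [nm_live h']; exact prefix_append _ _
  · obtain ⟨q, a, r, e, h1, h2⟩ := dec h'
    rw [e, nm_eq _ h1 h2]
    have h3 : q ++ [a] <+: p ++ l := ⟨r, by simp [e]⟩
    rcases prefix_or_prefix_of_prefix (prefix_append p l) h3 with h4 | h4
    · exact h4
    · exact absurd (h4.isInfix.trans h) h2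

/-- the finite set of frozen points -/
def Pt (Z : List ℕ) : Set (List ℕ) := {m | ∃ p a, p <:+: Z ∧ a ≤ 6 ∧ m = p ++ [a]}

theorem live_fin (Z : List ℕ) : {p | p <:+: Z}.Finite :=
  (Z.sublists.finite_toSet).subset fun _ h => mem_sublists.2 h.sublist

theorem pt_fin (Z : List ℕ) : (Pt Z).Finite :=
  ((live_fin Z).image2 (fun p a => p ++ [a]) (Set.finite_le_nat 6)).subset
    fun _ ⟨p, a, h1, h2, h3⟩ => ⟨p, h1, a, h2, h3.symm⟩

theorem nm_pt {l : List ℕ} (h0 : l ≠ []) (h : ∀ a ∈ l, a ≤ 6) : nm Z l ∈ Pt Z := by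
  by_cases h' : l <:+: Z
  · obtain ⟨p, a, rfl⟩ := (eq_nil_or_concat' l).resolve_left h0
    exact ⟨p, a, (prefix_append _ _).isInfix.trans h', h a (by simp), nm_live h'⟩
  · obtain ⟨q, a, r, rfl, h1, h2⟩ := dec h'
    exact ⟨q, a, h1, h a (by simp), nm_eq _ h1 h2⟩

/-- two different factors of a square-free word are separated by the frozen products -/
theorem sep (hsq : ∀ v, v ≠ [] → ¬ v ++ v <:+: Z) {v w : List ℕ} (hv0 : v ≠ []) (hv : v <:+: Z)
    (hw : w <:+: Z) (hl : v.length ≤ w.length) (l l' : List ℕ)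
    (h1 : nm Z (v ++ w ++ l) = nm Z (w ++ v ++ l))
    (h2 : nm Z.reverse ((v ++ w).reverse ++ l') = nm Z.reverse ((w ++ v).reverse ++ l')) :
    v = w := by
  have a1 : v <+: nm Z (v ++ w ++ l) := by rw [append_assoc]; exact pre_nm hv _
  have a2 : w <+: nm Z (v ++ w ++ l) := by rw [h1, append_assoc]; exact pre_nm hw _
  have a3 : w.reverse <+: nm Z.reverse ((v ++ w).reverse ++ l') := by
    rw [reverse_append, append_assoc]; exact pre_nm (reverse_infix.2 hw) _
  have a4 : v.reverse <+: nm Z.reverse ((v ++ w).reverse ++ l') := by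
    rw [h2, reverse_append, append_assoc]; exact pre_nm (reverse_infix.2 hv) _
  obtain ⟨z, rfl⟩ := prefix_of_prefix_length_le a1 a2 hl
  obtain ⟨y, hy⟩ := reverse_prefix.1 (prefix_of_prefix_length_le a4 a3 (by simpa using hl))
  rw [← append_assoc, append_assoc (v ++ v), nm_dead (hsq v hv0)] at a2
  have a5 := (a2.trans (nm_pre _)).length_le
  have a6 := congrArg length hy
  simp only [length_append] at a5 a6
  obtain ⟨v2, hv2⟩ := prefix_of_prefix_length_le (l₁ := y) (l₂ := v) (l₃ := v ++ z)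
    (hy ▸ prefix_append _ _) (prefix_append _ _) (by omega)
  by_cases h0 : y = []
  · have : z = [] := by rw [h0] at a6; exact length_eq_zero_iff.1 (by simpa using a6.symm)
    simp [this]
  · refine absurd (IsInfix.trans (IsPrefix.isInfix ⟨v2, ?_⟩) hw) (hsq y h0)
    rw [← hy, append_assoc, hv2]

end Pool.Agent.H16.Cg
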