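import Pool.Agent.H16.Cg1

/-! A semigroup of pairs of actions built from a square-free word with a start marker. -/

set_option autoImplicit false

namespace Pool.Agent.H16.Cg

open List

@[ext] structure El where
  f : List ℕ → List ℕ
  h : List ℕ → List ℕ

instance : Semigroup El where
  mul x y := ⟨x.f ∘ y.f, y.h ∘ x.h⟩
  mul_assoc _ _ _ := rfl

theorem mul_f (x y : El) (l : List ℕ) : (x * y).f l = x.f (y.f l) := rfl
theorem mul_h (x y : El) (l : List ℕ) : (x * y).h l = y.h (x.h l) := rfl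

def isW (Z p : List ℕ) : Prop := p ≠ [] ∧ p <+: Z

def rr (n a j : ℕ) : ℕ :=
  if a = 4 then j + j % 2 else if a = 5 then (if j % 2 = 0 then j % n + 1 else j) else j

open Classical in
noncomputable def rho (Z : List ℕ) (a : ℕ) (p : List ℕ) : List ℕ :=
  if isW Z p then Z.take (rr Z.length a p.length) else p

noncomputable def can (Z m : List ℕ) : List ℕ :=
  if m = [] then [] else rho Z (m.getLastD 0) m.dropLast ++ [m.getLastD 0]

open Classical in
noncomputable def UU (Z m : List ℕ) : List ℕ :=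
  if isW Z m.dropLast ∧ (m.getLastD 0 = 4 ∨ m.getLastD 0 = 5) then [m.getLastD 0] else [6]

noncomputable def W (Z p : List ℕ) : El :=
  ⟨fun l => can Z (nm Z (p ++ l)), fun l => nm Z.reverse (p.reverse ++ l)⟩

noncomputable def u0 (Z : List ℕ) : El := ⟨UU Z, fun _ => [6]⟩

noncomputable def R (Z p q : List ℕ) : El := W Z p * u0 Z * W Z q

def K (i j : List ℕ) : El := ⟨fun _ => i, fun _ => j⟩

structure Good (Z : List ℕ) : Prop where
  sq : ∀ v, v ≠ [] → ¬ v ++ v <:+: Z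
  st : ∀ g, ¬ [g, 3] <:+: Z
  hd : ∀ p, isW Z p → ∃ r, p = 3 :: r
  le : ∀ a ∈ Z, a ≤ 3
  ev : Z.length % 2 = 0

variable {Z : List ℕ}

theorem can_eq (p : List ℕ) (a : ℕ) : can Z (p ++ [a]) = rho Z a p ++ [a] := by simp [can]

open Classical in
theorem UU_eq (p : List ℕ) (a : ℕ) :
    UU Z (p ++ [a]) = if isW Z p ∧ (a = 4 ∨ a = 5) then [a] else [6] := by simp [UU]

theorem UU_cases (m : List ℕ) : ∃ a, 4 ≤ a ∧ a ≤ 6 ∧ UU Z m = [a] := by
  unfold UU
  split_ifs with h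
  · exact ⟨_, by omega, by omega, rfl⟩
  · exact ⟨6, by omega, le_rfl, rfl⟩

theorem rr_bd {n a j : ℕ} (hn : n % 2 = 0) (h1 : 0 < j) (h2 : j ≤ n) :
    0 < rr n a j ∧ rr n a j ≤ n ∧ rr n a (rr n a j) = rr n a j := by
  have := Nat.mod_lt j (show 0 < n by omega)
  have h3 : j % n = if j = n then 0 else j := by
    split_ifs with h
    · simp [h]
    · exact Nat.mod_eq_of_lt (by omega)
  unfold rr
  split_ifs at h3 ⊢ <;> omega

theorem isW.len {p : List ℕ} (h : isW Z p) : 0 < p.length ∧ p.length ≤ Z.length :=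
  ⟨length_pos_iff.2 h.1, h.2.length_le⟩

theorem isW_take {j : ℕ} (h1 : 0 < j) (h2 : j ≤ Z.length) : isW Z (Z.take j) :=
  ⟨length_pos_iff.1 (by simp; omega), take_prefix _ _⟩

theorem rho_triv {a : ℕ} (p : List ℕ) (h4 : a ≠ 4) (h5 : a ≠ 5) : rho Z a p = p := by
  unfold rho rr
  split_ifs with h
  · exact (prefix_iff_eq_take.1 h.2).symm
  · rfl

theorem rho_W (hZ : Good Z) (a : ℕ) (p : List ℕ) : isW Z (rho Z a p) ↔ isW Z p := by
  unfold rho
  split_ifs with h
  · have := rr_bd (a := a) hZ.ev h.len.1 h.len.2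
    exact iff_of_true (isW_take this.1 this.2.1) h
  · rfl

theorem rho_rho (hZ : Good Z) (a : ℕ) (p : List ℕ) : rho Z a (rho Z a p) = rho Z a p := by
  by_cases h : isW Z p
  · have := rr_bd (a := a) hZ.ev h.len.1 h.len.2
    conv_lhs => rw [rho, if_pos ((rho_W hZ a p).2 h)]
    rw [rho, if_pos h, length_take, min_eq_left this.2.1, this.2.2]
  · have e : rho Z a p = p := if_neg h
    rw [e, e]

theorem rho_live {p : List ℕ} (a : ℕ) (h : p <:+: Z) : rho Z a p <:+: Z := by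
  unfold rho
  split_ifs
  · exact (take_prefix _ _).isInfix
  · exact h

theorem nm_term (hZ : ∀ a ∈ Z, a ≤ 3) {p : List ℕ} {a : ℕ} (h : p <:+: Z) (ha : 4 ≤ a) :
    nm Z (p ++ [a]) = p ++ [a] :=
  nm_eq [] h fun h' => by have := hZ a (h'.subset (by simp)); omega

theorem can_low {m : List ℕ} (h : ∀ a ∈ m, a ≠ 4 ∧ a ≠ 5) : can Z m = m := by
  rcases eq_nil_or_concat' m with rfl | ⟨p, a, rfl⟩
  · rfl
  · rw [can_eq, rho_triv _ (h a (by simp)).1 (h a (by simp)).2]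

theorem can_nm (hZ : Good Z) (p l : List ℕ) :
    can Z (nm Z (p ++ can Z (nm Z l))) = can Z (nm Z (p ++ l)) := by
  by_cases hl : l <:+: Z
  · rw [nm_live hl, can_low (m := l) fun a ha => by have := hZ.le a (hl.subset ha); omega]
  obtain ⟨q, a, r, rfl, h1, h2⟩ := dec hl
  rw [← nm_nm p (q ++ a :: r), nm_eq _ h1 h2, can_eq]
  by_cases hq : isW Z q ∧ (a = 4 ∨ a = 5)
  · rcases eq_nil_or_concat' p with rfl | ⟨p0, g, rfl⟩
    · rw [nil_append, nil_append, nm_term hZ.le h1 (by omega),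
        nm_term hZ.le (rho_live a h1) (by omega), can_eq, can_eq, rho_rho hZ]
    · obtain ⟨r1, e1⟩ := hZ.hd _ hq.1
      obtain ⟨r2, e2⟩ := hZ.hd _ ((rho_W hZ a q).2 hq.1)
      have h3 : ¬ p0 ++ [g, 3] <:+: Z := fun h => hZ.st g ((suffix_append _ _).isInfix.trans h)
      have e : ∀ r : List ℕ, p0 ++ [g] ++ (3 :: r ++ [a]) = p0 ++ [g, 3] ++ (r ++ [a]) := by simp
      rw [e2, e1, e, e, nm_dead h3, nm_dead h3]
  · by_cases h3 : isW Z q
    · rw [rho_triv q (by tauto) (by tauto)]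
    · rw [rho, if_neg h3]

theorem W_mul (hZ : Good Z) (p q : List ℕ) : W Z p * W Z q = W Z (p ++ q) := by
  ext1 <;> funext l
  · simp only [mul_f, W, can_nm hZ, append_assoc]
  · simp only [mul_h, W, nm_nm, reverse_append, append_assoc]

theorem W_dead {p : List ℕ} (h : ¬ p <:+: Z) :
    W Z p = K (can Z (nm Z p)) (nm Z.reverse p.reverse) := by
  ext1 <;> funext l
  · simp only [W, K, nm_dead h]
  · simp only [W, K, nm_dead (mt reverse_infix.1 h)]

theorem W_term (hZ : Good Z) {p : List ℕ} {a : ℕ} (h : p <:+: Z) (ha : 4 ≤ a) :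
    (W Z p).f [a] = rho Z a p ++ [a] := by
  simp only [W, nm_term hZ.le h ha, can_eq]

theorem W_h (hZ : Good Z) {p : List ℕ} (h : p <:+: Z) : (W Z p).h [6] = p.reverse ++ [6] :=
  nm_term (fun a ha => hZ.le a (mem_reverse.1 ha)) (reverse_infix.2 h) (by omega)

open Classical in
theorem UW (hZ : Good Z) {p : List ℕ} (hp : ∀ a ∈ p, a ≤ 3) {a : ℕ} (ha : 4 ≤ a) (ha' : a ≤ 6) :
    UU Z ((W Z p).f [a]) = if isW Z p then [a] else [6] := by
  by_cases h : p <:+: Z
  · rw [W_term hZ h ha, UU_eq, rho_W hZ]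
    by_cases h1 : isW Z p <;> by_cases h2 : a = 6 <;> simp [h1, h2]
    omega
  · obtain ⟨q, b, r, rfl, h1, h2⟩ := dec h
    have := hp b (by simp)
    rw [W_dead h, if_neg fun h' => h h'.2.isInfix]
    simp only [K, nm_eq _ h1 h2, can_eq, UU_eq]
    rw [if_neg (by omega)]

open Classical in
theorem uWu (hZ : Good Z) {p : List ℕ} (hp : ∀ a ∈ p, a ≤ 3) :
    u0 Z * W Z p * u0 Z = if isW Z p then u0 Z else K [6] [6] := by
  ext1 <;> funext l
  · obtain ⟨a, h1, h2, h3⟩ := UU_cases (Z := Z) l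
    have := UW hZ hp h1 h2
    simp only [mul_f, u0, h3, this]
    split_ifs <;> simp [K, h3]
  · split_ifs <;> rfl

theorem R_h (hZ : Good Z) (p : List ℕ) {q : List ℕ} (h : q <:+: Z) (l : List ℕ) :
    (R Z p q).h l = q.reverse ++ [6] := W_h hZ h

theorem R_f (hZ : Good Z) {p : List ℕ} (h : p <:+: Z) (q l : List ℕ) :
    ∃ a, 4 ≤ a ∧ a ≤ 6 ∧ (R Z p q).f l = rho Z a p ++ [a] := by
  obtain ⟨a, h1, h2, h3⟩ := UU_cases (Z := Z) ((W Z q).f l)
  exact ⟨a, h1, h2, by rw [← W_term hZ h h1, ← h3]; rfl⟩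

theorem UW6 (hZ : Good Z) {p : List ℕ} (hp : ∀ a ∈ p, a ≤ 3) :
    (u0 Z).f ((W Z p).f [6]) = [6] := by
  have := UW hZ hp (a := 6) (by omega) le_rfl
  rwa [ite_self] at this

theorem RR (hZ : Good Z) (p q p' q' : List ℕ) :
    R Z p q * R Z p' q' = W Z p * (u0 Z * W Z (q ++ p') * u0 Z) * W Z q' := by
  simp only [R, ← W_mul hZ, mul_assoc]

end Pool.Agent.H16.Cg
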