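import Pool.Agent.H16.Cg2

/-! Classification of the elements and of the commuting pairs. -/

set_option autoImplicit false

namespace Pool.Agent.H16.Cg

open List

variable {Z : List ℕ}

def TW (Z : List ℕ) (x : El) : Prop := ∃ v, v ≠ [] ∧ v <:+: Z ∧ x = W Z v
def TR (Z : List ℕ) (x : El) : Prop := ∃ p q, p <:+: Z ∧ q <:+: Z ∧ x = R Z p q
def TK (Z : List ℕ) (x : El) : Prop := ∃ i j, i ∈ Pt Z ∧ j ∈ Pt Z.reverse ∧ x = K i j
def T (Z : List ℕ) : Set El := {x | TW Z x ∨ TR Z x ∨ TK Z x}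

theorem T_fin (Z : List ℕ) : (T Z).Finite := by
  refine (((live_fin Z).image (W Z)).union (((live_fin Z).image2 (R Z) (live_fin Z)).union
    ((pt_fin Z).image2 K (pt_fin Z.reverse)))).subset ?_
  rintro x (⟨v, -, h, rfl⟩ | ⟨p, q, h1, h2, rfl⟩ | ⟨i, j, h1, h2, rfl⟩)
  · exact Or.inl ⟨v, h, rfl⟩
  · exact Or.inr (Or.inl ⟨p, h1, q, h2, rfl⟩)
  · exact Or.inr (Or.inr ⟨i, h1, j, h2, rfl⟩)

theorem can_pt {m : List ℕ} (h : m ∈ Pt Z) : can Z m ∈ Pt Z := by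
  obtain ⟨p, a, h1, h2, rfl⟩ := h
  exact ⟨_, a, rho_live a h1, h2, can_eq _ _⟩

theorem pt_le (hZ : ∀ a ∈ Z, a ≤ 3) {m : List ℕ} (h : m ∈ Pt Z) : m ≠ [] ∧ ∀ a ∈ m, a ≤ 6 := by
  obtain ⟨p, a, h1, h2, rfl⟩ := h
  refine ⟨by simp, fun b hb => ?_⟩
  rcases mem_append.1 hb with h | h
  · have := hZ b (h1.subset h); omega
  · rw [mem_singleton.1 h]; exact h2

theorem pt_one {a : ℕ} (h : a ≤ 6) (Z : List ℕ) : [a] ∈ Pt Z := ⟨[], a, nil_infix, h, rfl⟩

theorem Wf_pt (hZ : Good Z) {p i : List ℕ} (hp : ∀ a ∈ p, a ≤ 3) (h : i ∈ Pt Z) :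
    (W Z p).f i ∈ Pt Z :=
  can_pt (nm_pt (by simp [(pt_le hZ.le h).1]) fun a ha => by
    rcases mem_append.1 ha with h' | h'
    · have := hp a h'; omega
    · exact (pt_le hZ.le h).2 a h')

theorem Wh_pt (hZ : Good Z) {q : List ℕ} (h : q <:+: Z) : (W Z q).h [6] ∈ Pt Z.reverse :=
  ⟨_, 6, reverse_infix.2 h, le_rfl, W_h hZ h⟩

theorem W_K {p : List ℕ} (h0 : p ≠ []) (hp : ∀ a ∈ p, a ≤ 3) (h : ¬ p <:+: Z) : TK Z (W Z p) :=
  ⟨_, _, can_pt (nm_pt h0 fun a ha => by have := hp a ha; omega),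
    nm_pt (by simpa using h0) fun a ha => by have := hp a (mem_reverse.1 ha); omega, W_dead h⟩

theorem W_T {p : List ℕ} (h0 : p ≠ []) (hp : ∀ a ∈ p, a ≤ 3) : W Z p ∈ T Z := by
  by_cases h : p <:+: Z
  · exact Or.inl ⟨p, h0, h, rfl⟩
  · exact Or.inr (Or.inr (W_K h0 hp h))

theorem ok_app (hZ : Good Z) {p q : List ℕ} (hp : ∀ a ∈ p, a ≤ 3) (h : q <:+: Z) :
    ∀ a ∈ p ++ q, a ≤ 3 := fun a ha =>
  (mem_append.1 ha).elim (hp a) fun h' => hZ.le a (h.subset h')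

theorem W_left (hZ : Good Z) {p : List ℕ} (h0 : p ≠ []) (hp : ∀ a ∈ p, a ≤ 3) {x : El}
    (hx : x ∈ T Z) : W Z p * x ∈ T Z := by
  rcases hx with ⟨v, -, h, rfl⟩ | ⟨p', q, h1, h2, rfl⟩ | ⟨i, j, h1, h2, rfl⟩
  · rw [W_mul hZ]; exact W_T (by simp [h0]) (ok_app hZ hp h)
  · have e : W Z p * R Z p' q = R Z (p ++ p') q := by simp only [R, ← W_mul hZ, mul_assoc]
    rw [e]
    by_cases h : p ++ p' <:+: Z
    · exact Or.inr (Or.inl ⟨_, _, h, h2, rfl⟩)
    · obtain ⟨i, j, h3, -, h5⟩ := W_K (by simp [h0]) (ok_app hZ hp h1) h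
      exact Or.inr (Or.inr ⟨i, _, h3, Wh_pt hZ h2, by rw [R, h5]; rfl⟩)
  · exact Or.inr (Or.inr ⟨_, j, Wf_pt hZ hp h1, h2, rfl⟩)

theorem R_left (hZ : Good Z) {x : El} (hx : x ∈ T Z) : R Z [] [] * x ∈ T Z := by
  rcases hx with ⟨v, -, h, rfl⟩ | ⟨p, q, h1, h2, rfl⟩ | ⟨i, j, h1, h2, rfl⟩
  · exact Or.inr (Or.inl ⟨[], v, nil_infix, h, by rw [R, mul_assoc, W_mul hZ]; rfl⟩)
  · rw [RR hZ, uWu hZ (ok_app hZ (by simp) h1)]
    split_ifs
    · exact Or.inr (Or.inl ⟨[], q, nil_infix, h2, rfl⟩)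
    · exact Or.inr (Or.inr ⟨_, _, Wf_pt (p := []) hZ (by simp) (pt_one le_rfl Z), Wh_pt hZ h2, rfl⟩)
  · obtain ⟨a, -, h4, h5⟩ := R_f hZ nil_infix [] i
    exact Or.inr (Or.inr ⟨_, j, ⟨_, a, rho_live a nil_infix, h4, h5⟩, h2, rfl⟩)

theorem K_left (hZ : Good Z) {a : ℕ} (ha : a ≤ 6) {x : El} (hx : x ∈ T Z) :
    K [a] [6] * x ∈ T Z := by
  refine Or.inr (Or.inr ⟨[a], x.h [6], pt_one ha Z, ?_, rfl⟩)
  rcases hx with ⟨v, -, h, rfl⟩ | ⟨p, q, h1, h2, rfl⟩ | ⟨i, j, h1, h2, rfl⟩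
  · exact Wh_pt hZ h
  · exact Wh_pt hZ h2
  · exact h2

theorem R6 (hZ : Good Z) {p q : List ℕ} (hp : p <:+: Z) (hq : q <:+: Z) :
    (R Z p q).f [6] = p ++ [6] := by
  show (W Z p).f ((u0 Z).f ((W Z q).f [6])) = _
  rw [UW6 hZ fun a ha => hZ.le a (hq.subset ha), W_term hZ hp (by omega),
    rho_triv _ (by omega) (by omega)]

theorem RR6 (hZ : Good Z) {p q p' q' : List ℕ} (hp : p <:+: Z) (hq : q <:+: Z) (hp' : p' <:+: Z)
    (hq' : q' <:+: Z) : (R Z p q * R Z p' q').f [6] = p ++ [6] := by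
  rw [RR hZ]
  show (W Z p).f ((u0 Z).f ((W Z (q ++ p')).f ((u0 Z).f ((W Z q').f [6])))) = _
  rw [UW6 hZ fun a ha => hZ.le a (hq'.subset ha),
    UW6 hZ (ok_app hZ (fun a ha => hZ.le a (hq.subset ha)) hp'), W_term hZ hp (by omega),
    rho_triv _ (by omega) (by omega)]

theorem WR (hZ : Good Z) {x y : El} (hx : TW Z x) (hy : TR Z y) : x * y ≠ y * x := by
  obtain ⟨v, h0, hv, rfl⟩ := hx
  obtain ⟨p, q, hp, hq, rfl⟩ := hy
  intro h
  have h1 := congrArg (fun z : El => z.h []) h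
  simp only [mul_h, R_h hZ p hq] at h1
  have h2 : q.reverse ++ [6] <+: v.reverse ++ q.reverse ++ [6] := by
    rw [h1, append_assoc]; exact nm_pre _
  have h3 := prefix_of_prefix_length_le h2 (prefix_append _ _) (by
    have := length_pos_iff.2 h0
    simp; omega)
  have h4 := h3.subset (show 6 ∈ q.reverse ++ [6] by simp)
  rw [← reverse_append, mem_reverse] at h4
  have := ok_app hZ (fun a ha => hZ.le a (hq.subset ha)) hv 6 h4
  omega

theorem can_nm6 (hZ : Good Z) {p : List ℕ} (hp : ∀ a ∈ p, a ≤ 3) :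
    can Z (nm Z (p ++ [6])) = nm Z (p ++ [6]) :=
  can_low fun a ha => by
    rcases mem_append.1 ((nm_pre _).subset ha) with h | h
    · have := hp a h; omega
    · rw [mem_singleton.1 h]; omega

/-- elements outside the kernel commute only with themselves -/
theorem NN (hZ : Good Z) {x y : El} (hx : TW Z x ∨ TR Z x) (hy : TW Z y ∨ TR Z y)
    (h : x * y = y * x) : x = y := by
  rcases hx with hx | hx <;> rcases hy with hy | hy
  · obtain ⟨v, h0, hv, rfl⟩ := hx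
    obtain ⟨w, h1, hw, rfl⟩ := hy
    rw [W_mul hZ, W_mul hZ] at h
    have h2 := congrArg (fun z : El => z.f [6]) h
    have h3 := congrArg (fun z : El => z.h [6]) h
    simp only [W, can_nm6 hZ (ok_app hZ (fun a ha => hZ.le a (hv.subset ha)) hw),
      can_nm6 hZ (ok_app hZ (fun a ha => hZ.le a (hw.subset ha)) hv)] at h2 h3
    rcases le_total v.length w.length with h4 | h4
    · rw [sep hZ.sq h0 hv hw h4 _ _ h2 h3]
    · rw [sep hZ.sq h1 hw hv h4 _ _ h2.symm h3.symm]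
  · exact absurd h (WR hZ hx hy)
  · exact absurd h.symm (WR hZ hy hx)
  · obtain ⟨p, q, hp, hq, rfl⟩ := hx
    obtain ⟨p', q', hp', hq', rfl⟩ := hy
    have h2 := congrArg (fun z : El => z.f [6]) h
    have h3 := congrArg (fun z : El => z.h []) h
    simp only [RR6 hZ hp hq hp' hq', RR6 hZ hp' hq' hp hq] at h2
    simp only [mul_h, R_h hZ _ hq, R_h hZ _ hq'] at h3
    rw [append_cancel_right h2, reverse_injective (append_cancel_right h3)]

theorem fix {x : El} {i j : List ℕ} (h : x * K i j = K i j * x) : x.f i = i ∧ x.h j = j :=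
  ⟨congrArg (fun z : El => z.f []) h, (congrArg (fun z : El => z.h []) h).symm⟩

theorem KK {x y : El} (hx : TK Z x) (hy : TK Z y) (h : x * y = y * x) : x = y := by
  obtain ⟨i, j, -, -, rfl⟩ := hx
  obtain ⟨i', j', -, -, rfl⟩ := hy
  obtain ⟨h1, h2⟩ := fix h
  exact congrArg₂ K h1 h2

/-- an element with two neighbours in the kernel -/
theorem two (hZ : Good Z) {x : El} (hx : TW Z x ∨ TR Z x) {i j i' j' : List ℕ}
    (h : x * K i j = K i j * x) (h' : x * K i' j' = K i' j' * x) (hne : K i j ≠ K i' j') :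
    ∃ p q, p <:+: Z ∧ q <:+: Z ∧ isW Z (q ++ p) ∧ x = R Z p q := by
  have key : ∀ a b, x * x ≠ K a b := fun a b e => by
    have e1 : ∀ i j, x * K i j = K i j * x → K i j = K a b := fun i j h => by
      have h1 := congrArg (fun z : El => z.f i) e
      have h2 := congrArg (fun z : El => z.h j) e
      simp only [mul_f, mul_h, (fix h).1, (fix h).2] at h1 h2
      exact congrArg₂ K h1 h2
    exact hne ((e1 _ _ h).trans (e1 _ _ h').symm)
  rcases hx with ⟨v, h0, hv, rfl⟩ | ⟨p, q, hp, hq, rfl⟩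
  · exact absurd ((W_mul hZ v v).trans (W_dead (hZ.sq v h0))) (key _ _)
  · refine ⟨p, q, hp, hq, by_contra fun hn => key ((W Z p).f [6]) ((W Z q).h [6]) ?_, rfl⟩
    rw [RR hZ, uWu hZ (ok_app hZ (fun a ha => hZ.le a (hq.subset ha)) hp), if_neg hn]
    rfl

/-- a kernel element with two idempotent neighbours -/
theorem share (hZ : Good Z) {p q p' q' i j : List ℕ} (hp : p <:+: Z) (hq : q <:+: Z)
    (hp' : p' <:+: Z) (hq' : q' <:+: Z) (hw : isW Z (q ++ p))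
    (h : R Z p q * K i j = K i j * R Z p q) (h' : R Z p' q' * K i j = K i j * R Z p' q')
    (hne : R Z p q ≠ R Z p' q') :
    q = [] ∧ q' = [] ∧ isW Z p ∧ isW Z p' ∧ p ≠ p' ∧ j = [6] ∧
      ∃ a, (a = 4 ∨ a = 5) ∧ i = rho Z a p ++ [a] ∧ rho Z a p = rho Z a p' := by
  have e1 := (fix h).2
  have e2 := (fix h').2
  rw [R_h hZ _ hq] at e1
  rw [R_h hZ _ hq'] at e2
  obtain rfl : q = q' := reverse_injective (append_cancel_right (e1.trans e2.symm))
  have hpp : p ≠ p' := fun e => hne (by rw [e])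
  obtain ⟨a, -, -, e3⟩ := R_f hZ hp q i
  obtain ⟨b, -, -, e4⟩ := R_f hZ hp' q i
  rw [(fix h).1] at e3
  rw [(fix h').1] at e4
  obtain ⟨e5, e6⟩ := append_inj' (e3.symm.trans e4) rfl
  obtain rfl : a = b := by simpa using e6
  have ha : a = 4 ∨ a = 5 := by_contra fun hn =>
    hpp (by rwa [rho_triv p (by tauto) (by tauto), rho_triv p' (by tauto) (by tauto)] at e5)
  have hW : isW Z p ↔ isW Z p' := by rw [← rho_W hZ a p, e5, rho_W hZ]
  have hW1 : isW Z p := by_contra fun hn =>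
    hpp (by rwa [rho, rho, if_neg hn, if_neg (mt hW.2 hn)] at e5)
  have hq0 : q = [] := by
    rcases eq_nil_or_concat' q with h0 | ⟨q0, g, rfl⟩
    · exact h0
    · obtain ⟨r, rfl⟩ := hZ.hd p hW1
      exact absurd (IsInfix.trans ⟨q0, r, by simp⟩ hw.2.isInfix) (hZ.st g)
  subst hq0
  exact ⟨rfl, rfl, hW1, hW.1 hW1, hpp, e1.symm, a, ha, e3, e5⟩

end Pool.Agent.H16.Cg
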