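import Pool.Agent.H16.Cg3
import Pool.Agent.H29.SqFree

/-! The seven-generated semigroups and the cycles among their commuting pairs. -/

set_option autoImplicit false

namespace Pool.Agent.H16.Cg

open List Pool.Agent.H29.SqFree

def ZZ (n : ℕ) : List ℕ := 3 :: (List.range n).map tern

theorem good (n : ℕ) (hn : n % 2 = 1) : Good (ZZ n) := by
  have h3 : ∀ a ∈ (List.range n).map tern, a < 3 := fun a ha => by
    obtain ⟨i, -, rfl⟩ := mem_map.1 ha
    exact tern_lt i
  refine ⟨fun v h0 h => ?_, fun g h => ?_, fun p h => ?_, fun a ha => ?_, by simp [ZZ]; omega⟩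
  · rcases infix_cons_iff.1 h with h | ⟨s, t, h⟩
    · obtain ⟨a, v, rfl⟩ := exists_cons_of_ne_nil h0
      obtain ⟨rfl, h⟩ := cons_prefix_cons.1 h
      exact lt_irrefl _ (h3 3 (h.subset (by simp)))
    · refine tern_sq s.length v.length (length_pos_iff.2 h0) fun j hj => ?_
      have hl := congrArg length h
      have e1 := congrArg (·[s.length + j]?) h
      have e2 := congrArg (·[s.length + v.length + j]?) h
      simp only [length_append, length_map, length_range] at hl
      simp only [append_assoc, getElem?_map] at e1 e2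
      rw [getElem?_append_right (by omega), getElem?_append_left (by omega),
        getElem?_range (by omega)] at e1
      rw [getElem?_append_right (by omega), getElem?_append_right (by omega),
        getElem?_append_left (by omega), getElem?_range (by omega)] at e2
      rw [show s.length + v.length + j - s.length - v.length = s.length + j - s.length by omega,
        e1] at e2
      simpa using e2
  · rcases infix_cons_iff.1 h with h | h
    · exact lt_irrefl _ (h3 3 ((cons_prefix_cons.1 h).2.subset (by simp)))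
    · exact lt_irrefl _ (h3 3 (h.subset (by simp)))
  · obtain ⟨a, v, rfl⟩ := exists_cons_of_ne_nil h.1
    exact ⟨v, by rw [(cons_prefix_cons.1 h.2).1]⟩
  · rcases mem_cons.1 ha with rfl | h
    · exact le_rfl
    · exact (h3 a h).le

variable {Z : List ℕ}

noncomputable def gens (Z : List ℕ) : List El :=
  [W Z [0], W Z [1], W Z [2], W Z [3], R Z [] [], K [4] [6], K [5] [6]]

def SS (Z : List ℕ) : Subsemigroup El := Subsemigroup.closure {x | x ∈ gens Z}

theorem SS_T (hZ : Good Z) {x : El} (hx : x ∈ SS Z) : x ∈ T Z := by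
  refine (Subsemigroup.closure_induction (p := fun x _ => x ∈ T Z ∧ ∀ y ∈ T Z, x * y ∈ T Z)
    (fun x hx => ?_) (fun x y _ _ h1 h2 =>
      ⟨h1.2 y h2.1, fun z hz => by rw [mul_assoc]; exact h1.2 _ (h2.2 z hz)⟩) hx).1
  simp only [gens, mem_cons, not_mem_nil, or_false, Set.mem_ofPred_eq] at hx
  rcases hx with rfl | rfl | rfl | rfl | rfl | rfl | rfl
  iterate 4 exact ⟨W_T (by simp) (by simp), fun y => W_left hZ (by simp) (by simp)⟩
  · exact ⟨Or.inr (Or.inl ⟨_, _, nil_infix, nil_infix, rfl⟩), fun y => R_left hZ⟩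
  all_goals exact ⟨Or.inr (Or.inr ⟨_, _, pt_one (by omega) _, pt_one le_rfl _, rfl⟩),
    fun y => K_left hZ (by omega)⟩

theorem W_SS (hZ : Good Z) (p : List ℕ) : p ≠ [] → (∀ a ∈ p, a ≤ 3) → W Z p ∈ SS Z := by
  induction p with
  | nil => exact fun h => absurd rfl h
  | cons a p ih =>
    intro _ h
    have h1 : W Z [a] ∈ SS Z := Subsemigroup.subset_closure (by
      have := h a (by simp)
      interval_cases a <;> simp [gens])
    by_cases h0 : p = []
    · rwa [h0]
    · have := mul_mem h1 (ih h0 fun b hb => h b (by simp [hb]))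
      rwa [W_mul hZ] at this

theorem isW.ok (hZ : Good Z) {p : List ℕ} (h : isW Z p) : ∀ a ∈ p, a ≤ 3 :=
  fun a ha => hZ.le a (h.2.subset ha)

theorem R_SS (hZ : Good Z) {p : List ℕ} (h : isW Z p) : R Z p [] ∈ SS Z := by
  have := mul_mem (W_SS hZ p h.1 (h.ok hZ))
    (show R Z [] [] ∈ SS Z from Subsemigroup.subset_closure (by simp [gens]))
  rwa [R, ← mul_assoc, ← mul_assoc, W_mul hZ, append_nil] at this

theorem K_SS (hZ : Good Z) {p : List ℕ} (h : isW Z p) {a : ℕ} (ha : a = 4 ∨ a = 5) :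
    K (rho Z a p ++ [a]) [6] ∈ SS Z := by
  have := mul_mem (W_SS hZ p h.1 (h.ok hZ)) (show K [a] [6] ∈ SS Z from
    Subsemigroup.subset_closure (by rcases ha with rfl | rfl <;> simp [gens]))
  rw [← W_term hZ h.2.isInfix (by omega)]
  exact this

theorem RK (hZ : Good Z) {p : List ℕ} (h : isW Z p) {a : ℕ} (ha : a = 4 ∨ a = 5) :
    R Z p [] * K (rho Z a p ++ [a]) [6] = K (rho Z a p ++ [a]) [6] * R Z p [] := by
  have e1 : (W Z []).f (rho Z a p ++ [a]) = (W Z p).f [a] := by
    rw [← W_term hZ h.2.isInfix (by omega), ← mul_f, W_mul hZ, nil_append]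
  have e2 : (R Z p []).f (rho Z a p ++ [a]) = rho Z a p ++ [a] := by
    show (W Z p).f (UU Z ((W Z []).f _)) = _
    rw [e1, UW hZ (h.ok hZ) (by omega) (by omega), if_pos h, W_term hZ h.2.isInfix (by omega)]
  show K ((R Z p []).f (rho Z a p ++ [a])) [6] = K (rho Z a p ++ [a]) ((R Z p []).h [6])
  rw [e2, R_h hZ p nil_infix]
  rfl

theorem R_ne_K (hZ : Good Z) {p : List ℕ} (h : isW Z p) (q j : List ℕ) {a : ℕ}
    (ha : a = 4 ∨ a = 5) : R Z p [] ≠ K (q ++ [a]) j := fun e => by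
  have := congrArg (fun z : El => z.f [6]) e
  simp only [R6 hZ h.2.isInfix nil_infix, K] at this
  have := (append_inj' this rfl).2
  simp at this
  omega

theorem R_inj (hZ : Good Z) {p q : List ℕ} (h : isW Z p) (h' : isW Z q)
    (e : R Z p [] = R Z q []) : p = q := by
  have := congrArg (fun z : El => z.f [6]) e
  simp only [R6 hZ h.2.isInfix nil_infix, R6 hZ h'.2.isInfix nil_infix] at this
  exact append_cancel_right this

theorem rho_len (hZ : Good Z) {p : List ℕ} (h : isW Z p) (a : ℕ) :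
    (rho Z a p).length = rr Z.length a p.length := by
  rw [rho, if_pos h, length_take, min_eq_left (rr_bd hZ.ev h.len.1 h.len.2).2.1]

/-- a set in which every element commutes with two other members contains all `R p []` -/
theorem closed (hZ : Good Z) (A : Set El) (hA : A ⊆ T Z) (hne : A.Nonempty)
    (nb : ∀ x ∈ A, ∃ y ∈ A, ∃ z ∈ A, y ≠ z ∧ x ≠ y ∧ x ≠ z ∧ x * y = y * x ∧ x * z = z * x)
    (j : ℕ) (h1 : 0 < j) (h2 : j ≤ Z.length) : R Z (Z.take j) [] ∈ A := by
  have cA : ∀ x ∈ A, (TW Z x ∨ TR Z x) → ∀ y ∈ A, x ≠ y → x * y = y * x → TK Z y :=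
    fun x _ hx y hy h h' => (or_assoc.2 (hA hy)).resolve_left fun hy' => h (NN hZ hx hy' h')
  have cB : ∀ x ∈ A, (TW Z x ∨ TR Z x) →
      ∃ p q, p <:+: Z ∧ q <:+: Z ∧ isW Z (q ++ p) ∧ x = R Z p q := fun x hx hN => by
    obtain ⟨y, hy, z, hz, e1, e2, e3, e4, e5⟩ := nb x hx
    obtain ⟨i, j, -, -, rfl⟩ := cA x hx hN y hy e2 e4
    obtain ⟨i', j', -, -, rfl⟩ := cA x hx hN z hz e3 e5
    exact two hZ hN e4 e5 e1
  have cC : ∀ x ∈ A, TK Z x → ∃ p p' a, R Z p [] ∈ A ∧ R Z p' [] ∈ A ∧ isW Z p ∧ isW Z p' ∧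
      p ≠ p' ∧ (a = 4 ∨ a = 5) ∧ x = K (rho Z a p ++ [a]) [6] ∧ rho Z a p = rho Z a p' := by
    intro x hx hK
    obtain ⟨y, hy, z, hz, e1, e2, e3, e4, e5⟩ := nb x hx
    obtain ⟨p, q, a1, a2, a3, rfl⟩ := cB y hy
      ((or_assoc.2 (hA hy)).resolve_right fun h => e2 (KK hK h e4))
    obtain ⟨p', q', b1, b2, -, rfl⟩ := cB z hz
      ((or_assoc.2 (hA hz)).resolve_right fun h => e3 (KK hK h e5))
    obtain ⟨i, j, -, -, rfl⟩ := hK
    obtain ⟨rfl, rfl, c1, c2, c3, rfl, a, c4, rfl, c5⟩ :=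
      share hZ a1 a2 b1 b2 a3 e4.symm e5.symm e1
    exact ⟨p, p', a, hy, hz, c1, c2, c3, c4, rfl, c5⟩
  have cD : ∀ p, isW Z p → R Z p [] ∈ A → ∀ y ∈ A, R Z p [] ≠ y → R Z p [] * y = y * R Z p [] →
      ∃ a p', (a = 4 ∨ a = 5) ∧ y = K (rho Z a p ++ [a]) [6] ∧ R Z p' [] ∈ A ∧ isW Z p' ∧
        p' ≠ p ∧ rho Z a p' = rho Z a p := by
    intro p hp hx y hy e1 e2
    obtain ⟨q, q', a, a1, a2, a3, a4, a5, a6, rfl, a8⟩ := cC y hy
      (cA _ hx (Or.inr ⟨_, _, hp.2.isInfix, nil_infix, rfl⟩) y hy e1 e2)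
    obtain ⟨b, -, -, e3⟩ := R_f hZ hp.2.isInfix [] (rho Z a q ++ [a])
    rw [(fix e2).1] at e3
    obtain ⟨e5, e6⟩ := append_inj' e3 rfl
    obtain rfl : a = b := by simpa using e6
    by_cases h : q = p
    · exact ⟨a, q', a6, by rw [e5], a2, a4, fun h' => a5 (h.trans h'.symm), a8.symm.trans e5⟩
    · exact ⟨a, q, a6, by rw [e5], a1, a3, h, e5⟩
  have step : ∀ k, 0 < k → k ≤ Z.length → R Z (Z.take k) [] ∈ A →
      R Z (Z.take (k % Z.length + 1)) [] ∈ A := fun k k1 k2 hk => by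
    have hp := isW_take k1 k2
    obtain ⟨y, hy, z, hz, e1, e2, e3, e4, e5⟩ := nb _ hk
    obtain ⟨a, p, a1, a2, a3⟩ := cD _ hp hk y hy e2 e4
    obtain ⟨b, q, b1, b2, b3⟩ := cD _ hp hk z hz e3 e5
    have hab : a ≠ b := fun h => e1 (by rw [a2, b2, h])
    obtain ⟨p, c1, c2, c3, c4⟩ : ∃ p, R Z p [] ∈ A ∧ isW Z p ∧ p ≠ Z.take k ∧
        rho Z (4 + (k + 1) % 2) p = rho Z (4 + (k + 1) % 2) (Z.take k) := by
      rcases (by omega : a = 4 + (k + 1) % 2 ∨ b = 4 + (k + 1) % 2) with rfl | rfl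
      · exact ⟨p, a3⟩
      · exact ⟨q, b3⟩
    have d1 := congrArg length c4
    rw [rho_len hZ c2, rho_len hZ hp, length_take, min_eq_left k2] at d1
    have d2 := prefix_iff_eq_take.1 c2.2
    have d3 : p.length ≠ k := fun h => c3 (by rw [d2, h])
    have d4 := c2.len
    have d5 := hZ.ev
    have m : ∀ j, 0 < j → j ≤ Z.length → j % Z.length = if j = Z.length then 0 else j := by
      intro j h1 h2
      split_ifs with h
      · simp [h]
      · exact Nat.mod_eq_of_lt (by omega)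
    have d6 := m k k1 k2
    have d7 := m _ d4.1 d4.2
    have : k % Z.length + 1 = p.length := by
      unfold rr at d1
      split_ifs at d1 d6 d7 <;> omega
    rwa [this, ← d2]
  obtain ⟨x, hx⟩ := hne
  obtain ⟨y, hy, hK⟩ : ∃ y ∈ A, TK Z y := by
    rcases or_assoc.2 (hA hx) with h | h
    · obtain ⟨y, hy, -, -, -, e2, -, e4, -⟩ := nb x hx
      exact ⟨y, hy, cA x hx h y hy e2 e4⟩
    · exact ⟨x, hx, h⟩
  obtain ⟨p, -, -, a1, -, a3, -⟩ := cC y hy hK
  have a4 := a3.len
  have all : ∀ t, R Z (Z.take ((p.length - 1 + t) % Z.length + 1)) [] ∈ A := fun t => by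
    induction t with
    | zero =>
      rw [add_zero, Nat.mod_eq_of_lt (by omega), Nat.sub_add_cancel a4.1,
        ← prefix_iff_eq_take.1 a3.2]
      exact a1
    | succ t ih =>
      have := step ((p.length - 1 + t) % Z.length + 1) (by omega) (Nat.mod_lt _ (by omega)) ih
      rwa [Nat.mod_add_mod] at this
  have := all (Z.length + j - p.length)
  rwa [show p.length - 1 + (Z.length + j - p.length) = j - 1 + Z.length by omega,
    Nat.add_mod_right, Nat.mod_eq_of_lt (by omega), Nat.sub_add_cancel h1] at this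

end Pool.Agent.H16.Cg
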