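import Pool.Agent.H16.Unital

set_option autoImplicit false

namespace Pool.Agent.H16.ComBase
open Finset

def v : Fin 9 → Fin 4 → ZMod 2 :=
  ![![1, 0, 0, 0], ![0, 1, 0, 0], ![0, 0, 1, 0], ![0, 0, 0, 1], ![1, 0, 1, 1], ![1, 1, 1, 0], ![0, 1, 1, 1], ![1, 0, 0, 0], ![0, 1, 0, 1]]

def cw : Fin 32 → Finset (Fin 9) :=
  ![∅,
    {0, 2, 3, 4},
    {0, 1, 2, 5},
    {1, 3, 4, 5},
    {1, 2, 3, 6},
    {0, 1, 4, 6},
    {0, 3, 5, 6},
    {2, 4, 5, 6},
    {0, 7},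
    {2, 3, 4, 7},
    {1, 2, 5, 7},
    {0, 1, 3, 4, 5, 7},
    {0, 1, 2, 3, 6, 7},
    {1, 4, 6, 7},
    {3, 5, 6, 7},
    {0, 2, 4, 5, 6, 7},
    {1, 3, 8},
    {0, 1, 2, 4, 8},
    {0, 2, 3, 5, 8},
    {4, 5, 8},
    {2, 6, 8},
    {0, 3, 4, 6, 8},
    {0, 1, 5, 6, 8},
    {1, 2, 3, 4, 5, 6, 8},
    {0, 1, 3, 7, 8},
    {1, 2, 4, 7, 8},
    {2, 3, 5, 7, 8},
    {0, 4, 5, 7, 8},
    {0, 2, 6, 7, 8},
    {3, 4, 6, 7, 8},
    {1, 5, 6, 7, 8},
    {0, 1, 2, 3, 4, 5, 6, 7, 8}]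

theorem cw_sum : ∀ d : Fin 32, ∀ j : Fin 4, ∑ i ∈ cw d, v i j = 0 := by decide +kernel

theorem pick : ∀ a b c d e : ZMod 2, ∃ D : Fin 32, ∀ i : Fin 9, (if i ∈ cw D then 1 else 0 : ZMod 2) =
    ![a + b + d, b + c + e, a + b + c, a + c + e, a, b, c, d, e] i := by
  decide +kernel

theorem ker_cw (x : Fin 9 → ZMod 2) (h : ∀ j, ∑ i, x i * v i j = 0) :
    ∃ D : Fin 32, ∀ i, x i = if i ∈ cw D then 1 else 0 := by
  obtain ⟨D, hD⟩ := pick (x 4) (x 5) (x 6) (x 7) (x 8)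
  refine ⟨D, fun i => ?_⟩
  rw [hD]
  have two : ∀ y : ZMod 2, y + y = 0 := by decide
  have h0 := h 0
  have h1 := h 1
  have h2 := h 2
  have h3 := h 3
  simp [Fin.sum_univ_succ, v] at h0 h1 h2 h3
  fin_cases i
  · show x 0 = x 4 + x 5 + x 7
    linear_combination h0 - two (x 4 + x 5 + x 7)
  · show x 1 = x 5 + x 6 + x 8
    linear_combination h1 - two (x 5 + x 6 + x 8)
  · show x 2 = x 4 + x 5 + x 6
    linear_combination h2 - two (x 4 + x 5 + x 6)
  · show x 3 = x 4 + x 6 + x 8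
    linear_combination h3 - two (x 4 + x 6 + x 8)
  · rfl
  · rfl
  · rfl
  · rfl
  · rfl

noncomputable def M0 : Matroid (Fin 9) := Pool.Agent.S09362Aux.vm (ZMod 2) v

theorem M0_E : M0.E = Set.univ := Pool.Agent.S09362Aux.vm_E v

theorem cw_ne : ∀ D : Fin 32, D ≠ 0 → (cw D).Nonempty := by decide +kernel

theorem indep_iff (I : Set (Fin 9)) : M0.Indep I ↔ ∀ D : Fin 32, D ≠ 0 → ¬ ((cw D : Set _) ⊆ I) := by
  classical
  rw [M0, Pool.Agent.S09362Aux.vm_indep, linearIndepOn_iff'']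
  constructor
  · intro h D hD hs
    obtain ⟨i, hi⟩ := cw_ne D hD
    have := h (cw D) (fun i => if i ∈ cw D then 1 else 0) hs (fun i hi => if_neg hi) (by
      funext j
      rw [Finset.sum_apply, Pi.zero_apply, ← cw_sum D j]
      exact sum_congr rfl fun i hi => by simp [hi]) i hi
    simp [hi] at this
  · intro h t g ht hg hs i hi
    obtain ⟨D, hD⟩ := ker_cw g (fun j => by
      have := congrFun hs j
      rw [Finset.sum_apply, Pi.zero_apply] at this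
      rw [← this]
      symm
      refine (sum_subset (subset_univ t) fun i _ hi => by simp [hg i hi]).trans ?_
      rfl)
    by_cases h0 : D = 0
    · rw [hD, h0]; simp [cw]
    · refine absurd (fun e he => ht ?_) (h D h0)
      by_contra hn
      have := hg e hn
      rw [hD, if_pos (by exact_mod_cast he)] at this
      exact absurd this (by decide)

theorem base_of (B : Finset (Fin 9)) (h1 : ∀ D : Fin 32, D ≠ 0 → ¬ cw D ⊆ B)
    (h2 : ∀ e : Fin 9, e ∉ B → ∃ D : Fin 32, D ≠ 0 ∧ cw D ⊆ insert e B) : M0.IsBase (B : Set _) := by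
  refine ((indep_iff _).2 fun D hD hs => h1 D hD (by exact_mod_cast hs)).isBase_of_forall_insert ?_
  intro e he hI
  obtain ⟨D, hD, hs⟩ := h2 e (by simpa using he.2)
  exact (indep_iff _).1 hI D hD (by exact_mod_cast hs)

theorem part (x : Fin 9) (A B : Finset (Fin 9)) (hA : M0.IsBase (A : Set _)) (hB : M0.IsBase (B : Set _))
    (hd : Disjoint A B) (hu : A ∪ B = univ.erase x) :
    ∃ P : Fin 2 → Set (Fin 9), (∀ i, M0.IsBase (P i)) ∧ (∀ i j, i ≠ j → Disjoint (P i) (P j)) ∧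
      (⋃ i, P i) = M0.E \ {x} := by
  refine ⟨![A, B], fun i => ?_, fun i j h => ?_, ?_⟩
  · fin_cases i
    · exact hA
    · exact hB
  · fin_cases i <;> fin_cases j
    · exact absurd rfl h
    · exact disjoint_coe.2 hd
    · exact disjoint_coe.2 hd.symm
    · exact absurd rfl h
  · ext e
    have : e ∈ A ∪ B ↔ e ∈ univ.erase x := by rw [hu]
    simpa [M0_E, Fin.exists_fin_two] using this

theorem block : ∀ B : Finset (Fin 7), ∃ D : Fin 32, D ≠ 0 ∧
    (cw D ⊆ B.map (Fin.castLEEmb (by decide : 7 ≤ 9)) ∨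
     cw D ⊆ (univ.erase 7) \ B.map (Fin.castLEEmb (by decide : 7 ≤ 9)) ∨
     cw D ⊆ (univ.erase 8) \ B.map (Fin.castLEEmb (by decide : 7 ≤ 9))) := by
  decide +kernel

theorem other (x : Fin 9) (P : Fin 2 → Set (Fin 9)) (h1 : ∀ i, M0.IsBase (P i))
    (hu : (⋃ i, P i) = M0.E \ {x}) (i : Fin 2) : x ∉ P i ∧ M0.Indep ({x}ᶜ \ P i) := by
  constructor
  · intro h
    have : x ∈ ⋃ i, P i := Set.mem_iUnion.2 ⟨i, h⟩
    rw [hu] at this
    exact this.2 rfl
  · refine (h1 (i + 1)).indep.subset fun e he => ?_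
    have : e ∈ ⋃ i, P i := by
      rw [hu, M0_E]
      exact ⟨trivial, he.1⟩
    obtain ⟨j, hj⟩ := Set.mem_iUnion.1 this
    have hij : j = i ∨ j = i + 1 := (by decide : ∀ a b : Fin 2, b = a ∨ b = a + 1) i j
    rcases hij with rfl | rfl
    · exact absurd hj he.2
    · exact hj

theorem no_common (B : Set (Fin 9)) (h0 : M0.Indep B) (h7 : (7 : Fin 9) ∉ B) (h8 : (8 : Fin 9) ∉ B)
    (i7 : M0.Indep ({7}ᶜ \ B)) (i8 : M0.Indep ({8}ᶜ \ B)) : False := by
  classical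
  let T : Finset (Fin 7) := univ.filter (fun i => Fin.castLE (by decide : 7 ≤ 9) i ∈ B)
  have hT : ∀ e, e ∈ T.map (Fin.castLEEmb (by decide : 7 ≤ 9)) ↔ e ∈ B := by
    intro e
    simp only [T, mem_map, mem_filter, mem_univ, true_and]
    constructor
    · rintro ⟨a, ha, rfl⟩
      exact ha
    · intro he
      have h1 : e.val ≠ 7 := fun h => h7 (by rwa [show (7 : Fin 9) = e from Fin.ext h.symm])
      have h2 : e.val ≠ 8 := fun h => h8 (by rwa [show (8 : Fin 9) = e from Fin.ext h.symm])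
      have h3 := e.2
      exact ⟨⟨e.val, by omega⟩, he, rfl⟩
  obtain ⟨D, hD, h | h | h⟩ := block T
  · exact (indep_iff _).1 h0 D hD fun e he => (hT e).1 (h he)
  · refine (indep_iff _).1 i7 D hD fun e he => ?_
    have := mem_sdiff.1 (h he)
    exact ⟨(mem_erase.1 this.1).1, fun hb => this.2 ((hT e).2 hb)⟩
  · refine (indep_iff _).1 i8 D hD fun e he => ?_
    have := mem_sdiff.1 (h he)
    exact ⟨(mem_erase.1 this.1).1, fun hb => this.2 ((hT e).2 hb)⟩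

end Pool.Agent.H16.ComBase
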