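import Pool.Agent.H16.GeoConf2

namespace Pool.Agent.H16.GeoConf.C23

def PQ : Fin 23 → ℚ × ℚ := ![(0,0), (0,-1), (0,-3/4), (0,-3/2), (1,-5), (1/4,-5/4), (1/7,-5/7), (-1/2,1), (1/4,-1/2), (-1,0), (-1/3,-1/3), (-1,-1), (-1/8,-1/2), (-1/2,-2), (-1/2,1/4), (1,-1/2), (-3/4,0), (-3/2,0), (-1/2,-1/8), (-2,-1/2), (-5/7,1/7), (-5/4,1/4), (-5,1)]

def LQ : Fin 23 → ℚ × ℚ × ℚ := ![(1,1,-1), (0,1,0), (-1,2,1), (1,4,-1), (-2,-7,3), (4,-1,-3), (0,-2,1), (2,0,-1), (1,0,0), (-2,-1,3), (4,5,-3), (-2,2,3), (1,5,0), (4,8,-3), (-1,-2,3), (5,4,-3), (2,-1,1), (4,1,-1), (1,-4,3), (7,2,-3), (2,-2,3), (5,1,0), (8,4,-3)]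

theorem main : ∃ P L, IsConf 23 4 23 4 P L :=
  of_rat 4 4 PQ LQ (by decide +kernel) (by decide +kernel) (by decide +kernel) (by decide +kernel)
    (by decide +kernel)

end Pool.Agent.H16.GeoConf.C23
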