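import Pool.Agent.H16.GeoConf2

namespace Pool.Agent.H16.GeoConf.C40

def PQ : Fin 40 → ℚ × ℚ := ![(0,-1/5), (0,-1), (0,1/3), (0,-5/7), (0,-5/3), (-1/2,3/2), (1/2,-3/2), (-1,2), (-1/2,1/2), (-1/7,0), (-1/3,0), (1,0), (-1/4,-1/4), (-1/5,-2/5), (-1/8,-3/8), (-1/4,-3/4), (-2/5,3/5), (-2,3), (-2/5,1/5), (-2/7,-1/7), (-2/11,-3/11), (-2/7,-3/7), (-1/3,4/9), (-3,4), (-1/3,2/9), (-3/5,2/5), (-3/10,1/10), (-1/2,1/6), (-1/4,-1/12), (-3/8,-1/8), (-3/13,-2/13), (-1/3,-2/9), (-3/17,-4/17), (-1/3,-4/9), (-4/13,3/13), (-4/5,3/5), (-4/19,-3/19), (-4/11,-3/11), (-5/17,0), (-5/13,0)]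

def LQ : Fin 32 → ℚ × ℚ × ℚ := ![(-3,0,1), (3,2,-1), (-9,-1,3), (9,5,-3), (-2,-1,1), (4,1,-1), (-13,-9,5), (-1,-5,1), (5,-3,-1), (17,1,-5), (-13,-7,5), (17,3,-5), (-7,-3,3), (11,3,-3), (-13,-3,5), (17,7,-5), (-13,-1,5), (-1,3,1), (5,5,-1), (17,9,-5), (1,-5,1), (7,-3,-1), (-11,-7,5), (1,-3,1), (7,-1,-1), (19,3,-5), (-11,-3,5), (1,1,1), (7,3,-1), (19,7,-5), (1,3,1), (7,5,-1)]

theorem main : ∃ P L, IsConf 40 4 32 5 P L :=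
  of_rat 4 5 PQ LQ (by decide +kernel) (by decide +kernel) (by decide +kernel) (by decide +kernel)
    (by decide +kernel)

end Pool.Agent.H16.GeoConf.C40
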