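import Mathlib

open Finset Real

namespace H16.R3

def chp : ℕ → ℚ → ℚ × ℚ
  | 0, c => (1, c)
  | k + 1, c => let p := chp k c; (p.2, 2 * c * p.2 - p.1)

def ch (k : ℕ) (c : ℚ) : ℚ := (chp k c).1

lemma chp_cos (c : ℚ) (x : ℝ) (h : cos x = c) (k : ℕ) :
    ((chp k c).1 : ℝ) = cos (k * x) ∧ ((chp k c).2 : ℝ) = cos ((k + 1) * x) := by
  induction k with
  | zero => simp [chp, h]
  | succ k ih =>
    simp only [chp]
    refine ⟨by rw [ih.2]; push_cast; rfl, ?_⟩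
    push_cast
    rw [ih.1, ih.2, ← h]
    have h1 : ((k : ℝ) + 1 + 1) * x = (k + 1) * x + x := by ring
    have h2 : (k : ℝ) * x = (k + 1) * x - x := by ring
    rw [h1, h2, cos_add, cos_sub]; ring

def lo : ℚ := 9999986534564022 / 10 ^ 16
def hi : ℚ := 9999986534564023 / 10 ^ 16

def Eq' (c : ℚ) : ℚ :=
  (ch 238 c - ch 96 c) * (ch 261 c - ch 241 c) - (ch 238 c - ch 216 c) * (ch 261 c - ch 143 c)

lemma num : Eq' lo < 0 ∧ 0 < Eq' hi ∧ (9876158971 / 10 ^ 10 ≤ ch 96 lo ∧ ch 96 hi ≤ 9876158972 / 10 ^ 10) ∧ (9725906591 / 10 ^ 10 ≤ ch 143 lo ∧ ch 143 hi ≤ 9725906592 / 10 ^ 10) ∧ (9378307153 / 10 ^ 10 ≤ ch 216 lo ∧ ch 216 hi ≤ 9378307154 / 10 ^ 10) ∧ (9246910615 / 10 ^ 10 ≤ ch 238 lo ∧ ch 238 hi ≤ 9246910616 / 10 ^ 10) ∧ (9228055146 / 10 ^ 10 ≤ ch 241 lo ∧ ch 241 hi ≤ 9228055147 / 10 ^ 10) ∧ (9096658705 / 10 ^ 10 ≤ ch 261 lo ∧ ch 261 hi ≤ 9096658707 / 10 ^ 10)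 := by
  decide +kernel

lemma alg {x1 x2 x3 y1 y2 y3 c : ℝ}
    (e96 : 9876158971 / 10 ^ 10 ≤ x2 ∧ x2 ≤ 9876158972 / 10 ^ 10)
    (e143 : 9725906591 / 10 ^ 10 ≤ y2 ∧ y2 ≤ 9725906592 / 10 ^ 10)
    (e216 : 9378307153 / 10 ^ 10 ≤ x3 ∧ x3 ≤ 9378307154 / 10 ^ 10)
    (e238 : 9246910615 / 10 ^ 10 ≤ x1 ∧ x1 ≤ 9246910616 / 10 ^ 10)
    (e241 : 9228055146 / 10 ^ 10 ≤ y3 ∧ y3 ≤ 9228055147 / 10 ^ 10)
    (e261 : 9096658705 / 10 ^ 10 ≤ y1 ∧ y1 ≤ 9096658707 / 10 ^ 10)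
    (e1 : c ≤ 9999986534564023 / 10 ^ 16)
    (hz : (x1 - x2) * (y1 - y3) - (x1 - x3) * (y1 - y2) = 0) :
    ∃ ρ β : ℝ, 1 < ρ ∧ ρ * c < 1 ∧ 0 < β ∧ 1 + 2 * β * x1 = ρ ^ 2 + 2 * ρ * β * y1 ∧
      1 + 2 * β * x2 = ρ ^ 2 + 2 * ρ * β * y2 ∧ 1 + 2 * β * x3 = ρ ^ 2 + 2 * ρ * β * y3 := by
  have d0 : 0 < y2 - y1 := by linarith [e143.1, e261.2]
  obtain ⟨ρ, hρ⟩ : ∃ ρ, ρ = (x2 - x1) / (y2 - y1) := ⟨_, rfl⟩
  have r0 : ρ * (y2 - y1) = x2 - x1 := by rw [hρ]; field_simp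
  have r1 : 1 + 7 / 10 ^ 7 < ρ := by
    rw [hρ, lt_div_iff₀ d0]; linarith [e96.1, e238.2, e143.2, e261.1]
  have r2 : ρ < 1 + 8 / 10 ^ 7 := by
    rw [hρ, div_lt_iff₀ d0]; linarith [e96.2, e238.1, e143.1, e261.2]
  have r3 : ρ * (y3 - y1) = x3 - x1 := by
    have : (ρ * (y3 - y1) - (x3 - x1)) * (y2 - y1) = 0 := by
      linear_combination (y3 - y1) * r0 + hz
    have := (mul_eq_zero.1 this).resolve_right d0.ne'
    linarith
  have f0 : 0 < x1 - ρ * y1 := by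
    have : ρ * y1 ≤ ρ * (9096658707 / 10 ^ 10) := mul_le_mul_of_nonneg_left e261.2 (by linarith)
    linarith [e238.1]
  obtain ⟨β, hβ⟩ : ∃ β, β = (ρ ^ 2 - 1) / (2 * (x1 - ρ * y1)) := ⟨_, rfl⟩
  have b0 : β * (2 * (x1 - ρ * y1)) = ρ ^ 2 - 1 := by rw [hβ]; field_simp
  refine ⟨ρ, β, by linarith, ?_, ?_, ?_, ?_, ?_⟩
  · have : ρ * c ≤ ρ * (9999986534564023 / 10 ^ 16) := mul_le_mul_of_nonneg_left e1 (by linarith)
    linarith
  · rw [hβ]; exact div_pos (by nlinarith) (by linarith)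
  · linear_combination b0
  · linear_combination b0 - 2 * β * r0
  · linear_combination b0 - 2 * β * r3

lemma params : ∃ ω ρ β : ℝ, 0 < ω ∧ 904 * ω ≤ π / 2 ∧ 1 < ρ ∧ ρ * cos ω < 1 ∧ 0 < β ∧
    1 + 2 * β * cos (238 * ω) = ρ ^ 2 + 2 * ρ * β * cos (261 * ω) ∧
    1 + 2 * β * cos (96 * ω) = ρ ^ 2 + 2 * ρ * β * cos (143 * ω) ∧
    1 + 2 * β * cos (216 * ω) = ρ ^ 2 + 2 * ρ * β * cos (241 * ω) := by
  obtain ⟨n1, n2, h96, h143, h216, h238, h241, h261⟩ := num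
  have l1 : (lo : ℝ) = 9999986534564022 / 10 ^ 16 := by rw [lo]; push_cast; rfl
  have l2 : (hi : ℝ) = 9999986534564023 / 10 ^ 16 := by rw [hi]; push_cast; rfl
  set a := arccos (hi : ℝ) with ha
  set b := arccos (lo : ℝ) with hb
  have ca : cos a = hi := cos_arccos (by rw [l2]; norm_num) (by rw [l2]; norm_num)
  have cb : cos b = lo := cos_arccos (by rw [l1]; norm_num) (by rw [l1]; norm_num)
  have a0 : 0 < a := arccos_pos.2 (by rw [l2]; norm_num)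
  have ab : a ≤ b := arccos_le_arccos (by rw [l1, l2]; norm_num)
  have b1 : b ≤ 17 / 10000 := by
    have h := cos_bound (x := 17 / 10000) (by rw [abs_of_pos] <;> norm_num)
    rw [abs_of_pos (by norm_num : (0 : ℝ) < 17 / 10000), abs_le] at h
    have : cos (17 / 10000) ≤ (lo : ℝ) := by rw [l1]; linarith [h.2]
    have h2 := arccos_le_arccos this
    rwa [arccos_cos (by norm_num) (by linarith [pi_gt_three])] at h2
  have p3 := pi_gt_d2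
  let G : ℝ → ℝ := fun x => (cos (238 * x) - cos (96 * x)) * (cos (261 * x) - cos (241 * x))
    - (cos (238 * x) - cos (216 * x)) * (cos (261 * x) - cos (143 * x))
  have hG : ∀ (c : ℚ) (x : ℝ), cos x = c → G x = (Eq' c : ℝ) := by
    intro c x h
    have := fun k => (chp_cos c x h k).1
    simp only [Eq', ch, G]; push_cast
    simp only [this]; push_cast; rfl
  obtain ⟨ω, hω, hz⟩ : (0 : ℝ) ∈ G '' Set.Icc a b := by
    refine intermediate_value_Icc' ab (by fun_prop) ⟨?_, ?_⟩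
    · rw [hG lo b cb]; exact Rat.cast_nonpos.2 n1.le
    · rw [hG hi a ca]; exact Rat.cast_nonneg.2 n2.le
  have enc : ∀ k : ℕ, k ≤ 904 → ∀ x y : ℚ, (x ≤ ch k lo ∧ ch k hi ≤ y) →
      (x : ℝ) ≤ cos (k * ω) ∧ cos (k * ω) ≤ y := by
    intro k hk x y h
    have k1 : (k : ℝ) ≤ 904 := by exact_mod_cast hk
    have k0 : (0 : ℝ) ≤ k := by positivity
    have h1 : (x : ℝ) ≤ ch k lo := Rat.cast_le.2 h.1
    have h2 : (ch k hi : ℝ) ≤ y := Rat.cast_le.2 h.2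
    rw [ch, (chp_cos _ _ cb k).1] at h1
    rw [ch, (chp_cos _ _ ca k).1] at h2
    have w0 : 0 ≤ ω := a0.le.trans hω.1
    have w1 : k * ω ≤ k * b := mul_le_mul_of_nonneg_left hω.2 k0
    have w2 : k * b ≤ π := by nlinarith
    exact ⟨h1.trans (cos_le_cos_of_nonneg_of_le_pi (by positivity) w2 w1),
      (cos_le_cos_of_nonneg_of_le_pi (by positivity) (w1.trans w2)
        (mul_le_mul_of_nonneg_left hω.1 k0)).trans h2⟩
  have e96 := enc 96 (by norm_num) _ _ h96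
  have e143 := enc 143 (by norm_num) _ _ h143
  have e216 := enc 216 (by norm_num) _ _ h216
  have e238 := enc 238 (by norm_num) _ _ h238
  have e241 := enc 241 (by norm_num) _ _ h241
  have e261 := enc 261 (by norm_num) _ _ h261
  have e1 : cos ω ≤ hi := by
    rw [← ca]; exact cos_le_cos_of_nonneg_of_le_pi a0.le (by linarith [hω.2]) hω.1
  rw [l2] at e1
  push_cast at e96 e143 e216 e238 e241 e261
  simp only [G] at hz
  obtain ⟨ρ, β, h⟩ := alg e96 e143 e216 e238 e241 e261 e1 hz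
  exact ⟨ω, ρ, β, a0.trans_le hω.1, by linarith [hω.2], h⟩

end H16.R3
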