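import Pool.Agent.H16.Conv3a

open Finset Real

namespace H16.R3

abbrev E2 := EuclideanSpace ℝ (Fin 2)

noncomputable def P (r φ : ℝ) : E2 := !₂[r * cos φ, r * sin φ]

lemma inner_P (r φ s ψ : ℝ) : inner ℝ (P r φ) (P s ψ) = r * s * cos (ψ - φ) := by
  simp [P, PiLp.inner_apply, Fin.sum_univ_two, cos_sub]; ring

lemma dist_P (r φ s ψ : ℝ) :
    dist (P r φ) (P s ψ) = √(r ^ 2 + s ^ 2 - 2 * r * s * cos (φ - ψ)) := by
  rw [EuclideanSpace.dist_eq]; congr 1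
  simp only [P, Fin.sum_univ_two, Real.dist_eq, sq_abs, cos_sub]
  simp
  linear_combination r ^ 2 * cos_sq_add_sin_sq φ + s ^ 2 * cos_sq_add_sin_sq ψ

def rad (ρ β : ℝ) (i : Bool × ℕ) : ℝ := if i.1 then (if i.2 % 2 = 0 then 1 else ρ) else -β
def an (i : Bool × ℕ) : ℕ := if i.1 then i.2 else 2 * i.2
noncomputable def pt (ω ρ β : ℝ) (i : Bool × ℕ) : E2 := P (rad ρ β i) (an i * ω)
def F : Finset (Bool × ℕ) := ({true} ×ˢ Icc 96 904) ∪ ({false} ×ˢ Icc 0 500)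

lemma memF (i : Bool × ℕ) :
    i ∈ F ↔ (i.1 = true ∧ 96 ≤ i.2 ∧ i.2 ≤ 904) ∨ (i.1 = false ∧ i.2 ≤ 500) := by
  obtain ⟨b, k⟩ := i
  cases b <;> simp [F]

lemma cardF : F.card = 1310 := by
  rw [F, card_union_of_disjoint]
  · simp
  · rw [disjoint_left]; rintro x h1 h2
    have a := mem_singleton.1 (mem_product.1 h1).1
    have b := mem_singleton.1 (mem_product.1 h2).1
    rw [a] at b; cases b

section
variable {ω ρ β : ℝ} (w0 : 0 < ω) (w1 : 904 * ω ≤ π / 2) (r1 : 1 < ρ) (r2 : ρ * cos ω < 1)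
  (b0 : 0 < β)
include w0 w1

lemma cs0 (a b : ℕ) (h1 : a ≤ b + 904) (h2 : b ≤ a + 904) : 0 ≤ cos (a * ω - b * ω) := by
  have h1' : (a : ℝ) ≤ b + 904 := by exact_mod_cast h1
  have h2' : (b : ℝ) ≤ a + 904 := by exact_mod_cast h2
  exact cos_nonneg_of_mem_Icc ⟨by nlinarith, by nlinarith⟩

lemma cs1 (a b : ℕ) (h1 : a ≤ b + 1808) (h2 : b ≤ a + 1808) (h : a ≠ b) :
    cos (a * ω - b * ω) ≤ cos ω := by
  have h1' : (a : ℝ) ≤ b + 1808 := by exact_mod_cast h1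
  have h2' : (b : ℝ) ≤ a + 1808 := by exact_mod_cast h2
  rcases lt_or_gt_of_ne h with h | h
  · have : (a : ℝ) + 1 ≤ b := by exact_mod_cast h
    rw [← cos_neg (a * ω - b * ω)]
    exact cos_le_cos_of_nonneg_of_le_pi w0.le (by nlinarith) (by nlinarith)
  · have : (b : ℝ) + 1 ≤ a := by exact_mod_cast h
    exact cos_le_cos_of_nonneg_of_le_pi w0.le (by nlinarith) (by nlinarith)

include r1 r2 b0

lemma sep (i : Bool × ℕ) (hi : i ∈ F) (j : Bool × ℕ) (hj : j ∈ F) (h : j ≠ i) :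
    inner ℝ (pt ω ρ β i) (pt ω ρ β j) < inner ℝ (pt ω ρ β i) (pt ω ρ β i) := by
  simp only [pt, inner_P, sub_self, cos_zero, mul_one]
  have c0 : 0 ≤ cos ω := by simpa using cs0 w0 w1 1 0 (by omega) (by omega)
  have c1 : cos ω < 1 := by nlinarith
  obtain ⟨a, k⟩ := i
  obtain ⟨b, l⟩ := j
  rw [memF] at hi hj
  cases a <;> cases b <;> simp at hi hj h <;> simp only [rad, an, if_true, Bool.false_eq_true, if_false]
  · have := cs1 w0 w1 (2 * l) (2 * k) (by omega) (by omega) (by omega)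
    nlinarith [mul_pos b0 b0]
  · have := cs0 w0 w1 l (2 * k) (by omega) (by omega)
    split_ifs
    · nlinarith [mul_pos b0 b0, mul_nonneg b0.le this]
    · nlinarith [mul_pos b0 b0, mul_nonneg (mul_nonneg b0.le this) (by linarith : 0 ≤ ρ)]
  · have := cs0 w0 w1 (2 * l) k (by omega) (by omega)
    split_ifs
    · nlinarith [mul_nonneg b0.le this]
    · nlinarith [mul_nonneg (mul_nonneg b0.le this) (by linarith : 0 ≤ ρ)]
  · have := cs1 w0 w1 l k (by omega) (by omega) h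
    have h3 := mul_le_mul_of_nonneg_left this (by linarith : 0 ≤ ρ)
    split_ifs
    · linarith
    · linarith
    · nlinarith
    · nlinarith

lemma inj : Set.InjOn (pt ω ρ β) F := fun i hi j hj h => by
  by_contra hne
  have := sep w0 w1 r1 r2 b0 i hi j hj (Ne.symm hne)
  rw [← h] at this; exact lt_irrefl _ this

lemma conv (p : E2) (hp : p ∈ F.image (pt ω ρ β)) :
    p ∉ convexHull ℝ (((F.image (pt ω ρ β) : Finset E2) : Set E2) \ {p}) := by
  obtain ⟨i, hi, rfl⟩ := mem_image.1 hp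
  intro h
  have hc : Convex ℝ {x : E2 | inner ℝ (pt ω ρ β i) x < inner ℝ (pt ω ρ β i) (pt ω ρ β i)} :=
    convex_halfSpace_lt (innerₛₗ ℝ (pt ω ρ β i)).isLinear _
  have := convexHull_min (fun x hx => ?_) hc h
  · exact lt_irrefl _ (Set.mem_ofPred.1 this)
  · obtain ⟨j, hj, rfl⟩ := mem_image.1 (mem_coe.1 hx.1)
    exact sep w0 w1 r1 r2 b0 i hi j hj fun e => hx.2 (by rw [e]; rfl)

end

def kk (T V : ℕ) (x : ℕ × ℕ) : ℕ :=
  if x.2 = 0 then 2 * x.1 + T else if x.2 = 1 then 2 * x.1 + V else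
    if x.2 = 2 then 2 * x.1 - T else 2 * x.1 - V

def Y (T V : ℕ) : Finset (ℕ × ℕ) :=
  (range 501 ×ˢ range 4).filter (fun x => 96 ≤ kk T V x ∧ kk T V x ≤ 904)

set_option linter.constructorNameAsVariable false in
lemma memY (T V : ℕ) :
    ∀ x ∈ Y T V, x.1 ≤ 500 ∧ x.2 < 4 ∧ 96 ≤ kk T V x ∧ kk T V x ≤ 904 := by
  intro x hx
  simp only [Y, mem_filter, mem_product, mem_range] at hx
  omega

lemma cnt {ω ρ β : ℝ} (hi : Set.InjOn (pt ω ρ β) F) (T V : ℕ) (hT : T % 2 = 0) (hV : V % 2 = 1)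
    (T0 : 0 < T) (Z : Finset (ℕ × ℕ))
    (hZ : ∀ x ∈ Z, x.1 ≤ 500 ∧ x.2 < 4 ∧ 96 ≤ kk T V x ∧ kk T V x ≤ 904) (hY : 1310 < Z.card)
    (he : 1 + 2 * β * cos (T * ω) = ρ ^ 2 + 2 * ρ * β * cos (V * ω))
    [DecidablePred fun pq : E2 × E2 => dist pq.1 pq.2 = √(1 + β ^ 2 + 2 * β * cos (T * ω))] :
    2 * 1310 < ((F.image (pt ω ρ β)).offDiag.filter
      (fun pq => dist pq.1 pq.2 = √(1 + β ^ 2 + 2 * β * cos (T * ω)))).card := by
  have hm : ∀ x ∈ Z, (true, kk T V x) ∈ F ∧ (false, x.1) ∈ F ∧ x.2 < 4 ∧ 96 ≤ kk T V x := by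
    intro x hx
    obtain ⟨h1, h2, h3⟩ := hZ x hx
    exact ⟨(memF _).2 (Or.inl ⟨rfl, h3⟩), (memF _).2 (Or.inr ⟨rfl, h1⟩), h2, h3.1⟩
  have hd : ∀ x ∈ Z, dist (pt ω ρ β (true, kk T V x)) (pt ω ρ β (false, x.1))
      = √(1 + β ^ 2 + 2 * β * cos (T * ω)) := by
    intro x hx
    obtain ⟨-, -, h3, h4⟩ := hm x hx
    simp only [pt, dist_P, rad, an, if_true, Bool.false_eq_true, if_false]
    congr 1
    have key : (kk T V x % 2 = 0 ∧ (kk T V x = 2 * x.1 + T ∨ kk T V x + T = 2 * x.1)) ∨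
        (kk T V x % 2 ≠ 0 ∧ (kk T V x = 2 * x.1 + V ∨ kk T V x + V = 2 * x.1)) := by
      unfold kk at h4 ⊢; split_ifs at h4 ⊢ <;> omega
    have cc : ∀ U : ℕ, (kk T V x = 2 * x.1 + U ∨ kk T V x + U = 2 * x.1) →
        cos (kk T V x * ω - (2 * x.1 : ℕ) * ω) = cos (U * ω) := by
      rintro U (h | h)
      · rw [h]; push_cast; congr 1; ring
      · rw [← h, ← cos_neg]; push_cast; congr 1; ring
    rcases key with ⟨h1, h2⟩ | ⟨h1, h2⟩
    · rw [if_pos h1, cc T h2]; ring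
    · rw [if_neg h1, cc V h2]; linear_combination -he
  have hne : ∀ x ∈ Z, ∀ y ∈ Z, pt ω ρ β (true, kk T V x) ≠ pt ω ρ β (false, y.1) :=
    fun x hx y hy h => by simpa using hi (hm x hx).1 (hm y hy).2.1 h
  have hin : ∀ x ∈ Z, ∀ y ∈ Z, pt ω ρ β (true, kk T V x) = pt ω ρ β (true, kk T V y) →
      pt ω ρ β (false, x.1) = pt ω ρ β (false, y.1) → x = y := by
    intro x hx y hy h1 h2
    have e1 : kk T V x = kk T V y := by simpa using hi (hm x hx).1 (hm y hy).1 h1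
    have e2 : x.1 = y.1 := by simpa using hi (hm x hx).2.1 (hm y hy).2.1 h2
    have a := (hm x hx).2.2
    have b := (hm y hy).2.2
    refine Prod.ext e2 ?_
    unfold kk at e1 a b; split_ifs at e1 a b <;> omega
  let g : (ℕ × ℕ) × Bool → E2 × E2 := fun z =>
    if z.2 then (pt ω ρ β (true, kk T V z.1), pt ω ρ β (false, z.1.1))
    else (pt ω ρ β (false, z.1.1), pt ω ρ β (true, kk T V z.1))
  have := card_le_card_of_injOn (s := Z ×ˢ (univ : Finset Bool))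
    (t := (F.image (pt ω ρ β)).offDiag.filter
      (fun pq => dist pq.1 pq.2 = √(1 + β ^ 2 + 2 * β * cos (T * ω)))) g ?_ ?_
  · rw [card_product, card_univ, Fintype.card_bool] at this; omega
  · rintro ⟨x, b⟩ hz
    have hx : x ∈ Z := (mem_product.1 hz).1
    have m1 := mem_image_of_mem (pt ω ρ β) (hm x hx).1
    have m2 := mem_image_of_mem (pt ω ρ β) (hm x hx).2.1
    cases b
    · exact mem_filter.2 ⟨mem_offDiag.2 ⟨m2, m1, (hne x hx x hx).symm⟩,
        (dist_comm _ _).trans (hd x hx)⟩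
    · exact mem_filter.2 ⟨mem_offDiag.2 ⟨m1, m2, hne x hx x hx⟩, hd x hx⟩
  · rintro ⟨x, b⟩ hz ⟨y, c⟩ hw h
    have hx : x ∈ Z := (mem_product.1 hz).1
    have hy : y ∈ Z := (mem_product.1 hw).1
    cases b <;> cases c <;> simp only [g, if_true, Bool.false_eq_true, if_false, Prod.mk.injEq] at h
    · rw [hin x hx y hy h.2 h.1]
    · exact absurd h.2 (hne x hx y hy)
    · exact absurd h.1 (hne x hx y hy)
    · rw [hin x hx y hy h.1 h.2]

lemma cY : 1310 < (Y 238 261).card ∧ 1310 < (Y 96 143).card ∧ 1310 < (Y 216 241).card := by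
  decide +kernel

open Classical in
theorem main : ∃ n : ℕ, ∃ S : Finset E2, S.card = n ∧
      (∀ p ∈ S, p ∉ convexHull ℝ ((S : Set E2) \ {p})) ∧
      ∃ d₁ d₂ d₃ : ℝ, d₁ ≠ d₂ ∧ d₁ ≠ d₃ ∧ d₂ ≠ d₃ ∧
        2 * n < (S.offDiag.filter (fun pq => dist pq.1 pq.2 = d₁)).card ∧
        2 * n < (S.offDiag.filter (fun pq => dist pq.1 pq.2 = d₂)).card ∧
        2 * n < (S.offDiag.filter (fun pq => dist pq.1 pq.2 = d₃)).card := by
  obtain ⟨ω, ρ, β, w0, w1, r1, r2, b0, e1, e2, e3⟩ := params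
  have hi := inj w0 w1 r1 r2 b0
  have ne : ∀ a b : ℕ, a < b → b ≤ 904 →
      √(1 + β ^ 2 + 2 * β * cos (b * ω)) < √(1 + β ^ 2 + 2 * β * cos (a * ω)) := by
    intro a b hab hb
    have h1 : (a : ℝ) < b := by exact_mod_cast hab
    have h2 : (b : ℝ) ≤ 904 := by exact_mod_cast hb
    have h3 := cos_lt_cos_of_nonneg_of_le_pi (x := a * ω) (y := b * ω) (by positivity)
      (by nlinarith [pi_pos]) (by nlinarith)
    have h4 : 0 ≤ cos (b * ω) := by simpa using cs0 w0 w1 b 0 (by omega) (by omega)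
    exact Real.sqrt_lt_sqrt (by positivity) (by nlinarith)
  refine ⟨1310, F.image (pt ω ρ β), ?_, ?_, _, _, _, (ne 96 238 (by omega) (by omega)).ne,
    (ne 216 238 (by omega) (by omega)).ne, (ne 96 216 (by omega) (by omega)).ne', ?_, ?_, ?_⟩
  · rw [card_image_of_injOn hi, cardF]
  · intro p hp
    convert conv w0 w1 r1 r2 b0 p (by convert hp)
  · convert cnt hi 238 261 rfl rfl (by omega) _ (memY _ _) cY.1 (by exact_mod_cast e1)
  · convert cnt hi 96 143 rfl rfl (by omega) _ (memY _ _) cY.2.1 (by exact_mod_cast e2)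
  · convert cnt hi 216 241 rfl rfl (by omega) _ (memY _ _) cY.2.2 (by exact_mod_cast e3)

end H16.R3
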