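import Mathlib

namespace Pool.Agent.H16.Count

open Finset

variable {α : Type*} [DecidableEq α]

/-- number of `m`-subsets of `X ∪ Y` meeting `X` in exactly `s` points -/
theorem card_level (X Y : Finset α) (h : Disjoint X Y) (m s : ℕ) (hs : s ≤ m) :
    ((powersetCard m (X ∪ Y)).filter (fun T => (T ∩ X).card = s)).card =
      X.card.choose s * Y.card.choose (m - s) := by
  rw [← card_powersetCard, ← card_powersetCard, ← card_product]
  symm
  apply card_bij (fun p _ => p.1 ∪ p.2)
  · rintro ⟨S, T⟩ hp
    simp only [mem_product, mem_powersetCard] at hp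
    simp only [mem_filter, mem_powersetCard]
    have hd : Disjoint S T := Disjoint.mono hp.1.1 hp.2.1 h
    refine ⟨⟨union_subset_union hp.1.1 hp.2.1, ?_⟩, ?_⟩
    · rw [card_union_of_disjoint hd]; omega
    · have : (S ∪ T) ∩ X = S := by
        rw [union_inter_distrib_right, inter_eq_left.2 hp.1.1,
          disjoint_iff_inter_eq_empty.1 (Disjoint.mono_left hp.2.1 h.symm), union_empty]
      rw [this]; exact hp.1.2
  · rintro ⟨S, T⟩ hp ⟨S', T'⟩ hq e
    simp only [mem_product, mem_powersetCard] at hp hq
    have k1 : ∀ A B : Finset α, A ⊆ X → B ⊆ Y → (A ∪ B) ∩ X = A := by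
      intro A B hA hB
      rw [union_inter_distrib_right, inter_eq_left.2 hA,
        disjoint_iff_inter_eq_empty.1 (Disjoint.mono_left hB h.symm), union_empty]
    have k2 : ∀ A B : Finset α, A ⊆ X → B ⊆ Y → (A ∪ B) ∩ Y = B := by
      intro A B hA hB
      rw [union_inter_distrib_right, inter_eq_left.2 hB,
        disjoint_iff_inter_eq_empty.1 (Disjoint.mono_left hA h), empty_union]
    simp only at e
    have e1 : S = S' := by rw [← k1 S T hp.1.1 hp.2.1, e, k1 S' T' hq.1.1 hq.2.1]
    have e2 : T = T' := by rw [← k2 S T hp.1.1 hp.2.1, e, k2 S' T' hq.1.1 hq.2.1]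
    rw [e1, e2]
  · intro T hT
    simp only [mem_filter, mem_powersetCard] at hT
    refine ⟨(T ∩ X, T \ X), ?_, ?_⟩
    · simp only [mem_product, mem_powersetCard]
      refine ⟨⟨inter_subset_right, hT.2⟩, ?_, ?_⟩
      · intro x hx
        rw [mem_sdiff] at hx
        exact (mem_union.1 (hT.1.1 hx.1)).resolve_left hx.2
      · have := card_sdiff_add_card_inter T X
        omega
    · simp only
      rw [union_comm, sdiff_union_inter]

/-- number of `m`-subsets of `X ∪ Y` whose intersection size with `X` lies in `L` -/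
theorem card_levels (X Y : Finset α) (h : Disjoint X Y) (m : ℕ) (L : Finset ℕ)
    (hL : ∀ s ∈ L, s ≤ m) :
    ((powersetCard m (X ∪ Y)).filter (fun T => (T ∩ X).card ∈ L)).card =
      ∑ s ∈ L, X.card.choose s * Y.card.choose (m - s) := by
  rw [card_eq_sum_card_fiberwise (s := (powersetCard m (X ∪ Y)).filter (fun T => (T ∩ X).card ∈ L))
    (f := fun T : Finset α => (T ∩ X).card) (t := L)
    (fun T hT => (mem_filter.1 (mem_coe.1 hT)).2)]
  apply sum_congr rfl
  intro s hs
  rw [← card_level X Y h m s (hL s hs), filter_filter]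
  congr 1
  apply filter_congr
  intro T _
  constructor
  · exact fun h => h.2
  · exact fun h => ⟨h ▸ hs, h⟩

/-- lower bound for the degree of `z` in a family containing `insert z T` for all `T` in a
union of levels -/
theorem deg_ge (X Y : Finset α) (h : Disjoint X Y) (m : ℕ) (L : Finset ℕ)
    (hL : ∀ s ∈ L, s ≤ m) (z : α) (hz : z ∉ X ∪ Y) (E : Finset (Finset α))
    (hE : ∀ T, T ⊆ X ∪ Y → T.card = m → (T ∩ X).card ∈ L → insert z T ∈ E) :
    ∑ s ∈ L, X.card.choose s * Y.card.choose (m - s) ≤ (E.filter (fun e => z ∈ e)).card := by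
  rw [← card_levels X Y h m L hL]
  apply card_le_card_of_injOn (fun T => insert z T)
  · intro T hT
    simp only [coe_filter, mem_powersetCard, Set.mem_setOf_eq] at hT ⊢
    exact ⟨hE T hT.1.1 hT.1.2 hT.2, mem_insert_self _ _⟩
  · intro T hT T' hT' e
    simp only [coe_filter, mem_powersetCard, Set.mem_setOf_eq] at hT hT'
    have h1 : z ∉ T := fun h => hz (hT.1.1 h)
    have h2 : z ∉ T' := fun h => hz (hT'.1.1 h)
    simp only at e
    rw [← erase_insert h1, e, erase_insert h2]

end Pool.Agent.H16.Count
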