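import Mathlib

namespace Pool.Agent.H16.DRC

open Finset

theorem card_pi {n t : ℕ} (S : Finset (Fin n)) :
    (univ.filter (fun x : Fin t → Fin n => ∀ s, x s ∈ S)).card = S.card ^ t := by
  have : univ.filter (fun x : Fin t → Fin n => ∀ s, x s ∈ S) = Fintype.piFinset (fun _ => S) := by
    ext x; simp
  rw [this, Fintype.card_piFinset]; simp

theorem drc {n m : ℕ} (hn : 0 < n) (A : Fin m → Finset (Fin n)) (c ε : ℝ) (hc : 0 ≤ c)
    (hA : ∀ k, c * n < (A k).card) (J : Finset (Fin m)) (t : ℕ) :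
    ∃ I ⊆ J, (∀ i ∈ I, ∀ j ∈ I, i ≠ j → ε * n < (A i ∩ A j).card) ∧
      J.card * c ^ t - (J.card : ℝ) ^ 2 * ε ^ t ≤ I.card ∨ ε < 0 := by
  classical
  by_cases hε : ε < 0
  · exact ⟨∅, empty_subset _, Or.inr hε⟩
  push Not at hε
  let I : (Fin t → Fin n) → Finset (Fin m) := fun x => J.filter (fun k => ∀ s, x s ∈ A k)
  let P : Finset (Fin m × Fin m) :=
    (J ×ˢ J).filter (fun p => ((A p.1 ∩ A p.2).card : ℝ) ≤ ε * n)
  let B : (Fin t → Fin n) → Finset (Fin m × Fin m) :=
    fun x => P.filter (fun p => ∀ s, x s ∈ A p.1 ∩ A p.2)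
  have h1 : J.card * (c * n) ^ t ≤ ∑ x, ((I x).card : ℝ) := by
    have e : ∑ x, (I x).card = ∑ k ∈ J, (A k).card ^ t := by
      simp only [I, card_filter]
      rw [sum_comm]
      apply sum_congr rfl
      intro k _
      rw [← card_pi, card_filter]
    have e2 : ∑ x, ((I x).card : ℝ) = ∑ k ∈ J, ((A k).card : ℝ) ^ t := by exact_mod_cast e
    rw [e2, ← nsmul_eq_mul]
    exact card_nsmul_le_sum _ _ _ fun k _ => pow_le_pow_left₀ (by positivity) (hA k).le t
  have h2 : ∑ x, ((B x).card : ℝ) ≤ (J.card : ℝ) ^ 2 * (ε * n) ^ t := by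
    have e : ∑ x, (B x).card = ∑ p ∈ P, (A p.1 ∩ A p.2).card ^ t := by
      simp only [B, card_filter]
      rw [sum_comm]
      apply sum_congr rfl
      intro k _
      rw [← card_pi, card_filter]
    have e2 : ∑ x, ((B x).card : ℝ) = ∑ p ∈ P, ((A p.1 ∩ A p.2).card : ℝ) ^ t := by
      exact_mod_cast e
    have h3 : (P.card : ℝ) ≤ (J.card : ℝ) ^ 2 := by
      have := card_filter_le (J ×ˢ J) (fun p => ((A p.1 ∩ A p.2).card : ℝ) ≤ ε * n)
      rw [card_product, ← sq] at this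
      exact_mod_cast this
    rw [e2]
    refine (sum_le_card_nsmul _ _ ((ε * n) ^ t) fun p hp =>
      pow_le_pow_left₀ (by positivity) (mem_filter.1 hp).2 t).trans ?_
    rw [nsmul_eq_mul]; gcongr
  have : Nonempty (Fin n) := ⟨⟨0, hn⟩⟩
  obtain ⟨x, -, hx⟩ := exists_le_of_sum_le (s := (univ : Finset (Fin t → Fin n))) univ_nonempty
    (f := fun _ => J.card * c ^ t - (J.card : ℝ) ^ 2 * ε ^ t)
    (g := fun x => ((I x).card : ℝ) - (B x).card) (by
      rw [sum_sub_distrib (f := fun x => ((I x).card : ℝ)), sum_const, card_univ, nsmul_eq_mul]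
      simp only [Fintype.card_pi, Fintype.card_fin, prod_const, card_univ]
      push_cast
      rw [mul_pow] at h1 h2
      nlinarith)
  refine ⟨I x \ (B x).image Prod.fst, sdiff_subset.trans (filter_subset _ _), Or.inl ⟨?_, ?_⟩⟩
  · intro i hi j hj _
    by_contra h
    obtain ⟨h3, h4⟩ := mem_sdiff.1 hi
    obtain ⟨h5, h6⟩ := mem_filter.1 h3
    obtain ⟨h7, h8⟩ := mem_filter.1 (mem_sdiff.1 hj).1
    exact h4 (mem_image.2 ⟨(i, j), mem_filter.2 ⟨mem_filter.2 ⟨mem_product.2 ⟨h5, h7⟩,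
      not_lt.1 h⟩, fun s => mem_inter.2 ⟨h6 s, h8 s⟩⟩, rfl⟩)
  · have h3 := le_card_sdiff ((B x).image Prod.fst) (I x)
    have h4 := card_image_le (s := B x) (f := Prod.fst)
    have h5 : (I x).card ≤ (I x \ (B x).image Prod.fst).card + (B x).card := by omega
    have h6 : ((I x).card : ℝ) ≤ (I x \ (B x).image Prod.fst).card + (B x).card := by
      exact_mod_cast h5
    linarith

theorem big {n m : ℕ} (A : Fin m → Finset (Fin n)) (c ε δ : ℝ) (hc : 0 < c) (hc1 : c < 1)
    (hδ : 0 < δ) (hε : 0 < ε) (hε2 : ε ≤ c ^ (1 + 1 / δ))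
    (hA : ∀ k, c * n < (A k).card) (J : Finset (Fin m)) :
    ∃ I ⊆ J, (∀ i ∈ I, ∀ j ∈ I, i ≠ j → ε * n < (A i ∩ A j).card) ∧
      c / 2 ^ (1 + δ) * (J.card : ℝ) ^ (1 - δ) ≤ I.card ∨ J = ∅ := by
  rcases J.eq_empty_or_nonempty with rfl | ⟨k, hk⟩
  · exact ⟨∅, Subset.rfl, Or.inr rfl⟩
  have hn : 0 < n := by
    by_contra h
    obtain rfl : n = 0 := by omega
    have := hA k
    simp [eq_empty_of_isEmpty (A k)] at this
  have hJ : (1 : ℝ) ≤ J.card := by exact_mod_cast card_pos.2 ⟨k, hk⟩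
  have h1 : c⁻¹ ≤ (c / ε) ^ δ := by
    have e : c⁻¹ = (c / c ^ (1 + 1 / δ)) ^ δ := by
      rw [Real.rpow_add hc, Real.rpow_one, div_mul_cancel_left₀ hc.ne', Real.inv_rpow (by positivity),
        ← Real.rpow_mul hc.le, one_div, inv_mul_cancel₀ hδ.ne', Real.rpow_one]
    rw [e]; gcongr
  have h2 : 1 < c / ε := by
    by_contra h
    have := Real.rpow_le_one (by positivity) (not_lt.1 h) hδ.le
    have := (one_lt_inv₀ hc).2 hc1
    linarith
  obtain ⟨t, h3, h4⟩ := exists_nat_pow_near (x := 2 * (J.card : ℝ)) (by linarith) h2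
  obtain ⟨I, h5, h6 | h6⟩ := drc hn A c ε hc.le hA J (t + 1)
  · refine ⟨I, h5, Or.inl ⟨h6.1, le_trans ?_ h6.2⟩⟩
    rw [div_pow, lt_div_iff₀ (by positivity)] at h4
    have h7 : (c ^ t)⁻¹ ≤ (2 * (J.card : ℝ)) ^ δ := by
      rw [← inv_pow]
      calc _ ≤ ((c / ε) ^ δ) ^ t := by gcongr
        _ = ((c / ε) ^ t) ^ δ := by rw [Real.rpow_pow_comm (by positivity)]
        _ ≤ _ := by gcongr
    have h8 : c / 2 ^ (1 + δ) * (J.card : ℝ) ^ (1 - δ) =
        J.card * c / 2 * ((2 * (J.card : ℝ)) ^ δ)⁻¹ := by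
      rw [Real.rpow_add (by norm_num), Real.rpow_sub (by linarith), Real.mul_rpow (by norm_num)
        (by linarith), Real.rpow_one, Real.rpow_one]
      field_simp
    have h9 : ((2 * (J.card : ℝ)) ^ δ)⁻¹ ≤ c ^ t := inv_le_of_inv_le₀ (by positivity) h7
    rw [h8]
    calc _ ≤ J.card * c / 2 * c ^ t := by gcongr
      _ = J.card * c ^ (t + 1) - J.card * (c ^ (t + 1) / 2) := by ring
      _ ≤ J.card * c ^ (t + 1) - J.card * (J.card * ε ^ (t + 1)) := by gcongr; linarith
      _ = _ := by ring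
  · linarith

theorem colour {n m : ℕ} (A : Fin m → Finset (Fin n)) (c ε δ : ℝ) (hc : 0 < c) (hc1 : c < 1)
    (hδ : 0 < δ) (hδ1 : δ ≤ 1) (hε : 0 < ε) (hε2 : ε ≤ c ^ (1 + 1 / δ))
    (hA : ∀ k, c * n < (A k).card) (N : ℕ) : ∀ J : Finset (Fin m), J.card = N →
    ∃ (k : ℕ) (col : Fin m → ℕ), (k : ℝ) ≤ 2 ^ (1 + δ) / (c * δ) * (N : ℝ) ^ δ ∧
      (∀ i ∈ J, col i < k) ∧
      ∀ i ∈ J, ∀ j ∈ J, i ≠ j → col i = col j → ε * n < (A i ∩ A j).card := by
  classical
  induction N using Nat.strong_induction_on with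
  | _ N ih =>
    intro J hJ
    obtain ⟨I, h1, ⟨h2, h3⟩ | h2⟩ := big A c ε δ hc hc1 hδ hε hε2 hA J
    swap
    · exact ⟨0, fun _ => 0, by rw [Nat.cast_zero]; positivity, by simp [h2], by simp [h2]⟩
    rcases Nat.eq_zero_or_pos N with rfl | hN
    · rw [card_eq_zero] at hJ
      exact ⟨0, fun _ => 0, by rw [Nat.cast_zero]; positivity, by simp [hJ], by simp [hJ]⟩
    rw [hJ] at h3
    have hN' : (0 : ℝ) < N := by exact_mod_cast hN
    have h4 : 0 < I.card := by
      have : (0 : ℝ) < I.card := lt_of_lt_of_le (by positivity) h3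
      exact_mod_cast this
    have h5 := card_le_card h1
    obtain ⟨k, col, k1, k2, k3⟩ := ih (J \ I).card (by rw [card_sdiff_of_subset h1]; omega) _ rfl
    refine ⟨k + 1, fun i => if i ∈ I then k else col i, ?_, ?_, ?_⟩
    · rw [card_sdiff_of_subset h1, Nat.cast_sub h5, hJ] at k1
      have h6 : (I.card : ℝ) ≤ N := by exact_mod_cast hJ ▸ h5
      have h7 := rpow_one_add_le_one_add_mul_self (s := -(I.card / (N : ℝ)))
        (by rw [neg_le_neg_iff, div_le_one hN']; exact h6) hδ.le hδ1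
      have h8 : ((N : ℝ) - I.card) ^ δ = (N : ℝ) ^ δ * (1 + -(I.card / (N : ℝ))) ^ δ := by
        rw [← Real.mul_rpow hN'.le (by rw [← sub_eq_add_neg, sub_nonneg, div_le_one hN']; exact h6)]
        congr 1; field_simp; ring
      have h9 : (N : ℝ) ^ (1 - δ) * (N : ℝ) ^ δ = N := by
        rw [← Real.rpow_add hN']; simp
      have p1 : (0 : ℝ) < (N : ℝ) ^ δ := by positivity
      have p2 : (0 : ℝ) < 2 ^ (1 + δ) := by positivity
      have h10 : c / 2 ^ (1 + δ) ≤ (N : ℝ) ^ δ * (I.card / N) := by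
        rw [← mul_div_assoc, le_div_iff₀ hN']
        calc c / 2 ^ (1 + δ) * N = c / 2 ^ (1 + δ) * (N : ℝ) ^ (1 - δ) * (N : ℝ) ^ δ := by
              rw [mul_assoc, h9]
          _ ≤ I.card * (N : ℝ) ^ δ := by gcongr
          _ = _ := by ring
      have h11 : ((N : ℝ) - I.card) ^ δ ≤ (N : ℝ) ^ δ - δ * (c / 2 ^ (1 + δ)) := by
        rw [h8]
        nlinarith [mul_le_mul_of_nonneg_left h7 p1.le, mul_le_mul_of_nonneg_left h10 hδ.le]
      have h12 : 2 ^ (1 + δ) / (c * δ) * (δ * (c / 2 ^ (1 + δ))) = 1 := by field_simp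
      have h13 := mul_le_mul_of_nonneg_left h11 (show 0 ≤ 2 ^ (1 + δ) / (c * δ) by positivity)
      push_cast
      linarith
    · intro i hi
      dsimp only
      split_ifs with h
      · omega
      · have := k2 i (mem_sdiff.2 ⟨hi, h⟩); omega
    · intro i hi j hj hij e
      by_cases a : i ∈ I <;> by_cases b : j ∈ I <;> simp only [a, b, if_true, if_false] at e
      · exact h2 i a j b hij
      · have := k2 j (mem_sdiff.2 ⟨hj, b⟩); omega
      · have := k2 i (mem_sdiff.2 ⟨hi, a⟩); omega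
      · exact k3 i (mem_sdiff.2 ⟨hi, a⟩) j (mem_sdiff.2 ⟨hj, b⟩) hij e

def agree {d : ℕ} (x y : Fin d → Bool) : ℕ := (univ.filter (fun s => x s = y s)).card

theorem agree_cons {d : ℕ} (a b : Bool) (x y : Fin d → Bool) :
    agree (Fin.cons a x : Fin (d + 1) → Bool) (Fin.cons b y) =
      (if a = b then 1 else 0) + agree x y := by
  simp only [agree, card_filter, Fin.sum_univ_succ, Fin.cons_zero, Fin.cons_succ]

def slice {d : ℕ} (F : Finset (Fin (d + 1) → Bool)) (a : Bool) : Finset (Fin d → Bool) :=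
  univ.filter (fun z => (Fin.cons a z : Fin (d + 1) → Bool) ∈ F)

theorem card_slice {d : ℕ} (F : Finset (Fin (d + 1) → Bool)) :
    F.card ≤ (slice F true).card + (slice F false).card := by
  refine le_trans (card_le_card (t := (slice F true).image (Fin.cons true) ∪
    (slice F false).image (Fin.cons false)) ?_)
    ((card_union_le _ _).trans (add_le_add card_image_le card_image_le))
  intro x hx
  rw [← Fin.cons_self_tail x] at hx ⊢
  cases h : x 0
  · rw [h] at hx
    exact mem_union_right _ (mem_image_of_mem _ (mem_filter.2 ⟨mem_univ _, hx⟩))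
  · rw [h] at hx
    exact mem_union_left _ (mem_image_of_mem _ (mem_filter.2 ⟨mem_univ _, hx⟩))

theorem conc (l : ℝ) (hl : 1 ≤ l) (d : ℕ) : ∀ (F G : Finset (Fin d → Bool)) (ρ : ℝ),
    (∀ x ∈ F, ∀ y ∈ G, ρ ≤ agree x y) → F.card * G.card * l ^ ρ ≤ (2 + l + 1 / l) ^ d := by
  have l0 : 0 < l := by linarith
  induction d with
  | zero =>
    intro F G ρ h
    rcases F.eq_empty_or_nonempty with rfl | ⟨x, hx⟩
    · simp
    rcases G.eq_empty_or_nonempty with rfl | ⟨y, hy⟩
    · simp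
    have h1 : (F.card : ℝ) ≤ 1 := by exact_mod_cast (card_le_univ F).trans (by simp)
    have h2 : (G.card : ℝ) ≤ 1 := by exact_mod_cast (card_le_univ G).trans (by simp)
    have h3 : l ^ ρ ≤ 1 := Real.rpow_le_one_of_one_le_of_nonpos hl (by simpa [agree] using h x hx y hy)
    rw [pow_zero]
    exact mul_le_one₀ (mul_le_one₀ h1 (by positivity) h2) (by positivity) h3
  | succ d ih =>
    intro F G ρ h
    have k : ∀ a b, ∀ x ∈ slice F a, ∀ y ∈ slice G b, ρ - (if a = b then 1 else 0) ≤ agree x y := by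
      intro a b x hx y hy
      have := h _ (mem_filter.1 hx).2 _ (mem_filter.1 hy).2
      rw [agree_cons] at this
      push_cast at this
      linarith
    have h1 := ih _ _ _ (k true true)
    have h2 := ih _ _ _ (k false false)
    have h3 := ih _ _ _ (k true false)
    have h4 := ih _ _ _ (k false true)
    simp only [if_true, Bool.true_eq_false, Bool.false_eq_true, if_false, sub_zero,
      Real.rpow_sub l0, Real.rpow_one] at h1 h2 h3 h4
    have c1 : (F.card : ℝ) ≤ (slice F true).card + (slice F false).card := by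
      exact_mod_cast card_slice F
    have c2 : (G.card : ℝ) ≤ (slice G true).card + (slice G false).card := by
      exact_mod_cast card_slice G
    have pw : 0 < l ^ ρ := by positivity
    have pK : 0 < (2 + l + 1 / l) ^ d := by positivity
    rw [pow_succ]
    generalize (2 + l + 1 / l) ^ d = K at *
    generalize l ^ ρ = w at *
    have q1 : (0 : ℝ) ≤ (slice F true).card := by positivity
    have q2 : (0 : ℝ) ≤ (slice F false).card := by positivity
    have q3 : (0 : ℝ) ≤ (slice G true).card := by positivity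
    have q4 : (0 : ℝ) ≤ (slice G false).card := by positivity
    generalize ((slice F true).card : ℝ) = a1 at *
    generalize ((slice F false).card : ℝ) = a0 at *
    generalize ((slice G true).card : ℝ) = b1 at *
    generalize ((slice G false).card : ℝ) = b0 at *
    rw [← mul_div_assoc, div_le_iff₀ l0] at h1 h2
    have h5 : (a1 * b1 * w) * (a0 * b0 * w) ≤ K * K := by
      calc _ = (a1 * b0 * w) * (a0 * b1 * w) := by ring
        _ ≤ _ := by gcongr
    have h6 : a1 * b1 * w + a0 * b0 * w ≤ K * (l + 1 / l) := by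
      have h7 := mul_nonneg (sub_nonneg.2 h1) (sub_nonneg.2 h2)
      apply le_of_mul_le_mul_left _ (mul_pos pK l0)
      have : K * l * (K * (l + 1 / l)) = K * l * (K * l) + K * K := by field_simp
      nlinarith
    calc _ ≤ (a1 + a0) * (b1 + b0) * w := by gcongr
      _ ≤ _ := by nlinarith

theorem constr (ε : ℝ) (h0 : 0 < ε) (h1 : ε ≤ 1) : ∃ γ : ℝ, 0 < γ ∧ ∀ n m : ℕ, 2 ≤ m →
    4 * (Real.logb 2 m + 1) ≤ ε * n → ∃ A : Fin m → Finset (Fin n), (∀ k, n < 2 * (A k).card) ∧
      ∀ I : Finset (Fin m), (∀ i ∈ I, ∀ j ∈ I, i ≠ j → ε * n ≤ (A i ∩ A j).card) →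
        (I.card : ℝ) ≤ 2 * (m : ℝ) ^ (1 - γ) := by
  classical
  obtain ⟨θ, t0, t1, t2⟩ : ∃ θ : ℝ, 1 ≤ θ ∧ θ < 4 ∧
      (2 + (1 + ε) + 1 / (1 + ε)) ≤ θ * (1 + ε) ^ ε := by
    have a1 : ε / 2 ≤ Real.log (1 + ε) := by
      have := Real.one_sub_inv_le_log_of_pos (x := 1 + ε) (by linarith)
      refine le_trans ?_ this
      rw [le_sub_iff_add_le, ← le_sub_iff_add_le', inv_le_iff_one_le_mul₀ (by linarith)]
      nlinarith
    have a2 : 1 + ε ^ 2 / 2 ≤ (1 + ε) ^ ε := by
      rw [Real.rpow_def_of_pos (by linarith)]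
      have := Real.add_one_le_exp (Real.log (1 + ε) * ε)
      nlinarith
    refine ⟨(4 + ε ^ 2) / (1 + ε ^ 2 / 2), ?_, ?_, ?_⟩
    · rw [le_div_iff₀ (by positivity)]; nlinarith
    · rw [div_lt_iff₀ (by positivity)]; nlinarith
    · calc _ ≤ 4 + ε ^ 2 := by
            have : 1 / (1 + ε) ≤ 1 - ε + ε ^ 2 := by
              rw [div_le_iff₀ (by linarith)]; nlinarith [pow_pos h0 3]
            linarith
        _ = (4 + ε ^ 2) / (1 + ε ^ 2 / 2) * (1 + ε ^ 2 / 2) := by field_simp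
        _ ≤ _ := by gcongr
  have g0 : 0 ≤ Real.logb 4 θ := Real.logb_nonneg (by norm_num) t0
  have g1 : Real.logb 4 θ < 1 := by
    rw [Real.logb_lt_iff_lt_rpow (by norm_num) (by linarith)]; simpa using t1
  refine ⟨1 - Real.logb 4 θ, by linarith, fun n m hm hn => ?_⟩
  obtain ⟨d, hd⟩ : ∃ d, d = Nat.clog 2 m := ⟨_, rfl⟩
  have d1 : m ≤ 2 ^ d := hd ▸ Nat.le_pow_clog (by norm_num) m
  have d0 : 0 < d := hd ▸ Nat.clog_pos (by norm_num) hm
  have d2 : 2 ^ d ≤ 2 * m := by
    have := Nat.pow_pred_clog_lt_self (b := 2) (by norm_num) (x := m) hm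
    rw [← hd] at this
    obtain ⟨e, rfl⟩ : ∃ e, d = e + 1 := ⟨d - 1, by omega⟩
    rw [Nat.pred_succ] at this
    rw [pow_succ]; omega
  have m0 : (0 : ℝ) < m := by exact_mod_cast (show 0 < m by omega)
  have d2' : (2 : ℝ) ^ d ≤ 2 * m := by exact_mod_cast d2
  have d3 : (d : ℝ) ≤ Real.logb 2 m + 1 := by
    have := Real.logb_le_logb_of_le (b := 2) (by norm_num) (by positivity) d2'
    rw [Real.logb_pow, Real.logb_mul (by norm_num) m0.ne', Real.logb_self_eq_one (by norm_num)]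
      at this
    linarith
  have n0 : (0 : ℝ) ≤ n := Nat.cast_nonneg _
  have d4 : 4 * (d : ℝ) ≤ ε * n := by linarith
  have d5 : 4 * d ≤ n := by
    have : 4 * (d : ℝ) ≤ n := by nlinarith
    exact_mod_cast this
  obtain ⟨B, hB⟩ : ∃ B, B = (n - 1) / (2 * d) := ⟨_, rfl⟩
  have b1 : 2 * d * B ≤ n - 1 := hB ▸ Nat.mul_div_le _ _
  have b2 : n - 1 < 2 * d * (B + 1) := hB ▸ Nat.lt_mul_div_succ _ (by omega)
  have b3 : 0 < B := hB ▸ Nat.div_pos (by omega) (by omega)
  obtain ⟨L, hL⟩ : ∃ L, n = 2 * d * B + L := ⟨n - 2 * d * B, by omega⟩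
  rw [Nat.mul_succ] at b2
  obtain ⟨x⟩ : Nonempty (Fin m ↪ (Fin d → Bool)) :=
    Function.Embedding.nonempty_of_card_le (by simpa using d1)
  obtain ⟨e⟩ : Nonempty (((Fin d × Bool) × Fin B) ⊕ Fin L ≃ Fin n) :=
    Fintype.card_eq.1 (by simp [hL]; exact Or.inl (mul_comm _ _))
  let S : (Fin d → Bool) → Finset (((Fin d × Bool) × Fin B) ⊕ Fin L) := fun y =>
    ((univ.filter (fun p : Fin d × Bool => y p.1 = p.2)) ×ˢ univ).disjSum univ
  have hS : ∀ y z, (S y ∩ S z).card = agree y z * B + L := by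
    intro y z
    have : S y ∩ S z = ((((univ.filter (fun s => y s = z s)).image (fun s => (s, y s)))) ×ˢ
        univ).disjSum univ := by
      ext (⟨⟨s, b⟩, k⟩ | k)
      · simp only [S, mem_inter, inl_mem_disjSum, mem_product, mem_filter, mem_univ, true_and,
          and_true, mem_image, Prod.mk.injEq]
        constructor
        · rintro ⟨rfl, h⟩
          exact ⟨s, h.symm, rfl, rfl⟩
        · rintro ⟨s', h, rfl, rfl⟩
          exact ⟨rfl, h.symm⟩
      · simp [S]
    rw [this, card_disjSum, card_product,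
      card_image_of_injective _ (fun a b h => congrArg Prod.fst h)]
    simp [agree]
  have ha : ∀ y : Fin d → Bool, agree y y = d := fun y => by simp [agree]
  refine ⟨fun k => (S (x k)).map e.toEmbedding, fun k => ?_, fun I hI => ?_⟩
  · have := hS (x k) (x k)
    rw [inter_self, ha] at this
    rw [card_map, this, mul_add, ← mul_assoc]
    omega
  · have key := conc (1 + ε) (by linarith) d (I.map x) (I.map x) (ε * d) (by
      intro y hy z hz
      obtain ⟨i, hi, rfl⟩ := mem_map.1 hy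
      obtain ⟨j, hj, rfl⟩ := mem_map.1 hz
      by_cases hij : i = j
      · rw [hij, ha]; nlinarith [(Nat.cast_nonneg d : (0 : ℝ) ≤ d)]
      · have h2 := hI i hi j hj hij
        rw [← map_inter, card_map, hS] at h2
        push_cast at h2
        have h3 : (L : ℝ) ≤ 2 * d := by exact_mod_cast (show L ≤ 2 * d by omega)
        have h4 : 2 * (d : ℝ) * B ≤ n := by exact_mod_cast (show 2 * d * B ≤ n by omega)
        have h5 : (0 : ℝ) < B := by exact_mod_cast b3
        apply le_of_mul_le_mul_right _ h5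
        nlinarith)
    rw [card_map, Real.rpow_mul_natCast (by linarith)] at key
    have k2 : (I.card : ℝ) ^ 2 ≤ θ ^ d := by
      apply le_of_mul_le_mul_right _ (show 0 < ((1 + ε) ^ ε) ^ d by positivity)
      rw [← mul_pow, sq]
      exact key.trans (by gcongr)
    have k3 : θ ^ d = (((2 : ℝ) ^ d) ^ Real.logb 4 θ) ^ 2 := by
      rw [Real.rpow_pow_comm (by positivity), ← pow_mul, mul_comm, pow_mul,
        ← Real.rpow_pow_comm (by positivity)]
      norm_num
      rw [Real.rpow_logb (by norm_num) (by norm_num) (by linarith)]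
    rw [k3] at k2
    refine (le_of_sq_le_sq k2 (by positivity)).trans ?_
    rw [sub_sub_cancel]
    calc _ ≤ (2 * (m : ℝ)) ^ Real.logb 4 θ := by gcongr
      _ = 2 ^ Real.logb 4 θ * (m : ℝ) ^ Real.logb 4 θ := Real.mul_rpow (by norm_num) m0.le
      _ ≤ 2 ^ (1 : ℝ) * (m : ℝ) ^ Real.logb 4 θ := by gcongr; norm_num
      _ = _ := by rw [Real.rpow_one]

end Pool.Agent.H16.DRC
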