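import Mathlib

set_option autoImplicit false

namespace Pool.Agent.H16.DiffP

def big : ℕ := 18833146635930392514739649373095502393820017172206299793541094320467804925862040036023129182162611255128882564201913497962275108195538176161750893650036823238913841960677014277482009572511397794148109057193012265712480242066657383464156236153205140120234508920253281813608783593573081829299364679689387906259384719981568326919275119074573490477614190074082376071405869838764484352979468922681119639977422171165974585476050424414195522190814375493691870674671840050891704441010055491338748562721900935393790141857223294811705459435114238699435325471479114594483144214908167536283126250506518542970190600111899358106797828258979597706940109080397846565630342605157068365457585925270132781297350313816955545111448723196359893881334851977688841750128487990557623083329163147296363960050776889582913285626752353154613790034316977861480785571827941678544917964410697291185560386737776756234237081813006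

def covB (i j : Fin 85) : Bool := big.testBit (85 * i.val + j.val)

def rk (i : Fin 85) : ℕ :=
  if i.val < 1 then 0 else if i.val < 4 then 1 else if i.val < 13 then 2 else if i.val < 35 then 3 else 4

lemma b_rk : ∀ i j : Fin 85, covB i j = true → rk j = rk i + 1 := by decide +kernel
lemma b_le : ∀ i : Fin 85, rk i ≤ 4 := by decide +kernel
lemma b_zero : ∀ i : Fin 85, rk i = 0 → i = 0 := by decide +kernel
lemma b_low : ∀ j : Fin 85, rk j ≠ 0 → ∃ i, covB i j = true := by decide +kernel
lemma b_deg : ∀ i : Fin 85, rk i ≤ 3 →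
    (Finset.univ.filter (fun j => covB i j = true)).card
      = (Finset.univ.filter (fun j => covB j i = true)).card + 3 := by decide +kernel
lemma b_pair : ∀ i j : Fin 85, rk i ≤ 3 → rk i = rk j → i ≠ j →
    (Finset.univ.filter (fun z => covB z i = true ∧ covB z j = true)).card
      = (Finset.univ.filter (fun z => covB i z = true ∧ covB j z = true)).card := by decide +kernel
lemma b_four : (Finset.univ.filter (fun i : Fin 85 => rk i = 4)).card = 50 := by decide +kernel
lemma part_ge (k m : ℕ) (g : Fin m → Multiset ℕ) (h1 : ∀ i, ∀ a ∈ g i, 0 < a) (h2 : ∀ i, (g i).sum = k)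
    (h3 : Function.Injective g) : m ≤ Fintype.card (Nat.Partition k) := by
  have := Fintype.card_le_of_injective (fun i : Fin m => (⟨g i, fun {a} ha => h1 i a ha, h2 i⟩ : Nat.Partition k))
    (fun i j h => h3 (congrArg Nat.Partition.parts h))
  simpa using this

def q (k : ℕ) : ℕ := if k ≤ 1 then 1 else if k = 2 then 2 else if k = 3 then 3 else if k = 4 then 5 else 0

lemma q_le (k : ℕ) : q k ≤ Fintype.card (Nat.Partition k) := by
  rcases k with _ | _ | _ | _ | _ | k
  · exact part_ge 0 1 ![0] (by decide) (by decide) (by decide)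
  · exact part_ge 1 1 ![{1}] (by decide) (by decide) (by decide)
  · exact part_ge 2 2 ![{2}, {1, 1}] (by decide) (by decide) (by decide)
  · exact part_ge 3 3 ![{3}, {2, 1}, {1, 1, 1}] (by decide) (by decide) (by decide)
  · exact part_ge 4 5 ![{4}, {3, 1}, {2, 2}, {2, 1, 1}, {1, 1, 1, 1}] (by decide) (by decide) (by decide)
  · simp [q]

lemma y_four : 51 ≤ (∑ f ∈ Finset.Nat.antidiagonalTuple 3 4, ∏ i, Fintype.card (Nat.Partition (f i))) := by
  have : (∑ f ∈ Finset.Nat.antidiagonalTuple 3 4, ∏ i, q (f i)) = 51 := by decide +kernel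
  rw [← this]
  exact Finset.sum_le_sum (fun f _ => Finset.prod_le_prod' (fun i _ => q_le _))

inductive W : Type
  | base : Fin 85 → W
  | refl : W → W
  | new : W → Fin 3 → W

def rank : W → ℕ
  | .base i => rk i
  | .refl z => rank z + 2
  | .new x _ => rank x + 1

def valid : W → Prop
  | .base _ => True
  | .refl z => valid z ∧ 3 ≤ rank z
  | .new x _ => valid x ∧ 4 ≤ rank x

inductive Cov : W → W → Prop
  | b (i j : Fin 85) : covB i j = true → Cov (.base i) (.base j)
  | r (z x : W) : Cov z x → Cov x (.refl z)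
  | n (x : W) (i : Fin 3) : Cov x (.new x i)

lemma Cov.rank_eq {x y : W} (h : Cov x y) : rank y = rank x + 1 := by
  induction h with
  | b i j h => exact b_rk i j h
  | r z x _ ih => simp [rank, ih]
  | n x i => simp [rank]

lemma cov_base {x : W} {j : Fin 85} : Cov x (.base j) ↔ ∃ i, x = .base i ∧ covB i j = true := by
  constructor
  · intro h; cases h with
    | b i j h => exact ⟨i, rfl, h⟩
  · rintro ⟨i, rfl, h⟩; exact Cov.b i j h

lemma cov_refl {x z : W} : Cov x (.refl z) ↔ Cov z x := by
  constructor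
  · intro h; cases h with
    | r _ _ h => exact h
  · exact Cov.r z x

lemma cov_new {x y : W} {i : Fin 3} : Cov x (.new y i) ↔ x = y := by
  constructor
  · intro h; cases h with
    | n _ _ => rfl
  · rintro rfl; exact Cov.n _ i

lemma is_base {x : W} (hx : valid x) (h : rank x ≤ 4) : ∃ i, x = .base i := by
  cases x with
  | base i => exact ⟨i, rfl⟩
  | refl z => simp only [valid, rank] at hx h; omega
  | new z i => simp only [valid, rank] at hx h; omega

lemma fin_rank (n : ℕ) : {x : W | valid x ∧ rank x = n}.Finite := by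
  induction n using Nat.strong_induction_on with
  | _ n ih =>
    rcases Nat.lt_or_ge n 5 with h | h
    · refine (Set.finite_range W.base).subset (fun x hx => ?_)
      obtain ⟨i, rfl⟩ := is_base hx.1 (by have := hx.2; omega)
      exact ⟨i, rfl⟩
    · refine (((ih (n - 2) (by omega)).image W.refl).union
        (((ih (n - 1) (by omega)).prod (Set.finite_univ (α := Fin 3))).image
          (fun p => W.new p.1 p.2))).subset (fun x hx => ?_)
      obtain ⟨h1, h2⟩ := hx
      cases x with
      | base i => have := b_le i; simp only [rank] at h2; omega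
      | refl z => exact Or.inl ⟨z, ⟨h1.1, by simp only [rank] at h2; omega⟩, rfl⟩
      | new z i => exact Or.inr ⟨(z, i), ⟨⟨h1.1, by simp only [rank] at h2 ⊢; omega⟩, trivial⟩, rfl⟩

def up (x : W) : Set W := {z | valid z ∧ Cov x z}
def dn (x : W) : Set W := {z | valid z ∧ Cov z x}

lemma up_fin (x : W) : (up x).Finite :=
  (fin_rank (rank x + 1)).subset (fun _ hz => ⟨hz.1, hz.2.rank_eq⟩)

lemma dn_fin (x : W) : (dn x).Finite :=
  (fin_rank (rank x - 1)).subset (fun _ hz => ⟨hz.1, by have := hz.2.rank_eq; omega⟩)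

lemma base_inj : Function.Injective W.base := fun _ _ h => by cases h; rfl
lemma refl_inj : Function.Injective W.refl := fun _ _ h => by cases h; rfl

lemma ncard_base (Q : Fin 85 → Prop) [DecidablePred Q] (S : Set W) (h : ∀ w, w ∈ S ↔ ∃ i, w = .base i ∧ Q i) :
    S.ncard = (Finset.univ.filter Q).card := by
  have : S = W.base '' (Finset.univ.filter Q : Finset (Fin 85)) := by
    ext w; simp [h, eq_comm, and_comm]
  rw [this, Set.ncard_image_of_injective _ base_inj, Set.ncard_coe_finset]

lemma up_base {i : Fin 85} (h : rk i ≤ 3) (w : W) : w ∈ up (.base i) ↔ ∃ j, w = .base j ∧ covB i j = true := by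
  constructor
  · rintro ⟨h1, h2⟩
    have := h2.rank_eq
    obtain ⟨j, rfl⟩ := is_base h1 (by simp only [rank] at this; omega)
    obtain ⟨k, hk, h3⟩ := cov_base.1 h2
    cases hk
    exact ⟨j, rfl, h3⟩
  · rintro ⟨j, rfl, h3⟩; exact ⟨trivial, Cov.b _ _ h3⟩

lemma dn_base (i : Fin 85) (w : W) : w ∈ dn (.base i) ↔ ∃ j, w = .base j ∧ covB j i = true := by
  constructor
  · rintro ⟨_, h2⟩; exact cov_base.1 h2
  · rintro ⟨j, rfl, h3⟩; exact ⟨trivial, Cov.b _ _ h3⟩

lemma up_high {x : W} (hx : valid x) (h : 4 ≤ rank x) :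
    up x = W.refl '' dn x ∪ Set.range (W.new x) := by
  ext w
  constructor
  · rintro ⟨h1, h2⟩
    cases w with
    | base j => have := h2.rank_eq; have := b_le j; simp only [rank] at *; omega
    | refl z => exact Or.inl ⟨z, ⟨h1.1, cov_refl.1 h2⟩, rfl⟩
    | new z i => rw [← cov_new.1 h2]; exact Or.inr ⟨i, rfl⟩
  · rintro (⟨z, ⟨h1, h2⟩, rfl⟩ | ⟨i, rfl⟩)
    · exact ⟨⟨h1, by have := h2.rank_eq; omega⟩, cov_refl.2 h2⟩
    · exact ⟨⟨hx, h⟩, Cov.n _ _⟩

lemma deg {x : W} (hx : valid x) : (up x).ncard = (dn x).ncard + 3 := by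
  rcases Nat.lt_or_ge (rank x) 4 with h | h
  · obtain ⟨i, rfl⟩ := is_base hx h.le
    have h' : rk i ≤ 3 := by simp only [rank] at h; omega
    rw [ncard_base _ _ (up_base h'), ncard_base _ _ (dn_base i)]
    exact b_deg i h'
  · rw [up_high hx h, Set.ncard_union_eq _ ((dn_fin x).image _) (Set.finite_range _),
      Set.ncard_image_of_injective _ refl_inj, ← Set.image_univ,
      Set.ncard_image_of_injective _ (fun a b hab => by cases hab; rfl)]
    · simp [Set.ncard_univ]
    · rw [Set.disjoint_left]
      rintro _ ⟨z, _, rfl⟩ ⟨i, hi⟩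
      cases hi

lemma pair {x y : W} (hx : valid x) (hy : valid y) (hne : x ≠ y) :
    (dn x ∩ dn y).ncard = (up x ∩ up y).ncard := by
  by_cases hr : rank x = rank y
  · rcases Nat.lt_or_ge (rank x) 4 with h | h
    · obtain ⟨i, rfl⟩ := is_base hx h.le
      obtain ⟨j, rfl⟩ := is_base hy (by omega)
      simp only [rank] at h hr
      rw [ncard_base (fun z => covB z i = true ∧ covB z j = true),
        ncard_base (fun z => covB i z = true ∧ covB j z = true)]
      · exact b_pair i j (by omega) hr (fun e => hne (by rw [e]))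
      · intro w
        rw [Set.mem_inter_iff, up_base (by omega), up_base (by omega)]
        constructor
        · rintro ⟨⟨a, rfl, h1⟩, ⟨b, hb, h2⟩⟩; cases hb; exact ⟨a, rfl, h1, h2⟩
        · rintro ⟨a, rfl, h1, h2⟩; exact ⟨⟨a, rfl, h1⟩, ⟨a, rfl, h2⟩⟩
      · intro w
        rw [Set.mem_inter_iff, dn_base, dn_base]
        constructor
        · rintro ⟨⟨a, rfl, h1⟩, ⟨b, hb, h2⟩⟩; cases hb; exact ⟨a, rfl, h1, h2⟩
        · rintro ⟨a, rfl, h1, h2⟩; exact ⟨⟨a, rfl, h1⟩, ⟨a, rfl, h2⟩⟩
    · have : up x ∩ up y = W.refl '' (dn x ∩ dn y) := by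
        rw [up_high hx h, up_high hy (by omega)]
        ext w
        constructor
        · rintro ⟨⟨a, ha, rfl⟩ | ⟨i, rfl⟩, ⟨b, hb, e⟩ | ⟨j, e⟩⟩
          · cases e; exact ⟨a, ⟨ha, hb⟩, rfl⟩
          · cases e
          · cases e
          · cases e; exact absurd rfl hne
        · rintro ⟨a, ⟨h1, h2⟩, rfl⟩
          exact ⟨Or.inl ⟨a, h1, rfl⟩, Or.inl ⟨a, h2, rfl⟩⟩
      rw [this, Set.ncard_image_of_injective _ refl_inj]
  · have e1 : dn x ∩ dn y = ∅ := by
      ext w; simp only [Set.mem_inter_iff, Set.mem_empty_iff_false, iff_false]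
      rintro ⟨h1, h2⟩; have := h1.2.rank_eq; have := h2.2.rank_eq; omega
    have e2 : up x ∩ up y = ∅ := by
      ext w; simp only [Set.mem_inter_iff, Set.mem_empty_iff_false, iff_false]
      rintro ⟨h1, h2⟩; have := h1.2.rank_eq; have := h2.2.rank_eq; omega
    rw [e1, e2]

lemma low {x : W} (hx : valid x) (h : rank x ≠ 0) : ∃ z, valid z ∧ Cov z x := by
  cases x with
  | base j => obtain ⟨i, hi⟩ := b_low j h; exact ⟨.base i, trivial, Cov.b _ _ hi⟩
  | refl z =>
    have : (up z).ncard ≠ 0 := by rw [deg hx.1]; omega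
    obtain ⟨w, hw⟩ := Set.nonempty_of_ncard_ne_zero this
    exact ⟨w, hw.1, cov_refl.2 hw.2⟩
  | new z i => exact ⟨z, hx.1, Cov.n _ _⟩

structure P : Type where
  val : W
  ok : valid val

lemma val_inj : Function.Injective P.val := by
  rintro ⟨a, _⟩ ⟨b, _⟩ h; cases h; rfl

def C (x y : P) : Prop := Cov x.1 y.1

lemma le_rank {x y : P} (h : Relation.ReflTransGen C x y) : x = y ∨ rank x.1 < rank y.1 := by
  induction h with
  | refl => exact Or.inl rfl
  | tail _ h2 ih =>
    have := Cov.rank_eq h2
    rcases ih with rfl | ih <;> right <;> omega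

instance : PartialOrder P where
  le x y := Relation.ReflTransGen C x y
  le_refl _ := Relation.ReflTransGen.refl
  le_trans _ _ _ := Relation.ReflTransGen.trans
  le_antisymm x y h1 h2 := by
    rcases le_rank h1 with h | h
    · exact h
    · rcases le_rank h2 with h' | h'
      · exact h'.symm
      · omega

lemma lt_rank {x y : P} (h : x < y) : rank x.1 < rank y.1 :=
  (le_rank h.le).resolve_left h.ne

lemma C_lt {x y : P} (h : C x y) : x < y := by
  refine lt_of_le_of_ne (Relation.ReflTransGen.single h) (fun e => ?_)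
  have := Cov.rank_eq h
  rw [e] at this; omega

lemma covBy_iff {x y : P} : x ⋖ y ↔ Cov x.1 y.1 := by
  constructor
  · intro h
    rcases Relation.ReflTransGen.cases_tail (h.le : Relation.ReflTransGen C x y) with e | ⟨c, h1, h2⟩
    · exact absurd e.symm h.ne
    · rcases (show x ≤ c from h1).eq_or_lt with e | e
      · rw [e]; exact h2
      · exact absurd (C_lt h2) (h.2 e)
  · intro h
    refine ⟨C_lt h, fun c h1 h2 => ?_⟩
    have := lt_rank h1; have := lt_rank h2; have := h.rank_eq; omega

lemma bot_le' (n : ℕ) : ∀ x : P, rank x.1 = n → (⟨.base 0, trivial⟩ : P) ≤ x := by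
  induction n with
  | zero =>
    rintro ⟨x, hx⟩ h
    obtain ⟨i, rfl⟩ := is_base hx (by simp only at h; omega)
    have := b_zero i h
    subst this; exact le_rfl
  | succ n ih =>
    rintro ⟨x, hx⟩ h
    obtain ⟨z, hz, hc⟩ := low hx (by simp only at h; omega)
    exact (ih ⟨z, hz⟩ (by have := hc.rank_eq; simp only at h ⊢; omega)).trans
      (C_lt (x := ⟨z, hz⟩) (y := ⟨x, hx⟩) hc).le

instance : OrderBot P where
  bot := ⟨.base 0, trivial⟩
  bot_le x := bot_le' _ x rfl

lemma toW (Q : W → Prop) : P.val '' {x : P | Q x.1} = {w | valid w ∧ Q w} := by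
  ext w
  constructor
  · rintro ⟨x, hx, rfl⟩; exact ⟨x.2, hx⟩
  · rintro ⟨h1, h2⟩; exact ⟨⟨w, h1⟩, h2, rfl⟩

lemma ncard_toW (Q : W → Prop) : {x : P | Q x.1}.ncard = {w | valid w ∧ Q w}.ncard := by
  rw [← toW, Set.ncard_image_of_injective _ val_inj]

lemma fin_toW (Q : W → Prop) (h : {w | valid w ∧ Q w}.Finite) : {x : P | Q x.1}.Finite :=
  Set.Finite.of_finite_image (f := P.val) (by rw [toW]; exact h) val_inj.injOn

lemma finP (n : ℕ) : {x : P | rank x.1 = n}.Finite := fin_toW (fun w => rank w = n) (fin_rank n)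

noncomputable instance : LocallyFiniteOrder P := by
  classical
  refine LocallyFiniteOrder.ofFiniteIcc (fun a b => ?_)
  refine ((Set.finite_Iic (rank b.1)).biUnion (fun n _ => finP n)).subset (fun x hx => ?_)
  simp only [Set.mem_iUnion]
  refine ⟨rank x.1, ?_, rfl⟩
  rcases le_rank hx.2 with h | h
  · rw [h]; exact Set.mem_Iic.2 le_rfl
  · exact Set.mem_Iic.2 h.le

theorem main : ¬ (∀ (r : ℕ), 0 < r →
      ∀ (P : Type) [PartialOrder P] [OrderBot P] [LocallyFiniteOrder P] (ρ : P → ℕ),
        ρ ⊥ = 0 →
        (∀ x y : P, x ⋖ y → ρ y = ρ x + 1) →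
        (∀ n : ℕ, {x : P | ρ x = n}.Finite) →
        (∀ x : P, {z : P | x ⋖ z}.Finite ∧
            {z : P | x ⋖ z}.ncard = {z : P | z ⋖ x}.ncard + r) →
        (∀ x y : P, x ≠ y →
            {z : P | z ⋖ x ∧ z ⋖ y}.ncard = {z : P | x ⋖ z ∧ y ⋖ z}.ncard) →
        ∀ n : ℕ,
          (∑ f ∈ Finset.Nat.antidiagonalTuple r n, ∏ i, Fintype.card (Nat.Partition (f i)))
            ≤ {x : P | ρ x = n}.ncard) := by
  intro H
  have := H 3 (by norm_num) P (fun x => rank x.1) rfl (fun x y h => (covBy_iff.1 h).rank_eq) finP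
    (fun x => by
      simp only [covBy_iff]
      refine ⟨fin_toW (fun w => Cov x.1 w) (up_fin _), ?_⟩
      rw [ncard_toW (fun w => Cov x.1 w), ncard_toW (fun w => Cov w x.1)]
      exact deg x.2)
    (fun x y hne => by
      simp only [covBy_iff]
      rw [ncard_toW (fun w => Cov w x.1 ∧ Cov w y.1), ncard_toW (fun w => Cov x.1 w ∧ Cov y.1 w)]
      have := pair x.2 y.2 (fun e => hne (val_inj e))
      convert this using 2 <;> ext w <;> simp only [up, dn, Set.mem_ofPred_eq, Set.mem_inter_iff] <;> tauto) 4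
  rw [ncard_toW (fun w => rank w = 4), ncard_base (fun i => rk i = 4), b_four] at this
  · have := y_four; omega
  · intro w
    constructor
    · rintro ⟨h1, h2⟩
      obtain ⟨i, rfl⟩ := is_base h1 h2.le
      exact ⟨i, rfl, h2⟩
    · rintro ⟨i, rfl, h⟩; exact ⟨trivial, h⟩

end Pool.Agent.H16.DiffP
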