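import Mathlib

namespace Pool.Agent.H16.Expand

open Finset

theorem greedy {ι β : Type} [Fintype ι] [DecidableEq β] (W : ι → Finset β) (used : Finset β)
    (h : ∀ i, Fintype.card ι + used.card ≤ (W i).card) :
    ∃ g : ι → β, Function.Injective g ∧ ∀ i, g i ∈ W i ∧ g i ∉ used := by
  obtain ⟨g, h1, h2⟩ := (all_card_le_biUnion_card_iff_exists_injective
    (fun i => W i \ used)).1 (by
      intro s
      rcases s.eq_empty_or_nonempty with rfl | ⟨i, hi⟩
      · simp
      · have h3 := card_le_card (subset_biUnion_of_mem (fun i => W i \ used) hi)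
        have h4 := le_card_sdiff used (W i)
        have h5 := card_le_univ s
        have := h i
        omega)
  exact ⟨g, h1, fun i => mem_sdiff.1 (h2 i)⟩

theorem patch {ι β : Type} [DecidableEq ι] [DecidableEq β] (U : Finset ι) (f0 g : ι → β)
    (h0 : Set.InjOn f0 U) (hg : Function.Injective g) (h : ∀ i, g i ∉ U.image f0) :
    Function.Injective (U.piecewise f0 g) := by
  intro a b hab
  by_cases ha : a ∈ U <;> by_cases hb : b ∈ U
  · rw [piecewise_eq_of_mem _ _ _ ha, piecewise_eq_of_mem _ _ _ hb] at hab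
    exact h0 ha hb hab
  · rw [piecewise_eq_of_mem _ _ _ ha, piecewise_eq_of_notMem _ _ _ hb] at hab
    exact absurd (hab ▸ mem_image_of_mem f0 ha) (h b)
  · rw [piecewise_eq_of_notMem _ _ _ ha, piecewise_eq_of_mem _ _ _ hb] at hab
    exact absurd (hab ▸ mem_image_of_mem f0 hb) (h a)
  · rw [piecewise_eq_of_notMem _ _ _ ha, piecewise_eq_of_notMem _ _ _ hb] at hab
    exact hg hab

section hyp
variable {n : ℕ}

def Nb (H : Finset (Finset (Fin n))) (u v : Fin n) : Finset (Fin n) :=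
  univ.filter (fun w => ({u, v, w} : Finset (Fin n)) ∈ H)

def sh (H : Finset (Finset (Fin n))) : Finset (Fin n × Fin n) :=
  univ.filter (fun p => (Nb H p.1 p.2).Nonempty)

theorem mem_Nb {H : Finset (Finset (Fin n))} {u v w : Fin n} :
    w ∈ Nb H u v ↔ ({u, v, w} : Finset (Fin n)) ∈ H := by simp [Nb]

theorem dist3 {u v w : Fin n} (h : ({u, v, w} : Finset (Fin n)).card = 3) :
    u ≠ v ∧ u ≠ w ∧ v ≠ w := by
  refine ⟨?_, ?_, ?_⟩ <;> rintro rfl
  · have := card_le_two (a := u) (b := w); simp at h; omega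
  · have := card_le_two (a := v) (b := u)
    rw [insert_eq_of_mem (by simp)] at h; omega
  · have := card_le_two (a := u) (b := v); simp at h; omega

theorem full (d : ℕ) (m : ℕ) : ∀ H : Finset (Finset (Fin n)), H.card = m →
    (∀ e ∈ H, e.card = 3) → ∃ H' ⊆ H, (∀ u v, (Nb H' u v).Nonempty → d ≤ (Nb H' u v).card) ∧
      H.card ≤ H'.card + d * (sh H).card := by
  induction m using Nat.strong_induction_on with
  | _ m ih =>
    intro H hm h3
    by_cases hf : ∀ u v, (Nb H u v).Nonempty → d ≤ (Nb H u v).card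
    · exact ⟨H, Subset.rfl, hf, Nat.le_add_right _ _⟩
    push Not at hf
    obtain ⟨u, v, ⟨w, hw⟩, hd⟩ := hf
    let R := (Nb H u v).image (fun w => ({u, v, w} : Finset (Fin n)))
    have hR : R.card < d := card_image_le.trans_lt hd
    have hlt : (H \ R).card < m := by
      rw [← hm]
      apply card_lt_card
      refine ⟨sdiff_subset, fun h => ?_⟩
      exact (mem_sdiff.1 (h (mem_Nb.1 hw))).2 (mem_image_of_mem _ hw)
    obtain ⟨H', h1, h2, h4⟩ := ih _ hlt (H \ R) rfl (fun e he => h3 e (mem_sdiff.1 he).1)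
    refine ⟨H', h1.trans sdiff_subset, h2, ?_⟩
    have h5 : (sh (H \ R)).card < (sh H).card := by
      apply card_lt_card
      constructor
      · intro p hp
        simp only [sh, mem_filter, mem_univ, true_and] at hp ⊢
        obtain ⟨x, hx⟩ := hp
        exact ⟨x, mem_Nb.2 (mem_sdiff.1 (mem_Nb.1 hx)).1⟩
      · intro h
        have := h (show (u, v) ∈ sh H from mem_filter.2 ⟨mem_univ _, ⟨w, hw⟩⟩)
        simp only [sh, mem_filter, mem_univ, true_and] at this
        obtain ⟨x, hx⟩ := this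
        have hx2 := mem_sdiff.1 (mem_Nb.1 hx)
        exact hx2.2 (mem_image_of_mem _ (mem_Nb.2 hx2.1))
    have h6 := le_card_sdiff R H
    have h7 := Nat.mul_le_mul_left d (Nat.succ_le_of_lt h5)
    rw [Nat.mul_succ] at h7
    omega

/-- the shadow graph -/
def Γ (H : Finset (Finset (Fin n))) (h3 : ∀ e ∈ H, e.card = 3) : SimpleGraph (Fin n) where
  Adj u v := (Nb H u v).Nonempty
  symm := ⟨fun u v ⟨w, hw⟩ => ⟨w, mem_Nb.2 (by rw [insert_comm]; exact mem_Nb.1 hw)⟩⟩
  loopless := ⟨fun u ⟨w, hw⟩ => (dist3 (h3 _ (mem_Nb.1 hw))).1 rfl⟩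

theorem adj23 {H : Finset (Finset (Fin n))} (h3 : ∀ e ∈ H, e.card = 3) {u v w : Fin n}
    (h : w ∈ Nb H u v) : (Γ H h3).Adj u w ∧ (Γ H h3).Adj v w := by
  refine ⟨⟨v, mem_Nb.2 ?_⟩, ⟨u, mem_Nb.2 ?_⟩⟩
  · rw [pair_comm]; exact mem_Nb.1 h
  · rw [pair_comm, insert_comm]; exact mem_Nb.1 h

end hyp

section tri
variable {n : ℕ} (G : SimpleGraph (Fin n)) [DecidableRel G.Adj]

/-- indicator of adjacency -/
def ia (u v : Fin n) : ℝ := if G.Adj u v then 1 else 0

theorem ia_nn (u v : Fin n) : 0 ≤ ia G u v := by unfold ia; split_ifs <;> norm_num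
theorem ia_le (u v : Fin n) : ia G u v ≤ 1 := by unfold ia; split_ifs <;> norm_num
theorem ia_sq (u v : Fin n) : ia G u v * ia G u v = ia G u v := by
  unfold ia; split_ifs <;> norm_num
theorem ia_comm (u v : Fin n) : ia G u v = ia G v u := by
  unfold ia; simp only [G.adj_comm]

/-- number of ordered triangles -/
def tri : ℝ := ∑ v, ∑ x, ∑ y, ia G v x * ia G v y * ia G x y

theorem cs {ι : Type} (s : Finset ι) (f g : ι → ℝ) :
    (∑ i ∈ s, f i * g i) ^ 2 ≤ (∑ i ∈ s, f i ^ 2) * ∑ i ∈ s, g i ^ 2 :=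
  sum_mul_sq_le_sq_mul_sq s f g

theorem cs1 {ι : Type} [Fintype ι] (g : ι → ℝ) :
    (∑ i, g i) ^ 2 ≤ Fintype.card ι * ∑ i, g i ^ 2 := by
  simpa using cs univ (fun _ => (1 : ℝ)) g

theorem com3 (a b c : Fin n) : ∑ w, ia G w a * ia G w b * ia G w c =
    ((univ.filter (fun w => G.Adj a w ∧ G.Adj b w ∧ G.Adj c w)).card : ℝ) := by
  rw [card_filter]; push_cast
  apply sum_congr rfl
  intro w _
  unfold ia
  simp only [G.adj_comm w]
  by_cases h1 : G.Adj a w <;> by_cases h2 : G.Adj b w <;> by_cases h3 : G.Adj c w <;> simp [*]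

theorem tri3 (D : ℕ) (h : ∀ a b c, a ≠ b → a ≠ c → b ≠ c →
    (univ.filter (fun w => G.Adj a w ∧ G.Adj b w ∧ G.Adj c w)).card ≤ D) :
    tri G ≤ (D + 3) * (n : ℝ) ^ 2 := by
  have hD : (0 : ℝ) ≤ D := Nat.cast_nonneg _
  have hn : (0 : ℝ) ≤ n := Nat.cast_nonneg _
  have h' : ∀ a b c, a ≠ b → a ≠ c → b ≠ c → ∑ w, ia G w a * ia G w b * ia G w c ≤ D := by
    intro a b c h1 h2 h3
    rw [com3]; exact_mod_cast h a b c h1 h2 h3
  have k1 : ∀ v, (∑ x, ∑ y, ia G v x * ia G v y * ia G x y) ^ 2 ≤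
      (D + 1) * (∑ x, ia G v x) ^ 3 := by
    intro v
    have e1 : ∑ x, ∑ y, ia G v x * ia G v y * ia G x y =
        ∑ x, ia G v x * (ia G v x * ∑ y, ia G v y * ia G x y) := by
      apply sum_congr rfl; intro x _
      rw [← mul_assoc, ia_sq, mul_sum]
      apply sum_congr rfl; intro y _; ring
    have e2 : ∑ x, (ia G v x * ∑ y, ia G v y * ia G x y) ^ 2 =
        ∑ a, ∑ b, ia G v a * ia G v b * ∑ x, ia G x v * ia G x a * ia G x b := by
      simp only [mul_sum]
      rw [sum_congr rfl (fun a _ => sum_comm), sum_comm]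
      apply sum_congr rfl; intro x _
      rw [sq, sum_mul_sum]
      apply sum_congr rfl; intro a _
      apply sum_congr rfl; intro b _
      rw [ia_comm G x v]
      linear_combination (ia G v a * ia G v b * ia G x a * ia G x b) * ia_sq G v x
    have e3 : ∀ a b, ia G v a * ia G v b * ∑ x, ia G x v * ia G x a * ia G x b ≤
        D * (ia G v a * ia G v b) + if b = a then ia G v a * ∑ x, ia G v x else 0 := by
      intro a b
      have p1 := ia_nn G v a
      have p2 := ia_nn G v b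
      split_ifs with hab
      · subst hab
        rw [ia_sq]
        have : ∑ x, ia G x v * ia G x b * ia G x b ≤ ∑ x, ia G v x := by
          apply sum_le_sum; intro x _
          rw [mul_assoc, ia_sq, ia_comm G x v]
          exact mul_le_of_le_one_right (ia_nn G _ _) (ia_le G _ _)
        nlinarith [mul_le_mul_of_nonneg_left this p1]
      · by_cases h1 : G.Adj v a
        · by_cases h2 : G.Adj v b
          · have := h' v a b h1.ne h2.ne (Ne.symm hab)
            nlinarith [mul_le_mul_of_nonneg_left this (mul_nonneg p1 p2)]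
          · simp [ia, h2]
        · simp [ia, h1]
    have e4 : ∑ x, (ia G v x * ∑ y, ia G v y * ia G x y) ^ 2 ≤ (D + 1) * (∑ x, ia G v x) ^ 2 := by
      rw [e2]
      refine (sum_le_sum fun a _ => sum_le_sum fun b _ => e3 a b).trans (le_of_eq ?_)
      simp only [sum_add_distrib, sum_ite_eq', mem_univ, if_true, ← mul_sum, ← sum_mul]
      ring
    rw [e1]
    refine (cs _ _ _).trans ?_
    have e5 : ∑ x, ia G v x ^ 2 = ∑ x, ia G v x := sum_congr rfl fun x _ => by rw [sq, ia_sq]
    rw [e5]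
    have : 0 ≤ ∑ x, ia G v x := sum_nonneg fun x _ => ia_nn G v x
    calc _ ≤ (∑ x, ia G v x) * ((D + 1) * (∑ x, ia G v x) ^ 2) :=
          mul_le_mul_of_nonneg_left e4 this
      _ = _ := by ring
  have k2 : ∑ v, (∑ x, ia G v x) ^ 3 ≤ (D + 3) * (n : ℝ) ^ 3 := by
    have e1 : ∑ v, (∑ x, ia G v x) ^ 3 = ∑ a, ∑ b, ∑ c, ∑ w, ia G w a * ia G w b * ia G w c := by
      rw [sum_congr rfl (fun a _ => sum_congr rfl (fun b _ => sum_comm)),
        sum_congr rfl (fun a _ => sum_comm), sum_comm]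
      apply sum_congr rfl; intro w _
      simp only [← mul_sum, ← sum_mul]; ring
    have e2 : ∀ a b c, ∑ w, ia G w a * ia G w b * ia G w c ≤
        D + (if b = a then (n : ℝ) else 0) + (if c = a then (n : ℝ) else 0) +
          (if c = b then (n : ℝ) else 0) := by
      intro a b c
      have p : ∑ w, ia G w a * ia G w b * ia G w c ≤ n := by
        rw [com3]; exact_mod_cast (card_le_univ _).trans (by simp)
      by_cases h1 : b = a
      · rw [if_pos h1]; split_ifs <;> linarith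
      by_cases h2 : c = a
      · rw [if_pos h2]; split_ifs <;> linarith
      by_cases h3 : c = b
      · rw [if_pos h3]; split_ifs <;> linarith
      have := h' a b c (Ne.symm h1) (Ne.symm h2) (Ne.symm h3)
      rw [if_neg h1, if_neg h2, if_neg h3]
      linarith
    rw [e1]
    refine (sum_le_sum fun a _ => sum_le_sum fun b _ => sum_le_sum fun c _ => e2 a b c).trans
      (le_of_eq ?_)
    simp [sum_add_distrib]
    ring
  have k3 : tri G ^ 2 ≤ ((D + 3) * (n : ℝ) ^ 2) ^ 2 := by
    refine (cs1 _).trans ?_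
    have := sum_le_sum (s := univ) fun v _ => k1 v
    rw [← mul_sum] at this
    rw [Fintype.card_fin]
    calc _ ≤ n * ((D + 1) * ((D + 3) * (n : ℝ) ^ 3)) := by gcongr; exact this.trans (by gcongr)
      _ ≤ n * ((D + 3) * ((D + 3) * (n : ℝ) ^ 3)) := by gcongr; norm_num
      _ = _ := by ring
  exact le_of_sq_le_sq k3 (by positivity)

theorem tri2 (D : ℕ) (h : ∀ a b x y, a ≠ b → G.Adj x y → G.Adj a x → G.Adj a y → G.Adj b x →
    G.Adj b y → (univ.filter (fun w => G.Adj a w ∧ G.Adj b w)).card ≤ D) :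
    tri G ≤ (D + 1) * (n : ℝ) ^ 2 := by
  have hD : (0 : ℝ) ≤ D := Nat.cast_nonneg _
  have hn : (0 : ℝ) ≤ n := Nat.cast_nonneg _
  have e1 : tri G = ∑ p : Fin n × Fin n, ∑ y, ia G p.1 p.2 * ia G p.1 y * ia G p.2 y := by
    rw [tri, Fintype.sum_prod_type]
  have e2 : ∑ p : Fin n × Fin n, (∑ y, ia G p.1 p.2 * ia G p.1 y * ia G p.2 y) ^ 2 =
      ∑ a, ∑ b, ∑ p : Fin n × Fin n,
        ia G p.1 p.2 * ia G p.1 a * ia G p.2 a * ia G p.1 b * ia G p.2 b := by
    rw [sum_congr rfl (fun a _ => sum_comm), sum_comm]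
    apply sum_congr rfl; intro p _
    rw [sq, sum_mul_sum]
    apply sum_congr rfl; intro a _
    apply sum_congr rfl; intro b _
    linear_combination (ia G p.1 a * ia G p.2 a * ia G p.1 b * ia G p.2 b) * ia_sq G p.1 p.2
  have e3 : ∀ a b, ∑ p : Fin n × Fin n,
      ia G p.1 p.2 * ia G p.1 a * ia G p.2 a * ia G p.1 b * ia G p.2 b ≤
      (D : ℝ) ^ 2 + if b = a then ∑ p : Fin n × Fin n, ia G p.1 p.2 * ia G p.1 a * ia G p.2 a
        else 0 := by
    intro a b
    split_ifs with hab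
    · subst hab
      have : ∑ p : Fin n × Fin n,
          ia G p.1 p.2 * ia G p.1 b * ia G p.2 b * ia G p.1 b * ia G p.2 b =
          ∑ p : Fin n × Fin n, ia G p.1 p.2 * ia G p.1 b * ia G p.2 b := by
        apply sum_congr rfl; intro p _
        linear_combination (ia G p.1 p.2 * ia G p.2 b * ia G p.2 b) * ia_sq G p.1 b +
          (ia G p.1 p.2 * ia G p.1 b) * ia_sq G p.2 b
      rw [this]; nlinarith
    · by_cases hx : ∃ x y, G.Adj x y ∧ G.Adj a x ∧ G.Adj a y ∧ G.Adj b x ∧ G.Adj b y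
      · obtain ⟨x, y, h1, h2, h3, h4, h5⟩ := hx
        have h6 : ((univ.filter (fun w => G.Adj a w ∧ G.Adj b w)).card : ℝ) ≤ D := by
          exact_mod_cast h a b x y (Ne.symm hab) h1 h2 h3 h4 h5
        have h7 : ∑ w, ia G w a * ia G w b =
            ((univ.filter (fun w => G.Adj a w ∧ G.Adj b w)).card : ℝ) := by
          have := com3 G a b b
          simp only [and_self, mul_assoc, ia_sq] at this
          exact this
        calc _ ≤ ∑ p : Fin n × Fin n, (ia G p.1 a * ia G p.1 b) * (ia G p.2 a * ia G p.2 b) := by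
              apply sum_le_sum; intro p _
              have := mul_le_mul_of_nonneg_right (ia_le G p.1 p.2) (mul_nonneg
                (mul_nonneg (ia_nn G p.1 a) (ia_nn G p.1 b))
                (mul_nonneg (ia_nn G p.2 a) (ia_nn G p.2 b)))
              linarith
          _ = (∑ w, ia G w a * ia G w b) ^ 2 := by rw [sq, sum_mul_sum, Fintype.sum_prod_type]
          _ ≤ _ := by rw [h7, add_zero]; gcongr
      · rw [sum_eq_zero]
        · positivity
        · intro p _
          by_contra hc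
          simp only [mul_eq_zero, not_or, ia, ite_eq_right_iff, one_ne_zero, imp_false,
            not_not] at hc
          exact hx ⟨p.1, p.2, hc.1.1.1.1, hc.1.1.1.2.symm, hc.1.1.2.symm, hc.1.2.symm, hc.2.symm⟩
  have e4 : tri G ^ 2 ≤ (n : ℝ) ^ 2 * ((n : ℝ) ^ 2 * D ^ 2 + tri G) := by
    conv_lhs => rw [e1]
    refine (cs1 _).trans ?_
    rw [e2, Fintype.card_prod, Fintype.card_fin]
    push_cast
    rw [← sq]
    gcongr
    refine (sum_le_sum fun a _ => sum_le_sum fun b _ => e3 a b).trans (le_of_eq ?_)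
    simp only [sum_add_distrib, sum_ite_eq', mem_univ, if_true, sum_const, card_univ,
      Fintype.card_fin, nsmul_eq_mul]
    rw [e1, sum_comm]; ring
  by_contra hc
  push Not at hc
  have p1 : (0 : ℝ) ≤ (n : ℝ) ^ 2 := by positivity
  have p2 : 0 < tri G := lt_of_le_of_lt (by positivity) hc
  nlinarith [mul_lt_mul_of_pos_left hc p2, mul_le_mul_of_nonneg_left hc.le (mul_nonneg hD p1),
    mul_nonneg hD (mul_nonneg p1 p1)]

end tri

open Classical in
theorem card_le_tri {n : ℕ} (H : Finset (Finset (Fin n))) (h3 : ∀ e ∈ H, e.card = 3) :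
    (H.card : ℝ) ≤ tri (Γ H h3) := by
  have h1 : H ⊆ (univ.filter (fun p : Fin n × Fin n × Fin n =>
      (Γ H h3).Adj p.1 p.2.1 ∧ (Γ H h3).Adj p.1 p.2.2 ∧ (Γ H h3).Adj p.2.1 p.2.2)).image
      (fun p => ({p.1, p.2.1, p.2.2} : Finset (Fin n))) := by
    intro e he
    obtain ⟨a, b, c, -, -, -, rfl⟩ := card_eq_three.1 (h3 e he)
    have h2 := mem_Nb.2 he
    exact mem_image.2 ⟨(a, b, c), mem_filter.2 ⟨mem_univ _, ⟨c, h2⟩, adj23 h3 h2⟩, rfl⟩
  have h2 := (card_le_card h1).trans card_image_le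
  rw [card_filter] at h2
  have h4 : (H.card : ℝ) ≤ _ := Nat.cast_le.2 h2
  refine h4.trans (le_of_eq ?_)
  push_cast
  rw [tri, Fintype.sum_prod_type]
  apply sum_congr rfl; intro a _
  rw [Fintype.sum_prod_type]
  apply sum_congr rfl; intro b _
  apply sum_congr rfl; intro c _
  unfold ia
  by_cases p1 : (Γ H h3).Adj a b <;> by_cases p2 : (Γ H h3).Adj a c <;>
    by_cases p3 : (Γ H h3).Adj b c <;> simp [*]

theorem main {V : Type} [Fintype V] (G : SimpleGraph V)
    (hG : (∃ u p q r s : V, p ≠ q ∧ p ≠ s ∧ r ≠ s ∧ r ≠ q ∧ q ≠ s ∧ ∀ a b, G.Adj a b →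
        a = u ∨ b = u ∨ s(a, b) = s(p, q) ∨ s(a, b) = s(r, s)) ∨
      (∃ u v p q : V, u ≠ v ∧ p ≠ q ∧ p ≠ u ∧ p ≠ v ∧ q ≠ u ∧ q ≠ v ∧ ∀ a b, G.Adj a b →
        ((a = u ∨ a = v) ∧ b ≠ u ∧ b ≠ v) ∨ ((b = u ∨ b = v) ∧ a ≠ u ∧ a ≠ v) ∨
          s(a, b) = s(p, q)) ∨
      (∃ I : Finset V, I.card = 3 ∧ ∀ a b, G.Adj a b → (a ∈ I ∧ b ∉ I) ∨ (b ∈ I ∧ a ∉ I))) :
    ∃ C : ℝ, ∀ (n : ℕ) (H : Finset (Finset (Fin n))), (∀ e ∈ H, e.card = 3) →
      (¬ ∃ f : V → Fin n, Function.Injective f ∧
          ∃ g : G.edgeSet → Fin n, Function.Injective g ∧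
            (∀ (e : G.edgeSet) (x : V), g e ≠ f x) ∧
            ∀ (u v : V) (h : G.Adj u v),
              ({f u, f v, g ⟨s(u, v), (SimpleGraph.mem_edgeSet G).mpr h⟩} : Finset (Fin n)) ∈ H) →
      (H.card : ℝ) ≤ C * (n : ℝ) ^ 2 := by
  classical
  obtain ⟨d, hd⟩ : ∃ d, d = 2 * Fintype.card V + Fintype.card G.edgeSet + 4 := ⟨_, rfl⟩
  refine ⟨d + (d + 3), fun n H h3 hno => ?_⟩
  obtain ⟨H', hsub, hfull, hcard⟩ := full d _ H rfl h3
  have h3' : ∀ e ∈ H', e.card = 3 := fun e he => h3 e (hsub he)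
  have hsh : (sh H).card ≤ n ^ 2 := (card_le_univ _).trans (by simp [sq])
  have hno' : ¬ ∃ f : V → Fin n, Function.Injective f ∧
      ∀ a b, G.Adj a b → (Γ H' h3').Adj (f a) (f b) := by
    rintro ⟨f, hf, hadj⟩
    let W : Sym2 V → Finset (Fin n) := Sym2.lift ⟨fun a b => Nb H' (f a) (f b), fun a b => by
      ext w; simp only [mem_Nb]; rw [insert_comm]⟩
    obtain ⟨g, hg, hg2⟩ := greedy (fun e : G.edgeSet => W e) (univ.image f) (by
      rintro ⟨e, he⟩
      induction e using Sym2.ind with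
      | _ a b =>
        have := hfull _ _ (hadj a b he)
        have h2 : (univ.image f).card ≤ Fintype.card V := card_image_le
        change _ ≤ (Nb H' (f a) (f b)).card
        omega)
    refine hno ⟨f, hf, g, hg, fun e x h => (hg2 e).2 (h ▸ mem_image_of_mem f (mem_univ x)), ?_⟩
    intro u v h
    exact hsub (mem_Nb.1 (hg2 ⟨s(u, v), h⟩).1)
  suffices h : (H'.card : ℝ) ≤ (d + 3) * (n : ℝ) ^ 2 by
    have h1 : H.card ≤ H'.card + d * n ^ 2 := hcard.trans (by gcongr)
    have h2 : (H.card : ℝ) ≤ H'.card + d * (n : ℝ) ^ 2 := by exact_mod_cast h1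
    linarith
  rcases hG with ⟨u, p, q, r, s, d1, d2, d3, d4, d5, hG⟩ |
    ⟨u, v, p, q, d1, d2, d3, d4, d5, d6, hG⟩ | ⟨I, hI, hG⟩
  · rcases H'.eq_empty_or_nonempty with rfl | ⟨e, he⟩
    · simp only [card_empty, Nat.cast_zero]; positivity
    exfalso
    obtain ⟨v, x, y, -, -, -, rfl⟩ := card_eq_three.1 (h3' e he)
    have hW : Nb H' v x ⊆ univ.filter (fun w => (Γ H' h3').Adj v w) :=
      fun w hw => mem_filter.2 ⟨mem_univ _, (adj23 h3' hw).1⟩
    have hc := (hfull v x ⟨y, mem_Nb.2 he⟩).trans (card_le_card hW)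
    obtain ⟨g1, i1, k1⟩ := greedy (fun _ : V => univ.filter (fun w => (Γ H' h3').Adj v w))
      (({u} : Finset V).image (fun _ => v)) (fun _ => by simp only [image_singleton, card_singleton]; omega)
    have i2 := patch {u} (fun _ => v) g1 (by simp) i1 (fun i => (k1 i).2)
    obtain ⟨f1, hf1⟩ : ∃ f1, f1 = ({u} : Finset V).piecewise (fun _ => v) g1 := ⟨_, rfl⟩
    rw [← hf1] at i2
    have f1u : f1 u = v := by simp [hf1]
    have f1z : ∀ z, z ≠ u → (Γ H' h3').Adj v (f1 z) := by
      intro z hz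
      rw [hf1, piecewise_eq_of_notMem _ _ _ (by simpa using hz)]
      exact (mem_filter.1 (k1 z).1).2
    let par : V → V := fun z => if z = q then p else r
    let U : Finset V := (({q, s} : Finset V).erase u)ᶜ
    obtain ⟨g2, i3, k2⟩ := greedy (fun z : V => if par z = u then
        univ.filter (fun w => (Γ H' h3').Adj v w) else Nb H' v (f1 (par z))) (U.image f1) (by
      intro z
      have h2 : (U.image f1).card ≤ Fintype.card V := card_image_le.trans (card_le_univ _)
      split_ifs with h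
      · omega
      · have := hfull _ _ (f1z _ h)
        omega)
    have i4 := patch U f1 g2 i2.injOn i3 (fun i => (k2 i).2)
    have k3 : ∀ z, (Γ H' h3').Adj v (g2 z) ∧ (Γ H' h3').Adj (f1 (par z)) (g2 z) := by
      intro z
      have := (k2 z).1
      split_ifs at this with h
      · rw [h, f1u]; exact ⟨(mem_filter.1 this).2, (mem_filter.1 this).2⟩
      · exact adj23 h3' this
    have k4 : ∀ z, z ≠ u → (Γ H' h3').Adj (U.piecewise f1 g2 u) (U.piecewise f1 g2 z) := by
      intro z hz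
      rw [piecewise_eq_of_mem _ _ _ (by simp [U]), f1u]
      by_cases h : z ∈ U
      · rw [piecewise_eq_of_mem _ _ _ h]; exact f1z z hz
      · rw [piecewise_eq_of_notMem _ _ _ h]; exact (k3 z).1
    have k5 : q ≠ u → (Γ H' h3').Adj (U.piecewise f1 g2 p) (U.piecewise f1 g2 q) := by
      intro hq
      rw [piecewise_eq_of_mem _ _ _ (by simp [U, d1, d2]),
        piecewise_eq_of_notMem _ _ _ (by simp [U, hq])]
      simpa [par] using (k3 q).2
    have k6 : s ≠ u → (Γ H' h3').Adj (U.piecewise f1 g2 r) (U.piecewise f1 g2 s) := by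
      intro hq
      rw [piecewise_eq_of_mem _ _ _ (by simp [U, d3, d4]),
        piecewise_eq_of_notMem _ _ _ (by simp [U, hq])]
      simpa [par, d5.symm] using (k3 s).2
    refine hno' ⟨_, i4, fun a b hab => ?_⟩
    by_cases ha : a = u
    · subst ha; exact k4 b hab.ne'
    by_cases hb : b = u
    · subst hb; exact (k4 a hab.ne).symm
    rcases hG a b hab with h | h | h | h
    · exact absurd h ha
    · exact absurd h hb
    · rcases Sym2.eq_iff.1 h with ⟨rfl, rfl⟩ | ⟨rfl, rfl⟩
      · exact k5 hb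
      · exact (k5 ha).symm
    · rcases Sym2.eq_iff.1 h with ⟨rfl, rfl⟩ | ⟨rfl, rfl⟩
      · exact k6 hb
      · exact (k6 ha).symm
  · refine (card_le_tri H' h3').trans ((tri2 _ d ?_).trans (by gcongr; norm_num))
    intro a b x y e1 e2 e3 e4 e5 e6
    by_contra hc
    let f0 : V → Fin n := fun z => if z = u then a else if z = v then b else if z = p then x else y
    have fu : f0 u = a := by simp [f0]
    have fv : f0 v = b := by simp [f0, d1.symm]
    have fp : f0 p = x := by simp [f0, d3, d4]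
    have fq : f0 q = y := by simp [f0, d5, d6, d2.symm]
    let U : Finset V := {u, v, p, q}
    obtain ⟨g, i1, k1⟩ := greedy
      (fun _ : V => univ.filter (fun w => (Γ H' h3').Adj a w ∧ (Γ H' h3').Adj b w))
      (U.image f0) (fun _ => by
        have h2 : (U.image f0).card ≤ Fintype.card V := card_image_le.trans (card_le_univ _)
        omega)
    have i2 := patch U f0 g (by
      have := e2.ne
      have := e3.ne
      have := e4.ne
      have := e5.ne
      have := e6.ne
      intro z hz z' hz' h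
      simp only [U, coe_insert, coe_singleton, Set.mem_insert_iff, Set.mem_singleton_iff] at hz hz'
      rcases hz with rfl | rfl | rfl | rfl <;> rcases hz' with rfl | rfl | rfl | rfl <;>
        first | rfl | (exfalso; simp only [fu, fv, fp, fq] at h; simp_all)) i1 (fun i => (k1 i).2)
    have k2 : ∀ z, z ≠ u → z ≠ v → (Γ H' h3').Adj a (U.piecewise f0 g z) ∧
        (Γ H' h3').Adj b (U.piecewise f0 g z) := by
      intro z h1 h2
      by_cases h : z ∈ U
      · rw [piecewise_eq_of_mem _ _ _ h]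
        simp only [U, mem_insert, mem_singleton, h1, h2, false_or] at h
        rcases h with rfl | rfl
        · rw [fp]; exact ⟨e3, e5⟩
        · rw [fq]; exact ⟨e4, e6⟩
      · rw [piecewise_eq_of_notMem _ _ _ h]; exact (mem_filter.1 (k1 z).1).2
    have k3 : ∀ z z', (z = u ∨ z = v) ∧ z' ≠ u ∧ z' ≠ v →
        (Γ H' h3').Adj (U.piecewise f0 g z) (U.piecewise f0 g z') := by
      rintro z z' ⟨rfl | rfl, h1, h2⟩
      · rw [piecewise_eq_of_mem _ _ _ (by simp [U]), fu]; exact (k2 z' h1 h2).1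
      · rw [piecewise_eq_of_mem _ _ _ (by simp [U]), fv]; exact (k2 z' h1 h2).2
    have k4 : (Γ H' h3').Adj (U.piecewise f0 g p) (U.piecewise f0 g q) := by
      rw [piecewise_eq_of_mem _ _ _ (by simp [U]), piecewise_eq_of_mem _ _ _ (by simp [U]), fp, fq]
      exact e2
    refine hno' ⟨_, i2, fun z z' hab => ?_⟩
    rcases hG z z' hab with h | h | h
    · exact k3 _ _ h
    · exact (k3 _ _ h).symm
    · rcases Sym2.eq_iff.1 h with ⟨rfl, rfl⟩ | ⟨rfl, rfl⟩
      · exact k4
      · exact k4.symm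
  · refine (card_le_tri H' h3').trans (tri3 _ d ?_)
    intro a b c e1 e2 e3
    by_contra hc
    obtain ⟨u, v, w, d1, d2, d3, hI'⟩ := card_eq_three.1 hI
    let f0 : V → Fin n := fun z => if z = u then a else if z = v then b else c
    have fu : f0 u = a := by simp [f0]
    have fv : f0 v = b := by simp [f0, d1.symm]
    have fw : f0 w = c := by simp [f0, d2.symm, d3.symm]
    obtain ⟨g, i1, k1⟩ := greedy (fun _ : V => univ.filter
      (fun w => (Γ H' h3').Adj a w ∧ (Γ H' h3').Adj b w ∧ (Γ H' h3').Adj c w))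
      (I.image f0) (fun _ => by
        have h2 : (I.image f0).card ≤ Fintype.card V := card_image_le.trans (card_le_univ _)
        omega)
    have i2 := patch I f0 g (by
      intro z hz z' hz' h
      simp only [hI', coe_insert, coe_singleton, Set.mem_insert_iff, Set.mem_singleton_iff] at hz hz'
      rcases hz with rfl | rfl | rfl <;> rcases hz' with rfl | rfl | rfl <;>
        first | rfl | (exfalso; simp only [fu, fv, fw] at h; simp_all)) i1 (fun i => (k1 i).2)
    have k3 : ∀ z z', z ∈ I ∧ z' ∉ I →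
        (Γ H' h3').Adj (I.piecewise f0 g z) (I.piecewise f0 g z') := by
      rintro z z' ⟨h1, h2⟩
      rw [piecewise_eq_of_mem _ _ _ h1, piecewise_eq_of_notMem _ _ _ h2]
      have := (mem_filter.1 (k1 z').1).2
      simp only [hI', mem_insert, mem_singleton] at h1
      rcases h1 with rfl | rfl | rfl
      · rw [fu]; exact this.1
      · rw [fv]; exact this.2.1
      · rw [fw]; exact this.2.2
    refine hno' ⟨_, i2, fun z z' hab => ?_⟩
    rcases hG z z' hab with h | h
    · exact k3 _ _ h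
    · exact (k3 _ _ h).symm

theorem two_edges {V : Type} (G : SimpleGraph V) (e1 e2 : G.edgeSet) (h : e1 ≠ e2) :
    ∃ p q r s : V, p ≠ q ∧ p ≠ s ∧ r ≠ s ∧ r ≠ q ∧ q ≠ s ∧ e1.1 = s(p, q) ∧ e2.1 = s(r, s) := by
  obtain ⟨e1, h1⟩ := e1
  obtain ⟨e2, h2⟩ := e2
  induction e1 using Sym2.ind with
  | _ a b =>
  induction e2 using Sym2.ind with
  | _ c d =>
    have hab : a ≠ b := G.ne_of_adj h1
    have hcd : c ≠ d := G.ne_of_adj h2
    have hne : ¬ ((a = c ∧ b = d) ∨ (a = d ∧ b = c)) := fun hh =>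
      h (Subtype.ext (Sym2.eq_iff.2 hh))
    by_cases h3 : a = c
    · subst h3
      exact ⟨a, b, a, d, hab, hcd, hcd, hab, fun e => hne (Or.inl ⟨rfl, e⟩), rfl, rfl⟩
    by_cases h4 : a = d
    · subst h4
      exact ⟨a, b, a, c, hab, h3, h3, hab, fun e => hne (Or.inr ⟨rfl, e⟩), rfl, Sym2.eq_swap⟩
    by_cases h5 : b = c
    · subst h5
      exact ⟨b, a, b, d, hab.symm, hcd, hcd, hab.symm, h4, Sym2.eq_swap, rfl⟩
    · exact ⟨b, a, d, c, hab.symm, h5, hcd.symm, Ne.symm h4, h3, Sym2.eq_swap, Sym2.eq_swap⟩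

end Pool.Agent.H16.Expand
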