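import Mathlib

set_option autoImplicit false

namespace Pool.Agent.H16.Fiber
open Finset MvPolynomial

variable {σ τ : Type}

noncomputable def W (wt : σ → τ →₀ ℕ) (m : σ →₀ ℕ) : τ →₀ ℕ := ∑ M ∈ m.support, m M • wt M

theorem W_add (wt : σ → τ →₀ ℕ) (m n : σ →₀ ℕ) : W wt (m + n) = W wt m + W wt n :=
  Finsupp.sum_add_index' (f := m) (g := n) (h := fun M k => k • wt M) (fun _ => zero_smul _ _)
    (fun _ _ _ => add_smul _ _ _)

theorem W_single (wt : σ → τ →₀ ℕ) (M : σ) (k : ℕ) : W wt (Finsupp.single M k) = k • wt M :=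
  Finsupp.sum_single_index (h := fun M k => k • wt M) (zero_smul _ _)

theorem W_zero (wt : σ → τ →₀ ℕ) : W wt 0 = 0 := by simp [W]

theorem W_sum {ι : Type} (wt : σ → τ →₀ ℕ) (s : Finset ι) (f : ι → σ →₀ ℕ) :
    W wt (∑ i ∈ s, f i) = ∑ i ∈ s, W wt (f i) := by
  classical
  induction s using Finset.induction_on with
  | empty => simp [W_zero]
  | insert a s ha ih => rw [sum_insert ha, sum_insert ha, W_add, ih]

theorem W_apply (wt : σ → τ →₀ ℕ) (m : σ →₀ ℕ) (x : τ) :
    W wt m x = ∑ M ∈ m.support, m M * wt M x := by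
  simp [W, Finsupp.finsetSum_apply]

variable {K : Type} [Field K]

theorem map_mono (wt : σ → τ →₀ ℕ) (m : σ →₀ ℕ) (c : K) :
    aeval (R := K) (fun M => (monomial (wt M) 1 : MvPolynomial τ K)) (monomial m c) =
      monomial (W wt m) c := by
  rw [aeval_monomial, Finsupp.prod]
  simp only [monomial_pow, one_pow]
  rw [← monomial_sum_one, algebraMap_eq, C_mul_monomial, mul_one]
  rfl

open Classical in
noncomputable def lam (Q : (σ →₀ ℕ) → Prop) (p : MvPolynomial σ K) : K :=
  ∑ m ∈ p.support, if Q m then coeff m p else 0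

open Classical in
theorem lam_eq (Q : (σ →₀ ℕ) → Prop) (p : MvPolynomial σ K) (s : Finset (σ →₀ ℕ))
    (hs : p.support ⊆ s) : lam Q p = ∑ m ∈ s, if Q m then coeff m p else 0 := by
  refine sum_subset hs fun m _ hm => ?_
  rw [notMem_support_iff.1 hm, ite_self]

theorem lam_add (Q : (σ →₀ ℕ) → Prop) (p q : MvPolynomial σ K) :
    lam Q (p + q) = lam Q p + lam Q q := by
  classical
  rw [lam_eq Q (p + q) (p.support ∪ q.support) support_add, lam_eq Q p _ subset_union_left,
    lam_eq Q q _ subset_union_right, ← sum_add_distrib]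
  refine sum_congr rfl fun m _ => ?_
  split_ifs <;> simp

open Classical in
theorem lam_mono (Q : (σ →₀ ℕ) → Prop) (m : σ →₀ ℕ) (c : K) :
    lam Q (monomial m c) = if Q m then c else 0 := by
  rw [lam_eq Q _ {m} support_monomial_subset, sum_singleton, coeff_monomial, if_pos rfl]

theorem lam_zero (Q : (σ →₀ ℕ) → Prop) : lam Q (0 : MvPolynomial σ K) = 0 := by simp [lam]

theorem lam_sum (Q : (σ →₀ ℕ) → Prop) {ι : Type} (s : Finset ι) (f : ι → MvPolynomial σ K) :
    lam Q (∑ i ∈ s, f i) = ∑ i ∈ s, lam Q (f i) := by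
  classical
  induction s using Finset.induction_on with
  | empty => simp [lam_zero]
  | insert a s ha ih => rw [sum_insert ha, sum_insert ha, lam_add, ih]

/-- A fibre that splits into two parts sharing no variable forces a generator of that degree. -/
theorem gen_degree (wt : σ → τ →₀ ℕ) (s0 : τ) (hs0 : ∀ M, wt M s0 = 1) (good : σ → Prop)
    (m1 m2 : σ →₀ ℕ) (d : ℕ) (hd : W wt m1 s0 = d) (h21 : W wt m2 = W wt m1)
    (g1 : ∀ M ∈ m1.support, good M) (g2 : ∃ M ∈ m2.support, ¬ good M)
    (closed : ∀ m, W wt m = W wt m1 → ∀ M0 ∈ m.support, good M0 → ∀ M ∈ m.support, good M)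
    (S : Set (MvPolynomial σ K))
    (hS : Ideal.span S =
      RingHom.ker (aeval (R := K) (fun M => (monomial (wt M) 1 : MvPolynomial τ K)))) :
    ∃ f ∈ S, d ≤ f.totalDegree := by
  classical
  by_contra hc
  push Not at hc
  let Q : (σ →₀ ℕ) → Prop := fun m => W wt m = W wt m1 ∧ ∀ M ∈ m.support, good M
  have gen : ∀ f ∈ S, ∀ g, lam Q (g * f) = 0 := by
    intro f hfS g
    have hf : aeval (R := K) (fun M => (monomial (wt M) 1 : MvPolynomial τ K)) f = 0 := by
      have : f ∈ RingHom.ker (aeval (R := K) (fun M => (monomial (wt M) 1 : MvPolynomial τ K))) :=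
        hS ▸ Ideal.subset_span hfS
      exact this
    have hdeg := hc f hfS
    induction g using MvPolynomial.induction_on' with
    | add p q hp hq => rw [add_mul, lam_add, hp, hq, add_zero]
    | monomial u c =>
      have e : monomial u c * f = ∑ m ∈ f.support, monomial (u + m) (c * coeff m f) := by
        conv_lhs => rw [f.as_sum, mul_sum]
        simp only [monomial_mul]
      rw [e, lam_sum]
      simp only [lam_mono]
      by_cases hu : u = 0
      · refine sum_eq_zero fun m hm => if_neg fun h => ?_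
        have h1 := le_totalDegree hm
        have h2 : W wt m s0 = d := by rw [← hd, ← h.1, hu, zero_add]
        rw [W_apply] at h2
        simp only [hs0, mul_one] at h2
        have h3 : (m.sum fun _ e => e) = d := h2
        omega
      · obtain ⟨M0, hM0⟩ := Finsupp.support_nonempty_iff.2 hu
        have hin : ∀ m : σ →₀ ℕ, M0 ∈ (u + m).support := by
          intro m
          have := Finsupp.mem_support_iff.1 hM0
          rw [Finsupp.mem_support_iff, Finsupp.add_apply]
          omega
        by_cases g0 : good M0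
        · have h1 : coeff (W wt m1) (aeval (R := K)
              (fun M => (monomial (wt M) 1 : MvPolynomial τ K)) (monomial u c * f)) = 0 := by
            rw [map_mul, hf, mul_zero, coeff_zero]
          rw [e, map_sum, coeff_sum] at h1
          refine Eq.trans (sum_congr rfl fun m _ => ?_) h1
          rw [map_mono, coeff_monomial]
          by_cases hw : W wt (u + m) = W wt m1
          · rw [if_pos hw, if_pos ⟨hw, closed _ hw M0 (hin m) g0⟩]
          · rw [if_neg hw, if_neg fun h => hw h.1]
        · exact sum_eq_zero fun m _ => if_neg fun h => g0 (h.2 M0 (hin m))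
  have key : ∀ p ∈ Ideal.span S, ∀ g, lam Q (g * p) = 0 := by
    intro p hp
    induction hp using Submodule.span_induction with
    | mem f hf => exact gen f hf
    | zero => intro g; rw [mul_zero, lam_zero]
    | add p q _ _ hp hq => intro g; rw [mul_add, lam_add, hp, hq, add_zero]
    | smul a p _ hp => intro g; rw [smul_eq_mul, ← mul_assoc]; exact hp _
  have hm : (monomial m1 (1 : K) + monomial m2 (-1 : K)) ∈ Ideal.span S := by
    rw [hS, RingHom.mem_ker, map_add, map_mono, map_mono, h21, ← map_add]
    simp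
  have h := key _ hm 1
  obtain ⟨M, hM, hg⟩ := g2
  rw [one_mul, lam_add, lam_mono, lam_mono, if_pos ⟨rfl, g1⟩, if_neg fun h => hg (h.2 M hM)] at h
  simp at h

end Pool.Agent.H16.Fiber
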