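import Mathlib

/-! Flowcharts over an interpretation and their step-counting complexity classes. -/

set_option autoImplicit false

namespace Pool.Agent.H16.Fl

open Function Filter

/-- An interpretation: a set of computable functions and a set of computable predicates, each
with its arity. -/
structure Interp where
  Fn : Set (Σ k : ℕ, (Fin k → ℕ) → ℕ)
  Pr : Set (Σ k : ℕ, (Fin k → ℕ) → Bool)
  fn_rec : ∀ f ∈ Fn, Computable f.2
  pr_rec : ∀ p ∈ Pr, Computable p.2

/-- Node labels: `op k f a d r` sets variable `d` to `f` of the variables `a` and goes to `r`;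
`test k p a r s` goes to `r` if `p` holds of the variables `a` and to `s` otherwise;
`halt o` stops with the value of variable `o` as output. -/
inductive Node (Q : Type) : Type
  | op (k : ℕ) (f : (Fin k → ℕ) → ℕ) (a : Fin k → ℕ) (d : ℕ) (r : Q) : Node Q
  | test (k : ℕ) (p : (Fin k → ℕ) → Bool) (a : Fin k → ℕ) (r s : Q) : Node Q
  | halt (o : ℕ) : Node Q

/-- The label uses a function or predicate of the interpretation. -/
def Node.Ok (F : Interp) {Q : Type} : Node Q → Prop
  | .op k f _ _ _ => ⟨k, f⟩ ∈ F.Fn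
  | .test k p _ _ _ => ⟨k, p⟩ ∈ F.Pr
  | .halt _ => True

/-- A flowchart over `F`: finitely many labelled nodes besides the start node, whose successor
is `first`. -/
structure Flow (F : Interp) : Type 1 where
  Q : Type
  fin : Finite Q
  first : Q
  node : Q → Node Q
  ok : ∀ q, (node q).Ok F

/-- `Run nd q v n y`: from node `q` with variables `v` the computation halts after `n` node
executions (the halt node included) with output `y`. -/
inductive Run {Q : Type} (nd : Q → Node Q) : Q → (ℕ → ℕ) → ℕ → ℕ → Prop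
  | halt {q : Q} {v : ℕ → ℕ} {o : ℕ} : nd q = .halt o → Run nd q v 1 (v o)
  | op {q : Q} {v : ℕ → ℕ} {k : ℕ} {f : (Fin k → ℕ) → ℕ} {a : Fin k → ℕ} {d : ℕ} {r : Q}
      {n y : ℕ} : nd q = .op k f a d r → Run nd r (update v d (f fun i => v (a i))) n y →
      Run nd q v (n + 1) y
  | test {q : Q} {v : ℕ → ℕ} {k : ℕ} {p : (Fin k → ℕ) → Bool} {a : Fin k → ℕ} {r s : Q}
      {n y : ℕ} : nd q = .test k p a r s →
      Run nd (if p (fun i => v (a i)) = true then r else s) v n y → Run nd q v (n + 1) y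

/-- Initial variables: the input in variable 0, all others 0. -/
def init (x : ℕ) : ℕ → ℕ := fun j => if j = 0 then x else 0

/-- On input `x` the flowchart halts with output `y` after `n` node executions, the start node
included. -/
def Flow.Out {F : Interp} (P : Flow F) (x n y : ℕ) : Prop :=
  ∃ m, n = m + 1 ∧ Run P.node P.first (init x) m y

/-- Every unary function that is `Partrec` is computed by a flowchart over `F`. -/
def Universal (F : Interp) : Prop :=
  ∀ φ : ℕ →. ℕ, Partrec φ → ∃ P : Flow F, ∀ x y, y ∈ φ x ↔ ∃ n, P.Out x n y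

/-- `f` lies in the complexity class of `t`. -/
def InClass (F : Interp) (t f : ℕ → ℕ) : Prop :=
  ∃ (P : Flow F) (T : ℕ → ℕ), (∀ x, P.Out x (T x) (f x)) ∧ ∀ᶠ x in atTop, T x ≤ t x

theorem Run.pos {Q : Type} {nd : Q → Node Q} {q : Q} {v : ℕ → ℕ} {n y : ℕ}
    (h : Run nd q v n y) : 1 ≤ n := by
  cases h <;> omega

theorem Run.congr {Q : Type} {nd : Q → Node Q} {q q' : Q} {v : ℕ → ℕ} {n y : ℕ}
    (e : nd q' = nd q) (h : Run nd q v n y) : Run nd q' v n y := by
  cases h with
  | halt h => exact .halt (e.trans h)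
  | op h h' => exact .op (e.trans h) h'
  | test h h' => exact .test (e.trans h) h'

theorem Run.of_halt {Q : Type} {nd : Q → Node Q} {q : Q} {v : ℕ → ℕ} {n y o : ℕ}
    (e : nd q = .halt o) (h : Run nd q v n y) : y = v o := by
  cases h with
  | halt h => rw [e] at h; cases h; rfl
  | op h h' => rw [e] at h; cases h
  | test h h' => rw [e] at h; cases h

theorem Run.one {Q : Type} {nd : Q → Node Q} {q : Q} {v : ℕ → ℕ} {n y : ℕ}
    (h : Run nd q v n y) (hn : n ≤ 1) : ∃ o, nd q = .halt o := by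
  cases h with
  | halt h => exact ⟨_, h⟩
  | op h h' => have := h'.pos; omega
  | test h h' => have := h'.pos; omega

theorem neg (F : Interp) : InClass F (fun _ => 2) (fun x => x) ∧
    InClass F (fun _ => 2) (fun _ => 0) ∧ ∀ g, InClass F (fun _ => 2) g → g 0 = 0 := by
  refine ⟨?_, ?_, ?_⟩
  · refine ⟨⟨Unit, inferInstance, (), fun _ => .halt 0, fun _ => trivial⟩, fun _ => 2,
      fun x => ⟨1, rfl, ?_⟩, by simp⟩
    exact Run.halt (v := init x) (o := 0) rfl
  · refine ⟨⟨Unit, inferInstance, (), fun _ => .halt 1, fun _ => trivial⟩, fun _ => 2,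
      fun x => ⟨1, rfl, ?_⟩, by simp⟩
    exact Run.halt (v := init x) (o := 1) rfl
  · rintro g ⟨P, T, h1, h2⟩
    obtain ⟨x, hx⟩ := h2.exists
    obtain ⟨m, e, hm⟩ := h1 x
    obtain ⟨o, ho⟩ := hm.one (by simp only at hx; omega)
    obtain ⟨m', -, hm'⟩ := h1 0
    have := hm'.of_halt ho
    simpa [init] using this

section pos
variable {Q G : Type} (D : ℕ) (P : Q → Node Q) (R : G → Node G) (g0 : G)

def rn (e : ℕ) (b : Bool) (j : ℕ) : ℕ := if j = 0 ∧ b = false then 0 else 2 * j + e

abbrev HQ (Q G : Type) (D : ℕ) : Type :=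
  (Q × Bool × Fin (D + 1)) ⊕ ((Q × Bool) × G × Bool × Fin (D + 1))

def dn {D : ℕ} (c : Fin (D + 1)) : Fin (D + 1) := ⟨c.1 - 1, by omega⟩

def outOf {Q : Type} : Node Q → ℕ
  | .halt o => o
  | _ => 0

def n2 (s : Q × Bool) (g : G) (b : Bool) (c : Fin (D + 1)) : Node (HQ Q G D) :=
  if c.1 = 0 then .halt (rn 1 s.2 (outOf (P s.1))) else
    match R g with
    | .halt o => .halt (rn 2 b o)
    | .op k f a d r => .op k f (fun i => rn 2 b (a i)) (2 * d + 2)
        (.inr (s, r, b || decide (d = 0), dn c))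
    | .test k p a r r' => .test k p (fun i => rn 2 b (a i)) (.inr (s, r, b, dn c))
        (.inr (s, r', b, dn c))

def n1 (q : Q) (b : Bool) (c : Fin (D + 1)) : Node (HQ Q G D) :=
  match P q with
  | .halt o => if c.1 = 0 then .halt (rn 1 b o) else n2 D P R (q, b) g0 false (Fin.last D)
  | .op k f a d r => .op k f (fun i => rn 1 b (a i)) (2 * d + 1)
      (.inl (r, b || decide (d = 0), dn c))
  | .test k p a r r' => .test k p (fun i => rn 1 b (a i)) (.inl (r, b, dn c))
      (.inl (r', b, dn c))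

def hn : HQ Q G D → Node (HQ Q G D)
  | .inl s => n1 D P R g0 s.1 s.2.1 s.2.2
  | .inr s => n2 D P R s.1 s.2.1 s.2.2.1 s.2.2.2

theorem upd {e : ℕ} (he : 0 < e) {b : Bool} {u w : ℕ → ℕ} (h : ∀ j, w (rn e b j) = u j)
    (d z j : ℕ) : update w (2 * d + e) z (rn e (b || decide (d = 0)) j) = update u d z j := by
  have := h j
  by_cases hj : j = d
  · subst hj
    have : rn e (b || decide (j = 0)) j = 2 * j + e := by
      unfold rn; rw [if_neg]; rintro ⟨h1, h2⟩; simp [h1] at h2
    rw [this]; simp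
  · have e1 : rn e (b || decide (d = 0)) j = rn e b j := by
      unfold rn
      by_cases h0 : j = 0
      · have : d ≠ 0 := by omega
        simp [this]
      · simp [h0]
    rw [e1, update_of_ne hj, update_of_ne, this]
    unfold rn; split_ifs <;> omega

theorem ph2 (s : Q × Bool) {g : G} {u : ℕ → ℕ} {n z : ℕ} (h : Run R g u n z) :
    ∀ (b : Bool) (c : Fin (D + 1)) (w : ℕ → ℕ), (∀ j, w (rn 2 b j) = u j) →
    ∃ m y, Run (hn D P R g0) (.inr (s, g, b, c)) w m y ∧ m ≤ c.1 + 1 ∧ (n ≤ c.1 → y = z) ∧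
      (y = z ∨ y = w (rn 1 s.2 (outOf (P s.1)))) := by
  induction h with
  | @halt g u o h =>
    intro b c w hw
    by_cases hc : c.1 = 0
    · exact ⟨1, _, .halt (by simp [hn, n2, hc]), by omega, by omega, .inr rfl⟩
    · exact ⟨1, _, .halt (o := rn 2 b o) (by simp [hn, n2, hc, h]), by omega, fun _ => hw _,
        .inl (hw _)⟩
  | @op g u k f a d r n y h h' ih =>
    intro b c w hw
    by_cases hc : c.1 = 0
    · exact ⟨1, _, .halt (by simp [hn, n2, hc]), by omega, by omega, .inr rfl⟩
    · obtain ⟨m, y', h1, h2, h3, h4⟩ := ih (b || decide (d = 0)) (dn c)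
        (update w (2 * d + 2) (f fun i => u (a i))) (upd (by omega) hw _ _)
      refine ⟨m + 1, y', .op (k := k) (f := f) (a := fun i => rn 2 b (a i)) (d := 2 * d + 2)
        (by simp only [hn, n2, hc, h, if_false]; rfl) (by simpa only [hw] using h1), ?_, fun hh => h3 ?_, ?_⟩
      · simp only [dn] at h2; omega
      · simp only [dn]; omega
      · rwa [update_of_ne] at h4
        unfold rn; split_ifs <;> omega
  | @test g u k p a r r' n y h h' ih =>
    intro b c w hw
    by_cases hc : c.1 = 0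
    · exact ⟨1, _, .halt (by simp [hn, n2, hc]), by omega, by omega, .inr rfl⟩
    · obtain ⟨m, y', h1, h2, h3, h4⟩ := ih b (dn c) w hw
      refine ⟨m + 1, y', .test (k := k) (p := p) (a := fun i => rn 2 b (a i))
        (r := .inr (s, r, b, dn c)) (s := .inr (s, r', b, dn c))
        (by simp only [hn, n2, hc, h, if_false]) ?_, ?_, fun hh => h3 ?_, h4⟩
      · simp only [hw]
        split_ifs at h1 ⊢ <;> exact h1
      · simp only [dn] at h2; omega
      · simp only [dn]; omega

theorem ph1 {x n' z : ℕ} (hG : Run R g0 (init x) n' z) {q : Q} {v : ℕ → ℕ} {n y : ℕ}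
    (h : Run P q v n y) : ∀ (b : Bool) (c : Fin (D + 1)) (w : ℕ → ℕ),
    (∀ j, w (rn 1 b j) = v j) → (∀ j, w (rn 2 false j) = init x j) →
    ∃ m y', Run (hn D P R g0) (.inl (q, b, c)) w m y' ∧ (c.1 < n → m = n ∧ y' = y) ∧
      (n ≤ c.1 → m ≤ n + D + 1 ∧ (n' ≤ D → y' = z) ∧ (y' = z ∨ y' = y)) := by
  induction h with
  | @halt q v o h =>
    intro b c w hw hx
    by_cases hc : c.1 = 0
    · exact ⟨1, _, .halt (o := rn 1 b o) (by simp [hn, n1, hc, h]), fun _ => ⟨rfl, hw _⟩,
        by omega⟩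
    · obtain ⟨m, y', h1, h2, h3, h4⟩ := ph2 D P R g0 (q, b) hG false (Fin.last D) w hx
      refine ⟨m, y', h1.congr (by simp [hn, n1, hc, h]), by omega, fun _ => ⟨?_, h3, ?_⟩⟩
      · simp at h2; omega
      · simpa [h, outOf, hw] using h4
  | @op q v k f a d r n y h h' ih =>
    intro b c w hw hx
    obtain ⟨m, y', h1, h2, h3⟩ := ih (b || decide (d = 0)) (dn c)
      (update w (2 * d + 1) (f fun i => v (a i))) (upd (by omega) hw _ _) (fun j => by
        rw [update_of_ne, hx]; unfold rn; split_ifs <;> omega)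
    have := h'.pos
    refine ⟨m + 1, y', .op (k := k) (f := f) (a := fun i => rn 1 b (a i)) (d := 2 * d + 1)
      (by simp only [hn, n1, h]; rfl) (by simpa only [hw] using h1), fun hh => ?_, fun hh => ?_⟩
    · have := h2 (by simp only [dn]; omega); omega
    · have := h3 (by simp only [dn]; omega); exact ⟨by omega, this.2⟩
  | @test q v k p a r r' n y h h' ih =>
    intro b c w hw hx
    obtain ⟨m, y', h1, h2, h3⟩ := ih b (dn c) w hw hx
    have := h'.pos
    refine ⟨m + 1, y', .test (k := k) (p := p) (a := fun i => rn 1 b (a i))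
      (r := .inl (r, b, dn c)) (s := .inl (r', b, dn c))
      (by simp only [hn, n1, h]) ?_, fun hh => ?_, fun hh => ?_⟩
    · simp only [hw]
      split_ifs at h1 ⊢ <;> exact h1
    · have := h2 (by simp only [dn]; omega); omega
    · have := h3 (by simp only [dn]; omega); exact ⟨by omega, this.2⟩

theorem hn_ok {F : Interp} (hP : ∀ q, (P q).Ok F) (hR : ∀ g, (R g).Ok F) (s : HQ Q G D) :
    (hn D P R g0 s).Ok F := by
  have a2 : ∀ s g b c, (n2 D P R s g b c).Ok F := by
    intro s g b c
    have := hR g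
    unfold n2
    split_ifs
    · trivial
    · split <;> simp_all [Node.Ok]
  rcases s with ⟨q, b, c⟩ | ⟨s, g, b, c⟩
  · have := hP q
    simp only [hn, n1]
    split
    · split_ifs
      · trivial
      · exact a2 _ _ _ _
    · simp_all [Node.Ok]
    · simp_all [Node.Ok]
  · exact a2 _ _ _ _

end pos

theorem pos {F : Interp} (hF : Universal F) {f g t : ℕ → ℕ} (hg : Computable g)
    (ht : Tendsto t atTop atTop) (e : ∀ᶠ x in atTop, f x = g x) (h : InClass F t f) :
    InClass F t g := by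
  obtain ⟨P, T, h1, h2⟩ := h
  obtain ⟨G, hG⟩ := hF _ hg
  have hG' : ∀ x, ∃ n, G.Out x n (g x) := fun x => (hG x (g x)).1 (by simp)
  choose S hS using hG'
  obtain ⟨N, hN⟩ := eventually_atTop.1 e
  obtain ⟨D, hD⟩ : ∃ D, ∀ x < N, T x ≤ D ∧ S x ≤ D := by
    refine ⟨∑ x ∈ Finset.range N, (T x + S x), fun x hx => ?_⟩
    have := Finset.single_le_sum (f := fun x => T x + S x) (fun _ _ => Nat.zero_le _)
      (Finset.mem_range.2 hx)
    omega
  have := P.fin
  have := G.fin
  let H : Flow F := ⟨HQ P.Q G.Q D, inferInstance, .inl (P.first, false, Fin.last D),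
    hn D P.node G.node G.first, hn_ok D _ _ _ P.ok G.ok⟩
  have key : ∀ x, ∃ m, H.Out x m (g x) ∧ (m = T x ∨ m ≤ 2 * D + 2) := by
    intro x
    obtain ⟨n, e1, r1⟩ := h1 x
    obtain ⟨n', e2, r2⟩ := hS x
    obtain ⟨m, y', a1, a2, a3⟩ := ph1 D P.node G.node G.first r2 r1 false (Fin.last D) (init x)
      (fun j => by unfold rn init; split_ifs <;> simp_all)
      (fun j => by unfold rn init; split_ifs <;> simp_all)
    simp only [Fin.val_last] at a2 a3
    have hy : y' = g x := by
      by_cases hx : x < N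
      · have := hD x hx
        exact (a3 (by omega)).2.1 (by omega)
      · have e3 := hN x (by omega)
        by_cases hn : D < n
        · rw [(a2 hn).2, e3]
        · rcases (a3 (by omega)).2.2 with h | h
          · exact h
          · rw [h, e3]
    refine ⟨m + 1, ⟨m, rfl, hy ▸ a1⟩, ?_⟩
    by_cases hn : D < n
    · left; have := (a2 hn).1; omega
    · right; have := (a3 (by omega)).1; omega
  choose T' k1 k2 using key
  refine ⟨H, T', k1, ?_⟩
  filter_upwards [h2, ht.eventually (eventually_ge_atTop (2 * D + 2))] with x b1 b2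
  rcases k2 x with h | h <;> omega

section univ
open Nat.Partrec Nat.Partrec.Code

def sF : (Fin 1 → ℕ) → ℕ := fun v => v 0 + 1
def eV (v : Fin 3 → ℕ) : Option ℕ := evaln (v 2) (Denumerable.ofNat Code (v 0)) (v 1)
def uF : (Fin 3 → ℕ) → ℕ := fun v => (eV v).getD 0
def tP : (Fin 3 → ℕ) → Bool := fun v => (eV v).isSome

theorem app_prim {n : ℕ} (i : Fin n) : Primrec fun v : Fin n → ℕ => v i :=
  Primrec.fin_app.comp Primrec.id (Primrec.const i)

theorem eV_prim : Primrec eV :=
  primrec_evaln.comp (((app_prim 2).pair ((Primrec.ofNat _).comp (app_prim 0))).pair (app_prim 1))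

def U : Interp where
  Fn := {⟨1, sF⟩, ⟨3, uF⟩}
  Pr := {⟨3, tP⟩}
  fn_rec := by
    rintro f (rfl | rfl)
    · exact (Primrec.succ.comp (app_prim 0)).to_comp
    · exact (Primrec.option_getD.comp eV_prim (Primrec.const 0)).to_comp
  pr_rec := by
    rintro p rfl
    exact (Primrec.option_isSome.comp eV_prim).to_comp

def un (c : ℕ) : Fin (c + 1) ⊕ Fin 3 → Node (Fin (c + 1) ⊕ Fin 3)
  | .inl i => if h : i.1 < c then .op 1 sF ![2] 2 (.inl ⟨i.1 + 1, by omega⟩)
      else .test 3 tP ![2, 0, 3] (.inr 1) (.inr 0)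
  | .inr j => if j = 0 then .op 1 sF ![3] 3 (.inl (Fin.last c))
      else if j = 1 then .op 3 uF ![2, 0, 3] 1 (.inr 2) else .halt 1

def Inv (c x : ℕ) (q : Fin (c + 1) ⊕ Fin 3) (v : ℕ → ℕ) : Prop :=
  v 0 = x ∧ match q with
    | .inl i => v 2 = i.1
    | .inr j => v 2 = c ∧ (j = 1 → (evaln (v 3) (Denumerable.ofNat Code c) x).isSome = true) ∧
        (j = 2 → v 1 ∈ eval (Denumerable.ofNat Code c) x)

theorem un_sound {c x : ℕ} {q : Fin (c + 1) ⊕ Fin 3} {v : ℕ → ℕ} {n y : ℕ}
    (h : Run (un c) q v n y) : Inv c x q v → y ∈ eval (Denumerable.ofNat Code c) x := by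
  induction h with
  | @halt q v o h =>
    rintro ⟨h0, h1⟩
    rcases q with i | j
    · simp only [un] at h; split_ifs at h <;> cases h
    · simp only [un] at h
      split_ifs at h with a b <;> cases h
      exact h1.2.2 (by omega)
  | @op q v k f a d r n y h h' ih =>
    rintro ⟨h0, h1⟩
    refine ih ?_
    rcases q with i | j
    · simp only [un] at h
      split_ifs at h <;> cases h
      exact ⟨by simpa using h0, by simpa [sF] using h1⟩
    · simp only [un] at h
      split_ifs at h with a b <;> cases h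
      · exact ⟨by simpa using h0, by simpa using h1.1⟩
      · refine ⟨by simpa using h0, by simpa using h1.1, by simp, fun _ => ?_⟩
        obtain ⟨z, hz⟩ := Option.isSome_iff_exists.1 (h1.2.1 b)
        have : uF (fun i => v (![2, 0, 3] i)) = z := by simp [uF, eV, h0, h1.1, hz]
        rw [update_self, this]
        exact evaln_sound hz
  | @test q v k p a r r' n y h h' ih =>
    rintro ⟨h0, h1⟩
    refine ih ?_
    rcases q with i | j
    · simp only [un] at h
      split_ifs at h with a <;> cases h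
      have e : v 2 = c := by have := i.2; simp only at h1; omega
      split_ifs with b
      · exact ⟨h0, e, fun _ => by simpa [tP, eV, h0, e] using b, by simp⟩
      · exact ⟨h0, e, by simp, by simp⟩
    · simp only [un] at h
      split_ifs at h <;> cases h

theorem un_loop {c x K : ℕ} (hK : (evaln K (Denumerable.ofNat Code c) x).isSome = true) :
    ∀ (j : ℕ) (v : ℕ → ℕ), v 0 = x → v 2 = c → v 3 + j = K →
      ∃ n y, Run (un c) (.inl (Fin.last c)) v n y := by
  have fin : ∀ v : ℕ → ℕ, ∃ n y, Run (un c) (.inr 1) v n y := fun v =>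
    ⟨_, _, .op (k := 3) (f := uF) (a := ![2, 0, 3]) (d := 1) (r := .inr 2) (by simp [un])
      (.halt (o := 1) (by simp [un]))⟩
  intro j
  induction j with
  | zero =>
    intro v h0 h2 h3
    obtain ⟨n, y, h⟩ := fin v
    refine ⟨n + 1, y, .test (k := 3) (p := tP) (a := ![2, 0, 3]) (r := .inr 1) (s := .inr 0)
      (by simp [un]) ?_⟩
    rw [if_pos (by simpa [tP, eV, h0, h2, show v 3 = K by omega] using hK)]
    exact h
  | succ j ih =>
    intro v h0 h2 h3
    by_cases b : tP (fun i => v (![2, 0, 3] i)) = true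
    · obtain ⟨n, y, h⟩ := fin v
      refine ⟨n + 1, y, .test (k := 3) (p := tP) (a := ![2, 0, 3]) (r := .inr 1) (s := .inr 0)
        (by simp [un]) ?_⟩
      rw [if_pos b]
      exact h
    · obtain ⟨n, y, h⟩ := ih (update v 3 (sF fun i => v (![3] i))) (by simpa using h0)
        (by simpa using h2) (by simp [sF]; omega)
      refine ⟨n + 1 + 1, y, .test (k := 3) (p := tP) (a := ![2, 0, 3]) (r := .inr 1) (s := .inr 0)
        (by simp [un]) ?_⟩
      rw [if_neg b]
      exact .op (k := 1) (f := sF) (a := ![3]) (d := 3) (by simp [un]) h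

theorem un_pre {c x K : ℕ} (hK : (evaln K (Denumerable.ofNat Code c) x).isSome = true) :
    ∀ (j : ℕ) (i : Fin (c + 1)) (v : ℕ → ℕ), v 0 = x → v 2 = i.1 → v 3 = 0 → i.1 + j = c →
      ∃ n y, Run (un c) (.inl i) v n y := by
  intro j
  induction j with
  | zero =>
    intro i v h0 h2 h3 h4
    obtain rfl : i = Fin.last c := Fin.ext (by simpa using h4)
    exact un_loop hK K v h0 (by simpa using h2) (by omega)
  | succ j ih =>
    intro i v h0 h2 h3 h4
    have hi : i.1 < c := by omega
    obtain ⟨n, y, h⟩ := ih ⟨i.1 + 1, by omega⟩ (update v 2 (sF fun i => v (![2] i)))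
      (by simpa using h0) (by simp [sF, h2]) (by simpa using h3) (by simp only; omega)
    exact ⟨_, _, .op (k := 1) (f := sF) (a := ![2]) (d := 2) (by simp [un, hi]) h⟩

theorem U_univ : Universal U := by
  intro φ hφ
  obtain ⟨cd, rfl⟩ := exists_code.1 (Partrec.nat_iff.1 hφ)
  obtain ⟨c, rfl⟩ : ∃ c, cd = Denumerable.ofNat Code c := ⟨Encodable.encode cd, by simp⟩
  have ok : ∀ q, (un c q).Ok U := by
    rintro (i | j) <;> simp only [un] <;> split_ifs <;> simp [Node.Ok, U]
  have inv : ∀ x, Inv c x (.inl 0) (init x) := fun x => ⟨by simp [init], by simp [init]⟩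
  refine ⟨⟨_, inferInstance, .inl 0, un c, ok⟩, fun x y => ⟨fun h => ?_, ?_⟩⟩
  · obtain ⟨K, hK⟩ := evaln_complete.1 h
    obtain ⟨n, y', h'⟩ := un_pre (c := c) (x := x) (K := K) (by rw [Option.mem_def.1 hK]; rfl) c 0
      (init x) (by simp [init]) (by simp [init]) (by simp [init]) (by simp)
    obtain rfl := Part.mem_unique h (un_sound h' (inv x))
    exact ⟨n + 1, n, rfl, h'⟩
  · rintro ⟨n, m, -, h⟩
    exact un_sound h (inv x)

end univ

section fin

def Beh (F : Interp) (c : ℕ) (S : Set (ℕ → ℕ)) : Set (Set (ℕ × ℕ)) :=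
  {B | ∃ (Q : Type) (nd : Q → Node Q), (∀ q, (nd q).Ok F) ∧ ∃ (q : Q) (W : ℕ → ℕ → ℕ),
    (∀ j, W j ∈ S) ∧ B = {z | ∃ n ≤ c, Run nd q (fun j => W j z.1) n z.2}}

theorem Run.inv_op {Q : Type} {nd : Q → Node Q} {q r : Q} {v : ℕ → ℕ} {n y k d : ℕ}
    {f : (Fin k → ℕ) → ℕ} {a : Fin k → ℕ} (e : nd q = .op k f a d r) (h : Run nd q v n y) :
    ∃ m, n = m + 1 ∧ Run nd r (update v d (f fun i => v (a i))) m y := by
  cases h with
  | halt h => rw [e] at h; cases h
  | op h h' => rw [e] at h; cases h; exact ⟨_, rfl, h'⟩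
  | test h h' => rw [e] at h; cases h

theorem Run.inv_test {Q : Type} {nd : Q → Node Q} {q r s : Q} {v : ℕ → ℕ} {n y k : ℕ}
    {p : (Fin k → ℕ) → Bool} {a : Fin k → ℕ} (e : nd q = .test k p a r s) (h : Run nd q v n y) :
    ∃ m, n = m + 1 ∧ Run nd (if p (fun i => v (a i)) = true then r else s) v m y := by
  cases h with
  | halt h => rw [e] at h; cases h
  | op h h' => rw [e] at h; cases h
  | test h h' => rw [e] at h; cases h; exact ⟨_, rfl, h'⟩

theorem Run.det {Q : Type} {nd : Q → Node Q} {q : Q} {v : ℕ → ℕ} {n y : ℕ} (h : Run nd q v n y) :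
    ∀ {n' y' : ℕ}, Run nd q v n' y' → y = y' := by
  induction h with
  | halt h => intro n' y' h'; exact (h'.of_halt h).symm
  | op h _ ih => intro n' y' h'; obtain ⟨m, -, h2⟩ := h'.inv_op h; exact ih h2
  | test h _ ih => intro n' y' h'; obtain ⟨m, -, h2⟩ := h'.inv_test h; exact ih h2

theorem comp_fin {β : Type} {A : Set (Σ k : ℕ, (Fin k → ℕ) → β)} (hA : A.Finite)
    {S : Set (ℕ → ℕ)} (hS : S.Finite) :
    {h : ℕ → β | ∃ f ∈ A, ∃ s : Fin f.1 → ℕ → ℕ, (∀ i, s i ∈ S) ∧
      h = fun x => f.2 fun i => s i x}.Finite := by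
  refine (hA.biUnion (t := fun f => (fun (s : Fin f.1 → ℕ → ℕ) x => f.2 fun i => s i x) ''
    {s | ∀ i, s i ∈ S}) fun f _ => (Set.Finite.pi' fun _ => hS).image _).subset ?_
  rintro h ⟨f, hf, s, hs, rfl⟩
  exact Set.mem_biUnion hf ⟨s, hs, rfl⟩

theorem beh_fin {F : Interp} (h1 : F.Fn.Finite) (h2 : F.Pr.Finite) (c : ℕ) :
    ∀ S : Set (ℕ → ℕ), S.Finite → (Beh F c S).Finite := by
  induction c with
  | zero =>
    intro S _
    refine (Set.finite_singleton ∅).subset ?_
    rintro B ⟨Q, nd, -, q, W, -, rfl⟩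
    ext z
    simp only [Set.mem_setOf_eq, Set.mem_empty_iff_false, iff_false]
    rintro ⟨n, hn, h⟩
    have := h.pos
    omega
  | succ c ih =>
    intro S hS
    have a1 := hS.image fun (s : ℕ → ℕ) => {z : ℕ × ℕ | z.2 = s z.1}
    have a2 := ih _ (hS.union (comp_fin h1 hS))
    have a3 := (((comp_fin h2 hS).prod ((ih S hS).prod (ih S hS))).image
      fun (u : (ℕ → Bool) × Set (ℕ × ℕ) × Set (ℕ × ℕ)) =>
        {z : ℕ × ℕ | if u.1 z.1 = true then z ∈ u.2.1 else z ∈ u.2.2})
    refine (a1.union (a2.union a3)).subset ?_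
    rintro B ⟨Q, nd, ok, q, W, hW, rfl⟩
    have okq := ok q
    rcases e : nd q with ⟨k, f, a, d, r⟩ | ⟨k, p, a, r, s⟩ | o
    · rw [e] at okq
      refine .inr (.inl ⟨Q, nd, ok, r, update W d fun x => f fun i => W (a i) x, fun j => ?_, ?_⟩)
      · by_cases hj : j = d
        · subst hj
          rw [update_self]
          exact .inr ⟨⟨k, f⟩, okq, fun i => W (a i), fun i => hW _, rfl⟩
        · rw [update_of_ne hj]; exact .inl (hW _)
      · ext z
        have e2 : (fun j => update W d (fun x => f fun i => W (a i) x) j z.1) =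
            update (fun j => W j z.1) d (f fun i => W (a i) z.1) := by
          funext j
          by_cases hj : j = d
          · subst hj; simp
          · simp [update_of_ne hj]
        simp only [Set.mem_setOf_eq, e2]
        constructor
        · rintro ⟨n, hn, h⟩
          obtain ⟨m, rfl, h'⟩ := h.inv_op e
          exact ⟨m, by omega, h'⟩
        · rintro ⟨n, hn, h⟩
          exact ⟨n + 1, by omega, .op e h⟩
    · rw [e] at okq
      refine .inr (.inr ⟨(fun x => p fun i => W (a i) x, _, _),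
        ⟨⟨⟨k, p⟩, okq, fun i => W (a i), fun i => hW _, rfl⟩, ⟨Q, nd, ok, r, W, hW, rfl⟩,
          ⟨Q, nd, ok, s, W, hW, rfl⟩⟩, ?_⟩)
      ext z
      simp only [Set.mem_setOf_eq]
      constructor
      · intro h
        split_ifs at h with b
        · obtain ⟨n, hn, h⟩ := h
          exact ⟨n + 1, by omega, .test e (by rw [if_pos b]; exact h)⟩
        · obtain ⟨n, hn, h⟩ := h
          exact ⟨n + 1, by omega, .test e (by rw [if_neg b]; exact h)⟩
      · rintro ⟨n, hn, h⟩
        obtain ⟨m, rfl, h'⟩ := h.inv_test e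
        split_ifs at h' ⊢ with b
        · exact ⟨m, by omega, h'⟩
        · exact ⟨m, by omega, h'⟩
    · refine .inl ⟨W o, hW _, ?_⟩
      ext z
      simp only [Set.mem_setOf_eq]
      constructor
      · intro h
        exact ⟨1, by omega, h ▸ Run.halt (v := fun j => W j z.1) e⟩
      · rintro ⟨n, hn, h⟩
        exact Run.of_halt (v := fun j => W j z.1) e h

theorem neg_fin {F : Interp} (h1 : F.Fn.Finite) (h2 : F.Pr.Finite) {t : ℕ → ℕ}
    (ht : ¬ Tendsto t atTop atTop) (f : ℕ → ℕ) : ∃ x z, ¬ InClass F t (update f x z) := by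
  obtain ⟨c, hc⟩ : ∃ c, ∃ᶠ x in atTop, t x ≤ c := by
    by_contra hh
    push Not at hh
    exact ht (tendsto_atTop.2 fun b => (hh b).mono fun x hx => hx.le)
  have hS : ({fun x => x, fun _ => 0} : Set (ℕ → ℕ)).Finite := Set.toFinite _
  let G : Set (Set (ℕ × ℕ)) := {B ∈ Beh F c {fun x => x, fun _ => 0} |
    ∀ᶠ x in atTop, t x ≤ c → ∃ y, (x, y) ∈ B}
  have hG : G.Finite := (beh_fin h1 h2 c _ hS).subset fun B hB => hB.1
  have ev : ∀ᶠ x in atTop, ∀ B ∈ G, t x ≤ c → ∃ y, (x, y) ∈ B :=
    (eventually_all_finite hG).2 fun B hB => hB.2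
  obtain ⟨x, hx, hx'⟩ := (hc.and_eventually ev).exists
  choose! Y hY using fun B hB => hx' B hB hx
  obtain ⟨z, hz⟩ := (hG.image Y).exists_notMem
  refine ⟨x, z, ?_⟩
  rintro ⟨P, T, a1, a2⟩
  let B : Set (ℕ × ℕ) := {u | ∃ n ≤ c, Run P.node P.first (init u.1) n u.2}
  have hB : B ∈ G := by
    refine ⟨⟨P.Q, P.node, P.ok, P.first, fun j x => init x j, fun j => ?_, rfl⟩, ?_⟩
    · by_cases hj : j = 0
      · left; funext x; simp [init, hj]
      · right; funext x; simp [init, hj]
    · filter_upwards [a2] with u b1 b2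
      obtain ⟨m, e, h⟩ := a1 u
      exact ⟨_, m, by omega, h⟩
  obtain ⟨n, -, h⟩ := hY B hB
  obtain ⟨m, -, h'⟩ := a1 x
  rw [update_self] at h'
  exact hz ⟨B, hB, h.det h'⟩

end fin

end Pool.Agent.H16.Fl
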