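import Mathlib

namespace Pool.Agent.H16.FlatProd

open Finset

section gen
variable {α : Type} [DecidableEq α]

def E (S : Finset α) : Finset (Sym2 α) := S.sym2.filter (fun e => ¬ e.IsDiag)

theorem E_insert (S : Finset α) (v : α) (hv : v ∉ S) :
    E (insert v S) = S.image (fun u => s(v, u)) ∪ E S := by
  ext e
  induction e using Sym2.ind with
  | _ x y =>
    simp only [E, mem_filter, mk_mem_sym2_iff, mem_insert, Sym2.mk_isDiag_iff, mem_union,
      mem_image, Sym2.eq_iff]
    constructor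
    · rintro ⟨⟨rfl | hx, rfl | hy⟩, h⟩
      · exact absurd rfl h
      · exact Or.inl ⟨y, hy, Or.inl ⟨rfl, rfl⟩⟩
      · exact Or.inl ⟨x, hx, Or.inr ⟨rfl, rfl⟩⟩
      · exact Or.inr ⟨⟨hx, hy⟩, h⟩
    · rintro (⟨u, hu, ⟨rfl, rfl⟩ | ⟨rfl, rfl⟩⟩ | ⟨⟨hx, hy⟩, h⟩)
      · exact ⟨⟨Or.inl rfl, Or.inr hu⟩, fun h => hv (h ▸ hu)⟩
      · exact ⟨⟨Or.inr hu, Or.inl rfl⟩, fun h => hv (h ▸ hu)⟩
      · exact ⟨⟨Or.inr hx, Or.inr hy⟩, h⟩

theorem E_disj (S : Finset α) (v : α) (hv : v ∉ S) :
    Disjoint (S.image (fun u => s(v, u))) (E S) := by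
  rw [disjoint_left]
  intro e he he2
  obtain ⟨u, -, rfl⟩ := mem_image.1 he
  simp only [E, mem_filter, mk_mem_sym2_iff] at he2
  exact hv he2.1.1

omit [DecidableEq α] in
theorem mk_inj (v : α) (S : Finset α) : Set.InjOn (fun u => s(v, u)) (S : Set α) :=
  fun _ _ _ _ h => Sym2.congr_right.1 h

theorem sum_E (S : Finset α) (v : α) (hv : v ∉ S) (f : Sym2 α → ℕ) :
    ∑ e ∈ E (insert v S), f e = ∑ u ∈ S, f s(v, u) + ∑ e ∈ E S, f e := by
  rw [E_insert S v hv, sum_union (E_disj S v hv), sum_image (mk_inj v S)]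

theorem prod_E (S : Finset α) (v : α) (hv : v ∉ S) (f : Sym2 α → ℝ) :
    ∏ e ∈ E (insert v S), f e = (∏ u ∈ S, f s(v, u)) * ∏ e ∈ E S, f e := by
  rw [E_insert S v hv, prod_union (E_disj S v hv), prod_image (mk_inj v S)]

theorem card_E (S : Finset α) : (E S).card = S.card.choose 2 := by
  induction S using Finset.induction_on with
  | empty => simp [E]
  | insert v S hv ih =>
    have := sum_E S v hv (fun _ => 1)
    simp only [sum_const, smul_eq_mul, mul_one] at this
    rw [this, ih, card_insert_of_notMem hv, Nat.choose_succ_succ, Nat.choose_one_right]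

theorem ch2 (j : ℕ) : (j + 1).choose 2 = j + j.choose 2 := by
  rw [Nat.choose_succ_succ, Nat.choose_one_right]

end gen

def tt (r s : ℕ) : ℕ := ∑ j ∈ range s, (j - j / r)

theorem cnt (r : ℕ) (hr : 1 ≤ r) {n : ℕ} (v : Fin n) :
    (univ.filter (fun u : Fin n => u < v ∧ u.val % r = v.val % r)).card = v.val / r := by
  have h1 := Nat.count_modEq_card v.val (by omega : 0 < r) v.val
  rw [if_neg (lt_irrefl _), add_zero, Nat.count_eq_card_filter_range] at h1
  rw [← h1]
  apply card_nbij (fun u => u.val)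
  · intro u hu
    simp only [coe_filter, mem_univ, true_and, Set.mem_ofPred_eq, mem_range] at hu ⊢
    exact hu
  · intro u _ u' _ h
    exact Fin.ext h
  · intro x hx
    simp only [coe_filter, mem_range, Set.mem_ofPred_eq] at hx
    refine ⟨⟨x, hx.1.trans v.2⟩, ?_, rfl⟩
    simp only [coe_filter, mem_univ, true_and, Set.mem_ofPred_eq]
    exact hx

theorem cnt' (r : ℕ) (hr : 1 ≤ r) {n : ℕ} (v : Fin n) :
    (univ.filter (fun u : Fin n => u < v ∧ u.val % r ≠ v.val % r)).card = v.val - v.val / r := by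
  have h1 := card_filter_add_card_filter_not (s := univ.filter (fun u : Fin n => u < v))
    (fun u => u.val % r = v.val % r)
  rw [filter_filter, filter_filter, cnt r hr v] at h1
  have h2 : (univ.filter (fun u : Fin n => u < v)).card = v.val := by
    rw [← Fin.card_Iio]; congr 1; ext u; simp
  simp only [Ne]
  omega

theorem tt_eq (r : ℕ) (hr : 1 ≤ r) (s : ℕ) :
    ((univ : Finset (Fin s × Fin s)).filter
      (fun p => p.1 < p.2 ∧ p.1.val % r ≠ p.2.val % r)).card = tt r s := by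
  rw [card_eq_sum_card_fiberwise (f := Prod.snd) (t := univ) (fun _ _ => mem_univ _), tt,
    ← Fin.sum_univ_eq_sum_range (fun j => j - j / r)]
  apply sum_congr rfl
  intro v _
  rw [← cnt' r hr v]
  apply card_nbij (fun p => p.1)
  · intro p hp
    simp only [coe_filter, mem_filter, mem_univ, true_and, Set.mem_ofPred_eq] at hp ⊢
    rw [← hp.2]; exact hp.1
  · intro p hp p' hp' h
    simp only [coe_filter, mem_filter, mem_univ, true_and, Set.mem_ofPred_eq] at hp hp'
    exact Prod.ext h (hp.2.trans hp'.2.symm)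
  · intro u hu
    simp only [coe_filter, mem_univ, true_and, Set.mem_ofPred_eq] at hu
    exact ⟨(u, v), by simpa using hu, rfl⟩

def tw (r a : ℕ) {n : ℕ} : Sym2 (Fin n) → ℕ :=
  Sym2.lift ⟨fun u v => if u.val % r = v.val % r then a else a + 1, fun u v => by
    simp only [eq_comm]⟩

theorem tw_sum (r a : ℕ) (hr : 1 ≤ r) {n : ℕ} (j : ℕ) : ∀ S : Finset (Fin n), S.card = j →
    ∑ e ∈ E S, tw r a e ≤ a * j.choose 2 + tt r j := by
  induction j with
  | zero => intro S hS; rw [card_eq_zero.1 hS]; simp [E]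
  | succ j ih =>
    intro S hS
    obtain ⟨c, -, hc⟩ := exists_lt_card_fiber_of_mul_lt_card_of_maps_to (s := S) (t := range r)
      (f := fun u => u.val % r) (n := j / r) (fun u _ => mem_range.2 (Nat.mod_lt _ (by omega)))
      (by rw [card_range, hS]; exact Nat.lt_succ_of_le (Nat.mul_div_le j r))
    obtain ⟨v, hv⟩ := card_pos.1 (lt_of_le_of_lt (Nat.zero_le _) hc)
    obtain ⟨hvS, hvc⟩ := mem_filter.1 hv
    have h1 : (S.erase v).card = j := by rw [card_erase_of_mem hvS, hS]; rfl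
    rw [← insert_erase hvS, sum_E _ v (notMem_erase v S)]
    have h2 := ih _ h1
    have h3 : j / r ≤ ((S.erase v).filter (fun u => v.val % r = u.val % r)).card := by
      rw [filter_erase, card_erase_of_mem (by simp [hvS])]
      have : S.filter (fun u => v.val % r = u.val % r) = S.filter (fun u => u.val % r = c) := by
        apply filter_congr; intro u _; rw [hvc, eq_comm]
      rw [this]; omega
    have h4 := card_filter_add_card_filter_not (s := S.erase v) (fun u => v.val % r = u.val % r)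
    have h5 : ∑ u ∈ S.erase v, tw r a s(v, u) =
        a * j + ((S.erase v).filter (fun u => ¬ v.val % r = u.val % r)).card := by
      rw [card_filter, ← h1, card_eq_sum_ones, mul_sum, ← sum_add_distrib]
      apply sum_congr rfl
      intro u _
      simp only [tw, Sym2.lift_mk]
      split_ifs <;> simp
    rw [h5, tt, sum_range_succ, ← tt, ch2, mul_add]
    omega

noncomputable def lam (r a : ℕ) : ℝ := a * (((a : ℝ) + 1) / a) ^ (((r : ℝ) - 1) / r)

theorem lam_eq (r a : ℕ) (hr : 1 ≤ r) (ha : 1 ≤ a) :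
    (a : ℝ) ^ ((1 : ℝ) / r) * ((a : ℝ) + 1) ^ (((r : ℝ) - 1) / r) = lam r a := by
  have h1 : (0 : ℝ) < a := by exact_mod_cast ha
  have h2 : (0 : ℝ) < r := by exact_mod_cast hr
  rw [lam, Real.div_rpow (by positivity) h1.le]
  have : (1 : ℝ) / r = 1 - ((r : ℝ) - 1) / r := by field_simp; ring
  rw [this, Real.rpow_sub h1, Real.rpow_one]
  ring

theorem rho_gt (a : ℕ) (ha : 1 ≤ a) : 1 < ((a : ℝ) + 1) / a := by
  have h1 : (0 : ℝ) < a := by exact_mod_cast ha
  rw [lt_div_iff₀ h1]; linarith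

theorem one_le_lam (r a : ℕ) (hr : 1 ≤ r) (ha : 1 ≤ a) : 1 ≤ lam r a := by
  have h1 : (1 : ℝ) ≤ a := by exact_mod_cast ha
  have h2 : (1 : ℝ) ≤ r := by exact_mod_cast hr
  have := Real.one_le_rpow (rho_gt a ha).le (z := ((r : ℝ) - 1) / r)
    (div_nonneg (by linarith) (by linarith))
  rw [lam]; nlinarith

theorem lam_pow (r a j : ℕ) (ha : 1 ≤ a) :
    lam r a ^ j = (a : ℝ) ^ j * (((a : ℝ) + 1) / a) ^ ((((r : ℝ) - 1) / r) * j) := by
  rw [lam, mul_pow, Real.rpow_mul_natCast (by linarith [rho_gt a ha])]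

theorem tw_prod (r a : ℕ) (hr : 1 ≤ r) (ha : 1 ≤ a) {n : ℕ} (j : ℕ) (hj : j ≤ n) :
    lam r a ^ j.choose 2 ≤
      ∏ e ∈ E (univ.filter (fun u : Fin n => u.val < j)), (tw r a e : ℝ) := by
  induction j with
  | zero => simp [E]
  | succ j ih =>
    have h0 : (0 : ℝ) < a := by exact_mod_cast ha
    have hr' : (0 : ℝ) < r := by exact_mod_cast hr
    obtain ⟨v, rfl⟩ : ∃ v : Fin n, v.val = j := ⟨⟨j, hj⟩, rfl⟩
    have h1 : univ.filter (fun u : Fin n => u.val < v.val + 1) =
        insert v (univ.filter (fun u : Fin n => u.val < v.val)) := by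
      ext u
      simp only [mem_filter, mem_univ, true_and, mem_insert, Fin.ext_iff]
      omega
    rw [h1, prod_E _ v (by simp), ch2, pow_add]
    apply mul_le_mul _ (ih (by omega)) (pow_nonneg (by linarith [one_le_lam r a hr ha]) _)
      (prod_nonneg fun _ _ => Nat.cast_nonneg _)
    have h2 : ∏ u ∈ univ.filter (fun u : Fin n => u.val < v.val), (tw r a s(v, u) : ℝ) =
        ∏ u ∈ univ.filter (fun u : Fin n => u.val < v.val),
          (a * if u.val % r ≠ v.val % r then ((a : ℝ) + 1) / a else 1) := by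
      apply prod_congr rfl
      intro u _
      simp only [tw, Sym2.lift_mk]
      by_cases h : v.val % r = u.val % r
      · simp [h]
      · rw [if_neg h, if_pos (Ne.symm h)]; push_cast; field_simp
    have h3 : (univ.filter (fun u : Fin n => u.val < v.val)).card = v.val := by
      rw [← Fin.card_Iio]; congr 1; ext u; simp
    rw [h2, prod_mul_distrib, prod_const, h3, prod_ite, prod_const, prod_const_one, mul_one,
      filter_filter, lam_pow r a _ ha]
    apply mul_le_mul_of_nonneg_left _ (by positivity)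
    rw [← Real.rpow_natCast]
    apply Real.rpow_le_rpow_of_exponent_le (rho_gt a ha).le
    erw [cnt' r hr v]
    rw [Nat.cast_sub (Nat.div_le_self _ _)]
    have := Nat.cast_div_le (α := ℝ) (m := v.val) (n := r)
    have e : ((r : ℝ) - 1) / r * v.val = v.val - v.val / r := by field_simp
    linarith

theorem amgm (a x : ℕ) (ha : 1 ≤ a) : (x : ℝ) ≤ a * (((a : ℝ) + 1) / a) ^ ((x : ℝ) - a) := by
  have h0 : (0 : ℝ) < a := by exact_mod_cast ha
  have hρ := rho_gt a ha
  rcases le_total a x with h | h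
  · obtain ⟨k, rfl⟩ := Nat.exists_eq_add_of_le h
    rw [show ((a + k : ℕ) : ℝ) - a = k by push_cast; ring, Real.rpow_natCast]
    have := one_add_mul_le_pow (a := 1 / (a : ℝ)) (by linarith [one_div_pos.2 h0]) k
    rw [show ((a : ℝ) + 1) / a = 1 + 1 / a by field_simp]
    calc ((a + k : ℕ) : ℝ) = a * (1 + k * (1 / a)) := by push_cast; field_simp
      _ ≤ _ := mul_le_mul_of_nonneg_left this h0.le
  · obtain ⟨k, hk⟩ := Nat.exists_eq_add_of_le h
    have key : ∀ k : ℕ, ((a : ℝ) - k) * (((a : ℝ) + 1) / a) ^ k ≤ a := by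
      intro k
      induction k with
      | zero => simp
      | succ k ih =>
        refine le_trans ?_ ih
        rw [pow_succ, mul_comm (_ ^ k), ← mul_assoc]
        apply mul_le_mul_of_nonneg_right _ (by positivity)
        rw [← mul_div_assoc, div_le_iff₀ h0]
        push_cast
        nlinarith [(Nat.cast_nonneg k : (0 : ℝ) ≤ k)]
    have e : (x : ℝ) = a - k := by rw [hk]; push_cast; ring
    rw [e, show (a : ℝ) - k - a = -(k : ℝ) by ring, Real.rpow_neg (by linarith),
      Real.rpow_natCast, ← div_eq_mul_inv, le_div_iff₀ (by positivity)]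
    exact key k

theorem step {α : Type} (r a : ℕ) (hr : 1 ≤ r) (ha : 1 ≤ a) (S : Finset α) (f : α → ℕ)
    (h : lam r a ^ S.card < ∏ u ∈ S, (f u : ℝ)) :
    a * S.card + S.card ≤ ∑ u ∈ S, f u + (S.card - 1) / r := by
  have h0 : (0 : ℝ) < a := by exact_mod_cast ha
  have hr' : (0 : ℝ) < r := by exact_mod_cast hr
  have hρ := rho_gt a ha
  have h1 : ∏ u ∈ S, (f u : ℝ) ≤ ∏ u ∈ S, (a * (((a : ℝ) + 1) / a) ^ ((f u : ℝ) - a)) :=
    prod_le_prod (fun _ _ => Nat.cast_nonneg _) (fun u _ => amgm a (f u) ha)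
  rw [prod_mul_distrib, prod_const, ← Real.rpow_sum_of_pos (by linarith), sum_sub_distrib,
    sum_const, nsmul_eq_mul] at h1
  have h2 := h.trans_le h1
  rw [lam_pow r a _ ha] at h2
  have h3 := (Real.rpow_lt_rpow_left_iff hρ).1 (lt_of_mul_lt_mul_left h2 (by positivity))
  rw [div_mul_eq_mul_div, div_lt_iff₀ hr'] at h3
  obtain ⟨y, hy⟩ : ∃ y, y = (S.card - 1) / r := ⟨_, rfl⟩
  have h4 : S.card ≤ r * (y + 1) := by
    have := Nat.lt_mul_div_succ (S.card - 1) (show 0 < r by omega)
    rw [← hy] at this; omega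
  rw [← hy]
  have h5 : (S.card : ℝ) ≤ r * (y + 1) := by exact_mod_cast h4
  have h6 : (a : ℝ) * S.card + S.card < (∑ u ∈ S, (f u : ℝ)) + y + 1 := by
    apply lt_of_mul_lt_mul_right _ hr'.le
    nlinarith
  have h7 : a * S.card + S.card < ∑ u ∈ S, f u + y + 1 := by exact_mod_cast h6
  omega

section up
variable {α : Type} [DecidableEq α]

theorem low_deg (r a s q : ℕ) (hr : 1 ≤ r) (ha : 1 ≤ a) (w : Sym2 α → ℕ) (Q : ℝ) (hQ : 1 ≤ Q)
    (hw : ∀ u v, u ≠ v → (w s(u, v) : ℝ) ≤ Q)
    (hq : q < a * s.choose 2 + tt r s + (s - 1) / r)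
    (hs : ∀ S : Finset α, S.card = s → ∑ e ∈ E S, w e ≤ q) (V : Finset α) (hV : V.Nonempty) :
    ∃ v ∈ V, ∏ u ∈ V.erase v, (w s(v, u) : ℝ) ≤ Q ^ s * lam r a ^ (V.card - 1) := by
  have hl := one_le_lam r a hr ha
  have bd : ∀ (v : α) (T : Finset α), T.card ≤ s + 1 → v ∈ T →
      ∏ u ∈ T.erase v, (w s(v, u) : ℝ) ≤ Q ^ s := by
    intro v T hT hv
    calc ∏ u ∈ T.erase v, (w s(v, u) : ℝ) ≤ ∏ u ∈ T.erase v, Q :=
          prod_le_prod (fun _ _ => Nat.cast_nonneg _)
            (fun u hu => hw v u (ne_of_mem_erase hu).symm)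
      _ = Q ^ (T.erase v).card := prod_const _
      _ ≤ Q ^ s := pow_le_pow_right₀ hQ (by rw [card_erase_of_mem hv]; omega)
  by_cases hm : V.card < s
  · obtain ⟨v, hv⟩ := hV
    refine ⟨v, hv, (bd v V (by omega) hv).trans ?_⟩
    exact le_mul_of_one_le_right (by positivity) (one_le_pow₀ hl)
  by_contra hc
  push Not at hc hm
  have claim : ∀ j ≤ s, ∃ S ⊆ V, S.card = j ∧
      a * j.choose 2 + tt r j + (j - 1) / r ≤ ∑ e ∈ E S, w e := by
    intro j
    induction j with
    | zero => intro _; exact ⟨∅, empty_subset _, rfl, by simp [tt]⟩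
    | succ j ih =>
      intro hj
      obtain ⟨S, hSV, hS, h1⟩ := ih (by omega)
      rcases Nat.eq_zero_or_pos j with rfl | hj0
      · obtain ⟨v, hv⟩ := hV
        exact ⟨{v}, by simpa using hv, rfl, by simp [tt]⟩
      have hex : ∃ v ∈ V \ S, lam r a ^ S.card < ∏ u ∈ S, (w s(v, u) : ℝ) := by
        by_contra hn
        push Not at hn
        have h2 : ∏ v ∈ V \ S, ∏ u ∈ S, (w s(v, u) : ℝ) ≤ ∏ v ∈ V \ S, lam r a ^ S.card :=
          prod_le_prod (fun _ _ => prod_nonneg fun _ _ => Nat.cast_nonneg _) hn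
        have h3 : ∏ u ∈ S, lam r a ^ (V \ S).card < ∏ u ∈ S, ∏ v ∈ V \ S, (w s(v, u) : ℝ) := by
          apply prod_lt_prod_of_nonempty (fun _ _ => by positivity) _ (card_pos.1 (by omega))
          intro u hu
          have h4 := hc u (hSV hu)
          have h5 : V.erase u = (V \ S) ∪ S.erase u := by
            ext x
            simp only [mem_erase, mem_union, mem_sdiff]
            constructor
            · rintro ⟨h, h'⟩
              by_cases hx : x ∈ S
              · exact Or.inr ⟨h, hx⟩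
              · exact Or.inl ⟨h', hx⟩
            · rintro (⟨h, h'⟩ | ⟨h, h'⟩)
              · exact ⟨fun e => h' (e ▸ hu), h⟩
              · exact ⟨h, hSV h'⟩
          rw [h5, prod_union (disjoint_of_subset_right (erase_subset _ _) sdiff_disjoint)] at h4
          have h6 := bd u S (by omega) hu
          have h7 : 0 ≤ ∏ v ∈ V \ S, (w s(u, v) : ℝ) := prod_nonneg fun _ _ => Nat.cast_nonneg _
          have h8 := h4.trans_le (mul_le_mul_of_nonneg_left h6 h7)
          rw [mul_comm] at h8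
          have h9 := lt_of_mul_lt_mul_right h8 (by positivity)
          simp only [Sym2.eq_swap (a := u)] at h9
          refine lt_of_le_of_lt (pow_le_pow_right₀ hl ?_) h9
          rw [card_sdiff_of_subset hSV]; omega
        rw [prod_comm] at h3
        rw [prod_const, ← pow_mul] at h2 h3
        rw [mul_comm] at h3
        exact absurd (h3.trans_le h2) (lt_irrefl _)
      obtain ⟨v, hv, h2⟩ := hex
      obtain ⟨hvV, hvS⟩ := mem_sdiff.1 hv
      have h3 := step r a hr ha S (fun u => w s(v, u)) h2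
      refine ⟨insert v S, insert_subset hvV hSV, by rw [card_insert_of_notMem hvS, hS], ?_⟩
      rw [sum_E S v hvS, tt, sum_range_succ, ← tt, ch2,
        mul_add, Nat.add_sub_cancel]
      rw [hS] at h3
      have := Nat.div_le_self j r
      omega
  obtain ⟨S, -, hS, h1⟩ := claim s le_rfl
  have := hs S hS
  omega

theorem upper (r a s q : ℕ) (hr : 1 ≤ r) (ha : 1 ≤ a) (w : Sym2 α → ℕ) (Q : ℝ) (hQ : 1 ≤ Q)
    (hw : ∀ u v, u ≠ v → (w s(u, v) : ℝ) ≤ Q)
    (hq : q < a * s.choose 2 + tt r s + (s - 1) / r)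
    (hs : ∀ S : Finset α, S.card = s → ∑ e ∈ E S, w e ≤ q) (m : ℕ) :
    ∀ V : Finset α, V.card = m →
      ∏ e ∈ E V, (w e : ℝ) ≤ (Q ^ s) ^ m * lam r a ^ m.choose 2 := by
  have hl := one_le_lam r a hr ha
  induction m with
  | zero => intro V hV; rw [card_eq_zero.1 hV]; simp [E]
  | succ m ih =>
    intro V hV
    obtain ⟨v, hv, h1⟩ := low_deg r a s q hr ha w Q hQ hw hq hs V (card_pos.1 (by omega))
    have h2 := ih (V.erase v) (by rw [card_erase_of_mem hv, hV]; rfl)
    rw [← insert_erase hv, prod_E _ v (notMem_erase v V), ch2]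
    rw [hV, Nat.add_sub_cancel] at h1
    refine (mul_le_mul h1 h2 (prod_nonneg fun _ _ => Nat.cast_nonneg _) (by positivity)).trans ?_
    apply le_of_eq; ring

end up

theorem w_le {n s q : ℕ} (hs2 : 2 ≤ s) (hn : s ≤ n) (w : Sym2 (Fin n) → ℕ)
    (hs : ∀ S : Finset (Fin n), S.card = s → ∑ e ∈ E S, w e ≤ q) (u v : Fin n) (h : u ≠ v) :
    w s(u, v) ≤ q := by
  obtain ⟨S, h1, -, h2⟩ := exists_subsuperset_card_eq (subset_univ ({u, v} : Finset (Fin n)))
    (n := s) (by rw [card_pair h]; exact hs2) (by simpa using hn)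
  refine le_trans ?_ (hs S h2)
  apply single_le_sum (f := w) (fun _ _ => Nat.zero_le _)
  simp only [E, mem_filter, mk_mem_sym2_iff, Sym2.mk_isDiag_iff]
  exact ⟨⟨h1 (by simp), h1 (by simp)⟩, h⟩

theorem E_univ (n : ℕ) :
    (univ : Finset (Sym2 (Fin n))).filter (fun e => ¬ e.IsDiag) = E univ := by
  simp [E]

theorem tt_add (r s : ℕ) (hs : 1 ≤ s) : tt r s + (s - 1) / r ≤ s.choose 2 := by
  obtain ⟨j, rfl⟩ : ∃ j, s = j + 1 := ⟨s - 1, by omega⟩
  have h1 : tt r j ≤ ∑ i ∈ range j, i := sum_le_sum fun i _ => Nat.sub_le _ _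
  rw [sum_range_id, ← Nat.choose_two_right] at h1
  rw [tt, sum_range_succ, ← tt, ch2, Nat.add_sub_cancel]
  have := Nat.div_le_self j r
  omega

theorem lim (K : ℝ) (hK : 0 < K) :
    Filter.Tendsto (fun n : ℕ => K ^ ((n : ℝ) * (1 / (n.choose 2 : ℝ)))) Filter.atTop (nhds 1) := by
  have h1 : Filter.Tendsto (fun n : ℕ => (n : ℝ) * (1 / (n.choose 2 : ℝ))) Filter.atTop
      (nhds 0) := by
    have h2 : Filter.Tendsto (fun n : ℕ => (2 : ℝ) / ((n : ℝ) - 1)) Filter.atTop (nhds 0) :=
      Filter.Tendsto.div_atTop tendsto_const_nhds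
        (Filter.tendsto_atTop_add_const_right _ (-1) tendsto_natCast_atTop_atTop)
    refine h2.congr' ?_
    filter_upwards [Filter.eventually_ge_atTop 2] with n hn
    have h3 : (2 : ℝ) ≤ n := by exact_mod_cast hn
    rw [Nat.cast_choose_two]
    have : (n : ℝ) - 1 ≠ 0 := by linarith
    field_simp
  have := (Real.continuousAt_const_rpow hK.ne' (b := 0)).tendsto.comp h1
  rw [Real.rpow_zero] at this
  exact this

end Pool.Agent.H16.FlatProd
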