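import Mathlib

namespace Pool.Agent.H16.GeoConf

open Set

/-- A straight line of the real plane. -/
def IsLine (s : Set (ℝ × ℝ)) : Prop :=
  ∃ a b c : ℝ, (a ≠ 0 ∨ b ≠ 0) ∧ s = {p | a * p.1 + b * p.2 = c}

/-- `np` points, each on exactly `q` of the lines, and `nl` lines, each through exactly `k` of
the points. -/
def IsConf (np q nl k : ℕ) (P : Finset (ℝ × ℝ)) (L : Finset (Set (ℝ × ℝ))) : Prop :=
  P.card = np ∧ L.card = nl ∧ (∀ l ∈ L, IsLine l) ∧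
    (∀ p ∈ P, {l | l ∈ L ∧ p ∈ l}.ncard = q) ∧ ∀ l ∈ L, {p | p ∈ P ∧ p ∈ l}.ncard = k

end Pool.Agent.H16.GeoConf
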