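import Pool.Agent.H16.GeoConf

namespace Pool.Agent.H16.GeoConf

open Set

def iq (p : ℚ × ℚ) (l : ℚ × ℚ × ℚ) : Prop := l.1 * p.1 + l.2.1 * p.2 = l.2.2

instance : ∀ p l, Decidable (iq p l) := fun p l => by unfold iq; infer_instance

def rp (p : ℚ × ℚ) : ℝ × ℝ := (p.1, p.2)
def rl (l : ℚ × ℚ × ℚ) : Set (ℝ × ℝ) := {p | (l.1 : ℝ) * p.1 + (l.2.1 : ℝ) * p.2 = (l.2.2 : ℝ)}

theorem mem_rl (p l) : rp p ∈ rl l ↔ iq p l := by
  simp only [rp, rl, iq, mem_ofPred_eq]
  exact_mod_cast Iff.rfl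

theorem ncard_image {α β : Type} [Fintype α] (f : α → β) (hf : Function.Injective f)
    (P : α → Prop) [DecidablePred P] (S : Set β) (h : ∀ y, y ∈ S ↔ ∃ x, P x ∧ f x = y) :
    S.ncard = (Finset.univ.filter P).card := by
  have : S = f '' (Finset.univ.filter P : Finset α) := by ext y; simp [h]
  rw [this, Set.ncard_image_of_injective _ hf, Set.ncard_coe_finset]

theorem of_rat {np nl : ℕ} (q k : ℕ) (pt : Fin np → ℚ × ℚ) (ln : Fin nl → ℚ × ℚ × ℚ)
    (h1 : ∀ i j, pt i = pt j → i = j)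
    (h2 : ∀ l l', (∀ p, iq (pt p) (ln l) ↔ iq (pt p) (ln l')) → l = l')
    (h3 : ∀ l, (ln l).1 ≠ 0 ∨ (ln l).2.1 ≠ 0)
    (h4 : ∀ p, (Finset.univ.filter fun l => iq (pt p) (ln l)).card = q)
    (h5 : ∀ l, (Finset.univ.filter fun p => iq (pt p) (ln l)).card = k) :
    ∃ P L, IsConf np q nl k P L := by
  classical
  have ip : Function.Injective fun i => rp (pt i) := by
    intro i j h
    simp only [rp, Prod.mk.injEq, Rat.cast_inj] at h
    exact h1 i j (Prod.ext h.1 h.2)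
  have il : Function.Injective fun j => rl (ln j) := by
    intro i j h
    refine h2 i j fun p => ?_
    rw [← mem_rl, ← mem_rl]
    simp only at h
    rw [h]
  refine ⟨Finset.univ.image fun i => rp (pt i), Finset.univ.image fun j => rl (ln j), ?_, ?_, ?_,
    ?_, ?_⟩
  · rw [Finset.card_image_of_injective _ ip]; simp
  · rw [Finset.card_image_of_injective _ il]; simp
  · intro l hl
    obtain ⟨j, _, rfl⟩ := Finset.mem_image.1 hl
    exact ⟨_, _, _, by exact_mod_cast h3 j, rfl⟩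
  · intro p hp
    obtain ⟨i, _, rfl⟩ := Finset.mem_image.1 hp
    rw [← h4 i]
    apply ncard_image _ il
    intro y
    simp only [mem_ofPred_eq, Finset.mem_image, Finset.mem_univ, true_and]
    constructor
    · rintro ⟨⟨j, rfl⟩, h⟩; exact ⟨j, (mem_rl _ _).1 h, rfl⟩
    · rintro ⟨j, h, rfl⟩; exact ⟨⟨j, rfl⟩, (mem_rl _ _).2 h⟩
  · intro l hl
    obtain ⟨j, _, rfl⟩ := Finset.mem_image.1 hl
    rw [← h5 j]
    apply ncard_image _ ip
    intro y
    simp only [mem_ofPred_eq, Finset.mem_image, Finset.mem_univ, true_and]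
    constructor
    · rintro ⟨⟨i, rfl⟩, h⟩; exact ⟨i, (mem_rl _ _).1 h, rfl⟩
    · rintro ⟨i, h, rfl⟩; exact ⟨⟨i, rfl⟩, (mem_rl _ _).2 h⟩

end Pool.Agent.H16.GeoConf
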