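import Mathlib

namespace Pool.Agent.H16.GridCode

/-- coordinatewise comparison of base-`t` digits -/
def leG (t n a b : ℕ) : Bool := (List.range n).all fun i => decide (a / t ^ i % t ≤ b / t ^ i % t)

theorem leG_iff (t n : ℕ) (x y : Fin n → Fin t) :
    leG t n (finFunctionFinEquiv x) (finFunctionFinEquiv y) = true ↔ x ≤ y := by
  have h : ∀ (z : Fin n → Fin t) (i : Fin n),
      (finFunctionFinEquiv z : ℕ) / t ^ (i : ℕ) % t = z i := by
    intro z i
    rw [← finFunctionFinEquiv_symm_apply_val]; simp
  simp only [leG, List.all_eq_true, List.mem_range, decide_eq_true_eq]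
  constructor
  · intro H i
    have := H i i.2
    rwa [h, h] at this
  · intro H i hi
    rw [h x ⟨i, hi⟩, h y ⟨i, hi⟩]
    exact H ⟨i, hi⟩

/-- a partial order on `Fin k` given by a Boolean relation -/
@[reducible] def mkOrder (k : ℕ) (rel : ℕ → ℕ → Bool) (h1 : ∀ a : Fin k, rel a a = true)
    (h2 : ∀ a b c : Fin k, rel a b = true → rel b c = true → rel a c = true)
    (h3 : ∀ a b : Fin k, rel a b = true → rel b a = true → a = b) : PartialOrder (Fin k) where
  le a b := rel a b = true
  lt a b := rel a b = true ∧ ¬ rel b a = true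
  le_refl := h1
  le_trans := h2
  le_antisymm := h3
  lt_iff_le_not_ge := fun _ _ => Iff.rfl

end Pool.Agent.H16.GridCode
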