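import Mathlib

/-! Posets covered by finitely many complete chains have monotone self-maps with finite range
fixing a given finite set. -/

set_option autoImplicit false

namespace Pool.Agent.H16.Hel

variable {Y : Type} [PartialOrder Y] {J : Type}

/-- descending paths from `y` through the chains listed in the word, ending above `e` -/
def Pth (D : J → Set Y) (e : Option Y) : List J → Y → Prop
  | [], y => ∀ a ∈ e, a ≤ y
  | j :: w, y => ∃ u ∈ D j, u ≤ y ∧ Pth D e w u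

theorem Pth.mono {D : J → Set Y} {e : Option Y} {w : List J} {y y' : Y} (h : Pth D e w y)
    (hy : y ≤ y') : Pth D e w y' := by
  cases w with
  | nil => exact fun a ha => (h a ha).trans hy
  | cons j w =>
    obtain ⟨u, h1, h2, h3⟩ := h
    exact ⟨u, h1, h2.trans hy, h3⟩

theorem Pth.sub {D : J → Set Y} {e : Option Y} {w w' : List J} (hw : w.Sublist w') :
    ∀ y, Pth D e w' y → Pth D e w y := by
  induction hw with
  | slnil => exact fun _ h => h
  | cons a _ ih =>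
    rintro y ⟨u, -, h2, h3⟩
    exact (ih u h3).mono h2
  | cons_cons a _ ih =>
    rintro y ⟨u, h1, h2, h3⟩
    exact ⟨u, h1, h2, ih u h3⟩

theorem Pth.glb {D : J → Set Y}
    (hinf : ∀ j T, T ⊆ D j → T.Nonempty → ∃ a ∈ D j, IsGLB T a) (e : Option Y) (w : List J) :
    ∀ (T : Set Y) (a : Y), T.Nonempty → IsGLB T a → (∀ z ∈ T, Pth D e w z) → Pth D e w a := by
  induction w with
  | nil => exact fun T a _ ha h b hb => ha.2 fun z hz => h z hz b hb
  | cons j w ih =>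
    intro T a hT ha h
    have hne : {u | u ∈ D j ∧ Pth D e w u}.Nonempty := by
      obtain ⟨z, hz⟩ := hT
      obtain ⟨u, h1, -, h3⟩ := h z hz
      exact ⟨u, h1, h3⟩
    obtain ⟨b, hb, hb'⟩ := hinf j _ (fun u hu => hu.1) hne
    refine ⟨b, hb, ha.2 fun z hz => ?_, ih _ b hne hb' fun u hu => hu.2⟩
    obtain ⟨u, h1, h2, h3⟩ := h z hz
    exact (hb'.1 ⟨h1, h3⟩).trans h2

theorem higman [Finite J] {E : Set (Option Y)} (hE : E.Finite) (f : ℕ → Option Y × List J)
    (hf : ∀ n, (f n).1 ∈ E) : ∃ m n, m < n ∧ (f m).1 = (f n).1 ∧ (f m).2.Sublist (f n).2 := by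
  have h1 : (Set.univ : Set J).PartiallyWellOrderedOn (· = ·) :=
    Set.finite_univ.partiallyWellOrderedOn
  have h2 := Set.PartiallyWellOrderedOn.partiallyWellOrderedOn_sublistForall₂ (· = ·) h1
  have h3 : E.PartiallyWellOrderedOn (· = ·) := hE.partiallyWellOrderedOn
  obtain ⟨g, hg⟩ := h3.exists_monotone_subseq hf
  obtain ⟨m, n, hmn, h⟩ := h2.exists_lt (f := fun n => (f (g n)).2) fun n => by simp
  refine ⟨g m, g n, g.strictMono hmn, hg _ _ hmn.le, ?_⟩
  obtain ⟨l, h4, h5⟩ := List.sublistForall₂_iff.1 h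
  rw [List.forall₂_eq_eq_eq] at h4
  exact h4 ▸ h5

theorem stepA [Finite J] (D : J → Set Y) (hcov : ∀ y, ∃ j, y ∈ D j)
    (hch : ∀ j, ∀ a ∈ D j, ∀ b ∈ D j, a ≤ b ∨ b ≤ a)
    (hinf : ∀ j T, T ⊆ D j → T.Nonempty → ∃ a ∈ D j, IsGLB T a)
    (hsup : ∀ j T, T ⊆ D j → T.Nonempty → ∃ a ∈ D j, IsLUB T a)
    (E : Set Y) (hE : E.Finite) :
    ∃ d : Y → Y, Monotone d ∧ (∀ e ∈ E, d e = e) ∧ (Set.range d).IsPWO := by
  classical
  choose c hc using hcov
  let E' : Set (Option Y) := insert none (some '' E)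
  have hE' : E'.Finite := (hE.image _).insert _
  let T : Y → Set Y := fun y => {z | z ∈ D (c y) ∧ ∀ e ∈ E', ∀ w, Pth D e w y → Pth D e w z}
  have hTy : ∀ y, y ∈ T y := fun y => ⟨hc y, fun _ _ _ h => h⟩
  choose d hd1 hd2 using fun y => hinf (c y) (T y) (fun z hz => hz.1) ⟨y, hTy y⟩
  have hdT : ∀ y, d y ∈ T y := fun y =>
    ⟨hd1 y, fun e he w h => Pth.glb hinf e w _ _ ⟨y, hTy y⟩ (hd2 y) fun z hz => hz.2 e he w h⟩
  refine ⟨d, fun y y' hy => ?_, fun e he => ?_, ?_⟩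
  · have hne : {u | u ∈ D (c y) ∧ u ≤ d y'}.Nonempty := by
      obtain ⟨u, h1, h2, -⟩ := (hdT y').2 none (Set.mem_insert _ _) [c y]
        ⟨y, hc y, hy, fun a ha => by simp at ha⟩
      exact ⟨u, h1, h2⟩
    obtain ⟨m, hm, hm'⟩ := hsup (c y) _ (fun u hu => hu.1) hne
    have h1 : m ∈ T y := by
      refine ⟨hm, fun e he w h => ?_⟩
      obtain ⟨u, h1, h2, h3⟩ := (hdT y').2 e he (c y :: w) ⟨y, hc y, hy, h⟩
      exact h3.mono (hm'.1 ⟨h1, h2⟩)
    exact ((hd2 y).1 h1).trans (hm'.2 fun u hu => hu.2)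
  · refine le_antisymm ((hd2 e).1 (hTy e)) ?_
    exact (hdT e).2 (some e) (Set.mem_insert_of_mem _ ⟨e, he, rfl⟩) []
      (fun a ha => by simp at ha; exact ha.ge) e rfl
  · haveI := Fintype.ofFinite J
    have hsub : Set.range d ⊆ ⋃ j ∈ (Finset.univ : Finset J), d '' {y | c y = j} := by
      rintro _ ⟨y, rfl⟩
      simp only [Set.mem_iUnion]
      exact ⟨c y, Finset.mem_univ _, y, rfl, rfl⟩
    refine Set.IsPWO.mono ((Finset.isPWO_bUnion _).2 fun j _ => ?_) hsub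
    refine Set.partiallyWellOrderedOn_iff_exists_lt.2 fun f hf => ?_
    choose y hy1 hy2 using hf
    have hy1' : ∀ n, c (y n) = j := hy1
    by_contra hcon
    push Not at hcon
    have hD : ∀ n, d (y n) ∈ D j := fun n => hy1' n ▸ hd1 (y n)
    have key : ∀ n, ∃ p : Option Y × List J, p.1 ∈ E' ∧ Pth D p.1 p.2 (y n) ∧
        ¬ Pth D p.1 p.2 (d (y (n + 1))) := by
      intro n
      by_contra h
      push Not at h
      have : d (y (n + 1)) ∈ T (y n) :=
        ⟨(hy1' n).symm ▸ hD (n + 1), fun e he w hw => h (e, w) he hw⟩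
      exact hcon n (n + 1) n.lt_succ_self (by rw [← hy2, ← hy2]; exact (hd2 _).1 this)
    choose p hp1 hp2 hp3 using key
    obtain ⟨m, n, hmn, h1, h2⟩ := higman hE' p hp1
    have h3 : Pth D (p m).1 (p m).2 (d (y n)) :=
      Pth.sub h2 _ (h1 ▸ (hdT (y n)).2 _ (hp1 n) _ (hp2 n))
    refine hp3 m (h3.mono ?_)
    rcases (Nat.succ_le_of_lt hmn).eq_or_lt with h | h
    · exact (congrArg (fun k => d (y k)) h).ge
    · rcases hch j _ (hD n) _ (hD (m + 1)) with h' | h'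
      · exact h'
      · exact absurd (by rw [← hy2, ← hy2]; exact h') (hcon _ _ h)

theorem stepA2 [Finite J] (D : J → Set Y) (hcov : ∀ y, ∃ j, y ∈ D j)
    (hch : ∀ j, ∀ a ∈ D j, ∀ b ∈ D j, a ≤ b ∨ b ≤ a)
    (hinf : ∀ j T, T ⊆ D j → T.Nonempty → ∃ a ∈ D j, IsGLB T a)
    (hsup : ∀ j T, T ⊆ D j → T.Nonempty → ∃ a ∈ D j, IsLUB T a)
    (E : Set Y) (hE : E.Finite) :
    ∃ r : Y → Y, Monotone r ∧ (∀ e ∈ E, r e = e) ∧ (Set.range r).Finite := by
  obtain ⟨d, d1, d2, d3⟩ := stepA D hcov hch hinf hsup E hE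
  obtain ⟨u, u1, u2, u3⟩ := stepA (Y := Yᵒᵈ) D hcov (fun j a ha b hb => (hch j a ha b hb).symm)
    hsup hinf E hE
  let u' : Y → Y := u
  have u1' : Monotone u' := fun a b h => u1 (a := b) (b := a) h
  refine ⟨u' ∘ d, u1'.comp d1, fun e he => ?_, ?_⟩
  · show u' (d e) = e
    rw [d2 e he]
    exact u2 e he
  · by_contra hin
    have hin' : (Set.range (u' ∘ d)).Infinite := hin
    let f := hin'.natEmbedding
    have h1 : (Set.range (u' ∘ d)).IsPWO := by
      rw [Set.range_comp]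
      exact d3.image_of_monotone u1'
    obtain ⟨g, hg⟩ := h1.exists_monotone_subseq (f := fun n => (f n).1) fun n => (f n).2
    obtain ⟨m, n, hmn, h⟩ := Set.partiallyWellOrderedOn_iff_exists_lt.1 u3
      (fun n => ((f (g n)).1 : Y)) fun n => by
        obtain ⟨y, hy⟩ := (f (g n)).2
        exact ⟨d y, hy⟩
    have h2 : (f (g m)).1 = (f (g n)).1 := le_antisymm (hg hmn.le) h
    exact hmn.ne (g.injective (f.injective (Subtype.ext h2)))

end Pool.Agent.H16.Hel
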