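import Pool.Agent.H16.Hel1
import Pool.Agent.H37.Dilw

/-! Posets of finite width have monotone self-maps with finite range fixing a finite set. -/

set_option autoImplicit false

namespace Pool.Agent.H16.Hel

open Filter Set

theorem select {Z X : Type} (F : Z → Filter X) (hF : ∀ z, (F z).NeBot) (key : Z → ℤ)
    (R : Z → Z → X → X → Prop)
    (h : ∀ z z', key z < key z' → ∀ᶠ x in F z, ∀ᶠ y in F z', R z z' x y) [Nonempty X]
    (s : Finset Z) : ∀ A : Z → Set X, (∀ z, A z ∈ F z) →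
      ∃ g : Z → X, (∀ z ∈ s, g z ∈ A z) ∧
        ∀ z ∈ s, ∀ z' ∈ s, key z < key z' → R z z' (g z) (g z') := by
  classical
  induction s using Finset.induction_on_min_value key with
  | empty => exact fun A _ => ⟨fun _ => Classical.arbitrary X, by simp, by simp⟩
  | insert a s ha hmin ih =>
    intro A hA
    have h1 : ∀ᶠ x in F a, ∀ z' ∈ s, key a < key z' → ∀ᶠ y in F z', R a z' x y := by
      refine (eventually_all_finset s).2 fun z' _ => ?_
      by_cases hk : key a < key z'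
      · exact (h a z' hk).mono fun x hx _ => hx
      · exact Eventually.of_forall fun x hx => absurd hx hk
    have := hF a
    obtain ⟨x, hx1, hx2⟩ := (h1.and (hA a)).exists
    obtain ⟨g, g1, g2⟩ := ih (fun z => A z ∩ {y | z ∈ s → key a < key z → R a z x y}) fun z => by
      refine inter_mem (hA z) ?_
      by_cases hz : z ∈ s ∧ key a < key z
      · exact (hx1 z hz.1 hz.2).mono fun y hy _ _ => hy
      · exact Eventually.of_forall fun y h1 h2 => absurd ⟨h1, h2⟩ hz
    have hu : ∀ z ∈ s, Function.update g a x z = g z := fun z hz =>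
      Function.update_of_ne (fun e : z = a => ha (e ▸ hz)) _ _
    refine ⟨Function.update g a x, fun z hz => ?_, fun z hz z' hz' hk => ?_⟩
    · rcases Finset.mem_insert.1 hz with rfl | hz
      · rw [Function.update_self]; exact hx2
      · rw [hu z hz]; exact (g1 z hz).1
    · rcases Finset.mem_insert.1 hz' with rfl | hy'
      · rcases Finset.mem_insert.1 hz with rfl | hy
        · exact absurd hk (lt_irrefl _)
        · exact absurd hk (not_lt.2 (hmin z hy))
      · rcases Finset.mem_insert.1 hz with rfl | hy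
        · rw [Function.update_self, hu z' hy']; exact (g1 z' hy').2 hy' hk
        · rw [hu z hy, hu z' hy']; exact g2 z hy z' hy' hk

variable {X : Type} [PartialOrder X]

/-- the upper sets belonging to an ultrafilter -/
def ups (U : Ultrafilter X) : Set (Set X) := {s | IsUpperSet s ∧ s ∈ U}

/-- the completion -/
abbrev Cpl (X : Type) [PartialOrder X] : Type := {s : Set (Set X) // ∃ U, ups U = s}

theorem low_of_le {U V : Ultrafilter X} (h : ups U ⊆ ups V) {y : X} (hy : Iic y ∈ V) :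
    Iic y ∈ U := by
  by_contra hn
  have h1 : (Iic y)ᶜ ∈ ups U := ⟨(isLowerSet_Iic y).compl, Ultrafilter.compl_mem_iff_notMem.2 hn⟩
  exact Ultrafilter.compl_mem_iff_notMem.1 (h h1).2 hy

theorem ups_total {C : Set X} (hC : ∀ a ∈ C, ∀ b ∈ C, a ≤ b ∨ b ≤ a) {U V : Ultrafilter X}
    (hU : C ∈ U) (hV : C ∈ V) : ups U ⊆ ups V ∨ ups V ⊆ ups U := by
  by_contra hn
  push Not at hn
  obtain ⟨s, hs, hs'⟩ := not_subset.1 hn.1
  obtain ⟨t, ht, ht'⟩ := not_subset.1 hn.2
  have h1 : sᶜ ∈ V := Ultrafilter.compl_mem_iff_notMem.2 fun h => hs' ⟨hs.1, h⟩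
  have h2 : tᶜ ∈ U := Ultrafilter.compl_mem_iff_notMem.2 fun h => ht' ⟨ht.1, h⟩
  obtain ⟨a, ⟨a1, a2⟩, a3⟩ := U.nonempty_of_mem (inter_mem (inter_mem hs.2 h2) hU)
  obtain ⟨b, ⟨b1, b2⟩, b3⟩ := V.nonempty_of_mem (inter_mem (inter_mem ht.2 h1) hV)
  rcases hC a a3 b b3 with h | h
  · exact b2 (hs.1 h a1)
  · exact a2 (ht.1 h b1)

theorem lim_of {C : Set X} (T : Set (Cpl X)) (hT : ∀ t ∈ T, ∃ U, C ∈ U ∧ ups U = t.1)
    (F : Ultrafilter T) : ∃ V : Ultrafilter X, C ∈ V ∧
      ∀ s, s ∈ ups V ↔ ∀ᶠ t in (F : Filter T), s ∈ t.1.1 := by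
  choose U hU1 hU2 using fun t : T => hT t.1 t.2
  have hm : ∀ s, s ∈ F.bind U ↔ ∀ᶠ t in (F : Filter T), s ∈ U t := fun s => by
    show s ∈ (F.bind U : Filter X) ↔ _
    exact Filter.mem_bind'
  refine ⟨F.bind U, (hm _).2 (Eventually.of_forall hU1), fun s => ⟨fun h => ?_, fun h => ?_⟩⟩
  · exact ((hm _).1 h.2).mono fun t ht => hU2 t ▸ ⟨h.1, ht⟩
  · obtain ⟨t, ht⟩ := h.exists
    rw [← hU2] at ht
    exact ⟨ht.1, (hm _).2 (h.mono fun t ht => by rw [← hU2] at ht; exact ht.2)⟩

theorem exists_fix (k : ℕ) (c : X → Fin k) (hc : ∀ a b, c a = c b → a ≤ b ∨ b ≤ a)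
    (E : Set X) (hE : E.Finite) [Nonempty X] :
    ∃ r : X → X, Monotone r ∧ (∀ e ∈ E, r e = e) ∧ (Set.range r).Finite := by
  classical
  let C : Fin k → Set X := fun j => {x | c x = j}
  have hC : ∀ j, ∀ a ∈ C j, ∀ b ∈ C j, a ≤ b ∨ b ≤ a := fun j a ha b hb =>
    hc a b (ha.trans hb.symm)
  have hU : ∀ U : Ultrafilter X, ∃ j, C j ∈ U := fun U => by
    obtain ⟨j, hj⟩ := Ultrafilter.eq_pure_of_finite (U.map c)
    exact ⟨j, (Ultrafilter.mem_map (m := c) (s := {j})).1 (hj ▸ Ultrafilter.mem_pure.2 rfl)⟩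
  let D : Fin k → Set (Cpl X) := fun j => {t | ∃ U, C j ∈ U ∧ ups U = t.1}
  have hch : ∀ j, ∀ a ∈ D j, ∀ b ∈ D j, a ≤ b ∨ b ≤ a := by
    rintro j a ⟨U, h1, h2⟩ b ⟨V, h3, h4⟩
    have := ups_total (hC j) h1 h3
    rwa [h2, h4] at this
  let ι : X → Cpl X := fun x => ⟨ups (pure x), _, rfl⟩
  have hι : Monotone ι := fun a b h s hs => ⟨hs.1, hs.1 h hs.2⟩
  obtain ⟨r, r1, r2, r3⟩ := stepA2 D (fun ⟨_, U, h⟩ => (hU U).imp fun j hj => ⟨U, hj, h⟩) hch
    (fun j T hT hne => by
      have := hne.to_subtype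
      have : IsCodirectedOrder T := ⟨fun a b => by
        rcases hch j _ (hT a.2) _ (hT b.2) with h | h
        · exact ⟨a, le_rfl, h⟩
        · exact ⟨b, h, le_rfl⟩⟩
      obtain ⟨V, h1, h2⟩ := lim_of T hT (Ultrafilter.of (atBot : Filter T))
      refine ⟨⟨ups V, V, rfl⟩, ⟨V, h1, rfl⟩, fun t ht s hs => ?_, fun b hb s hs => ?_⟩
      · obtain ⟨u, h3, h4⟩ := (((h2 s).1 hs).and
          (Ultrafilter.of_le atBot (eventually_le_atBot (⟨t, ht⟩ : T)))).exists
        exact h4 h3
      · exact (h2 s).2 (Eventually.of_forall fun t => hb t.2 hs))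
    (fun j T hT hne => by
      have := hne.to_subtype
      have : IsDirectedOrder T := ⟨fun a b => by
        rcases hch j _ (hT a.2) _ (hT b.2) with h | h
        · exact ⟨b, h, le_rfl⟩
        · exact ⟨a, le_rfl, h⟩⟩
      obtain ⟨V, h1, h2⟩ := lim_of T hT (Ultrafilter.of (atTop : Filter T))
      refine ⟨⟨ups V, V, rfl⟩, ⟨V, h1, rfl⟩, fun t ht s hs => ?_, fun b hb s hs => ?_⟩
      · exact (h2 s).2 ((show ∀ᶠ u in (Ultrafilter.of (atTop : Filter T) : Filter T),
          (⟨t, ht⟩ : T) ≤ u from Ultrafilter.of_le atTop (eventually_ge_atTop _)).mono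
            fun u hu => hu hs)
      · obtain ⟨u, h3⟩ := ((h2 s).1 hs).exists
        exact hb u.2 h3)
    (ι '' E) (hE.image _)
  choose U hUz using fun z : Cpl X => z.2
  have hle : ∀ z z' : Cpl X, z ≤ z' → ups (U z) ⊆ ups (U z') := fun z z' h => by
    rw [hUz, hUz]; exact h
  let S : Cpl X → Prop := fun z => ∀ᶠ x in (U z : Filter X), Ici x ∈ U z
  have hI : ∀ z, ¬ S z → ∀ᶠ x in (U z : Filter X), Iic x ∈ U z := fun z hz => by
    obtain ⟨j, hj⟩ := hU (U z)
    have h1 : ∀ᶠ x in (U z : Filter X), Ici x ∈ U z ∨ Iic x ∈ U z := by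
      filter_upwards [hj] with x hx
      exact Ultrafilter.union_mem_iff.1 (mem_of_superset hj fun y hy => hC j x hx y hy)
    exact (Ultrafilter.eventually_or.1 h1).resolve_left hz
  let Z := r3.toFinset
  let n : Cpl X → ℕ := fun z => (Z.filter (· ≤ z)).card
  have hn : ∀ z z', z ≤ z' → n z ≤ n z' := fun z z' h => Finset.card_le_card fun u hu =>
    Finset.mem_filter.2 ⟨(Finset.mem_filter.1 hu).1, (Finset.mem_filter.1 hu).2.trans h⟩
  have hn' : ∀ z z', z' ∈ Z → z < z' → n z < n z' := fun z z' hz h => Finset.card_lt_card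
    ⟨fun u hu => Finset.mem_filter.2
      ⟨(Finset.mem_filter.1 hu).1, (Finset.mem_filter.1 hu).2.trans h.le⟩,
      fun hs => h.not_ge (Finset.mem_filter.1 (hs (Finset.mem_filter.2 ⟨hz, le_rfl⟩))).2⟩
  let key : Cpl X → ℤ := fun z => if S z then n z else -1 - n z
  obtain ⟨g, g1, g2⟩ := select (fun z => (U z : Filter X)) (fun z => inferInstance) key
    (fun z z' x y => (z ≤ z' → x ≤ y) ∧ (z' ≤ z → y ≤ x)) (fun z z' hk => by
      have a1 : z ≤ z' → ∀ᶠ x in (U z : Filter X), ∀ᶠ y in (U z' : Filter X), x ≤ y := by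
        intro h
        by_cases hS : S z
        · exact hS.mono fun x hx => (hle z z' h ⟨isUpperSet_Ici x, hx⟩).2
        · by_cases hS' : S z'
          · have h1 : {y | ∃ x, Iic x ∈ U z ∧ x ≤ y} ∈ ups (U z) :=
              ⟨fun a b hab ⟨x, h1, h2⟩ => ⟨x, h1, h2.trans hab⟩,
                (hI z hS).mono fun x hx => ⟨x, hx, le_rfl⟩⟩
            obtain ⟨y0, ⟨x0, h2, h3⟩, h4⟩ := (Eventually.and (hle z z' h h1).2 hS').exists
            filter_upwards [h2] with x hx
            filter_upwards [h4] with y hy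
            exact hx.trans (h3.trans hy)
          · have := hn z z' h
            simp only [key, hS, hS', if_false] at hk
            omega
      have a2 : z' ≤ z → ∀ᶠ x in (U z : Filter X), ∀ᶠ y in (U z' : Filter X), y ≤ x := by
        intro h
        by_cases hS : S z
        · have := hn z' z h
          by_cases hS' : S z' <;> simp only [key, hS, hS', if_false, if_true] at hk <;> omega
        · exact (hI z hS).mono fun x hx => low_of_le (hle z' z h) hx
      by_cases b1 : z ≤ z' <;> by_cases b2 : z' ≤ z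
      · filter_upwards [a1 b1, a2 b2] with x h1 h2
        filter_upwards [h1, h2] with y h3 h4 using ⟨fun _ => h3, fun _ => h4⟩
      · filter_upwards [a1 b1] with x h1
        filter_upwards [h1] with y h3 using ⟨fun _ => h3, fun h => absurd h b2⟩
      · filter_upwards [a2 b2] with x h1
        filter_upwards [h1] with y h3 using ⟨fun h => absurd h b1, fun _ => h3⟩
      · exact Eventually.of_forall fun x => Eventually.of_forall fun y =>
          ⟨fun h => absurd h b1, fun h => absurd h b2⟩)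
    Z (fun z => {x | ∀ e, z = ι e → x = e}) (fun z => by
      by_cases h : ∃ e, z = ι e
      · obtain ⟨e, rfl⟩ := h
        have h1 : ups (U (ι e)) = ups (pure e) := hUz _
        have h2 : Ici e ∈ U (ι e) := (h1.ge ⟨isUpperSet_Ici e, le_rfl⟩).2
        have h3 : Iic e ∈ U (ι e) := low_of_le h1.le le_rfl
        filter_upwards [h2, h3] with x h4 h5 e' he
        have h6 : ups (pure e : Ultrafilter X) = ups (pure e') := congrArg Subtype.val he
        have h7 : e ≤ e' := (h6.le ⟨isUpperSet_Ici e, le_rfl⟩).2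
        have h8 : e' ≤ e := (h6.ge ⟨isUpperSet_Ici e', le_rfl⟩).2
        exact le_antisymm (h5.trans h7) (h8.trans h4)
      · exact Eventually.of_forall fun x e he => absurd ⟨e, he⟩ h)
  have hZ : ∀ y, r y ∈ Z := fun y => r3.mem_toFinset.2 ⟨y, rfl⟩
  refine ⟨fun x => g (r (ι x)), fun a b hab => ?_, fun e he => ?_, ?_⟩
  · have h := r1 (hι hab)
    rcases h.eq_or_lt with h' | h'
    · exact (congrArg g h').le
    · have h1 := hn' _ _ (hZ _) h'
      rcases lt_trichotomy (key (r (ι a))) (key (r (ι b))) with h2 | h2 | h2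
      · exact (g2 _ (hZ _) _ (hZ _) h2).1 h
      · simp only [key] at h2
        split_ifs at h2 <;> omega
      · exact (g2 _ (hZ _) _ (hZ _) h2).2 h
  · exact g1 _ (hZ _) e (r2 _ ⟨e, he, rfl⟩)
  · refine (r3.image g).subset ?_
    rintro _ ⟨x, rfl⟩
    exact ⟨_, ⟨_, rfl⟩, rfl⟩

end Pool.Agent.H16.Hel
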