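import Mathlib

namespace Pool.Agent.H16.Illum

open Set

abbrev E := EuclideanSpace ℝ (Fin 3)

def A : Fin 12 → ℤ × ℤ × ℤ := ![(1,1,0), (1,-1,0), (-1,1,0), (-1,-1,0), (0,1,1), (0,1,-1),
  (0,-1,1), (0,-1,-1), (1,0,1), (1,0,-1), (-1,0,1), (-1,0,-1)]

def V : Fin 14 → ℤ × ℤ × ℤ := ![(1,1,1), (1,1,-1), (1,-1,1), (1,-1,-1), (-1,1,1), (-1,1,-1),
  (-1,-1,1), (-1,-1,-1), (2,0,0), (-2,0,0), (0,2,0), (0,-2,0), (0,0,2), (0,0,-2)]

def zd (a v : ℤ × ℤ × ℤ) : ℤ := a.1 * v.1 + a.2.1 * v.2.1 + a.2.2 * v.2.2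

def ev (a : ℤ × ℤ × ℤ) (x : E) : ℝ := a.1 * x 0 + a.2.1 * x 1 + a.2.2 * x 2

noncomputable def pt (v : ℤ × ℤ × ℤ) : E := !₂[(v.1 : ℝ), v.2.1, v.2.2]

def K : Set E := {x | ∀ f, ev (A f) x ≤ 2}

theorem ev_pt (a v) : ev a (pt v) = (zd a v : ℤ) := by simp [ev, pt, zd]

theorem ev_add (a) (x y : E) : ev a (x + y) = ev a x + ev a y := by simp [ev]; ring
theorem ev_sub (a) (x y : E) : ev a (x - y) = ev a x - ev a y := by simp [ev]; ring
theorem ev_smul (a) (t : ℝ) (x : E) : ev a (t • x) = t * ev a x := by simp [ev]; ring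
theorem ev_add' (a b) (x : E) : ev (a + b) x = ev a x + ev b x := by simp [ev]; ring
theorem ev_zero' (x : E) : ev 0 x = 0 := by simp [ev]

theorem ev_cont (a) : Continuous (ev a) := by unfold ev; fun_prop

theorem K_closed : IsClosed K := by
  have : K = ⋂ f, {x | ev (A f) x ≤ 2} := by ext x; simp [K]
  rw [this]
  exact isClosed_iInter fun f => isClosed_le (ev_cont _) continuous_const

theorem K_convex : Convex ℝ K := by
  intro x hx y hy a b ha hb hab f
  rw [ev_add, ev_smul, ev_smul]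
  have := hx f
  have := hy f
  nlinarith

theorem K_compact : IsCompact K := by
  apply Metric.isCompact_of_isClosed_isBounded K_closed
  rw [Metric.isBounded_iff_subset_closedBall 0]
  refine ⟨4, fun x hx => ?_⟩
  have h0 := hx 0
  have h1 := hx 1
  have h2 := hx 2
  have h3 := hx 3
  have h4 := hx 4
  have h5 := hx 5
  have h6 := hx 6
  have h7 := hx 7
  simp [ev, A] at h0 h1 h2 h3 h4 h5 h6 h7
  rw [mem_closedBall_zero_iff, EuclideanSpace.norm_eq, Fin.sum_univ_three]
  apply Real.sqrt_le_iff.2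
  refine ⟨by norm_num, ?_⟩
  simp only [Real.norm_eq_abs, sq_abs]
  nlinarith

theorem negA : ∀ f, ∃ g, A g + A f = 0 := by decide +kernel

theorem K_symm (x : E) (hx : x ∈ K) : -x ∈ K := by
  intro f
  obtain ⟨g, hg⟩ := negA f
  have h := ev_add' (A g) (A f) x
  rw [hg, ev_zero'] at h
  have := hx g
  have e : ev (A f) (-x) = -ev (A f) x := by simp [ev]; ring
  linarith

theorem zero_int : (0 : E) ∈ interior K := by
  have : {x : E | ∀ f, ev (A f) x < 2} ⊆ interior K := by
    apply interior_maximal (fun x hx f => (hx f).le)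
    have : {x : E | ∀ f, ev (A f) x < 2} = ⋂ f, {x | ev (A f) x < 2} := by ext x; simp
    rw [this]
    exact isOpen_iInter_of_finite fun f => isOpen_lt (ev_cont _) continuous_const
  exact this fun f => by simp [ev]

theorem int_lt {x : E} (hx : x ∈ interior K) (f) : ev (A f) x < 2 := by
  have hc : Continuous fun s : ℝ => s • x := by fun_prop
  have h1 : ∀ᶠ s in nhds (1 : ℝ), s • x ∈ interior K :=
    hc.continuousAt.eventually_mem (by simpa using isOpen_interior.mem_nhds hx)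
  obtain ⟨s, hs, h2⟩ := ((h1.filter_mono nhdsWithin_le_nhds).and
    (self_mem_nhdsWithin (s := Ioi (1 : ℝ)))).exists
  have h3 := interior_subset hs f
  rw [ev_smul] at h3
  have h4 : 1 < s := h2
  by_contra h
  nlinarith

theorem le_gauge (p : E) (f) : ev (A f) p / 2 ≤ gauge K p := by
  rw [gauge_def']
  apply le_csInf
  · obtain ⟨r, hr, h⟩ := (absorbent_nhds_zero (𝕜 := ℝ)
      (mem_interior_iff_mem_nhds.1 zero_int)).gauge_set_nonempty (x := p)
    exact ⟨r, hr, (mem_smul_set_iff_inv_smul_mem₀ hr.ne' _ _).1 h⟩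
  · rintro r ⟨hr, h⟩
    have hr' : 0 < r := hr
    have := h f
    rw [ev_smul, inv_mul_le_iff₀ hr'] at this
    linarith

def inc (v : Fin 14) (f : Fin 12) : Prop := zd (A f) (V v) = 2

instance : ∀ v f, Decidable (inc v f) := fun v f => by unfold inc; infer_instance

def lit (p : E) (v : Fin 14) : Prop := ∀ f, inc v f → 2 < ev (A f) p

def opp (u v : Fin 14) : Prop := ∃ f, inc u f ∧ ∃ g, inc v g ∧ A f + A g = 0

instance : ∀ v f, Decidable (opp v f) := fun v f => by unfold opp; infer_instance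

theorem v_le : ∀ v f, zd (A f) (V v) ≤ 2 := by decide +kernel
theorem c1 : ∀ v, ∃ f, inc v f := by decide +kernel
theorem c2 : ∀ u v, u ≠ v → ¬ opp u v → ∃ f, inc u f ∧ ∃ g, inc v g ∧ ∃ c, A c = A f + A g := by
  decide +kernel
theorem c3 : ∀ u v, u ≠ v → ¬ opp u v → ∀ w, u ≠ w → v ≠ w → ¬ opp u w → ¬ opp v w →
    ∃ f, (inc u f ∨ inc v f ∨ inc w f) ∧ ∃ g, (inc u g ∨ inc v g ∨ inc w g) ∧
      ∃ h, (inc u h ∨ inc v h ∨ inc w h) ∧ ∃ c, A c = A f + A g + A h := by
  decide +kernel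
set_option synthInstance.maxSize 2048 in
theorem c4 : ∀ u v, u ≠ v → ¬ opp u v → ∀ w, u ≠ w → v ≠ w → ¬ opp u w → ¬ opp v w →
    ∀ t, u ≠ t → v ≠ t → w ≠ t → ¬ opp u t → ¬ opp v t → opp w t := by
  decide +kernel

theorem not_opp {p u v} (hu : lit p u) (hv : lit p v) : ¬ opp u v := by
  rintro ⟨f, hf, g, hg, e⟩
  have h := ev_add' (A f) (A g) p
  rw [e, ev_zero'] at h
  have := hu f hf
  have := hv g hg
  linarith

open Classical in
theorem cnt (p : E) : ((Finset.univ.filter (lit p)).card : ℝ) ≤ gauge K p := by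
  set S := Finset.univ.filter (lit p) with hS
  have m : ∀ v, v ∈ S → lit p v := fun v hv => (Finset.mem_filter.1 hv).2
  by_cases h3 : 3 < S.card
  · obtain ⟨a, ha, b, hb, c, hc, d, hd, x1, x2, x3, x4, x5, x6⟩ := Finset.three_lt_card.1 h3
    exact absurd (c4 a b x1 (not_opp (m a ha) (m b hb)) c x2 x4 (not_opp (m a ha) (m c hc))
      (not_opp (m b hb) (m c hc)) d x3 x5 x6 (not_opp (m a ha) (m d hd))
      (not_opp (m b hb) (m d hd))) (not_opp (m c hc) (m d hd))
  by_cases h2 : 2 < S.card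
  · obtain ⟨a, ha, b, hb, c, hc, x1, x2, x3⟩ := Finset.two_lt_card.1 h2
    obtain ⟨f, hf, g, hg, h, hh, k, e⟩ := c3 a b x1 (not_opp (m a ha) (m b hb)) c x2 x3
      (not_opp (m a ha) (m c hc)) (not_opp (m b hb) (m c hc))
    have z : ∀ f, (inc a f ∨ inc b f ∨ inc c f) → 2 < ev (A f) p := by
      rintro f (h | h | h)
      exacts [m a ha f h, m b hb f h, m c hc f h]
    have := le_gauge p k
    rw [e, ev_add', ev_add'] at this
    have e3 : S.card = 3 := by omega
    rw [e3]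
    have := z f hf
    have := z g hg
    have := z h hh
    push_cast; linarith
  by_cases h1 : 1 < S.card
  · obtain ⟨a, ha, b, hb, x1⟩ := Finset.one_lt_card.1 h1
    obtain ⟨f, hf, g, hg, k, e⟩ := c2 a b x1 (not_opp (m a ha) (m b hb))
    have := le_gauge p k
    rw [e, ev_add'] at this
    have e3 : S.card = 2 := by omega
    rw [e3]
    have := m a ha f hf
    have := m b hb g hg
    push_cast; linarith
  by_cases h0 : 0 < S.card
  · obtain ⟨a, ha⟩ := Finset.card_pos.1 h0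
    obtain ⟨f, hf⟩ := c1 a
    have := le_gauge p f
    have e3 : S.card = 1 := by omega
    rw [e3]
    have := m a ha f hf
    push_cast; linarith
  · have e3 : S.card = 0 := by omega
    rw [e3]; simpa using gauge_nonneg p

theorem v_front (v) : pt (V v) ∈ frontier K := by
  rw [K_closed.frontier_eq]
  refine ⟨fun f => by rw [ev_pt]; exact_mod_cast v_le v f, fun h => ?_⟩
  obtain ⟨f, hf⟩ := c1 v
  have := int_lt h f
  rw [ev_pt, hf] at this
  norm_num at this

theorem main (P : Finset E)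
    (h : ∀ q ∈ frontier K, ∃ p ∈ P, ∃ t : ℝ, 0 < t ∧ q + t • (q - p) ∈ interior K) :
    14 ≤ ∑ p ∈ P, gauge K p := by
  classical
  have hl : ∀ v, ∃ p ∈ P, lit p v := by
    intro v
    obtain ⟨p, hp, t, ht, hi⟩ := h _ (v_front v)
    refine ⟨p, hp, fun f hf => ?_⟩
    have := int_lt hi f
    rw [ev_add, ev_smul, ev_sub, ev_pt, hf] at this
    push_cast at this
    by_contra c
    nlinarith
  have h1 : (Finset.univ : Finset (Fin 14)) ⊆ P.biUnion fun p => Finset.univ.filter (lit p) := by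
    intro v _
    obtain ⟨p, hp, e⟩ := hl v
    exact Finset.mem_biUnion.2 ⟨p, hp, by simpa using e⟩
  have h2 := (Finset.card_le_card h1).trans Finset.card_biUnion_le
  have h3 : ((14 : ℕ) : ℝ) ≤ ((∑ p ∈ P, (Finset.univ.filter (lit p)).card : ℕ) : ℝ) := by
    exact_mod_cast h2
  push_cast at h3
  exact h3.trans (Finset.sum_le_sum fun p _ => by convert cnt p)

end Pool.Agent.H16.Illum
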