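import Mathlib
import Pool.Agent.H16.Count

namespace Pool.Agent.H16.Induc

open Finset

noncomputable def LL : ℝ := 35 / 4 * √5 - 77 / 4

theorem s5 : √5 ^ 2 = 5 := Real.sq_sqrt (by norm_num)
theorem s5l : (2.236 : ℝ) ≤ √5 := Real.le_sqrt_of_sq_le (by norm_num)
theorem s5u : √5 ≤ (2.24 : ℝ) := Real.sqrt_le_iff.2 ⟨by norm_num, by norm_num⟩

theorem LL_ge : (63 / 200 : ℝ) ≤ LL := by unfold LL; linarith [s5l]

theorem ineqA (x y : ℝ) (hx : 0 ≤ x) (hy : 0 ≤ y) :
    28 * x ^ 2 * y ^ 6 + 28 * x ^ 6 * y ^ 2 ≤ LL * (x + y) ^ 8 := by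
  have h0 : 0 ≤ x * y := by positivity
  have h1 : 4 * (x * y) ≤ (x + y) ^ 2 := by nlinarith [sq_nonneg (x - y)]
  have e : 28 * x ^ 2 * y ^ 6 + 28 * x ^ 6 * y ^ 2 =
      28 * (x * y) ^ 2 * (((x + y) ^ 2) ^ 2 - 4 * (x * y) * (x + y) ^ 2 + 2 * (x * y) ^ 2) := by
    ring
  rw [e, show (x + y) ^ 8 = ((x + y) ^ 2) ^ 4 by ring]
  generalize (x + y) ^ 2 = s at *
  generalize x * y = t at *
  have h2 := s5
  have h3 := s5l
  have h4 := s5u
  unfold LL
  generalize √5 = r at *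
  have h5 : 0 ≤ -56 * t ^ 2 + 28 * (1 + r) * t * s + (7 * r - 7) * s ^ 2 := by
    have : 0 ≤ s := by linarith
    nlinarith [mul_nonneg h0 this, mul_nonneg h0 (sub_nonneg.2 h1), sq_nonneg s]
  have h6 := mul_nonneg (sq_nonneg (t - (3 - r) / 4 * s)) h5
  have e2 : (t - (3 - r) / 4 * s) ^ 2 * (-56 * t ^ 2 + 28 * (1 + r) * t * s + (7 * r - 7) * s ^ 2) =
      (35 / 4 * r - 77 / 4) * s ^ 4 - 28 * t ^ 2 * (s ^ 2 - 4 * t * s + 2 * t ^ 2) := by
    have r3 : r ^ 3 = 5 * r := by rw [pow_succ, h2]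
    ring_nf
    rw [r3, h2]
    ring
  linarith

theorem ineqB (x y : ℝ) (hx : 0 ≤ x) (hy : 0 ≤ y) (h : 15 * x ^ 2 ≤ y ^ 2) :
    28 * x ^ 2 * y ^ 6 + 28 * x ^ 6 * y ^ 2 + LL * (y ^ 6 * (y ^ 2 - 15 * x ^ 2)) ≤
      LL * (x + y) ^ 8 := by
  have h1 : 19 / 5 * x ≤ y := by
    by_contra hc
    push Not at hc
    nlinarith
  obtain ⟨z, hz, rfl⟩ : ∃ z, 0 ≤ z ∧ y = 19 / 5 * x + z := ⟨y - 19 / 5 * x, by linarith, by ring⟩
  have h2 : 0 ≤ (x + (19 / 5 * x + z)) ^ 8 - (19 / 5 * x + z) ^ 6 *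
      ((19 / 5 * x + z) ^ 2 - 15 * x ^ 2) := by
    ring_nf; positivity
  have h3 : 0 ≤ 63 / 200 * ((x + (19 / 5 * x + z)) ^ 8 - (19 / 5 * x + z) ^ 6 *
      ((19 / 5 * x + z) ^ 2 - 15 * x ^ 2)) - 28 * x ^ 2 * (19 / 5 * x + z) ^ 6 -
      28 * x ^ 6 * (19 / 5 * x + z) ^ 2 := by
    ring_nf; positivity
  nlinarith [mul_le_mul_of_nonneg_right LL_ge h2]

theorem ineqC (x y X1 Y1 X2 Y2 : ℝ) (hx : 0 < x) (hxy : x ≤ y) (p1 : 0 ≤ X1) (p2 : 0 ≤ X2)
    (h2 : 40320 * X2 ≤ LL * y ^ 8)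
    (h3 : 30 * X1 + x ^ 2 * Y1 ≤ x ^ 8 / 720) (h4 : 30 * X2 + y ^ 2 * Y2 ≤ y ^ 8 / 720) :
    40320 * (X1 + X2 + x ^ 2 / 2 * Y2 + y ^ 2 / 2 * Y1) ≤ LL * (x + y) ^ 8 := by
  have hy : 0 < y := by linarith
  have hxy2 : x ^ 2 ≤ y ^ 2 := by gcongr
  have a1 : 40320 * (X1 + y ^ 2 / 2 * Y1) ≤ 28 * x ^ 6 * y ^ 2 := by
    apply le_of_mul_le_mul_left _ (show 0 < x ^ 2 by positivity)
    nlinarith [mul_le_mul_of_nonneg_left h3 (show 0 ≤ y ^ 2 by positivity),
      mul_le_mul_of_nonneg_left hxy2 p1, mul_nonneg p1 (sq_nonneg x)]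
  have a2 : y ^ 2 * (40320 * (X2 + x ^ 2 / 2 * Y2)) ≤
      y ^ 2 * (28 * x ^ 2 * y ^ 6) + 40320 * X2 * (y ^ 2 - 15 * x ^ 2) := by
    nlinarith [mul_le_mul_of_nonneg_left h4 (show 0 ≤ x ^ 2 by positivity)]
  rcases le_total (15 * x ^ 2) (y ^ 2) with h | h
  · have a3 : 40320 * (X2 + x ^ 2 / 2 * Y2) ≤
        28 * x ^ 2 * y ^ 6 + LL * (y ^ 6 * (y ^ 2 - 15 * x ^ 2)) := by
      apply le_of_mul_le_mul_left _ (show 0 < y ^ 2 by positivity)
      nlinarith [mul_le_mul_of_nonneg_right h2 (sub_nonneg.2 h)]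
    linarith [ineqB x y hx.le hy.le h]
  · have a3 : 40320 * (X2 + x ^ 2 / 2 * Y2) ≤ 28 * x ^ 2 * y ^ 6 := by
      apply le_of_mul_le_mul_left _ (show 0 < y ^ 2 by positivity)
      nlinarith [mul_nonneg p2 (sub_nonneg.2 h)]
    linarith [ineqA x y hx.le hy.le]

variable {n : ℕ}

def Cat (H : Finset (Finset (Fin n))) (Q : Finset (Fin n)) : Prop :=
  ∀ C ∈ H, ∀ C' ∈ H, 2 ≤ (C ∩ Q).card → 2 ≤ (C' ∩ Q).card → ¬ Disjoint (C ∩ Q) (C' ∩ Q)

def IsD (H : Finset (Finset (Fin n))) (S : Finset (Fin n)) : Prop :=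
  ∃ P Q, Disjoint P Q ∧ P ∪ Q = S ∧ P.card = 2 ∧ Q.card = 6 ∧ (∃ C ∈ H, C ∩ S = P) ∧
    (∃ C ∈ H, C ∩ S = Q) ∧ Cat H Q

open Classical in
noncomputable def XX (H : Finset (Finset (Fin n))) (A : Finset (Fin n)) : Finset (Finset (Fin n)) :=
  (A.powersetCard 8).filter (IsD H)

open Classical in
noncomputable def YY (H : Finset (Finset (Fin n))) (A : Finset (Fin n)) : Finset (Finset (Fin n)) :=
  (A.powersetCard 6).filter (Cat H)

theorem dbl (H : Finset (Finset (Fin n))) (A : Finset (Fin n)) :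
    30 * ((XX H A).card : ℝ) + (A.card : ℝ) ^ 2 * (YY H A).card ≤ (A.card : ℝ) ^ 8 / 720 := by
  classical
  have h1 := card_mul_le_card_mul (s := XX H A) (t := (A.powersetCard 6).filter (¬ Cat H ·))
    (fun S R => R ⊆ S) (m := 15) (n := A.card.choose 2) (by
      intro S hS
      obtain ⟨h1, P, Q, d, rfl, cP, cQ, ⟨C, hC, eC⟩, ⟨C', hC', eC'⟩, -⟩ := mem_filter.1 hS
      obtain ⟨h2, -⟩ := mem_powersetCard.1 h1
      have := card_le_card_of_injOn (s := Q.powersetCard 4)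
        (t := bipartiteAbove (fun S R => R ⊆ S) ((A.powersetCard 6).filter (¬ Cat H ·)) (P ∪ Q))
        (fun R => P ∪ R) (by
          intro R hR
          obtain ⟨r1, r2⟩ := mem_powersetCard.1 (mem_coe.1 hR)
          have d' := disjoint_of_subset_right r1 d
          have s1 : P ∪ R ⊆ P ∪ Q := union_subset_union_right r1
          have e1 : C ∩ (P ∪ R) = P := by
            rw [← inter_eq_right.2 s1, ← inter_assoc, eC]
            exact inter_eq_left.2 subset_union_left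
          have e2 : C' ∩ (P ∪ R) = R := by
            rw [← inter_eq_right.2 s1, ← inter_assoc, eC', inter_union_distrib_left,
              disjoint_iff_inter_eq_empty.1 d.symm, empty_union, inter_eq_right.2 r1]
          refine mem_coe.2 ((mem_bipartiteAbove _).2 ⟨mem_filter.2 ⟨mem_powersetCard.2
            ⟨s1.trans h2, by rw [card_union_of_disjoint d', cP, r2]⟩, fun h => ?_⟩, s1⟩)
          have h' : Cat H (P ∪ R) := h
          exact h' C hC C' hC' (by rw [e1]; omega) (by rw [e2]; omega)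
            (by rw [e1, e2]; exact d')) (by
          intro R hR R' hR' e
          have r1 := (mem_powersetCard.1 (mem_coe.1 hR)).1
          have r2 := (mem_powersetCard.1 (mem_coe.1 hR')).1
          rw [← union_sdiff_cancel_left (disjoint_of_subset_right r1 d),
            ← union_sdiff_cancel_left (disjoint_of_subset_right r2 d)]
          exact congrArg (· \ P) e)
      rw [card_powersetCard, cQ] at this
      exact this) (by
      intro R hR
      rw [← card_powersetCard]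
      apply card_le_card_of_injOn (fun S => S \ R)
      · intro S hS
        obtain ⟨h1, h2⟩ := (mem_bipartiteBelow _).1 (mem_coe.1 hS)
        obtain ⟨h3, h4⟩ := mem_powersetCard.1 (mem_filter.1 h1).1
        refine mem_coe.2 (mem_powersetCard.2 ⟨sdiff_subset.trans h3, ?_⟩)
        rw [card_sdiff_of_subset h2, h4, (mem_powersetCard.1 (mem_filter.1 hR).1).2]
      · intro S hS S' hS' e
        rw [← sdiff_union_of_subset ((mem_bipartiteBelow _).1 (mem_coe.1 hS)).2,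
          ← sdiff_union_of_subset ((mem_bipartiteBelow _).1 (mem_coe.1 hS')).2]
        exact congrArg (· ∪ R) e)
  have h2 := card_filter_add_card_filter_not (s := A.powersetCard 6) (Cat H)
  rw [card_powersetCard] at h2
  have h3 : ((YY H A).card : ℝ) + ((A.powersetCard 6).filter (¬ Cat H ·)).card =
    A.card.choose 6 := by exact_mod_cast h2
  have h4 : ((XX H A).card : ℝ) * 15 ≤
    ((A.powersetCard 6).filter (¬ Cat H ·)).card * (A.card.choose 2 : ℝ) := by exact_mod_cast h1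
  have h5 := Nat.choose_le_pow_div (α := ℝ) 2 A.card
  have h6 := Nat.choose_le_pow_div (α := ℝ) 6 A.card
  norm_num [Nat.factorial] at h5 h6
  have p : (0 : ℝ) ≤ ((A.powersetCard 6).filter (¬ Cat H ·)).card := Nat.cast_nonneg _
  nlinarith [mul_le_mul_of_nonneg_left h5 p, mul_le_mul_of_nonneg_left h6 (sq_nonneg (A.card : ℝ))]

theorem child (H : Finset (Finset (Fin n)))
    (lam : ∀ A ∈ H, ∀ B ∈ H, A ⊆ B ∨ B ⊆ A ∨ Disjoint A B) (B C : Finset (Fin n)) (hB : B ∈ H)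
    (hC : C ∈ H) (S P K : Finset (Fin n)) (hS : S ⊆ B ∪ C) (hK : K ∈ H) (e : K ∩ S = P)
    (h2 : P.card < S.card) : P ⊆ B ∨ P ⊆ C := by
  have pK : P ⊆ K := e ▸ inter_subset_left
  have pS : P ⊆ S := e ▸ inter_subset_right
  have k1 : ∀ B C : Finset (Fin n), S ⊆ B ∪ C → Disjoint K B → P ⊆ C := by
    intro B C h d x hx
    exact (mem_union.1 (h (pS hx))).resolve_left (disjoint_left.1 d (pK hx))
  rcases lam K hK B hB with h | h | h
  · exact Or.inl (pK.trans h)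
  · rcases lam K hK C hC with h' | h' | h'
    · exact Or.inr (pK.trans h')
    · rw [inter_eq_right.2 (hS.trans (union_subset h h'))] at e
      rw [e] at h2; omega
    · exact Or.inl (k1 C B (by rwa [union_comm]) h')
  · exact Or.inr (k1 B C hS h)

theorem recur (H : Finset (Finset (Fin n)))
    (lam : ∀ A ∈ H, ∀ B ∈ H, A ⊆ B ∨ B ⊆ A ∨ Disjoint A B) (B C : Finset (Fin n)) (hB : B ∈ H)
    (hC : C ∈ H) : ((XX H (B ∪ C)).card : ℝ) ≤ (XX H B).card + (XX H C).card +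
      (B.card : ℝ) ^ 2 / 2 * (YY H C).card + (C.card : ℝ) ^ 2 / 2 * (YY H B).card := by
  classical
  have h1 : XX H (B ∪ C) ⊆ XX H B ∪ XX H C ∪
      (B.powersetCard 2 ×ˢ YY H C).image (fun p => p.1 ∪ p.2) ∪
      (C.powersetCard 2 ×ˢ YY H B).image (fun p => p.1 ∪ p.2) := by
    intro S hS
    obtain ⟨h1, h2⟩ := mem_filter.1 hS
    obtain ⟨h3, h4⟩ := mem_powersetCard.1 h1
    obtain ⟨P, Q, d, e, cP, cQ, ⟨K, hK, eK⟩, ⟨K', hK', eK'⟩, cat⟩ := id h2
    simp only [mem_union]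
    rcases child H lam B C hB hC S P K h3 hK eK (by omega) with a | a <;>
      rcases child H lam B C hB hC S Q K' h3 hK' eK' (by omega) with b | b
    · exact Or.inl (Or.inl (Or.inl (mem_filter.2 ⟨mem_powersetCard.2
        ⟨e ▸ union_subset a b, h4⟩, h2⟩)))
    · exact Or.inl (Or.inr (mem_image.2 ⟨(P, Q), mem_product.2 ⟨mem_powersetCard.2 ⟨a, cP⟩,
        mem_filter.2 ⟨mem_powersetCard.2 ⟨b, cQ⟩, cat⟩⟩, e⟩))
    · exact Or.inr (mem_image.2 ⟨(P, Q), mem_product.2 ⟨mem_powersetCard.2 ⟨a, cP⟩,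
        mem_filter.2 ⟨mem_powersetCard.2 ⟨b, cQ⟩, cat⟩⟩, e⟩)
    · exact Or.inl (Or.inl (Or.inr (mem_filter.2 ⟨mem_powersetCard.2
        ⟨e ▸ union_subset a b, h4⟩, h2⟩)))
  have h2 := (card_le_card h1).trans ((card_union_le _ _).trans (add_le_add
    ((card_union_le _ _).trans (add_le_add (card_union_le _ _) card_image_le)) card_image_le))
  rw [card_product, card_product, card_powersetCard, card_powersetCard] at h2
  have h3 : ((XX H (B ∪ C)).card : ℝ) ≤ (XX H B).card + (XX H C).card +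
      (B.card.choose 2 : ℝ) * (YY H C).card + (C.card.choose 2 : ℝ) * (YY H B).card := by
    exact_mod_cast h2
  have h5 := Nat.choose_le_pow_div (α := ℝ) 2 B.card
  have h6 := Nat.choose_le_pow_div (α := ℝ) 2 C.card
  norm_num [Nat.factorial] at h5 h6
  refine h3.trans ?_
  gcongr

theorem upper (H : Finset (Finset (Fin n)))
    (lam : ∀ A ∈ H, ∀ B ∈ H, A ⊆ B ∨ B ⊆ A ∨ Disjoint A B)
    (spl : ∀ A ∈ H, 2 ≤ A.card → ∃ B ∈ H, ∃ C ∈ H,
      B.Nonempty ∧ C.Nonempty ∧ Disjoint B C ∧ B ∪ C = A) (m : ℕ) :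
    ∀ A ∈ H, A.card = m → 40320 * ((XX H A).card : ℝ) ≤ LL * (A.card : ℝ) ^ 8 := by
  induction m using Nat.strong_induction_on with
  | _ m ih =>
    intro A hA hm
    by_cases h2 : 2 ≤ A.card
    · obtain ⟨B, hB, C, hC, nB, nC, d, rfl⟩ := spl A hA h2
      have cB := card_pos.2 nB
      have cC := card_pos.2 nC
      rw [card_union_of_disjoint d] at hm ⊢
      have iB := ih _ (by omega) B hB rfl
      have iC := ih _ (by omega) C hC rfl
      have r := recur H lam B C hB hC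
      push_cast
      rcases le_total B.card C.card with h | h
      · have := ineqC B.card C.card _ _ _ _ (by exact_mod_cast cB) (by exact_mod_cast h)
          (Nat.cast_nonneg _) (Nat.cast_nonneg _) iC (dbl H B) (dbl H C)
        linarith
      · have := ineqC C.card B.card _ _ _ _ (by exact_mod_cast cC) (by exact_mod_cast h)
          (Nat.cast_nonneg _) (Nat.cast_nonneg _) iB (dbl H C) (dbl H B)
        rw [add_comm (B.card : ℝ)]
        linarith
    · have : XX H A = ∅ := by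
        rw [XX, powersetCard_eq_empty.2 (by omega), filter_empty]
      rw [this, card_empty, Nat.cast_zero, mul_zero]
      exact mul_nonneg (by linarith [LL_ge]) (by positivity)

def DD : Finset (Finset (Fin 8)) :=
  {univ, {0}, {1}, {2}, {3}, {4}, {5}, {6}, {7}, {0, 1}, {2, 3, 4, 5, 6, 7}, {3, 4, 5, 6, 7},
    {4, 5, 6, 7}, {5, 6, 7}, {6, 7}}

def Hier {k : ℕ} (D : Finset (Finset (Fin k))) : Prop :=
  univ ∈ D ∧ (∀ i : Fin k, ({i} : Finset (Fin k)) ∈ D) ∧ (∅ : Finset (Fin k)) ∉ D ∧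
    (∀ A ∈ D, ∀ B ∈ D, A ⊆ B ∨ B ⊆ A ∨ Disjoint A B) ∧
    (∀ A ∈ D, 2 ≤ A.card → ∃ B ∈ D, ∃ C ∈ D, B.Nonempty ∧ C.Nonempty ∧ Disjoint B C ∧ B ∪ C = A)

theorem hier_DD : Hier DD :=
  ⟨by decide +kernel, by decide +kernel, by decide +kernel, by decide +kernel, by decide +kernel⟩

def Copy (H : Finset (Finset (Fin n))) (S : Finset (Fin n)) : Prop :=
  ∃ e : Fin 8 → Fin n, Function.Injective e ∧ Set.range e = (↑S : Set (Fin n)) ∧
    ∀ A : Finset (Fin 8), A ∈ DD ↔ (A.Nonempty ∧ ∃ C ∈ H, C ∩ S = A.image e)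

theorem tr_eq (e : Fin 8 → Fin n) (S C : Finset (Fin n)) (h : Set.range e = (↑S : Set (Fin n))) :
    C ∩ S = (univ.filter (fun i => e i ∈ C)).image e := by
  ext x
  simp only [mem_inter, mem_image, mem_filter, mem_univ, true_and, ← mem_coe (s := S), ← h,
    Set.mem_range]
  exact ⟨fun ⟨h1, i, h2⟩ => ⟨i, h2 ▸ h1, h2⟩, fun ⟨i, h1, h2⟩ => ⟨h2 ▸ h1, i, h2⟩⟩

theorem copy_mem (H : Finset (Finset (Fin n))) (S : Finset (Fin n)) (h : Copy H S) :
    S ∈ XX H univ := by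
  classical
  obtain ⟨e, h1, h2, h3⟩ := h
  have hS : S = univ.image e := by rw [← coe_inj, ← h2]; simp
  refine mem_filter.2 ⟨mem_powersetCard.2 ⟨subset_univ _, by
    rw [hS, card_image_of_injective _ h1]; simp⟩, ({0, 1} : Finset (Fin 8)).image e,
    ({2, 3, 4, 5, 6, 7} : Finset (Fin 8)).image e, (disjoint_image h1).2 (by decide), ?_,
    by rw [card_image_of_injective _ h1]; rfl, by rw [card_image_of_injective _ h1]; rfl,
    ((h3 _).1 (by decide)).2, ((h3 _).1 (by decide)).2, ?_⟩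
  · rw [← image_union, hS]; congr 1
  · have key : ∀ C ∈ H, 2 ≤ (C ∩ ({2, 3, 4, 5, 6, 7} : Finset (Fin 8)).image e).card →
        e 7 ∈ C ∩ ({2, 3, 4, 5, 6, 7} : Finset (Fin 8)).image e := by
      intro C hC hc
      have e1 := tr_eq e S C h2
      have e2 : C ∩ ({2, 3, 4, 5, 6, 7} : Finset (Fin 8)).image e =
          (univ.filter (fun i => e i ∈ C) ∩ {2, 3, 4, 5, 6, 7}).image e := by
        rw [image_inter _ _ h1, ← e1, inter_assoc, hS, inter_eq_right.2
          (image_subset_image (subset_univ _))]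
      rw [e2, card_image_of_injective _ h1] at hc
      have e3 := (h3 _).2 ⟨(card_pos.1 (lt_of_lt_of_le two_pos hc)).mono inter_subset_left, C, hC, e1⟩
      rw [e2]
      apply mem_image_of_mem
      revert hc e3
      generalize univ.filter (fun i => e i ∈ C) = A
      revert A
      decide +kernel
    intro C hC C' hC' c1 c2
    exact not_disjoint_iff.2 ⟨_, key C hC c1, key C' hC' c2⟩

def up (X : Finset (Fin n)) (j : Fin n) : Finset (Fin n) := X.filter (j ≤ ·)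

def HH (X : Finset (Fin n)) : Finset (Finset (Fin n)) :=
  insert univ (univ.image singleton ∪ (X.image (up X) ∪ Xᶜ.image (up Xᶜ)))

theorem mem_HH {X C : Finset (Fin n)} : C ∈ HH X ↔
    C = univ ∨ (∃ i, {i} = C) ∨ (∃ j ∈ X, up X j = C) ∨ ∃ j ∈ Xᶜ, up Xᶜ j = C := by
  simp only [HH, mem_insert, mem_union, mem_image, mem_univ, true_and]

theorem HH_compl (X : Finset (Fin n)) : HH Xᶜ = HH X := by
  rw [HH, HH, compl_compl, union_comm (X.image _)]

theorem up_min (X : Finset (Fin n)) (h : X.Nonempty) : up X (X.min' h) = X :=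
  filter_true_of_mem fun x hx => min'_le X x hx

theorem up_lam (X : Finset (Fin n)) (i j : Fin n) : up X i ⊆ up X j ∨ up X j ⊆ up X i := by
  rcases le_total i j with h | h
  · exact Or.inr fun x hx => mem_filter.2 ⟨(mem_filter.1 hx).1, h.trans (mem_filter.1 hx).2⟩
  · exact Or.inl fun x hx => mem_filter.2 ⟨(mem_filter.1 hx).1, h.trans (mem_filter.1 hx).2⟩

theorem up_split (X : Finset (Fin n)) (j : Fin n) (hj : j ∈ X) (h : 2 ≤ (up X j).card) :
    ∃ j' ∈ X, Disjoint {j} (up X j') ∧ {j} ∪ up X j' = up X j := by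
  have hj2 : j ∈ up X j := mem_filter.2 ⟨hj, le_rfl⟩
  have hne : ((up X j).erase j).Nonempty := card_pos.1 (by rw [card_erase_of_mem hj2]; omega)
  obtain ⟨h1, h2⟩ := mem_erase.1 (min'_mem _ hne)
  obtain ⟨h3, h4⟩ := mem_filter.1 h2
  refine ⟨_, h3, ?_, ?_⟩
  · rw [disjoint_singleton_left]
    intro h5
    exact h1 (le_antisymm (mem_filter.1 h5).2 h4)
  · ext x
    simp only [mem_union, mem_singleton]
    constructor
    · rintro (rfl | h5)
      · exact hj2
      · exact mem_filter.2 ⟨(mem_filter.1 h5).1, h4.trans (mem_filter.1 h5).2⟩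
    · intro h5
      by_cases h6 : x = j
      · exact Or.inl h6
      · exact Or.inr (mem_filter.2 ⟨(mem_filter.1 h5).1, min'_le _ _ (mem_erase.2 ⟨h6, h5⟩)⟩)

theorem hier_HH (X : Finset (Fin n)) (h1 : X.Nonempty) (h2 : Xᶜ.Nonempty) : Hier (HH X) := by
  have ne : ∀ (Y : Finset (Fin n)), ∀ j ∈ Y, (up Y j).Nonempty :=
    fun Y j hj => ⟨j, mem_filter.2 ⟨hj, le_rfl⟩⟩
  have sg : ∀ i, {i} ∈ HH X := fun i => mem_HH.2 (Or.inr (Or.inl ⟨i, rfl⟩))
  have u1 : ∀ j ∈ X, up X j ∈ HH X := fun j hj => mem_HH.2 (Or.inr (Or.inr (Or.inl ⟨j, hj, rfl⟩)))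
  have u2 : ∀ j ∈ Xᶜ, up Xᶜ j ∈ HH X :=
    fun j hj => mem_HH.2 (Or.inr (Or.inr (Or.inr ⟨j, hj, rfl⟩)))
  have dj : ∀ i j, Disjoint (up X i) (up Xᶜ j) := fun i j =>
    disjoint_compl_right.mono (filter_subset _ _) (filter_subset _ _)
  refine ⟨mem_HH.2 (Or.inl rfl), sg, fun h => ?_, fun A hA B hB => ?_, fun A hA h => ?_⟩
  · rcases mem_HH.1 h with h | ⟨i, h⟩ | ⟨j, hj, h⟩ | ⟨j, hj, h⟩
    · exact (h1.mono (subset_univ _)).ne_empty h.symm
    · exact singleton_ne_empty i h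
    · exact (ne _ j hj).ne_empty h
    · exact (ne _ j hj).ne_empty h
  · rcases mem_HH.1 hA with rfl | ⟨i, rfl⟩ | hA'
    · exact Or.inr (Or.inl (subset_univ _))
    · by_cases h : i ∈ B <;> simp [h]
    rcases mem_HH.1 hB with rfl | ⟨i, rfl⟩ | hB'
    · exact Or.inl (subset_univ _)
    · by_cases h : i ∈ A <;> simp [h]
    rcases hA' with ⟨i, -, rfl⟩ | ⟨i, -, rfl⟩ <;> rcases hB' with ⟨j, -, rfl⟩ | ⟨j, -, rfl⟩
    · exact (up_lam _ i j).imp_right Or.inl
    · exact Or.inr (Or.inr (dj i j))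
    · exact Or.inr (Or.inr (dj j i).symm)
    · exact (up_lam _ i j).imp_right Or.inl
  · rcases mem_HH.1 hA with rfl | ⟨i, rfl⟩ | ⟨j, hj, rfl⟩ | ⟨j, hj, rfl⟩
    · refine ⟨X, ?_, Xᶜ, ?_, h1, h2, disjoint_compl_right, union_compl X⟩
      · have := u1 _ (min'_mem X h1); rwa [up_min] at this
      · have := u2 _ (min'_mem _ h2); rwa [up_min] at this
    · simp at h
    · obtain ⟨j', h3, h4, h5⟩ := up_split X j hj h
      exact ⟨_, sg j, _, u1 j' h3, singleton_nonempty j, ne _ j' h3, h4, h5⟩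
    · obtain ⟨j', h3, h4, h5⟩ := up_split Xᶜ j hj h
      exact ⟨_, sg j, _, u2 j' h3, singleton_nonempty j, ne _ j' h3, h4, h5⟩

theorem DD_cases : ∀ A ∈ DD, A = univ ∨ (∃ i, A = {i}) ∨
    (∃ j : Fin 8, j < 2 ∧ A = univ.filter (fun i => i < 2 ∧ j ≤ i)) ∨
    (∃ j : Fin 8, 2 ≤ j ∧ A = univ.filter (fun i => j ≤ i)) := by decide +kernel

theorem DD_of1 : ∀ A : Finset (Fin 8), A.Nonempty → (∀ i ∈ A, i < 2) → A ∈ DD := by
  decide +kernel

theorem DD_of2 : ∀ A : Finset (Fin 8), A.Nonempty → (∀ i ∈ A, 2 ≤ i) →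
    (∀ i ∈ A, ∀ k, i ≤ k → k ∈ A) → A ∈ DD := by decide +kernel

theorem good_e (X : Finset (Fin n)) (e : Fin 8 → Fin n) (h1 : ∀ i, e i ∈ X ↔ i < 2)
    (h2 : ∀ i j, (i < 2 ↔ j < 2) → i < j → e i < e j) : Copy (HH X) (univ.image e) := by
  have le : ∀ i j, (i < 2 ↔ j < 2) → (e i ≤ e j ↔ i ≤ j) := by
    intro i j h
    constructor
    · intro h3
      by_contra h4
      exact absurd (h2 j i h.symm (not_le.1 h4)) (not_lt.2 h3)
    · intro h3
      rcases h3.eq_or_lt with rfl | h3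
      · exact le_rfl
      · exact (h2 i j h h3).le
  have inj : Function.Injective e := by
    intro i j h
    have : i < 2 ↔ j < 2 := by rw [← h1, ← h1, h]
    exact le_antisymm ((le i j this).1 h.le) ((le j i this.symm).1 h.ge)
  have hr : Set.range e = (↑(univ.image e) : Set (Fin n)) := by simp
  refine ⟨e, inj, hr, fun A => ⟨fun hA => ⟨nonempty_iff_ne_empty.2 ?_, ?_⟩, ?_⟩⟩
  · rintro rfl; exact hier_DD.2.2.1 hA
  · simp only [tr_eq e _ _ hr, (image_injective inj).eq_iff]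
    rcases DD_cases A hA with rfl | ⟨i, rfl⟩ | ⟨j, hj, rfl⟩ | ⟨j, hj, rfl⟩
    · exact ⟨univ, mem_HH.2 (Or.inl rfl), by simp⟩
    · refine ⟨{e i}, mem_HH.2 (Or.inr (Or.inl ⟨_, rfl⟩)), ?_⟩
      ext k; simp [inj.eq_iff]
    · refine ⟨_, mem_HH.2 (Or.inr (Or.inr (Or.inl ⟨e j, (h1 j).2 hj, rfl⟩))), ?_⟩
      apply filter_congr
      intro k _
      simp only [up, mem_filter, h1]
      exact and_congr_right fun hk => le j k (iff_of_true hj hk)
    · refine ⟨_, mem_HH.2 (Or.inr (Or.inr (Or.inr ⟨e j, by simpa [h1] using hj, rfl⟩))), ?_⟩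
      apply filter_congr
      intro k _
      simp only [up, mem_filter, mem_compl, h1]
      constructor
      · exact fun h => (le j k (iff_of_false (not_lt.2 hj) h.1)).1 h.2
      · exact fun h => ⟨not_lt.2 (hj.trans h),
          (le j k (iff_of_false (not_lt.2 hj) (not_lt.2 (hj.trans h)))).2 h⟩
  · rintro ⟨hA, C, hC, h⟩
    rw [tr_eq e _ _ hr, (image_injective inj).eq_iff] at h
    subst h
    rcases mem_HH.1 hC with rfl | ⟨x, rfl⟩ | ⟨x, -, rfl⟩ | ⟨x, -, rfl⟩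
    · simpa using hier_DD.1
    · obtain ⟨i, hi⟩ := hA
      have h3 : e i = x := by simpa using hi
      subst h3
      convert hier_DD.2.1 i
      ext k; simp [inj.eq_iff]
    · exact DD_of1 _ hA fun i hi => (h1 i).1 (mem_filter.1 (mem_filter.1 hi).2).1
    · have k : ∀ i ∈ univ.filter (fun i => e i ∈ up Xᶜ x), 2 ≤ i := fun i hi =>
        not_lt.1 fun h => mem_compl.1 (mem_filter.1 (mem_filter.1 hi).2).1 ((h1 i).2 h)
      refine DD_of2 _ hA k fun i hi l hl => ?_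
      have h3 := k i hi
      refine mem_filter.2 ⟨mem_univ _, mem_filter.2 ⟨?_,
        (mem_filter.1 (mem_filter.1 hi).2).2.trans ?_⟩⟩
      · simpa [h1] using h3.trans hl
      · exact (le i l (iff_of_false (not_lt.2 h3) (not_lt.2 (h3.trans hl)))).2 hl

theorem copy_of (X S : Finset (Fin n)) (h8 : S.card = 8) (h2 : (S ∩ X).card = 2) :
    Copy (HH X) S := by
  have h6 : (S \ X).card = 6 := by have := card_sdiff_add_card_inter S X; omega
  let p := (S ∩ X).orderEmbOfFin h2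
  let q := (S \ X).orderEmbOfFin h6
  have hp : ∀ i, p i ∈ S ∩ X := fun i => orderEmbOfFin_mem _ _ i
  have hq : ∀ i, q i ∈ S \ X := fun i => orderEmbOfFin_mem _ _ i
  have h := good_e X ![p 0, p 1, q 0, q 1, q 2, q 3, q 4, q 5] (by
    intro i
    fin_cases i <;> simp [(mem_inter.1 (hp _)).2, (mem_sdiff.1 (hq _)).2]) (by
    intro i j
    fin_cases i <;> fin_cases j <;> simp)
  convert h
  symm
  apply eq_of_subset_of_card_le
  · intro x hx
    obtain ⟨i, -, rfl⟩ := mem_image.1 hx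
    fin_cases i <;> simp [(mem_inter.1 (hp _)).1, (mem_sdiff.1 (hq _)).1]
  · obtain ⟨e, h3, h4, -⟩ := h
    have := congrArg Set.ncard h4
    rw [Set.ncard_coe_finset, Set.ncard_range_of_injective h3] at this
    rw [h8, ← this]; simp

theorem lower (X : Finset (Fin n)) :
    X.card.choose 2 * (n - X.card).choose 6 + X.card.choose 6 * (n - X.card).choose 2 ≤
      {S | Copy (HH X) S}.ncard := by
  have h := Pool.Agent.H16.Count.card_levels X Xᶜ disjoint_compl_right 8 {2, 6} (by decide)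
  rw [sum_pair (by norm_num), card_compl, Fintype.card_fin] at h
  rw [← h, ← Set.ncard_coe_finset]
  apply Set.ncard_le_ncard _ (Set.toFinite _)
  intro S hS
  obtain ⟨h1, h2⟩ := mem_filter.1 (mem_coe.1 hS)
  have h3 := (mem_powersetCard.1 h1).2
  rcases mem_insert.1 h2 with h2 | h2
  · exact copy_of X S h3 h2
  · rw [← HH_compl]
    refine copy_of Xᶜ S h3 ?_
    have := card_sdiff_add_card_inter S X
    rw [mem_singleton.1 h2, h3, sdiff_eq_inter_compl] at this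
    omega

open Filter Topology in
theorem lim_choose (a : ℕ → ℕ) (x : ℝ) (h : Tendsto (fun m => (a m : ℝ) / m) atTop (𝓝 x)) (k : ℕ) :
    Tendsto (fun m => ((a m).choose k : ℝ) / (m : ℝ) ^ k) atTop (𝓝 (x ^ k / k.factorial)) := by
  induction k with
  | zero => simp
  | succ k ih =>
    have h1 := (ih.mul (h.sub (tendsto_const_div_atTop_nhds_zero_nat (k : ℝ)))).div_const
      ((k : ℝ) + 1)
    convert h1 using 2 with m
    · have e : ((a m).choose (k + 1) : ℝ) * (k + 1) = (a m).choose k * ((a m : ℝ) - k) := by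
        rcases le_or_gt k (a m) with h2 | h2
        · rw [← Nat.cast_sub h2]; exact_mod_cast Nat.choose_succ_right_eq (a m) k
        · rw [Nat.choose_eq_zero_of_lt h2, Nat.choose_eq_zero_of_lt (by omega)]; simp
      rw [← sub_div, div_mul_div_comm, ← e, ← pow_succ]
      field_simp
    · rw [Nat.factorial_succ]; push_cast; field_simp; ring

open Filter Topology in
theorem final : Tendsto (fun n : ℕ => sSup {x : ℝ | ∃ H : Finset (Finset (Fin n)), Hier H ∧
    x = (Set.ncard {S : Finset (Fin n) | Copy H S} : ℝ) / ((n.choose 8 : ℕ) : ℝ)})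
    atTop (𝓝 LL) := by
  obtain ⟨x, x0, x1, hx⟩ : ∃ x : ℝ, 0 < x ∧ x < 1 ∧ x * (1 - x) = (3 - √5) / 4 := by
    have h1 : (0 : ℝ) ≤ √5 - 2 := by linarith [s5l]
    have h2 := Real.sq_sqrt h1
    have h3 : √(√5 - 2) < 1 := Real.sqrt_lt' one_pos |>.2 (by linarith [s5u])
    have h4 := Real.sqrt_nonneg (√5 - 2)
    exact ⟨(1 - √(√5 - 2)) / 2, by linarith, by linarith, by nlinarith⟩
  have t1 : Tendsto (fun m : ℕ => ((m : ℕ) : ℝ) / m) atTop (𝓝 1) := by
    refine tendsto_const_nhds.congr' ?_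
    filter_upwards [eventually_gt_atTop 0] with m hm
    rw [div_self (by exact_mod_cast hm.ne')]
  have t2 : Tendsto (fun m : ℕ => ((⌊x * m⌋₊ : ℕ) : ℝ) / m) atTop (𝓝 x) :=
    (tendsto_nat_floor_mul_div_atTop x0.le).comp tendsto_natCast_atTop_atTop
  have fl : ∀ m : ℕ, ⌊x * m⌋₊ ≤ m := fun m =>
    Nat.floor_le_of_le (mul_le_of_le_one_left (Nat.cast_nonneg _) x1.le)
  have t3 : Tendsto (fun m : ℕ => ((m - ⌊x * m⌋₊ : ℕ) : ℝ) / m) atTop (𝓝 (1 - x)) := by
    refine (t1.sub t2).congr fun m => ?_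
    rw [Nat.cast_sub (fl m), sub_div]
  have c8 := lim_choose _ _ t1 8
  have lo := (((lim_choose _ _ t2 2).mul (lim_choose _ _ t3 6)).add
    ((lim_choose _ _ t2 6).mul (lim_choose _ _ t3 2))).div c8 (by norm_num [Nat.factorial])
  have hi := (tendsto_const_nhds (x := LL / 40320)).div c8 (by norm_num [Nat.factorial])
  have e1 : (x ^ 2 / (Nat.factorial 2 : ℝ) * ((1 - x) ^ 6 / (Nat.factorial 6 : ℝ)) +
      x ^ 6 / (Nat.factorial 6 : ℝ) * ((1 - x) ^ 2 / (Nat.factorial 2 : ℝ))) /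
      (1 ^ 8 / (Nat.factorial 8 : ℝ)) = LL := by
    have : LL = 28 * (x * (1 - x)) ^ 2 * (1 - 4 * (x * (1 - x)) + 2 * (x * (1 - x)) ^ 2) := by
      rw [hx, LL]
      have h2 := s5
      generalize √5 = r at *
      have r3 : r ^ 3 = 5 * r := by rw [pow_succ, h2]
      have r4 : r ^ 4 = 25 := by rw [show r ^ 4 = (r ^ 2) ^ 2 by ring, h2]; norm_num
      ring_nf
      rw [r4, r3, h2]
      ring
    rw [this]; norm_num [Nat.factorial]; ring
  have e2 : LL / 40320 / (1 ^ 8 / (Nat.factorial 8 : ℝ)) = LL := by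
    norm_num [Nat.factorial]; ring
  rw [e1] at lo
  rw [e2] at hi
  have ub : ∀ m : ℕ, 8 ≤ m → ∀ y ∈ {x : ℝ | ∃ H : Finset (Finset (Fin m)), Hier H ∧
      x = (Set.ncard {S : Finset (Fin m) | Copy H S} : ℝ) / ((m.choose 8 : ℕ) : ℝ)},
      y ≤ LL / 40320 / ((m.choose 8 : ℝ) / (m : ℝ) ^ 8) := by
    rintro m hm y ⟨H, hH, rfl⟩
    have h1 := upper H hH.2.2.2.1 hH.2.2.2.2 _ univ hH.1 rfl
    have h2 : {S : Finset (Fin m) | Copy H S}.ncard ≤ (XX H univ).card := by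
      rw [← Set.ncard_coe_finset]
      exact Set.ncard_le_ncard (fun S hS => copy_mem H S hS) (Set.toFinite _)
    have h3 : ({S : Finset (Fin m) | Copy H S}.ncard : ℝ) ≤ (XX H univ).card := by exact_mod_cast h2
    rw [card_univ, Fintype.card_fin] at h1
    rw [div_div_eq_mul_div]
    gcongr
    linarith
  have ex : ∀ᶠ m : ℕ in atTop, ∃ y ∈ {x : ℝ | ∃ H : Finset (Finset (Fin m)), Hier H ∧
      x = (Set.ncard {S : Finset (Fin m) | Copy H S} : ℝ) / ((m.choose 8 : ℕ) : ℝ)},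
      (((⌊x * m⌋₊).choose 2 : ℝ) / (m : ℝ) ^ 2 * (((m - ⌊x * m⌋₊).choose 6 : ℝ) / (m : ℝ) ^ 6) +
        ((⌊x * m⌋₊).choose 6 : ℝ) / (m : ℝ) ^ 6 * (((m - ⌊x * m⌋₊).choose 2 : ℝ) / (m : ℝ) ^ 2)) /
        ((m.choose 8 : ℝ) / (m : ℝ) ^ 8) ≤ y := by
    filter_upwards [t2.eventually_const_lt x0, t3.eventually_const_lt (sub_pos.2 x1),
      eventually_gt_atTop 0] with m h1 h2 h3
    have m0 : (0 : ℝ) < m := by exact_mod_cast h3
    have h4 : 0 < ⌊x * m⌋₊ := by
      have := (div_pos_iff_of_pos_right m0).1 h1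
      exact_mod_cast this
    have h5 : 0 < m - ⌊x * m⌋₊ := by
      have := (div_pos_iff_of_pos_right m0).1 h2
      exact_mod_cast this
    obtain ⟨X, -, hX⟩ := exists_subset_card_eq (s := (univ : Finset (Fin m))) (n := ⌊x * m⌋₊)
      (by simpa using fl m)
    refine ⟨_, ⟨HH X, hier_HH X (card_pos.1 (by omega))
      (card_pos.1 (by rw [card_compl, Fintype.card_fin]; omega)), rfl⟩, ?_⟩
    have h6 := lower X
    rw [hX] at h6
    have h7 : ((⌊x * m⌋₊).choose 2 : ℝ) * ((m - ⌊x * m⌋₊).choose 6 : ℝ) +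
        ((⌊x * m⌋₊).choose 6 : ℝ) * ((m - ⌊x * m⌋₊).choose 2 : ℝ) ≤
        ({S | Copy (HH X) S}.ncard : ℝ) := by exact_mod_cast h6
    rw [div_div_eq_mul_div]
    gcongr
    refine le_trans (le_of_eq ?_) h7
    field_simp
  refine tendsto_of_tendsto_of_tendsto_of_le_of_le' lo hi ?_ ?_
  · filter_upwards [ex, eventually_ge_atTop 8] with m ⟨y, h1, h2⟩ hm
    exact h2.trans (le_csSup ⟨_, ub m hm⟩ h1)
  · filter_upwards [ex, eventually_ge_atTop 8] with m ⟨y, h1, _⟩ hm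
    exact csSup_le ⟨y, h1⟩ (ub m hm)

theorem irr : Irrational LL := by
  have h := ((Nat.prime_five.irrational_sqrt.ratCast_mul (q := 35 / 4) (by norm_num)).sub_ratCast
    (77 / 4))
  unfold LL
  convert h using 2 <;> norm_num

end Pool.Agent.H16.Induc
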