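import Mathlib

/-! Truth tables of Boolean functions of `n` variables stored as `2 ^ n`-bit numbers. -/

namespace Pool.Agent.H16.TT

/-- the constant true table -/
def ones (n : ℕ) : ℕ := 2 ^ (2 ^ n) - 1

/-- the table of the `i`-th variable -/
def X : ℕ → ℕ → ℕ
  | 0, _ => 0
  | n + 1, i => if i = n then ones n <<< 2 ^ n else X n i ||| (X n i <<< 2 ^ n)

theorem testBit_ones (n s : ℕ) : (ones n).testBit s = decide (s < 2 ^ n) := by
  unfold ones; rw [Nat.testBit_two_pow_sub_one]

theorem testBit_X (n i s : ℕ) : (X n i).testBit s = (decide (s < 2 ^ n) && s.testBit i) := by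
  induction n generalizing s with
  | zero =>
    simp only [X, Nat.zero_testBit, pow_zero, Nat.lt_one_iff]
    by_cases h : s = 0
    · subst h; simp
    · simp [h]
  | succ n ih =>
    have hp : 2 ^ (n + 1) = 2 ^ n + 2 ^ n := by rw [pow_succ]; omega
    unfold X
    split_ifs with h
    · subst h
      rw [Nat.testBit_shiftLeft, testBit_ones]
      by_cases h1 : s < 2 ^ i
      · have : s.testBit i = false := Nat.testBit_lt_two_pow h1
        simp [this]; omega
      · by_cases h2 : s < 2 ^ (i + 1)
        · have : s.testBit i = true := by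
            obtain ⟨t, rfl⟩ : ∃ t, s = 2 ^ i + t := ⟨s - 2 ^ i, by omega⟩
            rw [Nat.testBit_two_pow_add_eq, Nat.testBit_lt_two_pow (by omega)]; rfl
          simp [this, h2]; omega
        · simp [h2]; omega
    · rw [Nat.testBit_or, Nat.testBit_shiftLeft, ih, ih]
      by_cases h1 : s < 2 ^ n
      · have h2 : s < 2 ^ (n + 1) := by omega
        have h3 : ¬ s ≥ 2 ^ n := by omega
        simp [h1, h2, h3]
      · by_cases h2 : s < 2 ^ (n + 1)
        · obtain ⟨t, rfl⟩ : ∃ t, s = 2 ^ n + t := ⟨s - 2 ^ n, by omega⟩
          have ht : t < 2 ^ n := by omega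
          have h4 : (2 ^ n + t).testBit i = t.testBit i := by
            rcases lt_or_gt_of_ne h with h5 | h5
            · exact Nat.testBit_two_pow_add_gt h5 t
            · have : 2 ^ (n + 1) ≤ 2 ^ i := Nat.pow_le_pow_right (by norm_num) h5
              rw [Nat.testBit_lt_two_pow (by omega), Nat.testBit_lt_two_pow (by omega)]
          simp [h2, ht, h4]
        · have h3 : ¬ s - 2 ^ n < 2 ^ n := by omega
          simp [h1, h2, h3]

/-- one step of the unary counter -/
def step (b : ℕ) : ℕ → List ℕ → List ℕ
  | _, [] => []
  | prev, c :: l => (c ||| (prev &&& b)) :: step b c l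

/-- `geTab n K bs` lists, for `k = 0, …, K`, the table of: at least `k` of the tables `bs` hold -/
def geTab (n K : ℕ) : List ℕ → List ℕ
  | [] => ones n :: List.replicate K 0
  | b :: bs => step b 0 (geTab n K bs)

theorem step_length (b prev : ℕ) (l : List ℕ) : (step b prev l).length = l.length := by
  induction l generalizing prev with
  | nil => rfl
  | cons c l ih => simp [step, ih]

theorem step_getD (b prev : ℕ) (l : List ℕ) (k : ℕ) (hk : k < l.length) :
    (step b prev l).getD k 0 = (l.getD k 0 ||| ((prev :: l).getD k 0 &&& b)) := by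
  induction l generalizing prev k with
  | nil => simp at hk
  | cons c l ih =>
    cases k with
    | zero => simp [step]
    | succ k =>
      simp only [step, List.getD_cons_succ]
      exact ih c k (by simpa using hk)

theorem geTab_length (n K : ℕ) (bs : List ℕ) : (geTab n K bs).length = K + 1 := by
  induction bs with
  | nil => simp [geTab]
  | cons b bs ih => simp [geTab, step_length, ih]

theorem testBit_geTab (n K : ℕ) (bs : List ℕ) (k s : ℕ) (hk : k ≤ K) (hs : s < 2 ^ n) :
    ((geTab n K bs).getD k 0).testBit s = decide (k ≤ bs.countP (fun b => b.testBit s)) := by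
  induction bs generalizing k with
  | nil =>
    cases k with
    | zero => simp [geTab, testBit_ones, hs]
    | succ k =>
      simp only [geTab, List.getD_cons_succ, List.countP_nil]
      rw [List.getD_eq_getElem?_getD, List.getElem?_replicate]
      split_ifs <;> simp
  | cons b bs ih =>
    simp only [geTab]
    rw [step_getD _ _ _ _ (by rw [geTab_length]; omega), Nat.testBit_or, Nat.testBit_and,
      ih k hk, List.countP_cons]
    cases k with
    | zero => simp
    | succ k =>
      rw [List.getD_cons_succ, ih k (by omega)]
      by_cases hb : b.testBit s = true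
      · simp only [hb, Bool.and_true, if_true]
        by_cases h1 : k ≤ bs.countP (fun b => b.testBit s)
        · simp [h1]
        · have h2 : ¬ k + 1 ≤ bs.countP (fun b => b.testBit s) := by omega
          simp [h1, h2]
      · simp [hb]

/-- conjunction of the variable tables listed in `l` -/
def andX (n : ℕ) : List ℕ → ℕ
  | [] => ones n
  | i :: l => X n i &&& andX n l

theorem testBit_andX (n : ℕ) (l : List ℕ) (s : ℕ) (hs : s < 2 ^ n) :
    (andX n l).testBit s = true ↔ ∀ i ∈ l, s.testBit i = true := by
  induction l with
  | nil => simp [andX, testBit_ones, hs]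
  | cons i l ih => simp [andX, Nat.testBit_and, testBit_X, hs, ih]

/-- disjunction of a list of tables -/
def orL : List ℕ → ℕ
  | [] => 0
  | a :: l => a ||| orL l

theorem testBit_orL (l : List ℕ) (s : ℕ) :
    (orL l).testBit s = true ↔ ∃ a ∈ l, a.testBit s = true := by
  induction l with
  | nil => simp [orL]
  | cons a l ih => simp [orL, Nat.testBit_or, ih]

/-- conjunction of a list of tables -/
def andL (n : ℕ) : List ℕ → ℕ
  | [] => ones n
  | a :: l => a &&& andL n l

theorem testBit_andL (n : ℕ) (l : List ℕ) (s : ℕ) (hs : s < 2 ^ n) :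
    (andL n l).testBit s = true ↔ ∀ a ∈ l, a.testBit s = true := by
  induction l with
  | nil => simp [andL, testBit_ones, hs]
  | cons a l ih => simp [andL, Nat.testBit_and, ih]

end Pool.Agent.H16.TT
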