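import Mathlib
import Pool.Agent.H16.TT

namespace Pool.Agent.H16.InterCount

open Finset

abbrev U : Type := Finset (Fin 7)

def ic (s : ℕ) (A : Finset U) : ℕ :=
  ((A.powersetCard s).filter (fun F => ∀ X ∈ F, ∀ Y ∈ F, X ≠ Y → ¬ Disjoint X Y)).card

theorem ic_zero (A : Finset U) : ic 0 A = 1 := by
  unfold ic
  rw [powersetCard_zero, filter_true_of_mem (by simp), card_singleton]

theorem ic_empty (s : ℕ) : ic (s + 1) ∅ = 0 := by
  unfold ic
  rw [powersetCard_eq_empty.2 (by simp)]; simp

theorem ic_insert (s : ℕ) (B : Finset U) (X : U) (hX : X ∉ B) :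
    ic (s + 1) (insert X B) = ic (s + 1) B + ic s (B.filter (fun Y => ¬ Disjoint X Y)) := by
  unfold ic
  rw [powersetCard_succ_insert hX, filter_union, card_union_of_disjoint]
  · congr 1
    rw [filter_image, card_image_of_injOn]
    · congr 1
      ext F
      simp only [mem_filter, mem_powersetCard, subset_iff, mem_insert, forall_eq_or_imp]
      constructor
      · rintro ⟨⟨h1, h2⟩, ⟨-, h3⟩, h4⟩
        exact ⟨⟨fun Y hY => ⟨h1 hY, h3 Y hY (fun e => hX (e ▸ h1 hY))⟩, h2⟩,
          fun Y hY => (h4 Y hY).2⟩
      · rintro ⟨⟨h1, h2⟩, h3⟩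
        exact ⟨⟨fun Y hY => (h1 hY).1, h2⟩, ⟨fun h => absurd rfl h, fun Y hY _ => (h1 hY).2⟩,
          fun Y hY => ⟨fun _ h => (h1 hY).2 h.symm, h3 Y hY⟩⟩
    · intro F hF G hG h
      have h1 : X ∉ F := fun h => hX ((mem_powersetCard.1 (mem_filter.1 hF).1).1 h)
      have h2 : X ∉ G := fun h => hX ((mem_powersetCard.1 (mem_filter.1 hG).1).1 h)
      rw [← erase_insert h1, ← erase_insert h2]
      exact congrArg (·.erase X) h
  · rw [disjoint_left]
    intro F h1 h2
    obtain ⟨G, -, rfl⟩ := mem_image.1 (mem_filter.1 h2).1
    exact hX ((mem_powersetCard.1 (mem_filter.1 h1).1).1 (mem_insert_self _ _))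

attribute [irreducible] ic

theorem ic_one (A : Finset U) : ic 1 A = A.card := by
  induction A using Finset.induction_on with
  | empty => exact ic_empty 0
  | insert X B hX ih => rw [ic_insert 0 B X hX, ih, ic_zero, card_insert_of_notMem hX]

theorem ic_image (f : U → U) (hf : Function.Injective f)
    (hd : ∀ X Y, Disjoint (f X) (f Y) ↔ Disjoint X Y) (m : ℕ) :
    ∀ A : Finset U, A.card ≤ m → ∀ s, ic s (A.image f) = ic s A := by
  induction m with
  | zero => intro A hA s; rw [card_eq_zero.1 (Nat.le_zero.1 hA)]; simp
  | succ m ih =>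
    intro A hA s
    rcases s with _ | s
    · rw [ic_zero, ic_zero]
    rcases A.eq_empty_or_nonempty with rfl | ⟨X, hX⟩
    · simp
    have h1 : (A.erase X).card ≤ m := by rw [card_erase_of_mem hX]; omega
    rw [← insert_erase hX, image_insert, ic_insert _ _ _ (notMem_erase _ _), ic_insert, ih _ h1,
      filter_image, ih _ ((card_filter_le _ _).trans h1)]
    · simp only [hd]
    · rw [mem_image]
      rintro ⟨Y, hY, h⟩
      exact (mem_erase.1 hY).1 (hf h)

theorem exchange (A : Finset U) (h : ∀ B : Finset U, B.card = A.card → ic 2 B ≤ ic 2 A)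
    (X Y : U) (hX : X ∉ A) (hY : Y ∈ A) :
    ((A.erase Y).filter (fun W => Disjoint Y W)).card ≤
      ((A.erase Y).filter (fun W => Disjoint X W)).card := by
  have h1 : X ∉ A.erase Y := fun h => hX (mem_of_mem_erase h)
  have h2 := h (insert X (A.erase Y)) (by
    rw [card_insert_of_notMem h1, card_erase_add_one hY])
  have h3 := ic_insert 1 (A.erase Y) Y (notMem_erase _ _)
  rw [insert_erase hY] at h3
  rw [ic_insert 1 _ _ h1, h3, ic_one, ic_one] at h2
  have h4 := card_filter_add_card_filter_not (s := A.erase Y) (fun W => Disjoint Y W)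
  have h5 := card_filter_add_card_filter_not (s := A.erase Y) (fun W => Disjoint X W)
  omega

theorem lowdis (A : Finset U) (Y : U) (hY : Y ≠ ∅) (p : U → Prop) [DecidablePred p] :
    (univ.filter (fun W => Disjoint Y W ∧ p W)).card ≤
      ((A.erase Y).filter (fun W => Disjoint Y W)).card + (Aᶜ.filter p).card := by
  refine le_trans (card_le_card ?_) (card_union_le _ _)
  intro W hW
  obtain ⟨-, h1, h2⟩ := mem_filter.1 hW
  by_cases h : W ∈ A
  · refine mem_union_left _ (mem_filter.2 ⟨mem_erase.2 ⟨?_, h⟩, h1⟩)
    rintro rfl
    exact hY ((disjoint_self_iff_empty _).1 h1)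
  · exact mem_union_right _ (mem_filter.2 ⟨mem_compl.2 h, h2⟩)

theorem dis (X : U) (p : ℕ → Prop) [DecidablePred p] :
    (univ.filter (fun W => Disjoint X W ∧ p W.card)).card =
      ∑ m ∈ range (7 - X.card + 1), (7 - X.card).choose m * if p m then 1 else 0 := by
  have h1 : univ.filter (fun W => Disjoint X W ∧ p W.card) =
      Xᶜ.powerset.filter (fun W => p W.card) := by
    ext W
    simp only [mem_filter, mem_univ, true_and, mem_powerset]
    rw [disjoint_comm, ← le_compl_iff_disjoint_right]
  rw [h1, card_filter, sum_powerset_apply_card (fun m => if p m then 1 else 0), card_compl]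
  simp

theorem card7 (X : U) : X.card ≤ 7 := by simpa using card_le_univ X

theorem f1 (X : U) (h : X ≠ ∅) : (univ.filter (fun W => Disjoint X W)).card ≤ 64 := by
  have h1 := dis X (fun _ => True)
  have h2 := card7 X
  have h3 := card_pos.2 (nonempty_iff_ne_empty.2 h)
  simp only [and_true] at h1
  rw [h1]
  interval_cases X.card <;> decide
theorem f2 (X : U) (h : 2 ≤ X.card) : (univ.filter (fun W => Disjoint X W)).card ≤ 32 := by
  have h1 := dis X (fun _ => True)
  have h2 := card7 X
  simp only [and_true] at h1
  rw [h1]
  interval_cases X.card <;> decide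
theorem f3 (X : U) (h : 3 ≤ X.card) :
    (univ.filter (fun W => Disjoint X W ∧ 2 ≤ W.card)).card ≤ 11 := by
  have h2 := card7 X
  rw [dis X (fun m => 2 ≤ m)]
  interval_cases X.card <;> decide
theorem f4 (X : U) (h : X.card = 1) :
    (univ.filter (fun W => Disjoint X W ∧ True)).card = 64 := by
  rw [dis X (fun _ => True), h]; decide
theorem f5 (X : U) (h : X.card = 2) :
    (univ.filter (fun W => Disjoint X W ∧ 2 ≤ W.card)).card = 26 := by
  rw [dis X (fun m => 2 ≤ m), h]; decide
theorem f6 : (univ.filter (fun W : U => ¬ 2 ≤ W.card)).card = 8 := by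
  have := dis ∅ (fun m => ¬ 2 ≤ m)
  simp only [disjoint_empty_left, true_and] at this
  rw [this]; decide

def Big : Finset U := univ.filter (fun W => 3 ≤ W.card)

theorem f7 : Big.card = 99 := by
  have := dis ∅ (fun m => 3 ≤ m)
  simp only [disjoint_empty_left, true_and] at this
  rw [Big, this]; decide
theorem f8 (X : U) (h : X.card = 2) : (Big.filter (fun W => ¬ Disjoint X W)).card = 83 := by
  have h1 := card_filter_add_card_filter_not (s := Big) (fun W => Disjoint X W)
  have h2 : (Big.filter (fun W => Disjoint X W)).card = 16 := by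
    rw [Big, filter_filter]
    simp only [and_comm (b := Disjoint X _)]
    rw [dis X (fun m => 3 ≤ m), h]; decide
  rw [f7] at h1
  omega

theorem mem_Big (X : U) : X ∈ Big ↔ 3 ≤ X.card := by simp [Big]

attribute [irreducible] Big

theorem shape (A : Finset U) (hA : A.card = 109)
    (h : ∀ B : Finset U, B.card = A.card → ic 2 B ≤ ic 2 A) :
    ∃ G : Finset U, (∀ X ∈ G, X.card = 2) ∧ G.card = 10 ∧ A = Big ∪ G := by
  have hR : Aᶜ.card = 19 := by rw [card_compl, hA]; simp
  have s0 : ∅ ∉ A := by
    intro h0
    obtain ⟨X, hX⟩ := card_pos.1 (show 0 < Aᶜ.card by omega)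
    have h1 := exchange A h X ∅ (mem_compl.1 hX) h0
    rw [filter_true_of_mem (by simp), card_erase_of_mem h0] at h1
    have h2 := f1 X (by rintro rfl; exact mem_compl.1 hX h0)
    have h3 := card_le_card (filter_subset_filter (fun W => Disjoint X W)
      (subset_univ (A.erase ∅)))
    omega
  have hsm : (Aᶜ.filter (fun W : U => ¬ 2 ≤ W.card)).card ≤ 8 := by
    rw [← f6]; exact card_le_card (filter_subset_filter _ (subset_univ _))
  have hsp := card_filter_add_card_filter_not (s := Aᶜ) (fun W : U => 2 ≤ W.card)
  have s1 : ∀ Y ∈ A, 2 ≤ Y.card := by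
    intro Y hY
    by_contra hc
    have h0 : Y ≠ ∅ := by rintro rfl; exact s0 hY
    have h1 : Y.card = 1 := by
      have := card_pos.2 (nonempty_iff_ne_empty.2 h0); omega
    obtain ⟨X, hX⟩ := card_pos.1 (show 0 < (Aᶜ.filter (fun W : U => 2 ≤ W.card)).card by omega)
    obtain ⟨hX1, hX2⟩ := mem_filter.1 hX
    have h2 := exchange A h X Y (mem_compl.1 hX1) hY
    have h3 := f2 X hX2
    have h4 := card_le_card (filter_subset_filter (fun W => Disjoint X W)
      (subset_univ (A.erase Y)))
    have h5 := lowdis A Y h0 (fun _ => True)
    rw [f4 Y h1, filter_true] at h5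
    omega
  have hsm' : (Aᶜ.filter (fun W : U => ¬ 2 ≤ W.card)).card = 8 := by
    rw [← f6]; congr 1
    ext W
    simp only [mem_filter, mem_compl, mem_univ, true_and]
    exact ⟨fun h => h.2, fun h => ⟨fun h' => h (s1 W h'), h⟩⟩
  have s2 : Big ⊆ A := by
    intro X hX
    by_contra hc
    obtain ⟨Y, hY, hY2⟩ : ∃ Y ∈ A, Y ∉ Big := by
      by_contra hn
      push Not at hn
      have := card_le_card hn
      rw [f7] at this; omega
    have h1 : Y.card = 2 := by
      have := s1 Y hY
      rw [mem_Big] at hY2
      omega
    have h2 := exchange A h X Y hc hY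
    have h3 := f3 X ((mem_Big X).1 hX)
    have h4 : ((A.erase Y).filter (fun W => Disjoint X W)).card ≤
        (univ.filter (fun W => Disjoint X W ∧ 2 ≤ W.card)).card := by
      apply card_le_card
      intro W hW
      obtain ⟨h1, h2⟩ := mem_filter.1 hW
      exact mem_filter.2 ⟨mem_univ _, h2, s1 W (mem_of_mem_erase h1)⟩
    have h5 := lowdis A Y (by rintro rfl; simp at h1) (fun W => 2 ≤ W.card)
    rw [f5 Y h1] at h5
    omega
  refine ⟨A \ Big, fun X hX => ?_, by rw [card_sdiff_of_subset s2, f7, hA],
    (union_sdiff_of_subset s2).symm⟩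
  obtain ⟨h1, h2⟩ := mem_sdiff.1 hX
  have := s1 X h1
  rw [mem_Big] at h2
  omega

theorem ic2_gen (B : Finset U) (hB : ∀ X : U, X.card = 2 → X ∉ B)
    (hB2 : ∀ X : U, X.card = 2 → (B.filter (fun W => ¬ Disjoint X W)).card = 83)
    (G : Finset U) (hG : ∀ X ∈ G, X.card = 2) :
    ic 2 (B ∪ G) = ic 2 B + 83 * G.card + ic 2 G := by
  induction G using Finset.induction_on with
  | empty => rw [union_empty, ic_empty]; rfl
  | insert X G hX ih =>
    have h1 := hG X (mem_insert_self _ _)
    have h2 : ∀ Y ∈ G, Y.card = 2 := fun Y hY => hG Y (mem_insert_of_mem hY)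
    have hd : Disjoint B G := by
      rw [disjoint_left]
      intro Y hY hY'
      exact hB Y (h2 Y hY') hY
    rw [union_insert, ic_insert 1 _ _ (by simp [hX, hB X h1]), ic_insert 1 _ _ hX, ih h2, ic_one,
      ic_one, filter_union, card_union_of_disjoint (disjoint_filter_filter hd), hB2 X h1,
      card_insert_of_notMem hX]
    simp only [Nat.reduceAdd]
    omega

theorem ic2_le (B : Finset U) (hB : ∀ X : U, X.card = 2 → X ∉ B)
    (hB2 : ∀ X : U, X.card = 2 → (B.filter (fun W => ¬ Disjoint X W)).card = 83)
    (G G' : Finset U) (hG : ∀ X ∈ G, X.card = 2) (hG' : ∀ X ∈ G', X.card = 2)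
    (hc : G.card = G'.card) (h : ic 2 (B ∪ G) ≤ ic 2 (B ∪ G')) : ic 2 G ≤ ic 2 G' := by
  rw [ic2_gen B hB hB2 G hG, ic2_gen B hB hB2 G' hG', hc] at h
  omega

theorem ic2_big (G G' : Finset U) (hG : ∀ X ∈ G, X.card = 2) (hG' : ∀ X ∈ G', X.card = 2)
    (hc : G.card = G'.card) (h : ic 2 (Big ∪ G) ≤ ic 2 (Big ∪ G')) : ic 2 G ≤ ic 2 G' :=
  ic2_le Big (fun X h => by rw [mem_Big]; omega) f8 G G' hG hG' hc h

/-! the class-by-class count -/

def famL (L : List U) (p : U → Bool) : Finset U :=
  univ.filter (fun X => (X ∈ L ∨ Xᶜ ∈ L) ∧ p X = true)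

def mp (p : U → Bool) (c : U) : U → Bool := fun X => p X && decide (¬ Disjoint c X)

theorem famL_filter (L : List U) (p : U → Bool) (c : U) :
    (famL L p).filter (fun Y => ¬ Disjoint c Y) = famL L (mp p c) := by
  ext X; simp [famL, mp, and_assoc]

theorem ne_compl (c : U) : c ≠ cᶜ := by
  intro h
  by_cases h0 : (0 : Fin 7) ∈ c
  · exact mem_compl.1 (h ▸ h0) h0
  · exact h0 (h ▸ mem_compl.2 h0)

theorem ic_cons (L : List U) (p : U → Bool) (c : U) (h1 : c ∉ L) (h2 : cᶜ ∉ L) (k : ℕ) :
    ic (k + 1) (famL (c :: L) p) = ic (k + 1) (famL L p) +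
      (if p c then ic k (famL L (mp p c)) else 0) +
      (if p cᶜ then ic k (famL L (mp p cᶜ)) else 0) := by
  have n1 : c ∉ famL L p := by simp [famL, h1, h2]
  have n2 : cᶜ ∉ famL L p := by simp [famL, h1, h2]
  have key : ∀ X, X ∈ famL (c :: L) p ↔ (X = c ∧ p c) ∨ (X = cᶜ ∧ p cᶜ) ∨ X ∈ famL L p := by
    intro X
    simp only [famL, mem_filter, mem_univ, true_and, List.mem_cons, compl_eq_comm (y := c)]
    constructor
    · rintro ⟨(h | h) | h | h, h'⟩
      · exact Or.inl ⟨h, h ▸ h'⟩
      · exact Or.inr (Or.inr ⟨Or.inl h, h'⟩)
      · exact Or.inr (Or.inl ⟨h.symm, h ▸ h'⟩)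
      · exact Or.inr (Or.inr ⟨Or.inr h, h'⟩)
    · rintro (⟨rfl, h⟩ | ⟨rfl, h⟩ | ⟨h | h, h'⟩)
      · exact ⟨Or.inl (Or.inl rfl), h⟩
      · exact ⟨Or.inr (Or.inl rfl), h⟩
      · exact ⟨Or.inl (Or.inr h), h'⟩
      · exact ⟨Or.inr (Or.inr h), h'⟩
  by_cases a : p c = true <;> by_cases b : p cᶜ = true
  · have : famL (c :: L) p = insert c (insert cᶜ (famL L p)) := by
      ext X; simp [key, a, b]
    rw [this, ic_insert _ _ _ (by simp [n1, ne_compl c]), ic_insert _ _ _ n2, filter_insert,
      if_neg (by simp [disjoint_compl_right]), famL_filter, famL_filter, if_pos a, if_pos b]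
    ring
  · have : famL (c :: L) p = insert c (famL L p) := by
      ext X; simp [key, a, b]
    rw [this, ic_insert _ _ _ n1, famL_filter, if_pos a, if_neg b, add_zero]
  · have : famL (c :: L) p = insert cᶜ (famL L p) := by
      ext X; simp [key, a, b]
    rw [this, ic_insert _ _ _ n2, famL_filter, if_neg a, if_pos b, add_zero]
  · have : famL (c :: L) p = famL L p := by
      ext X; simp [key, a, b]
    rw [this, if_neg a, if_neg b]; rfl

def Good : List U → Prop
  | [] => True
  | c :: L => c ∉ L ∧ cᶜ ∉ L ∧ Good L

theorem ic_big (L : List U) (hL : Good L) : ∀ p k, L.length < k → ic k (famL L p) = 0 := by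
  induction L with
  | nil =>
    intro p k hk
    obtain ⟨k, rfl⟩ : ∃ j, k = j + 1 := ⟨k - 1, by simp at hk; omega⟩
    simpa [famL] using ic_empty k
  | cons c L ih =>
    intro p k hk
    obtain ⟨k, rfl⟩ : ∃ j, k = j + 1 := ⟨k - 1, by simp at hk; omega⟩
    simp only [List.length_cons] at hk
    rw [ic_cons L p c hL.1 hL.2.1, ih hL.2.2 _ _ (by omega), ih hL.2.2 _ _ (by omega),
      ih hL.2.2 _ _ (by omega)]
    simp

def code (X : U) : ℕ := ∑ i ∈ X, 2 ^ i.val

def mt (X : U) : ℕ := TT.orL (((List.finRange 7).filter (· ∈ X)).map (fun i => TT.X 7 i.val))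

theorem code_spec : ∀ Y : U, code Y < 2 ^ 7 ∧ ∀ i : Fin 7, (code Y).testBit i = decide (i ∈ Y) := by
  decide +kernel

theorem mt_spec (X Y : U) : (mt X).testBit (code Y) = decide (¬ Disjoint X Y) := by
  rw [Bool.eq_iff_iff, mt, TT.testBit_orL]
  simp [TT.testBit_X, (code_spec Y).2, not_disjoint_iff]
  have := (code_spec Y).1
  exact ⟨fun ⟨a, h1, _, h2⟩ => ⟨a, h1, h2⟩, fun ⟨a, h1, h2⟩ => ⟨a, h1, by simpa using this, h2⟩⟩

def tup (c : U) : ℕ × ℕ × ℕ × ℕ := (code c, mt c, code cᶜ, mt cᶜ)

def cnt : List (ℕ × ℕ × ℕ × ℕ) → ℕ → ℕ
  | [], _ => 1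
  | t :: L, M => (bif M.testBit t.1 then cnt L (M &&& t.2.1) else 0) +
      (bif M.testBit t.2.2.1 then cnt L (M &&& t.2.2.2) else 0)

theorem ic_cnt (L : List U) (hL : Good L) : ∀ M : ℕ,
    ic L.length (famL L (fun X => M.testBit (code X))) = cnt (L.map tup) M := by
  induction L with
  | nil => intro M; exact ic_zero _
  | cons c L ih =>
    intro M
    have e : ∀ d, mp (fun X => M.testBit (code X)) d = fun X => (M &&& mt d).testBit (code X) := by
      intro d; ext X; simp only [mp, Nat.testBit_and, mt_spec]
    rw [List.length_cons, ic_cons L _ c hL.1 hL.2.1, ic_big L hL.2.2 _ _ (by omega), e, e,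
      ih hL.2.2, ih hL.2.2]
    simp [cnt, tup, Bool.cond_eq_ite]

def cntD (T : List (ℕ × ℕ × ℕ × ℕ)) : List (ℕ × ℕ × ℕ × ℕ) → ℕ → ℕ
  | [], _ => 0
  | t :: L, M => (bif M.testBit t.1 then cnt (L ++ T) (M &&& t.2.1) else 0) +
      (bif M.testBit t.2.2.1 then cntD T L (M &&& t.2.2.2) else 0)

def fin : List (ℕ × ℕ × ℕ × ℕ) → ℕ → Option ℕ
  | [], M => some M
  | t :: L, M => bif M.testBit t.2.2.1 then fin L (M &&& t.2.2.2) else none

theorem cnt_split (T L : List (ℕ × ℕ × ℕ × ℕ)) : ∀ M,
    cnt (L ++ T) M = cntD T L M + ((fin L M).map (cnt T)).getD 0 := by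
  induction L with
  | nil => intro M; simp [cntD, fin]
  | cons t L ih =>
    intro M
    simp only [List.cons_append, cnt, cntD, fin]
    cases M.testBit t.2.2.1
    · simp
    · simp only [cond_true, ih]; ring

noncomputable def force (n : ℕ) (f : ℕ → ℕ) : ℕ := Nat.rec (f 0) (fun k _ => f (Nat.succ k)) n

theorem force_eq (n : ℕ) (f : ℕ → ℕ) : force n f = f n := by cases n <;> rfl

theorem tb (M a x : ℕ) : (Nat.rec 0 (fun _ _ => x) (Nat.land (Nat.shiftRight M a) 1) : ℕ) =
    bif M.testBit a then x else 0 := by
  have h : Nat.land (Nat.shiftRight M a) 1 = (M >>> a) % 2 := Nat.and_one_is_mod _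
  rw [h, Nat.testBit_eq_decide_div_mod_eq, Nat.shiftRight_eq_div_pow]
  rcases Nat.mod_two_eq_zero_or_one (M / 2 ^ a) with h | h <;> simp [h]

noncomputable def cntF (L : List (ℕ × ℕ × ℕ × ℕ)) : ℕ → ℕ :=
  List.rec (fun _ => 1) (fun t _ ih => Prod.rec (fun a t => Prod.rec (fun b t => Prod.rec
    (fun c d M => Nat.add
      (Nat.rec 0 (fun _ _ => force (Nat.land M b) ih) (Nat.land (Nat.shiftRight M a) 1))
      (Nat.rec 0 (fun _ _ => force (Nat.land M d) ih) (Nat.land (Nat.shiftRight M c) 1))) t) t) t) L

theorem cntF_eq (L : List (ℕ × ℕ × ℕ × ℕ)) : cntF L = cnt L := by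
  induction L with
  | nil => rfl
  | cons t L ih =>
    obtain ⟨a, b, c, d⟩ := t
    funext M
    change Nat.add
      (Nat.rec 0 (fun _ _ => force (Nat.land M b) (cntF L)) (Nat.land (Nat.shiftRight M a) 1))
      (Nat.rec 0 (fun _ _ => force (Nat.land M d) (cntF L)) (Nat.land (Nat.shiftRight M c) 1)) = _
    rw [tb, tb, force_eq, force_eq, ih]
    rfl

noncomputable def cntDF (T L : List (ℕ × ℕ × ℕ × ℕ)) : ℕ → ℕ :=
  List.rec (fun _ => 0) (fun t L ih M => Nat.add
    (Nat.rec 0 (fun _ _ => force (Nat.land M t.2.1) (cntF (L ++ T)))
      (Nat.land (Nat.shiftRight M t.1) 1))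
    (Nat.rec 0 (fun _ _ => force (Nat.land M t.2.2.2) ih)
      (Nat.land (Nat.shiftRight M t.2.2.1) 1))) L

theorem cntDF_eq (T L : List (ℕ × ℕ × ℕ × ℕ)) : cntDF T L = cntD T L := by
  induction L with
  | nil => rfl
  | cons t L ih =>
    funext M
    change Nat.add
      (Nat.rec 0 (fun _ _ => force (Nat.land M t.2.1) (cntF (L ++ T)))
        (Nat.land (Nat.shiftRight M t.1) 1))
      (Nat.rec 0 (fun _ _ => force (Nat.land M t.2.2.2) (cntDF T L))
        (Nat.land (Nat.shiftRight M t.2.2.1) 1)) = _
    rw [tb, tb, force_eq, force_eq, ih, cntF_eq]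
    rfl

def tS : List (ℕ × ℕ × ℕ × ℕ) :=
  [(0, 0, 127, 340282366920938463463374607431768211454), 
   (1, 226854911280625642308916404954512140970, 126, 340282366920938463463374607431768211452), 
   (2, 272225893536750770770699685945414569164, 125, 340282366920938463463374607431768211450), 
   (4, 320265757102059730318470218759311257840, 123, 340282366920938463463374607431768211438), 
   (8, 338958311018522360492699998064329424640, 119, 340282366920938463463374607431768211198), 
   (16, 340277174703306882242637262502835978240, 111, 340282366920938463463374607431768145918), 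
   (32, 340282366841710300967557013907638845440, 95, 340282366920938463463374607427473244158), 
   (64, 340282366920938463444927863358058659840, 63, 340282366920938463444927863358058659838), 
   (3, 317596875792875899232482966936316997358, 124, 340282366920938463463374607431768211440), 
   (5, 333610163647978885748406477874282560250, 122, 340282366920938463463374607431768211404), 
   (6, 336279044957162716834393729697276820732, 121, 340282366920938463463374607431768211370), 
   (9, 339841014953466429139816404309288615850, 118, 340282366920938463463374607431768210684), 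
   (10, 340017555740455242869239685558280454092, 117, 340282366920938463463374607431768210170), 
   (12, 340204481279619869170981983351330635760, 115, 340282366920938463463374607431768207086), 
   (17, 340280636181727936389795492455457467050, 110, 340282366920938463463374607431768014844), 
   (18, 340281328477412147219227138445981764812, 109, 340282366920938463463374607431767883770), 
   (20, 340282061496371899862154763612419256560, 107, 340282366920938463463374607431767097326), 
   (24, 340282346717757017622048781186908552960, 103, 340282366920938463463374607431751368446), 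
   (33, 340282366894529075964768742923725089450, 94, 340282366920938463463374607418883309564), 
   (34, 340282366905092830964211088726942338252, 93, 340282366920938463463374607410293374970), 
   (36, 340282366916277983316561807812701778160, 91, 340282366920938463463374607358753767406), 
   (40, 340282366920630182675453138196265762560, 87, 340282366920938463463374606327961616126), 
   (48, 340282366920937254556001736876302991360, 79, 340282366920938463463374325952496467966), 
   (65, 340282366920938463457225692740531694250, 62, 340282366920938463408034375210639556604), 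
   (66, 340282366920938463459685258617026301132, 61, 340282366920938463371140887063220453370), 
   (68, 340282366920938463462289504839197061360, 59, 340282366920938463149779958178705833966), 
   (72, 340282366920938463463302830217473621760, 55, 340282366920938458722561380488413445886), 
   (80, 340282366920938463463374325961086402560, 47, 340282366920937254519108248728883888126), 
   (96, 340282366920938463463374607427473244160, 31, 340282366841710300930663525760219742206)]

def tT : List (ℕ × ℕ × ℕ × ℕ) :=
  [(7, 338947926266346547920380981520271081214, 120, 340282366920938463463374607431768211200), 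
   (11, 340194096527444056598662966807272292334, 116, 340282366920938463463374607431768207600), 
   (13, 340256405040498932032577066071622352890, 114, 340282366920938463463374607431768198348), 
   (14, 340266789792674744604896082615680696316, 113, 340282366920938463463374607431768189610), 
   (19, 340282020773096358048658784436506062574, 108, 340282366920938463463374607431767228400), 
   (21, 340282265112749608929634659491985226490, 106, 340282366920938463463374607431764869068), 
   (22, 340282305836025150743130638667898420476, 105, 340282366920938463463374607431762640810), 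
   (25, 340282360186544648182932665350148325290, 102, 340282366920938463463374607431717682428), 
   (26, 340282362880302174295109442182796279756, 101, 340282366920938463463374607431683996410), 
   (28, 340282365732516025472708382358541172720, 99, 340282366920938463463374607431481880302), 
   (35, 340282366915656585963653434530159587054, 92, 340282366920938463463374607367343702000), 
   (37, 340282366919384970081103674225412733690, 90, 340282366920938463463374607212724879308), 
   (38, 340282366920006367434012047507954924796, 89, 340282366920938463463374607066695991210), 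
   (41, 340282366920835703200734117686600728490, 86, 340282366920938463463374604120348425468), 
   (42, 340282366920876807305790313584667721676, 85, 340282366920938463463374601912735234810), 
   (44, 340282366920920329299379226888503361520, 83, 340282366920938463463374588667056090862), 
   (49, 340282366920938060494250317246613138090, 78, 340282366920938463463373762993952980988), 
   (50, 340282366920938221681900033320675167436, 77, 340282366920938463463373200035409494010), 
   (52, 340282366920938392351176203281446727920, 75, 340282366920938463463369822284148572142), 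
   (56, 340282366920938458759454868635832549120, 71, 340282366920938463463302267258930134782), 
   (67, 340282366920938463462144824493520908014, 60, 340282366920938463186673446326124937200), 
   (69, 340282366920938463463012906567577828090, 58, 340282366920938462522590659672581078988), 
   (70, 340282366920938463463157586913253981436, 57, 340282366920938461895401361166456324010), 
   (73, 340282366920938463463350681693670014890, 54, 340282366920938449240934926601703914748), 
   (74, 340282366920938463463360251988909293516, 53, 340282366920938439759308472714994383610), 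
   (76, 340282366920938463463370385242692059120, 51, 340282366920938382869549749394737196782), 
   (81, 340282366920938463463374513608207608490, 46, 340282366920934836630575531323115241468), 
   (82, 340282366920938463463374551137631849676, 45, 340282366920932418742042813917346594810), 
   (84, 340282366920938463463374590874669281520, 43, 340282366920917911410846509482734714862), 
   (88, 340282366920938463463374606336551550720, 39, 340282366920627764786920420790497115902), 
   (97, 340282366920938463463374607430336555690, 30, 340282366683253975865241362417122803708), 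
   (98, 340282366920938463463374607430909217996, 29, 340282366524797650799819199074025865210), 
   (100, 340282366920938463463374607431515566320, 27, 340282365574059700407286219015444234222), 
   (104, 340282366920938463463374607431751499520, 23, 340282346559300692556626617843811614462), 
   (112, 340282366920938463463374607431768145920, 15, 340277174544850557177215099159739039742)]

end Pool.Agent.H16.InterCount
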