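import Mathlib
import Pool.Agent.H16.InterCount

namespace Pool.Agent.H16.InterCount

theorem cQF : cntDF tT tS 340282366841709086913542264143983079144 = 65719 := by decide +kernel

end Pool.Agent.H16.InterCount
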