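import Mathlib
import Pool.Agent.H16.InterCountcK
import Pool.Agent.H16.InterCountcQ

namespace Pool.Agent.H16.InterCount

open Finset TT

def PP : Fin 21 → U :=
  ![{0, 1}, {0, 2}, {0, 3}, {0, 4}, {0, 5}, {0, 6}, {1, 2}, {1, 3}, {1, 4}, {1, 5}, {1, 6}, 
   {2, 3}, {2, 4}, {2, 5}, {2, 6}, {3, 4}, {3, 5}, {3, 6}, {4, 5}, {4, 6}, {5, 6}]

def adj : List (ℕ × ℕ) :=
  [(0, 1), (0, 2), (0, 3), (0, 4), (0, 5), (0, 6), (0, 7), (0, 8), (0, 9), (0, 10), (1, 2), 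
   (1, 3), (1, 4), (1, 5), (1, 6), (1, 11), (1, 12), (1, 13), (1, 14), (2, 3), (2, 4), (2, 5), 
   (2, 7), (2, 11), (2, 15), (2, 16), (2, 17), (3, 4), (3, 5), (3, 8), (3, 12), (3, 15), 
   (3, 18), (3, 19), (4, 5), (4, 9), (4, 13), (4, 16), (4, 18), (4, 20), (5, 10), (5, 14), 
   (5, 17), (5, 19), (5, 20), (6, 7), (6, 8), (6, 9), (6, 10), (6, 11), (6, 12), (6, 13), 
   (6, 14), (7, 8), (7, 9), (7, 10), (7, 11), (7, 15), (7, 16), (7, 17), (8, 9), (8, 10), 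
   (8, 12), (8, 15), (8, 18), (8, 19), (9, 10), (9, 13), (9, 16), (9, 18), (9, 20), (10, 14), 
   (10, 17), (10, 19), (10, 20), (11, 12), (11, 13), (11, 14), (11, 15), (11, 16), (11, 17), 
   (12, 13), (12, 14), (12, 15), (12, 18), (12, 19), (13, 14), (13, 16), (13, 18), (13, 20), 
   (14, 17), (14, 19), (14, 20), (15, 16), (15, 17), (15, 18), (15, 19), (16, 17), (16, 18), 
   (16, 20), (17, 19), (17, 20), (18, 19), (18, 20), (19, 20)]

def abl : List (Fin 7 × Fin 7 × List ℕ) :=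
  [(0, 1, [11, 12, 13, 14, 15, 16, 17, 18, 19, 20]), 
   (0, 2, [7, 8, 9, 10, 15, 16, 17, 18, 19, 20]), (0, 3, [6, 8, 9, 10, 12, 13, 14, 18, 19, 20]), 
   (0, 4, [6, 7, 9, 10, 11, 13, 14, 16, 17, 20]), (0, 5, [6, 7, 8, 10, 11, 12, 14, 15, 17, 19]), 
   (0, 6, [6, 7, 8, 9, 11, 12, 13, 15, 16, 18]), (1, 2, [2, 3, 4, 5, 15, 16, 17, 18, 19, 20]), 
   (1, 3, [1, 3, 4, 5, 12, 13, 14, 18, 19, 20]), (1, 4, [1, 2, 4, 5, 11, 13, 14, 16, 17, 20]), 
   (1, 5, [1, 2, 3, 5, 11, 12, 14, 15, 17, 19]), (1, 6, [1, 2, 3, 4, 11, 12, 13, 15, 16, 18]), 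
   (2, 3, [0, 3, 4, 5, 8, 9, 10, 18, 19, 20]), (2, 4, [0, 2, 4, 5, 7, 9, 10, 16, 17, 20]), 
   (2, 5, [0, 2, 3, 5, 7, 8, 10, 15, 17, 19]), (2, 6, [0, 2, 3, 4, 7, 8, 9, 15, 16, 18]), 
   (3, 4, [0, 1, 4, 5, 6, 9, 10, 13, 14, 20]), (3, 5, [0, 1, 3, 5, 6, 8, 10, 12, 14, 19]), 
   (3, 6, [0, 1, 3, 4, 6, 8, 9, 12, 13, 18]), (4, 5, [0, 1, 2, 5, 6, 7, 10, 11, 14, 17]), 
   (4, 6, [0, 1, 2, 4, 6, 7, 9, 11, 13, 16]), (5, 6, [0, 1, 2, 3, 6, 7, 8, 11, 12, 15])]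

theorem check : (geTab 21 30 (adj.map (fun p => X 21 p.1 &&& X 21 p.2))).getD 30 0 &&&
    ((geTab 21 11 ((List.range 21).map (X 21))).getD 11 0 |||
      orL (abl.map (fun p => andX 21 p.2.2))) =
    (geTab 21 30 (adj.map (fun p => X 21 p.1 &&& X 21 p.2))).getD 30 0 := by decide +kernel

theorem PP_surj : ∀ Y : U, Y.card = 2 → ∃ i, PP i = Y := by decide +kernel
theorem PP_inj : Function.Injective PP := by decide +kernel
theorem PP_adj : ∀ i j : Fin 21, i ≠ j → ¬ Disjoint (PP i) (PP j) →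
    (i.val, j.val) ∈ adj ∨ (j.val, i.val) ∈ adj := by decide +kernel
theorem abl_spec : ∀ p ∈ abl, p.1 ≠ p.2.1 ∧ ∀ i : Fin 21, p.1 ∉ PP i → p.2.1 ∉ PP i →
    i.val ∈ p.2.2 := by decide +kernel

def KK (a b : Fin 7) : Finset U := univ.filter (fun Y => Y.card = 2 ∧ a ∉ Y ∧ b ∉ Y)

theorem card_KK (a b : Fin 7) (h : a ≠ b) : (KK a b).card = 10 := by
  have h1 := dis {a, b} (fun m => m = 2)
  rw [card_pair h] at h1
  refine Eq.trans ?_ (h1.trans (by decide))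
  congr 1
  ext Y
  simp [KK, and_comm]

theorem classify (G : Finset U) (hG : ∀ Y ∈ G, Y.card = 2) (hc : G.card = 10) (h : 30 ≤ ic 2 G) :
    ∃ a b, a ≠ b ∧ G = KK a b := by
  obtain ⟨s, hs, hb⟩ : ∃ s, s < 2 ^ 21 ∧ ∀ i : Fin 21, s.testBit i = decide (PP i ∈ G) :=
    ⟨Nat.ofBits (fun i : Fin 21 => decide (PP i ∈ G)), Nat.ofBits_lt_two_pow _,
      fun i => by rw [Nat.testBit_ofBits_lt _ _ i.2]⟩
  have h1 := congrArg (fun t => t.testBit s) check
  simp only [Nat.testBit_and, Nat.testBit_or] at h1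
  rw [testBit_geTab _ _ _ _ _ le_rfl hs, testBit_geTab _ _ _ _ _ le_rfl hs] at h1
  have h2 : 30 ≤ (adj.map (fun p => X 21 p.1 &&& X 21 p.2)).countP (fun b => b.testBit s) := by
    refine h.trans ?_
    unfold ic
    rw [List.countP_map, List.countP_eq_length_filter]
    refine le_trans ?_ (List.toFinset_card_le _)
    refine le_trans (card_le_card ?_) (card_image_le (f := fun p : ℕ × ℕ =>
      ({PP (Fin.ofNat 21 p.1), PP (Fin.ofNat 21 p.2)} : Finset U)))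
    intro F hF
    obtain ⟨h3, h4⟩ := mem_filter.1 hF
    obtain ⟨h5, h6⟩ := mem_powersetCard.1 h3
    obtain ⟨Y, Z, hYZ, rfl⟩ := card_eq_two.1 h6
    have hY : Y ∈ G := h5 (by simp)
    have hZ : Z ∈ G := h5 (by simp)
    obtain ⟨i, rfl⟩ := PP_surj Y (hG Y hY)
    obtain ⟨j, rfl⟩ := PP_surj Z (hG Z hZ)
    rcases PP_adj i j (fun e => hYZ (e ▸ rfl)) (h4 _ (by simp) _ (by simp) hYZ) with h7 | h7
    · refine mem_image.2 ⟨(i, j), ?_, by simp⟩
      simp [h7, testBit_X, hb, hY, hZ]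
      simpa using hs
    · refine mem_image.2 ⟨(j, i), ?_, by simp [pair_comm]⟩
      simp [h7, testBit_X, hb, hY, hZ]
      simpa using hs
  have h3 : ¬ 11 ≤ ((List.range 21).map (X 21)).countP (fun b => b.testBit s) := by
    rw [List.countP_map, List.countP_eq_length_filter, not_le,
      ← List.toFinset_card_of_nodup (List.nodup_range.filter _)]
    refine lt_of_le_of_lt (card_le_card_of_injOn (t := G) (fun i => PP (Fin.ofNat 21 i)) ?_ ?_)
      (by omega)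
    · intro i hi
      simp only [List.toFinset_filter, coe_filter, List.mem_toFinset, List.mem_range,
        Function.comp, testBit_X, Bool.and_eq_true, Set.mem_ofPred_eq] at hi
      have := hi.2.2.symm.trans (hb ⟨i, hi.1⟩)
      have e : Fin.ofNat 21 i = ⟨i, hi.1⟩ := Fin.ext (Nat.mod_eq_of_lt hi.1)
      simp only [e]
      simpa using this
    · intro i hi j hj e
      simp only [List.toFinset_filter, coe_filter, List.mem_toFinset, List.mem_range,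
        Set.mem_ofPred_eq] at hi hj
      have := congrArg Fin.val (PP_inj e)
      simp only [Fin.val_ofNat] at this
      omega
  simp only [h2, h3, decide_true, decide_false, Bool.true_and, Bool.false_or] at h1
  obtain ⟨t, ht, h4⟩ := (testBit_orL _ _).1 h1
  obtain ⟨p, hp, rfl⟩ := List.mem_map.1 ht
  rw [testBit_andX _ _ _ hs] at h4
  obtain ⟨h5, h6⟩ := abl_spec p hp
  refine ⟨p.1, p.2.1, h5, (eq_of_subset_of_card_le ?_ (by rw [hc, card_KK _ _ h5])).symm⟩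
  intro Y hY
  obtain ⟨-, h7, h8, h9⟩ := mem_filter.1 hY
  obtain ⟨i, rfl⟩ := PP_surj Y h7
  have := h4 i (h6 i h8 h9)
  rw [hb] at this
  simpa using this

def LS : List U :=
  [∅, {0}, {1}, {2}, {3}, {4}, {5}, {6}, {0, 1}, {0, 2}, {1, 2}, {0, 3}, {1, 3}, {2, 3}, {0, 4}, 
   {1, 4}, {2, 4}, {3, 4}, {0, 5}, {1, 5}, {2, 5}, {3, 5}, {4, 5}, {0, 6}, {1, 6}, {2, 6}, 
   {3, 6}, {4, 6}, {5, 6}]

def LT : List U :=
  [{0, 1, 2}, {0, 1, 3}, {0, 2, 3}, {1, 2, 3}, {0, 1, 4}, {0, 2, 4}, {1, 2, 4}, {0, 3, 4}, 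
   {1, 3, 4}, {2, 3, 4}, {0, 1, 5}, {0, 2, 5}, {1, 2, 5}, {0, 3, 5}, {1, 3, 5}, {2, 3, 5}, 
   {0, 4, 5}, {1, 4, 5}, {2, 4, 5}, {3, 4, 5}, {0, 1, 6}, {0, 2, 6}, {1, 2, 6}, {0, 3, 6}, 
   {1, 3, 6}, {2, 3, 6}, {0, 4, 6}, {1, 4, 6}, {2, 4, 6}, {3, 4, 6}, {0, 5, 6}, {1, 5, 6}, 
   {2, 5, 6}, {3, 5, 6}, {4, 5, 6}]

theorem tS_eq : LS.map tup = tS := by decide +kernel
theorem tT_eq : LT.map tup = tT := by decide +kernel

instance : ∀ L, Decidable (Good L)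
  | [] => isTrue trivial
  | _ :: L => @instDecidableAnd _ _ _ (@instDecidableAnd _ _ _ (instDecidableGood L))

theorem good_L : Good (LS ++ LT) := by decide +kernel
theorem all_L : ∀ Y : U, Y ∈ LS ++ LT ∨ Yᶜ ∈ LS ++ LT := by decide +kernel

theorem ic64 (A : Finset U) (M : ℕ) (h : ∀ Y, M.testBit (code Y) = true ↔ Y ∈ A) :
    ic 64 A = cntD tT tS M + ((fin tS M).map (cnt tT)).getD 0 := by
  rw [← cnt_split, ← tS_eq, ← tT_eq, ← List.map_append, ← ic_cnt _ good_L]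
  congr 1
  ext Y
  simp only [famL, mem_filter, mem_univ, true_and, all_L Y, h]

def QE : Finset U := {{0, 1}, {0, 2}, {0, 3}, {0, 4}, {0, 5}, {0, 6}, {1, 2}, {1, 3}, {1, 4}, {1, 5}}

theorem hK : ∀ Y : U, (340282366841709086876648775970812002024 : ℕ).testBit (code Y) = true ↔
    3 ≤ Y.card ∨ (Y.card = 2 ∧ 5 ∉ Y ∧ 6 ∉ Y) := by decide +kernel
theorem hQ : ∀ Y : U, (340282366841709086913542264143983079144 : ℕ).testBit (code Y) = true ↔
    3 ≤ Y.card ∨ Y ∈ QE := by decide +kernel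
theorem cK : cntD tT tS 340282366841709086876648775970812002024 = 65710 := by
  rw [← cntDF_eq]; exact cKF
theorem cQ : cntD tT tS 340282366841709086913542264143983079144 = 65719 := by
  rw [← cntDF_eq]; exact cQF
theorem fKQ : fin tS 340282366841709086876648775970812002024 =
    fin tS 340282366841709086913542264143983079144 := by decide +kernel

theorem lt_aux (x a b : ℕ) (h1 : a = 65710 + x) (h2 : b = 65719 + x) : a < b := by omega

theorem ic64_lt : ic 64 (Big ∪ KK 5 6) < ic 64 (Big ∪ QE) := by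
  have h1 := ic64 (Big ∪ KK 5 6) _ (fun Y => (hK Y).trans (by simp [mem_Big, KK]))
  have h2 := ic64 (Big ∪ QE) _ (fun Y => (hQ Y).trans (by simp only [mem_union, mem_Big]))
  rw [cK, fKQ] at h1
  rw [cQ] at h2
  exact lt_aux _ _ _ h1 h2

theorem QE_spec : QE.card = 10 ∧ ∀ Y ∈ QE, Y.card = 2 := by decide +kernel

theorem ic2_K : ((KK 5 6).powersetCard 2 |>.filter
    (fun F => ∀ X ∈ F, ∀ Y ∈ F, X ≠ Y → ¬ Disjoint X Y)).card = 30 := by decide +kernel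

theorem card_big (G : Finset U) (hG : ∀ Y ∈ G, Y.card = 2) (hc : G.card = 10) :
    (Big ∪ G).card = 109 := by
  rw [card_union_of_disjoint, f7, hc]
  rw [disjoint_left]
  intro Y h1 h2
  have := hG Y h2
  rw [mem_Big] at h1
  omega

theorem sym (a b : Fin 7) (h : a ≠ b) (s : ℕ) : ic s (Big ∪ KK a b) = ic s (Big ∪ KK 5 6) := by
  obtain ⟨σ, h5, h6⟩ : ∃ σ : Equiv.Perm (Fin 7), σ 5 = a ∧ σ 6 = b := by
    revert a b; decide +kernel
  rw [← ic_image (fun Y => Y.map σ.toEmbedding) (map_injective _) (fun X Y => disjoint_map _) _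
    (Big ∪ KK 5 6) le_rfl]
  congr 1
  ext Y
  simp only [mem_image, mem_union, mem_Big, KK, mem_filter, mem_univ, true_and]
  constructor
  · intro hY
    refine ⟨Y.map σ.symm.toEmbedding, ?_, by simp [map_map]⟩
    simpa [mem_map_equiv, h5, h6] using hY
  · rintro ⟨Z, hZ, rfl⟩
    simpa [mem_map_equiv, ← h5, ← h6] using hZ

theorem final (A : Finset U) (hA : A.card = 109)
    (h : ∀ s, ∀ B : Finset U, B.card = 109 → ic s B ≤ ic s A) : False := by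
  obtain ⟨G, h1, h2, rfl⟩ := shape A hA (fun B hB => h 2 B (hB.trans hA))
  have k1 : ∀ Y ∈ KK 5 6, Y.card = 2 := fun Y hY => (mem_filter.1 hY).2.1
  have k2 := card_KK 5 6 (by decide)
  have h3 := ic2_big (KK 5 6) G k1 h1 (k2.trans h2.symm) (h 2 _ (card_big _ k1 k2))
  have h4 : ic 2 (KK 5 6) = 30 := by unfold ic; exact ic2_K
  rw [h4] at h3
  obtain ⟨a, b, hab, rfl⟩ := classify G h1 h2 h3
  have h5 := h 64 _ (card_big QE QE_spec.2 QE_spec.1)
  rw [sym a b hab] at h5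
  exact absurd ic64_lt (not_lt.2 h5)

end Pool.Agent.H16.InterCount
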