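import Pool.Agent.H16.QAp

set_option autoImplicit false

namespace Pool.Agent.H16.QAp
open Finset

def aa (m k : ℕ) : ℚ := (m.choose k : ℚ) ^ 2 * ((m + k).choose k : ℚ)

theorem ch1 (m k : ℕ) : (m.choose k : ℚ) * (m + 1) = ((m + 1).choose k : ℚ) * (m + 1 - k) := by
  by_cases h : k ≤ m + 1
  · have := Nat.choose_mul_succ_eq m k
    have h2 : ((m.choose k * (m + 1) : ℕ) : ℚ) = (((m + 1).choose k * (m + 1 - k) : ℕ) : ℚ) := by
      rw [this]
    push_cast [h] at h2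
    exact h2
  · rw [Nat.choose_eq_zero_of_lt (by omega : m < k), Nat.choose_eq_zero_of_lt (by omega : m + 1 < k)]
    simp

theorem ch2 (m k : ℕ) : (m.choose (k + 1) : ℚ) * (k + 1) = (m.choose k : ℚ) * (m - k) := by
  by_cases h : k ≤ m
  · have := Nat.choose_succ_right_eq m k
    have h2 : ((m.choose (k + 1) * (k + 1) : ℕ) : ℚ) = ((m.choose k * (m - k) : ℕ) : ℚ) := by
      rw [this]
    push_cast [h] at h2
    exact h2
  · rw [Nat.choose_eq_zero_of_lt (by omega : m < k), Nat.choose_eq_zero_of_lt (by omega : m < k + 1)]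
    simp

theorem ch3 (m k : ℕ) : ((m + 1).choose (k + 1) : ℚ) * (k + 1) = (m.choose k : ℚ) * (m + 1) := by
  have := Nat.add_one_mul_choose_eq m k
  have h2 : (((m + 1) * m.choose k : ℕ) : ℚ) = (((m + 1).choose (k + 1) * (k + 1) : ℕ) : ℚ) := by
    rw [this]
  push_cast at h2
  linarith

theorem nstep (m k : ℕ) :
    ((m : ℚ) + 1) * (m + 1 + k) * aa m k = ((m : ℚ) + 1 - k) ^ 2 * aa (m + 1) k := by
  have h1 := ch1 m k
  have h2 := ch1 (m + k) k
  have e : m + 1 + k = m + k + 1 := by ring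
  unfold aa
  rw [e]
  push_cast at h2
  have hm : ((m : ℚ) + 1) ≠ 0 := by positivity
  apply mul_left_cancel₀ hm
  generalize (m.choose k : ℚ) = A at *
  generalize ((m + 1).choose k : ℚ) = B at *
  generalize ((m + k).choose k : ℚ) = C at *
  generalize ((m + k + 1).choose k : ℚ) = D at *
  linear_combination (A * (m + 1) + B * (m + 1 - k)) * C * (m + k + 1) * h1 +
    B ^ 2 * (m + 1 - k) ^ 2 * h2

theorem kstep (m k : ℕ) :
    ((k : ℚ) + 1) ^ 3 * aa m (k + 1) = ((m : ℚ) - k) ^ 2 * (m + k + 1) * aa m k := by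
  have h1 := ch2 m k
  have h2 := ch3 (m + k) k
  have e : m + (k + 1) = m + k + 1 := by ring
  unfold aa
  rw [e]
  push_cast at h2
  generalize (m.choose k : ℚ) = A at *
  generalize (m.choose (k + 1) : ℚ) = B at *
  generalize ((m + k).choose k : ℚ) = C at *
  generalize ((m + k + 1).choose (k + 1) : ℚ) = D at *
  linear_combination (B * (k + 1) + A * (m - k)) * D * (k + 1) * h1 + A ^ 2 * (m - k) ^ 2 * h2

def bb (n k : ℕ) : ℚ := aa (n + 2) k / (((n : ℚ) + 2 + k) * (n + 1 + k))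

theorem bb_nonneg (n k : ℕ) : 0 ≤ bb n k := by
  unfold bb aa
  positivity

theorem R1 (n k : ℕ) : aa (n + 2) k = bb n k * ((n : ℚ) + 2 + k) * (n + 1 + k) := by
  unfold bb
  field_simp

theorem R2 (n k : ℕ) : ((n : ℚ) + 2) * aa (n + 1) k = bb n k * (n + 1 + k) * ((n : ℚ) + 2 - k) ^ 2 := by
  have h := nstep (n + 1) k
  have h1 := R1 n k
  push_cast at h
  have hm : ((n : ℚ) + 2 + k) ≠ 0 := by positivity
  apply mul_left_cancel₀ hm
  have e : n + 1 + 1 = n + 2 := rfl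
  rw [e, h1] at h
  linear_combination h

theorem R3 (n k : ℕ) : ((n : ℚ) + 1) * (n + 2) * aa n k =
    bb n k * ((n : ℚ) + 2 - k) ^ 2 * ((n : ℚ) + 1 - k) ^ 2 := by
  have h := nstep n k
  have h1 := R2 n k
  have hm : ((n : ℚ) + 1 + k) ≠ 0 := by positivity
  apply mul_left_cancel₀ hm
  linear_combination (n + 2) * h + ((n : ℚ) + 1 - k) ^ 2 * h1

theorem R4 (n k : ℕ) : ((k : ℚ) + 1) ^ 3 * bb n (k + 1) =
    ((n : ℚ) + 2 - k) ^ 2 * (n + 1 + k) * bb n k := by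
  have h := kstep (n + 2) k
  rw [R1, R1] at h
  push_cast at h
  have hm : ((n : ℚ) + 3 + k) * (n + 2 + k) ≠ 0 := by positivity
  apply mul_left_cancel₀ hm
  linear_combination h

theorem tele (n t e : ℕ) :
    ∑ p ∈ antidiagonal t, bb n p.1 * bb n p.2 * DD e (n + 1) p.1 p.2 = 0 := by
  let f : ℕ × ℕ → ℚ := fun p =>
    (p.1 : ℚ) ^ 3 * bb n p.1 * ((p.2 : ℚ) ^ 3 * bb n p.2) * ((p.2 : ℚ) - p.1) ^ e
  have h1 := Finset.Nat.sum_antidiagonal_succ (n := t) (f := f)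
  have h2 := Finset.Nat.sum_antidiagonal_succ' (n := t) (f := f)
  have z1 : f (0, t + 1) = 0 := by simp [f]
  have z2 : f (t + 1, 0) = 0 := by simp [f]
  rw [z1, zero_add] at h1
  rw [z2, zero_add, h1] at h2
  rw [← sub_eq_zero, ← sum_sub_distrib] at h2
  rw [← h2]
  apply sum_congr rfl
  intro p _
  simp only [f, DD]
  push_cast
  rw [R4, R4]
  have e1 : (p.2 : ℚ) - (p.1 + 1) = p.2 - p.1 - 1 := by ring
  have e2 : (p.2 : ℚ) + 1 - p.1 = p.2 - p.1 + 1 := by ring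
  rw [e1, e2]
  ring

theorem cub (u : ℤ) : (0 : ℚ) ≤ (u : ℚ) ^ 2 * ((u : ℚ) ^ 2 - 1) * ((u : ℚ) ^ 2 - 4) := by
  have : (0 : ℤ) ≤ u ^ 2 * (u ^ 2 - 1) * (u ^ 2 - 4) := by
    by_cases h : -2 ≤ u ∧ u ≤ 2
    · obtain ⟨h1, h2⟩ := h
      interval_cases u <;> norm_num
    · have : 9 ≤ u ^ 2 := by
        rcases not_and_or.1 h with h | h <;> nlinarith
      have h1 : 0 ≤ u ^ 2 - 1 := by omega
      have h2 : 0 ≤ u ^ 2 - 4 := by omega
      positivity
  exact_mod_cast this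

theorem pt (n k j : ℕ) (h1 : 1 ≤ k + j) (h2 : k + j ≤ 2 * (n + 1)) :
    0 < dt (n + 1) (k + j) ∧
    0 ≤ dt (n + 1) (k + j) * PP (n + 1) k j - n1 (n + 1) (k + j) * DD 1 (n + 1) k j -
      n3 (n + 1) (k + j) * DD 3 (n + 1) k j := by
  have hc := cert (n + 1) k j
  by_cases ht : k + j = 1
  · have e : (k : ℚ) + j = 1 := by exact_mod_cast ht
    have hn : (0 : ℚ) ≤ n := by positivity
    have hw : ((j : ℚ) - k) ^ 2 - 1 = 0 := by
      have : (k = 0 ∧ j = 1) ∨ (k = 1 ∧ j = 0) := by omega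
      rcases this with ⟨rfl, rfl⟩ | ⟨rfl, rfl⟩ <;> norm_num
    rw [hw, e] at hc
    rw [e]
    have := r01 n hn
    exact ⟨dt1 n hn, by linarith⟩
  · have ha : (0 : ℚ) ≤ (k : ℚ) + j - 2 := by
      have : (2 : ℚ) ≤ ((k + j : ℕ) : ℚ) := by exact_mod_cast (by omega : 2 ≤ k + j)
      push_cast at this
      linarith
    have hb : (0 : ℚ) ≤ 2 * ((n : ℚ) + 1) - (k + j) := by
      have : ((k + j : ℕ) : ℚ) ≤ ((2 * (n + 1) : ℕ) : ℚ) := by exact_mod_cast h2
      push_cast at this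
      linarith
    have e1 : (k : ℚ) + j - 2 + 2 = k + j := by ring
    have e2 : ((k : ℚ) + j + (2 * ((n : ℚ) + 1) - (k + j))) / 2 = n + 1 := by ring
    have a1 := dt2 _ _ ha hb
    have a2 := r02 _ _ ha hb
    have a3 := r42 _ _ ha hb
    have a4 := r32 _ _ ha hb
    rw [e1, e2] at a1 a2 a3 a4
    have a5 := cub ((j : ℤ) - k)
    push_cast at a5
    have a6 : ((j : ℚ) - k) ^ 2 ≤ ((k : ℚ) + j) ^ 2 := by
      have : (0 : ℚ) ≤ (k : ℚ) * j := by positivity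
      nlinarith
    have a7 : 0 ≤ r3 (n + 1) (k + j) + r4 (n + 1) (k + j) * ((j : ℚ) - k) ^ 2 := by
      nlinarith [mul_nonneg a3 (sub_nonneg.2 a6)]
    have a8 := mul_nonneg a5 a7
    exact ⟨a1, by linarith⟩

theorem main_sum (n t : ℕ) :
    0 ≤ ∑ p ∈ antidiagonal t, (aa (n + 2) p.1 * aa n p.2 - aa (n + 1) p.1 * aa (n + 1) p.2) := by
  by_cases h0 : t = 0
  · subst h0
    simp [aa]
  by_cases h2 : 2 * (n + 1) < t
  · apply sum_nonneg
    intro p hp
    rw [HasAntidiagonal.mem_antidiagonal] at hp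
    have hz : aa (n + 1) p.1 * aa (n + 1) p.2 = 0 := by
      by_cases h : n + 1 < p.1
      · simp [aa, Nat.choose_eq_zero_of_lt h]
      · simp [aa, Nat.choose_eq_zero_of_lt (by omega : n + 1 < p.2)]
    rw [hz, sub_zero]
    unfold aa
    positivity
  have hd : 0 < dt (n + 1) t := by
    have := (pt n t 0 (by omega) (by omega)).1
    simpa using this
  have hP : 0 ≤ ∑ p ∈ antidiagonal t, bb n p.1 * bb n p.2 * PP (n + 1) p.1 p.2 := by
    have : 0 ≤ ∑ p ∈ antidiagonal t, bb n p.1 * bb n p.2 *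
        (dt (n + 1) t * PP (n + 1) p.1 p.2 - n1 (n + 1) t * DD 1 (n + 1) p.1 p.2 -
          n3 (n + 1) t * DD 3 (n + 1) p.1 p.2) := by
      apply sum_nonneg
      intro p hp
      rw [HasAntidiagonal.mem_antidiagonal] at hp
      have h := (pt n p.1 p.2 (by omega) (by omega)).2
      have e : (p.1 : ℚ) + p.2 = t := by exact_mod_cast hp
      rw [e] at h
      exact mul_nonneg (mul_nonneg (bb_nonneg _ _) (bb_nonneg _ _)) h
    have e : ∑ p ∈ antidiagonal t, bb n p.1 * bb n p.2 *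
        (dt (n + 1) t * PP (n + 1) p.1 p.2 - n1 (n + 1) t * DD 1 (n + 1) p.1 p.2 -
          n3 (n + 1) t * DD 3 (n + 1) p.1 p.2) =
        dt (n + 1) t * ∑ p ∈ antidiagonal t, bb n p.1 * bb n p.2 * PP (n + 1) p.1 p.2 -
        n1 (n + 1) t * ∑ p ∈ antidiagonal t, bb n p.1 * bb n p.2 * DD 1 (n + 1) p.1 p.2 -
        n3 (n + 1) t * ∑ p ∈ antidiagonal t, bb n p.1 * bb n p.2 * DD 3 (n + 1) p.1 p.2 := by
      simp only [mul_sum, ← sum_sub_distrib]
      exact sum_congr rfl fun p _ => by ring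
    rw [e, tele, tele] at this
    simp only [mul_zero, sub_zero] at this
    exact nonneg_of_mul_nonneg_right this hd |> fun h => h
  have hs : ∑ p ∈ antidiagonal t, (aa (n + 2) p.2 * aa n p.1 - aa (n + 1) p.2 * aa (n + 1) p.1) =
      ∑ p ∈ antidiagonal t, (aa (n + 2) p.1 * aa n p.2 - aa (n + 1) p.1 * aa (n + 1) p.2) :=
    Finset.Nat.sum_antidiagonal_swap
      (f := fun p => aa (n + 2) p.1 * aa n p.2 - aa (n + 1) p.1 * aa (n + 1) p.2)
  have he : ∑ p ∈ antidiagonal t, bb n p.1 * bb n p.2 * PP (n + 1) p.1 p.2 =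
      ((n : ℚ) + 1) * (n + 2) ^ 2 *
      (∑ p ∈ antidiagonal t, (aa (n + 2) p.1 * aa n p.2 - aa (n + 1) p.1 * aa (n + 1) p.2) +
       ∑ p ∈ antidiagonal t, (aa (n + 2) p.2 * aa n p.1 - aa (n + 1) p.2 * aa (n + 1) p.1)) := by
    rw [← sum_add_distrib, mul_sum]
    apply sum_congr rfl
    intro p _
    have a1 := R2 n p.1
    have a2 := R2 n p.2
    have a3 := R3 n p.1
    have a4 := R3 n p.2
    rw [R1, R1]
    unfold PP
    linear_combination (-((n : ℚ) + 2) * bb n p.1 * (n + 2 + p.1) * (n + 1 + p.1)) * a4 -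
      ((n : ℚ) + 2) * bb n p.2 * (n + 2 + p.2) * (n + 1 + p.2) * a3 +
      2 * ((n : ℚ) + 1) * ((n + 2) * aa (n + 1) p.2) * a1 +
      2 * ((n : ℚ) + 1) * (bb n p.1 * (n + 1 + p.1) * ((n : ℚ) + 2 - p.1) ^ 2) * a2
  rw [he, hs] at hP
  have hpos : (0 : ℚ) < ((n : ℚ) + 1) * (n + 2) ^ 2 := by positivity
  have := nonneg_of_mul_nonneg_right hP hpos
  linarith

end Pool.Agent.H16.QAp
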