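import Mathlib

namespace Pool.Agent.H16.Mono

open Set

/-- The circle with centre `c` and radius `ρ`. -/
def circ (c : ℝ × ℝ) (ρ : ℝ) : Set (ℝ × ℝ) := {p | (p.1 - c.1) ^ 2 + (p.2 - c.2) ^ 2 = ρ ^ 2}

def IsCircle (C : Set (ℝ × ℝ)) : Prop := ∃ c ρ, 0 < ρ ∧ C = circ c ρ

def IsLine (L : Set (ℝ × ℝ)) : Prop :=
  ∃ a b c : ℝ, (a ≠ 0 ∨ b ≠ 0) ∧ L = {p | a * p.1 + b * p.2 = c}

/-- Inversion in the circle with centre `c` and radius `ρ`. -/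
noncomputable def inv (c : ℝ × ℝ) (ρ : ℝ) (p : ℝ × ℝ) : ℝ × ℝ :=
  (c.1 + ρ ^ 2 * (p.1 - c.1) / ((p.1 - c.1) ^ 2 + (p.2 - c.2) ^ 2),
    c.2 + ρ ^ 2 * (p.2 - c.2) / ((p.1 - c.1) ^ 2 + (p.2 - c.2) ^ 2))

/-- Conics with negative discriminant; every ellipse is one. -/
def IsEllipse (G : Set (ℝ × ℝ)) : Prop := ∃ a b c d e f : ℝ, b ^ 2 < 4 * a * c ∧
  G = {p | a * p.1 ^ 2 + b * p.1 * p.2 + c * p.2 ^ 2 + d * p.1 + e * p.2 + f = 0}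

/-- Any union of two circles, disjoint or not. -/
def IsTwoCircles (G : Set (ℝ × ℝ)) : Prop := ∃ C D, IsCircle C ∧ IsCircle D ∧ G = C ∪ D

/-- The affine part of any circular cubic, singular or not. -/
def IsCircCubic (G : Set (ℝ × ℝ)) : Prop := ∃ u v a b c d e f : ℝ,
  ¬ (u = 0 ∧ v = 0 ∧ a = 0 ∧ b = 0 ∧ c = 0 ∧ d = 0 ∧ e = 0 ∧ f = 0) ∧
  G = {p | (u * p.1 + v * p.2) * (p.1 ^ 2 + p.2 ^ 2) +
    (a * p.1 ^ 2 + b * p.1 * p.2 + c * p.2 ^ 2 + d * p.1 + e * p.2 + f) = 0}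

/-- The image of a circular cubic under an inversion centred off the cubic, with the centre
(the image of the points at infinity) added. -/
def IsBicirc (G : Set (ℝ × ℝ)) : Prop :=
  ∃ H c ρ, IsCircCubic H ∧ 0 < ρ ∧ c ∉ H ∧ G = insert c (inv c ρ '' H)

def IsListed (G : Set (ℝ × ℝ)) : Prop :=
  IsEllipse G ∨ IsTwoCircles G ∨ IsCircCubic G ∨ IsBicirc G

end Pool.Agent.H16.Mono
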