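import Pool.Agent.H16.Mono

namespace Pool.Agent.H16.Mono

open Set

def IsCyc (a : ℝ) (F : ℝ × ℝ → ℝ) : Prop := ∃ b c d e f g h i : ℝ, ∀ p, F p =
  a * (p.1 ^ 2 + p.2 ^ 2) ^ 2 + (b * p.1 + c * p.2) * (p.1 ^ 2 + p.2 ^ 2) + d * p.1 ^ 2 +
    e * p.1 * p.2 + f * p.2 ^ 2 + g * p.1 + h * p.2 + i

def Cov (T : Set (ℝ × ℝ)) : Prop := ∃ a F, IsCyc a F ∧ (∃ q, F q ≠ 0) ∧ ∀ p ∈ T, F p = 0

theorem Cov.mono {T U} (h : Cov U) (s : T ⊆ U) : Cov T :=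
  let ⟨k, F, a, b, c⟩ := h; ⟨k, F, a, b, fun p hp => c p (s hp)⟩

theorem IsCyc.shift {a F} (h : IsCyc a F) (s t : ℝ) : IsCyc a fun p => F (p.1 + s, p.2 + t) := by
  obtain ⟨b, c, d, e, f, g, h, i, H⟩ := h
  refine ⟨b + 4 * a * s, c + 4 * a * t,
    d + a * (4 * s ^ 2 + 2 * (s ^ 2 + t ^ 2)) + 2 * b * s + (b * s + c * t),
    e + 8 * a * s * t + 2 * b * t + 2 * c * s,
    f + a * (4 * t ^ 2 + 2 * (s ^ 2 + t ^ 2)) + 2 * c * t + (b * s + c * t),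
    g + 4 * a * s * (s ^ 2 + t ^ 2) + b * (s ^ 2 + t ^ 2) + 2 * s * (b * s + c * t) + 2 * d * s + e * t,
    h + 4 * a * t * (s ^ 2 + t ^ 2) + c * (s ^ 2 + t ^ 2) + 2 * t * (b * s + c * t) + 2 * f * t + e * s,
    F (s, t), fun p => ?_⟩
  simp only [H]; ring

theorem IsCyc.off {a F} (h : IsCyc a F) (c : ℝ × ℝ) (hq : ∃ q, F q ≠ 0) : ∃ q, q ≠ c ∧ F q ≠ 0 := by
  by_contra hn
  push Not at hn
  obtain ⟨q, hq⟩ := hq
  by_cases e : q = c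
  · subst e
    have k : ∀ t : ℝ, t ≠ 0 → F (q.1 + t, q.2) = 0 := fun t ht => hn _ fun e => ht (by
      have := congrArg Prod.fst e
      simpa using this)
    have h1 := k 1 (by norm_num)
    have h2 := k 2 (by norm_num)
    have h3 := k 3 (by norm_num)
    have h4 := k 4 (by norm_num)
    have h5 := k 5 (by norm_num)
    obtain ⟨b, c, d, e, f, g, h, i, H⟩ := h
    apply hq
    simp only [H] at h1 h2 h3 h4 h5 ⊢
    linear_combination 5 * h1 - 10 * h2 + 10 * h3 - 5 * h4 + h5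
  · exact hq (hn q e)

theorem nrm_ne {p c : ℝ × ℝ} (h : p ≠ c) : (p.1 - c.1) ^ 2 + (p.2 - c.2) ^ 2 ≠ 0 := by
  intro e
  apply h
  ext <;> nlinarith [sq_nonneg (p.1 - c.1), sq_nonneg (p.2 - c.2)]

theorem inv_nrm {p c : ℝ × ℝ} {ρ : ℝ} (h : p ≠ c) :
    (((inv c ρ p).1 - c.1) ^ 2 + ((inv c ρ p).2 - c.2) ^ 2) *
      ((p.1 - c.1) ^ 2 + (p.2 - c.2) ^ 2) = ρ ^ 4 := by
  have := nrm_ne h
  simp only [inv]; field_simp; ring

theorem inv_ne {p c : ℝ × ℝ} {ρ : ℝ} (hρ : 0 < ρ) (h : p ≠ c) : inv c ρ p ≠ c := by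
  intro e
  have := inv_nrm (ρ := ρ) h
  rw [e] at this
  have : ρ ^ 4 = 0 := by rw [← this]; ring
  exact absurd this (by positivity)

theorem inv_inv {p c : ℝ × ℝ} {ρ : ℝ} (hρ : 0 < ρ) (h : p ≠ c) : inv c ρ (inv c ρ p) = p := by
  have h1 := nrm_ne h
  have h2 := inv_nrm (ρ := ρ) h
  have h3 : ((inv c ρ p).1 - c.1) ^ 2 + ((inv c ρ p).2 - c.2) ^ 2 =
      ρ ^ 4 / ((p.1 - c.1) ^ 2 + (p.2 - c.2) ^ 2) := by rw [← h2]; field_simp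
  have h4 : ρ ≠ 0 := hρ.ne'
  ext
  · show c.1 + ρ ^ 2 * ((inv c ρ p).1 - c.1) / _ = _
    rw [h3]; simp only [inv]; field_simp; ring
  · show c.2 + ρ ^ 2 * ((inv c ρ p).2 - c.2) / _ = _
    rw [h3]; simp only [inv]; field_simp; ring

theorem exists_inv {a F} (hF : IsCyc a F) (c : ℝ × ℝ) (ρ : ℝ) : ∃ a' G, IsCyc a' G ∧
    (∀ p, p ≠ c → G p = ((p.1 - c.1) ^ 2 + (p.2 - c.2) ^ 2) ^ 2 * F (inv c ρ p)) ∧
    G c = a * ρ ^ 8 := by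
  obtain ⟨b, c', d, e, f, g, h, i, H⟩ := hF.shift c.1 c.2
  let G : ℝ × ℝ → ℝ := fun p => i * (p.1 ^ 2 + p.2 ^ 2) ^ 2 +
    (ρ ^ 2 * g * p.1 + ρ ^ 2 * h * p.2) * (p.1 ^ 2 + p.2 ^ 2) + ρ ^ 4 * d * p.1 ^ 2 +
    ρ ^ 4 * e * p.1 * p.2 + ρ ^ 4 * f * p.2 ^ 2 + ρ ^ 6 * b * p.1 + ρ ^ 6 * c' * p.2 + a * ρ ^ 8
  have hG : IsCyc i G := ⟨_, _, _, _, _, _, _, _, fun p => rfl⟩
  refine ⟨i, _, hG.shift (-c.1) (-c.2), fun p hp => ?_, by simp [G]⟩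
  have h1 := nrm_ne hp
  have h2 := H (ρ ^ 2 * (p.1 - c.1) / ((p.1 - c.1) ^ 2 + (p.2 - c.2) ^ 2),
    ρ ^ 2 * (p.2 - c.2) / ((p.1 - c.1) ^ 2 + (p.2 - c.2) ^ 2))
  simp only [add_comm _ c.1, add_comm _ c.2] at h2
  simp only [inv, h2, G, ← sub_eq_add_neg]
  generalize p.1 - c.1 = x at h1 ⊢
  generalize p.2 - c.2 = y at h1 ⊢
  field_simp
  ring

theorem cov_inv {a F} (hF : IsCyc a F) (hq : ∃ q, F q ≠ 0) (c : ℝ × ℝ) {ρ : ℝ} (hρ : 0 < ρ)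
    (T : Set (ℝ × ℝ)) (h : ∀ p ∈ T, (p = c ∧ a = 0) ∨ (p ≠ c ∧ F (inv c ρ p) = 0)) : Cov T := by
  obtain ⟨a', G, g1, g2, g3⟩ := exists_inv hF c ρ
  obtain ⟨q, q1, q2⟩ := hF.off c hq
  refine ⟨a', G, g1, ⟨inv c ρ q, ?_⟩, fun p hp => ?_⟩
  · rw [g2 _ (inv_ne hρ q1), inv_inv hρ q1]
    exact mul_ne_zero (pow_ne_zero _ (nrm_ne (inv_ne hρ q1))) q2
  · rcases h p hp with ⟨rfl, e⟩ | ⟨e1, e2⟩
    · rw [g3, e, zero_mul]
    · rw [g2 p e1, e2, mul_zero]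

theorem cubic_cyc {G} (h : IsCircCubic G) :
    ∃ F, IsCyc 0 F ∧ (∃ q, F q ≠ 0) ∧ ∀ p ∈ G, F p = 0 := by
  obtain ⟨u, v, a, b, c, d, e, f, hn, rfl⟩ := h
  refine ⟨fun p => (u * p.1 + v * p.2) * (p.1 ^ 2 + p.2 ^ 2) +
    (a * p.1 ^ 2 + b * p.1 * p.2 + c * p.2 ^ 2 + d * p.1 + e * p.2 + f),
    ⟨u, v, a, b, c, d, e, f, fun p => by ring⟩, ?_, fun p hp => hp⟩
  by_contra k
  push Not at k
  have h0 := k (0, 0)
  have h1 := k (1, 0)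
  have h2 := k (-1, 0)
  have h3 := k (2, 0)
  have h4 := k (0, 1)
  have h5 := k (0, -1)
  have h6 := k (0, 2)
  have h7 := k (1, 1)
  simp only at h0 h1 h2 h3 h4 h5 h6 h7
  apply hn
  refine ⟨?_, ?_, ?_, ?_, ?_, ?_, ?_, ?_⟩ <;> linarith

theorem listed_cov {G} (h : IsListed G) : Cov G := by
  rcases h with ⟨a, b, c, d, e, f, hn, rfl⟩ | ⟨_, _, ⟨c, ρ, h1, rfl⟩, ⟨c', ρ', h2, rfl⟩, rfl⟩ | h |
    ⟨H, c, ρ, h, hρ, hc, rfl⟩
  · obtain ⟨F, x, y, z⟩ := cubic_cyc (G := _) ⟨0, 0, a, b, c, d, e, f, by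
      rintro ⟨-, -, rfl, rfl, -⟩; simp at hn, rfl⟩
    exact ⟨0, F, x, y, fun p hp => z p (by simpa using hp)⟩
  · refine ⟨1, fun p => ((p.1 - c.1) ^ 2 + (p.2 - c.2) ^ 2 - ρ ^ 2) *
      ((p.1 - c'.1) ^ 2 + (p.2 - c'.2) ^ 2 - ρ' ^ 2),
      ⟨-2 * c.1 - 2 * c'.1, -2 * c.2 - 2 * c'.2,
        4 * c.1 * c'.1 + (c.1 ^ 2 + c.2 ^ 2 - ρ ^ 2) + (c'.1 ^ 2 + c'.2 ^ 2 - ρ' ^ 2),
        4 * c.1 * c'.2 + 4 * c.2 * c'.1,
        4 * c.2 * c'.2 + (c.1 ^ 2 + c.2 ^ 2 - ρ ^ 2) + (c'.1 ^ 2 + c'.2 ^ 2 - ρ' ^ 2),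
        -2 * c.1 * (c'.1 ^ 2 + c'.2 ^ 2 - ρ' ^ 2) - 2 * c'.1 * (c.1 ^ 2 + c.2 ^ 2 - ρ ^ 2),
        -2 * c.2 * (c'.1 ^ 2 + c'.2 ^ 2 - ρ' ^ 2) - 2 * c'.2 * (c.1 ^ 2 + c.2 ^ 2 - ρ ^ 2),
        (c.1 ^ 2 + c.2 ^ 2 - ρ ^ 2) * (c'.1 ^ 2 + c'.2 ^ 2 - ρ' ^ 2), fun p => by ring⟩,
      ⟨(|c.1| + |c'.1| + ρ + ρ', 0), ?_⟩, ?_⟩
    · have := le_abs_self c.1
      have := le_abs_self c'.1
      have := abs_nonneg c.1
      have := abs_nonneg c'.1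
      apply mul_ne_zero <;> apply ne_of_gt <;> simp only <;>
        nlinarith [sq_nonneg (0 - c.2), sq_nonneg (0 - c'.2)]
    · rintro p (hp | hp) <;> simp only [circ, mem_ofPred_eq] at hp <;> simp [hp]
  · obtain ⟨F, x, y, z⟩ := cubic_cyc h
    exact ⟨0, F, x, y, z⟩
  · obtain ⟨F, x, y, z⟩ := cubic_cyc h
    apply cov_inv x y c hρ
    rintro p (rfl | ⟨g, hg, rfl⟩)
    · exact Or.inl ⟨rfl, rfl⟩
    · have : g ≠ c := fun e => hc (e ▸ hg)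
      exact Or.inr ⟨inv_ne hρ this, by rw [inv_inv hρ this]; exact z g hg⟩

def R : Set (ℝ × ℝ) := {(0, -1), (0, 3), (1, 0), (1, 1), (1, 2)}
def B : Set (ℝ × ℝ) := {(-3, -2), (-3, -1), (-3, 0), (-2, -3), (-2, 1)}

theorem not_cov : ¬ Cov (R ∪ B) := by
  rintro ⟨a, F, ⟨b, c, d, e, f, g, h, i, E⟩, ⟨q, hq⟩, H⟩
  have h0 := H (0, -1) (by simp [R, B])
  have h1 := H (0, 3) (by simp [R, B])
  have h2 := H (1, 0) (by simp [R, B])
  have h3 := H (1, 1) (by simp [R, B])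
  have h4 := H (1, 2) (by simp [R, B])
  have h5 := H (-3, -2) (by simp [R, B])
  have h6 := H (-3, -1) (by simp [R, B])
  have h7 := H (-3, 0) (by simp [R, B])
  have h8 := H (-2, -3) (by simp [R, B])
  have h9 := H (-2, 1) (by simp [R, B])
  simp only [E] at h0 h1 h2 h3 h4 h5 h6 h7 h8 h9
  have ea : a = 0 := by linarith
  have eb : b = 0 := by linarith
  have ec : c = 0 := by linarith
  have ed : d = 0 := by linarith
  have ee : e = 0 := by linarith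
  have ef : f = 0 := by linarith
  have eg : g = 0 := by linarith
  have eh : h = 0 := by linarith
  have ei : i = 0 := by linarith
  apply hq
  rw [E, ea, eb, ec, ed, ee, ef, eg, eh, ei]; ring

theorem not_listed (G) (hG : IsListed G) : ¬ R ∪ B ⊆ G ∧
    ∀ c ρ, 0 < ρ → c ∉ R ∪ B → ¬ inv c ρ '' (R ∪ B) ⊆ G := by
  refine ⟨fun h => not_cov ((listed_cov hG).mono h), fun c ρ hρ hc h => not_cov ?_⟩
  obtain ⟨a, F, x, y, z⟩ := listed_cov hG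
  exact cov_inv x y c hρ _ fun p hp => Or.inr ⟨fun e => hc (e ▸ hp), z _ (h ⟨p, hp, rfl⟩)⟩

theorem red (c ρ) (x y z) (hx : x ∈ R) (hy : y ∈ R) (hz : z ∈ R) (xy : x ≠ y) (xz : x ≠ z)
    (yz : y ≠ z) (a : x ∈ circ c ρ) (b : y ∈ circ c ρ) (d : z ∈ circ c ρ) :
    ∃ p ∈ B, p ∈ circ c ρ := by
  by_contra hn
  push Not at hn
  unfold B at hn
  simp only [R, mem_insert_iff, mem_singleton_iff] at hx hy hz
  rcases hx with rfl | rfl | rfl | rfl | rfl <;> rcases hy with rfl | rfl | rfl | rfl | rfl <;>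
    first
    | exact xy rfl
    | (rcases hz with rfl | rfl | rfl | rfl | rfl <;>
        first
        | exact xz rfl
        | exact yz rfl
        | (simp only [circ, mem_ofPred_eq] at a b d
           first | linarith | exact hn (-3, -2) (by simp) (by simp only [circ, mem_ofPred_eq]; linarith) | exact hn (-3, -1) (by simp) (by simp only [circ, mem_ofPred_eq]; linarith) | exact hn (-3, 0) (by simp) (by simp only [circ, mem_ofPred_eq]; linarith) | exact hn (-2, -3) (by simp) (by simp only [circ, mem_ofPred_eq]; linarith) | exact hn (-2, 1) (by simp) (by simp only [circ, mem_ofPred_eq]; linarith)))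

theorem blue (c ρ) (x y z) (hx : x ∈ B) (hy : y ∈ B) (hz : z ∈ B) (xy : x ≠ y) (xz : x ≠ z)
    (yz : y ≠ z) (a : x ∈ circ c ρ) (b : y ∈ circ c ρ) (d : z ∈ circ c ρ) :
    ∃ p ∈ R, p ∈ circ c ρ := by
  by_contra hn
  push Not at hn
  unfold R at hn
  simp only [B, mem_insert_iff, mem_singleton_iff] at hx hy hz
  rcases hx with rfl | rfl | rfl | rfl | rfl <;> rcases hy with rfl | rfl | rfl | rfl | rfl <;>
    first
    | exact xy rfl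
    | (rcases hz with rfl | rfl | rfl | rfl | rfl <;>
        first
        | exact xz rfl
        | exact yz rfl
        | (simp only [circ, mem_ofPred_eq] at a b d
           first | linarith | exact hn (0, -1) (by simp) (by simp only [circ, mem_ofPred_eq]; linarith) | exact hn (0, 3) (by simp) (by simp only [circ, mem_ofPred_eq]; linarith) | exact hn (1, 0) (by simp) (by simp only [circ, mem_ofPred_eq]; linarith) | exact hn (1, 1) (by simp) (by simp only [circ, mem_ofPred_eq]; linarith) | exact hn (1, 2) (by simp) (by simp only [circ, mem_ofPred_eq]; linarith)))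

theorem finR : R.Finite := by unfold R; exact toFinite _
theorem finB : B.Finite := by unfold B; exact toFinite _

theorem nomono (C) (hC : IsCircle C) (h : 3 ≤ (C ∩ (R ∪ B)).ncard) :
    (∃ p ∈ R, p ∈ C) ∧ ∃ p ∈ B, p ∈ C := by
  obtain ⟨c, ρ, -, rfl⟩ := hC
  obtain ⟨x, ⟨x1, x2⟩, y, ⟨y1, y2⟩, z, ⟨z1, z2⟩, xy, xz, yz⟩ :=
    (two_lt_ncard ((finR.union finB).inter_of_right _)).1 h
  constructor
  · by_contra hn
    have k : ∀ p, p ∈ circ c ρ → p ∈ R ∪ B → p ∈ B := fun p a b =>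
      b.resolve_left fun e => hn ⟨p, e, a⟩
    exact hn (blue c ρ x y z (k x x1 x2) (k y y1 y2) (k z z1 z2) xy xz yz x1 y1 z1)
  · by_contra hn
    have k : ∀ p, p ∈ circ c ρ → p ∈ R ∪ B → p ∈ R := fun p a b =>
      b.resolve_right fun e => hn ⟨p, e, a⟩
    exact hn (red c ρ x y z (k x x1 x2) (k y y1 y2) (k z z1 z2) xy xz yz x1 y1 z1)

theorem notR (C) (hC : IsCircle C ∨ IsLine C) : ¬ R ⊆ C := by
  intro h
  have h0 := h (show ((0, -1) : ℝ × ℝ) ∈ R by simp [R])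
  have h2 := h (show ((1, 0) : ℝ × ℝ) ∈ R by simp [R])
  have h3 := h (show ((1, 1) : ℝ × ℝ) ∈ R by simp [R])
  have h4 := h (show ((1, 2) : ℝ × ℝ) ∈ R by simp [R])
  rcases hC with ⟨c, ρ, -, rfl⟩ | ⟨a, b, c, hn, rfl⟩
  · simp only [circ, mem_ofPred_eq] at h2 h3 h4; linarith
  · simp only [mem_ofPred_eq] at h0 h2 h3
    rcases hn with e | e <;> apply e <;> linarith

theorem notB (C) (hC : IsCircle C ∨ IsLine C) : ¬ B ⊆ C := by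
  intro h
  have h0 := h (show ((-2, 1) : ℝ × ℝ) ∈ B by simp [B])
  have h2 := h (show ((-3, -2) : ℝ × ℝ) ∈ B by simp [B])
  have h3 := h (show ((-3, -1) : ℝ × ℝ) ∈ B by simp [B])
  have h4 := h (show ((-3, 0) : ℝ × ℝ) ∈ B by simp [B])
  rcases hC with ⟨c, ρ, -, rfl⟩ | ⟨a, b, c, hn, rfl⟩
  · simp only [circ, mem_ofPred_eq] at h2 h3 h4; linarith
  · simp only [mem_ofPred_eq] at h0 h2 h3
    rcases hn with e | e <;> apply e <;> linarith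

theorem disj : Disjoint R B := by
  rw [Set.disjoint_left]
  intro p a b
  simp only [R, B, mem_insert_iff, mem_singleton_iff] at a b
  have : 0 ≤ p.1 := by rcases a with rfl | rfl | rfl | rfl | rfl <;> norm_num
  rcases b with rfl | rfl | rfl | rfl | rfl <;> norm_num at this

theorem main : ∃ R B : Set (ℝ × ℝ), R.Finite ∧ B.Finite ∧ Disjoint R B ∧
    (∀ C, IsCircle C → 3 ≤ (C ∩ (R ∪ B)).ncard → (∃ p ∈ R, p ∈ C) ∧ ∃ p ∈ B, p ∈ C) ∧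
    (∀ C, IsCircle C ∨ IsLine C → ¬ R ⊆ C ∧ ¬ B ⊆ C) ∧
    ∀ G, IsListed G → ¬ R ∪ B ⊆ G ∧ ∀ c ρ, 0 < ρ → c ∉ R ∪ B → ¬ inv c ρ '' (R ∪ B) ⊆ G :=
  ⟨R, B, finR, finB, disj, nomono, fun C h => ⟨notR C h, notB C h⟩, not_listed⟩

end Pool.Agent.H16.Mono
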