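import Mathlib

namespace H16.N3

abbrev Tr := ℕ × ℕ × ℕ

def tb (S i : ℕ) : Bool := Nat.beq ((S >>> i) % 2) 1

theorem tb_eq (S i : ℕ) : tb S i = S.testBit i := by
  unfold tb
  rw [Nat.testBit_eq_decide_div_mod_eq, Nat.shiftRight_eq_div_pow]
  by_cases h : S / 2 ^ i % 2 = 1
  · simp [h]
  · simp only [h, decide_false]
    cases h' : Nat.beq (S / 2 ^ i % 2) 1
    · rfl
    · exact absurd (Nat.eq_of_beq_eq_true h') h

theorem tb_or (S a i : ℕ) : tb (S ||| 2 ^ a) i = (tb S i || decide (a = i)) := by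
  simp [tb_eq, Nat.testBit_two_pow]

def onl (t : Tr) (a : ℕ) : Bool := Nat.beq a t.1 || Nat.beq a t.2.1 || Nat.beq a t.2.2

theorem onl_iff (t : Tr) (a : ℕ) : onl t a = true ↔ a = t.1 ∨ a = t.2.1 ∨ a = t.2.2 := by
  simp [onl, Nat.beq_eq, or_assoc]

def adj (ls : List Tr) (a b : ℕ) : Bool := ls.any (fun t => onl t a && onl t b)

def deg (ls : List Tr) (a : ℕ) : ℕ := (ls.filter (fun t => onl t a)).length

def has (ls : List Tr) (a b x : ℕ) : Bool :=
  !Nat.beq a b && !Nat.beq a x && !Nat.beq b x && ls.any (fun t => onl t a && onl t b && onl t x)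

def cnt (f : ℕ → Bool) : ℕ → ℕ
  | 0 => 0
  | k + 1 => cond (f k) (cnt f k + 1) (cnt f k)

def frc {α : Type} (n : ℕ) (g : ℕ → α) : α :=
  match n with
  | 0 => g 0
  | m + 1 => g (m + 1)

@[simp] theorem frc_eq {α : Type} (n : ℕ) (g : ℕ → α) : frc n g = g n := by
  cases n <;> rfl

def pass : List Tr → ℕ → ℕ
  | [], S => S
  | t :: r, S =>
    cond ((tb S t.1 && (tb S t.2.1 || tb S t.2.2)) || (tb S t.2.1 && tb S t.2.2))
      (frc (S ||| 2 ^ t.1 ||| 2 ^ t.2.1 ||| 2 ^ t.2.2) (pass r)) (pass r S)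

def clo (ls : List Tr) : ℕ → ℕ → ℕ
  | 0, S => S
  | f + 1, S => frc (pass ls S) (fun S' => cond (Nat.beq S' S) S (clo ls f S'))

def quad (ls : List Tr) (a b c d x y z : ℕ) : Bool :=
  has ls a b x && has ls c d x && has ls a c y && has ls b d y && has ls a d z && has ls b c z
    && !Nat.beq c x

def badc (p q r : Bool) : Bool := (p && !q && !r) || (!p && q && !r) || (!p && !q && r)

abbrev Op := ℕ × ℕ × ℕ × ℕ

def opts (k : ℕ) (ls : List Tr) (um v : ℕ) : List Op :=
  (fun cand : List ℕ =>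
    cand.flatMap (fun a => (cand.filter (fun b => Nat.blt a b && !adj ls a b)).map
        (fun b => (a, b, k, um))) ++
      cand.flatMap (fun a => [(a, k, k + 1, um), (a, k, k + 1, um ||| 2 ^ k)]) ++
      [(k, k + 1, k + 2, um), (k, k + 1, k + 2, um ||| 2 ^ k),
        (k, k + 1, k + 2, um ||| 2 ^ k ||| 2 ^ (k + 1))])
  ((List.range k).filter (fun a => !Nat.beq a v && Nat.blt (deg ls a) 3 && !adj ls v a))

def fits (u c k um : ℕ) : Bool :=
  Nat.ble (cnt (fun i => tb um i) k) u && Nat.ble (cnt (fun i => !tb um i) k) c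

def allOps (f : Op → List ℕ → Option (List ℕ)) : List Op → List ℕ → Option (List ℕ)
  | [], z => some z
  | o :: r, z => match f o z with
    | none => none
    | some z' => allOps f r z'

def dg (z i : ℕ) : ℕ := (z >>> (4 * i)) % 16

def four (z i : ℕ) : ℕ :=
  0 ||| 2 ^ dg z i ||| 2 ^ dg z (i + 1) ||| 2 ^ dg z (i + 2) ||| 2 ^ dg z (i + 3)

def qd (ls : List Tr) (z : ℕ) : Bool :=
  quad ls (dg z 1) (dg z 2) (dg z 3) (dg z 4) (dg z 5) (dg z 6) (dg z 7)

def leaf (c k : ℕ) (ls : List Tr) (um z : ℕ) : Bool :=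
  cond (Nat.beq (z % 16) 1)
    (frc (four z 1) fun S0 => frc (clo ls 14 S0) fun S => Nat.blt c (cnt (tb S) k))
    (qd ls z &&
      cond (Nat.beq (z % 16) 3)
        (tb um (dg z 1) && !tb um (dg z 5) && !tb um (dg z 6) && !tb um (dg z 7))
      (cond (Nat.beq (z % 16) 4) (has ls (dg z 5) (dg z 6) (dg z 7))
        (frc (four z 8) fun S0 => frc (clo ls 14 S0) fun S =>
          tb S (dg z 5) && tb S (dg z 6) && tb S (dg z 7) &&
            frc (S ||| 2 ^ dg z 1) fun S1 => frc (clo ls 14 S1) fun S2 =>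
              Nat.blt c (cnt (tb S2) k))))

def run (u c : ℕ) : ℕ → ℕ → List Tr → ℕ → List ℕ → Option (List ℕ)
  | 0, _, _, _, _ => none
  | _ + 1, _, _, _, [] => none
  | f + 1, k, ls, um, e :: z =>
    cond (Nat.beq (e % 16) 0)
      (frc (dg e 1) fun v => cond (Nat.blt v k && Nat.blt (deg ls v) 3)
        (allOps (fun o w => frc o.1 fun a => frc o.2.1 fun b => frc o.2.2.1 fun k' =>
          frc o.2.2.2 fun um' =>
          cond (badc (tb um' v) (tb um' a) (tb um' b) || !fits u c k' um') (some w)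
            (run u c f k' ((v, a, b) :: ls) um' w))
          (opts k ls um v) z) none)
    (cond (Nat.beq (e % 16) 5)
      (cond (Nat.blt k (u + c))
        (allOps (fun o w => frc o.1 fun um' => frc (k + 1) fun k' =>
          cond (!fits u c k' um') (some w) (run u c f k' ls um' w))
          [(um, 0, 0, 0), (um ||| 2 ^ k, 0, 0, 0)] z) none)
      (cond (leaf c k ls um e) (some z) none))

end H16.N3
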