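import Pool.Agent.H16.N3a

namespace H16.N3

structure Ctx (n : ℕ) where
  L : Finset (Finset (Fin n))
  Cl : Finset (Fin n) → Prop
  S0 : Finset (Fin n)
  h3 : ∀ l ∈ L, l.card = 3
  hdeg : ∀ p, (L.filter (fun l => p ∈ l)).card = 3
  hlin : ∀ l ∈ L, ∀ l' ∈ L, ∀ a b, a ≠ b → a ∈ l → b ∈ l → a ∈ l' → b ∈ l' → l = l'
  c1 : ∀ S, Cl S → ∀ l ∈ L, ∀ a b x, a ≠ b → a ∈ l → b ∈ l → x ∈ l → a ∈ S → b ∈ S → x ∈ S
  cq : ∀ S, Cl S → ∀ a b c d x y z, {a, b, x} ∈ L → {c, d, x} ∈ L → {a, c, y} ∈ L →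
    {b, d, y} ∈ L → {a, d, z} ∈ L → {b, c, z} ∈ L → c ≠ x → x ∈ S → y ∈ S → z ∈ S → a ∈ S
  cl : ∀ l ∈ L, Cl l
  h4 : ∀ a b c d, ∃ S, Cl S ∧ a ∈ S ∧ b ∈ S ∧ c ∈ S ∧ d ∈ S ∧ S.card ≤ S0.card
  c0 : Cl S0

variable {n : ℕ}

def st (φ : ℕ → Fin n) (t : Tr) : Finset (Fin n) := {φ t.1, φ t.2.1, φ t.2.2}

structure Inv (X : Ctx n) (k : ℕ) (ls : List Tr) (um : ℕ) (φ : ℕ → Fin n) : Prop where
  inj : ∀ i < k, ∀ j < k, φ i = φ j → i = j
  ln : ∀ t ∈ ls, t.1 < k ∧ t.2.1 < k ∧ t.2.2 < k ∧ st φ t ∈ X.L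
  nd : (ls.map (st φ)).Nodup
  col : ∀ i < k, tb um i = true ↔ φ i ∉ X.S0
  hi : ∀ i, k ≤ i → tb um i = false

theorem three_ne {α : Type} [DecidableEq α] {a b c : α} (h : ({a, b, c} : Finset α).card = 3) :
    a ≠ b ∧ a ≠ c ∧ b ≠ c := by
  refine ⟨?_, ?_, ?_⟩
  · rintro rfl
    have : ({a, a, c} : Finset α) = {a, c} := by ext; simp
    rw [this] at h; have := Finset.card_le_two (a := a) (b := c); omega
  · rintro rfl
    have : ({a, b, a} : Finset α) = {a, b} := by ext; simp; tauto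
    rw [this] at h; have := Finset.card_le_two (a := a) (b := b); omega
  · rintro rfl
    have : ({a, b, b} : Finset α) = {a, b} := by ext; simp
    rw [this] at h; have := Finset.card_le_two (a := a) (b := b); omega

theorem cnt_eq (f : ℕ → Bool) (k : ℕ) :
    cnt f k = ((Finset.range k).filter (fun i => f i = true)).card := by
  induction k with
  | zero => simp [cnt]
  | succ k ih =>
    rw [Finset.range_add_one, Finset.filter_insert]
    cases h : f k
    · simp [cnt, h, ih]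
    · simp [cnt, h, ih]

theorem cnt_le {k : ℕ} {φ : ℕ → Fin n} (inj : ∀ i < k, ∀ j < k, φ i = φ j → i = j)
    (f : ℕ → Bool) (T : Finset (Fin n)) (h : ∀ i < k, f i = true → φ i ∈ T) :
    cnt f k ≤ T.card := by
  rw [cnt_eq]
  refine Finset.card_le_card_of_injOn φ ?_ ?_
  · intro i hi
    simp only [Finset.coe_filter, Finset.mem_range, Set.mem_ofPred_eq] at hi
    exact h i hi.1 hi.2
  · intro i hi j hj e
    simp only [Finset.coe_filter, Finset.mem_range, Set.mem_ofPred_eq] at hi hj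
    exact inj i hi.1 j hj.1 e

def In (φ : ℕ → Fin n) (S : ℕ) (T : Finset (Fin n)) : Prop := ∀ i, tb S i = true → φ i ∈ T

theorem In.ins {φ : ℕ → Fin n} {S : ℕ} {T : Finset (Fin n)} (h : In φ S T) {a : ℕ}
    (ha : φ a ∈ T) : In φ (S ||| 2 ^ a) T := by
  intro i hi
  rw [tb_or] at hi
  simp only [Bool.or_eq_true, decide_eq_true_eq] at hi
  rcases hi with hi | rfl
  exacts [h i hi, ha]

theorem pass_in (X : Ctx n) {φ : ℕ → Fin n} {T : Finset (Fin n)} (hT : X.Cl T) (ls : List Tr)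
    (hl : ∀ t ∈ ls, st φ t ∈ X.L) : ∀ S, In φ S T → In φ (pass ls S) T := by
  induction ls with
  | nil => intro S h; exact h
  | cons t r ih =>
    intro S h
    have ih' := ih (fun t ht => hl t (List.mem_cons_of_mem _ ht))
    have ht := hl t List.mem_cons_self
    obtain ⟨n1, n2, n3⟩ := three_ne (X.h3 _ ht)
    have m1 : φ t.1 ∈ st φ t := by simp [st]
    have m2 : φ t.2.1 ∈ st φ t := by simp [st]
    have m3 : φ t.2.2 ∈ st φ t := by simp [st]
    unfold pass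
    cases hc : ((tb S t.1 && (tb S t.2.1 || tb S t.2.2)) || (tb S t.2.1 && tb S t.2.2))
    · exact ih' S h
    · simp only [cond_true, frc_eq]
      apply ih'
      simp only [Bool.or_eq_true, Bool.and_eq_true] at hc
      have key : ∀ x ∈ st φ t, x ∈ T := by
        intro x hx
        rcases hc with ⟨h1, h2 | h2⟩ | ⟨h1, h2⟩
        · exact X.c1 T hT _ ht _ _ x n1 m1 m2 hx (h _ h1) (h _ h2)
        · exact X.c1 T hT _ ht _ _ x n2 m1 m3 hx (h _ h1) (h _ h2)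
        · exact X.c1 T hT _ ht _ _ x n3 m2 m3 hx (h _ h1) (h _ h2)
      exact ((h.ins (key _ m1)).ins (key _ m2)).ins (key _ m3)

theorem clo_in (X : Ctx n) {φ : ℕ → Fin n} {T : Finset (Fin n)} (hT : X.Cl T) (ls : List Tr)
    (hl : ∀ t ∈ ls, st φ t ∈ X.L) (f : ℕ) : ∀ S, In φ S T → In φ (clo ls f S) T := by
  induction f with
  | zero => intro S h; exact h
  | succ f ih =>
    intro S h
    unfold clo
    rw [frc_eq]
    cases Nat.beq (pass ls S) S
    · exact ih _ (pass_in X hT ls hl S h)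
    · exact h

theorem Inv.mem_st {X : Ctx n} {k ls um φ} (I : Inv X k ls um φ) {t : Tr} (ht : t ∈ ls) {i : ℕ}
    (hi : i < k) : φ i ∈ st φ t ↔ onl t i = true := by
  obtain ⟨a, b, c, _⟩ := I.ln t ht
  rw [onl_iff]
  simp only [st, Finset.mem_insert, Finset.mem_singleton]
  constructor
  · rintro (h | h | h)
    exacts [Or.inl (I.inj _ hi _ a h), Or.inr (Or.inl (I.inj _ hi _ b h)),
      Or.inr (Or.inr (I.inj _ hi _ c h))]
  · rintro (rfl | rfl | rfl) <;> simp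

theorem Inv.lt {X : Ctx n} {k ls um φ} (I : Inv X k ls um φ) {t : Tr} (ht : t ∈ ls) {i : ℕ}
    (h : onl t i = true) : i < k := by
  obtain ⟨a, b, c, _⟩ := I.ln t ht
  rcases (onl_iff _ _).1 h with rfl | rfl | rfl <;> assumption

theorem nbeq {a b : ℕ} : (!Nat.beq a b) = true ↔ a ≠ b := by
  cases h : Nat.beq a b
  · simpa using Nat.ne_of_beq_eq_false h
  · simpa using Nat.eq_of_beq_eq_true h

theorem Inv.has {X : Ctx n} {k ls um φ} (I : Inv X k ls um φ) {a b x : ℕ}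
    (h : has ls a b x = true) : ({φ a, φ b, φ x} : Finset (Fin n)) ∈ X.L ∧ a < k ∧ b < k ∧ x < k := by
  simp only [H16.N3.has, Bool.and_eq_true, nbeq, List.any_eq_true] at h
  obtain ⟨⟨⟨n1, n2⟩, n3⟩, t, ht, ⟨h1, h2⟩, h3⟩ := h
  have l1 := I.lt ht h1
  have l2 := I.lt ht h2
  have l3 := I.lt ht h3
  refine ⟨?_, l1, l2, l3⟩
  have hL := (I.ln t ht).2.2.2
  have e : ({φ a, φ b, φ x} : Finset (Fin n)) = st φ t := by
    apply Finset.eq_of_subset_of_card_le
    · intro y hy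
      simp only [Finset.mem_insert, Finset.mem_singleton] at hy
      rcases hy with rfl | rfl | rfl
      exacts [(I.mem_st ht l1).2 h1, (I.mem_st ht l2).2 h2, (I.mem_st ht l3).2 h3]
    · rw [X.h3 _ hL, Finset.card_eq_three.2 ⟨_, _, _, fun e => n1 (I.inj _ l1 _ l2 e),
        fun e => n2 (I.inj _ l1 _ l3 e), fun e => n3 (I.inj _ l2 _ l3 e), rfl⟩]
  rw [e]; exact hL

theorem Inv.qd {X : Ctx n} {k ls um φ} (I : Inv X k ls um φ) {e : ℕ} (h : qd ls e = true)
    {T : Finset (Fin n)} (hT : X.Cl T) (h5 : φ (dg e 5) ∈ T) (h6 : φ (dg e 6) ∈ T)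
    (h7 : φ (dg e 7) ∈ T) : φ (dg e 1) ∈ T := by
  simp only [H16.N3.qd, quad, Bool.and_eq_true, nbeq] at h
  obtain ⟨⟨⟨⟨⟨⟨a1, a2⟩, a3⟩, a4⟩, a5⟩, a6⟩, a7⟩ := h
  exact X.cq T hT _ _ _ _ _ _ _ (I.has a1).1 (I.has a2).1 (I.has a3).1 (I.has a4).1 (I.has a5).1
    (I.has a6).1 (fun e' => a7 (I.inj _ (I.has a2).2.1 _ (I.has a2).2.2.2 e')) h5 h6 h7

theorem four_in (X : Ctx n) (φ : ℕ → Fin n) (e i : ℕ) :
    ∃ T, X.Cl T ∧ In φ (four e i) T ∧ T.card ≤ X.S0.card := by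
  obtain ⟨T, hT, a, b, c, d, hc⟩ :=
    X.h4 (φ (dg e i)) (φ (dg e (i + 1))) (φ (dg e (i + 2))) (φ (dg e (i + 3)))
  refine ⟨T, hT, ?_, hc⟩
  have z : In φ 0 T := by intro j hj; simp [tb_eq] at hj
  exact (((z.ins a).ins b).ins c).ins d

theorem Inv.leaf {X : Ctx n} {k ls um φ} (I : Inv X k ls um φ) {e : ℕ}
    (h : leaf X.S0.card k ls um e = true) : False := by
  have hl : ∀ t ∈ ls, st φ t ∈ X.L := fun t ht => (I.ln t ht).2.2.2
  unfold H16.N3.leaf at h
  simp only [frc_eq] at h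
  cases h1 : Nat.beq (e % 16) 1
  · rw [h1] at h
    simp only [cond_false, Bool.and_eq_true] at h
    obtain ⟨hq, h⟩ := h
    have hq' := hq
    simp only [H16.N3.qd, quad, Bool.and_eq_true, nbeq] at hq'
    obtain ⟨⟨⟨⟨⟨⟨a1, a2⟩, a3⟩, a4⟩, a5⟩, a6⟩, a7⟩ := hq'
    cases h3 : Nat.beq (e % 16) 3
    · rw [h3] at h
      simp only [cond_false] at h
      cases h4 : Nat.beq (e % 16) 4
      · rw [h4] at h
        simp only [cond_false, Bool.and_eq_true, Nat.blt_eq] at h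
        obtain ⟨⟨⟨b5, b6⟩, b7⟩, hc⟩ := h
        obtain ⟨T, hT, hin, hcard⟩ := four_in X φ e 8
        have h2 := clo_in X hT ls hl 14 _ hin
        have h3 := clo_in X hT ls hl 14 _ (h2.ins (I.qd hq hT (h2 _ b5) (h2 _ b6) (h2 _ b7)))
        have := cnt_le I.inj _ T (fun i _ hi => h3 i hi)
        omega
      · rw [h4] at h
        simp only [cond_true] at h
        have hm := I.qd hq (X.cl _ (I.has h).1) (by simp) (by simp) (by simp)
        simp only [Finset.mem_insert, Finset.mem_singleton] at hm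
        rcases hm with hm | hm | hm
        · exact (three_ne (X.h3 _ (I.has a1).1)).2.1 hm
        · exact (three_ne (X.h3 _ (I.has a3).1)).2.1 hm
        · exact (three_ne (X.h3 _ (I.has a5).1)).2.1 hm
    · rw [h3] at h
      simp only [cond_true, Bool.and_eq_true, Bool.not_eq_true'] at h
      obtain ⟨⟨⟨b1, b5⟩, b6⟩, b7⟩ := h
      have g : ∀ i < k, tb um i = false → φ i ∈ X.S0 := by
        intro i hi hb
        by_contra hn
        rw [(I.col i hi).2 hn] at hb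
        exact absurd hb (by simp)
      exact (I.col _ (I.has a1).2.1).1 b1 (I.qd hq X.c0 (g _ (I.has a1).2.2.2 b5)
        (g _ (I.has a3).2.2.2 b6) (g _ (I.has a5).2.2.2 b7))
  · rw [h1] at h
    simp only [cond_true, Nat.blt_eq] at h
    obtain ⟨T, hT, hin, hcard⟩ := four_in X φ e 1
    have h2 := clo_in X hT ls hl 14 _ hin
    have := cnt_le I.inj _ T (fun i _ hi => h2 i hi)
    omega

end H16.N3
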