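import Pool.Agent.H16.N3d
import Pool.Agent.H16.N3c

namespace H16.N3

variable {n : ℕ}

theorem Inv.ext {X : Ctx n} {k ls um φ} (I : Inv X k ls um φ) {x : Fin n} (hx : ∀ i < k, φ i ≠ x) :
    Inv X (k + 1) ls (if x ∈ X.S0 then um else um ||| 2 ^ k) (Function.update φ k x) := by
  have old : ∀ i < k, Function.update φ k x i = φ i := fun i hi =>
    Function.update_of_ne (by omega) _ _
  have es : ∀ t ∈ ls, st (Function.update φ k x) t = st φ t := by
    intro t ht
    obtain ⟨a, b, c, _⟩ := I.ln t ht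
    simp only [st, old _ a, old _ b, old _ c]
  refine ⟨?_, ?_, ?_, ?_, ?_⟩
  · intro i hi j hj e
    rcases Nat.lt_succ_iff_lt_or_eq.1 hi with hi | rfl <;>
      rcases Nat.lt_succ_iff_lt_or_eq.1 hj with hj | rfl
    · rw [old _ hi, old _ hj] at e; exact I.inj _ hi _ hj e
    · rw [old _ hi, Function.update_self] at e; exact absurd e (hx _ hi)
    · rw [old _ hj, Function.update_self] at e; exact absurd e.symm (hx _ hj)
    · rfl
  · intro t ht
    obtain ⟨a, b, c, d⟩ := I.ln t ht
    exact ⟨by omega, by omega, by omega, by rw [es t ht]; exact d⟩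
  · rw [List.map_congr_left es]; exact I.nd
  · intro i hi
    rcases Nat.lt_succ_iff_lt_or_eq.1 hi with hi | rfl
    · rw [old _ hi, ← I.col i hi]
      split_ifs
      · rfl
      · rw [tb_or]; simp [show k ≠ i by omega]
    · rw [Function.update_self]
      split_ifs with h
      · simp [I.hi i le_rfl, h]
      · simp [tb_or, h]
  · intro i hi
    split_ifs
    · exact I.hi i (by omega)
    · rw [tb_or, I.hi i (by omega)]; simp; omega

theorem Inv.line {X : Ctx n} {k ls um φ} (I : Inv X k ls um φ) {v a b : ℕ} (hv : v < k)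
    (ha : a < k) (hb : b < k) {l : Finset (Fin n)} (hl : l ∈ X.L) (hn : l ∉ ls.map (st φ))
    (e : l = {φ v, φ a, φ b}) : Inv X k ((v, a, b) :: ls) um φ := by
  refine ⟨I.inj, ?_, ?_, I.col, I.hi⟩
  · intro t ht
    rcases List.mem_cons.1 ht with rfl | ht
    · exact ⟨hv, ha, hb, by rw [e] at hl; exact hl⟩
    · exact I.ln t ht
  · rw [List.map_cons, List.nodup_cons]
    exact ⟨by rw [e] at hn; exact hn, I.nd⟩

theorem Inv.fits {X : Ctx n} {k ls um φ} (I : Inv X k ls um φ) :
    fits (n - X.S0.card) X.S0.card k um = true := by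
  simp only [H16.N3.fits, Bool.and_eq_true, Nat.ble_eq]
  constructor
  · have := cnt_le I.inj (fun i => tb um i) X.S0ᶜ
      (fun i hi h => Finset.mem_compl.2 ((I.col i hi).1 h))
    rwa [Finset.card_compl, Fintype.card_fin] at this
  · refine cnt_le I.inj _ _ (fun i hi h => ?_)
    by_contra hn
    rw [(I.col i hi).2 hn] at h
    exact absurd h (by simp)

theorem Inv.badc {X : Ctx n} {k ls um φ} {v a b : ℕ} (I : Inv X k ((v, a, b) :: ls) um φ) :
    badc (tb um v) (tb um a) (tb um b) = false := by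
  obtain ⟨hv, ha, hb, hl⟩ := I.ln _ List.mem_cons_self
  obtain ⟨n1, n2, n3⟩ := three_ne (X.h3 _ hl)
  have m1 : φ v ∈ st φ (v, a, b) := by simp [st]
  have m2 : φ a ∈ st φ (v, a, b) := by simp [st]
  have m3 : φ b ∈ st φ (v, a, b) := by simp [st]
  have c1 := I.col v hv
  have c2 := I.col a ha
  have c3 := I.col b hb
  have d1 := X.c1 _ X.c0 _ hl _ _ _ n3 m2 m3 m1
  have d2 := X.c1 _ X.c0 _ hl _ _ _ n2 m1 m3 m2
  have d3 := X.c1 _ X.c0 _ hl _ _ _ n1 m1 m2 m3
  dsimp only at d1 d2 d3
  cases h1 : tb um v <;> cases h2 : tb um a <;> cases h3 : tb um b <;>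
    simp_all [H16.N3.badc]

theorem Inv.degc {X : Ctx n} {k ls um φ} (I : Inv X k ls um φ) (a : ℕ) :
    (((ls.filter (fun t => onl t a)).map (st φ)).toFinset).card = deg ls a := by
  rw [List.toFinset_card_of_nodup, List.length_map, deg]
  exact I.nd.sublist (List.filter_sublist.map _)

theorem Inv.newl {X : Ctx n} {k ls um φ} (I : Inv X k ls um φ) {v : ℕ} (hv : v < k)
    (hd : deg ls v < 3) : ∃ l ∈ X.L, φ v ∈ l ∧ l ∉ ls.map (st φ) := by
  by_contra h
  push Not at h
  have : X.L.filter (fun l => φ v ∈ l) ⊆ ((ls.filter (fun t => onl t v)).map (st φ)).toFinset := by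
    intro l hl
    rw [Finset.mem_filter] at hl
    obtain ⟨t, ht, rfl⟩ := List.mem_map.1 (h l hl.1 hl.2)
    exact List.mem_toFinset.2 (List.mem_map.2
      ⟨t, List.mem_filter.2 ⟨ht, (I.mem_st ht hv).1 hl.2⟩, rfl⟩)
  have := Finset.card_le_card this
  rw [X.hdeg, I.degc] at this
  omega

theorem Inv.deglt {X : Ctx n} {k ls um φ} (I : Inv X k ls um φ) {a : ℕ} (ha : a < k)
    {l : Finset (Fin n)} (hl : l ∈ X.L) (hn : l ∉ ls.map (st φ)) (hm : φ a ∈ l) : deg ls a < 3 := by
  have : ((ls.filter (fun t => onl t a)).map (st φ)).toFinset ⊆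
      (X.L.filter (fun l => φ a ∈ l)).erase l := by
    intro l' hl'
    obtain ⟨t, ht, rfl⟩ := List.mem_map.1 (List.mem_toFinset.1 hl')
    obtain ⟨ht, ho⟩ := List.mem_filter.1 ht
    refine Finset.mem_erase.2 ⟨?_, Finset.mem_filter.2 ⟨(I.ln t ht).2.2.2, (I.mem_st ht ha).2 ho⟩⟩
    rintro rfl
    exact hn (List.mem_map.2 ⟨t, ht, rfl⟩)
  have h2 := Finset.card_le_card this
  rw [Finset.card_erase_of_mem (Finset.mem_filter.2 ⟨hl, hm⟩), X.hdeg, I.degc] at h2
  omega

theorem Inv.nadj {X : Ctx n} {k ls um φ} (I : Inv X k ls um φ) {a b : ℕ} (ha : a < k) (hb : b < k)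
    (hab : φ a ≠ φ b) {l : Finset (Fin n)} (hl : l ∈ X.L) (hn : l ∉ ls.map (st φ))
    (ma : φ a ∈ l) (mb : φ b ∈ l) : adj ls a b = false := by
  by_contra h
  simp only [adj, Bool.not_eq_false, List.any_eq_true, Bool.and_eq_true] at h
  obtain ⟨t, ht, h1, h2⟩ := h
  have := X.hlin l hl _ (I.ln t ht).2.2.2 _ _ hab ma mb ((I.mem_st ht ha).2 h1)
    ((I.mem_st ht hb).2 h2)
  exact hn (List.mem_map.2 ⟨t, ht, this.symm⟩)

theorem Inv.map_ext {X : Ctx n} {k ls um φ} (I : Inv X k ls um φ) (x : Fin n) :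
    ls.map (st (Function.update φ k x)) = ls.map (st φ) := by
  apply List.map_congr_left
  intro t ht
  obtain ⟨a, b, c, _⟩ := I.ln t ht
  simp only [st, Function.update_of_ne (Nat.ne_of_lt a), Function.update_of_ne (Nat.ne_of_lt b),
    Function.update_of_ne (Nat.ne_of_lt c)]

theorem Inv.opts {X : Ctx n} {k ls um φ} (I : Inv X k ls um φ) {v : ℕ} (hv : v < k)
    (hd : deg ls v < 3) : ∃ o ∈ opts k ls um v, ∃ φ',
      Inv X o.2.2.1 ((v, o.1, o.2.1) :: ls) o.2.2.2 φ' := by
  obtain ⟨l, hl, hvl, hn⟩ := I.newl hv hd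
  obtain ⟨x, y, hxy, e⟩ := Finset.card_eq_two.1
    (show (l.erase (φ v)).card = 2 by rw [Finset.card_erase_of_mem hvl, X.h3 l hl])
  have hx : x ∈ l.erase (φ v) := by rw [e]; simp
  have hy : y ∈ l.erase (φ v) := by rw [e]; simp
  have el : l = {φ v, x, y} := by rw [← e, Finset.insert_erase hvl]
  rw [Finset.mem_erase] at hx hy
  have cand : ∀ a < k, φ a ≠ φ v → φ a ∈ l → a ∈ (List.range k).filter
      (fun a => !Nat.beq a v && Nat.blt (deg ls a) 3 && !adj ls v a) := by
    intro a ha h1 h2
    rw [List.mem_filter, List.mem_range]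
    refine ⟨ha, ?_⟩
    simp only [Bool.and_eq_true, Nat.blt_eq]
    exact ⟨⟨nbeq.2 (fun e => h1 (by rw [e])), I.deglt ha hl hn h2⟩,
      by rw [I.nadj hv ha h1.symm hl hn hvl h2]; rfl⟩
  have oo : ∀ a < k, ∀ b < k, a < b → φ a ≠ φ b → φ a ≠ φ v → φ b ≠ φ v → l = {φ v, φ a, φ b} →
      ∃ o ∈ H16.N3.opts k ls um v, ∃ φ', Inv X o.2.2.1 ((v, o.1, o.2.1) :: ls) o.2.2.2 φ' := by
    intro a ha b hb hab n1 n2 n3 e
    have ma : φ a ∈ l := by rw [e]; simp
    have mb : φ b ∈ l := by rw [e]; simp
    refine ⟨(a, b, k, um), ?_, φ, I.line hv ha hb hl hn e⟩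
    unfold H16.N3.opts
    refine List.mem_append_left _ (List.mem_append_left _ (List.mem_flatMap.2
      ⟨a, cand a ha n2 ma, List.mem_map.2 ⟨b, List.mem_filter.2 ⟨cand b hb n3 mb, ?_⟩, rfl⟩⟩))
    simp only [Bool.and_eq_true, Nat.blt_eq, Bool.not_eq_true']
    exact ⟨hab, I.nadj ha hb n1 hl hn ma mb⟩
  have on : ∀ a < k, ∀ w, (∀ i < k, φ i ≠ w) → φ a ≠ φ v → l = {φ v, φ a, w} →
      ∃ o ∈ H16.N3.opts k ls um v, ∃ φ', Inv X o.2.2.1 ((v, o.1, o.2.1) :: ls) o.2.2.2 φ' := by
    intro a ha w hw n2 e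
    have ma : φ a ∈ l := by rw [e]; simp
    have J := I.ext hw
    refine ⟨(a, k, k + 1, if w ∈ X.S0 then um else um ||| 2 ^ k), ?_, _,
      J.line (v := v) (a := a) (b := k) (by omega) (by omega) (by omega) hl (by rw [I.map_ext]; exact hn) ?_⟩
    · unfold H16.N3.opts
      refine List.mem_append_left _ (List.mem_append_right _ (List.mem_flatMap.2
        ⟨a, cand a ha n2 ma, ?_⟩))
      split_ifs <;> simp
    · simp only [Function.update_of_ne (Nat.ne_of_lt hv), Function.update_of_ne (Nat.ne_of_lt ha),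
        Function.update_self]
      exact e
  have nn : ∀ w w', (∀ i < k, φ i ≠ w) → (∀ i < k, φ i ≠ w') → w ≠ w' → (w ∈ X.S0 → w' ∈ X.S0) →
      l = {φ v, w, w'} →
      ∃ o ∈ H16.N3.opts k ls um v, ∃ φ', Inv X o.2.2.1 ((v, o.1, o.2.1) :: ls) o.2.2.2 φ' := by
    intro w w' hw hw' hne hc e
    have J := I.ext hw
    have K := J.ext (x := w') (by
      intro i hi
      rcases Nat.lt_succ_iff_lt_or_eq.1 hi with hi | rfl
      · rw [Function.update_of_ne (Nat.ne_of_lt hi)]; exact hw' i hi
      · rw [Function.update_self]; exact hne)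
    refine ⟨(k, k + 1, k + 2, if w' ∈ X.S0 then if w ∈ X.S0 then um else um ||| 2 ^ k
      else (if w ∈ X.S0 then um else um ||| 2 ^ k) ||| 2 ^ (k + 1)), ?_, _,
      K.line (v := v) (a := k) (b := k + 1) (by omega) (by omega) (by omega) hl (by rw [J.map_ext, I.map_ext]; exact hn) ?_⟩
    · unfold H16.N3.opts
      refine List.mem_append_right _ ?_
      by_cases h1 : w ∈ X.S0
      · simp [h1, hc h1]
      · by_cases h2 : w' ∈ X.S0 <;> simp [h1, h2]
    · simp only [Function.update_of_ne (Nat.ne_of_lt hv), Function.update_self,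
        Function.update_of_ne (show v ≠ k + 1 by omega),
        Function.update_of_ne (show k ≠ k + 1 by omega)]
      exact e
  have el' : l = {φ v, y, x} := by rw [el, Finset.pair_comm x y]
  by_cases ox : ∃ i < k, φ i = x <;> by_cases oy : ∃ i < k, φ i = y
  · obtain ⟨a, ha, rfl⟩ := ox
    obtain ⟨b, hb, rfl⟩ := oy
    rcases lt_trichotomy a b with h | rfl | h
    · exact oo a ha b hb h hxy hx.1 hy.1 el
    · exact absurd rfl hxy
    · exact oo b hb a ha h hxy.symm hy.1 hx.1 el'
  · obtain ⟨a, ha, rfl⟩ := ox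
    push Not at oy
    exact on a ha y oy hx.1 el
  · obtain ⟨a, ha, rfl⟩ := oy
    push Not at ox
    exact on a ha x ox hy.1 el'
  · push Not at ox oy
    by_cases hc : x ∈ X.S0 → y ∈ X.S0
    · exact nn x y ox oy hxy hc el
    · exact nn y x oy ox hxy.symm (by tauto) el'

theorem allOps_some (f : Op → List ℕ → Option (List ℕ)) (os : List Op) :
    ∀ z r, allOps f os z = some r → ∀ o ∈ os, ∃ w w', f o w = some w' := by
  induction os with
  | nil => intro z r _ o ho; simp at ho
  | cons a s ih =>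
    intro z r h o ho
    unfold allOps at h
    cases e : f a z with
    | none => rw [e] at h; simp at h
    | some z' =>
      rw [e] at h
      rcases List.mem_cons.1 ho with rfl | ho
      · exact ⟨_, _, e⟩
      · exact ih z' r h o ho

theorem run_sound (X : Ctx n) (f : ℕ) : ∀ k ls um z r φ,
    run (n - X.S0.card) X.S0.card f k ls um z = some r → Inv X k ls um φ → False := by
  induction f with
  | zero => intro k ls um z r φ h; simp [run] at h
  | succ f ih =>
    intro k ls um z r φ h I
    cases z with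
    | nil => simp [run] at h
    | cons e z =>
      unfold run at h
      simp only [frc_eq] at h
      cases h0 : Nat.beq (e % 16) 0
      · rw [h0] at h
        simp only [cond_false] at h
        cases h5 : Nat.beq (e % 16) 5
        · rw [h5] at h
          simp only [cond_false] at h
          cases hl : leaf X.S0.card k ls um e
          · rw [hl] at h; simp at h
          · exact I.leaf hl
        · rw [h5] at h
          simp only [cond_true] at h
          cases hk : Nat.blt k (n - X.S0.card + X.S0.card)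
          · rw [hk] at h; simp at h
          · rw [hk] at h
            simp only [cond_true] at h
            have hc : X.S0.card ≤ n := by simpa using X.S0.card_le_univ
            rw [Nat.blt_eq, Nat.sub_add_cancel hc] at hk
            obtain ⟨x, hx⟩ : ∃ x : Fin n, x ∉ (Finset.range k).image φ := by
              by_contra hh
              push Not at hh
              have h1 := Finset.card_le_card (fun x _ => hh x : Finset.univ ⊆ _)
              have h2 := Finset.card_image_le (s := Finset.range k) (f := φ)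
              simp at h1 h2
              omega
            have J := I.ext (x := x) (fun i hi e =>
              hx (Finset.mem_image.2 ⟨i, Finset.mem_range.2 hi, e⟩))
            obtain ⟨w, w', hw⟩ := allOps_some _ _ _ _ h
              (if x ∈ X.S0 then um else um ||| 2 ^ k, 0, 0, 0) (by split_ifs <;> simp)
            simp only [J.fits, Bool.not_true, cond_false] at hw
            exact ih _ _ _ _ _ _ hw J
      · rw [h0] at h
        simp only [cond_true] at h
        cases hk : (Nat.blt (dg e 1) k && Nat.blt (deg ls (dg e 1)) 3)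
        · rw [hk] at h; simp at h
        · rw [hk] at h
          simp only [cond_true] at h
          simp only [Bool.and_eq_true, Nat.blt_eq] at hk
          obtain ⟨o, ho, φ', J⟩ := I.opts hk.1 hk.2
          obtain ⟨w, w', hw⟩ := allOps_some _ _ _ _ h o ho
          simp only [J.fits, J.badc, Bool.not_true, Bool.or_false, cond_false] at hw
          exact ih _ _ _ _ _ _ hw J

theorem no_ctx (X : Ctx n) (hn : n ≤ 14) (h0 : X.S0 ≠ Finset.univ) : False := by
  obtain ⟨x, hx⟩ : ∃ x, x ∉ X.S0 := by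
    by_contra h
    push Not at h
    exact h0 (Finset.eq_univ_of_forall h)
  have hc : X.S0.card < n := by
    simpa using Finset.card_lt_card (Finset.ssubset_univ_iff.2 h0)
  obtain ⟨z, hz⟩ := okall n (n - X.S0.card) hn (by omega) (by omega)
  rw [ok, show n - (n - X.S0.card) = X.S0.card by omega, Option.isSome_iff_exists] at hz
  obtain ⟨r, hr⟩ := hz
  refine run_sound X 40 1 [] 1 z r (fun _ => x) hr ⟨?_, by simp, by simp, ?_, ?_⟩
  · intro i hi j hj _; omega
  · intro i hi
    obtain rfl : i = 0 := by omega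
    simp [hx, tb]
  · intro i hi
    rw [tb_eq]
    exact Nat.testBit_lt_two_pow (Nat.one_lt_two_pow (by omega))

end H16.N3
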