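import Pool.Agent.H16.N3e

namespace H16.N3

open Module

variable {V : Type} [AddCommGroup V] [Module ℝ V]

theorem online {ℓ : AffineSubspace ℝ V} (h : finrank ℝ ℓ.direction = 1) {a b x : V} (hab : a ≠ b)
    (ha : a ∈ ℓ) (hb : b ∈ ℓ) (hx : x ∈ ℓ) : ∃ s : ℝ, x = a + s • (b - a) := by
  have h1 : b - a ∈ ℓ.direction := AffineSubspace.vsub_mem_direction hb ha
  have h2 : x - a ∈ ℓ.direction := AffineSubspace.vsub_mem_direction hx ha
  obtain ⟨s, hs⟩ := (finrank_eq_one_iff_of_nonzero' (⟨b - a, h1⟩ : ℓ.direction)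
    (fun e => hab (sub_eq_zero.1 (congrArg Subtype.val e)).symm)).1 h ⟨x - a, h2⟩
  have := congrArg Subtype.val hs
  simp only [SetLike.val_smul] at this
  exact ⟨s, by rw [this]; abel⟩

theorem memline {W : AffineSubspace ℝ V} {a b : V} (ha : a ∈ W) (hb : b ∈ W) (s : ℝ) :
    a + s • (b - a) ∈ W := by
  have := W.smul_vsub_vadd_mem s hb ha ha
  simpa [add_comm] using this

theorem quadlem {W : AffineSubspace ℝ V} {a b c d x y z : V} {s t s' t' s'' t'' : ℝ}
    (hab : a ≠ b) (hc : ∀ r : ℝ, c ≠ a + r • (b - a))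
    (x1 : x = a + s • (b - a)) (x2 : x = c + t • (d - c)) (y1 : y = a + s' • (c - a))
    (y2 : y = b + t' • (d - b)) (z1 : z = a + s'' • (d - a)) (z2 : z = b + t'' • (c - b))
    (hxb : x ≠ b) (hxc : x ≠ c) (hx : x ∈ W) (hy : y ∈ W) (hz : z ∈ W) : a ∈ W := by
  obtain ⟨u, rfl⟩ : ∃ u, b = a + u := ⟨b - a, by abel⟩
  obtain ⟨v, rfl⟩ : ∃ v, c = a + v := ⟨c - a, by abel⟩
  simp only [add_sub_cancel_left] at hc x1 y1
  have ind : ∀ r r' : ℝ, r • u + r' • v = 0 → r = 0 ∧ r' = 0 := by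
    intro r r' e
    have h2 : r' = 0 := by
      by_contra h
      apply hc (-r / r')
      have : v = r'⁻¹ • (r • u + r' • v) + (-r / r') • u := by
        match_scalars <;> field_simp <;> ring
      rw [e] at this
      rw [this]; simp
    refine ⟨?_, h2⟩
    by_contra h
    rw [h2, zero_smul, add_zero] at e
    exact hab (by simpa using (smul_eq_zero.1 e).resolve_left h)
  have ht : t ≠ 0 := by rintro rfl; exact hxc (by simpa using x2)
  have hs : s ≠ 1 := by rintro rfl; exact hxb (by simpa using x1)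
  obtain ⟨ν, hν⟩ : ∃ ν : ℝ, ν = 1 - t⁻¹ := ⟨_, rfl⟩
  obtain ⟨μ, hμ⟩ : ∃ μ : ℝ, μ = s * t⁻¹ := ⟨_, rfl⟩
  have hd : d = a + μ • u + ν • v := by
    have e : t • (d - (a + v)) = s • u - v := by
      rw [x1] at x2
      have : t • (d - (a + v)) = (a + v + t • (d - (a + v))) - (a + v) := by abel
      rw [this, ← x2]; abel
    have : d = a + v + t⁻¹ • (t • (d - (a + v))) := by
      rw [smul_smul, inv_mul_cancel₀ ht, one_smul]; abel
    rw [this, e, hν, hμ]; module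
  obtain ⟨e1, e2⟩ := ind (1 + t' * μ - t') (t' * ν - s') (by
    have : (1 + t' * μ - t') • u + (t' * ν - s') • v =
      (a + u + t' • (d - (a + u))) - (a + s' • v) := by rw [hd]; module
    rw [this, ← y1, ← y2, sub_self])
  obtain ⟨e3, e4⟩ := ind (s'' * μ - 1 + t'') (s'' * ν - t'') (by
    have : (s'' * μ - 1 + t'') • u + (s'' * ν - t'') • v =
      (a + s'' • (d - a)) - (a + u + t'' • (a + v - (a + u))) := by rw [hd]; module
    rw [this, ← z1, ← z2, sub_self])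
  have hl : 1 - μ - ν ≠ 0 := by
    rw [hμ, hν]
    have : 1 - s * t⁻¹ - (1 - t⁻¹) = (1 - s) * t⁻¹ := by ring
    rw [this]
    exact mul_ne_zero (sub_ne_zero.2 hs.symm) (inv_ne_zero ht)
  have r1 : μ = s * (1 - ν) := by rw [hμ, hν]; ring
  have r2 : s' * (1 - μ) = ν := by linear_combination (-(1 - μ)) * e2 - ν * e1
  have r3 : s'' * (μ + ν) = 1 := by linear_combination e3 + e4
  have key : (2 * (1 - μ - ν)) • (a - x) = (1 - μ) • (y - x) - (μ + ν) • (z - x) := by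
    rw [x1, y1, z1, hd]
    match_scalars
    · ring
    · linear_combination μ * r3 + r1
    · linear_combination ν * r3 - r2
  have hD : a - x ∈ W.direction := by
    have : a - x = (2 * (1 - μ - ν))⁻¹ • ((1 - μ) • (y - x) - (μ + ν) • (z - x)) := by
      rw [← key, smul_smul, inv_mul_cancel₀ (mul_ne_zero two_ne_zero hl), one_smul]
    rw [this]
    exact W.direction.smul_mem _ (W.direction.sub_mem
      (W.direction.smul_mem _ (AffineSubspace.vsub_mem_direction hy hx))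
      (W.direction.smul_mem _ (AffineSubspace.vsub_mem_direction hz hx)))
  simpa using AffineSubspace.vadd_mem_of_mem_direction hD hx

theorem main [FiniteDimensional ℝ V] (n : ℕ) (hn0 : 0 < n) (hn : n ≤ 14)
    (L : Finset (Finset (Fin n))) (h3 : ∀ l ∈ L, l.card = 3)
    (hdeg : ∀ a, (L.filter (fun l => a ∈ l)).card = 3)
    (hlin : ∀ a b, a ≠ b → (L.filter (fun l => a ∈ l ∧ b ∈ l)).card ≤ 1)
    (p : Fin n → V) (hp : Function.Injective p) (ℓ : Finset (Fin n) → AffineSubspace ℝ V)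
    (hℓ : ∀ l ∈ L, finrank ℝ (ℓ l).direction = 1) (hinc : ∀ l ∈ L, ∀ i, p i ∈ ℓ l ↔ i ∈ l) :
    finrank ℝ (affineSpan ℝ (Set.range p)).direction = 2 ∨
      finrank ℝ (affineSpan ℝ (Set.range p)).direction = 3 := by
  classical
  have hlin' : ∀ l ∈ L, ∀ l' ∈ L, ∀ a b, a ≠ b → a ∈ l → b ∈ l → a ∈ l' → b ∈ l' → l = l' :=
    fun l hl l' hl' a b hab h1 h2 h3 h4 => Finset.card_le_one.1 (hlin a b hab) l
      (Finset.mem_filter.2 ⟨hl, h1, h2⟩) l' (Finset.mem_filter.2 ⟨hl', h3, h4⟩)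
  have onl : ∀ l ∈ L, ∀ a b x, a ≠ b → a ∈ l → b ∈ l → x ∈ l →
      ∃ s : ℝ, p x = p a + s • (p b - p a) := fun l hl a b x hab ha hb hx =>
    online (hℓ l hl) (hp.ne hab) ((hinc l hl a).2 ha) ((hinc l hl b).2 hb) ((hinc l hl x).2 hx)
  have lo : 2 ≤ finrank ℝ (affineSpan ℝ (Set.range p)).direction := by
    by_contra h
    obtain ⟨l1, l2, h1, h2, hne⟩ := Finset.one_lt_card_iff.1
      (show 1 < (L.filter (fun l => (⟨0, hn0⟩ : Fin n) ∈ l)).card by rw [hdeg]; omega)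
    rw [Finset.mem_filter] at h1 h2
    obtain ⟨b, hb, hba⟩ := Finset.exists_mem_ne (s := l1) (by rw [h3 l1 h1.1]; omega) ⟨0, hn0⟩
    obtain ⟨c, hc, hca⟩ := Finset.exists_mem_ne (s := l2) (by rw [h3 l2 h2.1]; omega) ⟨0, hn0⟩
    have mem : ∀ i, p i ∈ affineSpan ℝ (Set.range p) := fun i => mem_affineSpan ℝ ⟨i, rfl⟩
    have h1' : finrank ℝ (affineSpan ℝ (Set.range p)).direction = 1 := by
      have : finrank ℝ (affineSpan ℝ (Set.range p)).direction ≠ 0 := by
        intro e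
        have := AffineSubspace.vsub_mem_direction (mem b) (mem ⟨0, hn0⟩)
        rw [Submodule.finrank_eq_zero.1 e, Submodule.mem_bot] at this
        exact hba (hp (sub_eq_zero.1 this))
      omega
    obtain ⟨s, hs⟩ := online h1' (hp.ne hba.symm) (mem _) (mem b) (mem c)
    have : c ∈ l1 := (hinc l1 h1.1 c).1
      (hs ▸ memline ((hinc l1 h1.1 _).2 h1.2) ((hinc l1 h1.1 _).2 hb) s)
    exact hne (hlin' l1 h1.1 l2 h2.1 _ _ hca this h1.2 hc h2.2)
  by_contra hcon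
  have hi : 4 ≤ finrank ℝ (affineSpan ℝ (Set.range p)).direction := by omega
  let Cl : Finset (Fin n) → Prop := fun S => ∃ W : AffineSubspace ℝ V, ∀ i, i ∈ S ↔ p i ∈ W
  have h4 : ∀ a b c d, ∃ S, Cl S ∧ S ≠ Finset.univ ∧ a ∈ S ∧ b ∈ S ∧ c ∈ S ∧ d ∈ S := by
    intro a b c d
    let W := affineSpan ℝ (Set.range ![p a, p b, p c, p d])
    have m : ∀ j, ![p a, p b, p c, p d] j ∈ W := fun j => mem_affineSpan ℝ ⟨j, rfl⟩
    refine ⟨Finset.univ.filter (fun i => p i ∈ W), ⟨W, by simp⟩, ?_, by simpa using m 0,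
      by simpa using m 1, by simpa using m 2, by simpa using m 3⟩
    intro e
    have hle : affineSpan ℝ (Set.range p) ≤ W := by
      rw [affineSpan_le]
      rintro _ ⟨i, rfl⟩
      exact (Finset.mem_filter.1 (e ▸ Finset.mem_univ i : i ∈ Finset.univ.filter _)).2
    have h1 := Submodule.finrank_mono (AffineSubspace.direction_le hle)
    have h2 : finrank ℝ W.direction ≤ 3 := by
      rw [direction_affineSpan]
      exact finrank_vectorSpan_range_le ℝ _ (by simp)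
    omega
  obtain ⟨S0, hS0, hmax⟩ := Finset.exists_max_image
    (Finset.univ.filter (fun S => Cl S ∧ S ≠ Finset.univ)) Finset.card (by
      obtain ⟨S, h1, h2, _⟩ := h4 ⟨0, hn0⟩ ⟨0, hn0⟩ ⟨0, hn0⟩ ⟨0, hn0⟩
      exact ⟨S, by simp [h1, h2]⟩)
  rw [Finset.mem_filter] at hS0
  refine no_ctx ⟨L, Cl, S0, h3, hdeg, hlin', ?_, ?_, fun l hl => ⟨ℓ l, fun i => (hinc l hl i).symm⟩,
    ?_, hS0.2.1⟩ hn hS0.2.2
  · rintro S ⟨W, hW⟩ l hl a b x hab ha hb hx h1 h2
    obtain ⟨s, hs⟩ := onl l hl a b x hab ha hb hx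
    rw [hW, hs]
    exact memline ((hW a).1 h1) ((hW b).1 h2) s
  · rintro S ⟨W, hW⟩ a b c d x y z l1 l2 l3 l4 l5 l6 hcx hx hy hz
    have n1 := three_ne (h3 _ l1)
    have n2 := three_ne (h3 _ l2)
    have n3 := three_ne (h3 _ l3)
    have n4 := three_ne (h3 _ l4)
    have n5 := three_ne (h3 _ l5)
    have n6 := three_ne (h3 _ l6)
    obtain ⟨s, x1⟩ := onl _ l1 a b x n1.1 (by simp) (by simp) (by simp)
    obtain ⟨t, x2⟩ := onl _ l2 c d x n2.1 (by simp) (by simp) (by simp)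
    obtain ⟨s', y1⟩ := onl _ l3 a c y n3.1 (by simp) (by simp) (by simp)
    obtain ⟨t', y2⟩ := onl _ l4 b d y n4.1 (by simp) (by simp) (by simp)
    obtain ⟨s'', z1⟩ := onl _ l5 a d z n5.1 (by simp) (by simp) (by simp)
    obtain ⟨t'', z2⟩ := onl _ l6 b c z n6.1 (by simp) (by simp) (by simp)
    rw [hW] at hx hy hz ⊢
    refine quadlem (hp.ne n1.1) ?_ x1 x2 y1 y2 z1 z2 (hp.ne n1.2.2.symm) (hp.ne hcx.symm) hx hy hz
    intro r e
    have : c ∈ ({a, b, x} : Finset (Fin n)) := (hinc _ l1 c).1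
      (e ▸ memline ((hinc _ l1 a).2 (by simp)) ((hinc _ l1 b).2 (by simp)) r)
    simp only [Finset.mem_insert, Finset.mem_singleton] at this
    rcases this with h | h | h
    exacts [n3.1 h.symm, n6.1 h.symm, hcx h]
  · intro a b c d
    obtain ⟨S, h1, h2, ha, hb, hc, hd⟩ := h4 a b c d
    exact ⟨S, h1, ha, hb, hc, hd, hmax S (by simp [h1, h2])⟩

end H16.N3
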