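import Mathlib

set_option autoImplicit false

namespace Pool.Agent.H16.Ns

open Finset

theorem per3 (g : ℕ → ℕ) (h : ∀ i, g (i + 3) = g i) (k : ℕ) :
    ∑ i ∈ range (3 * k), g i = k * (g 0 + g 1 + g 2) := by
  have h3 : ∀ k r, g (3 * k + r) = g r := by
    intro k r
    induction k with
    | zero => simp
    | succ k ih => rw [show 3 * (k + 1) + r = 3 * k + r + 3 by ring, h, ih]
  induction k with
  | zero => simp
  | succ k ih =>
    rw [show 3 * (k + 1) = 3 * k + 1 + 1 + 1 by ring, sum_range_succ, sum_range_succ,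
      sum_range_succ, ih, show 3 * k + 1 + 1 = 3 * k + 2 by ring, h3 k 1, h3 k 2]
    have := h3 k 0
    rw [add_zero] at this
    rw [this]; ring

theorem closed_dvd {n m : ℕ} [NeZero n] (hn : n = 3 * m) (S : Finset (ZMod n))
    (hS : ∀ i ∈ S, i + 3 ∈ S) : m ∣ S.card := by
  have e : S.image (fun i => i + 3) = S :=
    eq_of_subset_of_card_le (fun j hj => by
      obtain ⟨i, hi, rfl⟩ := mem_image.1 hj; exact hS i hi)
      (by rw [card_image_of_injective _ (add_left_injective 3)])
  have h2 : ∀ i, i + 3 ∈ S ↔ i ∈ S := fun i => ⟨fun h => by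
    rw [← e] at h
    obtain ⟨j, hj, hh⟩ := mem_image.1 h
    rwa [← add_left_injective 3 hh], hS i⟩
  have c : S.card = ∑ i ∈ range n, if (i : ZMod n) ∈ S then 1 else 0 := by
    rw [← card_filter]
    symm
    refine card_bij (fun i _ => (i : ZMod n)) (fun i hi => (mem_filter.1 hi).2) ?_ ?_
    · intro i hi j hj hij
      have a := mem_range.1 (mem_filter.1 hi).1
      have b := mem_range.1 (mem_filter.1 hj).1
      have := congrArg ZMod.val hij
      rwa [ZMod.val_cast_of_lt a, ZMod.val_cast_of_lt b] at this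
    · intro j hj
      exact ⟨j.val, mem_filter.2 ⟨mem_range.2 (ZMod.val_lt j), by simpa using hj⟩, by simp⟩
  have := per3 (fun i => if (i : ZMod n) ∈ S then 1 else 0) (fun i => by
    simp only [Nat.cast_add, Nat.cast_ofNat, h2]) m
  rw [← hn, ← c] at this
  exact ⟨_, this⟩

theorem sh {n : ℕ} [NeZero n] (g : ZMod n → ℕ) (c : ZMod n) : ∑ i, g (i + c) = ∑ i, g i :=
  Equiv.sum_comp (Equiv.addRight c) g

theorem lower {n m : ℕ} [NeZero n] (hn : n = 3 * m) (h16 : 16 ≤ n) (x : ZMod n → ℕ)
    (hi : Function.Injective x) (hr : ∀ i, 1 ≤ x i ∧ x i ≤ n)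
    (hs : ∀ k, 1 ≤ k → k ≤ n → ∃ i, x i = k) (C : ℕ) (hC : 2 * C ≤ 3 * (n + 1) + 2) :
    ∃ i, C < x i + x (i + 1) + x (i + 2) := by
  by_contra hh
  push Not at hh
  have h30 : (3 : ZMod n) ≠ 0 := by
    intro h
    have : ((3 : ℕ) : ZMod n) = 0 := by simpa using h
    have := Nat.le_of_dvd (by omega) ((ZMod.natCast_eq_zero_iff _ _).1 this)
    omega
  have cardle : ∀ t, t ≤ n → (univ.filter fun i => x i ≤ t).card = t := by
    intro t ht
    rw [← card_image_of_injective _ hi]
    have : (univ.filter fun i => x i ≤ t).image x = Icc 1 t := by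
      ext k
      simp only [mem_image, mem_filter, mem_univ, true_and, mem_Icc]
      constructor
      · rintro ⟨i, h1, rfl⟩; exact ⟨(hr i).1, h1⟩
      · rintro ⟨h1, h2⟩
        obtain ⟨i, rfl⟩ := hs k h1 (by omega)
        exact ⟨i, h2, rfl⟩
    rw [this]; simp
  have sx : 2 * ∑ i, x i = n * (n + 1) := by
    have : ∑ i, x i = ∑ k ∈ range (n + 1), k := by
      rw [range_eq_Ico, sum_eq_sum_Ico_succ_bot (by omega), zero_add]
      refine sum_bij (fun i _ => x i) (fun i _ => by have := hr i; simp; omega)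
        (fun i _ j _ h => hi h) (fun k hk => ?_) (fun _ _ => rfl)
      obtain ⟨i, h⟩ := hs k (by simp at hk; omega) (by simp at hk; omega)
      exact ⟨i, mem_univ _, h⟩
    have h2 := sum_range_id_mul_two (n + 1)
    rw [this, mul_comm, h2]; simp [mul_comm]
  obtain ⟨e, he⟩ : ∃ e : ZMod n → ℕ, ∀ i, e i + (x i + x (i + 1) + x (i + 2)) = C :=
    ⟨fun i => C - (x i + x (i + 1) + x (i + 2)), fun i => Nat.sub_add_cancel (hh i)⟩
  have se : ∑ i, e i ≤ n := by
    have h1 : ∑ i, (e i + (x i + x (i + 1) + x (i + 2))) = n * C := by simp [he]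
    rw [sum_add_distrib, sum_add_distrib, sum_add_distrib, sh x 1, sh x 2] at h1
    nlinarith
  have hd : ∀ i, x (i + 3) + e (i + 1) = x i + e i := by
    intro i
    have h1 := he i
    have h2 := he (i + 1)
    rw [show i + 1 + 1 = i + 2 by ring, show i + 1 + 2 = i + 3 by ring] at h2
    omega
  have hne : ∀ i, e i ≠ e (i + 1) := by
    intro i h
    have := hd i
    exact h30 (by simpa using hi (show x (i + 3) = x i by omega))
  let b : ZMod n → ℕ := fun i => if e i ≠ 0 ∧ e (i + 1) ≠ 0 then 1 else 0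
  let Q : Finset (ZMod n) := univ.filter fun i => e (i + 1) = 0 ∧ e (i + 3) = 0
  let q : ZMod n → ℕ := fun i => if e (i + 1) = 0 ∧ e (i + 3) = 0 then 1 else 0
  have hq : ∑ i, q i = Q.card := (card_filter _ _).symm
  let up : ℕ → ℕ := fun t => (univ.filter fun i => x i ≤ t ∧ t < x (i + 3)).card
  have hU : ∑ t ∈ Ico 1 n, up t = ∑ i, (x (i + 3) - x i) := by
    simp only [up, card_filter]
    rw [sum_comm]
    refine sum_congr rfl fun i _ => ?_
    rw [← card_filter, ← Nat.card_Ico]
    congr 1
    ext t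
    have := hr i
    have := hr (i + 3)
    simp only [mem_filter, mem_Ico]
    omega
  have hB : ∑ i, (x (i + 3) - x i) + ∑ i, b i ≤ n := by
    rw [← sum_add_distrib]
    refine le_trans (sum_le_sum fun i _ => ?_) se
    have := hd i
    simp only [b]
    split_ifs <;> omega
  have hw : n ≤ 3 * ∑ i, b i + 2 * ∑ i, q i := by
    have : ∑ _i : ZMod n, 1 ≤ ∑ i, (b (i + 1) + b (i + 2) + b (i + 3) + q i + q (i + 1)) := by
      refine sum_le_sum fun i _ => ?_
      have a1 := hne (i + 1)
      have a2 := hne (i + 2)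
      have a3 := hne (i + 3)
      simp only [b, q, show i + 1 + 1 = i + 2 by ring, show i + 2 + 1 = i + 3 by ring,
        show i + 3 + 1 = i + 4 by ring, show i + 1 + 3 = i + 4 by ring] at a1 a2 a3 ⊢
      split_ifs <;> omega
    simp only [sum_add_distrib, sh b, sh q] at this
    simp only [sum_const, card_univ, ZMod.card, smul_eq_mul, mul_one] at this
    omega
  have u1 : ∀ t ∈ Ico 1 n, 1 ≤ up t + if m ∣ t then 1 else 0 := by
    intro t ht
    split_ifs with h
    · omega
    · by_contra h0
      have h1 : up t = 0 := by omega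
      refine h (cardle t (mem_Ico.1 ht).2.le ▸ closed_dvd hn _ fun i hi' => ?_)
      by_contra h2
      have : i ∈ univ.filter fun i => x i ≤ t ∧ t < x (i + 3) := by
        simp only [mem_filter, mem_univ, true_and] at hi' h2 ⊢
        omega
      rw [card_eq_zero.1 h1] at this
      simp at this
  have lm : ∀ j ∈ Q, x j < x (j + 3) ∧ x (j + 3 + 3) < x (j + 3) := by
    intro j hj
    have h1 := (mem_filter.1 hj).2
    have a1 := hd j
    have a2 := hd (j + 3)
    have a3 := hne j
    have a4 := hne (j + 3)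
    omega
  have u2 : ∀ t ∈ Ico 1 n, 1 + (if t ∈ Q.image (fun j => x (j + 3) - 1) then 1 else 0) ≤
      up t + (if m ∣ t then 1 else 0) + if m ∣ t + 1 then 1 else 0 := by
    intro t ht
    have := u1 t ht
    by_cases h : t ∈ Q.image (fun j => x (j + 3) - 1)
    · obtain ⟨j, hj, e1⟩ := mem_image.1 h
      obtain ⟨l1, l2⟩ := lm j hj
      have mj : j ∈ univ.filter fun i => x i ≤ t ∧ t < x (i + 3) := by
        simp only [mem_filter, mem_univ, true_and]; omega
      have p1 : 0 < up t := card_pos.2 ⟨j, mj⟩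
      rw [if_pos h]
      by_cases h2 : m ∣ t + 1
      · rw [if_pos h2]; omega
      · suffices 1 < up t by omega
        by_contra h0
        refine h2 (cardle (t + 1) (mem_Ico.1 ht).2 ▸ closed_dvd hn _ fun i hi' => ?_)
        by_contra h3
        simp only [mem_filter, mem_univ, true_and] at hi' h3
        have n1 : x i ≠ x (j + 3) := fun h => by rw [hi h] at h3; omega
        refine h0 (one_lt_card.2 ⟨i, ?_, j, mj, fun h => ?_⟩)
        · simp only [mem_filter, mem_univ, true_and]; omega
        · rw [h] at h3; omega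
    · rw [if_neg h]; omega
  have c1 : ∑ t ∈ Ico 1 n, (if m ∣ t then 1 else 0) ≤ 2 := by
    rw [← card_filter]
    refine le_trans (card_le_card (t := {m, 2 * m}) fun t ht => ?_) card_le_two
    obtain ⟨h1, k, rfl⟩ := mem_filter.1 ht
    have h2 := mem_Ico.1 h1
    have : k < 3 := by nlinarith
    interval_cases k <;> simp at h2 ⊢ <;> omega
  have c2 : ∑ t ∈ Ico 1 n, (if m ∣ t + 1 then 1 else 0) ≤ 3 := by
    rw [← card_filter]
    refine le_trans (card_le_card (t := {m - 1, 2 * m - 1, 3 * m - 1}) fun t ht => ?_) card_le_three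
    obtain ⟨h1, k, hk⟩ := mem_filter.1 ht
    have h2 := mem_Ico.1 h1
    have : k < 4 := by nlinarith
    simp only [mem_insert, mem_singleton]
    interval_cases k <;> omega
  have c3 : ∑ t ∈ Ico 1 n, (if t ∈ Q.image (fun j => x (j + 3) - 1) then 1 else 0) = Q.card := by
    rw [← card_filter, filter_mem_eq_inter, inter_eq_right.2, card_image_of_injOn]
    · intro i hi1 j hj1 h
      have := lm i hi1
      have := lm j hj1
      exact add_left_injective 3 (hi (by simp only at h ⊢; omega))
    · intro t ht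
      obtain ⟨j, hj, rfl⟩ := mem_image.1 ht
      have := lm j hj
      have := hr j
      have := hr (j + 3)
      simp only [mem_Ico]; omega
  have s1 := sum_le_sum u1
  have s2 := sum_le_sum u2
  simp only [sum_add_distrib, sum_const, Nat.card_Ico, smul_eq_mul, mul_one] at s1 s2
  omega

end Pool.Agent.H16.Ns
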