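import Pool.Agent.H16.Unital
import Pool.Agent.H16.Fiber

set_option autoImplicit false

namespace Pool.Agent.H16.PgMinus
open Finset
open scoped Matroid

def v : Fin 14 → Fin 10 → ZMod 2 :=
  ![![1, 1, 0, 1, 1, 0, 1, 0, 1, 0],
    ![1, 0, 1, 1, 0, 1, 1, 0, 0, 1],
    ![0, 1, 1, 1, 0, 0, 0, 1, 1, 1],
    ![0, 0, 0, 0, 1, 1, 1, 1, 1, 1],
    ![1, 0, 0, 0, 0, 0, 0, 0, 0, 0],
    ![0, 1, 0, 0, 0, 0, 0, 0, 0, 0],
    ![0, 0, 1, 0, 0, 0, 0, 0, 0, 0],
    ![0, 0, 0, 1, 0, 0, 0, 0, 0, 0],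
    ![0, 0, 0, 0, 1, 0, 0, 0, 0, 0],
    ![0, 0, 0, 0, 0, 1, 0, 0, 0, 0],
    ![0, 0, 0, 0, 0, 0, 1, 0, 0, 0],
    ![0, 0, 0, 0, 0, 0, 0, 1, 0, 0],
    ![0, 0, 0, 0, 0, 0, 0, 0, 1, 0],
    ![0, 0, 0, 0, 0, 0, 0, 0, 0, 1]]

def cw : Fin 16 → Finset (Fin 14) :=
  ![∅,
    {0, 4, 5, 7, 8, 10, 12},
    {1, 4, 6, 7, 9, 10, 13},
    {0, 1, 5, 6, 8, 9, 12, 13},
    {2, 5, 6, 7, 11, 12, 13},
    {0, 2, 4, 6, 8, 10, 11, 13},
    {1, 2, 4, 5, 9, 10, 11, 12},
    {0, 1, 2, 7, 8, 9, 11},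
    {3, 8, 9, 10, 11, 12, 13},
    {0, 3, 4, 5, 7, 9, 11, 13},
    {1, 3, 4, 6, 7, 8, 11, 12},
    {0, 1, 3, 5, 6, 10, 11},
    {2, 3, 5, 6, 7, 8, 9, 10},
    {0, 2, 3, 4, 6, 9, 12},
    {1, 2, 3, 4, 5, 8, 13},
    {0, 1, 2, 3, 7, 10, 12, 13}]

theorem cw_sum : ∀ d : Fin 16, ∀ j : Fin 10, ∑ i ∈ cw d, v i j = 0 := by decide +kernel

theorem pick : ∀ a b c d : ZMod 2, ∃ D : Fin 16, ∀ i : Fin 14, (if i ∈ cw D then 1 else 0 : ZMod 2) =
    ![a, b, c, d, a + b, a + c, b + c, a + b + c, a + d, b + d, a + b + d, c + d, a + c + d, b + c + d] i := by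
  decide +kernel

theorem ker_cw (x : Fin 14 → ZMod 2) (h : ∀ j, ∑ i, x i * v i j = 0) :
    ∃ D : Fin 16, ∀ i, x i = if i ∈ cw D then 1 else 0 := by
  obtain ⟨D, hD⟩ := pick (x 0) (x 1) (x 2) (x 3)
  refine ⟨D, fun i => ?_⟩
  rw [hD]
  have two : ∀ y : ZMod 2, y + y = 0 := by decide
  have h0 := h 0
  have h1 := h 1
  have h2 := h 2
  have h3 := h 3
  have h4 := h 4
  have h5 := h 5
  have h6 := h 6
  have h7 := h 7
  have h8 := h 8
  have h9 := h 9
  simp [Fin.sum_univ_succ, v] at h0 h1 h2 h3 h4 h5 h6 h7 h8 h9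
  fin_cases i
  · rfl
  · rfl
  · rfl
  · rfl
  · show x 4 = x 0 + x 1
    linear_combination h0 - two (x 0 + x 1)
  · show x 5 = x 0 + x 2
    linear_combination h1 - two (x 0 + x 2)
  · show x 6 = x 1 + x 2
    linear_combination h2 - two (x 1 + x 2)
  · show x 7 = x 0 + x 1 + x 2
    linear_combination h3 - two (x 0 + x 1 + x 2)
  · show x 8 = x 0 + x 3
    linear_combination h4 - two (x 0 + x 3)
  · show x 9 = x 1 + x 3
    linear_combination h5 - two (x 1 + x 3)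
  · show x 10 = x 0 + x 1 + x 3
    linear_combination h6 - two (x 0 + x 1 + x 3)
  · show x 11 = x 2 + x 3
    linear_combination h7 - two (x 2 + x 3)
  · show x 12 = x 0 + x 2 + x 3
    linear_combination h8 - two (x 0 + x 2 + x 3)
  · show x 13 = x 1 + x 2 + x 3
    linear_combination h9 - two (x 1 + x 2 + x 3)

noncomputable def M0 : Matroid (Fin 14) := Pool.Agent.S09362Aux.vm (ZMod 2) v

theorem M0_E : M0.E = Set.univ := Pool.Agent.S09362Aux.vm_E v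

theorem cw_ne : ∀ D : Fin 16, D ≠ 0 → (cw D).Nonempty := by decide +kernel

theorem indep_iff (I : Set (Fin 14)) : M0.Indep I ↔ ∀ D : Fin 16, D ≠ 0 → ¬ ((cw D : Set _) ⊆ I) := by
  classical
  rw [M0, Pool.Agent.S09362Aux.vm_indep, linearIndepOn_iff'']
  constructor
  · intro h D hD hs
    obtain ⟨i, hi⟩ := cw_ne D hD
    have := h (cw D) (fun i => if i ∈ cw D then 1 else 0) hs (fun i hi => if_neg hi) (by
      funext j
      rw [Finset.sum_apply, Pi.zero_apply, ← cw_sum D j]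
      exact sum_congr rfl fun i hi => by simp [hi]) i hi
    simp [hi] at this
  · intro h t g ht hg hs i hi
    obtain ⟨D, hD⟩ := ker_cw g (fun j => by
      have := congrFun hs j
      rw [Finset.sum_apply, Pi.zero_apply] at this
      rw [← this]
      symm
      refine (sum_subset (subset_univ t) fun i _ hi => by simp [hg i hi]).trans ?_
      rfl)
    by_cases h0 : D = 0
    · rw [hD, h0]; simp [cw]
    · refine absurd (fun e he => ht ?_) (h D h0)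
      by_contra hn
      have := hg e hn
      rw [hD, if_pos (by exact_mod_cast he)] at this
      exact absurd this (by decide)

theorem cw_anti : ∀ D D' : Fin 16, D ≠ 0 → D' ≠ 0 → cw D ⊆ cw D' → D = D' := by decide +kernel

theorem dep_iff (I : Set (Fin 14)) : M0.Dep I ↔ ∃ D : Fin 16, D ≠ 0 ∧ (cw D : Set _) ⊆ I := by
  rw [Matroid.dep_iff, indep_iff, M0_E]
  push Not
  simp

theorem circ_iff (C : Set (Fin 14)) : M0.IsCircuit C ↔ ∃ D : Fin 16, D ≠ 0 ∧ C = cw D := by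
  rw [Matroid.isCircuit_iff]
  constructor
  · rintro ⟨h1, h2⟩
    obtain ⟨D, hD, hs⟩ := (dep_iff C).1 h1
    exact ⟨D, hD, (h2 ((dep_iff _).2 ⟨D, hD, subset_rfl⟩) hs).symm⟩
  · rintro ⟨D, hD, rfl⟩
    refine ⟨(dep_iff _).2 ⟨D, hD, subset_rfl⟩, fun X hX hs => ?_⟩
    obtain ⟨D', hD', hs'⟩ := (dep_iff X).1 hX
    have := cw_anti D' D hD' hD (by exact_mod_cast hs'.trans hs)
    subst this
    exact hs.antisymm hs'

theorem cw_meet : ∀ D D' : Fin 16, D ≠ 0 → D' ≠ 0 → ¬ Disjoint (cw D) (cw D') := by decide +kernel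
theorem cw_both : ∀ e f : Fin 14, ∃ D : Fin 16, D ≠ 0 ∧ e ∈ cw D ∧ f ∈ cw D := by decide +kernel
theorem cw_sep : ∀ e f : Fin 14, ∃ D : Fin 16, D ≠ 0 ∧ e ∈ cw D ∧ (f ∈ cw D → f = e) := by
  decide +kernel
theorem cw_card : ∀ D : Fin 16, D ≠ 0 → 3 ≤ (cw D).card := by decide +kernel
theorem cw_inj : ∀ D D' : Fin 16, cw D = cw D' → D = D' := by decide +kernel

theorem no_small (e f : Fin 14) (K : Set (Fin 14)) (hK : M0.IsCocircuit K) (he : e ∈ K)
    (hs : K ⊆ {e, f}) : False := by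
  obtain ⟨D, hD, h1, h2⟩ := cw_sep e f
  refine ((circ_iff _).2 ⟨D, hD, rfl⟩).inter_isCocircuit_ne_singleton hK (e := e) ?_
  ext x
  simp only [Set.mem_inter_iff, mem_coe, Set.mem_singleton_iff]
  constructor
  · rintro ⟨a, b⟩
    rcases hs b with h | h
    · exact h
    · rw [Set.mem_singleton_iff.1 h] at a ⊢
      exact h2 a
  · rintro rfl
    exact ⟨h1, he⟩

theorem cosimple (K : Set (Fin 14)) (hK : M0.IsCocircuit K) : 3 ≤ K.ncard := by
  by_contra h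
  obtain ⟨e, he⟩ := hK.nonempty
  have h1 : (K \ {e}).ncard ≤ 1 := by
    have := Set.ncard_sdiff_singleton_add_one he (Set.toFinite K)
    omega
  rcases (Set.ncard_le_one_iff_eq (Set.toFinite _)).1 h1 with h2 | ⟨f, h2⟩
  · refine no_small e e K hK he fun x hx => ?_
    by_contra hn
    have : x ∈ K \ {e} := ⟨hx, fun h => hn (Or.inl h)⟩
    rw [h2] at this
    exact this
  · refine no_small e f K hK he fun x hx => ?_
    by_cases hx' : x = e
    · exact Or.inl hx'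
    · have : x ∈ K \ {e} := ⟨hx, hx'⟩
      rw [h2] at this
      exact Or.inr this

theorem cw_low : ∀ D : Fin 16, D ≠ 0 → ¬ cw D ⊆ ({4, 5, 6, 7, 8, 9, 10, 11, 12, 13} : Finset (Fin 14)) := by
  decide +kernel

theorem dual_le (I : Set (Fin 14)) (hI : M0✶.Indep I) : I.ncard ≤ 4 := by
  obtain ⟨-, B, hB, hd⟩ := Matroid.dual_indep_iff_exists'.1 hI
  have hJ : M0.Indep (({4, 5, 6, 7, 8, 9, 10, 11, 12, 13} : Finset (Fin 14)) : Set _) :=
    (indep_iff _).2 fun D hD hs => cw_low D hD (by exact_mod_cast hs)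
  obtain ⟨B', hB', hs⟩ := hJ.exists_isBase_superset
  have h1 := Set.ncard_le_ncard hs (Set.toFinite _)
  rw [Set.ncard_coe_finset] at h1
  have h2 : B.ncard = B'.ncard := hB.ncard_eq_ncard_of_isBase hB'
  have h3 := Set.ncard_union_eq hd (Set.toFinite _) (Set.toFinite _)
  have h4 := Set.ncard_le_ncard (Set.subset_univ (I ∪ B)) (Set.toFinite _)
  rw [Set.ncard_univ, Nat.card_eq_fintype_card, Fintype.card_fin] at h4
  have h5 : ({4, 5, 6, 7, 8, 9, 10, 11, 12, 13} : Finset (Fin 14)).card = 10 := by decide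
  omega

theorem del_le (e : Fin 14) (I : Set (Fin 14)) (hI : (M0 ＼ {e})✶.Indep I) : I.ncard ≤ 3 := by
  rw [Matroid.dual_delete] at hI
  have he : M0✶.IsNonloop e := by
    refine ⟨fun h => ?_, by simp [M0_E]⟩
    exact no_small e e {e} (Matroid.IsColoop.isCocircuit h) rfl (by simp)
  obtain ⟨h1, h2⟩ := he.contractElem_indep_iff.1 hI
  have := dual_le _ h2
  rw [Set.ncard_insert_of_notMem h1 (Set.toFinite _)] at this
  omega

theorem fourier : ∀ a b d : Fin 16, (cw a).card ≠ 7 → (cw b).card = 7 →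
    (16 * ((if d = a then 1 else 0) + (if d = b then 1 else 0)) : ℤ) =
      2 + ∑ e : Fin 14, (2 - 2 * (if e ∈ cw a then 1 else 0) - 2 * (if e ∈ cw b then 1 else 0)) *
        (1 - 2 * (if e ∈ cw d then 1 else 0)) := by
  decide +kernel

end Pool.Agent.H16.PgMinus
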