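import Pool.Agent.H16.Astral

namespace Pool.Agent.H16.Astral

open Set

/-- Rotation by the angle `θ` about the point `c`. -/
noncomputable def rot (c : ℝ × ℝ) (θ : ℝ) (p : ℝ × ℝ) : ℝ × ℝ :=
  (c.1 + Real.cos θ * (p.1 - c.1) - Real.sin θ * (p.2 - c.2),
    c.2 + Real.sin θ * (p.1 - c.1) + Real.cos θ * (p.2 - c.2))

/-- Polycyclic: the rotation by a full turn divided by m about some point maps points onto points
and lines onto lines, and all its orbits on points and on lines have exactly m elements. -/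
def IsPolycyclic {n : ℕ} {C : Config4 n} (R : Realization ℝ C) : Prop :=
  ∃ m : ℕ, 2 ≤ m ∧ ∃ c : ℝ × ℝ,
    rot c (2 * Real.pi / m) '' range R.pt = range R.pt ∧
    (fun s => rot c (2 * Real.pi / m) '' s) '' range R.ln = range R.ln ∧
    (∀ p, (range fun j : ℕ => (rot c (2 * Real.pi / m))^[j] (R.pt p)).ncard = m) ∧
    ∀ l, (range fun j : ℕ => (fun s => rot c (2 * Real.pi / m) '' s)^[j] (R.ln l)).ncard = m

end Pool.Agent.H16.Astral
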