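import Mathlib
import Pool.Agent.H16.TT

namespace Pool.Agent.H16.PosetSat

open Pool.Agent.H16.TT

/-- `F` is induced `P`-free: no induced copy of `P` (order embedding of `P`) lies inside `F`. -/
def Free (P : Type) {Q : Type} [PartialOrder P] [PartialOrder Q] (F : Finset Q) : Prop :=
  ¬ ∃ φ : P ↪o Q, ∀ x, φ x ∈ F

/-- `F` is induced `P`-saturated: it is induced `P`-free, and adding any new element creates an
induced copy of `P`. -/
def Saturated (P : Type) {Q : Type} [PartialOrder P] [PartialOrder Q] [DecidableEq Q]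
    (F : Finset Q) : Prop :=
  Free P F ∧ ∀ f, f ∉ F → ¬ Free P (insert f F)

/-- `sat⋆([t]^n, P)`: the least size of an induced `P`-saturated family in the hypergrid `[t]^n`
(functions `Fin n → Fin t` ordered coordinatewise). -/
noncomputable def satStar (P : Type) [PartialOrder P] (n t : ℕ) : ℕ :=
  sInf {m | ∃ F : Finset (Fin n → Fin t), Saturated P F ∧ F.card = m}

theorem exists_saturated (P Q : Type) [PartialOrder P] [PartialOrder Q] [DecidableEq Q]
    [Fintype Q] [Nonempty P] : ∃ F : Finset Q, Saturated P F := by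
  classical
  have h0 : Free P (∅ : Finset Q) := by
    rintro ⟨φ, h⟩
    exact absurd (h (Classical.arbitrary P)) (Finset.notMem_empty _)
  obtain ⟨F, hF, hmax⟩ := Finset.exists_max_image
    (Finset.univ.filter (fun F : Finset Q => Free P F)) Finset.card ⟨∅, by simpa using h0⟩
  refine ⟨F, (Finset.mem_filter.1 hF).2, fun f hf h => ?_⟩
  have := hmax (insert f F) (by simpa using h)
  rw [Finset.card_insert_of_notMem hf] at this
  omega

/-- all order-respecting assignments of the first `j` points into `cands` -/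
def emb (cands : List ℕ) (le rel : ℕ → ℕ → Bool) : ℕ → List (List (ℕ × ℕ))
  | 0 => [[]]
  | j + 1 => (emb cands le rel j).flatMap fun l =>
      (cands.filter fun v => l.all fun q =>
        (le q.2 v == rel q.1 j) && (le v q.2 == rel j q.1)).map fun v => (j, v) :: l

/-- graph of a function as a list -/
def lst (φ : ℕ → ℕ) : ℕ → List (ℕ × ℕ)
  | 0 => []
  | j + 1 => (j, φ j) :: lst φ j

theorem mem_lst (φ : ℕ → ℕ) (j : ℕ) (q : ℕ × ℕ) : q ∈ lst φ j ↔ ∃ i < j, q = (i, φ i) := by
  induction j with
  | zero => simp [lst]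
  | succ j ih =>
    simp only [lst, List.mem_cons, ih]
    constructor
    · rintro (h | ⟨i, hi, h⟩)
      · exact ⟨j, by omega, h⟩
      · exact ⟨i, by omega, h⟩
    · rintro ⟨i, hi, h⟩
      rcases Nat.lt_succ_iff_lt_or_eq.1 hi with h1 | rfl
      · exact Or.inr ⟨i, h1, h⟩
      · exact Or.inl h

theorem lst_congr (φ ψ : ℕ → ℕ) (j : ℕ) (h : ∀ i < j, φ i = ψ i) : lst φ j = lst ψ j := by
  induction j with
  | zero => rfl
  | succ j ih => simp only [lst]; rw [h j (by omega), ih (fun i hi => h i (by omega))]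

theorem emb_complete (cands : List ℕ) (le rel : ℕ → ℕ → Bool) (φ : ℕ → ℕ) (j : ℕ)
    (h1 : ∀ i < j, φ i ∈ cands) (h2 : ∀ i < j, ∀ i' < j, le (φ i) (φ i') = rel i i') :
    lst φ j ∈ emb cands le rel j := by
  induction j with
  | zero => simp [lst, emb]
  | succ j ih =>
    simp only [lst, emb, List.mem_flatMap, List.mem_map, List.mem_filter, List.all_eq_true]
    refine ⟨lst φ j, ih (fun i hi => h1 i (by omega))
      (fun i hi i' hi' => h2 i (by omega) i' (by omega)), φ j, ⟨h1 j (by omega), ?_⟩, rfl⟩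
    intro q hq
    obtain ⟨i, hi, rfl⟩ := (mem_lst _ _ _).1 hq
    simp [h2 i (by omega) j (by omega), h2 j (by omega) i (by omega)]

theorem emb_sound (cands : List ℕ) (le rel : ℕ → ℕ → Bool) (j : ℕ) (l : List (ℕ × ℕ))
    (h : l ∈ emb cands le rel j) : ∃ φ : ℕ → ℕ, l = lst φ j ∧ (∀ i < j, φ i ∈ cands) ∧
      ∀ i < j, ∀ i' < j, i ≠ i' → le (φ i) (φ i') = rel i i' := by
  induction j generalizing l with
  | zero =>
    simp only [emb, List.mem_singleton] at h
    exact ⟨id, h, by simp, by simp⟩
  | succ j ih =>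
    simp only [emb, List.mem_flatMap, List.mem_map, List.mem_filter, List.all_eq_true] at h
    obtain ⟨l', hl', v, ⟨hv, hall⟩, rfl⟩ := h
    obtain ⟨φ, rfl, h0, h2⟩ := ih l' hl'
    have hu : ∀ i < j, Function.update φ j v i = φ i := fun i hi =>
      Function.update_of_ne (by omega) _ _
    have hq : ∀ i < j, le (φ i) v = rel i j ∧ le v (φ i) = rel j i := by
      intro i hi
      have := hall (i, φ i) ((mem_lst _ _ _).2 ⟨i, hi, rfl⟩)
      simpa using this
    refine ⟨Function.update φ j v, ?_, ?_, ?_⟩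
    · simp only [lst, Function.update_self]
      rw [lst_congr _ _ _ hu]
    · intro i hi
      rcases Nat.lt_succ_iff_lt_or_eq.1 hi with h1 | rfl
      · rw [hu i h1]; exact h0 i h1
      · rw [Function.update_self]; exact hv
    · intro i hi i' hi' hne
      rcases Nat.lt_succ_iff_lt_or_eq.1 hi with h1 | rfl <;>
        rcases Nat.lt_succ_iff_lt_or_eq.1 hi' with h1' | rfl
      · rw [hu i h1, hu i' h1']; exact h2 i h1 i' h1' hne
      · rw [hu i h1, Function.update_self]; exact (hq i h1).1
      · rw [hu i' h1', Function.update_self]; exact (hq i' h1').2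
      · exact absurd rfl hne

section
variable {P Q : Type} [PartialOrder P] [PartialOrder Q] [DecidableEq Q] {N k : ℕ}
  (enc : Q ≃ Fin N) (pe : P ≃ Fin k) (le rel : ℕ → ℕ → Bool)
  (hle : ∀ x y : Q, le (enc x) (enc y) = true ↔ x ≤ y)
  (hrel : ∀ x y : P, rel (pe x) (pe y) = true ↔ x ≤ y)

include hle hrel

omit [DecidableEq Q] in
theorem notFree_complete (F : Finset Q) (h : ¬ Free P F) (cands : List ℕ)
    (hc : ∀ x ∈ F, (enc x).val ∈ cands) :
    ∃ l ∈ emb cands le rel k, ∀ q ∈ l, ∃ x ∈ F, (enc x).val = q.2 := by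
  unfold Free at h
  obtain ⟨φ, hφ⟩ := not_not.1 h
  let ψ : ℕ → ℕ := fun i => if h : i < k then (enc (φ (pe.symm ⟨i, h⟩))).val else 0
  refine ⟨lst ψ k, emb_complete _ _ _ _ _ ?_ ?_, ?_⟩
  · intro i hi
    simp only [ψ, dif_pos hi]
    exact hc _ (hφ _)
  · intro i hi i' hi'
    simp only [ψ, dif_pos hi, dif_pos hi']
    rw [Bool.eq_iff_iff, hle, φ.le_iff_le, ← hrel]
    simp
  · intro q hq
    obtain ⟨i, hi, rfl⟩ := (mem_lst _ _ _).1 hq
    exact ⟨φ (pe.symm ⟨i, hi⟩), hφ _, by simp only [ψ, dif_pos hi]⟩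

omit [DecidableEq Q] in
theorem notFree_sound (F : Finset Q) (cands : List ℕ) (l : List (ℕ × ℕ))
    (hl : l ∈ emb cands le rel k) (h : ∀ q ∈ l, ∃ x ∈ F, (enc x).val = q.2) : ¬ Free P F := by
  obtain ⟨φ, rfl, -, h2⟩ := emb_sound _ _ _ _ _ hl
  have h3 : ∀ a : P, ∃ x ∈ F, (enc x).val = φ (pe a) := fun a =>
    h ((pe a).val, φ (pe a)) ((mem_lst _ _ _).2 ⟨_, (pe a).2, rfl⟩)
  choose g hg1 hg2 using h3
  have h4 : ∀ a b : P, g a ≤ g b ↔ a ≤ b := by
    intro a b
    by_cases hab : a = b
    · subst hab; simp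
    · rw [← hle, hg2, hg2, h2 _ (pe a).2 _ (pe b).2
        (fun e => hab (pe.injective (Fin.ext e))), hrel]
  exact fun hF => hF ⟨OrderEmbedding.ofMapLEIff g h4, hg1⟩

/-- table of the families containing a copy after adding `v` -/
def badIns (N : ℕ) (E : List (List (ℕ × ℕ))) (v : ℕ) : ℕ :=
  orL (E.map fun l => andX N ((l.map Prod.snd).filter (fun i => i != v)))

/-- the check used for the lower bound -/
def lowerCheck (N m : ℕ) (E : List (List (ℕ × ℕ))) : Bool :=
  (andL N ((List.range N).map fun v => X N v ||| badIns N E v) |||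
      (badIns N E N ||| (geTab N m ((List.range N).map (X N))).getD m 0)) ==
    (badIns N E N ||| (geTab N m ((List.range N).map (X N))).getD m 0)

theorem lower (m : ℕ) (hchk : lowerCheck N m (emb (List.range N) le rel k) = true)
    (F : Finset Q) (hF : Saturated P F) : m ≤ F.card := by
  set E := emb (List.range N) le rel k with hE
  let s : ℕ := Nat.ofBits (fun i : Fin N => decide (enc.symm i ∈ F))
  have hs : s < 2 ^ N := Nat.ofBits_lt_two_pow _
  have hb : ∀ i (hi : i < N), s.testBit i = decide (enc.symm ⟨i, hi⟩ ∈ F) := fun i hi =>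
    Nat.testBit_ofBits_lt _ i hi
  have hb' : ∀ i, s.testBit i = true → ∃ x ∈ F, (enc x).val = i := by
    intro i hi
    by_cases h : i < N
    · rw [hb i h] at hi
      exact ⟨enc.symm ⟨i, h⟩, by simpa using hi, by simp⟩
    · rw [Nat.testBit_lt_two_pow
        (lt_of_lt_of_le hs (Nat.pow_le_pow_right (by norm_num) (by omega)))] at hi
      exact absurd hi (by simp)
  have h1 : (andL N ((List.range N).map fun v => X N v ||| badIns N E v)).testBit s = true := by
    rw [testBit_andL _ _ _ hs]
    intro a ha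
    obtain ⟨v, hv, rfl⟩ := List.mem_map.1 ha
    have hv' : v < N := List.mem_range.1 hv
    rw [Nat.testBit_or, testBit_X, hb v hv']
    by_cases hvF : enc.symm ⟨v, hv'⟩ ∈ F
    · simp [hs, hvF]
    · obtain ⟨l, hl, hq⟩ := notFree_complete enc pe le rel hle hrel _ (hF.2 _ hvF) (List.range N)
        (fun x _ => List.mem_range.2 (enc x).2)
      have : (badIns N E v).testBit s = true := by
        unfold badIns
        rw [testBit_orL]
        refine ⟨_, List.mem_map.2 ⟨l, hl, rfl⟩, ?_⟩
        rw [testBit_andX _ _ _ hs]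
        intro i hi
        simp only [List.mem_filter, List.mem_map, bne_iff_ne] at hi
        obtain ⟨⟨q, hq1, rfl⟩, hne⟩ := hi
        obtain ⟨x, hx, hx2⟩ := hq q hq1
        rcases Finset.mem_insert.1 hx with rfl | hx
        · exact absurd (by rw [← hx2]; simp) hne
        · rw [← hx2, hb _ (enc x).2]; simpa using hx
      simp [this]
  have h2 : (badIns N E N).testBit s = false := by
    rw [Bool.eq_false_iff]
    intro h
    unfold badIns at h
    rw [testBit_orL] at h
    obtain ⟨a, ha, h⟩ := h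
    obtain ⟨l, hl, rfl⟩ := List.mem_map.1 ha
    rw [testBit_andX _ _ _ hs] at h
    refine notFree_sound enc pe le rel hle hrel F _ l hl ?_ hF.1
    intro q hq
    apply hb'
    apply h
    simp only [List.mem_filter, List.mem_map, bne_iff_ne]
    refine ⟨⟨q, hq, rfl⟩, ?_⟩
    obtain ⟨φ, rfl, h0, -⟩ := emb_sound _ _ _ _ _ hl
    obtain ⟨i, hi, rfl⟩ := (mem_lst _ _ _).1 hq
    have := List.mem_range.1 (h0 i hi)
    simp only; omega
  unfold lowerCheck at hchk
  have h3 := congrArg (fun a => Nat.testBit a s) (eq_of_beq hchk)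
  simp only [Nat.testBit_or, h1, h2, Bool.true_or, Bool.false_or] at h3
  rw [testBit_geTab _ _ _ _ _ le_rfl hs] at h3
  have h4 : m ≤ ((List.range N).map (X N)).countP (fun b => b.testBit s) := by simpa using h3.symm
  refine h4.trans ?_
  rw [List.countP_map, List.countP_eq_length_filter,
    ← List.toFinset_card_of_nodup (List.nodup_range.filter _)]
  have : ((List.range N).filter ((fun b => b.testBit s) ∘ X N)).toFinset ⊆
      F.image (fun x => (enc x).val) := by
    intro i hi
    simp only [List.mem_toFinset, List.mem_filter, Function.comp, testBit_X, Bool.and_eq_true] at hi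
    obtain ⟨x, hx, h⟩ := hb' i hi.2.2
    exact Finset.mem_image.2 ⟨x, hx, h⟩
  exact (Finset.card_le_card this).trans Finset.card_image_le

/-- the check used for the upper bound -/
def upperCheck (N k : ℕ) (le rel : ℕ → ℕ → Bool) (L : List ℕ) : Bool :=
  (emb L le rel k).isEmpty && L.all (fun v => decide (v < N)) &&
    (List.range N).all fun v => L.contains v || !(emb (v :: L) le rel k).isEmpty

theorem upper [Fintype Q] (L : List ℕ) (hchk : upperCheck N k le rel L = true) :
    ∃ F : Finset Q, Saturated P F ∧ F.card ≤ L.length := by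
  simp only [upperCheck, Bool.and_eq_true, List.all_eq_true, List.isEmpty_iff, decide_eq_true_eq,
    Bool.or_eq_true, List.contains_iff_mem, List.mem_range, Bool.not_eq_true',
    List.isEmpty_eq_false_iff] at hchk
  obtain ⟨⟨h1, h2⟩, h3⟩ := hchk
  refine ⟨Finset.univ.filter (fun x => (enc x).val ∈ L), ⟨?_, ?_⟩, ?_⟩
  · by_contra h
    obtain ⟨l, hl, -⟩ := notFree_complete enc pe le rel hle hrel _ h L
      (fun x hx => (Finset.mem_filter.1 hx).2)
    rw [h1] at hl
    simp at hl
  · intro f hf
    have hf' : (enc f).val ∉ L := by simpa using hf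
    obtain ⟨l, hl⟩ := List.exists_mem_of_ne_nil _ ((h3 _ (enc f).2).resolve_left hf')
    refine notFree_sound enc pe le rel hle hrel _ _ l hl ?_
    intro q hq
    obtain ⟨φ, rfl, h0, -⟩ := emb_sound _ _ _ _ _ hl
    obtain ⟨i, hi, rfl⟩ := (mem_lst _ _ _).1 hq
    rcases List.mem_cons.1 (h0 i hi) with h | h
    · exact ⟨f, Finset.mem_insert_self _ _, h.symm⟩
    · refine ⟨enc.symm ⟨φ i, h2 _ h⟩, Finset.mem_insert_of_mem ?_, by simp⟩
      simpa using h
  · refine le_trans ?_ (List.toFinset_card_le L)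
    apply Finset.card_le_card_of_injOn (fun x => (enc x).val)
    · intro x hx
      simpa using hx
    · intro x _ y _ h
      exact enc.injective (Fin.ext h)

end

end Pool.Agent.H16.PosetSat
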