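import Mathlib

set_option autoImplicit false

namespace Pool.Agent.H16.PsEar
open Finset

def le3 (p q : ℕ × ℕ × ℕ) : Bool :=
  Nat.ble p.1 q.1 && Nat.ble p.2.1 q.2.1 && Nat.ble p.2.2 q.2.2

def go (x y z : ℕ × ℕ × ℕ) : List (ℕ × ℕ × ℕ) → ℕ
  | [] => 0
  | p :: t => cond (le3 p x || le3 p y || le3 p z) (go x y z t + 1) (go x y z t)

def L2 : List (ℕ × ℕ × ℕ) :=
  [(0, 0, 2), (0, 1, 1), (0, 2, 0), (1, 0, 1), (1, 1, 0), (2, 0, 0)]

def L3 : List (ℕ × ℕ × ℕ) :=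
  [(0, 0, 3), (0, 1, 2), (0, 2, 1), (0, 3, 0), (1, 0, 2), (1, 1, 1), (1, 2, 0), (2, 0, 1), (2, 1, 0), (3, 0, 0)]

def L4 : List (ℕ × ℕ × ℕ) :=
  [(0, 0, 4), (0, 1, 3), (0, 2, 2), (0, 3, 1), (0, 4, 0), (1, 0, 3), (1, 1, 2), (1, 2, 1), (1, 3, 0), (2, 0, 2), (2, 1, 1), (2, 2, 0), (3, 0, 1), (3, 1, 0), (4, 0, 0)]

def L5 : List (ℕ × ℕ × ℕ) :=
  [(0, 0, 5), (0, 1, 4), (0, 2, 3), (0, 3, 2), (0, 4, 1), (0, 5, 0), (1, 0, 4), (1, 1, 3), (1, 2, 2), (1, 3, 1), (1, 4, 0), (2, 0, 3), (2, 1, 2), (2, 2, 1), (2, 3, 0), (3, 0, 2), (3, 1, 1), (3, 2, 0), (4, 0, 1), (4, 1, 0), (5, 0, 0)]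

def L6 : List (ℕ × ℕ × ℕ) :=
  [(0, 0, 6), (0, 1, 5), (0, 2, 4), (0, 3, 3), (0, 4, 2), (0, 5, 1), (0, 6, 0), (1, 0, 5), (1, 1, 4), (1, 2, 3), (1, 3, 2), (1, 4, 1), (1, 5, 0), (2, 0, 4), (2, 1, 3), (2, 2, 2), (2, 3, 1), (2, 4, 0), (3, 0, 3), (3, 1, 2), (3, 2, 1), (3, 3, 0), (4, 0, 2), (4, 1, 1), (4, 2, 0), (5, 0, 1), (5, 1, 0), (6, 0, 0)]

def L7 : List (ℕ × ℕ × ℕ) :=
  [(0, 0, 7), (0, 1, 6), (0, 2, 5), (0, 3, 4), (0, 4, 3), (0, 5, 2), (0, 6, 1), (0, 7, 0), (1, 0, 6), (1, 1, 5), (1, 2, 4), (1, 3, 3), (1, 4, 2), (1, 5, 1), (1, 6, 0), (2, 0, 5), (2, 1, 4), (2, 2, 3), (2, 3, 2), (2, 4, 1), (2, 5, 0), (3, 0, 4), (3, 1, 3), (3, 2, 2), (3, 3, 1), (3, 4, 0), (4, 0, 3), (4, 1, 2), (4, 2, 1), (4, 3, 0), (5, 0, 2), (5, 1, 1), (5, 2, 0), (6, 0, 1), (6, 1, 0), (7, 0, 0)]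

theorem chk : (L7.all fun x => L7.all fun y => L7.all fun z =>
    !(Nat.beq (go x y z L3) 7 && Nat.beq (go x y z L2) 6 && Nat.beq (go x y z L4) 8 &&
      Nat.beq (go x y z L5) 7 && Nat.beq (go x y z L6) 5)) = true := by
  decide +kernel

theorem go_eq (x y z : ℕ × ℕ × ℕ) (L : List (ℕ × ℕ × ℕ)) (h : L.Nodup) :
    go x y z L = (L.toFinset.filter (fun p => (le3 p x || le3 p y || le3 p z) = true)).card := by
  induction L with
  | nil => simp [go]
  | cons p t ih =>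
    rw [List.nodup_cons] at h
    rw [List.toFinset_cons, filter_insert, go, ih h.2]
    cases e : (le3 p x || le3 p y || le3 p z)
    · simp
    · rw [if_pos rfl, card_insert_of_notMem (by simp [h.1])]
      simp

def Good (k : ℕ) (L : List (ℕ × ℕ × ℕ)) : Prop :=
  L.Nodup ∧ ∀ p : ℕ × ℕ × ℕ, p ∈ L ↔ p.1 + p.2.1 + p.2.2 = k

theorem good_of (k : ℕ) (L : List (ℕ × ℕ × ℕ)) (h1 : L.Nodup)
    (h2 : ∀ p ∈ L, p.1 + p.2.1 + p.2.2 = k)
    (h3 : ∀ a ∈ range (k + 1), ∀ b ∈ range (k + 1 - a), (a, b, k - a - b) ∈ L) : Good k L := by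
  refine ⟨h1, fun p => ⟨h2 p, fun h => ?_⟩⟩
  obtain ⟨a, b, c⟩ := p
  simp only at h
  have := h3 a (mem_range.2 (by omega)) b (mem_range.2 (by omega))
  have e : k - a - b = c := by omega
  rwa [e] at this

theorem good2 : Good 2 L2 :=
  good_of _ _ (by decide +kernel) (by decide +kernel) (by decide +kernel)

theorem good3 : Good 3 L3 :=
  good_of _ _ (by decide +kernel) (by decide +kernel) (by decide +kernel)

theorem good4 : Good 4 L4 :=
  good_of _ _ (by decide +kernel) (by decide +kernel) (by decide +kernel)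

theorem good5 : Good 5 L5 :=
  good_of _ _ (by decide +kernel) (by decide +kernel) (by decide +kernel)

theorem good6 : Good 6 L6 :=
  good_of _ _ (by decide +kernel) (by decide +kernel) (by decide +kernel)

theorem good7 : Good 7 L7 :=
  good_of _ _ (by decide +kernel) (by decide +kernel) (by decide +kernel)

def psi {r : ℕ} (i1 i2 i3 : Fin r) (a b c : ℕ) : Fin r → ℕ :=
  fun i => if i = i1 then a else if i = i2 then b else if i = i3 then c else 0

section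
variable {r : ℕ} {i1 i2 i3 : Fin r}

theorem psi1 (a b c : ℕ) : psi i1 i2 i3 a b c i1 = a := by simp [psi]
theorem psi2 (h12 : i1 ≠ i2) (a b c : ℕ) : psi i1 i2 i3 a b c i2 = b := by
  simp [psi, h12.symm]
theorem psi3 (h13 : i1 ≠ i3) (h23 : i2 ≠ i3) (a b c : ℕ) : psi i1 i2 i3 a b c i3 = c := by
  simp [psi, h13.symm, h23.symm]

theorem psi_sum (h12 : i1 ≠ i2) (h13 : i1 ≠ i3) (h23 : i2 ≠ i3) (a b c : ℕ) :
    ∑ i, psi i1 i2 i3 a b c i = a + b + c := by
  have h : ∀ i, psi i1 i2 i3 a b c i =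
      (if i = i1 then a else 0) + (if i = i2 then b else 0) + (if i = i3 then c else 0) := by
    intro i
    unfold psi
    by_cases e1 : i = i1
    · subst e1; simp [h12, h13]
    · by_cases e2 : i = i2
      · subst e2; simp [e1, h23]
      · simp [e1, e2]
  simp only [h, sum_add_distrib, sum_ite_eq', mem_univ, if_true]

theorem psi_le (h12 : i1 ≠ i2) (h13 : i1 ≠ i3) (h23 : i2 ≠ i3) (a b c a' b' c' : ℕ) :
    psi i1 i2 i3 a b c ≤ psi i1 i2 i3 a' b' c' ↔ a ≤ a' ∧ b ≤ b' ∧ c ≤ c' := by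
  constructor
  · intro h
    have h1 := h i1
    have h2 := h i2
    have h3 := h i3
    rw [psi1, psi1] at h1
    rw [psi2 h12, psi2 h12] at h2
    rw [psi3 h13 h23, psi3 h13 h23] at h3
    exact ⟨h1, h2, h3⟩
  · rintro ⟨h1, h2, h3⟩ i
    unfold psi
    split_ifs <;> simp [*]

end

theorem not_pure (r : ℕ) (M : Finset (Fin r → ℕ))
    (hd : ∀ μ ∈ M, ∀ ν : Fin r → ℕ, ν ≤ μ → ν ∈ M)
    (hp : ∀ μ ∈ M, ∀ ν ∈ M, (∀ κ ∈ M, μ ≤ κ → κ = μ) → (∀ κ ∈ M, ν ≤ κ → κ = ν) →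
        ∑ i, μ i = ∑ i, ν i)
    (h1 : (M.filter (fun μ => ∑ i, μ i = 1)).card = 3)
    (h2 : (M.filter (fun μ => ∑ i, μ i = 2)).card = 6)
    (h3 : (M.filter (fun μ => ∑ i, μ i = 3)).card = 7)
    (h4 : (M.filter (fun μ => ∑ i, μ i = 4)).card = 8)
    (h5 : (M.filter (fun μ => ∑ i, μ i = 5)).card = 7)
    (h6 : (M.filter (fun μ => ∑ i, μ i = 6)).card = 5)
    (h7 : (M.filter (fun μ => ∑ i, μ i = 7)).card = 3)
    (h8 : ∀ μ ∈ M, ∑ i, μ i ≤ 7) : False := by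
  classical
  -- elements of largest degree above a given one are maximal
  have hmax : ∀ μ ∈ M, (∀ κ ∈ M, μ ≤ κ → ∑ i, κ i ≤ ∑ i, μ i) → ∀ κ ∈ M, μ ≤ κ → κ = μ := by
    intro μ _ h κ hκ hle
    have hs := h κ hκ hle
    funext i
    have := (Finset.sum_eq_sum_iff_of_le (s := univ) (f := μ) (g := κ) (fun i _ => hle i)).1
      (le_antisymm (sum_le_sum fun i _ => hle i) hs) i (mem_univ i)
    exact this.symm
  obtain ⟨m1, m2, m3, -, -, -, hS⟩ := card_eq_three.1 h7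
  have hm : ∀ x, (x = m1 ∨ x = m2 ∨ x = m3) ↔ (x ∈ M ∧ ∑ i, x i = 7) := by
    intro x
    have : x ∈ M.filter (fun μ => ∑ i, μ i = 7) ↔ x ∈ ({m1, m2, m3} : Finset _) := by rw [hS]
    simpa using this.symm
  have hm1 := (hm m1).1 (Or.inl rfl)
  have hm2 := (hm m2).1 (Or.inr (Or.inl rfl))
  have hm3 := (hm m3).1 (Or.inr (Or.inr rfl))
  have hM : ∀ x, x ∈ M ↔ (x ≤ m1 ∨ x ≤ m2 ∨ x ≤ m3) := by
    intro x
    constructor
    · intro hx
      obtain ⟨κ, hκ, hκm⟩ := exists_max_image (M.filter (fun y => x ≤ y)) (fun y => ∑ i, y i)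
        ⟨x, by simp [hx]⟩
      rw [mem_filter] at hκ
      have e := hp κ hκ.1 m1 hm1.1
        (hmax κ hκ.1 (fun y hy hle => hκm y (mem_filter.2 ⟨hy, hκ.2.trans hle⟩)))
        (hmax m1 hm1.1 (fun y hy _ => by rw [hm1.2]; exact h8 y hy))
      rw [hm1.2] at e
      rcases (hm κ).2 ⟨hκ.1, e⟩ with e | e | e <;> subst e <;> simp [hκ.2]
    · rintro (h | h | h)
      · exact hd _ hm1.1 _ h
      · exact hd _ hm2.1 _ h
      · exact hd _ hm3.1 _ h
  -- the three variables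
  have hT : (univ.filter (fun i : Fin r => (Pi.single i 1 : Fin r → ℕ) ∈ M)).card = 3 := by
    rw [← h1]
    apply card_bij (fun i _ => (Pi.single i 1 : Fin r → ℕ))
    · intro i hi
      rw [mem_filter] at hi ⊢
      exact ⟨hi.2, by simp⟩
    · intro i _ j _ e
      by_contra hne
      have := congrFun e i
      simp [hne] at this
    · intro x hx
      rw [mem_filter] at hx
      have : ∃ i, x i ≠ 0 := by
        by_contra hc
        push Not at hc
        have := hx.2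
        simp [hc] at this
      obtain ⟨i, hi⟩ := this
      have hle : (Pi.single i 1 : Fin r → ℕ) ≤ x := by
        intro j
        by_cases e : j = i
        · subst e; simp; omega
        · simp [e]
      have : x = Pi.single i 1 := by
        funext j
        exact ((Finset.sum_eq_sum_iff_of_le (s := univ) (f := (Pi.single i 1 : Fin r → ℕ)) (g := x)
          (fun j _ => hle j)).1 (by rw [hx.2]; simp) j (mem_univ j)).symm
      exact ⟨i, mem_filter.2 ⟨mem_univ _, this ▸ hx.1⟩, this.symm⟩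
  obtain ⟨i1, i2, i3, h12, h13, h23, hT3⟩ := card_eq_three.1 hT
  have hrep : ∀ x ∈ M, x = psi i1 i2 i3 (x i1) (x i2) (x i3) := by
    intro x hx
    funext i
    unfold psi
    split_ifs with e1 e2 e3
    · rw [e1]
    · rw [e2]
    · rw [e3]
    · by_contra hne
      have hle : (Pi.single i 1 : Fin r → ℕ) ≤ x := by
        intro j
        by_cases e : j = i
        · subst e; simp; omega
        · simp [e]
      have : i ∈ ({i1, i2, i3} : Finset _) := by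
        rw [← hT3]; exact mem_filter.2 ⟨mem_univ _, hd x hx _ hle⟩
      simp [e1, e2, e3] at this
  have hsum : ∀ x ∈ M, ∑ i, x i = x i1 + x i2 + x i3 := by
    intro x hx
    conv_lhs => rw [hrep x hx]
    exact psi_sum h12 h13 h23 _ _ _
  have s1 := hsum m1 hm1.1
  have s2 := hsum m2 hm2.1
  have s3 := hsum m3 hm3.1
  rw [hm1.2] at s1
  rw [hm2.2] at s2
  rw [hm3.2] at s3
  have hcnt : ∀ k L, Good k L → go (m1 i1, m1 i2, m1 i3) (m2 i1, m2 i2, m2 i3) (m3 i1, m3 i2, m3 i3) L =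
      (M.filter (fun μ => ∑ i, μ i = k)).card := by
    intro k L hL
    rw [go_eq _ _ _ _ hL.1]
    apply card_bij (fun p _ => psi i1 i2 i3 p.1 p.2.1 p.2.2)
    · intro p hp'
      rw [mem_filter, List.mem_toFinset, hL.2] at hp'
      rw [mem_filter]
      refine ⟨?_, by rw [psi_sum h12 h13 h23]; exact hp'.1⟩
      rw [hM, hrep m1 hm1.1, hrep m2 hm2.1, hrep m3 hm3.1]
      simp only [psi_le h12 h13 h23]
      have := hp'.2
      simp only [le3, Bool.or_eq_true, Bool.and_eq_true, Nat.ble_eq] at this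
      omega
    · intro p _ q _ e
      have e1 := congrFun e i1
      have e2 := congrFun e i2
      have e3 := congrFun e i3
      rw [psi1, psi1] at e1
      rw [psi2 h12, psi2 h12] at e2
      rw [psi3 h13 h23, psi3 h13 h23] at e3
      exact Prod.ext e1 (Prod.ext e2 e3)
    · intro x hx
      rw [mem_filter] at hx
      have sx := hsum x hx.1
      rw [hx.2] at sx
      have hle := (hM x).1 hx.1
      refine ⟨(x i1, x i2, x i3), ?_, (hrep x hx.1).symm⟩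
      rw [mem_filter, List.mem_toFinset, hL.2]
      refine ⟨sx.symm, ?_⟩
      simp only [le3, Bool.or_eq_true, Bool.and_eq_true, Nat.ble_eq]
      rcases hle with h | h | h
      · exact Or.inl (Or.inl ⟨⟨h i1, h i2⟩, h i3⟩)
      · exact Or.inl (Or.inr ⟨⟨h i1, h i2⟩, h i3⟩)
      · exact Or.inr ⟨⟨h i1, h i2⟩, h i3⟩
  have c := chk
  simp only [List.all_eq_true] at c
  have c' := c (m1 i1, m1 i2, m1 i3) ((good7.2 _).2 s1.symm) (m2 i1, m2 i2, m2 i3)
    ((good7.2 _).2 s2.symm) (m3 i1, m3 i2, m3 i3) ((good7.2 _).2 s3.symm)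
  rw [hcnt _ _ good2, hcnt _ _ good3, hcnt _ _ good4, hcnt _ _ good5, hcnt _ _ good6,
    h2, h3, h4, h5, h6] at c'
  exact absurd c' (by decide)

end Pool.Agent.H16.PsEar
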