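import Mathlib

set_option autoImplicit false

namespace Pool.Agent.H16.PsEar2
open Finset

def A : ℕ → Finset (Fin 10) := fun j => if j = 0 then ∅ else if j = 1 then {9} else {8, 9}
def P : ℕ → Finset (Finset (Fin 10)) := fun j =>
  if j = 0 then {{0, 1, 2, 3, 4, 5}, {6, 7, 8}}
  else if j = 1 then {{0, 1, 6, 7}, {2, 3, 4, 5}} else {{0, 1, 2, 4, 5, 6}}
def E : ℕ → Finset (Finset (Fin 10)) := fun j =>
  (A j ∪ (P j).sup id).powerset.filter (fun F => ∀ B ∈ P j, ¬ B ⊆ F)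

theorem sub_iff (F U : Finset (Fin 10)) : F ⊆ U ↔ ∀ i ∈ Uᶜ, i ∉ F := by
  constructor
  · intro h i hi hF
    exact (mem_compl.1 hi) (h hF)
  · intro h i hF
    by_contra hi
    exact h i (mem_compl.2 hi) hF

theorem E0 (F : Finset (Fin 10)) : F ∈ E 0 ↔ (9 ∉ F ∧
    ¬ (0 ∈ F ∧ 1 ∈ F ∧ 2 ∈ F ∧ 3 ∈ F ∧ 4 ∈ F ∧ 5 ∈ F) ∧ ¬ (6 ∈ F ∧ 7 ∈ F ∧ 8 ∈ F)) := by
  have h : (A 0 ∪ (P 0).sup id)ᶜ = {9} := by decide +kernel
  rw [E, mem_filter, mem_powerset, sub_iff, h]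
  simp [P, insert_subset_iff]

theorem E1 (F : Finset (Fin 10)) : F ∈ E 1 ↔ (8 ∉ F ∧
    ¬ (0 ∈ F ∧ 1 ∈ F ∧ 6 ∈ F ∧ 7 ∈ F) ∧ ¬ (2 ∈ F ∧ 3 ∈ F ∧ 4 ∈ F ∧ 5 ∈ F)) := by
  have h : (A 1 ∪ (P 1).sup id)ᶜ = {8} := by decide +kernel
  rw [E, mem_filter, mem_powerset, sub_iff, h]
  simp [P, insert_subset_iff]

theorem E2 (F : Finset (Fin 10)) : F ∈ E 2 ↔ ((3 ∉ F ∧ 7 ∉ F) ∧
    ¬ (0 ∈ F ∧ 1 ∈ F ∧ 2 ∈ F ∧ 4 ∈ F ∧ 5 ∈ F ∧ 6 ∈ F)) := by
  have h : (A 2 ∪ (P 2).sup id)ᶜ = {3, 7} := by decide +kernel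
  rw [E, mem_filter, mem_powerset, sub_iff, h]
  simp [P, insert_subset_iff]

theorem int1 : ((range 1).biUnion E) ∩ E 1 = (E 1).filter (fun F => ¬ A 1 ⊆ F) := by
  ext F
  have hA : A 1 = {9} := rfl
  simp only [mem_inter, mem_filter, range_one, singleton_biUnion, E0, E1, hA, singleton_subset_iff]
  tauto

theorem int2 : ((range 2).biUnion E) ∩ E 2 = (E 2).filter (fun F => ¬ A 2 ⊆ F) := by
  ext F
  have hA : A 2 = {8, 9} := rfl
  have hr : range 2 = {0, 1} := rfl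
  simp only [mem_inter, mem_filter, hr, biUnion_insert, mem_union, singleton_biUnion, E0, E1, E2, hA,
    insert_subset_iff, singleton_subset_iff]
  tauto

def toF (m : ℕ) : Finset (Fin 10) := univ.filter (fun i => m.testBit i = true)

theorem mem_toF (m : ℕ) (i : Fin 10) : i ∈ toF m ↔ m.testBit i = true := by simp [toF]

theorem toF_inj : Set.InjOn toF (range 1024 : Finset ℕ) := by
  intro a ha b hb e
  have ha' : a < 2 ^ 10 := by simpa using ha
  have hb' : b < 2 ^ 10 := by simpa using hb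
  apply Nat.eq_of_testBit_eq
  intro i
  by_cases hi : i < 10
  · have := (mem_toF a ⟨i, hi⟩).symm.trans (e ▸ mem_toF b ⟨i, hi⟩)
    simpa using this
  · have h2 : 2 ^ 10 ≤ 2 ^ i := Nat.pow_le_pow_right (by norm_num) (by omega)
    rw [Nat.testBit_lt_two_pow (ha'.trans_le h2), Nat.testBit_lt_two_pow (hb'.trans_le h2)]

theorem toF_img : (range 1024).image toF = univ := by
  apply eq_univ_of_card
  rw [card_image_of_injOn toF_inj]
  simp

def pc (m : ℕ) : ℕ :=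
  (m.testBit 0).toNat + (m.testBit 1).toNat + (m.testBit 2).toNat + (m.testBit 3).toNat +
  (m.testBit 4).toNat + (m.testBit 5).toNat + (m.testBit 6).toNat + (m.testBit 7).toNat +
  (m.testBit 8).toNat + (m.testBit 9).toNat

theorem card_toF (m : ℕ) : (toF m).card = pc m := by
  have h : ∀ b : Bool, (if b = true then 1 else 0 : ℕ) = b.toNat := by decide
  rw [toF, card_filter]
  simp only [h, Fin.sum_univ_succ, pc]
  simp
  ring

def inD (m : ℕ) : Bool :=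
  (!m.testBit 9 && !(m.testBit 0 && m.testBit 1 && m.testBit 2 && m.testBit 3 && m.testBit 4 &&
      m.testBit 5) && !(m.testBit 6 && m.testBit 7 && m.testBit 8)) ||
  (!m.testBit 8 && !(m.testBit 0 && m.testBit 1 && m.testBit 6 && m.testBit 7) &&
      !(m.testBit 2 && m.testBit 3 && m.testBit 4 && m.testBit 5)) ||
  (!m.testBit 3 && !m.testBit 7 && !(m.testBit 0 && m.testBit 1 && m.testBit 2 && m.testBit 4 &&
      m.testBit 5 && m.testBit 6))

theorem mem_D (m : ℕ) : toF m ∈ (range (2 + 1)).biUnion E ↔ inD m = true := by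
  have hr : range (2 + 1) = {0, 1, 2} := rfl
  simp only [hr, biUnion_insert, mem_union, singleton_biUnion, E0, E1, E2, mem_toF, inD]
  have v0 : ((0 : Fin 10) : ℕ) = 0 := rfl
  have v1 : ((1 : Fin 10) : ℕ) = 1 := rfl
  have v2 : ((2 : Fin 10) : ℕ) = 2 := rfl
  have v3 : ((3 : Fin 10) : ℕ) = 3 := rfl
  have v4 : ((4 : Fin 10) : ℕ) = 4 := rfl
  have v5 : ((5 : Fin 10) : ℕ) = 5 := rfl
  have v6 : ((6 : Fin 10) : ℕ) = 6 := rfl
  have v7 : ((7 : Fin 10) : ℕ) = 7 := rfl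
  have v8 : ((8 : Fin 10) : ℕ) = 8 := rfl
  have v9 : ((9 : Fin 10) : ℕ) = 9 := rfl
  rw [v0, v1, v2, v3, v4, v5, v6, v7, v8, v9]
  generalize m.testBit 0 = b0
  generalize m.testBit 1 = b1
  generalize m.testBit 2 = b2
  generalize m.testBit 3 = b3
  generalize m.testBit 4 = b4
  generalize m.testBit 5 = b5
  generalize m.testBit 6 = b6
  generalize m.testBit 7 = b7
  generalize m.testBit 8 = b8
  generalize m.testBit 9 = b9
  simp only [Bool.or_eq_true, Bool.and_eq_true, Bool.not_eq_true', ← Bool.not_eq_true, and_assoc,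
    or_assoc]

theorem cnt : ∀ i ∈ range 8, ((range 1024).filter (fun m => (inD m && Nat.beq (pc m) i) = true)).card =
    [1, 10, 45, 117, 191, 199, 126, 40].getD i 0 := by
  decide +kernel

theorem fvec (i : ℕ) (hi : i ∈ range 8) :
    (((range (2 + 1)).biUnion E).filter (fun F => F.card = i)).card =
      [1, 10, 45, 117, 191, 199, 126, 40].getD i 0 := by
  rw [← cnt i hi]
  symm
  apply card_bij (fun m _ => toF m)
  · intro m hm
    rw [mem_filter] at hm ⊢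
    rw [mem_D, card_toF]
    simpa using hm.2
  · intro a ha b hb e
    exact toF_inj (by simpa using (mem_filter.1 ha).1) (by simpa using (mem_filter.1 hb).1) e
  · intro F hF
    have : F ∈ (range 1024).image toF := by rw [toF_img]; exact mem_univ _
    obtain ⟨m, hm, rfl⟩ := mem_image.1 this
    rw [mem_filter, mem_D, card_toF] at hF
    exact ⟨m, mem_filter.2 ⟨hm, by simpa using hF⟩, rfl⟩

theorem shape : ∀ j ∈ range 3, (∀ B ∈ P j, 2 ≤ B.card ∧ Disjoint (A j) B) ∧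
    (∀ B ∈ P j, ∀ C ∈ P j, B ≠ C → Disjoint B C) ∧
    (A j).card + ∑ B ∈ P j, (B.card - 1) = 7 := by
  decide +kernel

end Pool.Agent.H16.PsEar2
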