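import Mathlib

set_option autoImplicit false

namespace Pool.Agent.H16.QAp

def p0 (n t : ℚ) : ℚ :=
    - 96*n^5*t + 80*n^4*t^2 - 288*n^4*t + 16*n^3*t^3 + 128*n^3*t^2 - 288*n^3*t - 24*n^2*t^4 +
    80*n^2*t^3 + 16*n^2*t^2 - 96*n^2*t + 2*n*t^5 - 32*n*t^4 + 72*n*t^3 - 32*n*t^2 + t^6 - 2*t^5 -
    4*t^4 + 8*t^3

def p1 (n t : ℚ) : ℚ :=
    288*n^5 - 192*n^4*t + 848*n^4 - 16*n^3*t^2 - 464*n^3*t + 944*n^3 + 16*n^2*t^3 - 16*n^2*t^2 -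
    416*n^2*t + 504*n^2 + 2*n*t^4 + 20*n*t^3 - 4*n*t^2 - 158*n*t + 130*n - t^4 + 12*t^3 - 9*t^2 -
    18*t + 13

def p2 (n t : ℚ) : ℚ :=
    48*n^3 - 16*n^2*t + 104*n^2 - 4*n*t^2 - 22*n*t + 74*n - t^2 - 10*t + 17

def p3 (n t : ℚ) : ℚ :=
    2*n + 1 + 0*t

def x0 (n t : ℚ) : ℚ :=
    - 8*n^3*t^3 + 4*n^2*t^4 - 16*n^2*t^3 + 2*n*t^5 - 8*n*t^3 - t^6 + 4*t^5 - 4*t^4

def x1 (n t : ℚ) : ℚ :=
    24*n^3*t^2 - 24*n^3*t + 8*n^3 - 8*n^2*t^3 + 48*n^2*t^2 - 40*n^2*t + 12*n^2 - 2*n*t^4 - 4*n*t^3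
    + 28*n*t^2 - 22*n*t + 6*n - t^4 + 5*t^2 - 4*t + 1

def x2 (n t : ℚ) : ℚ :=
    8*n^3 + 8*n^2*t + 12*n^2 + 4*n*t^2 + 2*n*t - 2*n + 5*t^2 - 4*t - 11

def x3 (n t : ℚ) : ℚ :=
    - 2*n - 3 + 0*t

def y0 (n t : ℚ) : ℚ :=
    - 8*n^3*t^3 + 4*n^2*t^4 - 16*n^2*t^3 + 2*n*t^5 - 8*n*t^3 - t^6 + 4*t^5 - 4*t^4

def y1 (n t : ℚ) : ℚ :=
    - 24*n^3*t^3 + 96*n^3*t^2 - 96*n^3*t + 32*n^3 + 12*n^2*t^4 - 80*n^2*t^3 + 192*n^2*t^2 -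
    160*n^2*t + 48*n^2 + 6*n*t^5 - 8*n*t^4 - 40*n*t^3 + 112*n*t^2 - 88*n*t + 24*n - 3*t^6 + 12*t^5
    - 16*t^4 + 20*t^2 - 16*t + 4

def y2 (n t : ℚ) : ℚ :=
    24*n^3*t^2 - 72*n^3*t + 64*n^3 - 8*n^2*t^3 + 48*n^2*t^2 - 80*n^2*t + 64*n^2 - 2*n*t^4 -
    12*n*t^3 + 56*n*t^2 - 40*n*t - 8*n + 5*t^4 - 16*t^3 + 16*t^2 - 12

def y3 (n t : ℚ) : ℚ :=
    8*n^3 + 8*n^2*t + 4*n^2 + 4*n*t^2 + 6*n*t - 8*n - t^2 + 4*t - 4

def y4 (n t : ℚ) : ℚ :=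
    - 2*n - 1 + 0*t

def dt (n t : ℚ) : ℚ := x1 n t * y2 n t - x2 n t * y1 n t
def n1 (n t : ℚ) : ℚ := p1 n t * y2 n t - p2 n t * y1 n t
def n3 (n t : ℚ) : ℚ := x1 n t * p2 n t - x2 n t * p1 n t
def r0 (n t : ℚ) : ℚ := dt n t * p0 n t - n1 n t * x0 n t - n3 n t * y0 n t
def r3 (n t : ℚ) : ℚ := dt n t * p3 n t - n1 n t * x3 n t - n3 n t * y3 n t
def r4 (n t : ℚ) : ℚ := - (n3 n t * y4 n t)

theorem dt2 (a b : ℚ) (ha : 0 ≤ a) (hb : 0 ≤ b) : 0 < dt ((a + 2 + b) / 2) (a + 2) := by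
  have h : dt ((a + 2 + b) / 2) (a + 2) =
    a^8 * (16*b^2 + 32*b + 12) +
    a^7 * (56*b^3 + 358*b^2 + 544*b + 202) +
    a^6 * (73*b^4 + 857*b^3 + 3136*b^2 + 3961*b + 1450) +
    a^5 * (42*b^5 + 813*b^4 + 5269*b^3 + 14399*b^2 + 15937*b + 5722) +
    a^4 * (9*b^6 + 321*b^5 + 3516*b^4 + 16838*b^3 + 38245*b^2 + 38361*b + 13442) +
    a^3 * (39*b^6 + 893*b^5 + 7518*b^4 + 30128*b^3 + 60419*b^2 + 56231*b + 19156) +
    a^2 * (60*b^6 + 1143*b^5 + 8389*b^4 + 30215*b^3 + 55727*b^2 + 49010*b + 16192) +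
    a^1 * (39*b^6 + 685*b^5 + 4689*b^4 + 15867*b^3 + 27668*b^2 + 23300*b + 7456) +
    (10*b^6 + 166*b^5 + 1078*b^4 + 3466*b^3 + 5752*b^2 + 4648*b + 1440) := by
    simp only [dt, x1, x2, y1, y2]
    ring
  rw [h]
  positivity

theorem r02 (a b : ℚ) (ha : 0 ≤ a) (hb : 0 ≤ b) : 0 ≤ r0 ((a + 2 + b) / 2) (a + 2) := by
  have h : r0 ((a + 2 + b) / 2) (a + 2) =
    a^9 * (128*b^6 + 704*b^5 + 1408*b^4 + 1472*b^3 + 1408*b^2 + 1280*b + 512) +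
    a^8 * (448*b^7 + 4824*b^6 + 17904*b^5 + 31224*b^4 + 32832*b^3 + 32160*b^2 + 27008*b + 9984) +
    a^7 * (616*b^8 + 10340*b^7 + 63612*b^6 + 186284*b^5 + 296220*b^4 + 316064*b^3 + 311984*b^2 + 243456*b
    + 83712) +
    a^6 * (416*b^9 + 10086*b^8 + 92492*b^7 + 420398*b^6 + 1048272*b^5 + 1568776*b^4 + 1708000*b^3 +
    1684480*b^2 + 1230592*b + 396032) +
    a^5 * (138*b^10 + 4865*b^9 + 63991*b^8 + 423709*b^7 + 1577703*b^6 + 3509730*b^5 + 5068704*b^4 +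
    5665720*b^3 + 5572784*b^2 + 3844352*b + 1165056) +
    a^4 * (18*b^11 + 1086*b^10 + 21251*b^9 + 202177*b^8 + 1082709*b^7 + 3498085*b^6 + 7181870*b^5 +
    10251820*b^4 + 11886840*b^3 + 11707008*b^2 + 7697792*b + 2210304) +
    a^3 * (81*b^11 + 2975*b^10 + 43347*b^9 + 335935*b^8 + 1549232*b^7 + 4514626*b^6 + 8820164*b^5 +
    12818664*b^4 + 15695984*b^3 + 15612544*b^2 + 9880320*b + 2704384) +
    a^2 * (117*b^11 + 3413*b^10 + 41701*b^9 + 281023*b^8 + 1162426*b^7 + 3155344*b^6 + 6095200*b^5 +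
    9444464*b^4 + 12557856*b^3 + 12756096*b^2 + 7841280*b + 2058240) +
    a^1 * (60*b^11 + 1544*b^10 + 16840*b^9 + 102552*b^8 + 391372*b^7 + 1027056*b^6 + 2098368*b^5 +
    3737152*b^4 + 5565248*b^3 + 5813760*b^2 + 3494912*b + 884736) +
    (12*b^11 + 276*b^10 + 2692*b^9 + 14716*b^8 + 51584*b^7 + 134336*b^6 + 310656*b^5 + 657216*b^4 +
    1073408*b^3 + 1135616*b^2 + 667648*b + 163840) := by
    simp only [dt, n1, n3, r0, p0, p1, p2, x0, x1, x2, y0, y1, y2]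
    ring
  rw [h]
  positivity

theorem r42 (a b : ℚ) (ha : 0 ≤ a) (hb : 0 ≤ b) : 0 ≤ - r4 ((a + 2 + b) / 2) (a + 2) := by
  have h : - r4 ((a + 2 + b) / 2) (a + 2) =
    a^7 * (48*b^2 + 96*b + 36) +
    a^6 * (280*b^3 + 1570*b^2 + 2196*b + 714) +
    a^5 * (691*b^4 + 6373*b^3 + 19294*b^2 + 20873*b + 5980) +
    a^4 * (933*b^5 + 12011*b^4 + 57132*b^3 + 121166*b^2 + 107066*b + 27346) +
    a^3 * (742*b^6 + 12318*b^5 + 80494*b^4 + 260647*b^3 + 428259*b^2 + 319347*b + 73220) +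
    a^2 * (346*b^7 + 7084*b^6 + 59250*b^5 + 260350*b^4 + 639937*b^3 + 857423*b^2 + 549986*b + 113184) +
    a^1 * (87*b^8 + 2141*b^7 + 21994*b^6 + 122862*b^5 + 405483*b^4 + 799413*b^3 + 897748*b^2 + 499084*b +
    90976) +
    (9*b^9 + 263*b^8 + 3240*b^7 + 22134*b^6 + 92233*b^5 + 241635*b^4 + 393130*b^3 + 373876*b^2 +
    178648*b + 27552) := by
    simp only [n3, r4, p1, p2, x1, x2, y4]
    ring
  rw [h]
  positivity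

theorem r32 (a b : ℚ) (ha : 0 ≤ a) (hb : 0 ≤ b) : 0 ≤ r3 ((a + 2 + b) / 2) (a + 2) + r4 ((a + 2 + b) / 2) (a + 2) * (a + 2) ^ 2 := by
  have h : r3 ((a + 2 + b) / 2) (a + 2) + r4 ((a + 2 + b) / 2) (a + 2) * (a + 2) ^ 2 =
    a^9 * (208*b^2 + 416*b + 156) +
    a^8 * (1448*b^3 + 7966*b^2 + 11100*b + 3646) +
    a^7 * (4397*b^4 + 39931*b^3 + 119094*b^2 + 128355*b + 37464) +
    a^6 * (7623*b^5 + 97239*b^4 + 456924*b^3 + 958222*b^2 + 845394*b + 221742) +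
    a^5 * (8289*b^6 + 137135*b^5 + 890586*b^4 + 2861329*b^3 + 4672076*b^2 + 3494883*b + 830680) +
    a^4 * (5843*b^7 + 119591*b^6 + 1000000*b^5 + 4389978*b^4 + 10779640*b^3 + 14466640*b^2 + 9391356*b +
    2033736) +
    a^3 * (2663*b^8 + 65361*b^7 + 673516*b^6 + 3785416*b^5 + 12592369*b^4 + 25077310*b^3 + 28587490*b^2 +
    16359664*b + 3234784) +
    a^2 * (757*b^9 + 21781*b^8 + 268358*b^7 + 1851800*b^6 + 7847599*b^5 + 21024775*b^4 + 35201962*b^3 +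
    34818456*b^2 + 17739616*b + 3196448) +
    a^1 * (123*b^10 + 4069*b^9 + 58518*b^8 + 480742*b^7 + 2489991*b^6 + 8454417*b^5 + 18920128*b^4 +
    27246944*b^3 + 23695744*b^2 + 10797104*b + 1758400) +
    (9*b^11 + 335*b^10 + 5488*b^9 + 52190*b^8 + 319417*b^7 + 1316315*b^6 + 3707750*b^5 + 7084728*b^4
    + 8894248*b^3 + 6844368*b^2 + 2783488*b + 401664) := by
    simp only [dt, n1, n3, r3, r4, p1, p2, p3, x1, x2, x3, y1, y2, y3, y4]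
    ring
  rw [h]
  positivity

theorem dt1 (b : ℚ) (hb : 0 ≤ b) : 0 < dt (b + 1) 1 := by
  have h : dt (b + 1) 1 =
    (64*b^6 + 512*b^5 + 1616*b^4 + 2560*b^3 + 2124*b^2 + 864*b + 135) := by
    simp only [dt, x1, x2, y1, y2]
    ring
  rw [h]
  positivity

theorem r01 (b : ℚ) (hb : 0 ≤ b) : 0 ≤ r0 (b + 1) 1 := by
  have h : r0 (b + 1) 1 =
    (12288*b^11 + 188416*b^10 + 1289216*b^9 + 5191680*b^8 + 13657344*b^7 + 24611328*b^6 +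
    30954048*b^5 + 27121280*b^4 + 16187968*b^3 + 6253056*b^2 + 1403136*b + 138240) := by
    simp only [dt, n1, n3, r0, p0, p1, p2, x0, x1, x2, y0, y1, y2]
    ring
  rw [h]
  positivity

def PP (n k j : ℚ) : ℚ :=
  (n + 1) * ((n + 1 + k) * (n + k) * (n + 1 - j) ^ 2 * (n - j) ^ 2 +
    (n + 1 + j) * (n + j) * (n + 1 - k) ^ 2 * (n - k) ^ 2) -
  2 * n * (n + k) * (n + j) * (n + 1 - k) ^ 2 * (n + 1 - j) ^ 2

def DD (e : ℕ) (n k j : ℚ) : ℚ :=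
  j ^ 3 * (n + 1 - k) ^ 2 * (n + k) * (j - k - 1) ^ e - k ^ 3 * (n + 1 - j) ^ 2 * (n + j) * (j - k + 1) ^ e

theorem PP_eq (n k j : ℚ) : 32 * PP n k j = p0 n (k + j) + (j - k) ^ 2 * (p1 n (k + j) +
    ((j - k) ^ 2 - 1) * (p2 n (k + j) + ((j - k) ^ 2 - 4) * p3 n (k + j))) := by
  simp only [PP, p0, p1, p2, p3]
  ring

theorem D1_eq (n k j : ℚ) : 32 * DD 1 n k j = x0 n (k + j) + (j - k) ^ 2 * (x1 n (k + j) +
    ((j - k) ^ 2 - 1) * (x2 n (k + j) + ((j - k) ^ 2 - 4) * x3 n (k + j))) := by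
  simp only [DD, x0, x1, x2, x3]
  ring

theorem D3_eq (n k j : ℚ) : 32 * DD 3 n k j = y0 n (k + j) + (j - k) ^ 2 * (y1 n (k + j) +
    ((j - k) ^ 2 - 1) * (y2 n (k + j) + ((j - k) ^ 2 - 4) * (y3 n (k + j) +
      y4 n (k + j) * (j - k) ^ 2))) := by
  simp only [DD, y0, y1, y2, y3, y4]
  ring

theorem cert (n k j : ℚ) :
    32 * (dt n (k + j) * PP n k j - n1 n (k + j) * DD 1 n k j - n3 n (k + j) * DD 3 n k j) =
      r0 n (k + j) + (j - k) ^ 2 * ((j - k) ^ 2 - 1) * ((j - k) ^ 2 - 4) *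
        (r3 n (k + j) + r4 n (k + j) * (j - k) ^ 2) := by
  have h1 := PP_eq n k j
  have h2 := D1_eq n k j
  have h3 := D3_eq n k j
  simp only [r0, r3, r4]
  generalize (j - k) ^ 2 = w at *
  generalize k + j = t at *
  have e1 : dt n t * p1 n t - n1 n t * x1 n t - n3 n t * y1 n t = 0 := by
    simp only [dt, n1, n3]; ring
  have e2 : dt n t * p2 n t - n1 n t * x2 n t - n3 n t * y2 n t = 0 := by
    simp only [dt, n1, n3]; ring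
  linear_combination dt n t * h1 - n1 n t * h2 - n3 n t * h3 + w * e1 + w * (w - 1) * e2

end Pool.Agent.H16.QAp
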