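import Mathlib

namespace Pool.Agent.H16.Rigid

open Set

abbrev V3 := Fin 3 → ℝ

/-- The real projective plane. -/
abbrev PP := Projectivization ℝ V3

/-- A line of the real projective plane. -/
def IsPLine (s : Set PP) : Prop := ∃ c : V3, c ≠ 0 ∧ s = {x | c ⬝ᵥ x.rep = 0}

/-- A geometric realization of an incidence structure, with exactly the prescribed incidences. -/
structure PReal {n : ℕ} (inc : Fin n → Fin n → Prop) where
  pt : Fin n → PP
  ln : Fin n → Set PP
  pt_inj : Function.Injective pt
  ln_inj : Function.Injective ln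
  isLine : ∀ l, IsPLine (ln l)
  mem_iff : ∀ p l, pt p ∈ ln l ↔ inc p l

/-- The projective transformation induced by an invertible linear map. -/
noncomputable def act (g : V3 ≃ₗ[ℝ] V3) : PP → PP := Projectivization.map g.toLinearMap g.injective

def ProjEquiv {n : ℕ} {inc : Fin n → Fin n → Prop} (R R' : PReal inc) : Prop :=
  ∃ g : V3 ≃ₗ[ℝ] V3, (∀ i, act g (R.pt i) = R'.pt i) ∧ ∀ j, act g '' R.ln j = R'.ln j

end Pool.Agent.H16.Rigid
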