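import Pool.Agent.H16.Rigid

namespace Pool.Agent.H16.Rigid

open Set

def dt (u v : V3) : ℝ := u 0 * v 0 + u 1 * v 1 + u 2 * v 2

theorem dt_eq (u v : V3) : u ⬝ᵥ v = dt u v := by simp [dt, dotProduct, Fin.sum_univ_three]

theorem dt_comm (u v : V3) : dt u v = dt v u := by simp only [dt]; ring

def Par3 (u : V3) (a b c : ℝ) : Prop := ∃ k : ℝ, k ≠ 0 ∧ u 0 = k * a ∧ u 1 = k * b ∧ u 2 = k * c

def NP (x y : V3) : Prop :=
  ¬ (x 1 * y 2 - x 2 * y 1 = 0 ∧ x 2 * y 0 - x 0 * y 2 = 0 ∧ x 0 * y 1 - x 1 * y 0 = 0)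

theorem vne {u : V3} (h : u ≠ 0) : ¬ (u 0 = 0 ∧ u 1 = 0 ∧ u 2 = 0) := by
  rintro ⟨a, b, c⟩; apply h; funext i; fin_cases i <;> simpa

theorem par_of {u : V3} (hu : u ≠ 0) {a b c : ℝ} (hn : ¬ (a = 0 ∧ b = 0 ∧ c = 0))
    (e0 : u 1 * c = u 2 * b) (e1 : u 2 * a = u 0 * c) (e2 : u 0 * b = u 1 * a) : Par3 u a b c := by
  have key : ∀ k : ℝ, u 0 = k * a → u 1 = k * b → u 2 = k * c → Par3 u a b c := by
    intro k x y z
    refine ⟨k, ?_, x, y, z⟩
    rintro rfl
    exact vne hu ⟨by simpa using x, by simpa using y, by simpa using z⟩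
  by_cases ha : a = 0
  · by_cases hb : b = 0
    · have hc : c ≠ 0 := fun h => hn ⟨ha, hb, h⟩
      apply key (u 2 / c) <;> field_simp <;> linarith
    · apply key (u 1 / b) <;> field_simp <;> linarith
  · apply key (u 0 / a) <;> field_simp <;> linarith

theorem Par3.dz {x u : V3} {a b c : ℝ} (h : Par3 x a b c) (e : dt x u = 0) :
    a * u 0 + b * u 1 + c * u 2 = 0 := by
  obtain ⟨k, hk, x0, x1, x2⟩ := h
  simp only [dt, x0, x1, x2] at e
  apply mul_left_cancel₀ hk; linarith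

theorem Par3.dn {x u : V3} {a b c : ℝ} (h : Par3 x a b c) (e : dt x u ≠ 0) :
    a * u 0 + b * u 1 + c * u 2 ≠ 0 := by
  obtain ⟨k, hk, x0, x1, x2⟩ := h
  intro f; apply e
  simp only [dt, x0, x1, x2]; linear_combination k * f

theorem Par3.dz2 {x y : V3} {a b c a' b' c' : ℝ} (h : Par3 x a b c) (h' : Par3 y a' b' c')
    (e : dt x y = 0) : a * a' + b * b' + c * c' = 0 := by
  have := h'.dz (by rw [dt_comm]; exact e)
  obtain ⟨k, hk, x0, x1, x2⟩ := h
  rw [x0, x1, x2] at this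
  apply mul_left_cancel₀ hk; linarith

theorem Par3.dn2 {x y : V3} {a b c a' b' c' : ℝ} (h : Par3 x a b c) (h' : Par3 y a' b' c')
    (e : dt x y ≠ 0) : a * a' + b * b' + c * c' ≠ 0 := by
  have := h'.dn (by rw [dt_comm]; exact e)
  obtain ⟨k, hk, x0, x1, x2⟩ := h
  rw [x0, x1, x2] at this
  intro f; apply this; linear_combination k * f

theorem Par3.sc {x : V3} {a b c a' b' c' : ℝ} (h : Par3 x a b c) (m : ℝ) (hm : m ≠ 0)
    (e0 : a = m * a') (e1 : b = m * b') (e2 : c = m * c') : Par3 x a' b' c' := by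
  obtain ⟨k, hk, x0, x1, x2⟩ := h
  exact ⟨k * m, mul_ne_zero hk hm, by rw [x0, e0]; ring, by rw [x1, e1]; ring, by rw [x2, e2]; ring⟩

theorem step {u x y : V3} {a0 a1 a2 b0 b1 b2 w0 w1 w2 : ℝ} (k : ℝ) (hx : Par3 x a0 a1 a2)
    (hy : Par3 y b0 b1 b2) (ux : dt x u = 0) (uy : dt y u = 0) (u0 : u ≠ 0) (n : NP x y)
    (e0 : a1 * b2 - a2 * b1 = k * w0) (e1 : a2 * b0 - a0 * b2 = k * w1)
    (e2 : a0 * b1 - a1 * b0 = k * w2) : Par3 u w0 w1 w2 := by
  have A := hx.dz ux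
  have B := hy.dz uy
  have hn : ¬ (k * w0 = 0 ∧ k * w1 = 0 ∧ k * w2 = 0) := by
    rintro ⟨f0, f1, f2⟩
    obtain ⟨i, _, x0, x1, x2⟩ := hx
    obtain ⟨j, _, y0, y1, y2⟩ := hy
    apply n
    rw [x0, x1, x2, y0, y1, y2]
    refine ⟨?_, ?_, ?_⟩
    · linear_combination i * j * e0 + i * j * f0
    · linear_combination i * j * e1 + i * j * f1
    · linear_combination i * j * e2 + i * j * f2
  have hk : k ≠ 0 := by rintro rfl; simp at hn
  refine (par_of u0 hn ?_ ?_ ?_).sc k hk rfl rfl rfl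
  · rw [← e1, ← e2]; linear_combination a0 * B - b0 * A
  · rw [← e0, ← e2]; linear_combination a1 * B - b1 * A
  · rw [← e0, ← e1]; linear_combination a2 * B - b2 * A

theorem np_of {x y z : V3} (hx : x ≠ 0) (a : dt x z = 0) (b : dt y z ≠ 0) : NP x y := by
  rintro ⟨e0, e1, e2⟩
  simp only [dt] at a b
  apply vne hx
  refine ⟨mul_right_cancel₀ b ?_, mul_right_cancel₀ b ?_, mul_right_cancel₀ b ?_⟩
  · linear_combination y 0 * a + z 1 * e2 - z 2 * e1
  · linear_combination y 1 * a + z 2 * e0 - z 0 * e2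
  · linear_combination y 2 * a + z 0 * e1 - z 1 * e0

def VP : Fin 21 → ℤ × ℤ × ℤ := ![(-1,-1,0), (-1,-2,2), (1,0,2), (-3,1,-5), (0,-4,5), (-3,-7,5), (1,1,-1), (0,0,1), (1,1,1), (-1,0,-1), (1,2,-1), (3,2,-1), (3,4,1), (1,-1,1), (-1,-3,1), (3,-2,4), (0,5,-4), (3,8,-4), (1,0,0), (0,1,0), (-1,-2,0)]

def VL : Fin 21 → ℤ × ℤ × ℤ := ![(-1,0,0), (-2,1,2), (0,-1,-2), (1,0,1), (0,0,1), (-1,0,1), (-4,1,-1), (2,1,-1), (-1,1,0), (-3,2,1), (-1,2,1), (5,-5,-4), (2,-1,-1), (0,-1,-1), (-7,4,5), (4,-4,-5), (1,-4,-5), (2,-1,0), (0,1,0), (8,-5,-4), (-2,5,4)]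

def incZ (i j : Fin 21) : Prop :=
  (VP i).1 * (VL j).1 + (VP i).2.1 * (VL j).2.1 + (VP i).2.2 * (VL j).2.2 = 0

instance : ∀ i j, Decidable (incZ i j) := fun i j => by unfold incZ; infer_instance

theorem sepP : ∀ i j : Fin 21, i ≠ j → ∃ l, incZ i l ∧ ¬ incZ j l := by decide +kernel
theorem sepL : ∀ i j : Fin 21, i ≠ j → ∃ l, incZ l i ∧ ¬ incZ l j := by decide +kernel

structure Hyp (p c : Fin 21 → V3) : Prop where
  p0 : ∀ i, p i ≠ 0
  c0 : ∀ j, c j ≠ 0
  iff : ∀ i j, dt (p i) (c j) = 0 ↔ incZ i j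

theorem Hyp.i {p c} (H : Hyp p c) (i j) (h : incZ i j) : dt (p i) (c j) = 0 := (H.iff i j).2 h
theorem Hyp.i' {p c} (H : Hyp p c) (i j) (h : incZ i j) : dt (c j) (p i) = 0 := by
  rw [dt_comm]; exact H.i i j h
theorem Hyp.n {p c} (H : Hyp p c) (i j) (h : ¬ incZ i j) : dt (p i) (c j) ≠ 0 :=
  fun e => h ((H.iff i j).1 e)
theorem Hyp.n' {p c} (H : Hyp p c) (i j) (h : ¬ incZ i j) : dt (c j) (p i) ≠ 0 := by
  rw [dt_comm]; exact H.n i j h
theorem Hyp.np {p c} (H : Hyp p c) (i j) (h : i ≠ j) : NP (p i) (p j) := by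
  obtain ⟨l, a, b⟩ := sepP i j h
  exact np_of (H.p0 i) (H.i i l a) (H.n j l b)
theorem Hyp.nc {p c} (H : Hyp p c) (i j) (h : i ≠ j) : NP (c i) (c j) := by
  obtain ⟨l, a, b⟩ := sepL i j h
  exact np_of (H.c0 i) (H.i' l i a) (H.n' l j b)

theorem core {p c : Fin 21 → V3} (H : Hyp p c) (h18 : Par3 (p 18) 1 0 0) (h19 : Par3 (p 19) 0 1 0)
    (h7 : Par3 (p 7) 0 0 1) (h8 : Par3 (p 8) 1 1 1) :
    (∀ i, Par3 (p i) (VP i).1 (VP i).2.1 (VP i).2.2) ∧
      ∀ j, Par3 (c j) (VL j).1 (VL j).2.1 (VL j).2.2 := by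
  have h21 : Par3 (c 0) ((-1)) 0 0 := step (1) h7 h19 (H.i 7 0 (by decide)) (H.i 19 0 (by decide)) (H.c0 _) (H.np 7 19 (by decide)) (by ring) (by ring) (by ring)
  have h25 : Par3 (c 4) 0 0 (1) := step (1) h18 h19 (H.i 18 4 (by decide)) (H.i 19 4 (by decide)) (H.c0 _) (H.np 18 19 (by decide)) (by ring) (by ring) (by ring)
  have h26 : Par3 (c 5) ((-1)) 0 (1) := step (1) h8 h19 (H.i 8 5 (by decide)) (H.i 19 5 (by decide)) (H.c0 _) (H.np 8 19 (by decide)) (by ring) (by ring) (by ring)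
  have h29 : Par3 (c 8) ((-1)) (1) 0 := step (1) h7 h8 (H.i 7 8 (by decide)) (H.i 8 8 (by decide)) (H.c0 _) (H.np 7 8 (by decide)) (by ring) (by ring) (by ring)
  have h0 : Par3 (p 0) ((-1)) ((-1)) 0 := step (1) h25 h29 (H.i' 0 4 (by decide)) (H.i' 0 8 (by decide)) (H.p0 _) (H.nc 4 8 (by decide)) (by ring) (by ring) (by ring)
  have h39 : Par3 (c 18) 0 (1) 0 := step (1) h7 h18 (H.i 7 18 (by decide)) (H.i 18 18 (by decide)) (H.c0 _) (H.np 7 18 (by decide)) (by ring) (by ring) (by ring)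
  have h9 : Par3 (p 9) ((-1)) 0 ((-1)) := step (1) h26 h39 (H.i' 9 5 (by decide)) (H.i' 9 18 (by decide)) (H.p0 _) (H.nc 5 18 (by decide)) (by ring) (by ring) (by ring)
  obtain ⟨s, h20⟩ : ∃ s : ℝ, Par3 (p 20) (s + (-1)) (-1) 0 := by
    have a := h25.dz (H.i' 20 4 (by decide))
    have b := h39.dn (H.n' 20 18 (by decide))
    have b' : p 20 1 ≠ 0 := by intro e; apply b; rw [e]; ring
    exact ⟨1 - p 20 0 / p 20 1, -p 20 1, neg_ne_zero.2 b', by field_simp; ring, by ring, by linarith⟩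
  have h22 : Par3 (c 1) ((-1)) ((-1*s) + 1) (1) := step (1) h9 h20 (H.i 9 1 (by decide)) (H.i 20 1 (by decide)) (H.c0 _) (H.np 9 20 (by decide)) (by ring) (by ring) (by ring)
  have h33 : Par3 (c 12) (1) (s + (-1)) ((-1*s)) := step (1) h8 h20 (H.i 8 12 (by decide)) (H.i 20 12 (by decide)) (H.c0 _) (H.np 8 20 (by decide)) (by ring) (by ring) (by ring)
  have h2 : Par3 (p 2) (s) 0 (1) := step (1) h33 h39 (H.i' 2 12 (by decide)) (H.i' 2 18 (by decide)) (H.p0 _) (H.nc 12 18 (by decide)) (by ring) (by ring) (by ring)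
  have h38 : Par3 (c 17) (1) (s + (-1)) 0 := step (1) h7 h20 (H.i 7 17 (by decide)) (H.i 20 17 (by decide)) (H.c0 _) (H.np 7 20 (by decide)) (by ring) (by ring) (by ring)
  have hs1 : s - 1 ≠ 0 := by
    have b := h19.dn2 h22 (H.n 19 1 (by decide))
    intro e; apply b; linarith
  obtain ⟨t, h31⟩ : ∃ t : ℝ, Par3 (c 10) ((-1*t) + (-1)) ((-1*s) + 1) (t + 1) := by
    have a := h9.dz (H.i 9 10 (by decide))
    have b := h19.dn (H.n 19 10 (by decide))
    have b' : c 10 1 ≠ 0 := by intro e; apply b; rw [e]; ring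
    have e1 : (1 - s) ≠ 0 := by intro e; apply hs1; linarith
    refine ⟨c 10 2 * (1 - s) / c 10 1 - 1, c 10 1 / (1 - s), div_ne_zero b' e1, ?_, ?_, ?_⟩
    · field_simp; linear_combination (-(1 - s)) * a
    · field_simp; ring
    · field_simp; ring
  have h6 : Par3 (p 6) (t + 1) (t + 1) (s + t) := step (1) h29 h31 (H.i' 6 8 (by decide)) (H.i' 6 10 (by decide)) (H.p0 _) (H.nc 8 10 (by decide)) (by ring) (by ring) (by ring)
  have h24 : Par3 (c 3) ((-1*s) + (-1*t)) 0 (t + 1) := step (1) h6 h19 (H.i 6 3 (by decide)) (H.i 19 3 (by decide)) (H.c0 _) (H.np 6 19 (by decide)) (by ring) (by ring) (by ring)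
  have h34 : Par3 (c 13) 0 (s + t) ((-1*t) + (-1)) := step (1) h6 h18 (H.i 6 13 (by decide)) (H.i 18 13 (by decide)) (H.c0 _) (H.np 6 18 (by decide)) (by ring) (by ring) (by ring)
  have h13 : Par3 (p 13) ((-1*s) + (-1*t)) ((-1*t) + (-1)) ((-1*s) + (-1*t)) := step (1) h26 h34 (H.i' 13 5 (by decide)) (H.i' 13 13 (by decide)) (H.p0 _) (H.nc 5 13 (by decide)) (by ring) (by ring) (by ring)
  have h1 : Par3 (p 1) (s*t + s + (-1*t) + (-1)) ((-1*t) + (-1)) ((-1*s) + (-1*t)) := step (1) h34 h38 (H.i' 1 13 (by decide)) (H.i' 1 17 (by decide)) (H.p0 _) (H.nc 13 17 (by decide)) (by ring) (by ring) (by ring)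
  have h10 : Par3 (p 10) ((-1*s*t) + (-1*s) + t + 1) (t + 1) ((-1*s^2) + (-1*s*t) + s + t) := step (1) h24 h38 (H.i' 10 3 (by decide)) (H.i' 10 17 (by decide)) (H.p0 _) (H.nc 3 17 (by decide)) (by ring) (by ring) (by ring)
  have h14 : Par3 (p 14) ((-1*t) + (-1)) ((-1*s) + (-1*t) + (-1)) ((-1*s) + (-1*t)) := step (s + (-1)) h24 h33 (H.i' 14 3 (by decide)) (H.i' 14 12 (by decide)) (H.p0 _) (H.nc 3 12 (by decide)) (by ring) (by ring) (by ring)
  have h23 : Par3 (c 2) 0 ((-1*s^2) + (-1*s*t) + s + t) ((-1*t) + (-1)) := step (1) h10 h18 (H.i 10 2 (by decide)) (H.i 18 2 (by decide)) (H.c0 _) (H.np 10 18 (by decide)) (by ring) (by ring) (by ring)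
  have h28 : Par3 (c 7) (t + 1) (s^2 + s*t + (-1*s) + (-1*t)) ((-1*s*t) + (-1*s)) := step (1) h2 h13 (H.i 2 7 (by decide)) (H.i 13 7 (by decide)) (H.c0 _) (H.np 2 13 (by decide)) (by ring) (by ring) (by ring)
  have h30 : Par3 (c 9) ((-1*s^2) + (-1*s*t) + s + (-1)) (s^2 + (-2*s) + 1) (s*t + s) := step (1) h8 h10 (H.i 8 9 (by decide)) (H.i 10 9 (by decide)) (H.c0 _) (H.np 8 10 (by decide)) (by ring) (by ring) (by ring)
  have h3 : Par3 (p 3) (t) (t + 1) (s + t + (-1)) := step (s*t + s + (-1*t) + (-1)) h28 h31 (H.i' 3 7 (by decide)) (H.i' 3 10 (by decide)) (H.p0 _) (H.nc 7 10 (by decide)) (by ring) (by ring) (by ring)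
  have h32 : Par3 (c 11) ((-1*s) + (-1*t) + 1) (s + t + (-1)) ((-1)) := step (1) h0 h3 (H.i 0 11 (by decide)) (H.i 3 11 (by decide)) (H.c0 _) (H.np 0 3 (by decide)) (by ring) (by ring) (by ring)
  have h4 : Par3 (p 4) 0 ((-1)) ((-1*s) + (-1*t) + 1) := step (1) h21 h32 (H.i' 4 0 (by decide)) (H.i' 4 11 (by decide)) (H.p0 _) (H.nc 0 11 (by decide)) (by ring) (by ring) (by ring)
  have h35 : Par3 (c 14) (s^2 + s*t + (-1*s) + (-1*t) + (-1)) ((-1*s) + 1) ((-1*s*t) + t + 1) := step (1) h3 h14 (H.i 3 14 (by decide)) (H.i 14 14 (by decide)) (H.c0 _) (H.np 3 14 (by decide)) (by ring) (by ring) (by ring)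
  have h16 : Par3 (p 16) 0 ((-1*s*t) + t + 1) (s + (-1)) := step (1) h21 h35 (H.i' 16 0 (by decide)) (H.i' 16 14 (by decide)) (H.p0 _) (H.nc 0 14 (by decide)) (by ring) (by ring) (by ring)
  have h36 : Par3 (c 15) ((-1*s) + 1) (s + (-1)) (s*t + (-1*t) + (-1)) := step (1) h0 h16 (H.i 0 15 (by decide)) (H.i 16 15 (by decide)) (H.c0 _) (H.np 0 16 (by decide)) (by ring) (by ring) (by ring)
  have h40 : Par3 (c 19) (1) (s^2 + s*t + (-1*s)) ((-1*s)) := step (1) h2 h4 (H.i 2 19 (by decide)) (H.i 4 19 (by decide)) (H.c0 _) (H.np 2 4 (by decide)) (by ring) (by ring) (by ring)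
  have h5 : Par3 (p 5) ((-1*s^2*t) + (-2*s^2) + (-1*s*t^2) + 3*s + (-1)) ((-1*s^2*t) + (-2*s^2) + (-1*s*t^2) + (-1*s*t) + 2*s + (-1)) ((-1*s^2*t) + (-1*s^2) + (-1*s*t^2) + s) := step (1) h30 h32 (H.i' 5 9 (by decide)) (H.i' 5 11 (by decide)) (H.p0 _) (H.nc 9 11 (by decide)) (by ring) (by ring) (by ring)
  have h11 : Par3 (p 11) ((-1*s^2) + (-1*s*t) + t + 1) (t + 1) ((-1*s^2) + (-1*s*t) + s + t) := step (t + 1) h23 h31 (H.i' 11 2 (by decide)) (H.i' 11 10 (by decide)) (H.p0 _) (H.nc 2 10 (by decide)) (by ring) (by ring) (by ring)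
  have h12 : Par3 (p 12) ((-1*s*t) + (-2*s) + 1) ((-1*s) + 1) ((-1*s^2) + (-1*s*t)) := step (s + (-1)) h22 h30 (H.i' 12 1 (by decide)) (H.i' 12 9 (by decide)) (H.p0 _) (H.nc 1 9 (by decide)) (by ring) (by ring) (by ring)
  have h15 : Par3 (p 15) (s*t + (-1*t)) ((-1*t) + (-1)) ((-1*s) + 1) := step (s + (-1)) h22 h28 (H.i' 15 1 (by decide)) (H.i' 15 7 (by decide)) (H.p0 _) (H.nc 1 7 (by decide)) (by ring) (by ring) (by ring)
  have h27 : Par3 (c 6) ((-1)) (t + 1) ((-1*t) + (-1)) := step (s^2 + s*t) h1 h14 (H.i 1 6 (by decide)) (H.i 14 6 (by decide)) (H.c0 _) (H.np 1 14 (by decide)) (by ring) (by ring) (by ring)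
  have h17 : Par3 (p 17) (s^2*t + s^2 + s*t^2 + (-1*s) + t + 1) (t + 1) ((-1*s^2) + (-1*s*t) + s + t) := step (1) h23 h27 (H.i' 17 2 (by decide)) (H.i' 17 6 (by decide)) (H.p0 _) (H.nc 2 6 (by decide)) (by ring) (by ring) (by ring)
  have h37 : Par3 (c 16) ((-1*s^2*t) + (-1*s^2) + (-1*s*t^2) + (-1*s*t)) ((-1*s^2) + (-1*s*t) + s + t) (s^2*t + s^2 + s*t^2 + 2*s*t + s + (-1*t) + (-1)) := step (1) h11 h13 (H.i 11 16 (by decide)) (H.i 13 16 (by decide)) (H.c0 _) (H.np 11 13 (by decide)) (by ring) (by ring) (by ring)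
  have h41 : Par3 (c 20) (s*t + t^2 + (-1*t) + (-1)) (s^2*t + s^2 + s*t^2 + (-1*s*t) + (-2*s) + (-1*t^2) + 1) ((-1*s*t) + (-1*s) + t + 1) := step (1) h1 h4 (H.i 1 20 (by decide)) (H.i 4 20 (by decide)) (H.c0 _) (H.np 1 4 (by decide)) (by ring) (by ring) (by ring)
  have e1 := h12.dz2 h40 (H.i 12 19 (by decide))
  have e2 := h5.dz2 h27 (H.i 5 6 (by decide))
  have hs : s = 1 / 2 := by
    have : (s - 1) * (2 * s - 1) = 0 := by linear_combination e1
    rcases mul_eq_zero.1 this with h | h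
    · exact absurd h hs1
    · linarith
  subst hs
  have ht : t = -3 / 4 := by linarith
  subst ht
  constructor
  · intro i
    fin_cases i
    · exact h0.sc (1) (by norm_num) (by norm_num [VP]) (by norm_num [VP]) (by norm_num [VP])
    · exact h1.sc (1/8) (by norm_num) (by norm_num [VP]) (by norm_num [VP]) (by norm_num [VP])
    · exact h2.sc (1/2) (by norm_num) (by norm_num [VP]) (by norm_num [VP]) (by norm_num [VP])
    · exact h3.sc (1/4) (by norm_num) (by norm_num [VP]) (by norm_num [VP]) (by norm_num [VP])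
    · exact h4.sc (1/4) (by norm_num) (by norm_num [VP]) (by norm_num [VP]) (by norm_num [VP])
    · exact h5.sc (1/32) (by norm_num) (by norm_num [VP]) (by norm_num [VP]) (by norm_num [VP])
    · exact h6.sc (1/4) (by norm_num) (by norm_num [VP]) (by norm_num [VP]) (by norm_num [VP])
    · exact h7.sc (1) (by norm_num) (by norm_num [VP]) (by norm_num [VP]) (by norm_num [VP])
    · exact h8.sc (1) (by norm_num) (by norm_num [VP]) (by norm_num [VP]) (by norm_num [VP])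
    · exact h9.sc (1) (by norm_num) (by norm_num [VP]) (by norm_num [VP]) (by norm_num [VP])
    · exact h10.sc (1/8) (by norm_num) (by norm_num [VP]) (by norm_num [VP]) (by norm_num [VP])
    · exact h11.sc (1/8) (by norm_num) (by norm_num [VP]) (by norm_num [VP]) (by norm_num [VP])
    · exact h12.sc (1/8) (by norm_num) (by norm_num [VP]) (by norm_num [VP]) (by norm_num [VP])
    · exact h13.sc (1/4) (by norm_num) (by norm_num [VP]) (by norm_num [VP]) (by norm_num [VP])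
    · exact h14.sc (1/4) (by norm_num) (by norm_num [VP]) (by norm_num [VP]) (by norm_num [VP])
    · exact h15.sc (1/8) (by norm_num) (by norm_num [VP]) (by norm_num [VP]) (by norm_num [VP])
    · exact h16.sc (1/8) (by norm_num) (by norm_num [VP]) (by norm_num [VP]) (by norm_num [VP])
    · exact h17.sc (1/32) (by norm_num) (by norm_num [VP]) (by norm_num [VP]) (by norm_num [VP])
    · exact h18.sc (1) (by norm_num) (by norm_num [VP]) (by norm_num [VP]) (by norm_num [VP])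
    · exact h19.sc (1) (by norm_num) (by norm_num [VP]) (by norm_num [VP]) (by norm_num [VP])
    · exact h20.sc (1/2) (by norm_num) (by norm_num [VP]) (by norm_num [VP]) (by norm_num [VP])
  · intro i
    fin_cases i
    · exact h21.sc (1) (by norm_num) (by norm_num [VL]) (by norm_num [VL]) (by norm_num [VL])
    · exact h22.sc (1/2) (by norm_num) (by norm_num [VL]) (by norm_num [VL]) (by norm_num [VL])
    · exact h23.sc (1/8) (by norm_num) (by norm_num [VL]) (by norm_num [VL]) (by norm_num [VL])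
    · exact h24.sc (1/4) (by norm_num) (by norm_num [VL]) (by norm_num [VL]) (by norm_num [VL])
    · exact h25.sc (1) (by norm_num) (by norm_num [VL]) (by norm_num [VL]) (by norm_num [VL])
    · exact h26.sc (1) (by norm_num) (by norm_num [VL]) (by norm_num [VL]) (by norm_num [VL])
    · exact h27.sc (1/4) (by norm_num) (by norm_num [VL]) (by norm_num [VL]) (by norm_num [VL])
    · exact h28.sc (1/8) (by norm_num) (by norm_num [VL]) (by norm_num [VL]) (by norm_num [VL])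
    · exact h29.sc (1) (by norm_num) (by norm_num [VL]) (by norm_num [VL]) (by norm_num [VL])
    · exact h30.sc (1/8) (by norm_num) (by norm_num [VL]) (by norm_num [VL]) (by norm_num [VL])
    · exact h31.sc (1/4) (by norm_num) (by norm_num [VL]) (by norm_num [VL]) (by norm_num [VL])
    · exact h32.sc (1/4) (by norm_num) (by norm_num [VL]) (by norm_num [VL]) (by norm_num [VL])
    · exact h33.sc (1/2) (by norm_num) (by norm_num [VL]) (by norm_num [VL]) (by norm_num [VL])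
    · exact h34.sc (1/4) (by norm_num) (by norm_num [VL]) (by norm_num [VL]) (by norm_num [VL])
    · exact h35.sc (1/8) (by norm_num) (by norm_num [VL]) (by norm_num [VL]) (by norm_num [VL])
    · exact h36.sc (1/8) (by norm_num) (by norm_num [VL]) (by norm_num [VL]) (by norm_num [VL])
    · exact h37.sc (1/32) (by norm_num) (by norm_num [VL]) (by norm_num [VL]) (by norm_num [VL])
    · exact h38.sc (1/2) (by norm_num) (by norm_num [VL]) (by norm_num [VL]) (by norm_num [VL])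
    · exact h39.sc (1) (by norm_num) (by norm_num [VL]) (by norm_num [VL]) (by norm_num [VL])
    · exact h40.sc (1/8) (by norm_num) (by norm_num [VL]) (by norm_num [VL]) (by norm_num [VL])
    · exact h41.sc (1/32) (by norm_num) (by norm_num [VL]) (by norm_num [VL]) (by norm_num [VL])

def det3 (a b c : V3) : ℝ :=
  (a 1 * b 2 - a 2 * b 1) * c 0 + (a 2 * b 0 - a 0 * b 2) * c 1 + (a 0 * b 1 - a 1 * b 0) * c 2

theorem det_ne {a b c l : V3} (l0 : l ≠ 0) (n : NP a b) (ha : dt a l = 0) (hb : dt b l = 0)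
    (hc : dt l c ≠ 0) : det3 a b c ≠ 0 := by
  have : Par3 l (a 1 * b 2 - a 2 * b 1) (a 2 * b 0 - a 0 * b 2) (a 0 * b 1 - a 1 * b 0) :=
    step 1 ⟨1, one_ne_zero, (one_mul _).symm, (one_mul _).symm, (one_mul _).symm⟩
      ⟨1, one_ne_zero, (one_mul _).symm, (one_mul _).symm, (one_mul _).symm⟩ ha hb l0 n
      (by ring) (by ring) (by ring)
  exact this.dn hc

def lin (a b c : V3) : V3 →ₗ[ℝ] V3 where
  toFun y := y 0 • a + y 1 • b + y 2 • c
  map_add' x y := by funext i; simp; ring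
  map_smul' m x := by funext i; simp; ring

theorem lin_apply (a b c y : V3) (i : Fin 3) :
    lin a b c y i = y 0 * a i + y 1 * b i + y 2 * c i := by simp [lin]

theorem lin_inj {a b c : V3} (h : det3 a b c ≠ 0) : Function.Injective (lin a b c) := by
  rw [injective_iff_map_eq_zero]
  intro y hy
  have e0 := congrFun hy 0
  have e1 := congrFun hy 1
  have e2 := congrFun hy 2
  simp only [lin_apply, Pi.zero_apply] at e0 e1 e2
  have f0 : y 0 = 0 := by
    apply mul_right_cancel₀ h; simp only [det3]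
    linear_combination (b 1 * c 2 - b 2 * c 1) * e0 + (b 2 * c 0 - b 0 * c 2) * e1 +
      (b 0 * c 1 - b 1 * c 0) * e2
  have f1 : y 1 = 0 := by
    apply mul_right_cancel₀ h; simp only [det3]
    linear_combination (c 1 * a 2 - c 2 * a 1) * e0 + (c 2 * a 0 - c 0 * a 2) * e1 +
      (c 0 * a 1 - c 1 * a 0) * e2
  have f2 : y 2 = 0 := by
    apply mul_right_cancel₀ h; simp only [det3]
    linear_combination (a 1 * b 2 - a 2 * b 1) * e0 + (a 2 * b 0 - a 0 * b 2) * e1 +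
      (a 0 * b 1 - a 1 * b 0) * e2
  funext i; fin_cases i <;> simpa

theorem par_symm (f : V3 ≃ₗ[ℝ] V3) (x : V3) (k a b c : ℝ) (hk : k ≠ 0)
    (h : f ![k * a, k * b, k * c] = x) : Par3 (f.symm x) a b c := by
  rw [← h, f.symm_apply_apply]; exact ⟨k, hk, rfl, rfl, rfl⟩

theorem normal {p c : Fin 21 → V3} (H : Hyp p c) : ∃ f : V3 ≃ₗ[ℝ] V3,
    (∀ i, Par3 (f.symm (p i)) (VP i).1 (VP i).2.1 (VP i).2.2) ∧
    ∀ j y, dt (c j) (f y) = 0 ↔ (VL j).1 * y 0 + (VL j).2.1 * y 1 + (VL j).2.2 * y 2 = 0 := by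
  have D : det3 (p 18) (p 19) (p 7) ≠ 0 := det_ne (H.c0 4) (H.np _ _ (by decide))
    (H.i _ _ (by decide)) (H.i _ _ (by decide)) (H.n' _ _ (by decide))
  have G : det3 (p 18) (p 19) (p 8) ≠ 0 := det_ne (H.c0 4) (H.np _ _ (by decide))
    (H.i _ _ (by decide)) (H.i _ _ (by decide)) (H.n' _ _ (by decide))
  have A : det3 (p 7) (p 8) (p 19) ≠ 0 := det_ne (H.c0 8) (H.np _ _ (by decide))
    (H.i _ _ (by decide)) (H.i _ _ (by decide)) (H.n' _ _ (by decide))
  have B : det3 (p 8) (p 7) (p 18) ≠ 0 := det_ne (H.c0 8) (H.np _ _ (by decide))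
    (H.i _ _ (by decide)) (H.i _ _ (by decide)) (H.n' _ _ (by decide))
  set α := det3 (p 7) (p 8) (p 19) with hα
  set β := det3 (p 8) (p 7) (p 18) with hβ
  set γ := det3 (p 18) (p 19) (p 8) with hγ
  set δ := det3 (p 18) (p 19) (p 7) with hδ
  have hd : det3 (α • p 18) (β • p 19) (γ • p 7) ≠ 0 := by
    have : det3 (α • p 18) (β • p 19) (γ • p 7) = α * β * γ * δ := by
      rw [hδ]; simp only [det3, Pi.smul_apply, smul_eq_mul]; ring
    rw [this]; exact mul_ne_zero (mul_ne_zero (mul_ne_zero A B) G) D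
  let f : V3 ≃ₗ[ℝ] V3 := LinearEquiv.ofInjectiveEndo _ (lin_inj hd)
  have hf : ∀ y i, f y i = y 0 * (α * p 18 i) + y 1 * (β * p 19 i) + y 2 * (γ * p 7 i) := by
    intro y i
    have : f y = lin (α • p 18) (β • p 19) (γ • p 7) y := rfl
    rw [this, lin_apply]; simp
  let c' : Fin 21 → V3 := fun j => ![α * dt (c j) (p 18), β * dt (c j) (p 19), γ * dt (c j) (p 7)]
  have hc : ∀ j y, dt (c' j) y = dt (c j) (f y) := by
    intro j y
    simp only [dt, hf, c', Matrix.cons_val_zero, Matrix.cons_val_one, Matrix.cons_val_two,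
      Matrix.head_cons, Matrix.tail_cons]
    ring
  have H' : Hyp (fun i => f.symm (p i)) c' := by
    refine ⟨fun i h => H.p0 i (by simpa using h), fun j h => ?_, fun i j => ?_⟩
    · obtain ⟨l, _, b⟩ := sepL (if j = 0 then 1 else 0) j (by split_ifs with e <;> simp [e, eq_comm])
      apply H.n' l j b
      have := hc j (f.symm (p l))
      rw [h, f.apply_symm_apply] at this
      rw [← this]; simp [dt]
    · rw [dt_comm, hc, f.apply_symm_apply, dt_comm]; exact H.iff i j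
  obtain ⟨a, b⟩ := core H'
    (par_symm f _ (1 / α) 1 0 0 (one_div_ne_zero A) (by funext i; rw [hf]; simp; field_simp))
    (par_symm f _ (1 / β) 0 1 0 (one_div_ne_zero B) (by funext i; rw [hf]; simp; field_simp))
    (par_symm f _ (1 / γ) 0 0 1 (one_div_ne_zero G) (by funext i; rw [hf]; simp; field_simp))
    (par_symm f _ (1 / δ) 1 1 1 (one_div_ne_zero D) (by
      funext i; rw [hf]
      simp only [Matrix.cons_val_zero, Matrix.cons_val_one, Matrix.cons_val_two,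
        Matrix.head_cons, Matrix.tail_cons]
      field_simp
      rw [hα, hβ, hγ, hδ]
      fin_cases i <;> simp only [det3, Fin.zero_eta, Fin.mk_one, Fin.reduceFinMk] <;> ring))
  refine ⟨f, a, fun j y => ?_⟩
  rw [← hc]
  constructor
  · exact (b j).dz
  · intro e; by_contra h; exact (b j).dn h e

theorem act_rep (g : V3 ≃ₗ[ℝ] V3) (x : PP) : ∃ k : ℝ, k ≠ 0 ∧ (act g x).rep = k • g x.rep := by
  have h : act g x = Projectivization.mk ℝ (g x.rep) (by simpa using x.rep_nonzero) := by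
    conv_lhs => rw [← x.mk_rep]
    rfl
  obtain ⟨a, ha⟩ := Projectivization.exists_smul_eq_mk_rep ℝ (g x.rep) (by simpa using x.rep_nonzero)
  exact ⟨a, a.ne_zero, by rw [h, ← ha]; rfl⟩

theorem dt_smul (u v : V3) (k : ℝ) : dt u (k • v) = k * dt u v := by
  simp only [dt, Pi.smul_apply, smul_eq_mul]; ring

theorem pp_ext {x y : PP} {k : ℝ} (h : x.rep = k • y.rep) : x = y := by
  rw [← x.mk_rep, ← y.mk_rep, Projectivization.mk_eq_mk_iff']
  exact ⟨k, h.symm⟩

theorem act_surj (g : V3 ≃ₗ[ℝ] V3) (y : PP) : act g (act g.symm y) = y := by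
  obtain ⟨k, _, h⟩ := act_rep g (act g.symm y)
  obtain ⟨m, _, h'⟩ := act_rep g.symm y
  apply pp_ext (k := k * m)
  rw [h, h']; simp [smul_smul]

theorem hyp_of (R : PReal incZ) : ∃ c : Fin 21 → V3, Hyp (fun i => (R.pt i).rep) c ∧
    ∀ j, R.ln j = {x | dt (c j) x.rep = 0} := by
  choose c h0 h1 using R.isLine
  refine ⟨c, ⟨fun i => (R.pt i).rep_nonzero, h0, fun i j => ?_⟩, fun j => ?_⟩
  · rw [← R.mem_iff, h1, dt_comm, ← dt_eq]; rfl
  · rw [h1]; simp only [dt_eq]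

theorem rigid (R R' : PReal incZ) : ProjEquiv R R' := by
  obtain ⟨c, H, hc⟩ := hyp_of R
  obtain ⟨c', H', hc'⟩ := hyp_of R'
  obtain ⟨f, a, b⟩ := normal H
  obtain ⟨f', a', b'⟩ := normal H'
  have key : ∀ j (x : PP), act (f.symm.trans f') x ∈ R'.ln j ↔ x ∈ R.ln j := by
    intro j x
    obtain ⟨k, hk, h⟩ := act_rep (f.symm.trans f') x
    rw [hc, hc']
    simp only [mem_ofPred_eq]
    rw [h, dt_smul, mul_eq_zero, LinearEquiv.trans_apply, b', ← b, f.apply_symm_apply]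
    simp [hk]
  refine ⟨f.symm.trans f', fun i => ?_, fun j => ?_⟩
  · obtain ⟨k, hk, h⟩ := act_rep (f.symm.trans f') (R.pt i)
    obtain ⟨m, hm, x0, x1, x2⟩ := a i
    obtain ⟨m', hm', y0, y1, y2⟩ := a' i
    have e : f.symm (R.pt i).rep = (m / m') • f'.symm (R'.pt i).rep := by
      funext r
      fin_cases r
      · simp only [Fin.zero_eta, Pi.smul_apply, smul_eq_mul, x0, y0]; field_simp
      · simp only [Fin.mk_one, Pi.smul_apply, smul_eq_mul, x1, y1]; field_simp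
      · simp only [Fin.reduceFinMk, Pi.smul_apply, smul_eq_mul, x2, y2]; field_simp
    apply pp_ext (k := k * (m / m'))
    rw [h, LinearEquiv.trans_apply, e]; simp [smul_smul]
  · ext y
    constructor
    · rintro ⟨x, hx, rfl⟩; exact (key j x).2 hx
    · intro hy
      refine ⟨act (f.symm.trans f').symm y, (key j _).1 ?_, act_surj _ y⟩
      rw [act_surj]; exact hy

def rv (v : ℤ × ℤ × ℤ) : V3 := ![v.1, v.2.1, v.2.2]

theorem nzP : ∀ i, VP i ≠ (0, 0, 0) := by decide +kernel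
theorem nzL : ∀ i, VL i ≠ (0, 0, 0) := by decide +kernel

theorem rv_ne {v : ℤ × ℤ × ℤ} (h : v ≠ (0, 0, 0)) : rv v ≠ 0 := by
  intro e
  have a := congrFun e 0
  have b := congrFun e 1
  have c := congrFun e 2
  simp [rv] at a b c
  exact h (Prod.ext a (Prod.ext b c))

theorem std_mem (i j : Fin 21) : Projectivization.mk ℝ (rv (VP i)) (rv_ne (nzP i)) ∈
    {x : PP | rv (VL j) ⬝ᵥ x.rep = 0} ↔ incZ i j := by
  obtain ⟨a, ha⟩ := Projectivization.exists_smul_eq_mk_rep ℝ (rv (VP i)) (rv_ne (nzP i))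
  simp only [mem_ofPred_eq]
  rw [← ha, dt_eq, Units.smul_def, dt_smul, mul_eq_zero]
  have : dt (rv (VL j)) (rv (VP i)) = (((VP i).1 * (VL j).1 + (VP i).2.1 * (VL j).2.1 +
      (VP i).2.2 * (VL j).2.2 : ℤ) : ℝ) := by
    simp [dt, rv]; ring
  rw [this, Int.cast_eq_zero]
  simp [incZ]

noncomputable def std : PReal incZ where
  pt i := Projectivization.mk ℝ (rv (VP i)) (rv_ne (nzP i))
  ln j := {x | rv (VL j) ⬝ᵥ x.rep = 0}
  pt_inj i j h := by
    by_contra e
    obtain ⟨l, a, b⟩ := sepP i j e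
    rw [← std_mem] at a b
    simp only at h
    rw [h] at a; exact b a
  ln_inj i j h := by
    by_contra e
    obtain ⟨l, a, b⟩ := sepL i j e
    rw [← std_mem] at a b
    simp only at h
    rw [h] at a; exact b a
  isLine j := ⟨_, rv_ne (nzL j), rfl⟩
  mem_iff := std_mem

theorem ncard_eq {P : Fin 21 → Prop} [DecidablePred P] :
    {p | P p}.ncard = (Finset.univ.filter P).card := by
  rw [← Set.ncard_coe_finset]; congr 1; ext; simp

theorem c1 : ∀ l, (Finset.univ.filter fun p => incZ p l).card = 4 := by decide +kernel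
theorem c2 : ∀ p, (Finset.univ.filter fun l => incZ p l).card = 4 := by decide +kernel

theorem main : ∃ inc : Fin 21 → Fin 21 → Prop, (∀ p, {l | inc p l}.ncard = 4) ∧
    (∀ l, {p | inc p l}.ncard = 4) ∧ Nonempty (PReal inc) ∧ ∀ R R' : PReal inc, ProjEquiv R R' :=
  ⟨incZ, fun p => by rw [ncard_eq]; exact c2 p, fun l => by rw [ncard_eq]; exact c1 l, ⟨std⟩, rigid⟩

end Pool.Agent.H16.Rigid
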