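import Mathlib

/-! Multi-level codes on a lexicographic product of coloured cliques. -/

set_option autoImplicit false

namespace Pool.Agent.H16.Sat

open Finset Function

theorem tree {Y : Type} [Fintype Y] (col : Y → Y → ℕ) (hcol : ∀ a b, col a b = col b a) (N : ℕ) :
    ∃ (W : Type) (_ : Fintype W) (g : W → W → ℕ), Fintype.card W = Fintype.card Y ^ N ∧
      (∀ a b, g a b = g b a) ∧ ∀ S : Finset W, (Fintype.card Y - 1) ^ N < S.card →
        ∃ ψ : Y → W, (∀ y, ψ y ∈ S) ∧ Injective ψ ∧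
          ∀ y y', y ≠ y' → g (ψ y) (ψ y') = col y y' := by
  classical
  induction N with
  | zero =>
    refine ⟨Unit, inferInstance, fun _ _ => 0, by simp, by simp, fun S hS => ?_⟩
    have := card_le_univ S
    simp at this hS
    omega
  | succ N ih =>
    obtain ⟨W, _, g, h1, h2, h3⟩ := ih
    refine ⟨Y × W, inferInstance, fun p q => if p.1 = q.1 then g p.2 q.2 else col p.1 q.1,
      by rw [Fintype.card_prod, h1, pow_succ'], fun p q => ?_, fun S hS => ?_⟩
    · by_cases h : p.1 = q.1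
      · simp only [if_pos h, if_pos h.symm, h2]
      · simp only [if_neg h, if_neg (Ne.symm h), hcol]
    · by_cases hne : ∀ y, ∃ w, (y, w) ∈ S
      · choose w hw using hne
        exact ⟨fun y => (y, w y), hw, fun a b h => congrArg Prod.fst h,
          fun y y' h => by simp only [if_neg h]⟩
      · push Not at hne
        obtain ⟨y0, hy0⟩ := hne
        obtain ⟨y1, -, hy1⟩ := exists_lt_card_fiber_of_mul_lt_card_of_maps_to (s := S)
          (t := univ.erase y0) (f := Prod.fst) (n := (Fintype.card Y - 1) ^ N)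
          (fun p hp => mem_erase.2 ⟨fun h => hy0 p.2 (h ▸ hp), mem_univ _⟩)
          (by rwa [card_erase_of_mem (mem_univ _), card_univ, ← pow_succ'])
        obtain ⟨ψ, a1, a2, a3⟩ := h3 ((S.filter (·.1 = y1)).image Prod.snd) (by
          rwa [card_image_of_injOn]
          intro p hp q hq h
          exact Prod.ext ((mem_filter.1 hp).2.trans (mem_filter.1 hq).2.symm) h)
        refine ⟨fun y => (y1, ψ y), fun y => ?_, fun a b h => a2 (congrArg Prod.snd h),
          fun y y' h => by simp only [if_true, a3 y y' h]⟩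
        obtain ⟨p, hp, e⟩ := mem_image.1 (a1 y)
        have : (y1, ψ y) = p := Prod.ext (mem_filter.1 hp).2.symm e.symm
        show (y1, ψ y) ∈ S
        exact this ▸ (mem_filter.1 hp).1

variable {W K : Type} [Fintype W] [Fintype K]

theorem packing (g : W → W → ℕ) (c : ℕ → K → K → ℕ) (T D : ℕ)
    (hW : ∀ S : Finset W, D < S.card → ∀ x < T, ∃ ψ : K → W, (∀ i, ψ i ∈ S) ∧ Injective ψ ∧
      ∀ i j, i ≠ j → g (ψ i) (ψ j) = c x i j)
    (s : W → ℕ) (hs : ∀ w, s w < T) (t : ℕ) (ht : t * Fintype.card K + T * D < Fintype.card W) :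
    ∃ (κ : Fin t × K → W) (x : Fin t → ℕ), Injective κ ∧ (∀ a i, s (κ (a, i)) = x a) ∧
      ∀ a i j, i ≠ j → g (κ (a, i)) (κ (a, j)) = c (x a) i j := by
  classical
  induction t with
  | zero => exact ⟨fun p => p.1.elim0, fun a => a.elim0, fun p => p.1.elim0, fun a => a.elim0,
      fun a => a.elim0⟩
  | succ t ih =>
    obtain ⟨κ, x, h1, h2, h3⟩ := ih (by nlinarith)
    have hc : (range T).card * D < (univ \ univ.image κ).card := by
      rw [card_sdiff_of_subset (subset_univ _), card_image_of_injective _ h1, card_univ, card_univ,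
        Fintype.card_prod, Fintype.card_fin, card_range]
      have : t * Fintype.card K ≤ (t + 1) * Fintype.card K := by nlinarith
      omega
    obtain ⟨y, hy, hy'⟩ := exists_lt_card_fiber_of_mul_lt_card_of_maps_to (f := s)
      (fun w _ => mem_range.2 (hs w)) hc
    obtain ⟨ψ, a1, a2, a3⟩ := hW _ hy' y (mem_range.1 hy)
    have a4 : ∀ i p, ψ i ≠ κ p := fun i p h =>
      (mem_sdiff.1 (mem_filter.1 (a1 i)).1).2 (mem_image.2 ⟨p, mem_univ _, h.symm⟩)
    refine ⟨fun p => (Fin.cons ψ (fun a i => κ (a, i)) : Fin (t + 1) → K → W) p.1 p.2,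
      Fin.cons y x, ?_, fun a i => ?_, fun a i j h => ?_⟩
    · rintro ⟨a, i⟩ ⟨b, j⟩ h
      induction a using Fin.cases <;> induction b using Fin.cases <;>
        simp only [Fin.cons_zero, Fin.cons_succ] at h
      · rw [a2 h]
      · exact absurd h (a4 _ _)
      · exact absurd h.symm (a4 _ _)
      · obtain ⟨rfl, rfl⟩ := Prod.ext_iff.1 (h1 h)
        rfl
    · induction a using Fin.cases <;> simp only [Fin.cons_zero, Fin.cons_succ]
      · exact (mem_filter.1 (a1 i)).2
      · exact h2 _ _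
    · induction a using Fin.cases <;> simp only [Fin.cons_zero, Fin.cons_succ]
      · exact a3 _ _ h
      · exact h3 _ _ _ h

/-- the labels `x`, `y` at two vertices and `g` among hubs show the pattern given by `r` -/
def Good (g : W → W → ℕ) (r : K → K → ℕ) (B T : ℕ) (a b : K) (x y : W → ℕ) : Prop :=
  ∃ (ψ : K → W) (x0 q : ℕ), Injective ψ ∧ 0 < q ∧ x0 + B * q ≤ T ∧
    (∀ i j, i ≠ j → g (ψ i) (ψ j) = x0 + r i j * q) ∧
    ∀ i, (x0 + r a i * q ≤ x (ψ i) ∧ x (ψ i) < x0 + r a i * q + q) ∧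
      (x0 + r b i * q ≤ y (ψ i) ∧ y (ψ i) < x0 + r b i * q + q)

theorem codes (g : W → W → ℕ) (r : K → K → ℕ) (B T D m M : ℕ) (hB : ∀ i j, r i j < B) (a b : K)
    (hW : ∀ S : Finset W, D < S.card → ∀ h < m, ∀ x < T, ∃ ψ : K → W, (∀ i, ψ i ∈ S) ∧
      Injective ψ ∧ ∀ i j, i ≠ j → g (ψ i) (ψ j) = x + r i j * B ^ h)
    (hM : M * Fintype.card K + T * D < Fintype.card W) (h : ℕ) (hh : h ≤ m) :
    ∀ s : W → ℕ, (∀ w, s w + B ^ h ≤ T) → ∃ f : (Fin h → Fin M → Bool) → W → ℕ,
      (∀ u w, s w ≤ f u w ∧ f u w < s w + B ^ h) ∧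
        ∀ u v, u ≠ v → Good g r B T a b (f u) (f v) ∨ Good g r B T a b (f v) (f u) := by
  classical
  have hB0 : 0 < B := lt_of_le_of_lt (Nat.zero_le _) (hB a b)
  induction h with
  | zero => exact fun s _ => ⟨fun _ => s, fun u w => by simp, fun u v h =>
      absurd (Subsingleton.elim u v) h⟩
  | succ h ih =>
    intro s hs
    have hq : 0 < B ^ h := pow_pos hB0 _
    obtain ⟨κ, x, h1, h2, h3⟩ := packing g (fun x i j => x + r i j * B ^ h) T D
      (fun S hS x hx => hW S hS h hh x hx) s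
      (fun w => lt_of_lt_of_le (lt_add_of_pos_right _ (pow_pos hB0 _)) (hs w)) M hM
    let dig : (Fin M → Bool) → W → ℕ := fun β =>
      extend κ (fun p => if β p.1 = true then r a p.2 else r b p.2) 0
    have hd1 : ∀ β p, dig β (κ p) = if β p.1 = true then r a p.2 else r b p.2 := fun β p =>
      h1.extend_apply _ _ _
    have hd2 : ∀ β w, dig β w * B ^ h + B ^ h ≤ B ^ (h + 1) := fun β w => by
      have : dig β w < B := by
        by_cases e : ∃ p, κ p = w
        · obtain ⟨p, rfl⟩ := e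
          rw [hd1]
          split_ifs <;> exact hB _ _
        · have : dig β w = 0 := extend_apply' _ _ _ e
          omega
      rw [pow_succ']
      nlinarith
    choose f f1 f2 using fun β => ih (by omega) (fun w => s w + dig β w * B ^ h) fun w => by
      have := hd2 β w
      have := hs w
      omega
    have key : ∀ u v : Fin (h + 1) → Fin M → Bool, ∀ t, u 0 t = true → v 0 t = false →
        Good g r B T a b (f (u 0) (Fin.tail u)) (f (v 0) (Fin.tail v)) := fun u v t hu hv => by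
      refine ⟨fun i => κ (t, i), x t, B ^ h, fun i j e => (Prod.ext_iff.1 (h1 e)).2, hq, ?_,
        h3 t, fun i => ?_⟩
      · rw [← h2 t a, ← pow_succ']; exact hs _
      · have e1 := f1 (u 0) (Fin.tail u) (κ (t, i))
        have e2 := f1 (v 0) (Fin.tail v) (κ (t, i))
        rw [hd1, h2] at e1 e2
        simp only [hu, hv, if_true, Bool.false_eq_true, if_false] at e1 e2
        exact ⟨e1, e2⟩
    refine ⟨fun u => f (u 0) (Fin.tail u), fun u w => ?_, fun u v huv => ?_⟩
    · have := f1 (u 0) (Fin.tail u) w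
      have := hd2 (u 0) w
      constructor <;> dsimp only <;> omega
    · by_cases e : u 0 = v 0
      · have : Fin.tail u ≠ Fin.tail v := fun e' =>
          huv (by rw [← Fin.cons_self_tail u, ← Fin.cons_self_tail v, e, e'])
        simp only [e]
        exact f2 _ _ _ this
      · obtain ⟨t, ht⟩ := ne_iff.1 e
        cases hu : u 0 t <;> cases hv : v 0 t
        · exact absurd (hu.trans hv.symm) ht
        · exact Or.inr (key v u t hv hu)
        · exact Or.inl (key u v t hu hv)
        · exact absurd (hu.trans hv.symm) ht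

/-- hubs and codes for all levels at once -/
theorem hubs (r : K → K → ℕ) (hr : ∀ i j, r i j = r j i) (B m : ℕ) (hB : ∀ i j, r i j < B)
    (hm : 0 < m) (hK : 2 ≤ Fintype.card K) (N0 : ℕ) :
    ∃ (W : Type) (_ : Fintype W) (g : W → W → ℕ) (M : ℕ), N0 ≤ Fintype.card W ∧
      Fintype.card W ≤ 4 * Fintype.card K * M ∧ (∀ a b, g a b = g b a) ∧
      ∀ a b : K, ∃ f : (Fin m → Fin M → Bool) → W → ℕ, ∀ u v, u ≠ v →
        Good g r B (B ^ m) a b (f u) (f v) ∨ Good g r B (B ^ m) a b (f v) (f u) := by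
  classical
  have hne : Nonempty K := Fintype.card_pos_iff.1 (by omega)
  obtain ⟨a0⟩ := hne
  have hB0 : 0 < B := lt_of_le_of_lt (Nat.zero_le _) (hB a0 a0)
  have hT : 0 < B ^ m := pow_pos hB0 _
  set y := Fintype.card (Fin m × Fin (B ^ m) × K) with hy
  have hy2 : 2 ≤ y := by
    rw [hy, Fintype.card_prod, Fintype.card_prod, Fintype.card_fin, Fintype.card_fin]
    exact hK.trans (le_trans (Nat.le_mul_of_pos_left _ hT) (Nat.le_mul_of_pos_left _ hm))
  obtain ⟨N, hN1, hN2⟩ : ∃ N, N0 + 2 * Fintype.card K ≤ N ∧ 2 * (B ^ m * (y - 1) ^ N) < y ^ N := by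
    have hy0 : (0 : ℝ) < y := by exact_mod_cast (by omega : 0 < y)
    have h1 := (tendsto_pow_atTop_nhds_zero_of_lt_one (r := ((y - 1 : ℕ) : ℝ) / y) (by positivity)
      ((div_lt_one hy0).2 (by exact_mod_cast (by omega : y - 1 < y)))).const_mul
        (2 * (B : ℝ) ^ m)
    rw [mul_zero] at h1
    obtain ⟨N, h2, h3⟩ := ((h1.eventually (gt_mem_nhds one_pos)).and
      (Filter.eventually_ge_atTop (N0 + 2 * Fintype.card K))).exists
    refine ⟨N, h3, ?_⟩
    rw [div_pow, ← mul_div_assoc, div_lt_one (by positivity), mul_assoc] at h2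
    exact_mod_cast h2
  obtain ⟨W, _, g, h1, h2, h3⟩ := tree (Y := Fin m × Fin (B ^ m) × K)
    (fun p q => if p.1 = q.1 ∧ p.2.1 = q.2.1 then p.2.1 + r p.2.2 q.2.2 * B ^ (p.1 : ℕ) else 0)
    (fun p q => by
      by_cases h : p.1 = q.1 ∧ p.2.1 = q.2.1
      · rw [if_pos h, if_pos ⟨h.1.symm, h.2.symm⟩, h.1, h.2, hr]
      · rw [if_neg h, if_neg fun h' => h ⟨h'.1.symm, h'.2.symm⟩]) N
  rw [← hy] at h1 h3
  have hd : N < y ^ N := Nat.lt_pow_self (by omega)
  have e1 := Nat.div_add_mod (y ^ N) (2 * Fintype.card K)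
  have e2 := Nat.mod_lt (y ^ N) (show 0 < 2 * Fintype.card K by omega)
  have e3 : 0 < y ^ N / (2 * Fintype.card K) := Nat.div_pos (by omega) (by omega)
  refine ⟨W, inferInstance, g, y ^ N / (2 * Fintype.card K), by omega, by nlinarith, h2,
    fun a b => ?_⟩
  obtain ⟨f, -, hf⟩ := codes g r B (B ^ m) ((y - 1) ^ N) m (y ^ N / (2 * Fintype.card K)) hB a b
    (fun S hS h hh x hx => by
      obtain ⟨ψ, a1, a2, a3⟩ := h3 S hS
      refine ⟨fun i => ψ (⟨h, hh⟩, ⟨x, hx⟩, i), fun i => a1 _, fun i j e => ?_, fun i j e => ?_⟩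
      · simpa using a2 e
      · rw [a3 _ _ (by simpa using e)]
        simp)
    (by
      have e4 := Nat.div_mul_le_self (y ^ N) (2 * Fintype.card K)
      rw [mul_left_comm] at e4
      omega) m le_rfl (fun _ => 0) (by simp)
  exact ⟨f, hf⟩

end Pool.Agent.H16.Sat
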