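import Pool.Agent.H16.Sat1

/-! The host graph built from hubs and codes. -/

set_option autoImplicit false

namespace Pool.Agent.H16.Sat

open Finset Function

theorem tie {β : Type} [Fintype β] (bs : β → ℕ) :
    ∃ L : β → ℝ, Injective L ∧ ∀ e, (bs e : ℝ) ≤ L e ∧ L e < bs e + 1 := by
  let i := Fintype.equivFin β
  have h : ∀ e, (0 : ℝ) ≤ (i e : ℕ) / Fintype.card β ∧ ((i e : ℕ) : ℝ) / Fintype.card β < 1 :=
    fun e => ⟨by positivity, (div_lt_one (by exact_mod_cast (i e).pos)).2
      (by exact_mod_cast (i e).2)⟩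
  refine ⟨fun e => bs e + (i e : ℕ) / Fintype.card β, fun e e' he => ?_,
    fun e => ⟨by linarith [h e], by linarith [h e]⟩⟩
  have h1 : bs e < bs e' + 1 := by
    have : (bs e : ℝ) < bs e' + 1 := by linarith [h e, h e', he.le]
    exact_mod_cast this
  have h2 : bs e' < bs e + 1 := by
    have : (bs e' : ℝ) < bs e + 1 := by linarith [h e, h e', he.ge]
    exact_mod_cast this
  have h3 : bs e = bs e' := by omega
  simp only [h3, add_right_inj] at he
  rw [div_left_inj' (by exact_mod_cast (i e).pos.ne')] at he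
  exact i.injective (Fin.ext (by exact_mod_cast he))

/-- integer parts of the labels of the host graph -/
def base {U W : Type} (off : Bool → ℕ) (f : Bool → U → W → ℕ) (g : W → W → ℕ) :
    U ⊕ Bool × W → U ⊕ Bool × W → ℕ
  | .inl _, .inl _ => 0
  | .inl u, .inr p => off p.1 + f p.1 u p.2
  | .inr p, .inl u => off p.1 + f p.1 u p.2
  | .inr p, .inr q => if p.1 = q.1 then off p.1 + g p.2 q.2 else 0

theorem base_comm {U W : Type} (off : Bool → ℕ) (f : Bool → U → W → ℕ) {g : W → W → ℕ}
    (hg : ∀ a b, g a b = g b a) (x y : U ⊕ Bool × W) : base off f g x y = base off f g y x := by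
  rcases x with u | p <;> rcases y with v | q <;> simp only [base]
  by_cases h : p.1 = q.1
  · rw [if_pos h, if_pos h.symm, h, hg]
  · rw [if_neg h, if_neg (Ne.symm h)]

theorem copy {U W K : Type} (off : Bool → ℕ) (f : Bool → U → W → ℕ) {g : W → W → ℕ}
    (hg : ∀ a b, g a b = g b a) (ρ : Sym2 K → ℕ) (B T : ℕ) {a b : K} (hab : a ≠ b) (σ : Bool)
    {u v : U} (huv : u ≠ v) (h : Good g (fun i j => ρ s(i, j)) B T a b (f σ u) (f σ v)) :
    ∃ (φ : K → U ⊕ Bool × W) (x0 q : ℕ), Injective φ ∧ φ a = .inl u ∧ φ b = .inl v ∧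
      x0 + B * q ≤ T ∧ ∀ i j, i ≠ j → s(i, j) ≠ s(a, b) →
        ((φ i).isRight = true ∨ (φ j).isRight = true) ∧
          off σ + x0 + ρ s(i, j) * q ≤ base off f g (φ i) (φ j) ∧
          base off f g (φ i) (φ j) < off σ + x0 + ρ s(i, j) * q + q := by
  classical
  obtain ⟨ψ, x0, q, h1, h2, h3, h4, h5⟩ := h
  let φ : K → U ⊕ Bool × W := fun i =>
    if i = a then .inl u else if i = b then .inl v else .inr (σ, ψ i)
  have ea : φ a = .inl u := if_pos rfl
  have eb : φ b = .inl v := by simp [φ, hab.symm]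
  have ec : ∀ i, i ≠ a → i ≠ b → φ i = .inr (σ, ψ i) := fun i h h' => by simp [φ, h, h']
  have key : ∀ i j, i ≠ j → j ≠ a → j ≠ b → (φ j).isRight = true ∧
      off σ + x0 + ρ s(i, j) * q ≤ base off f g (φ i) (φ j) ∧
      base off f g (φ i) (φ j) < off σ + x0 + ρ s(i, j) * q + q := fun i j hij ha hb => by
    rw [ec j ha hb]
    refine ⟨rfl, ?_⟩
    by_cases e1 : i = a
    · subst e1
      have := (h5 j).1
      rw [ea]
      simp only [base] at this ⊢
      omega
    · by_cases e2 : i = b
      · subst e2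
        have := (h5 j).2
        rw [eb]
        simp only [base] at this ⊢
        omega
      · have := h4 i j hij
        rw [ec i e1 e2]
        simp only [base, if_true] at this ⊢
        omega
  refine ⟨φ, x0, q, fun i j e => ?_, ea, eb, h3, fun i j hij hne => ?_⟩
  · simp only [φ] at e
    split_ifs at e <;> simp_all [h1.eq_iff, huv.symm]
  · by_cases e : j ≠ a ∧ j ≠ b
    · exact ⟨Or.inr (key i j hij e.1 e.2).1, (key i j hij e.1 e.2).2⟩
    · have e' : i ≠ a ∧ i ≠ b := by
        rw [Ne, Sym2.eq_iff] at hne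
        constructor <;> rintro rfl <;> tauto
      rw [base_comm off f hg, Sym2.eq_swap]
      exact ⟨Or.inl (key j i hij.symm e'.1 e'.2).1, (key j i hij.symm e'.1 e'.2).2⟩

end Pool.Agent.H16.Sat
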