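import Mathlib

namespace H16.Surv

open SimpleGraph Classical

variable {V : Type} {G : SimpleGraph V}

theorem getVert_dist (hc : G.Connected) {u v : V} (p : G.Walk u v) (hp : p.length = G.dist u v)
    (i : ℕ) (hi : i ≤ p.length) :
    G.dist u (p.getVert i) = i ∧ G.dist (p.getVert i) v = p.length - i := by
  have h1 := dist_le (p.take i)
  have h2 := dist_le (p.drop i)
  rw [Walk.take_length] at h1
  rw [Walk.drop_length] at h2
  have h3 := hc.dist_triangle (u := u) (v := p.getVert i) (w := v)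
  have h4 : min i p.length = i := min_eq_left hi
  omega

theorem split (hc : G.Connected) {u v z : V} (p : G.Walk u v) (hp : p.length = G.dist u v)
    (hz : z ∈ p.support) : G.dist u z + G.dist z v = G.dist u v := by
  obtain ⟨i, rfl, hi⟩ := Walk.mem_support_iff_exists_getVert.1 hz
  have := getVert_dist hc p hp i hi
  omega

theorem ball_finite (hc : G.Connected) (hl : ∀ v, (G.neighborSet v).Finite) (v : V) :
    ∀ r, {u | G.dist u v ≤ r}.Finite
  | 0 => by
    refine (Set.finite_singleton v).subset (fun u hu => ?_)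
    exact hc.dist_eq_zero_iff.1 (Nat.le_zero.1 hu)
  | r + 1 => by
    have ih := ball_finite hc hl v r
    refine (ih.union (ih.biUnion (fun w _ => hl w))).subset (fun u hu => ?_)
    obtain ⟨p, hp⟩ := hc.exists_walk_length_eq_dist u v
    cases p with
    | nil => left; simp
    | cons h q =>
      right
      simp only [Set.mem_iUnion]
      refine ⟨_, ?_, h.symm⟩
      have := dist_le q
      simp only [Walk.length_cons] at hp
      simp only [Set.mem_ofPred_eq] at hu ⊢
      omega

theorem iso_le (hc : G.Connected) (φ : G ≃g G) (u v : V) : G.dist (φ u) (φ v) ≤ G.dist u v := by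
  obtain ⟨p, hp⟩ := hc.exists_walk_length_eq_dist u v
  have := dist_le (p.map φ.toHom)
  rw [Walk.length_map, hp] at this
  exact this

theorem iso_dist (hc : G.Connected) (φ : G ≃g G) (u v : V) :
    G.dist (φ u) (φ v) = G.dist u v := by
  refine le_antisymm (iso_le hc φ u v) ?_
  have := iso_le hc φ.symm (φ u) (φ v)
  simpa using this

theorem ball_ncard (hc : G.Connected) (ht : ∀ u v, ∃ φ : G ≃g G, φ u = v) (u v : V) (r : ℕ) :
    {x | G.dist x u ≤ r}.ncard = {x | G.dist x v ≤ r}.ncard := by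
  obtain ⟨φ, rfl⟩ := ht u v
  rw [← Set.ncard_image_of_injective _ φ.injective]
  congr 1
  ext y
  constructor
  · rintro ⟨x, hx, rfl⟩
    simpa [iso_dist hc φ] using hx
  · intro hy
    refine ⟨φ.symm y, ?_, by simp⟩
    have := iso_dist hc φ (φ.symm y) u
    simp only [RelIso.apply_symm_apply] at this
    simp only [Set.mem_ofPred_eq] at hy ⊢
    omega

theorem long_geod [Infinite V] (hc : G.Connected) (hl : ∀ v, (G.neighborSet v).Finite)
    (ht : ∀ u v, ∃ φ : G ≃g G, φ u = v) (x : V) (R : ℕ) :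
    ∃ (a b : V) (p : G.Walk a b), p.length = G.dist a b ∧ x ∈ p.support ∧
      R ≤ G.dist a x ∧ R ≤ G.dist x b := by
  obtain ⟨y, hy⟩ := (ball_finite hc hl x (2 * R)).exists_notMem
  simp only [Set.mem_ofPred_eq, not_le] at hy
  obtain ⟨p, hp⟩ := hc.exists_walk_length_eq_dist y x
  have h1 := getVert_dist hc p hp R (by omega)
  obtain ⟨φ, hφ⟩ := ht (p.getVert R) x
  refine ⟨φ y, φ x, p.map φ.toHom, ?_, ?_, ?_, ?_⟩
  · rw [Walk.length_map, hp, iso_dist hc]
  · rw [Walk.support_map]
    exact List.mem_map.2 ⟨_, p.getVert_mem_support R, hφ⟩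
  · have := iso_dist hc φ y (p.getVert R)
    rw [hφ] at this
    omega
  · have := iso_dist hc φ (p.getVert R) x
    rw [hφ] at this
    omega

theorem main [Infinite V] (hc : G.Connected) (hl : ∀ v, (G.neighborSet v).Finite)
    (ht : ∀ u v, ∃ φ : G ≃g G, φ u = v) (δ : ℕ)
    (hδ : ∀ (x y z : V) (p : G.Walk x y) (q : G.Walk y z) (s : G.Walk x z),
      p.length = G.dist x y → q.length = G.dist y z → s.length = G.dist x z →
        ∀ a ∈ s.support, ∃ b, (b ∈ p.support ∨ b ∈ q.support) ∧ G.dist a b ≤ δ)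
    (n r : ℕ) (T : Finset V) (hn : n ≤ T.card)
    (hsep : ∀ a ∈ T, ∀ b ∈ T, a ≠ b → 2 * (r + δ) + 2 * δ < G.dist a b)
    (hI : {v | v ∈ T ∧ {u | ∀ v' ∈ T, G.dist u v ≤ G.dist u v'}.Infinite}.ncard < n) (o : V) :
    {u | G.dist u o ≤ r}.ncard ≤ n * ((r + 2 * δ + 1) * {u | G.dist u o ≤ 2 * δ}.ncard) := by
  set cell : V → Set V := fun v => {u | ∀ v' ∈ T, G.dist u v ≤ G.dist u v'} with hcell
  set I : Finset V := T.filter (fun v => (cell v).Infinite) with hIdef
  have hIc : I.card < n := by
    rw [← Set.ncard_coe_finset]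
    convert hI using 2
    ext v; simp [hIdef, hcell]
  obtain ⟨v, hvT, hvI⟩ : ∃ v ∈ T, v ∉ I := by
    by_contra h
    push Not at h
    have := Finset.card_le_card (show T ⊆ I from h)
    omega
  have hF : (⋃ t ∈ {t | t ∈ T ∧ (cell t).Finite}, cell t).Finite :=
    (T.finite_toSet.subset (fun t ht => ht.1)).biUnion (fun t ht => ht.2)
  obtain ⟨R0, hR0⟩ := (hF.image (fun u => G.dist v u)).bddAbove
  choose γ hγ using fun w => hc.exists_walk_length_eq_dist v w
  have key : ∀ a, R0 < G.dist v a → ∀ g : G.Walk v a, g.length = G.dist v a →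
      ∀ y ∈ g.support, G.dist v y ≤ r + δ → ∃ w ∈ I, ∃ z ∈ (γ w).support, G.dist y z ≤ δ := by
    intro a ha g hg y hy hyr
    obtain ⟨w, hwT, hw⟩ := T.exists_min_image (fun t => G.dist a t) ⟨v, hvT⟩
    have hwI : w ∈ I := by
      refine Finset.mem_filter.2 ⟨hwT, fun hfin => ?_⟩
      have : G.dist v a ≤ R0 := hR0 ⟨a, Set.mem_biUnion (x := w) ⟨hwT, hfin⟩ hw, rfl⟩
      omega
    have hne : v ≠ w := fun e => hvI (e ▸ hwI)
    obtain ⟨q, hq⟩ := hc.exists_walk_length_eq_dist w a
    obtain ⟨z, hz | hz, hd⟩ := hδ v w a (γ w) q g (hγ w) hq hg y hy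
    · exact ⟨w, hwI, z, hz, hd⟩
    · exfalso
      have h1 := split hc q hq hz
      have h2 := split hc g hg hy
      have h3 := hw v hvT
      have h4 := hsep v hvT w hwT hne
      have h5 := hc.dist_triangle (u := y) (v := z) (w := a)
      have h6 := hc.dist_triangle (u := v) (v := y) (w := w)
      have h7 := hc.dist_triangle (u := y) (v := z) (w := w)
      have h8 : G.dist z w = G.dist w z := dist_comm
      have h9 : G.dist a w = G.dist w a := dist_comm
      have h10 : G.dist a v = G.dist v a := dist_comm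
      omega
  let B : V → ℕ → Finset V := fun c s => (ball_finite hc hl c s).toFinset
  have hB : ∀ c s, (B c s).card = {u | G.dist u o ≤ s}.ncard := by
    intro c s
    rw [← ball_ncard hc ht c o s, Set.ncard_eq_toFinset_card _ (ball_finite hc hl c s)]
  have hsub : B v r ⊆ I.biUnion (fun w => (Finset.range (r + 2 * δ + 1)).biUnion
      (fun i => B ((γ w).getVert i) (2 * δ))) := by
    intro x hx
    have hx' : G.dist x v ≤ r := by simpa [B] using hx
    obtain ⟨a, b, p, hp, hxp, ha, hb⟩ := long_geod hc hl ht x (R0 + r + 1)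
    obtain ⟨g1, hg1⟩ := hc.exists_walk_length_eq_dist v a
    obtain ⟨g2, hg2⟩ := hc.exists_walk_length_eq_dist v b
    have e1 : G.dist v x = G.dist x v := dist_comm
    have e2 : G.dist a v = G.dist v a := dist_comm
    obtain ⟨y, hy, hd⟩ := hδ a v b g1.reverse g2 p (by rw [Walk.length_reverse, hg1, e2]) hg2 hp
      x hxp
    have t1 := hc.dist_triangle (u := v) (v := x) (w := y)
    have t2 := hc.dist_triangle (u := a) (v := v) (w := x)
    have t3 := hc.dist_triangle (u := x) (v := v) (w := b)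
    obtain ⟨w, hwI, z, hz, hyz⟩ : ∃ w ∈ I, ∃ z ∈ (γ w).support, G.dist y z ≤ δ := by
      rcases hy with hy | hy
      · exact key a (by omega) g1 hg1 y (by simpa using hy) (by omega)
      · exact key b (by omega) g2 hg2 y hy (by omega)
    obtain ⟨i, rfl, hi⟩ := Walk.mem_support_iff_exists_getVert.1 hz
    have h1 := (getVert_dist hc (γ w) (hγ w) i hi).1
    have t4 := hc.dist_triangle (u := v) (v := y) (w := (γ w).getVert i)
    have t5 := hc.dist_triangle (u := x) (v := y) (w := (γ w).getVert i)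
    refine Finset.mem_biUnion.2 ⟨w, hwI, Finset.mem_biUnion.2 ⟨i, Finset.mem_range.2 (by omega), ?_⟩⟩
    simp only [B, Set.Finite.mem_toFinset, Set.mem_ofPred_eq]
    omega
  rw [← hB v r]
  refine (Finset.card_le_card hsub).trans ((Finset.card_biUnion_le_card_mul _ _
    ((r + 2 * δ + 1) * {u | G.dist u o ≤ 2 * δ}.ncard) (fun w _ => ?_)).trans
    (Nat.mul_le_mul_right _ hIc.le))
  refine (Finset.card_biUnion_le_card_mul _ _ ({u | G.dist u o ≤ 2 * δ}.ncard)
    (fun i _ => (hB _ _).le)).trans ?_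
  simp

end H16.Surv
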