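import Pool.Agent.H16.Poly
import Pool.Agent.H16.GeoConf2

namespace Pool.Agent.H16.Astral.Third

open Set Pool.Agent.H16.GeoConf

def PQ : Fin 21 → ℚ × ℚ := ![(0,0), (0,-3/11), (0,-3/7), (1/2,-1/2), (1/3,-1/3), (1/4,-1/4), (-1/4,-1/4), (-1/3,-1/3), (-1/2,-1/2), (2,-1), (2/5,-1/5), (-2/5,-1/5), (-2,-1), (-3,0), (3,0), (4,-1), (4/3,-1/3), (4/5,-1/5), (-4/5,-1/5), (-4/3,-1/3), (-4,-1)]

def LQ : Fin 21 → ℚ × ℚ × ℚ := ![(0,3,-1), (0,-1,1), (0,5,-1), (1,-13,3), (1,-4,0), (1,5,-3), (1,-11,3), (1,7,-3), (1,-1,0), (1,-3,1), (1,3,-1), (1,1,0), (1,-7,3), (1,11,-3), (1,-5,3), (1,4,0), (1,13,-3), (2,-11,3), (2,7,-3), (2,-7,3), (2,11,-3)]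

def inc (p l : Fin 21) : Prop := iq (PQ p) (LQ l)

instance : ∀ p l, Decidable (inc p l) := fun p l => by unfold inc; infer_instance

theorem ncard_eq {P : Fin 21 → Prop} [DecidablePred P] :
    {p | P p}.ncard = (Finset.univ.filter P).card := by
  rw [← Set.ncard_coe_finset]; congr 1; ext; simp

theorem c1 : ∀ l, (Finset.univ.filter fun p => inc p l).card = 4 := by decide +kernel
theorem c2 : ∀ p, (Finset.univ.filter fun l => inc p l).card = 4 := by decide +kernel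
theorem c3 : ∀ p l, inc p l → ∀ q, inc q l → p ≠ q → ∀ l', inc p l' → inc q l' → l = l' := by
  decide +kernel
theorem c4 : ∀ l l', (∀ p, inc p l ↔ inc p l') → l = l' := by decide +kernel
theorem q1 : ∀ p q, PQ p = PQ q → p = q := by decide +kernel
theorem q3 : ∀ l, (LQ l).1 ≠ 0 ∨ (LQ l).2.1 ≠ 0 := by decide +kernel

def conf : Config4 21 where
  inc := inc
  line4 l := by rw [ncard_eq]; exact c1 l
  point4 p := by rw [ncard_eq]; exact c2 p
  atMostOne p q l l' h a b c d := c3 p l a q b h l' c d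

def realR : Realization ℝ conf where
  pt p := rp (PQ p)
  ln l := rl (LQ l)
  pt_inj i j h := by
    simp only [rp, Prod.mk.injEq, Rat.cast_inj] at h
    exact q1 i j (Prod.ext h.1 h.2)
  ln_inj i j h := c4 i j fun p => by
    unfold inc
    rw [← mem_rl, ← mem_rl]
    simp only at h
    rw [h]
  isLine l := ⟨_, _, _, by exact_mod_cast q3 l, rfl⟩
  mem_iff p l := mem_rl _ _

def mir : Equiv.Perm (ℝ × ℝ) where
  toFun p := (-p.1, p.2)
  invFun p := (-p.1, p.2)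
  left_inv p := by simp
  right_inv p := by simp

theorem m1 : ∀ i, ∃ j, PQ j = (-(PQ i).1, (PQ i).2) := by decide +kernel
theorem m2 : ∀ i, ∃ j, LQ j = (-(LQ i).1, (LQ i).2) ∨
    LQ j = ((LQ i).1, -(LQ i).2.1, -(LQ i).2.2) := by decide +kernel

theorem mir_mir (p) : mir (mir p) = p := by simp [mir]

theorem mp (i) : ∃ j, mir (realR.pt i) = realR.pt j := by
  obtain ⟨j, h⟩ := m1 i
  exact ⟨j, by simp [realR, rp, mir, h]⟩

theorem ml (i) : ∃ j, mir '' realR.ln i = realR.ln j := by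
  obtain ⟨j, h⟩ := m2 i
  refine ⟨j, ?_⟩
  ext p
  have : p ∈ mir '' realR.ln i ↔ mir p ∈ realR.ln i :=
    ⟨by rintro ⟨q, hq, rfl⟩; rwa [mir_mir], fun h => ⟨_, h, mir_mir p⟩⟩
  rw [this]
  rcases h with h | h <;> simp only [realR, rl, mir, h, mem_ofPred_eq, Equiv.coe_fn_mk] <;>
    push_cast <;> constructor <;> intro e <;> linarith

theorem mir_mem : mir ∈ symGroup realR := by
  refine ⟨fun p q => by simp only [d2, mir, Equiv.coe_fn_mk]; ring, ?_, ?_⟩
  · ext p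
    constructor
    · rintro ⟨_, ⟨i, rfl⟩, rfl⟩
      obtain ⟨j, h⟩ := mp i
      exact ⟨j, h.symm⟩
    · rintro ⟨i, rfl⟩
      obtain ⟨j, h⟩ := mp i
      exact ⟨_, ⟨j, rfl⟩, by rw [← h, mir_mir]⟩
  · ext s
    constructor
    · rintro ⟨_, ⟨i, rfl⟩, rfl⟩
      obtain ⟨j, h⟩ := ml i
      exact ⟨j, h.symm⟩
    · rintro ⟨i, rfl⟩
      obtain ⟨j, h⟩ := ml i
      refine ⟨_, ⟨j, rfl⟩, ?_⟩
      simp only [← h, image_image, mir_mir, image_id']

theorem mir_ne : mir ≠ 1 := by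
  intro h
  have := congrArg (fun f : Equiv.Perm (ℝ × ℝ) => (f (1, 0)).1) h
  simp [mir] at this
  linarith

def nc (p q : Fin 21) : Prop := ∀ m, ¬ (inc p m ∧ inc q m)

instance : ∀ p l, Decidable (nc p l) := fun p l => by unfold nc; infer_instance

def bad (p : Fin 21) : Prop := ∃ l a, inc a l ∧ nc p a ∧ ∃ b, inc b l ∧ nc p b ∧ a ≠ b ∧
  ∃ c, inc c l ∧ nc p c ∧ a ≠ c ∧ b ≠ c

instance : ∀ p, Decidable (bad p) := fun p => by unfold bad; infer_instance

theorem bad_iff : ∀ p, bad p ↔ p ≠ 0 := by decide +kernel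

theorem fix (σ τ : Fin 21 → Fin 21) (hσ : Function.Surjective σ) (hτ : Function.Surjective τ)
    (h : ∀ p l, inc (σ p) (τ l) ↔ inc p l) : σ 0 = 0 := by
  by_contra e
  obtain ⟨l, a, a1, a2, b, b1, b2, ab, c, c1, c2, ac, bc⟩ := (bad_iff _).2 e
  obtain ⟨l, rfl⟩ := hτ l
  obtain ⟨a, rfl⟩ := hσ a
  obtain ⟨b, rfl⟩ := hσ b
  obtain ⟨c, rfl⟩ := hσ c
  have k : ∀ x, nc (σ 0) (σ x) → nc 0 x := fun x hx m hm =>
    hx (τ m) ⟨(h _ _).2 hm.1, (h _ _).2 hm.2⟩
  exact (bad_iff 0).1 ⟨l, a, (h _ _).1 a1, k a a2, b, (h _ _).1 b1, k b b2,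
    fun e => ab (by rw [e]), c, (h _ _).1 c1, k c c2, fun e => ac (by rw [e]),
    fun e => bc (by rw [e])⟩ rfl

theorem rot_inj (c θ) : Function.Injective (rot c θ) := by
  intro p q h
  simp only [rot, Prod.mk.injEq] at h
  obtain ⟨a, b⟩ := h
  have t := Real.cos_sq_add_sin_sq θ
  ext
  · linear_combination Real.cos θ * a + Real.sin θ * b - (p.1 - q.1) * t
  · linear_combination Real.cos θ * b - Real.sin θ * a - (p.2 - q.2) * t

theorem not_poly (R : Realization ℝ conf) : ¬ IsPolycyclic R := by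
  rintro ⟨m, hm, c, h1, h2, h3, -⟩
  set ρ := rot c (2 * Real.pi / m) with hρ
  have e1 : ∀ p, ∃ q, R.pt q = ρ (R.pt p) := fun p => by
    have : ρ (R.pt p) ∈ range R.pt := by rw [← h1]; exact ⟨_, ⟨p, rfl⟩, rfl⟩
    exact this
  have e2 : ∀ p, ∃ q, R.ln q = ρ '' R.ln p := fun p => by
    have : ρ '' R.ln p ∈ range R.ln := by rw [← h2]; exact ⟨_, ⟨p, rfl⟩, rfl⟩
    exact this
  choose σ hσ using e1
  choose τ hτ using e2
  have s1 : Function.Surjective σ := fun q => by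
    have : R.pt q ∈ ρ '' range R.pt := by rw [h1]; exact ⟨q, rfl⟩
    obtain ⟨_, ⟨p, rfl⟩, e⟩ := this
    exact ⟨p, R.pt_inj (by rw [hσ, e])⟩
  have s2 : Function.Surjective τ := fun q => by
    have : R.ln q ∈ (fun s => ρ '' s) '' range R.ln := by rw [h2]; exact ⟨q, rfl⟩
    obtain ⟨_, ⟨p, rfl⟩, e⟩ := this
    exact ⟨p, R.ln_inj (by rw [hτ]; exact e)⟩
  have f := fix σ τ s1 s2 fun p l => by
    have a := R.mem_iff (σ p) (τ l)
    have b := R.mem_iff p l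
    rw [hσ, hτ, (rot_inj _ _).mem_set_image] at a
    exact a.symm.trans b
  have g : ρ (R.pt 0) = R.pt 0 := by rw [← hσ, f]
  have : (range fun j : ℕ => ρ^[j] (R.pt 0)) = {R.pt 0} := by
    ext x
    simp only [mem_range, Function.iterate_fixed g, mem_singleton_iff, exists_const, eq_comm]
  have h := h3 0
  rw [this, ncard_singleton] at h
  omega

theorem main : ∃ C : Config4 21, (∃ R : Realization ℝ C, ∃ f ∈ symGroup R, f ≠ 1) ∧
    ∀ R : Realization ℝ C, ¬ IsPolycyclic R :=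
  ⟨conf, ⟨realR, mir, mir_mem, mir_ne⟩, not_poly⟩

end Pool.Agent.H16.Astral.Third
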