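import Mathlib

/-! Two rigid patterns for thresholds `-1, 1, t` (case trees found by search). -/

set_option autoImplicit false

namespace Pool.Agent.H16.Thr

/-- the sum `v` gives an edge -/
def In (t v : ℝ) : Prop := (-1 ≤ v ∧ v < 1) ∨ t ≤ v

theorem eM {u t v w : ℝ} (h : In u v ↔ In t w) (h1 : -1 ≤ v) (h2 : v < 1) :
    (-1 ≤ w ∧ w < 1) ∨ t ≤ w := h.1 (Or.inl ⟨h1, h2⟩)

theorem eH {u t v w : ℝ} (h : In u v ↔ In t w) (h1 : u ≤ v) :
    (-1 ≤ w ∧ w < 1) ∨ t ≤ w := h.1 (Or.inr h1)

theorem nn {u t v w : ℝ} (h : In u v ↔ In t w) (h1 : v < -1 ∨ 1 ≤ v) (h2 : v < u) :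
    w < -1 ∨ (1 ≤ w ∧ w < t) := by
  have h3 : ¬ In t w := fun h4 => by
    rcases h.2 h4 with ⟨a, b⟩ | a <;> rcases h1 with c | c <;> linarith
  simp only [In, not_or, not_and, not_lt, not_le] at h3
  rcases lt_or_ge w (-1) with a | a
  · exact Or.inl a
  · exact Or.inr ⟨h3.1 a, h3.2⟩

theorem gadG {t : ℝ} (ht : 1 < t) {rm4 rm1 rp0 rp3 rp6 rp7 : ℝ}
    {sm2 sm5 sp0 sp1 sp5 sp7 ss : ℝ}
    (h_m1_s : (-1 ≤ rm1 + ss ∧ rm1 + ss < 1) ∨ t ≤ rm1 + ss)
    (h_m1_m2 : rm1 + sm2 < -1 ∨ (1 ≤ rm1 + sm2 ∧ rm1 + sm2 < t))
    (h_m1_p0 : (-1 ≤ rm1 + sp0 ∧ rm1 + sp0 < 1) ∨ t ≤ rm1 + sp0)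
    (h_m1_p1 : (-1 ≤ rm1 + sp1 ∧ rm1 + sp1 < 1) ∨ t ≤ rm1 + sp1)
    (h_m1_p5 : rm1 + sp5 < -1 ∨ (1 ≤ rm1 + sp5 ∧ rm1 + sp5 < t))
    (h_m1_p7 : rm1 + sp7 < -1 ∨ (1 ≤ rm1 + sp7 ∧ rm1 + sp7 < t))
    (h_m4_s : (-1 ≤ rm4 + ss ∧ rm4 + ss < 1) ∨ t ≤ rm4 + ss)
    (h_m4_p0 : rm4 + sp0 < -1 ∨ (1 ≤ rm4 + sp0 ∧ rm4 + sp0 < t))
    (h_m4_p1 : rm4 + sp1 < -1 ∨ (1 ≤ rm4 + sp1 ∧ rm4 + sp1 < t))
    (h_m4_p7 : rm4 + sp7 < -1 ∨ (1 ≤ rm4 + sp7 ∧ rm4 + sp7 < t))
    (h_p0_s : rp0 + ss < -1 ∨ (1 ≤ rp0 + ss ∧ rp0 + ss < t))
    (h_p0_m2 : (-1 ≤ rp0 + sm2 ∧ rp0 + sm2 < 1) ∨ t ≤ rp0 + sm2)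
    (h_p0_m5 : rp0 + sm5 < -1 ∨ (1 ≤ rp0 + sm5 ∧ rp0 + sm5 < t))
    (h_p0_p0 : (-1 ≤ rp0 + sp0 ∧ rp0 + sp0 < 1) ∨ t ≤ rp0 + sp0)
    (h_p0_p1 : (-1 ≤ rp0 + sp1 ∧ rp0 + sp1 < 1) ∨ t ≤ rp0 + sp1)
    (h_p0_p5 : rp0 + sp5 < -1 ∨ (1 ≤ rp0 + sp5 ∧ rp0 + sp5 < t))
    (h_p0_p7 : (-1 ≤ rp0 + sp7 ∧ rp0 + sp7 < 1) ∨ t ≤ rp0 + sp7)
    (h_p3_m2 : (-1 ≤ rp3 + sm2 ∧ rp3 + sm2 < 1) ∨ t ≤ rp3 + sm2)
    (h_p3_m5 : (-1 ≤ rp3 + sm5 ∧ rp3 + sm5 < 1) ∨ t ≤ rp3 + sm5)
    (h_p3_p1 : rp3 + sp1 < -1 ∨ (1 ≤ rp3 + sp1 ∧ rp3 + sp1 < t))
    (h_p3_p5 : (-1 ≤ rp3 + sp5 ∧ rp3 + sp5 < 1) ∨ t ≤ rp3 + sp5)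
    (h_p6_s : (-1 ≤ rp6 + ss ∧ rp6 + ss < 1) ∨ t ≤ rp6 + ss)
    (h_p6_m2 : rp6 + sm2 < -1 ∨ (1 ≤ rp6 + sm2 ∧ rp6 + sm2 < t))
    (h_p6_m5 : (-1 ≤ rp6 + sm5 ∧ rp6 + sm5 < 1) ∨ t ≤ rp6 + sm5)
    (h_p6_p0 : rp6 + sp0 < -1 ∨ (1 ≤ rp6 + sp0 ∧ rp6 + sp0 < t))
    (h_p6_p1 : (-1 ≤ rp6 + sp1 ∧ rp6 + sp1 < 1) ∨ t ≤ rp6 + sp1)
    (h_p6_p7 : (-1 ≤ rp6 + sp7 ∧ rp6 + sp7 < 1) ∨ t ≤ rp6 + sp7)
    (h_p7_s : (-1 ≤ rp7 + ss ∧ rp7 + ss < 1) ∨ t ≤ rp7 + ss)
    (h_p7_m5 : rp7 + sm5 < -1 ∨ (1 ≤ rp7 + sm5 ∧ rp7 + sm5 < t))
    (h_p7_p0 : (-1 ≤ rp7 + sp0 ∧ rp7 + sp0 < 1) ∨ t ≤ rp7 + sp0)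
    (h_p7_p5 : (-1 ≤ rp7 + sp5 ∧ rp7 + sp5 < 1) ∨ t ≤ rp7 + sp5)
    (h_p7_p7 : (-1 ≤ rp7 + sp7 ∧ rp7 + sp7 < 1) ∨ t ≤ rp7 + sp7) :
    1 ≤ rp0 + ss := by
  rcases h_p0_s with h_p0_su | ⟨h_p0_sl, h_p0_su⟩
  swap
  · exact h_p0_sl
  exfalso
  rcases h_p0_p7 with ⟨h_p0_p7l, h_p0_p7u⟩ | h_p0_p7l
  · rcases h_m4_p7 with h_m4_p7u | ⟨h_m4_p7l, h_m4_p7u⟩
    · rcases h_m4_s with ⟨h_m4_sl, h_m4_su⟩ | h_m4_sl
      · linarith only [ht, h_m4_p7u, h_p0_p7l, h_m4_sl, h_p0_su]
      · linarith only [ht, h_m4_p7u, h_p0_p7l, h_m4_sl, h_p0_su]
    · rcases h_p0_p0 with ⟨h_p0_p0l, h_p0_p0u⟩ | h_p0_p0l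
      · rcases h_m4_p0 with h_m4_p0u | ⟨h_m4_p0l, h_m4_p0u⟩
        · linarith only [ht, h_m4_p0u, h_p0_p0l, h_m4_p7l, h_p0_p7u]
        · rcases h_m4_p1 with h_m4_p1u | ⟨h_m4_p1l, h_m4_p1u⟩
          · rcases h_p0_p1 with ⟨h_p0_p1l, h_p0_p1u⟩ | h_p0_p1l
            · linarith only [ht, h_m4_p1u, h_p0_p1l, h_m4_p0l, h_p0_p0u]
            · linarith only [ht, h_m4_p1u, h_p0_p1l, h_m4_p0l, h_p0_p0u]
          · rcases h_p0_p1 with ⟨h_p0_p1l, h_p0_p1u⟩ | h_p0_p1l
            · rcases h_p6_p0 with h_p6_p0u | ⟨h_p6_p0l, h_p6_p0u⟩
              · rcases h_p6_s with ⟨h_p6_sl, h_p6_su⟩ | h_p6_sl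
                · linarith only [ht, h_p0_su, h_p6_sl, h_p0_p0l, h_p6_p0u]
                · linarith only [ht, h_p0_su, h_p6_sl, h_p0_p0l, h_p6_p0u]
              · rcases h_p0_m2 with ⟨h_p0_m2l, h_p0_m2u⟩ | h_p0_m2l
                · rcases h_p6_m2 with h_p6_m2u | ⟨h_p6_m2l, h_p6_m2u⟩
                  · linarith only [ht, h_p0_p0u, h_p6_p0l, h_p0_m2l, h_p6_m2u]
                  · rcases h_m1_m2 with h_m1_m2u | ⟨h_m1_m2l, h_m1_m2u⟩
                    · rcases h_m1_s with ⟨h_m1_sl, h_m1_su⟩ | h_m1_sl
                      · linarith only [ht, h_m1_m2u, h_p0_m2l, h_m1_sl, h_p0_su]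
                      · linarith only [ht, h_m1_m2u, h_p0_m2l, h_m1_sl, h_p0_su]
                    · rcases h_m1_p7 with h_m1_p7u | ⟨h_m1_p7l, h_m1_p7u⟩
                      · linarith only [ht, h_m1_p7u, h_p0_p7l, h_m1_m2l, h_p0_m2u]
                      · rcases h_p3_m2 with ⟨h_p3_m2l, h_p3_m2u⟩ | h_p3_m2l
                        · rcases h_m1_p5 with h_m1_p5u | ⟨h_m1_p5l, h_m1_p5u⟩
                          · rcases h_p3_p5 with ⟨h_p3_p5l, h_p3_p5u⟩ | h_p3_p5l
                            · linarith only [ht, h_m1_p5u, h_p3_p5l, h_m1_m2l, h_p3_m2u]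
                            · linarith only [ht, h_m1_p5u, h_p3_p5l, h_m1_m2l, h_p3_m2u]
                          · rcases h_p3_p5 with ⟨h_p3_p5l, h_p3_p5u⟩ | h_p3_p5l
                            · rcases h_p0_p5 with h_p0_p5u | ⟨h_p0_p5l, h_p0_p5u⟩
                              · rcases h_p3_p1 with h_p3_p1u | ⟨h_p3_p1l, h_p3_p1u⟩
                                · linarith only [ht, h_p0_p5u, h_p3_p5l, h_p0_p1l, h_p3_p1u]
                                · rcases h_m1_p1 with ⟨h_m1_p1l, h_m1_p1u⟩ | h_m1_p1l
                                  · linarith only [ht, h_m1_p1u, h_p3_p1l, h_m1_m2l, h_p3_m2u]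
                                  · rcases h_m1_p0 with ⟨h_m1_p0l, h_m1_p0u⟩ | h_m1_p0l
                                    · linarith only [ht, h_m4_p1u, h_m1_p1l, h_m4_p0l, h_m1_p0u]
                                    · rcases h_p6_p7 with ⟨h_p6_p7l, h_p6_p7u⟩ | h_p6_p7l
                                      · rcases h_p6_p1 with ⟨h_p6_p1l, h_p6_p1u⟩ | h_p6_p1l
                                        · linarith only [ht, h_p3_m2u, h_p6_m2l, h_p3_p1l, h_p6_p1u]
                                        · linarith only [ht, h_m4_p1u, h_p6_p1l, h_m4_p7l, h_p6_p7u]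
                                      · linarith only [ht, h_m1_p7u, h_p6_p7l, h_m1_p0l, h_p6_p0u]
                              · rcases h_p3_p1 with h_p3_p1u | ⟨h_p3_p1l, h_p3_p1u⟩
                                · rcases h_p0_m5 with h_p0_m5u | ⟨h_p0_m5l, h_p0_m5u⟩
                                  · rcases h_p3_m5 with ⟨h_p3_m5l, h_p3_m5u⟩ | h_p3_m5l
                                    · linarith only [ht, h_p0_m5u, h_p3_m5l, h_p0_p1l, h_p3_p1u]
                                    · linarith only [ht, h_p0_m5u, h_p3_m5l, h_p0_p1l, h_p3_p1u]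
                                  · rcases h_p6_m5 with ⟨h_p6_m5l, h_p6_m5u⟩ | h_p6_m5l
                                    · linarith only [ht, h_p0_m2u, h_p6_m2l, h_p0_m5l, h_p6_m5u]
                                    · rcases h_p7_s with ⟨h_p7_sl, h_p7_su⟩ | h_p7_sl
                                      · rcases h_p7_p5 with ⟨h_p7_p5l, h_p7_p5u⟩ | h_p7_p5l
                                        · linarith only [ht, h_p0_su, h_p7_sl, h_p0_p5l, h_p7_p5u]
                                        · rcases h_p7_m5 with h_p7_m5u | ⟨h_p7_m5l, h_p7_m5u⟩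
                                          · linarith only [ht, h_p0_p5u, h_p7_p5l, h_p0_m5l, h_p7_m5u]
                                          · rcases h_p7_p0 with ⟨h_p7_p0l, h_p7_p0u⟩ | h_p7_p0l
                                            · rcases h_p7_p7 with ⟨h_p7_p7l, h_p7_p7u⟩ | h_p7_p7l
                                              · linarith only [ht, h_m1_p5u, h_p7_p5l, h_m1_p7l, h_p7_p7u]
                                              · linarith only [ht, h_m4_p7u, h_p7_p7l, h_m4_p0l, h_p7_p0u]
                                            · linarith only [ht, h_p6_p0u, h_p7_p0l, h_p6_m5l, h_p7_m5u]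
                                      · rcases h_p7_p5 with ⟨h_p7_p5l, h_p7_p5u⟩ | h_p7_p5l
                                        · linarith only [ht, h_p0_su, h_p7_sl, h_p0_p5l, h_p7_p5u]
                                        · rcases h_p7_m5 with h_p7_m5u | ⟨h_p7_m5l, h_p7_m5u⟩
                                          · linarith only [ht, h_p0_p5u, h_p7_p5l, h_p0_m5l, h_p7_m5u]
                                          · rcases h_p7_p0 with ⟨h_p7_p0l, h_p7_p0u⟩ | h_p7_p0l
                                            · rcases h_p7_p7 with ⟨h_p7_p7l, h_p7_p7u⟩ | h_p7_p7l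
                                              · linarith only [ht, h_m1_p5u, h_p7_p5l, h_m1_p7l, h_p7_p7u]
                                              · linarith only [ht, h_m4_p7u, h_p7_p7l, h_m4_p0l, h_p7_p0u]
                                            · linarith only [ht, h_p6_p0u, h_p7_p0l, h_p6_m5l, h_p7_m5u]
                                · linarith only [ht, h_p0_p1u, h_p3_p1l, h_p0_p5l, h_p3_p5u]
                            · linarith only [ht, h_m1_p5u, h_p3_p5l, h_m1_m2l, h_p3_m2u]
                        · rcases h_p3_p1 with h_p3_p1u | ⟨h_p3_p1l, h_p3_p1u⟩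
                          · linarith only [ht, h_p0_m2u, h_p3_m2l, h_p0_p1l, h_p3_p1u]
                          · rcases h_m1_p1 with ⟨h_m1_p1l, h_m1_p1u⟩ | h_m1_p1l
                            · rcases h_m1_p0 with ⟨h_m1_p0l, h_m1_p0u⟩ | h_m1_p0l
                              · rcases h_p6_p7 with ⟨h_p6_p7l, h_p6_p7u⟩ | h_p6_p7l
                                · linarith only [ht, h_m1_p0u, h_p6_p0l, h_m1_p7l, h_p6_p7u]
                                · rcases h_p6_p1 with ⟨h_p6_p1l, h_p6_p1u⟩ | h_p6_p1l
                                  · linarith only [ht, h_m4_p7u, h_p6_p7l, h_m4_p1l, h_p6_p1u]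
                                  · linarith only [ht, h_p3_p1u, h_p6_p1l, h_p3_m2l, h_p6_m2u]
                              · linarith only [ht, h_m4_p0u, h_m1_p0l, h_m4_p1l, h_m1_p1u]
                            · linarith only [ht, h_m1_m2u, h_p3_m2l, h_m1_p1l, h_p3_p1u]
                · rcases h_p6_m2 with h_p6_m2u | ⟨h_p6_m2l, h_p6_m2u⟩
                  · linarith only [ht, h_p0_p0u, h_p6_p0l, h_p0_m2l, h_p6_m2u]
                  · linarith only [ht, h_p0_p0u, h_p6_p0l, h_p0_m2l, h_p6_m2u]
            · linarith only [ht, h_m4_p1u, h_p0_p1l, h_m4_p0l, h_p0_p0u]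
      · rcases h_m4_p0 with h_m4_p0u | ⟨h_m4_p0l, h_m4_p0u⟩
        · linarith only [ht, h_m4_p0u, h_p0_p0l, h_m4_p7l, h_p0_p7u]
        · linarith only [ht, h_m4_p0u, h_p0_p0l, h_m4_p7l, h_p0_p7u]
  · rcases h_m1_p7 with h_m1_p7u | ⟨h_m1_p7l, h_m1_p7u⟩
    · rcases h_m1_s with ⟨h_m1_sl, h_m1_su⟩ | h_m1_sl
      · linarith only [ht, h_m1_p7u, h_p0_p7l, h_m1_sl, h_p0_su]
      · linarith only [ht, h_m1_p7u, h_p0_p7l, h_m1_sl, h_p0_su]
    · rcases h_m1_s with ⟨h_m1_sl, h_m1_su⟩ | h_m1_sl
      · linarith only [ht, h_m1_p7u, h_p0_p7l, h_m1_sl, h_p0_su]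
      · linarith only [ht, h_m1_p7u, h_p0_p7l, h_m1_sl, h_p0_su]

theorem locG {u t d : ℝ} (ht : 1 < t) (h1 : 3.55 < u) (h2 : u < 3.7) (h3 : 0 < d)
    (h4 : d < 0.1) (ρ σ : ℝ → ℝ) (H : ∀ i j : ℤ, |i| ≤ 60 → |j| ≤ 60 →
      (In u (i / 4 + j / 4) ↔ In t (ρ (i / 4) + σ (j / 4))))
    (K : ∀ i : ℤ, |i| ≤ 60 → (In u (i / 4 + (1 + d / 2)) ↔ In t (ρ (i / 4) + σ (1 + d / 2)))) :
    1 ≤ ρ ((0 : ℤ) / 4) + σ (1 + d / 2) :=
  gadG ht
    (eM (K (-2) (by decide)) (by push_cast; linarith)
      (by push_cast; linarith))
    (nn (H (-2) (-3) (by decide) (by decide)) (Or.inl (by push_cast; linarith))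
      (by push_cast; linarith))
    (eM (H (-2) (1) (by decide) (by decide)) (by push_cast; linarith)
      (by push_cast; linarith))
    (eM (H (-2) (3) (by decide) (by decide)) (by push_cast; linarith)
      (by push_cast; linarith))
    (nn (H (-2) (11) (by decide) (by decide)) (Or.inr (by push_cast; linarith))
      (by push_cast; linarith))
    (nn (H (-2) (15) (by decide) (by decide)) (Or.inr (by push_cast; linarith))
      (by push_cast; linarith))
    (eM (K (-8) (by decide)) (by push_cast; linarith)
      (by push_cast; linarith))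
    (nn (H (-8) (1) (by decide) (by decide)) (Or.inl (by push_cast; linarith))
      (by push_cast; linarith))
    (nn (H (-8) (3) (by decide) (by decide)) (Or.inl (by push_cast; linarith))
      (by push_cast; linarith))
    (nn (H (-8) (15) (by decide) (by decide)) (Or.inr (by push_cast; linarith))
      (by push_cast; linarith))
    (nn (K (0) (by decide)) (Or.inr (by push_cast; linarith))
      (by push_cast; linarith))
    (eM (H (0) (-3) (by decide) (by decide)) (by push_cast; linarith)
      (by push_cast; linarith))
    (nn (H (0) (-9) (by decide) (by decide)) (Or.inl (by push_cast; linarith))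
      (by push_cast; linarith))
    (eM (H (0) (1) (by decide) (by decide)) (by push_cast; linarith)
      (by push_cast; linarith))
    (eM (H (0) (3) (by decide) (by decide)) (by push_cast; linarith)
      (by push_cast; linarith))
    (nn (H (0) (11) (by decide) (by decide)) (Or.inr (by push_cast; linarith))
      (by push_cast; linarith))
    (eH (H (0) (15) (by decide) (by decide)) (by push_cast; linarith))
    (eM (H (6) (-3) (by decide) (by decide)) (by push_cast; linarith)
      (by push_cast; linarith))
    (eM (H (6) (-9) (by decide) (by decide)) (by push_cast; linarith)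
      (by push_cast; linarith))
    (nn (H (6) (3) (by decide) (by decide)) (Or.inr (by push_cast; linarith))
      (by push_cast; linarith))
    (eH (H (6) (11) (by decide) (by decide)) (by push_cast; linarith))
    (eH (K (12) (by decide)) (by push_cast; linarith))
    (nn (H (12) (-3) (by decide) (by decide)) (Or.inr (by push_cast; linarith))
      (by push_cast; linarith))
    (eM (H (12) (-9) (by decide) (by decide)) (by push_cast; linarith)
      (by push_cast; linarith))
    (nn (H (12) (1) (by decide) (by decide)) (Or.inr (by push_cast; linarith))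
      (by push_cast; linarith))
    (eH (H (12) (3) (by decide) (by decide)) (by push_cast; linarith))
    (eH (H (12) (15) (by decide) (by decide)) (by push_cast; linarith))
    (eH (K (14) (by decide)) (by push_cast; linarith))
    (nn (H (14) (-9) (by decide) (by decide)) (Or.inr (by push_cast; linarith))
      (by push_cast; linarith))
    (eH (H (14) (1) (by decide) (by decide)) (by push_cast; linarith))
    (eH (H (14) (11) (by decide) (by decide)) (by push_cast; linarith))
    (eH (H (14) (15) (by decide) (by decide)) (by push_cast; linarith))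

theorem gadL {t : ℝ} (ht : 1 < t) {rm6 rm2 rp0 rp2 rp3 rp6 rp8 rp10 : ℝ}
    {sm1 sm4 sm5 sm7 sp1 sp4 ss : ℝ}
    (h_m2_m1 : rm2 + sm1 < -1 ∨ (1 ≤ rm2 + sm1 ∧ rm2 + sm1 < t))
    (h_m2_p1 : (-1 ≤ rm2 + sp1 ∧ rm2 + sp1 < 1) ∨ t ≤ rm2 + sp1)
    (h_m2_p4 : rm2 + sp4 < -1 ∨ (1 ≤ rm2 + sp4 ∧ rm2 + sp4 < t))
    (h_m6_s : rm6 + ss < -1 ∨ (1 ≤ rm6 + ss ∧ rm6 + ss < t))
    (h_m6_m5 : rm6 + sm5 < -1 ∨ (1 ≤ rm6 + sm5 ∧ rm6 + sm5 < t))
    (h_m6_p1 : rm6 + sp1 < -1 ∨ (1 ≤ rm6 + sp1 ∧ rm6 + sp1 < t))
    (h_m6_p4 : (-1 ≤ rm6 + sp4 ∧ rm6 + sp4 < 1) ∨ t ≤ rm6 + sp4)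
    (h_p0_s : rp0 + ss < -1 ∨ (1 ≤ rp0 + ss ∧ rp0 + ss < t))
    (h_p0_m1 : (-1 ≤ rp0 + sm1 ∧ rp0 + sm1 < 1) ∨ t ≤ rp0 + sm1)
    (h_p0_m4 : rp0 + sm4 < -1 ∨ (1 ≤ rp0 + sm4 ∧ rp0 + sm4 < t))
    (h_p0_m7 : rp0 + sm7 < -1 ∨ (1 ≤ rp0 + sm7 ∧ rp0 + sm7 < t))
    (h_p0_p1 : (-1 ≤ rp0 + sp1 ∧ rp0 + sp1 < 1) ∨ t ≤ rp0 + sp1)
    (h_p0_p4 : rp0 + sp4 < -1 ∨ (1 ≤ rp0 + sp4 ∧ rp0 + sp4 < t))
    (h_p10_s : (-1 ≤ rp10 + ss ∧ rp10 + ss < 1) ∨ t ≤ rp10 + ss)
    (h_p10_m1 : (-1 ≤ rp10 + sm1 ∧ rp10 + sm1 < 1) ∨ t ≤ rp10 + sm1)
    (h_p10_m4 : rp10 + sm4 < -1 ∨ (1 ≤ rp10 + sm4 ∧ rp10 + sm4 < t))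
    (h_p10_m5 : rp10 + sm5 < -1 ∨ (1 ≤ rp10 + sm5 ∧ rp10 + sm5 < t))
    (h_p10_m7 : rp10 + sm7 < -1 ∨ (1 ≤ rp10 + sm7 ∧ rp10 + sm7 < t))
    (h_p10_p4 : (-1 ≤ rp10 + sp4 ∧ rp10 + sp4 < 1) ∨ t ≤ rp10 + sp4)
    (h_p2_s : (-1 ≤ rp2 + ss ∧ rp2 + ss < 1) ∨ t ≤ rp2 + ss)
    (h_p2_m1 : (-1 ≤ rp2 + sm1 ∧ rp2 + sm1 < 1) ∨ t ≤ rp2 + sm1)
    (h_p2_m4 : (-1 ≤ rp2 + sm4 ∧ rp2 + sm4 < 1) ∨ t ≤ rp2 + sm4)
    (h_p2_m5 : rp2 + sm5 < -1 ∨ (1 ≤ rp2 + sm5 ∧ rp2 + sm5 < t))
    (h_p2_p1 : rp2 + sp1 < -1 ∨ (1 ≤ rp2 + sp1 ∧ rp2 + sp1 < t))
    (h_p2_p4 : rp2 + sp4 < -1 ∨ (1 ≤ rp2 + sp4 ∧ rp2 + sp4 < t))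
    (h_p3_s : (-1 ≤ rp3 + ss ∧ rp3 + ss < 1) ∨ t ≤ rp3 + ss)
    (h_p3_m1 : rp3 + sm1 < -1 ∨ (1 ≤ rp3 + sm1 ∧ rp3 + sm1 < t))
    (h_p3_m4 : (-1 ≤ rp3 + sm4 ∧ rp3 + sm4 < 1) ∨ t ≤ rp3 + sm4)
    (h_p3_m5 : (-1 ≤ rp3 + sm5 ∧ rp3 + sm5 < 1) ∨ t ≤ rp3 + sm5)
    (h_p3_m7 : rp3 + sm7 < -1 ∨ (1 ≤ rp3 + sm7 ∧ rp3 + sm7 < t))
    (h_p3_p1 : rp3 + sp1 < -1 ∨ (1 ≤ rp3 + sp1 ∧ rp3 + sp1 < t))
    (h_p3_p4 : (-1 ≤ rp3 + sp4 ∧ rp3 + sp4 < 1) ∨ t ≤ rp3 + sp4)
    (h_p6_s : rp6 + ss < -1 ∨ (1 ≤ rp6 + ss ∧ rp6 + ss < t))
    (h_p6_m1 : rp6 + sm1 < -1 ∨ (1 ≤ rp6 + sm1 ∧ rp6 + sm1 < t))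
    (h_p6_m5 : (-1 ≤ rp6 + sm5 ∧ rp6 + sm5 < 1) ∨ t ≤ rp6 + sm5)
    (h_p6_m7 : (-1 ≤ rp6 + sm7 ∧ rp6 + sm7 < 1) ∨ t ≤ rp6 + sm7)
    (h_p6_p1 : (-1 ≤ rp6 + sp1 ∧ rp6 + sp1 < 1) ∨ t ≤ rp6 + sp1)
    (h_p8_s : rp8 + ss < -1 ∨ (1 ≤ rp8 + ss ∧ rp8 + ss < t))
    (h_p8_m1 : (-1 ≤ rp8 + sm1 ∧ rp8 + sm1 < 1) ∨ t ≤ rp8 + sm1)
    (h_p8_m7 : (-1 ≤ rp8 + sm7 ∧ rp8 + sm7 < 1) ∨ t ≤ rp8 + sm7)
    (h_p8_p4 : (-1 ≤ rp8 + sp4 ∧ rp8 + sp4 < 1) ∨ t ≤ rp8 + sp4) :
    rp0 + ss < -1 := by
  rcases h_p0_s with h_p0_su | ⟨h_p0_sl, h_p0_su⟩
  · exact h_p0_su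
  exfalso
  rcases h_p3_m1 with h_p3_m1u | ⟨h_p3_m1l, h_p3_m1u⟩
  · rcases h_p3_s with ⟨h_p3_sl, h_p3_su⟩ | h_p3_sl
    · rcases h_p0_m4 with h_p0_m4u | ⟨h_p0_m4l, h_p0_m4u⟩
      · rcases h_p3_m4 with ⟨h_p3_m4l, h_p3_m4u⟩ | h_p3_m4l
        · linarith only [ht, h_p0_m4u, h_p3_m4l, h_p0_sl, h_p3_su]
        · linarith only [ht, h_p0_m4u, h_p3_m4l, h_p0_sl, h_p3_su]
      · rcases h_p3_m4 with ⟨h_p3_m4l, h_p3_m4u⟩ | h_p3_m4l
        · rcases h_p3_p4 with ⟨h_p3_p4l, h_p3_p4u⟩ | h_p3_p4l
          · rcases h_p0_p4 with h_p0_p4u | ⟨h_p0_p4l, h_p0_p4u⟩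
            · linarith only [ht, h_p0_p4u, h_p3_p4l, h_p0_m4l, h_p3_m4u]
            · rcases h_p2_p4 with h_p2_p4u | ⟨h_p2_p4l, h_p2_p4u⟩
              · rcases h_p2_m1 with ⟨h_p2_m1l, h_p2_m1u⟩ | h_p2_m1l
                · linarith only [ht, h_p2_p4u, h_p3_p4l, h_p2_m1l, h_p3_m1u]
                · linarith only [ht, h_p2_p4u, h_p3_p4l, h_p2_m1l, h_p3_m1u]
              · rcases h_p2_m5 with h_p2_m5u | ⟨h_p2_m5l, h_p2_m5u⟩
                · rcases h_p3_m5 with ⟨h_p3_m5l, h_p3_m5u⟩ | h_p3_m5l
                  · linarith only [ht, h_p2_m5u, h_p3_m5l, h_p2_p4l, h_p3_p4u]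
                  · linarith only [ht, h_p2_m5u, h_p3_m5l, h_p2_p4l, h_p3_p4u]
                · rcases h_p3_m5 with ⟨h_p3_m5l, h_p3_m5u⟩ | h_p3_m5l
                  · rcases h_p10_m5 with h_p10_m5u | ⟨h_p10_m5l, h_p10_m5u⟩
                    · rcases h_p10_m1 with ⟨h_p10_m1l, h_p10_m1u⟩ | h_p10_m1l
                      · linarith only [ht, h_p3_m1u, h_p10_m1l, h_p3_m5l, h_p10_m5u]
                      · linarith only [ht, h_p3_m1u, h_p10_m1l, h_p3_m5l, h_p10_m5u]
                    · rcases h_p10_m4 with h_p10_m4u | ⟨h_p10_m4l, h_p10_m4u⟩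
                      · linarith only [ht, h_p3_m5u, h_p10_m5l, h_p3_m4l, h_p10_m4u]
                      · rcases h_p8_s with h_p8_su | ⟨h_p8_sl, h_p8_su⟩
                        · rcases h_p8_m1 with ⟨h_p8_m1l, h_p8_m1u⟩ | h_p8_m1l
                          · linarith only [ht, h_p3_m1u, h_p8_m1l, h_p3_sl, h_p8_su]
                          · linarith only [ht, h_p3_m1u, h_p8_m1l, h_p3_sl, h_p8_su]
                        · rcases h_p6_m5 with ⟨h_p6_m5l, h_p6_m5u⟩ | h_p6_m5l
                          · rcases h_p2_p1 with h_p2_p1u | ⟨h_p2_p1l, h_p2_p1u⟩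
                            · rcases h_p6_p1 with ⟨h_p6_p1l, h_p6_p1u⟩ | h_p6_p1l
                              · linarith only [ht, h_p2_p1u, h_p6_p1l, h_p2_m5l, h_p6_m5u]
                              · linarith only [ht, h_p2_p1u, h_p6_p1l, h_p2_m5l, h_p6_m5u]
                            · rcases h_p6_p1 with ⟨h_p6_p1l, h_p6_p1u⟩ | h_p6_p1l
                              · rcases h_p10_p4 with ⟨h_p10_p4l, h_p10_p4u⟩ | h_p10_p4l
                                · rcases h_p2_m4 with ⟨h_p2_m4l, h_p2_m4u⟩ | h_p2_m4l
                                  · linarith only [ht, h_p2_m4u, h_p10_m4l, h_p2_p4l, h_p10_p4u]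
                                  · rcases h_p0_p1 with ⟨h_p0_p1l, h_p0_p1u⟩ | h_p0_p1l
                                    · rcases h_p3_p1 with h_p3_p1u | ⟨h_p3_p1l, h_p3_p1u⟩
                                      · rcases h_p6_s with h_p6_su | ⟨h_p6_sl, h_p6_su⟩
                                        · linarith only [ht, h_p3_p1u, h_p6_p1l, h_p3_sl, h_p6_su]
                                        · rcases h_p10_s with ⟨h_p10_sl, h_p10_su⟩ | h_p10_sl
                                          · linarith only [ht, h_p6_m5u, h_p10_m5l, h_p6_sl, h_p10_su]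
                                          · linarith only [ht, h_p0_su, h_p10_sl, h_p0_p4l, h_p10_p4u]
                                      · linarith only [ht, h_p0_p1u, h_p3_p1l, h_p0_m4l, h_p3_m4u]
                                    · linarith only [ht, h_p0_m4u, h_p2_m4l, h_p0_p1l, h_p2_p1u]
                                · rcases h_p2_m4 with ⟨h_p2_m4l, h_p2_m4u⟩ | h_p2_m4l
                                  · rcases h_p0_p1 with ⟨h_p0_p1l, h_p0_p1u⟩ | h_p0_p1l
                                    · linarith only [ht, h_p0_p1u, h_p2_p1l, h_p0_m4l, h_p2_m4u]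
                                    · rcases h_p2_s with ⟨h_p2_sl, h_p2_su⟩ | h_p2_sl
                                      · rcases h_p8_p4 with ⟨h_p8_p4l, h_p8_p4u⟩ | h_p8_p4l
                                        · linarith only [ht, h_p2_su, h_p8_sl, h_p2_p4l, h_p8_p4u]
                                        · rcases h_p10_s with ⟨h_p10_sl, h_p10_su⟩ | h_p10_sl
                                          · linarith only [ht, h_p0_p4u, h_p10_p4l, h_p0_sl, h_p10_su]
                                          · rcases h_p8_m7 with ⟨h_p8_m7l, h_p8_m7u⟩ | h_p8_m7l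
                                            · rcases h_p0_m7 with h_p0_m7u | ⟨h_p0_m7l, h_p0_m7u⟩
                                              · rcases h_p6_m7 with ⟨h_p6_m7l, h_p6_m7u⟩ | h_p6_m7l
                                                · linarith only [ht, h_p0_m7u, h_p6_m7l, h_p0_p1l, h_p6_p1u]
                                                · linarith only [ht, h_p0_m7u, h_p6_m7l, h_p0_p1l, h_p6_p1u]
                                              · linarith only [ht, h_p0_p4u, h_p8_p4l, h_p0_m7l, h_p8_m7u]
                                            · rcases h_p10_m7 with h_p10_m7u | ⟨h_p10_m7l, h_p10_m7u⟩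
                                              · linarith only [ht, h_p8_su, h_p10_sl, h_p8_m7l, h_p10_m7u]
                                              · linarith only [ht, h_p8_su, h_p10_sl, h_p8_m7l, h_p10_m7u]
                                      · linarith only [ht, h_p0_su, h_p2_sl, h_p0_m4l, h_p2_m4u]
                                  · linarith only [ht, h_p2_p4u, h_p10_p4l, h_p2_m4l, h_p10_m4u]
                              · linarith only [ht, h_p2_p1u, h_p6_p1l, h_p2_m5l, h_p6_m5u]
                          · rcases h_p6_s with h_p6_su | ⟨h_p6_sl, h_p6_su⟩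
                            · linarith only [ht, h_p3_m5u, h_p6_m5l, h_p3_sl, h_p6_su]
                            · rcases h_p2_s with ⟨h_p2_sl, h_p2_su⟩ | h_p2_sl
                              · rcases h_p2_m4 with ⟨h_p2_m4l, h_p2_m4u⟩ | h_p2_m4l
                                · rcases h_p10_p4 with ⟨h_p10_p4l, h_p10_p4u⟩ | h_p10_p4l
                                  · linarith only [ht, h_p2_m4u, h_p10_m4l, h_p2_p4l, h_p10_p4u]
                                  · rcases h_p10_s with ⟨h_p10_sl, h_p10_su⟩ | h_p10_sl
                                    · linarith only [ht, h_p0_p4u, h_p10_p4l, h_p0_sl, h_p10_su]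
                                    · linarith only [ht, h_p6_su, h_p10_sl, h_p6_m5l, h_p10_m5u]
                                · linarith only [ht, h_p0_m4u, h_p2_m4l, h_p0_sl, h_p2_su]
                              · linarith only [ht, h_p2_m5u, h_p6_m5l, h_p2_sl, h_p6_su]
                  · linarith only [ht, h_p2_m5u, h_p3_m5l, h_p2_p4l, h_p3_p4u]
          · rcases h_p0_p4 with h_p0_p4u | ⟨h_p0_p4l, h_p0_p4u⟩
            · linarith only [ht, h_p0_p4u, h_p3_p4l, h_p0_m4l, h_p3_m4u]
            · linarith only [ht, h_p0_p4u, h_p3_p4l, h_p0_m4l, h_p3_m4u]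
        · linarith only [ht, h_p0_m4u, h_p3_m4l, h_p0_sl, h_p3_su]
    · rcases h_p0_m1 with ⟨h_p0_m1l, h_p0_m1u⟩ | h_p0_m1l
      · linarith only [ht, h_p0_su, h_p3_sl, h_p0_m1l, h_p3_m1u]
      · linarith only [ht, h_p0_su, h_p3_sl, h_p0_m1l, h_p3_m1u]
  · rcases h_p3_s with ⟨h_p3_sl, h_p3_su⟩ | h_p3_sl
    · rcases h_p0_m1 with ⟨h_p0_m1l, h_p0_m1u⟩ | h_p0_m1l
      · linarith only [ht, h_p0_m1u, h_p3_m1l, h_p0_sl, h_p3_su]
      · rcases h_p0_m4 with h_p0_m4u | ⟨h_p0_m4l, h_p0_m4u⟩
        · rcases h_p3_m4 with ⟨h_p3_m4l, h_p3_m4u⟩ | h_p3_m4l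
          · linarith only [ht, h_p0_m4u, h_p3_m4l, h_p0_m1l, h_p3_m1u]
          · linarith only [ht, h_p0_m4u, h_p3_m4l, h_p0_m1l, h_p3_m1u]
        · rcases h_p3_m4 with ⟨h_p3_m4l, h_p3_m4u⟩ | h_p3_m4l
          · rcases h_p3_p4 with ⟨h_p3_p4l, h_p3_p4u⟩ | h_p3_p4l
            · rcases h_p0_p4 with h_p0_p4u | ⟨h_p0_p4l, h_p0_p4u⟩
              · linarith only [ht, h_p0_p4u, h_p3_p4l, h_p0_m1l, h_p3_m1u]
              · rcases h_p10_s with ⟨h_p10_sl, h_p10_su⟩ | h_p10_sl
                · rcases h_p10_p4 with ⟨h_p10_p4l, h_p10_p4u⟩ | h_p10_p4l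
                  · rcases h_p2_m1 with ⟨h_p2_m1l, h_p2_m1u⟩ | h_p2_m1l
                    · rcases h_p2_s with ⟨h_p2_sl, h_p2_su⟩ | h_p2_sl
                      · rcases h_p2_m4 with ⟨h_p2_m4l, h_p2_m4u⟩ | h_p2_m4l
                        · rcases h_p2_p4 with h_p2_p4u | ⟨h_p2_p4l, h_p2_p4u⟩
                          · rcases h_p10_m4 with h_p10_m4u | ⟨h_p10_m4l, h_p10_m4u⟩
                            · linarith only [ht, h_p2_p4u, h_p10_p4l, h_p2_m4l, h_p10_m4u]
                            · rcases h_p10_m1 with ⟨h_p10_m1l, h_p10_m1u⟩ | h_p10_m1l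
                              · linarith only [ht, h_p3_m4u, h_p10_m4l, h_p3_m1l, h_p10_m1u]
                              · rcases h_p10_m5 with h_p10_m5u | ⟨h_p10_m5l, h_p10_m5u⟩
                                · rcases h_p3_m5 with ⟨h_p3_m5l, h_p3_m5u⟩ | h_p3_m5l
                                  · linarith only [ht, h_p3_m1u, h_p10_m1l, h_p3_m5l, h_p10_m5u]
                                  · linarith only [ht, h_p3_m1u, h_p10_m1l, h_p3_m5l, h_p10_m5u]
                                · rcases h_p3_m5 with ⟨h_p3_m5l, h_p3_m5u⟩ | h_p3_m5l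
                                  · rcases h_p2_m5 with h_p2_m5u | ⟨h_p2_m5l, h_p2_m5u⟩
                                    · rcases h_p6_m1 with h_p6_m1u | ⟨h_p6_m1l, h_p6_m1u⟩
                                      · rcases h_p6_m5 with ⟨h_p6_m5l, h_p6_m5u⟩ | h_p6_m5l
                                        · linarith only [ht, h_p2_m5u, h_p6_m5l, h_p2_m1l, h_p6_m1u]
                                        · linarith only [ht, h_p2_m5u, h_p6_m5l, h_p2_m1l, h_p6_m1u]
                                      · rcases h_p6_s with h_p6_su | ⟨h_p6_sl, h_p6_su⟩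
                                        · linarith only [ht, h_p2_m1u, h_p6_m1l, h_p2_sl, h_p6_su]
                                        · linarith only [ht, h_p6_m1u, h_p10_m1l, h_p6_sl, h_p10_su]
                                    · linarith only [ht, h_p2_m1u, h_p3_m1l, h_p2_m5l, h_p3_m5u]
                                  · linarith only [ht, h_p3_m1u, h_p10_m1l, h_p3_m5l, h_p10_m5u]
                          · linarith only [ht, h_p2_m1u, h_p3_m1l, h_p2_p4l, h_p3_p4u]
                        · linarith only [ht, h_p0_m4u, h_p2_m4l, h_p0_m1l, h_p2_m1u]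
                      · linarith only [ht, h_p0_su, h_p2_sl, h_p0_m1l, h_p2_m1u]
                    · rcases h_p2_p4 with h_p2_p4u | ⟨h_p2_p4l, h_p2_p4u⟩
                      · linarith only [ht, h_p2_p4u, h_p3_p4l, h_p2_m1l, h_p3_m1u]
                      · rcases h_p2_m5 with h_p2_m5u | ⟨h_p2_m5l, h_p2_m5u⟩
                        · rcases h_p3_m5 with ⟨h_p3_m5l, h_p3_m5u⟩ | h_p3_m5l
                          · linarith only [ht, h_p2_m5u, h_p3_m5l, h_p2_m1l, h_p3_m1u]
                          · linarith only [ht, h_p2_m5u, h_p3_m5l, h_p2_m1l, h_p3_m1u]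
                        · rcases h_p3_m5 with ⟨h_p3_m5l, h_p3_m5u⟩ | h_p3_m5l
                          · rcases h_p6_m5 with ⟨h_p6_m5l, h_p6_m5u⟩ | h_p6_m5l
                            · rcases h_p2_s with ⟨h_p2_sl, h_p2_su⟩ | h_p2_sl
                              · rcases h_p6_s with h_p6_su | ⟨h_p6_sl, h_p6_su⟩
                                · rcases h_p10_m5 with h_p10_m5u | ⟨h_p10_m5l, h_p10_m5u⟩
                                  · linarith only [ht, h_p6_su, h_p10_sl, h_p6_m5l, h_p10_m5u]
                                  · rcases h_p10_m4 with h_p10_m4u | ⟨h_p10_m4l, h_p10_m4u⟩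
                                    · linarith only [ht, h_p3_m5u, h_p10_m5l, h_p3_m4l, h_p10_m4u]
                                    · rcases h_p2_m4 with ⟨h_p2_m4l, h_p2_m4u⟩ | h_p2_m4l
                                      · linarith only [ht, h_p2_m4u, h_p10_m4l, h_p2_p4l, h_p10_p4u]
                                      · linarith only [ht, h_p0_m4u, h_p2_m4l, h_p0_sl, h_p2_su]
                                · linarith only [ht, h_p2_su, h_p6_sl, h_p2_m5l, h_p6_m5u]
                              · rcases h_p2_m4 with ⟨h_p2_m4l, h_p2_m4u⟩ | h_p2_m4l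
                                · linarith only [ht, h_p0_su, h_p2_sl, h_p0_m4l, h_p2_m4u]
                                · rcases h_p6_p1 with ⟨h_p6_p1l, h_p6_p1u⟩ | h_p6_p1l
                                  · rcases h_p2_p1 with h_p2_p1u | ⟨h_p2_p1l, h_p2_p1u⟩
                                    · linarith only [ht, h_p2_p1u, h_p6_p1l, h_p2_m5l, h_p6_m5u]
                                    · rcases h_p0_p1 with ⟨h_p0_p1l, h_p0_p1u⟩ | h_p0_p1l
                                      · rcases h_p3_p1 with h_p3_p1u | ⟨h_p3_p1l, h_p3_p1u⟩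
                                        · rcases h_p6_m1 with h_p6_m1u | ⟨h_p6_m1l, h_p6_m1u⟩
                                          · linarith only [ht, h_p3_p1u, h_p6_p1l, h_p3_m1l, h_p6_m1u]
                                          · rcases h_m6_p4 with ⟨h_m6_p4l, h_m6_p4u⟩ | h_m6_p4l
                                            · rcases h_m6_p1 with h_m6_p1u | ⟨h_m6_p1l, h_m6_p1u⟩
                                              · rcases h_p0_m7 with h_p0_m7u | ⟨h_p0_m7l, h_p0_m7u⟩
                                                · rcases h_p6_m7 with ⟨h_p6_m7l, h_p6_m7u⟩ | h_p6_m7l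
                                                  · linarith only [ht, h_p0_m7u, h_p6_m7l, h_p0_m1l, h_p6_m1u]
                                                  · linarith only [ht, h_p0_m7u, h_p6_m7l, h_p0_m1l, h_p6_m1u]
                                                · rcases h_p6_m7 with ⟨h_p6_m7l, h_p6_m7u⟩ | h_p6_m7l
                                                  · rcases h_p3_m7 with h_p3_m7u | ⟨h_p3_m7l, h_p3_m7u⟩
                                                    · rcases h_p8_s with h_p8_su | ⟨h_p8_sl, h_p8_su⟩
                                                      · rcases h_p8_m7 with ⟨h_p8_m7l, h_p8_m7u⟩ | h_p8_m7l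
                                                        · linarith only [ht, h_p3_m7u, h_p8_m7l, h_p3_sl, h_p8_su]
                                                        · linarith only [ht, h_p0_m7u, h_p8_m7l, h_p0_sl, h_p8_su]
                                                      · rcases h_p8_p4 with ⟨h_p8_p4l, h_p8_p4u⟩ | h_p8_p4l
                                                        · rcases h_p8_m7 with ⟨h_p8_m7l, h_p8_m7u⟩ | h_p8_m7l
                                                          · rcases h_p8_m1 with ⟨h_p8_m1l, h_p8_m1u⟩ | h_p8_m1l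
                                                            · linarith only [ht, h_p3_m7u, h_p8_m7l, h_p3_m1l, h_p8_m1u]
                                                            · rcases h_m2_p1 with ⟨h_m2_p1l, h_m2_p1u⟩ | h_m2_p1l
                                                              · rcases h_m2_m1 with h_m2_m1u | ⟨h_m2_m1l, h_m2_m1u⟩
                                                                · linarith only [ht, h_m2_m1u, h_p3_m1l, h_m2_p1l, h_p3_p1u]
                                                                · rcases h_m2_p4 with h_m2_p4u | ⟨h_m2_p4l, h_m2_p4u⟩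
                                                                  · linarith only [ht, h_m6_p1u, h_m2_p1l, h_m6_p4l, h_m2_p4u]
                                                                  · linarith only [ht, h_m2_m1u, h_p8_m1l, h_m2_p4l, h_p8_p4u]
                                                              · rcases h_m2_m1 with h_m2_m1u | ⟨h_m2_m1l, h_m2_m1u⟩
                                                                · linarith only [ht, h_m2_m1u, h_p0_m1l, h_m2_p1l, h_p0_p1u]
                                                                · linarith only [ht, h_m2_m1u, h_p0_m1l, h_m2_p1l, h_p0_p1u]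
                                                          · linarith only [ht, h_p0_m7u, h_p8_m7l, h_p0_p4l, h_p8_p4u]
                                                        · linarith only [ht, h_p2_p4u, h_p8_p4l, h_p2_sl, h_p8_su]
                                                    · linarith only [ht, h_p3_p1u, h_p6_p1l, h_p3_m7l, h_p6_m7u]
                                                  · linarith only [ht, h_p0_m7u, h_p6_m7l, h_p0_m1l, h_p6_m1u]
                                              · linarith only [ht, h_m6_p4u, h_p0_p4l, h_m6_p1l, h_p0_p1u]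
                                            · rcases h_m6_s with h_m6_su | ⟨h_m6_sl, h_m6_su⟩
                                              · linarith only [ht, h_m6_su, h_p0_sl, h_m6_p4l, h_p0_p4u]
                                              · linarith only [ht, h_m6_su, h_p2_sl, h_m6_p4l, h_p2_p4u]
                                        · linarith only [ht, h_p0_p1u, h_p3_p1l, h_p0_m1l, h_p3_m1u]
                                      · linarith only [ht, h_p0_m4u, h_p2_m4l, h_p0_p1l, h_p2_p1u]
                                  · rcases h_p2_p1 with h_p2_p1u | ⟨h_p2_p1l, h_p2_p1u⟩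
                                    · linarith only [ht, h_p2_p1u, h_p6_p1l, h_p2_m5l, h_p6_m5u]
                                    · linarith only [ht, h_p2_p1u, h_p6_p1l, h_p2_m5l, h_p6_m5u]
                            · rcases h_p6_m1 with h_p6_m1u | ⟨h_p6_m1l, h_p6_m1u⟩
                              · linarith only [ht, h_p2_m5u, h_p6_m5l, h_p2_m1l, h_p6_m1u]
                              · linarith only [ht, h_p2_m5u, h_p6_m5l, h_p2_m1l, h_p6_m1u]
                          · linarith only [ht, h_p2_m5u, h_p3_m5l, h_p2_m1l, h_p3_m1u]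
                  · linarith only [ht, h_p0_p4u, h_p10_p4l, h_p0_sl, h_p10_su]
                · rcases h_p10_p4 with ⟨h_p10_p4l, h_p10_p4u⟩ | h_p10_p4l
                  · linarith only [ht, h_p0_su, h_p10_sl, h_p0_p4l, h_p10_p4u]
                  · rcases h_p10_m4 with h_p10_m4u | ⟨h_p10_m4l, h_p10_m4u⟩
                    · linarith only [ht, h_p0_p4u, h_p10_p4l, h_p0_m4l, h_p10_m4u]
                    · rcases h_p10_m1 with ⟨h_p10_m1l, h_p10_m1u⟩ | h_p10_m1l
                      · linarith only [ht, h_p0_p4u, h_p10_p4l, h_p0_m1l, h_p10_m1u]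
                      · rcases h_p2_s with ⟨h_p2_sl, h_p2_su⟩ | h_p2_sl
                        · rcases h_p2_m4 with ⟨h_p2_m4l, h_p2_m4u⟩ | h_p2_m4l
                          · rcases h_p10_m5 with h_p10_m5u | ⟨h_p10_m5l, h_p10_m5u⟩
                            · rcases h_p3_m5 with ⟨h_p3_m5l, h_p3_m5u⟩ | h_p3_m5l
                              · linarith only [ht, h_p3_m1u, h_p10_m1l, h_p3_m5l, h_p10_m5u]
                              · linarith only [ht, h_p3_m1u, h_p10_m1l, h_p3_m5l, h_p10_m5u]
                            · rcases h_p3_m5 with ⟨h_p3_m5l, h_p3_m5u⟩ | h_p3_m5l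
                              · rcases h_p6_m5 with ⟨h_p6_m5l, h_p6_m5u⟩ | h_p6_m5l
                                · rcases h_p10_m7 with h_p10_m7u | ⟨h_p10_m7l, h_p10_m7u⟩
                                  · rcases h_p6_m7 with ⟨h_p6_m7l, h_p6_m7u⟩ | h_p6_m7l
                                    · linarith only [ht, h_p6_m5u, h_p10_m5l, h_p6_m7l, h_p10_m7u]
                                    · linarith only [ht, h_p6_m5u, h_p10_m5l, h_p6_m7l, h_p10_m7u]
                                  · rcases h_p6_m7 with ⟨h_p6_m7l, h_p6_m7u⟩ | h_p6_m7l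
                                    · rcases h_p8_p4 with ⟨h_p8_p4l, h_p8_p4u⟩ | h_p8_p4l
                                      · rcases h_p8_m7 with ⟨h_p8_m7l, h_p8_m7u⟩ | h_p8_m7l
                                        · rcases h_p2_m1 with ⟨h_p2_m1l, h_p2_m1u⟩ | h_p2_m1l
                                          · rcases h_p2_m5 with h_p2_m5u | ⟨h_p2_m5l, h_p2_m5u⟩
                                            · rcases h_p6_s with h_p6_su | ⟨h_p6_sl, h_p6_su⟩
                                              · linarith only [ht, h_p2_m5u, h_p6_m5l, h_p2_sl, h_p6_su]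
                                              · rcases h_p3_m7 with h_p3_m7u | ⟨h_p3_m7l, h_p3_m7u⟩
                                                · rcases h_p2_p4 with h_p2_p4u | ⟨h_p2_p4l, h_p2_p4u⟩
                                                  · rcases h_p6_m1 with h_p6_m1u | ⟨h_p6_m1l, h_p6_m1u⟩
                                                    · linarith only [ht, h_p2_m5u, h_p6_m5l, h_p2_m1l, h_p6_m1u]
                                                    · rcases h_p8_m1 with ⟨h_p8_m1l, h_p8_m1u⟩ | h_p8_m1l
                                                      · linarith only [ht, h_p3_m7u, h_p8_m7l, h_p3_m1l, h_p8_m1u]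
                                                      · rcases h_m6_s with h_m6_su | ⟨h_m6_sl, h_m6_su⟩
                                                        · rcases h_m6_p4 with ⟨h_m6_p4l, h_m6_p4u⟩ | h_m6_p4l
                                                          · linarith only [ht, h_m6_su, h_p2_sl, h_m6_p4l, h_p2_p4u]
                                                          · linarith only [ht, h_m6_su, h_p0_sl, h_m6_p4l, h_p0_p4u]
                                                        · rcases h_m6_m5 with h_m6_m5u | ⟨h_m6_m5l, h_m6_m5u⟩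
                                                          · linarith only [ht, h_m6_m5u, h_p3_m5l, h_m6_sl, h_p3_su]
                                                          · rcases h_m6_p1 with h_m6_p1u | ⟨h_m6_p1l, h_m6_p1u⟩
                                                            · rcases h_p6_p1 with ⟨h_p6_p1l, h_p6_p1u⟩ | h_p6_p1l
                                                              · linarith only [ht, h_m6_p1u, h_p6_p1l, h_m6_m5l, h_p6_m5u]
                                                              · linarith only [ht, h_m6_p1u, h_p6_p1l, h_m6_m5l, h_p6_m5u]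
                                                            · rcases h_p6_p1 with ⟨h_p6_p1l, h_p6_p1u⟩ | h_p6_p1l
                                                              · rcases h_p2_p1 with h_p2_p1u | ⟨h_p2_p1l, h_p2_p1u⟩
                                                                · rcases h_p3_p1 with h_p3_p1u | ⟨h_p3_p1l, h_p3_p1u⟩
                                                                  · rcases h_m2_m1 with h_m2_m1u | ⟨h_m2_m1l, h_m2_m1u⟩
                                                                    · rcases h_m2_p1 with ⟨h_m2_p1l, h_m2_p1u⟩ | h_m2_p1l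
                                                                      · linarith only [ht, h_m2_m1u, h_p2_m1l, h_m2_p1l, h_p2_p1u]
                                                                      · linarith only [ht, h_m2_m1u, h_p2_m1l, h_m2_p1l, h_p2_p1u]
                                                                    · rcases h_m2_p4 with h_m2_p4u | ⟨h_m2_p4l, h_m2_p4u⟩
                                                                      · rcases h_m2_p1 with ⟨h_m2_p1l, h_m2_p1u⟩ | h_m2_p1l
                                                                        · linarith only [ht, h_m2_p4u, h_p3_p4l, h_m2_p1l, h_p3_p1u]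
                                                                        · linarith only [ht, h_m2_p4u, h_p3_p4l, h_m2_p1l, h_p3_p1u]
                                                                      · linarith only [ht, h_m2_m1u, h_p8_m1l, h_m2_p4l, h_p8_p4u]
                                                                  · linarith only [ht, h_p3_m7u, h_p6_m7l, h_p3_p1l, h_p6_p1u]
                                                                · linarith only [ht, h_p2_m1u, h_p6_m1l, h_p2_p1l, h_p6_p1u]
                                                              · linarith only [ht, h_m6_p1u, h_p6_p1l, h_m6_m5l, h_p6_m5u]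
                                                  · linarith only [ht, h_p2_m1u, h_p3_m1l, h_p2_p4l, h_p3_p4u]
                                                · linarith only [ht, h_p3_su, h_p6_sl, h_p3_m7l, h_p6_m7u]
                                            · linarith only [ht, h_p2_m1u, h_p3_m1l, h_p2_m5l, h_p3_m5u]
                                          · rcases h_p2_m5 with h_p2_m5u | ⟨h_p2_m5l, h_p2_m5u⟩
                                            · linarith only [ht, h_p2_m5u, h_p3_m5l, h_p2_m1l, h_p3_m1u]
                                            · rcases h_p6_s with h_p6_su | ⟨h_p6_sl, h_p6_su⟩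
                                              · rcases h_p3_m7 with h_p3_m7u | ⟨h_p3_m7l, h_p3_m7u⟩
                                                · linarith only [ht, h_p3_m7u, h_p6_m7l, h_p3_sl, h_p6_su]
                                                · rcases h_p2_p4 with h_p2_p4u | ⟨h_p2_p4l, h_p2_p4u⟩
                                                  · linarith only [ht, h_p2_p4u, h_p3_p4l, h_p2_m1l, h_p3_m1u]
                                                  · rcases h_p6_p1 with ⟨h_p6_p1l, h_p6_p1u⟩ | h_p6_p1l
                                                    · rcases h_p2_p1 with h_p2_p1u | ⟨h_p2_p1l, h_p2_p1u⟩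
                                                      · linarith only [ht, h_p2_p1u, h_p6_p1l, h_p2_m5l, h_p6_m5u]
                                                      · rcases h_p0_p1 with ⟨h_p0_p1l, h_p0_p1u⟩ | h_p0_p1l
                                                        · linarith only [ht, h_p0_p1u, h_p2_p1l, h_p0_m4l, h_p2_m4u]
                                                        · rcases h_p3_p1 with h_p3_p1u | ⟨h_p3_p1l, h_p3_p1u⟩
                                                          · linarith only [ht, h_p3_p1u, h_p6_p1l, h_p3_m7l, h_p6_m7u]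
                                                          · rcases h_m6_p1 with h_m6_p1u | ⟨h_m6_p1l, h_m6_p1u⟩
                                                            · rcases h_m6_p4 with ⟨h_m6_p4l, h_m6_p4u⟩ | h_m6_p4l
                                                              · rcases h_m2_m1 with h_m2_m1u | ⟨h_m2_m1l, h_m2_m1u⟩
                                                                · rcases h_m2_p1 with ⟨h_m2_p1l, h_m2_p1u⟩ | h_m2_p1l
                                                                  · rcases h_m2_p4 with h_m2_p4u | ⟨h_m2_p4l, h_m2_p4u⟩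
                                                                    · linarith only [ht, h_m6_p1u, h_m2_p1l, h_m6_p4l, h_m2_p4u]
                                                                    · linarith only [ht, h_m2_m1u, h_p3_m1l, h_m2_p4l, h_p3_p4u]
                                                                  · linarith only [ht, h_m2_m1u, h_p2_m1l, h_m2_p1l, h_p2_p1u]
                                                                · rcases h_m2_p1 with ⟨h_m2_p1l, h_m2_p1u⟩ | h_m2_p1l
                                                                  · rcases h_m2_p4 with h_m2_p4u | ⟨h_m2_p4l, h_m2_p4u⟩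
                                                                    · linarith only [ht, h_m6_p1u, h_m2_p1l, h_m6_p4l, h_m2_p4u]
                                                                    · linarith only [ht, h_m2_p1u, h_p3_p1l, h_m2_p4l, h_p3_p4u]
                                                                  · linarith only [ht, h_m2_m1u, h_p2_m1l, h_m2_p1l, h_p2_p1u]
                                                              · linarith only [ht, h_m6_p1u, h_p0_p1l, h_m6_p4l, h_p0_p4u]
                                                            · rcases h_m6_m5 with h_m6_m5u | ⟨h_m6_m5l, h_m6_m5u⟩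
                                                              · linarith only [ht, h_m6_m5u, h_p6_m5l, h_m6_p1l, h_p6_p1u]
                                                              · rcases h_m6_p4 with ⟨h_m6_p4l, h_m6_p4u⟩ | h_m6_p4l
                                                                · rcases h_m6_s with h_m6_su | ⟨h_m6_sl, h_m6_su⟩
                                                                  · linarith only [ht, h_m6_su, h_p3_sl, h_m6_m5l, h_p3_m5u]
                                                                  · linarith only [ht, h_m6_p4u, h_p2_p4l, h_m6_sl, h_p2_su]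
                                                                · linarith only [ht, h_m6_p1u, h_p0_p1l, h_m6_p4l, h_p0_p4u]
                                                    · rcases h_p2_p1 with h_p2_p1u | ⟨h_p2_p1l, h_p2_p1u⟩
                                                      · linarith only [ht, h_p2_p1u, h_p6_p1l, h_p2_m5l, h_p6_m5u]
                                                      · linarith only [ht, h_p2_p1u, h_p6_p1l, h_p2_m5l, h_p6_m5u]
                                              · linarith only [ht, h_p2_su, h_p6_sl, h_p2_m5l, h_p6_m5u]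
                                        · linarith only [ht, h_p8_p4u, h_p10_p4l, h_p8_m7l, h_p10_m7u]
                                      · rcases h_p8_s with h_p8_su | ⟨h_p8_sl, h_p8_su⟩
                                        · linarith only [ht, h_p0_p4u, h_p8_p4l, h_p0_sl, h_p8_su]
                                        · rcases h_p8_m7 with ⟨h_p8_m7l, h_p8_m7u⟩ | h_p8_m7l
                                          · rcases h_p0_m7 with h_p0_m7u | ⟨h_p0_m7l, h_p0_m7u⟩
                                            · rcases h_p6_m1 with h_p6_m1u | ⟨h_p6_m1l, h_p6_m1u⟩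
                                              · linarith only [ht, h_p0_m7u, h_p6_m7l, h_p0_m1l, h_p6_m1u]
                                              · linarith only [ht, h_p0_m7u, h_p6_m7l, h_p0_m1l, h_p6_m1u]
                                            · linarith only [ht, h_p0_p4u, h_p8_p4l, h_p0_m7l, h_p8_m7u]
                                          · linarith only [ht, h_p8_su, h_p10_sl, h_p8_m7l, h_p10_m7u]
                                    · linarith only [ht, h_p6_m5u, h_p10_m5l, h_p6_m7l, h_p10_m7u]
                                · rcases h_p6_s with h_p6_su | ⟨h_p6_sl, h_p6_su⟩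
                                  · linarith only [ht, h_p3_m5u, h_p6_m5l, h_p3_sl, h_p6_su]
                                  · linarith only [ht, h_p6_su, h_p10_sl, h_p6_m5l, h_p10_m5u]
                              · linarith only [ht, h_p3_m1u, h_p10_m1l, h_p3_m5l, h_p10_m5u]
                          · linarith only [ht, h_p0_m4u, h_p2_m4l, h_p0_sl, h_p2_su]
                        · rcases h_p2_m4 with ⟨h_p2_m4l, h_p2_m4u⟩ | h_p2_m4l
                          · linarith only [ht, h_p0_su, h_p2_sl, h_p0_m4l, h_p2_m4u]
                          · rcases h_p2_p4 with h_p2_p4u | ⟨h_p2_p4l, h_p2_p4u⟩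
                            · linarith only [ht, h_p0_m4u, h_p2_m4l, h_p0_p4l, h_p2_p4u]
                            · linarith only [ht, h_p2_p4u, h_p10_p4l, h_p2_m4l, h_p10_m4u]
            · rcases h_p0_p4 with h_p0_p4u | ⟨h_p0_p4l, h_p0_p4u⟩
              · linarith only [ht, h_p0_p4u, h_p3_p4l, h_p0_m1l, h_p3_m1u]
              · linarith only [ht, h_p0_p4u, h_p3_p4l, h_p0_m1l, h_p3_m1u]
          · linarith only [ht, h_p0_m4u, h_p3_m4l, h_p0_m1l, h_p3_m1u]
    · rcases h_p0_m1 with ⟨h_p0_m1l, h_p0_m1u⟩ | h_p0_m1l
      · rcases h_p0_p1 with ⟨h_p0_p1l, h_p0_p1u⟩ | h_p0_p1l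
        · rcases h_p3_p1 with h_p3_p1u | ⟨h_p3_p1l, h_p3_p1u⟩
          · linarith only [ht, h_p0_m1u, h_p3_m1l, h_p0_p1l, h_p3_p1u]
          · rcases h_p8_m1 with ⟨h_p8_m1l, h_p8_m1u⟩ | h_p8_m1l
            · rcases h_p8_m7 with ⟨h_p8_m7l, h_p8_m7u⟩ | h_p8_m7l
              · rcases h_p3_m7 with h_p3_m7u | ⟨h_p3_m7l, h_p3_m7u⟩
                · linarith only [ht, h_p3_m7u, h_p8_m7l, h_p3_m1l, h_p8_m1u]
                · rcases h_p6_p1 with ⟨h_p6_p1l, h_p6_p1u⟩ | h_p6_p1l
                  · rcases h_p6_m7 with ⟨h_p6_m7l, h_p6_m7u⟩ | h_p6_m7l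
                    · rcases h_p2_s with ⟨h_p2_sl, h_p2_su⟩ | h_p2_sl
                      · rcases h_p2_p1 with h_p2_p1u | ⟨h_p2_p1l, h_p2_p1u⟩
                        · rcases h_p6_s with h_p6_su | ⟨h_p6_sl, h_p6_su⟩
                          · linarith only [ht, h_p2_p1u, h_p6_p1l, h_p2_sl, h_p6_su]
                          · rcases h_p2_m1 with ⟨h_p2_m1l, h_p2_m1u⟩ | h_p2_m1l
                            · rcases h_p6_m1 with h_p6_m1u | ⟨h_p6_m1l, h_p6_m1u⟩
                              · linarith only [ht, h_p2_p1u, h_p6_p1l, h_p2_m1l, h_p6_m1u]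
                              · rcases h_p0_m7 with h_p0_m7u | ⟨h_p0_m7l, h_p0_m7u⟩
                                · rcases h_p2_m4 with ⟨h_p2_m4l, h_p2_m4u⟩ | h_p2_m4l
                                  · rcases h_p0_m4 with h_p0_m4u | ⟨h_p0_m4l, h_p0_m4u⟩
                                    · linarith only [ht, h_p0_m4u, h_p2_m4l, h_p0_p1l, h_p2_p1u]
                                    · rcases h_p3_m4 with ⟨h_p3_m4l, h_p3_m4u⟩ | h_p3_m4l
                                      · linarith only [ht, h_p0_m1u, h_p3_m1l, h_p0_m4l, h_p3_m4u]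
                                      · rcases h_p10_m1 with ⟨h_p10_m1l, h_p10_m1u⟩ | h_p10_m1l
                                        · rcases h_p10_s with ⟨h_p10_sl, h_p10_su⟩ | h_p10_sl
                                          · rcases h_p10_p4 with ⟨h_p10_p4l, h_p10_p4u⟩ | h_p10_p4l
                                            · rcases h_p0_p4 with h_p0_p4u | ⟨h_p0_p4l, h_p0_p4u⟩
                                              · linarith only [ht, h_p0_p4u, h_p10_p4l, h_p0_sl, h_p10_su]
                                              · rcases h_p8_p4 with ⟨h_p8_p4l, h_p8_p4u⟩ | h_p8_p4l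
                                                · linarith only [ht, h_p0_m7u, h_p8_m7l, h_p0_p4l, h_p8_p4u]
                                                · rcases h_m2_p4 with h_m2_p4u | ⟨h_m2_p4l, h_m2_p4u⟩
                                                  · rcases h_m2_m1 with h_m2_m1u | ⟨h_m2_m1l, h_m2_m1u⟩
                                                    · rcases h_m2_p1 with ⟨h_m2_p1l, h_m2_p1u⟩ | h_m2_p1l
                                                      · linarith only [ht, h_m2_m1u, h_p2_m1l, h_m2_p1l, h_p2_p1u]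
                                                      · linarith only [ht, h_m2_m1u, h_p0_m1l, h_m2_p1l, h_p0_p1u]
                                                    · linarith only [ht, h_m2_p4u, h_p0_p4l, h_m2_m1l, h_p0_m1u]
                                                  · rcases h_m2_m1 with h_m2_m1u | ⟨h_m2_m1l, h_m2_m1u⟩
                                                    · linarith only [ht, h_m2_m1u, h_p10_m1l, h_m2_p4l, h_p10_p4u]
                                                    · linarith only [ht, h_m2_p4u, h_p8_p4l, h_m2_m1l, h_p8_m1u]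
                                            · rcases h_p0_p4 with h_p0_p4u | ⟨h_p0_p4l, h_p0_p4u⟩
                                              · linarith only [ht, h_p0_p4u, h_p10_p4l, h_p0_sl, h_p10_su]
                                              · linarith only [ht, h_p0_p4u, h_p10_p4l, h_p0_sl, h_p10_su]
                                          · linarith only [ht, h_p6_su, h_p10_sl, h_p6_m1l, h_p10_m1u]
                                        · rcases h_p10_m4 with h_p10_m4u | ⟨h_p10_m4l, h_p10_m4u⟩
                                          · linarith only [ht, h_p0_m1u, h_p10_m1l, h_p0_m4l, h_p10_m4u]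
                                          · linarith only [ht, h_p3_m1u, h_p10_m1l, h_p3_m4l, h_p10_m4u]
                                  · rcases h_p0_m4 with h_p0_m4u | ⟨h_p0_m4l, h_p0_m4u⟩
                                    · linarith only [ht, h_p0_m4u, h_p2_m4l, h_p0_p1l, h_p2_p1u]
                                    · linarith only [ht, h_p0_m4u, h_p2_m4l, h_p0_p1l, h_p2_p1u]
                                · linarith only [ht, h_p0_m1u, h_p6_m1l, h_p0_m7l, h_p6_m7u]
                            · linarith only [ht, h_p0_m1u, h_p2_m1l, h_p0_p1l, h_p2_p1u]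
                        · linarith only [ht, h_p0_p1u, h_p2_p1l, h_p0_sl, h_p2_su]
                      · rcases h_p2_p1 with h_p2_p1u | ⟨h_p2_p1l, h_p2_p1u⟩
                        · linarith only [ht, h_p0_su, h_p2_sl, h_p0_p1l, h_p2_p1u]
                        · rcases h_p2_m5 with h_p2_m5u | ⟨h_p2_m5l, h_p2_m5u⟩
                          · rcases h_p6_m5 with ⟨h_p6_m5l, h_p6_m5u⟩ | h_p6_m5l
                            · linarith only [ht, h_p2_m5u, h_p6_m5l, h_p2_p1l, h_p6_p1u]
                            · linarith only [ht, h_p2_m5u, h_p6_m5l, h_p2_p1l, h_p6_p1u]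
                          · rcases h_p6_m5 with ⟨h_p6_m5l, h_p6_m5u⟩ | h_p6_m5l
                            · rcases h_p2_m1 with ⟨h_p2_m1l, h_p2_m1u⟩ | h_p2_m1l
                              · rcases h_p6_m1 with h_p6_m1u | ⟨h_p6_m1l, h_p6_m1u⟩
                                · rcases h_p0_m7 with h_p0_m7u | ⟨h_p0_m7l, h_p0_m7u⟩
                                  · linarith only [ht, h_p0_m7u, h_p6_m7l, h_p0_m1l, h_p6_m1u]
                                  · rcases h_p0_p4 with h_p0_p4u | ⟨h_p0_p4l, h_p0_p4u⟩
                                    · rcases h_p8_p4 with ⟨h_p8_p4l, h_p8_p4u⟩ | h_p8_p4l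
                                      · linarith only [ht, h_p0_p4u, h_p8_p4l, h_p0_m7l, h_p8_m7u]
                                      · linarith only [ht, h_p0_p4u, h_p8_p4l, h_p0_m7l, h_p8_m7u]
                                    · rcases h_p8_p4 with ⟨h_p8_p4l, h_p8_p4u⟩ | h_p8_p4l
                                      · rcases h_p3_p4 with ⟨h_p3_p4l, h_p3_p4u⟩ | h_p3_p4l
                                        · linarith only [ht, h_p0_m1u, h_p3_m1l, h_p0_p4l, h_p3_p4u]
                                        · rcases h_p2_p4 with h_p2_p4u | ⟨h_p2_p4l, h_p2_p4u⟩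
                                          · linarith only [ht, h_p0_p1u, h_p2_p1l, h_p0_p4l, h_p2_p4u]
                                          · rcases h_m2_p4 with h_m2_p4u | ⟨h_m2_p4l, h_m2_p4u⟩
                                            · rcases h_m2_m1 with h_m2_m1u | ⟨h_m2_m1l, h_m2_m1u⟩
                                              · rcases h_m2_p1 with ⟨h_m2_p1l, h_m2_p1u⟩ | h_m2_p1l
                                                · rcases h_m6_m5 with h_m6_m5u | ⟨h_m6_m5l, h_m6_m5u⟩
                                                  · rcases h_m6_p1 with h_m6_p1u | ⟨h_m6_p1l, h_m6_p1u⟩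
                                                    · rcases h_m6_p4 with ⟨h_m6_p4l, h_m6_p4u⟩ | h_m6_p4l
                                                      · linarith only [ht, h_m6_p1u, h_m2_p1l, h_m6_p4l, h_m2_p4u]
                                                      · linarith only [ht, h_m6_p1u, h_m2_p1l, h_m6_p4l, h_m2_p4u]
                                                    · linarith only [ht, h_m6_m5u, h_p6_m5l, h_m6_p1l, h_p6_p1u]
                                                  · rcases h_m6_p1 with h_m6_p1u | ⟨h_m6_p1l, h_m6_p1u⟩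
                                                    · linarith only [ht, h_m6_p1u, h_p6_p1l, h_m6_m5l, h_p6_m5u]
                                                    · rcases h_m6_p4 with ⟨h_m6_p4l, h_m6_p4u⟩ | h_m6_p4l
                                                      · linarith only [ht, h_m6_p4u, h_p0_p4l, h_m6_p1l, h_p0_p1u]
                                                      · rcases h_m6_s with h_m6_su | ⟨h_m6_sl, h_m6_su⟩
                                                        · linarith only [ht, h_m6_su, h_p0_sl, h_m6_p1l, h_p0_p1u]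
                                                        · linarith only [ht, h_m6_su, h_p2_sl, h_m6_p4l, h_p2_p4u]
                                                · linarith only [ht, h_m2_m1u, h_p0_m1l, h_m2_p1l, h_p0_p1u]
                                              · linarith only [ht, h_m2_p4u, h_p0_p4l, h_m2_m1l, h_p0_m1u]
                                            · rcases h_m2_m1 with h_m2_m1u | ⟨h_m2_m1l, h_m2_m1u⟩
                                              · linarith only [ht, h_m2_m1u, h_p8_m1l, h_m2_p4l, h_p8_p4u]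
                                              · rcases h_m2_p1 with ⟨h_m2_p1l, h_m2_p1u⟩ | h_m2_p1l
                                                · linarith only [ht, h_m2_p1u, h_p2_p1l, h_m2_m1l, h_p2_m1u]
                                                · linarith only [ht, h_m2_p4u, h_p3_p4l, h_m2_p1l, h_p3_p1u]
                                      · linarith only [ht, h_p0_p4u, h_p8_p4l, h_p0_m7l, h_p8_m7u]
                                · linarith only [ht, h_p2_m1u, h_p6_m1l, h_p2_m5l, h_p6_m5u]
                              · rcases h_p3_m5 with ⟨h_p3_m5l, h_p3_m5u⟩ | h_p3_m5l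
                                · rcases h_p2_p4 with h_p2_p4u | ⟨h_p2_p4l, h_p2_p4u⟩
                                  · rcases h_p8_p4 with ⟨h_p8_p4l, h_p8_p4u⟩ | h_p8_p4l
                                    · linarith only [ht, h_p2_p4u, h_p8_p4l, h_p2_m1l, h_p8_m1u]
                                    · linarith only [ht, h_p2_p4u, h_p8_p4l, h_p2_m1l, h_p8_m1u]
                                  · rcases h_p3_p4 with ⟨h_p3_p4l, h_p3_p4u⟩ | h_p3_p4l
                                    · rcases h_p0_p4 with h_p0_p4u | ⟨h_p0_p4l, h_p0_p4u⟩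
                                      · rcases h_m6_p4 with ⟨h_m6_p4l, h_m6_p4u⟩ | h_m6_p4l
                                        · rcases h_m6_p1 with h_m6_p1u | ⟨h_m6_p1l, h_m6_p1u⟩
                                          · linarith only [ht, h_m6_p1u, h_p0_p1l, h_m6_p4l, h_p0_p4u]
                                          · rcases h_m6_m5 with h_m6_m5u | ⟨h_m6_m5l, h_m6_m5u⟩
                                            · linarith only [ht, h_m6_m5u, h_p6_m5l, h_m6_p1l, h_p6_p1u]
                                            · rcases h_m6_s with h_m6_su | ⟨h_m6_sl, h_m6_su⟩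
                                              · linarith only [ht, h_m6_su, h_p0_sl, h_m6_p1l, h_p0_p1u]
                                              · linarith only [ht, h_m6_su, h_p3_sl, h_m6_m5l, h_p3_m5u]
                                        · rcases h_m6_s with h_m6_su | ⟨h_m6_sl, h_m6_su⟩
                                          · linarith only [ht, h_m6_su, h_p0_sl, h_m6_p4l, h_p0_p4u]
                                          · linarith only [ht, h_m6_su, h_p2_sl, h_m6_p4l, h_p2_p4u]
                                      · linarith only [ht, h_p0_m1u, h_p3_m1l, h_p0_p4l, h_p3_p4u]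
                                    · linarith only [ht, h_p2_p4u, h_p3_p4l, h_p2_m1l, h_p3_m1u]
                                · linarith only [ht, h_p2_m5u, h_p3_m5l, h_p2_m1l, h_p3_m1u]
                            · linarith only [ht, h_p2_m5u, h_p6_m5l, h_p2_p1l, h_p6_p1u]
                    · linarith only [ht, h_p3_m7u, h_p6_m7l, h_p3_p1l, h_p6_p1u]
                  · rcases h_p6_s with h_p6_su | ⟨h_p6_sl, h_p6_su⟩
                    · linarith only [ht, h_p0_p1u, h_p6_p1l, h_p0_sl, h_p6_su]
                    · linarith only [ht, h_p3_p1u, h_p6_p1l, h_p3_sl, h_p6_su]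
              · rcases h_p3_m7 with h_p3_m7u | ⟨h_p3_m7l, h_p3_m7u⟩
                · linarith only [ht, h_p3_m7u, h_p8_m7l, h_p3_m1l, h_p8_m1u]
                · linarith only [ht, h_p3_m7u, h_p8_m7l, h_p3_m1l, h_p8_m1u]
            · rcases h_p8_s with h_p8_su | ⟨h_p8_sl, h_p8_su⟩
              · linarith only [ht, h_p0_m1u, h_p8_m1l, h_p0_sl, h_p8_su]
              · linarith only [ht, h_p3_m1u, h_p8_m1l, h_p3_sl, h_p8_su]
        · rcases h_p3_p1 with h_p3_p1u | ⟨h_p3_p1l, h_p3_p1u⟩
          · linarith only [ht, h_p0_m1u, h_p3_m1l, h_p0_p1l, h_p3_p1u]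
          · linarith only [ht, h_p0_m1u, h_p3_m1l, h_p0_p1l, h_p3_p1u]
      · linarith only [ht, h_p0_su, h_p3_sl, h_p0_m1l, h_p3_m1u]

theorem locL {u t d : ℝ} (ht : 1 < t) (h1 : 3.55 < u) (h2 : u < 3.7) (h3 : 0 < d)
    (h4 : d < 0.1) (ρ σ : ℝ → ℝ) (H : ∀ i j : ℤ, |i| ≤ 60 → |j| ≤ 60 →
      (In u (i / 4 + j / 4) ↔ In t (ρ (i / 4) + σ (j / 4))))
    (K : ∀ i : ℤ, |i| ≤ 60 → (In u (i / 4 + (-1 - d / 2)) ↔ In t (ρ (i / 4) + σ (-1 - d / 2)))) :
    ρ ((0 : ℤ) / 4) + σ (-1 - d / 2) < -1 :=
  gadL ht
    (nn (H (-4) (-1) (by decide) (by decide)) (Or.inl (by push_cast; linarith))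
      (by push_cast; linarith))
    (eM (H (-4) (3) (by decide) (by decide)) (by push_cast; linarith)
      (by push_cast; linarith))
    (nn (H (-4) (9) (by decide) (by decide)) (Or.inr (by push_cast; linarith))
      (by push_cast; linarith))
    (nn (K (-12) (by decide)) (Or.inl (by push_cast; linarith))
      (by push_cast; linarith))
    (nn (H (-12) (-9) (by decide) (by decide)) (Or.inl (by push_cast; linarith))
      (by push_cast; linarith))
    (nn (H (-12) (3) (by decide) (by decide)) (Or.inl (by push_cast; linarith))
      (by push_cast; linarith))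
    (eM (H (-12) (9) (by decide) (by decide)) (by push_cast; linarith)
      (by push_cast; linarith))
    (nn (K (0) (by decide)) (Or.inl (by push_cast; linarith))
      (by push_cast; linarith))
    (eM (H (0) (-1) (by decide) (by decide)) (by push_cast; linarith)
      (by push_cast; linarith))
    (nn (H (0) (-7) (by decide) (by decide)) (Or.inl (by push_cast; linarith))
      (by push_cast; linarith))
    (nn (H (0) (-13) (by decide) (by decide)) (Or.inl (by push_cast; linarith))
      (by push_cast; linarith))
    (eM (H (0) (3) (by decide) (by decide)) (by push_cast; linarith)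
      (by push_cast; linarith))
    (nn (H (0) (9) (by decide) (by decide)) (Or.inr (by push_cast; linarith))
      (by push_cast; linarith))
    (eH (K (20) (by decide)) (by push_cast; linarith))
    (eH (H (20) (-1) (by decide) (by decide)) (by push_cast; linarith))
    (nn (H (20) (-7) (by decide) (by decide)) (Or.inr (by push_cast; linarith))
      (by push_cast; linarith))
    (nn (H (20) (-9) (by decide) (by decide)) (Or.inr (by push_cast; linarith))
      (by push_cast; linarith))
    (nn (H (20) (-13) (by decide) (by decide)) (Or.inr (by push_cast; linarith))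
      (by push_cast; linarith))
    (eH (H (20) (9) (by decide) (by decide)) (by push_cast; linarith))
    (eM (K (4) (by decide)) (by push_cast; linarith)
      (by push_cast; linarith))
    (eM (H (4) (-1) (by decide) (by decide)) (by push_cast; linarith)
      (by push_cast; linarith))
    (eM (H (4) (-7) (by decide) (by decide)) (by push_cast; linarith)
      (by push_cast; linarith))
    (nn (H (4) (-9) (by decide) (by decide)) (Or.inl (by push_cast; linarith))
      (by push_cast; linarith))
    (nn (H (4) (3) (by decide) (by decide)) (Or.inr (by push_cast; linarith))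
      (by push_cast; linarith))
    (nn (H (4) (9) (by decide) (by decide)) (Or.inr (by push_cast; linarith))
      (by push_cast; linarith))
    (eM (K (6) (by decide)) (by push_cast; linarith)
      (by push_cast; linarith))
    (nn (H (6) (-1) (by decide) (by decide)) (Or.inr (by push_cast; linarith))
      (by push_cast; linarith))
    (eM (H (6) (-7) (by decide) (by decide)) (by push_cast; linarith)
      (by push_cast; linarith))
    (eM (H (6) (-9) (by decide) (by decide)) (by push_cast; linarith)
      (by push_cast; linarith))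
    (nn (H (6) (-13) (by decide) (by decide)) (Or.inl (by push_cast; linarith))
      (by push_cast; linarith))
    (nn (H (6) (3) (by decide) (by decide)) (Or.inr (by push_cast; linarith))
      (by push_cast; linarith))
    (eH (H (6) (9) (by decide) (by decide)) (by push_cast; linarith))
    (nn (K (12) (by decide)) (Or.inr (by push_cast; linarith))
      (by push_cast; linarith))
    (nn (H (12) (-1) (by decide) (by decide)) (Or.inr (by push_cast; linarith))
      (by push_cast; linarith))
    (eM (H (12) (-9) (by decide) (by decide)) (by push_cast; linarith)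
      (by push_cast; linarith))
    (eM (H (12) (-13) (by decide) (by decide)) (by push_cast; linarith)
      (by push_cast; linarith))
    (eH (H (12) (3) (by decide) (by decide)) (by push_cast; linarith))
    (nn (K (16) (by decide)) (Or.inr (by push_cast; linarith))
      (by push_cast; linarith))
    (eH (H (16) (-1) (by decide) (by decide)) (by push_cast; linarith))
    (eM (H (16) (-13) (by decide) (by decide)) (by push_cast; linarith)
      (by push_cast; linarith))
    (eH (H (16) (9) (by decide) (by decide)) (by push_cast; linarith))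

end Pool.Agent.H16.Thr
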