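import Mathlib

open Finset

namespace H16.UF

lemma bin (J : ℕ) : ∀ c : ℕ, c < 2 ^ J →
    ∃ F : Finset ℕ, (∀ e ∈ F, e ≤ J) ∧ ∑ e ∈ F, (1 : ℝ) / 2 ^ e = c / 2 ^ J := by
  induction J with
  | zero => intro c hc; refine ⟨∅, by simp, ?_⟩; have : c = 0 := by simpa using hc
            simp [this]
  | succ J ih =>
    intro c hc
    obtain ⟨F, hF, hs⟩ := ih (c / 2) (by rw [pow_succ] at hc; omega)
    rcases Nat.even_or_odd' c with ⟨k, hk | hk⟩
    · have : c / 2 = k := by omega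
      refine ⟨F, fun e he => (hF e he).trans (Nat.le_succ _), ?_⟩
      rw [hs, this, hk]; push_cast; field_simp; ring
    · have : c / 2 = k := by omega
      have hn : J + 1 ∉ F := fun h => by have := hF _ h; omega
      refine ⟨insert (J + 1) F, ?_, ?_⟩
      · intro e he
        rcases mem_insert.1 he with rfl | he
        · exact le_rfl
        · exact (hF e he).trans (Nat.le_succ _)
      · rw [sum_insert hn, hs, this, hk]; push_cast; field_simp; ring

lemma pf (S : Finset ℕ) (hS : (S : Set ℕ).Pairwise Nat.Coprime) (hp : ∀ d ∈ S, 0 < d) :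
    ∀ n : ℤ, ∃ (c0 : ℤ) (c : ℕ → ℕ), (∀ d ∈ S, c d < d) ∧
      (n : ℝ) / (∏ d ∈ S, d : ℕ) = c0 + ∑ d ∈ S, (c d : ℝ) / d := by
  classical
  induction S using Finset.induction_on with
  | empty => intro n; exact ⟨n, fun _ => 0, by simp, by simp⟩
  | insert a s ha ih =>
    intro n
    have hS' : (s : Set ℕ).Pairwise Nat.Coprime := hS.mono (by simp)
    have hp' : ∀ d ∈ s, 0 < d := fun d hd => hp d (mem_insert_of_mem hd)
    have ha0 : 0 < a := hp a (mem_insert_self _ _)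
    set D := ∏ d ∈ s, d with hD
    have hD0 : 0 < D := prod_pos hp'
    have hc : Nat.Coprime a D := Nat.Coprime.prod_right fun d hd =>
      hS (by simp) (by simp [hd]) (fun h => ha (h ▸ hd))
    obtain ⟨x, y, hxy⟩ := Nat.isCoprime_iff_coprime.2 hc
    obtain ⟨c0, c, hc1, hc2⟩ := ih hS' hp' (n * x)
    have hm : 0 ≤ (n * y) % a := Int.emod_nonneg _ (by exact_mod_cast ha0.ne')
    have hm2 : (n * y) % a < a := Int.emod_lt_of_pos _ (by exact_mod_cast ha0)
    refine ⟨c0 + (n * y) / a, Function.update c a ((n * y) % a).toNat, ?_, ?_⟩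
    · intro d hd
      rcases mem_insert.1 hd with rfl | hd
      · simp only [Function.update_self]; omega
      · rw [Function.update_of_ne (ne_of_mem_of_not_mem hd ha)]; exact hc1 d hd
    · rw [sum_insert ha, prod_insert ha, Function.update_self]
      have e1 : ∑ d ∈ s, ((Function.update c a ((n * y) % a).toNat d : ℕ) : ℝ) / d
          = ∑ d ∈ s, (c d : ℝ) / d :=
        sum_congr rfl fun d hd => by rw [Function.update_of_ne (ne_of_mem_of_not_mem hd ha)]
      have e2 : ((((n * y) % a).toNat : ℕ) : ℝ) = (((n * y) % a : ℤ) : ℝ) := by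
        rw [← Int.cast_natCast, Int.toNat_of_nonneg hm]
      have e3 : (((n * y) % a : ℤ) : ℝ) + a * (((n * y) / a : ℤ) : ℝ) = n * y := by
        exact_mod_cast Int.emod_add_mul_ediv (n * y) a
      have e4 : (x : ℝ) * a + y * D = 1 := by exact_mod_cast hxy
      have a0 : (a : ℝ) ≠ 0 := by exact_mod_cast ha0.ne'
      have D0 : (D : ℝ) ≠ 0 := by exact_mod_cast hD0.ne'
      rw [e1, e2, ← hD]
      have e5 : ∑ d ∈ s, (c d : ℝ) / d = (n * x) / D - c0 := by
        push_cast at hc2; rw [hc2]; ring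
      rw [e5]; push_cast
      have e6 : (((n * y) % a : ℤ) : ℝ) = n * y - a * (((n * y) / a : ℤ) : ℝ) := by linarith
      rw [e6]; field_simp
      linear_combination (-(n : ℝ)) * e4

lemma odd_inj {a b e f : ℕ} (ha : Odd a) (hb : Odd b) (h : 2 ^ e * a = 2 ^ f * b) :
    a = b ∧ e = f := by
  have h1 : ∀ {a b e f : ℕ}, Odd a → 2 ^ e * a = 2 ^ f * b → f ≤ e := by
    intro a b e f ha h
    have : 2 ^ f ∣ 2 ^ e * a := h ▸ Dvd.intro _ rfl
    have h2 : 2 ^ f ∣ 2 ^ e :=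
      (Nat.Coprime.pow_left f (Nat.coprime_two_left.2 ha)).dvd_of_dvd_mul_right this
    exact (Nat.pow_dvd_pow_iff_le_right (by norm_num)).1 h2
  have := le_antisymm (h1 hb h.symm) (h1 ha h)
  subst this
  exact ⟨Nat.eq_of_mul_eq_mul_left (by positivity) h, rfl⟩

lemma corr (J : ℕ) (S : Finset ℕ) (hS : (S : Set ℕ).Pairwise Nat.Coprime)
    (ho : ∀ d ∈ S, Odd d ∧ 1 < d ∧ d ≤ 2 ^ J) (n : ℕ)
    (h1 : S.card * ∏ d ∈ S, d ≤ n) (h2 : n < 2 ^ J * ∏ d ∈ S, d) :
    ∃ E : Finset ℕ, (∀ m ∈ E, m ∣ 2 ^ J * ∏ d ∈ S, d ∧ m ≤ 2 ^ J * 2 ^ J) ∧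
      ∑ m ∈ E, (1 : ℝ) / m = n / (2 ^ J * ∏ d ∈ S, d : ℕ) := by
  classical
  have hp : ∀ d ∈ S, 0 < d := fun d hd => by have := (ho d hd).2.1; omega
  obtain ⟨c0, c, hc1, hc2⟩ := pf S hS hp n
  set D := ∏ d ∈ S, d with hD
  have hD0 : (0 : ℝ) < D := by exact_mod_cast prod_pos hp
  have hs0 : 0 ≤ ∑ d ∈ S, (c d : ℝ) / d := sum_nonneg fun d _ => by positivity
  have hs1 : ∑ d ∈ S, (c d : ℝ) / d ≤ S.card := by
    calc _ ≤ ∑ _d ∈ S, (1 : ℝ) := sum_le_sum fun d hd => by
            rw [div_le_one (by exact_mod_cast hp d hd)]; exact_mod_cast (hc1 d hd).le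
      _ = _ := by simp
  push_cast at hc2
  have hlo : (S.card : ℝ) ≤ n / D := by
    rw [le_div_iff₀ hD0]; exact_mod_cast h1
  have hhi : (n : ℝ) / D < 2 ^ J := by
    rw [div_lt_iff₀ hD0]; exact_mod_cast h2
  have c0n : 0 ≤ c0 := by
    have : (0 : ℝ) ≤ c0 := by linarith
    exact_mod_cast this
  have c0l : c0.toNat < 2 ^ J := by
    have : (c0 : ℝ) < 2 ^ J := by linarith
    have h3 : c0 < 2 ^ J := by exact_mod_cast this
    zify; rw [Int.toNat_of_nonneg c0n]; exact h3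
  have h1S : 1 ∉ S := fun h => by have := (ho 1 h).2.1; omega
  let c' := Function.update c 1 c0.toNat
  have hc' : ∀ d ∈ insert 1 S, c' d < 2 ^ J := by
    intro d hd
    rcases mem_insert.1 hd with rfl | hd
    · simpa [c'] using c0l
    · simp only [c']; rw [Function.update_of_ne (ne_of_mem_of_not_mem hd h1S)]
      exact (hc1 d hd).trans_le (ho d hd).2.2
  have hodd : ∀ d ∈ insert 1 S, Odd d := by
    intro d hd
    rcases mem_insert.1 hd with rfl | hd
    · exact odd_one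
    · exact (ho d hd).1
  choose! F hF hFs using fun d (hd : d ∈ insert 1 S) => bin J (c' d) (hc' d hd)
  refine ⟨((insert 1 S).sigma F).image (fun x => 2 ^ x.2 * x.1), ?_, ?_⟩
  · intro m hm
    obtain ⟨⟨d, e⟩, hx, rfl⟩ := mem_image.1 hm
    obtain ⟨hd, he⟩ := mem_sigma.1 hx
    have heJ : e ≤ J := hF d hd e he
    refine ⟨mul_dvd_mul (pow_dvd_pow _ heJ) ?_,
      Nat.mul_le_mul (Nat.pow_le_pow_right (by norm_num) heJ) ?_⟩
    · rcases mem_insert.1 hd with h | h
      · simp only at h ⊢; rw [h]; exact one_dvd _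
      · exact dvd_prod_of_mem (fun d => d) h
    · rcases mem_insert.1 hd with h | h
      · simp only at h ⊢; rw [h]; exact Nat.one_le_two_pow
      · exact (ho d h).2.2
  · rw [sum_image, sum_sigma]
    · have e1 : ∀ d ∈ insert 1 S, ∑ e ∈ F d, (1 : ℝ) / ((2 ^ e * d : ℕ) : ℝ)
          = (c' d / d) / 2 ^ J := by
        intro d hd
        have : ∑ e ∈ F d, (1 : ℝ) / ((2 ^ e * d : ℕ) : ℝ)
            = (∑ e ∈ F d, (1 : ℝ) / 2 ^ e) / d := by
          rw [sum_div]; refine sum_congr rfl fun e _ => ?_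
          push_cast; rw [div_div]
        rw [this, hFs d hd]; ring
      rw [sum_congr rfl e1, ← sum_div, sum_insert h1S]
      have e2 : ∑ d ∈ S, (c' d : ℝ) / d = ∑ d ∈ S, (c d : ℝ) / d :=
        sum_congr rfl fun d hd => by
          simp only [c']; rw [Function.update_of_ne (ne_of_mem_of_not_mem hd h1S)]
      have e3 : (c' 1 : ℝ) = c0 := by
        simp only [c', Function.update_self]
        rw [← Int.cast_natCast, Int.toNat_of_nonneg c0n]
      rw [e2, e3]; push_cast; rw [div_one, ← hc2, div_div, mul_comm]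
    · rintro ⟨d, e⟩ hx ⟨d', e'⟩ hx' h
      obtain ⟨rfl, rfl⟩ := odd_inj (hodd d (mem_sigma.1 hx).1) (hodd d' (mem_sigma.1 hx').1) h
      rfl

lemma solve {q M : ℕ} (hq : 0 < q) (h : Nat.Coprime q M) (a b : ℕ) :
    ∃ n, b ≤ n ∧ n < b + q ∧ q ∣ a + n * M := by
  obtain ⟨x, y, hxy⟩ := Nat.isCoprime_iff_coprime.2 h
  have q0 : (q : ℤ) ≠ 0 := by exact_mod_cast hq.ne'
  set w : ℤ := -(a + b * M) * y with hw
  have hm : 0 ≤ w % q := Int.emod_nonneg _ q0
  have hm2 : w % q < q := Int.emod_lt_of_pos _ (by exact_mod_cast hq)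
  refine ⟨b + (w % q).toNat, by omega, by omega, ?_⟩
  rw [← Int.natCast_dvd_natCast]; push_cast
  rw [Int.toNat_of_nonneg hm]
  refine ⟨(a + b * M) * x - (w / q) * M, ?_⟩
  have e := Int.emod_add_mul_ediv w q
  linear_combination M * e + M * hw - (a + b * M) * hxy

lemma cancel (Δ b : ℕ) (P : Finset ℕ) (hP : ∀ p ∈ P, p.Prime) : ∀ a : ℕ,
    ∃ (n : ℕ → ℕ) (a' : ℕ), (∀ p ∈ P, b ≤ n p ∧ n p < b + p) ∧
      (a : ℝ) / (Δ * ∏ p ∈ P, p : ℕ) + ∑ p ∈ P, (n p : ℝ) / Δ / p = a' / Δ := by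
  classical
  induction P using Finset.induction_on with
  | empty => intro a; exact ⟨fun _ => 0, a, by simp, by simp⟩
  | insert q s hq ih =>
    intro a
    have hq' := hP q (mem_insert_self _ _)
    have hs : ∀ p ∈ s, p.Prime := fun p hp => hP p (mem_insert_of_mem hp)
    set M := ∏ p ∈ s, p with hM
    have hc : Nat.Coprime q M := Nat.Coprime.prod_right fun p hp =>
      (Nat.coprime_primes hq' (hs p hp)).2 (fun h => hq (h ▸ hp))
    obtain ⟨m, hm1, hm2, a1, ha1⟩ := solve hq'.pos hc a b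
    obtain ⟨n, a', hn, he⟩ := ih hs a1
    refine ⟨Function.update n q m, a', ?_, ?_⟩
    · intro p hp
      rcases mem_insert.1 hp with rfl | hp
      · simp [hm1, hm2]
      · rw [Function.update_of_ne (ne_of_mem_of_not_mem hp hq)]; exact hn p hp
    · rw [sum_insert hq, prod_insert hq, Function.update_self, ← he, ← hM]
      have e1 : ∑ p ∈ s, ((Function.update n q m p : ℕ) : ℝ) / Δ / p
          = ∑ p ∈ s, (n p : ℝ) / Δ / p :=
        sum_congr rfl fun d hd => by rw [Function.update_of_ne (ne_of_mem_of_not_mem hd hq)]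
      rw [e1, ← add_assoc]; congr 1
      have q0 : (q : ℝ) ≠ 0 := by exact_mod_cast hq'.ne_zero
      have M0 : (M : ℝ) ≠ 0 := by exact_mod_cast (prod_pos fun p hp => (hs p hp).pos).ne'
      have e2 : (a : ℝ) + m * M = q * a1 := by exact_mod_cast ha1
      by_cases hΔ : (Δ : ℝ) = 0
      · simp [hΔ]
      push_cast; field_simp; linear_combination e2

lemma recip (R : Finset ℕ) (hR : ∀ p ∈ R, p.Prime) :
    ∃ σ : ℕ, Nat.Coprime (∏ p ∈ R, p) σ ∧ ∑ p ∈ R, (1 : ℝ) / p = σ / (∏ p ∈ R, p : ℕ) := by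
  classical
  induction R using Finset.induction_on with
  | empty => exact ⟨0, by simp, by simp⟩
  | insert q s hq ih =>
    have hq' := hR q (mem_insert_self _ _)
    have hs : ∀ p ∈ s, p.Prime := fun p hp => hR p (mem_insert_of_mem hp)
    obtain ⟨σ, h1, h2⟩ := ih hs
    set M := ∏ p ∈ s, p with hM
    have hc : Nat.Coprime q M := Nat.Coprime.prod_right fun p hp =>
      (Nat.coprime_primes hq' (hs p hp)).2 (fun h => hq (h ▸ hp))
    refine ⟨M + q * σ, ?_, ?_⟩
    · rw [prod_insert hq, ← hM]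
      refine Nat.Coprime.mul_left ?_ ?_
      · exact (Nat.coprime_add_mul_left_right q M σ).2 hc
      · rw [Nat.coprime_self_add_right]; exact Nat.Coprime.mul_right hc.symm h1
    · rw [sum_insert hq, prod_insert hq, h2, ← hM]
      have q0 : (q : ℝ) ≠ 0 := by exact_mod_cast hq'.ne_zero
      have M0 : (M : ℝ) ≠ 0 := by exact_mod_cast (prod_pos fun p hp => (hs p hp).pos).ne'
      push_cast; field_simp

lemma ivt (f : ℕ → ℝ) (c η : ℝ) (hc : 0 < c) (hf : ∀ i, f i ≤ η) (n : ℕ)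
    (hn : c ≤ ∑ i ∈ range n, f i) :
    ∃ t ≤ n, c ≤ ∑ i ∈ range t, f i ∧ ∑ i ∈ range t, f i < c + η := by
  induction n with
  | zero => simp at hn; linarith
  | succ n ih =>
    by_cases h : c ≤ ∑ i ∈ range n, f i
    · obtain ⟨t, ht, h2⟩ := ih h; exact ⟨t, by omega, h2⟩
    · refine ⟨n + 1, le_rfl, hn, ?_⟩
      rw [sum_range_succ]; have := hf n; linarith [not_le.1 h]

lemma sum_dvd (B : Finset ℕ) (L : ℕ) (hL : 0 < L) (h : ∀ b ∈ B, b ∣ L) :
    ∑ b ∈ B, (1 : ℝ) / b = ((∑ b ∈ B, L / b : ℕ) : ℝ) / L := by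
  rw [Nat.cast_sum, sum_div]
  refine sum_congr rfl fun b hb => ?_
  have L0 : (L : ℝ) ≠ 0 := by exact_mod_cast hL.ne'
  have b0 : (b : ℝ) ≠ 0 := by exact_mod_cast (Nat.pos_of_dvd_of_pos (h b hb) hL).ne'
  rw [Nat.cast_div (h b hb) b0]; field_simp

end H16.UF
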