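import Pool.Agent.H16.UnitFr1

open Finset

namespace H16.UF

def Adm (A : Finset ℕ) : Prop :=
  ∃ δ : ℕ → ℤ, (∀ n ∈ A, δ n = -1 ∨ δ n = 1) ∧ ∑ n ∈ A, (δ n : ℝ) / n = 0 ∧
    ∀ A' : Finset ℕ, A'.Nonempty → A' ⊂ A → ∑ n ∈ A', (δ n : ℝ) / n ≠ 0

lemma pint (p : ℕ) (hp : p.Prime) (δ : ℕ → ℤ) (s : Finset ℕ) (h : ∀ n ∈ s, ¬ p ∣ n) :
    ∃ (a : ℤ) (K : ℕ), ¬ p ∣ K ∧ ∑ n ∈ s, (δ n : ℝ) / n = a / K := by
  classical
  induction s using Finset.induction_on with
  | empty => exact ⟨0, 1, hp.not_dvd_one, by simp⟩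
  | insert n s hn ih =>
    obtain ⟨a, K, hK, he⟩ := ih fun m hm => h m (mem_insert_of_mem hm)
    have hn' := h n (mem_insert_self _ _)
    refine ⟨δ n * K + a * n, n * K, fun h => (hp.dvd_mul.1 h).elim hn' hK, ?_⟩
    have n0 : (n : ℝ) ≠ 0 := by
      have : n ≠ 0 := by rintro rfl; exact hn' (dvd_zero _)
      exact_mod_cast this
    have K0 : (K : ℝ) ≠ 0 := by
      have : K ≠ 0 := by rintro rfl; exact hK (dvd_zero _)
      exact_mod_cast this
    rw [sum_insert hn, he]; push_cast; field_simp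

lemma harm (T t : ℕ) (ht : t ≤ T) (M : Finset ℕ) (hM : M ⊆ range t) :
    ∃ g : ℕ, g ≤ T * T.factorial ∧ (M.Nonempty → 0 < g) ∧
      ∑ i ∈ M, (1 : ℝ) / (i + 1) = g / T.factorial := by
  have hd : ∀ i ∈ M, i + 1 ∣ T.factorial := fun i hi =>
    Nat.dvd_factorial (by omega) (by have := mem_range.1 (hM hi); omega)
  refine ⟨∑ i ∈ M, T.factorial / (i + 1), ?_, ?_, ?_⟩
  · calc _ ≤ ∑ _i ∈ M, T.factorial := sum_le_sum fun i _ => Nat.div_le_self _ _
      _ = M.card * T.factorial := by simp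
      _ ≤ _ := Nat.mul_le_mul_right _ (by simpa using (card_le_card hM).trans (by simpa using ht))
  · intro hne
    exact sum_pos (fun i hi => Nat.div_pos (Nat.le_of_dvd (Nat.factorial_pos _) (hd i hi))
      (by omega)) hne
  · rw [Nat.cast_sum, sum_div]
    refine sum_congr rfl fun i hi => ?_
    have L0 : (T.factorial : ℝ) ≠ 0 := by exact_mod_cast (Nat.factorial_pos _).ne'
    rw [Nat.cast_div (hd i hi) (by positivity)]; push_cast; field_simp

lemma adm (T t m0 L : ℕ) (R B : Finset ℕ) (ht : t ≤ T)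
    (hR : ∀ p ∈ R, p.Prime ∧ T * T.factorial < p ∧ ¬ p ∣ L) (hRne : R.Nonempty)
    (hm0 : T < m0) (hB : ∀ b ∈ B, b ∣ L) (hL : 0 < L)
    (hsum : ∑ b ∈ B, (1 : ℝ) / b = (∑ p ∈ R, (1 : ℝ) / p) * (∑ i ∈ range t, (1 : ℝ) / (i + 1))
      + 1 / ((∏ p ∈ R, p) * m0 : ℕ)) :
    ∃ A : Finset ℕ, Adm A ∧ B ⊆ A ∧ ∀ n ∈ A, n ∈ B ∨ (0 < n ∧ n ≤ (∏ p ∈ R, p) * m0) := by
  classical
  set Q := ∏ p ∈ R, p with hQ
  have Q0 : 0 < Q := prod_pos fun p hp => (hR p hp).1.pos
  have hT : ∀ p ∈ R, T < p := fun p hp =>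
    lt_of_le_of_lt (Nat.le_mul_of_pos_right _ (Nat.factorial_pos _)) (hR p hp).2.1
  have hpQ : ∀ p ∈ R, p ∣ Q := fun p hp => dvd_prod_of_mem (fun d => d) hp
  set C := (R ×ˢ range t).image (fun x => x.1 * (x.2 + 1)) with hC
  have hcross : ∀ p ∈ R, ∀ q ∈ R, ∀ i < t, p ∣ q * (i + 1) → p = q := by
    intro p hp q hq i hi h
    rcases (hR p hp).1.dvd_mul.1 h with h | h
    · exact (Nat.prime_dvd_prime_iff_eq (hR p hp).1 (hR q hq).1).1 h
    · have := Nat.le_of_dvd (by omega) h; have := hT p hp; omega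
  have hzC : Q * m0 ∉ C := by
    intro h
    obtain ⟨⟨p, i⟩, hx, he⟩ := mem_image.1 h
    obtain ⟨hp, hi⟩ := mem_product.1 hx
    have h1 := Nat.le_of_dvd Q0 (hpQ p hp)
    have h2 := mem_range.1 hi
    simp only at he h2 h1
    have : p * (i + 1) < Q * m0 :=
      Nat.mul_lt_mul_of_le_of_lt h1 (by omega) Q0
    omega
  have hnB : ∀ p ∈ R, ∀ n, p ∣ n → n ∉ B := fun p hp n h hb =>
    (hR p hp).2.2 (h.trans (hB n hb))
  have hCB : ∀ n ∈ insert (Q * m0) C, n ∉ B := by
    intro n hn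
    rcases mem_insert.1 hn with rfl | hn
    · obtain ⟨p, hp⟩ := hRne
      exact hnB p hp _ ((hpQ p hp).mul_right _)
    · obtain ⟨⟨p, i⟩, hx, rfl⟩ := mem_image.1 hn
      exact hnB p (mem_product.1 hx).1 _ (Dvd.intro _ rfl)
  let δ : ℕ → ℤ := fun n => if n ∈ B then 1 else -1
  have hB0 : ∀ b ∈ B, 0 < b := fun b hb => Nat.pos_of_dvd_of_pos (hB b hb) hL
  have tot : ∑ n ∈ B ∪ insert (Q * m0) C, (δ n : ℝ) / n = 0 := by
    rw [sum_union (disjoint_right.2 hCB)]
    have e1 : ∑ n ∈ B, (δ n : ℝ) / n = ∑ n ∈ B, (1 : ℝ) / n :=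
      sum_congr rfl fun n hn => by simp [δ, hn]
    have e2 : ∑ n ∈ insert (Q * m0) C, (δ n : ℝ) / n
        = - ∑ n ∈ insert (Q * m0) C, (1 : ℝ) / n := by
      rw [← sum_neg_distrib]
      exact sum_congr rfl fun n hn => by simp [δ, hCB n hn, neg_div]
    rw [e1, e2, sum_insert hzC, hsum, hC, sum_image, sum_product, sum_mul_sum]
    · have : ∀ p ∈ R, ∑ i ∈ range t, (1 : ℝ) / p * (1 / (i + 1))
          = ∑ i ∈ range t, (1 : ℝ) / ((p * (i + 1) : ℕ) : ℝ) := fun p _ =>
        sum_congr rfl fun i _ => by push_cast; rw [one_div_mul_one_div]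
      rw [sum_congr rfl this]; ring
    · rintro ⟨p, i⟩ hx ⟨q, j⟩ hy h
      obtain ⟨hp, hi⟩ := mem_product.1 hx
      obtain ⟨hq, hj⟩ := mem_product.1 hy
      simp only at h hp hq hi hj
      obtain rfl := hcross p hp q hq j (mem_range.1 hj) (h ▸ Dvd.intro _ rfl)
      have := Nat.eq_of_mul_eq_mul_left (hR p hp).1.pos h
      obtain rfl : i = j := by omega
      rfl
  have key : ∀ A' ⊆ B ∪ insert (Q * m0) C, Q * m0 ∉ A' → ∑ n ∈ A', (δ n : ℝ) / n = 0 →
      A' = ∅ := by
    intro A' hA hz hs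
    have s1 : ∀ p ∈ R, ∀ n ∈ A', ¬ p ∣ n := by
      intro p hp
      set M := (range t).filter (fun i => p * (i + 1) ∈ A') with hM
      have hf : A'.filter (fun n => p ∣ n) = M.image (fun i => p * (i + 1)) := by
        ext n
        simp only [mem_filter, mem_image, hM, mem_range]
        constructor
        · rintro ⟨hn, hd⟩
          rcases mem_union.1 (hA hn) with hb | hc
          · exact absurd hb (hnB p hp n hd)
          · rcases mem_insert.1 hc with rfl | hc
            · exact absurd hn hz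
            · obtain ⟨⟨q, i⟩, hx, rfl⟩ := mem_image.1 hc
              obtain ⟨hq, hi⟩ := mem_product.1 hx
              obtain rfl := hcross p hp q hq i (mem_range.1 hi) hd
              exact ⟨i, ⟨mem_range.1 hi, hn⟩, rfl⟩
        · rintro ⟨i, ⟨_, hn⟩, rfl⟩
          exact ⟨hn, Dvd.intro _ rfl⟩
      obtain ⟨g, hg1, hg2, hg3⟩ := harm T t ht M (filter_subset _ _)
      obtain ⟨a, K, hK, ha⟩ := pint p (hR p hp).1 δ (A'.filter (fun n => ¬ p ∣ n))
        (fun n hn => (mem_filter.1 hn).2)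
      have p0 : (p : ℝ) ≠ 0 := by exact_mod_cast (hR p hp).1.ne_zero
      rw [← sum_filter_add_sum_filter_not A' (fun n => p ∣ n), ha, hf, sum_image] at hs
      · have e : ∑ i ∈ M, (δ (p * (i + 1)) : ℝ) / ((p * (i + 1) : ℕ) : ℝ)
            = - (∑ i ∈ M, (1 : ℝ) / (i + 1)) / p := by
          rw [neg_div, sum_div, ← sum_neg_distrib]
          refine sum_congr rfl fun i _ => ?_
          have : p * (i + 1) ∉ B := hnB p hp _ (Dvd.intro _ rfl)
          simp only [δ, this, if_false]; push_cast; field_simp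
        rw [e, hg3] at hs
        have K0 : (K : ℝ) ≠ 0 := by
          have : K ≠ 0 := by rintro rfl; exact hK (dvd_zero _)
          exact_mod_cast this
        have L0 : (T.factorial : ℝ) ≠ 0 := by exact_mod_cast (Nat.factorial_pos _).ne'
        have e2 : (g : ℝ) * K = p * (a * T.factorial) := by
          field_simp at hs; linarith
        have e3 : (g : ℤ) * K = p * (a * T.factorial) := by exact_mod_cast e2
        have e4 : p ∣ g * K := by
          rw [← Int.natCast_dvd_natCast]; push_cast; exact ⟨_, e3⟩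
        have e5 : p ∣ g := ((hR p hp).1.dvd_mul.1 e4).resolve_right hK
        have e6 : g = 0 := Nat.eq_zero_of_dvd_of_lt e5 (hg1.trans_lt (hR p hp).2.1)
        have e7 : M = ∅ := by
          by_contra h
          have := hg2 (nonempty_iff_ne_empty.2 h); omega
        intro n hn hd
        have : n ∈ A'.filter (fun n => p ∣ n) := mem_filter.2 ⟨hn, hd⟩
        rw [hf, e7] at this; simp at this
      · intro i _ j _ h
        have := Nat.eq_of_mul_eq_mul_left (hR p hp).1.pos h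
        omega
    have s2 : ∀ n ∈ A', n ∈ B := by
      intro n hn
      rcases mem_union.1 (hA hn) with hb | hc
      · exact hb
      · rcases mem_insert.1 hc with rfl | hc
        · exact absurd hn hz
        · obtain ⟨⟨q, i⟩, hx, rfl⟩ := mem_image.1 hc
          exact absurd (Dvd.intro _ rfl) (s1 q (mem_product.1 hx).1 _ hn)
    by_contra h
    have : 0 < ∑ n ∈ A', (δ n : ℝ) / n := sum_pos (fun n hn => by
      have : (0 : ℝ) < n := by exact_mod_cast hB0 n (s2 n hn)
      simp only [δ, s2 n hn, if_true]; push_cast; positivity) (nonempty_iff_ne_empty.2 h)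
    linarith
  refine ⟨B ∪ insert (Q * m0) C, ⟨δ, fun n _ => ?_, tot, ?_⟩, subset_union_left, ?_⟩
  · by_cases h : n ∈ B <;> simp [δ, h]
  · intro A' hne hss hs
    by_cases hz : Q * m0 ∈ A'
    · have h2 := key ((B ∪ insert (Q * m0) C) \ A') sdiff_subset (by simp [hz])
        (by rw [sum_sdiff_eq_sub hss.subset, tot, hs, sub_zero])
      exact hss.not_subset (sdiff_eq_empty_iff_subset.1 h2)
    · exact hne.ne_empty (key A' hss.subset hz hs)
  · intro n hn
    rcases mem_union.1 hn with hb | hc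
    · exact Or.inl hb
    · right
      rcases mem_insert.1 hc with rfl | hc
      · exact ⟨Nat.mul_pos Q0 (by omega), le_rfl⟩
      · obtain ⟨⟨q, i⟩, hx, rfl⟩ := mem_image.1 hc
        obtain ⟨hq, hi⟩ := mem_product.1 hx
        have h2 := mem_range.1 hi
        simp only at h2 hq ⊢
        exact ⟨Nat.mul_pos (hR q hq).1.pos (by omega),
          Nat.mul_le_mul (Nat.le_of_dvd Q0 (hpQ q hq)) (by omega)⟩

lemma exR (b : ℕ) (η : ℝ) (hη : 0 < η) :
    ∃ R : Finset ℕ, (∀ p ∈ R, p.Prime ∧ b < p) ∧ η ≤ ∑ p ∈ R, (1 : ℝ) / p ∧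
      ∑ p ∈ R, (1 : ℝ) / p ≤ 2 * η := by
  classical
  obtain ⟨b1, hb1⟩ := exists_nat_gt (1 / η)
  set b2 := b + b1 with hb2
  let f : ℕ → ℝ := fun i => if i.Prime ∧ b2 < i then 1 / i else 0
  have h1 : ∃ n, η ≤ ∑ i ∈ range n, f i := by
    by_contra h
    push Not at h
    apply not_summable_one_div_on_primes
    refine summable_of_sum_range_le (c := η + (b2 + 1)) (fun n => ?_) fun n => ?_
    · exact Set.indicator_nonneg (fun _ _ => by positivity) _
    · calc _ ≤ ∑ i ∈ range n, (f i + if i < b2 + 1 then 1 else 0) := by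
            refine sum_le_sum fun i _ => ?_
            by_cases hp : i.Prime
            · rw [Set.indicator_of_mem (by exact hp)]
              by_cases hi : b2 < i
              · simp [f, hp, hi, show ¬ i ≤ b2 by omega]
              · have : (1 : ℝ) ≤ i := by exact_mod_cast hp.one_le
                simp only [f, hi, and_false, if_false, show i < b2 + 1 by omega, if_true, zero_add]
                rw [div_le_one (by linarith)]; exact this
            · rw [Set.indicator_of_notMem (by exact hp)]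
              simp only [f, hp, false_and, if_false, zero_add]
              split_ifs <;> norm_num
        _ ≤ _ := by
            rw [sum_add_distrib]
            refine add_le_add (h n).le ?_
            rw [sum_boole]
            have : ((range n).filter (fun i => i < b2 + 1)).card ≤ b2 + 1 := by
              calc _ ≤ (range (b2 + 1)).card := card_le_card fun i hi => by
                        simpa using (mem_filter.1 hi).2
                _ = _ := card_range _
            exact_mod_cast this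
  obtain ⟨n, hn⟩ := h1
  obtain ⟨t, -, ht1, ht2⟩ := ivt f η η hη (fun i => by
    simp only [f]
    split_ifs with h
    · have h3 : (b1 : ℝ) < i := by exact_mod_cast (by omega : b1 < i)
      have h4 : (0 : ℝ) < i := lt_trans (lt_trans (by positivity) hb1) h3
      rw [div_le_iff₀ h4]; rw [div_lt_iff₀ hη] at hb1; nlinarith
    · exact hη.le) n hn
  refine ⟨(range t).filter (fun i => i.Prime ∧ b2 < i), fun p hp => ?_, ?_, ?_⟩
  · have := (mem_filter.1 hp).2; exact ⟨this.1, by omega⟩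
  · rw [sum_filter]; exact ht1
  · rw [sum_filter]; linarith

lemma harm_le (a : ℕ) : ∑ m ∈ (Icc 1 (2 ^ a) : Finset ℕ), (1 : ℝ) / m ≤ 1 + a := by
  have h := harmonic_le_one_add_log (2 ^ a)
  rw [harmonic_eq_sum_Icc] at h
  push_cast at h
  rw [Real.log_pow] at h
  have : Real.log 2 ≤ 1 := by have := Real.log_two_lt_d9; linarith
  simp only [one_div]
  have h0 : (0 : ℝ) ≤ a := by positivity
  nlinarith

lemma mult (N q : ℕ) : (((Icc 1 N).filter (fun n => q ∣ n)).card : ℝ) ≤ N * (1 / q) := by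
  have : (Icc 1 N).filter (fun n => q ∣ n) = (Ioc 0 N).filter (fun n => q ∣ n) := rfl
  rw [this, Nat.Ioc_filter_dvd_card_eq_div, mul_one_div]
  exact Nat.cast_div_le

lemma primes_cnt (x a : ℕ) :
    ((Icc 1 x).filter (fun p => p.Prime ∧ 2 ^ a ≤ p)).card * a ≤ 2 * x := by
  set s := (Icc 1 x).filter (fun p => p.Prime ∧ 2 ^ a ≤ p) with hs
  have h1 : (2 ^ a) ^ s.card ≤ ∏ p ∈ s, p :=
    pow_card_le_prod _ _ _ fun p hp => (mem_filter.1 hp).2.2
  have h2 : ∏ p ∈ s, p ≤ primorial x := by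
    rw [primorial_eq_prod_primesLE]
    refine prod_le_prod_of_subset_of_one_le' (fun p hp => ?_) fun p hp _ => ?_
    · rw [Nat.mem_primesLE]; exact ⟨(mem_Icc.1 (mem_filter.1 hp).1).2, (mem_filter.1 hp).2.1⟩
    · exact (Nat.mem_primesLE.1 hp).2.one_le
  have h3 := primorial_le_four_pow x
  have h4 : 2 ^ (a * s.card) ≤ 2 ^ (2 * x) := by
    rw [pow_mul, pow_mul]; exact h1.trans (h2.trans h3)
  have := (Nat.pow_le_pow_iff_right (by norm_num)).1 h4
  rwa [mul_comm]

open Classical in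
lemma large (N J k : ℕ) (hJ : 1 ≤ J) (hk : 1 ≤ k) (hN : 2 ^ (J * (k + 3)) ≤ N) :
    (((Icc 1 N).filter (fun n => ∃ p, p.Prime ∧ p ∣ n ∧ N < p * 2 ^ (3 * J))).card : ℝ)
      ≤ N * (8 / k) := by
  classical
  have hsub : (Icc 1 N).filter (fun n => ∃ p, p.Prime ∧ p ∣ n ∧ N < p * 2 ^ (3 * J)) ⊆
      (Icc 1 (2 ^ (3 * J))).biUnion (fun m =>
        ((Icc 1 (N / m)).filter (fun p => p.Prime ∧ 2 ^ (J * k) ≤ p)).image (fun p => p * m)) := by
    intro n hn
    obtain ⟨hn1, p, hp, ⟨m, rfl⟩, hlt⟩ := mem_filter.1 hn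
    obtain ⟨h1, h2⟩ := mem_Icc.1 hn1
    have m0 : 0 < m := Nat.pos_of_mul_pos_left h1
    have m1 : m < 2 ^ (3 * J) := Nat.lt_of_mul_lt_mul_left (h2.trans_lt hlt)
    refine mem_biUnion.2 ⟨m, mem_Icc.2 ⟨m0, m1.le⟩, mem_image.2 ⟨p, mem_filter.2
      ⟨mem_Icc.2 ⟨hp.one_le, (Nat.le_div_iff_mul_le m0).2 h2⟩, hp, ?_⟩, rfl⟩⟩
    have : 2 ^ (J * k) * 2 ^ (3 * J) < p * 2 ^ (3 * J) := by
      rw [← pow_add, show J * k + 3 * J = J * (k + 3) by ring]; omega
    exact (Nat.lt_of_mul_lt_mul_right this).le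
  have J0 : (1 : ℝ) ≤ J := by exact_mod_cast hJ
  have k0 : (1 : ℝ) ≤ k := by exact_mod_cast hk
  calc _ ≤ ((∑ m ∈ Icc 1 (2 ^ (3 * J)),
        ((Icc 1 (N / m)).filter (fun p => p.Prime ∧ 2 ^ (J * k) ≤ p)).card : ℕ) : ℝ) := by
        exact_mod_cast (card_le_card hsub).trans (card_biUnion_le.trans
          (sum_le_sum fun m _ => card_image_le))
    _ ≤ ∑ m ∈ (Icc 1 (2 ^ (3 * J)) : Finset ℕ), (2 * N / (J * k)) * ((1 : ℝ) / m) := by
        rw [Nat.cast_sum]
        refine sum_le_sum fun m _ => ?_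
        have h1 : ((((Icc 1 (N / m)).filter (fun p => p.Prime ∧ 2 ^ (J * k) ≤ p)).card : ℝ))
            * (J * k) ≤ 2 * ((N / m : ℕ) : ℝ) := by exact_mod_cast primes_cnt (N / m) (J * k)
        have h2 : ((N / m : ℕ) : ℝ) ≤ N / m := Nat.cast_div_le
        rw [div_mul_eq_mul_div, le_div_iff₀ (by positivity), mul_assoc, mul_one_div]
        linarith
    _ ≤ (2 * N / (J * k)) * (4 * J) := by
        rw [← mul_sum]
        refine mul_le_mul_of_nonneg_left ((harm_le _).trans ?_) (by positivity)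
        push_cast; linarith
    _ = _ := by field_simp; ring

end H16.UF
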