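import Pool.Agent.H16.UnitFr2

open Finset

namespace H16.UF

lemma cardU (N : ℕ) (I : Finset ℕ) (q : ℕ → ℕ) :
    ((I.biUnion fun i => (Icc 1 N).filter (fun n => q i ∣ n)).card : ℝ)
      ≤ N * ∑ i ∈ I, (1 : ℝ) / q i := by
  calc _ ≤ ((∑ i ∈ I, ((Icc 1 N).filter (fun n => q i ∣ n)).card : ℕ) : ℝ) := by
        exact_mod_cast card_biUnion_le
    _ ≤ _ := by
        rw [Nat.cast_sum, mul_sum]; exact sum_le_sum fun i _ => mult N (q i)

lemma count (N E W J L : ℕ) (R : Finset ℕ) (hE : 1 ≤ E) (hJ : 1 ≤ J) (hW : E ≤ W)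
    (hN : 2 ^ (J * (E + 3)) ≤ N) (hWE : W * E ≤ 2 ^ J) (hWN : W ≤ N)
    (hR : ∑ p ∈ R, (1 : ℝ) / p ≤ 2 * (1 / E))
    (h1 : ∀ p j, p.Prime → p ≤ W → p ∉ R → p ^ j ≤ 2 ^ J → p ^ j ∣ L)
    (h2 : ∀ p, p.Prime → W < p → p * 2 ^ (3 * J) ≤ N → p ∣ L) :
    (N : ℝ) * (1 - 13 / E) ≤ ((Icc 1 N).filter (fun n => N < n * E ∧ n ∣ L)).card := by
  classical
  set B0 := (Icc 1 N).filter (fun n => N < n * E ∧ n ∣ L) with hB0
  set X1 := Icc 1 (N / E) with hX1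
  set X2 := R.biUnion fun i => (Icc 1 N).filter (fun n => i ∣ n) with hX2
  set X3 := (Icc 2 W).biUnion fun i =>
    (Icc 1 N).filter (fun n => i ^ (Nat.log i (2 ^ J) + 1) ∣ n) with hX3
  set X4 := (Ioc W N).biUnion fun i => (Icc 1 N).filter (fun n => i ^ 2 ∣ n) with hX4
  set X5 := (Icc 1 N).filter (fun n => ∃ p, p.Prime ∧ p ∣ n ∧ N < p * 2 ^ (3 * J)) with hX5
  have hsub : Icc 1 N ⊆ B0 ∪ X1 ∪ X2 ∪ X3 ∪ X4 ∪ X5 := by
    intro n hn
    obtain ⟨n1, n2⟩ := mem_Icc.1 hn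
    simp only [mem_union]
    by_cases a1 : N < n * E
    swap
    · exact Or.inl (Or.inl (Or.inl (Or.inl (Or.inr
        (mem_Icc.2 ⟨n1, (Nat.le_div_iff_mul_le hE).2 (not_lt.1 a1)⟩)))))
    by_cases a2 : n ∣ L
    · exact Or.inl (Or.inl (Or.inl (Or.inl (Or.inl (mem_filter.2 ⟨hn, a1, a2⟩)))))
    rw [Nat.dvd_iff_prime_pow_dvd_dvd] at a2
    push Not at a2
    obtain ⟨p, j, hp, hj1, hj2⟩ := a2
    have j0 : j ≠ 0 := by rintro rfl; simp at hj2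
    have hpn : p ∣ n := (dvd_pow_self p j0).trans hj1
    by_cases a3 : p ∈ R
    · exact Or.inl (Or.inl (Or.inl (Or.inr (mem_biUnion.2 ⟨p, a3, mem_filter.2 ⟨hn, hpn⟩⟩))))
    by_cases a4 : p ≤ W
    · refine Or.inl (Or.inl (Or.inr (mem_biUnion.2 ⟨p, mem_Icc.2 ⟨hp.two_le, a4⟩,
        mem_filter.2 ⟨hn, (pow_dvd_pow _ ?_).trans hj1⟩⟩)))
      have : 2 ^ J < p ^ j := not_le.1 fun h => hj2 (h1 p j hp a4 a3 h)
      exact Nat.succ_le_of_lt (Nat.log_lt_of_lt_pow (by positivity) this)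
    by_cases a5 : p * 2 ^ (3 * J) ≤ N
    · refine Or.inl (Or.inr (mem_biUnion.2 ⟨p, mem_Ioc.2 ⟨not_le.1 a4,
        (Nat.le_of_dvd n1 hpn).trans n2⟩, mem_filter.2 ⟨hn, (pow_dvd_pow _ ?_).trans hj1⟩⟩))
      by_contra h
      obtain rfl : j = 1 := by omega
      exact hj2 (by simpa using h2 p hp (not_le.1 a4) a5)
    · exact Or.inr (mem_filter.2 ⟨hn, p, hp, hpn, not_le.1 a5⟩)
  have E0 : (0 : ℝ) < E := by exact_mod_cast hE
  have N0 : (0 : ℝ) ≤ N := by positivity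
  have hc : N ≤ B0.card + X1.card + X2.card + X3.card + X4.card + X5.card := by
    have := card_le_card hsub
    rw [Nat.card_Icc] at this
    have a := card_union_le (B0 ∪ X1 ∪ X2 ∪ X3 ∪ X4) X5
    have b := card_union_le (B0 ∪ X1 ∪ X2 ∪ X3) X4
    have c := card_union_le (B0 ∪ X1 ∪ X2) X3
    have d := card_union_le (B0 ∪ X1) X2
    have e := card_union_le B0 X1
    omega
  have c1 : (X1.card : ℝ) ≤ N * (1 / E) := by
    rw [hX1, Nat.card_Icc, mul_one_div]; simpa using Nat.cast_div_le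
  have c2 : (X2.card : ℝ) ≤ N * (2 * (1 / E)) :=
    (cardU N R (fun i => i)).trans (mul_le_mul_of_nonneg_left hR N0)
  have c3 : (X3.card : ℝ) ≤ N * (1 / E) := by
    refine (cardU N _ _).trans (mul_le_mul_of_nonneg_left ?_ N0)
    calc _ ≤ ∑ _i ∈ Icc 2 W, (1 : ℝ) / 2 ^ J := by
          refine sum_le_sum fun i hi => one_div_le_one_div_of_le (by positivity) ?_
          exact_mod_cast (Nat.lt_pow_succ_log_self (mem_Icc.1 hi).1 _).le
      _ ≤ W * (1 / 2 ^ J) := by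
          rw [sum_const, nsmul_eq_mul, Nat.card_Icc]
          refine mul_le_mul_of_nonneg_right ?_ (by positivity)
          exact_mod_cast (by omega)
      _ ≤ _ := by
          rw [mul_one_div, div_le_div_iff₀ (by positivity) E0, one_mul]; exact_mod_cast hWE
  have c4 : (X4.card : ℝ) ≤ N * (1 / E) := by
    refine (cardU N _ _).trans (mul_le_mul_of_nonneg_left ?_ N0)
    have := sum_Ioc_inv_sq_le_sub (α := ℝ) (k := W) (by omega) hWN
    have h3 : (W : ℝ)⁻¹ ≤ 1 / E := by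
      rw [← one_div]; exact one_div_le_one_div_of_le E0 (by exact_mod_cast hW)
    have h4 : (0 : ℝ) ≤ (N : ℝ)⁻¹ := by positivity
    simp only [one_div] at h3 ⊢; push_cast; linarith
  have c5 : (X5.card : ℝ) ≤ N * (8 / E) := large N J E hJ hE hN
  have hc' : (N : ℝ) ≤ B0.card + X1.card + X2.card + X3.card + X4.card + X5.card := by
    exact_mod_cast hc
  have : (N : ℝ) * (1 - 13 / E) = N - (N * (1 / E) + N * (2 * (1 / E)) + N * (1 / E)
    + N * (1 / E) + N * (8 / E)) := by ring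
  linarith

lemma modulus (J w k : ℕ) (R : Finset ℕ) (hw : 1 ≤ w) (hJ : w * (k + 1) + k ≤ J) (h2R : 2 ∉ R)
    (hP : k + 1 ≤ ((Icc 1 (2 ^ w)).filter (fun p => p.Prime ∧ p ∉ R ∧ p ≠ 2)).card) :
    ∃ S : Finset ℕ, (S : Set ℕ).Pairwise Nat.Coprime ∧ (∀ d ∈ S, Odd d ∧ 1 < d ∧ d ≤ 2 ^ J) ∧
      S.card ≤ 2 ^ w ∧ 2 ^ ((J + 1) * k) ≤ ∏ d ∈ S, d ∧
      (∀ p, p.Prime → p ∣ 2 ^ J * ∏ d ∈ S, d → p ≤ 2 ^ w ∧ p ∉ R) ∧
      ∀ p j, p.Prime → p ≤ 2 ^ w → p ∉ R → p ^ j ≤ 2 ^ J → p ^ j ∣ 2 ^ J * ∏ d ∈ S, d := by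
  classical
  set P := (Icc 1 (2 ^ w)).filter (fun p => p.Prime ∧ p ∉ R ∧ p ≠ 2) with hPd
  have hwJ : w ≤ J := by nlinarith
  have hm : ∀ p ∈ P, p.Prime ∧ p ∉ R ∧ p ≠ 2 ∧ p ≤ 2 ^ w := fun p hp =>
    ⟨(mem_filter.1 hp).2.1, (mem_filter.1 hp).2.2.1, (mem_filter.1 hp).2.2.2,
      (mem_Icc.1 (mem_filter.1 hp).1).2⟩
  let d : ℕ → ℕ := fun p => p ^ Nat.log p (2 ^ J)
  have hl : ∀ p ∈ P, Nat.log p (2 ^ J) ≠ 0 := fun p hp =>
    (Nat.log_pos (hm p hp).1.one_lt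
      ((hm p hp).2.2.2.trans (Nat.pow_le_pow_right (by norm_num) hwJ))).ne'
  have hdv : ∀ p, p.Prime → ∀ q ∈ P, p ∣ d q → p = q := fun p hp q hq h =>
    (Nat.prime_dvd_prime_iff_eq hp (hm q hq).1).1 (hp.dvd_of_dvd_pow h)
  have hinj : Set.InjOn d P := fun p hp q hq h =>
    hdv p (hm p hp).1 q hq (h ▸ dvd_pow_self p (hl p hp))
  refine ⟨P.image d, ?_, ?_, ?_, ?_, ?_, ?_⟩
  · intro a ha b hb hab
    obtain ⟨p, hp, rfl⟩ := mem_image.1 ha
    obtain ⟨q, hq, rfl⟩ := mem_image.1 hb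
    exact Nat.Coprime.pow _ _ ((Nat.coprime_primes (hm p hp).1 (hm q hq).1).2
      fun h => hab (h ▸ rfl))
  · intro a ha
    obtain ⟨p, hp, rfl⟩ := mem_image.1 ha
    exact ⟨((hm p hp).1.odd_of_ne_two (hm p hp).2.2.1).pow,
      Nat.one_lt_pow (hl p hp) (hm p hp).1.one_lt, Nat.pow_log_le_self _ (by positivity)⟩
  · exact card_image_le.trans ((card_filter_le _ _).trans (by simp))
  · have h1 : (2 ^ (J - w)) ^ (P.image d).card ≤ ∏ x ∈ P.image d, x := by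
      refine pow_card_le_prod _ _ _ fun a ha => ?_
      obtain ⟨p, hp, rfl⟩ := mem_image.1 ha
      have h3 := Nat.lt_pow_succ_log_self (hm p hp).1.one_lt (2 ^ J)
      rw [pow_succ] at h3
      have h4 : 2 ^ (J - w) * 2 ^ w < d p * 2 ^ w := by
        rw [← pow_add, Nat.sub_add_cancel hwJ]
        exact h3.trans_le (Nat.mul_le_mul_left _ (hm p hp).2.2.2)
      exact (Nat.lt_of_mul_lt_mul_right h4).le
    refine le_trans ?_ h1
    rw [← pow_mul, card_image_of_injOn hinj]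
    refine Nat.pow_le_pow_right (by norm_num) (le_trans ?_ (Nat.mul_le_mul_left _ hP))
    obtain ⟨x, rfl⟩ := Nat.exists_eq_add_of_le hwJ
    rw [Nat.add_sub_cancel_left]; nlinarith
  · intro p hp h
    rcases hp.dvd_mul.1 h with h | h
    · obtain rfl := (Nat.prime_dvd_prime_iff_eq hp Nat.prime_two).1 (hp.dvd_of_dvd_pow h)
      exact ⟨by simpa using Nat.pow_le_pow_right (by norm_num : 0 < 2) hw, h2R⟩
    · obtain ⟨a, ha, h⟩ := (Prime.dvd_finsetProd_iff hp.prime _).1 h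
      obtain ⟨q, hq, rfl⟩ := mem_image.1 ha
      obtain rfl := hdv p hp q hq h
      exact ⟨(hm p hq).2.2.2, (hm p hq).2.1⟩
  · intro p j hp h1 h2 h3
    by_cases h4 : p = 2
    · subst h4
      exact (pow_dvd_pow _ ((Nat.pow_le_pow_iff_right (by norm_num)).1 h3)).mul_right _
    · have hpP : p ∈ P := mem_filter.2 ⟨mem_Icc.2 ⟨hp.one_le, h1⟩, hp, h2, h4⟩
      refine Dvd.dvd.mul_left ?_ _
      exact (pow_dvd_pow _ (Nat.le_log_of_pow_le hp.one_lt h3)).trans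
        (dvd_prod_of_mem (fun x => x) (mem_image_of_mem d hpP))

lemma link (T t : ℕ) (R : Finset ℕ) (ht : t ≤ T) (t0 : 0 < t)
    (hR : ∀ p ∈ R, p.Prime ∧ T * T.factorial < p) :
    ∃ m0 u : ℕ, T < m0 ∧ m0 < T + 1 + ∏ p ∈ R, p ∧ (∀ p ∈ R, ¬ p ∣ m0 * T.factorial) ∧
      (∑ p ∈ R, (1 : ℝ) / p) * (∑ i ∈ range t, (1 : ℝ) / (i + 1))
        + 1 / ((∏ p ∈ R, p) * m0 : ℕ) = u / (m0 * T.factorial : ℕ) := by
  obtain ⟨g, hg1, hg2, hg3⟩ := harm T t ht (range t) subset_rfl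
  have g0 := hg2 (nonempty_range_iff.2 t0.ne')
  obtain ⟨σ, hσ1, hσ2⟩ := recip R fun p hp => (hR p hp).1
  set Q := ∏ p ∈ R, p with hQ
  have Q0 : 0 < Q := prod_pos fun p hp => (hR p hp).1.pos
  have hc : Nat.Coprime Q g := Nat.Coprime.prod_left fun p hp =>
    (Nat.Prime.coprime_iff_not_dvd (hR p hp).1).2 fun h => by
      have := Nat.le_of_dvd g0 h; have := (hR p hp).2; omega
  obtain ⟨m0, h1, h2, u, hu⟩ := solve Q0 (hc.mul_right hσ1) T.factorial (T + 1)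
  refine ⟨m0, u, by omega, h2, ?_, ?_⟩
  · intro p hp h
    have hT : T < p :=
      lt_of_le_of_lt (Nat.le_mul_of_pos_right _ (Nat.factorial_pos _)) (hR p hp).2
    have h3 : ¬ p ∣ T.factorial := fun h => by
      have := (hR p hp).1.dvd_factorial.1 h; omega
    have h4 : p ∣ m0 := ((hR p hp).1.dvd_mul.1 h).resolve_right h3
    have h5 : p ∣ T.factorial + m0 * (g * σ) :=
      hu ▸ (dvd_prod_of_mem (fun x => x) hp).mul_right _
    exact h3 ((Nat.dvd_add_left (h4.mul_right _)).1 h5)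
  · rw [hσ2, hg3]
    have a : (Q : ℝ) ≠ 0 := by exact_mod_cast Q0.ne'
    have b : (m0 : ℝ) ≠ 0 := by exact_mod_cast (by omega : m0 ≠ 0)
    have c : (T.factorial : ℝ) ≠ 0 := by exact_mod_cast (Nat.factorial_pos _).ne'
    have e : (T.factorial : ℝ) + m0 * (g * σ) = Q * u := by exact_mod_cast hu
    push_cast; field_simp; linear_combination e

lemma lin_le (a b : ℕ) : ∃ J0, ∀ J, J0 ≤ J → a + b * J ≤ 2 ^ J := by
  have h : ∀ J, 4 ≤ J → J * J ≤ 2 ^ J := by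
    intro J hJ
    induction J, hJ using Nat.le_induction with
    | base => norm_num
    | succ n hn ih => rw [pow_succ]; nlinarith
  refine ⟨a + b + 4, fun J hJ => le_trans ?_ (h J (by omega))⟩
  nlinarith

end H16.UF
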