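import Pool.Agent.H16.UnitFr3

open Finset

namespace H16.UF

lemma core (E T w J N : ℕ) (R : Finset ℕ) (hE : 8 ≤ E)
    (hT : (E : ℝ) * (E + 1) ≤ ∑ i ∈ range T, (1 : ℝ) / (i + 1))
    (hR : ∀ p ∈ R, p.Prime ∧ T * T.factorial + 2 < p)
    (hs1 : 1 / (E : ℝ) ≤ ∑ p ∈ R, (1 : ℝ) / p) (hs2 : ∑ p ∈ R, (1 : ℝ) / p ≤ 2 * (1 / E))
    (hw1 : (T + 1 + ∏ p ∈ R, p) * T.factorial ≤ 2 ^ w) (hw2 : E ≤ 2 ^ w)
    (hP : E + 3 + 1 ≤ ((Icc 1 (2 ^ w)).filter (fun p => p.Prime ∧ p ∉ R ∧ p ≠ 2)).card)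
    (hJ1 : w * (E + 3 + 1) + (E + 3) ≤ J)
    (hJ2 : 4 * (2 ^ w + 1) * (1 + (J + 1) * (E + 3)) ≤ 2 ^ J)
    (hJ3 : 2 ^ w * 2 ^ w ≤ 2 ^ J)
    (hN1 : 2 ^ (J * (E + 3)) ≤ N) (hN2 : N < 2 ^ ((J + 1) * (E + 3))) :
    ∃ A : Finset ℕ, A ⊆ Icc 1 N ∧ Adm A ∧ (N : ℝ) * (1 - 13 / E) ≤ A.card := by
  classical
  have hw : 1 ≤ w := by
    rcases w with _ | w
    · simp at hw2; omega
    · omega
  have h2R : 2 ∉ R := fun h => by have := (hR 2 h).2; omega
  obtain ⟨S, hS1, hS2, hS3, hS4, hS5, hS6⟩ := modulus J w (E + 3) R hw hJ1 h2R hP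
  set D := ∏ d ∈ S, d with hD
  set W := 2 ^ w with hW
  set Y := 2 ^ J with hY
  set Q := ∏ p ∈ R, p with hQ
  have W1 : 1 ≤ W := Nat.one_le_two_pow
  have Q0 : 0 < Q := prod_pos fun p hp => (hR p hp).1.pos
  have D0 : 0 < D := lt_of_lt_of_le (by positivity) hS4
  have Y0 : 0 < Y := by positivity
  have hWY : W ≤ Y := le_trans (Nat.le_mul_of_pos_right _ W1) hJ3
  have hY3 : 2 ^ (3 * J) = Y * Y * Y := by rw [hY]; ring
  have hY3N : 2 ^ (3 * J) ≤ N :=
    le_trans (Nat.pow_le_pow_right (by norm_num) (by nlinarith)) hN1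
  have hYN : Y ≤ N := le_trans (Nat.pow_le_pow_right (by norm_num) (by omega)) hY3N
  have hND : N ≤ D := hN2.le.trans hS4
  have hWY1 : 4 * (W + 1) ≤ Y := le_trans (Nat.le_mul_of_pos_right _ (by omega)) hJ2
  have hTf : 1 ≤ T.factorial := Nat.factorial_pos _
  have hQW : T + 1 + Q ≤ W := le_trans (Nat.le_mul_of_pos_right _ hTf) hw1
  set P := (Icc 1 N).filter (fun p => p.Prime ∧ W < p ∧ p * 2 ^ (3 * J) ≤ N) with hPd
  have hPm : ∀ p ∈ P, p.Prime ∧ W < p ∧ p * 2 ^ (3 * J) ≤ N := fun p hp => (mem_filter.1 hp).2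
  set L := Y * D * ∏ p ∈ P, p with hL
  have L0 : 0 < L := Nat.mul_pos (Nat.mul_pos Y0 D0) (prod_pos fun p hp => (hPm p hp).1.pos)
  set B0 := (Icc 1 N).filter (fun n => N < n * E ∧ n ∣ L) with hB0
  have hcount : (N : ℝ) * (1 - 13 / E) ≤ B0.card := by
    refine count N E W J L R (by omega) (by omega) hw2 hN1
      (le_trans (Nat.mul_le_mul_left _ hw2) hJ3) (hWY.trans hYN) hs2
      (fun p j a b c d => (hS6 p j a b c d).mul_right _) fun p a b c => ?_
    refine Dvd.dvd.mul_left (dvd_prod_of_mem (fun x => x) (mem_filter.2 ⟨mem_Icc.2 ⟨a.one_le,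
      le_trans (Nat.le_mul_of_pos_right _ (by positivity)) c⟩, a, b, c⟩)) _
  have E0 : (0 : ℝ) < E := by exact_mod_cast (by omega : 0 < E)
  have E8 : (8 : ℝ) ≤ E := by exact_mod_cast hE
  have N0 : (0 : ℝ) < N := by exact_mod_cast (by omega : 0 < N)
  have Yr : (0 : ℝ) < Y := by exact_mod_cast Y0
  have Dr : (0 : ℝ) < D := by exact_mod_cast D0
  have hS0 : ∑ n ∈ B0, (1 : ℝ) / n ≤ E := by
    calc _ ≤ ∑ _n ∈ B0, (E : ℝ) / N := sum_le_sum fun n hn => by
          obtain ⟨h1, h2, -⟩ := mem_filter.1 hn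
          have n0 : (0 : ℝ) < n := by exact_mod_cast (mem_Icc.1 h1).1
          rw [div_le_div_iff₀ n0 N0, one_mul, mul_comm]; exact_mod_cast h2.le
      _ ≤ N * ((E : ℝ) / N) := by
          rw [sum_const, nsmul_eq_mul]
          refine mul_le_mul_of_nonneg_right ?_ (by positivity)
          exact_mod_cast (card_filter_le _ _).trans (by simp)
      _ = E := by field_simp
  have hS0' := sum_dvd B0 L L0 fun b hb => (mem_filter.1 hb).2.2
  obtain ⟨n, a', hn, hcan⟩ := cancel (Y * D) (S.card * D) P (fun p hp => (hPm p hp).1)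
    (∑ b ∈ B0, L / b)
  rw [← hL, ← hS0'] at hcan
  have hnW : ∀ p ∈ P, n p < (W + 1) * D := fun p hp => by
    have h1 := (hn p hp).2
    have h2 : p ≤ N := (mem_Icc.1 (mem_filter.1 hp).1).2
    have h3 := Nat.mul_le_mul_right D hS3
    rw [add_mul]; omega
  have hx : ∑ p ∈ P, (n p : ℝ) / (Y * D : ℕ) / p ≤ 1 / 4 := by
    calc _ ≤ ∑ p ∈ P, ((W + 1 : ℝ) / Y) * (1 / p) := sum_le_sum fun p hp => by
          rw [mul_one_div]
          refine div_le_div_of_nonneg_right ?_ (by positivity)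
          have : (n p : ℝ) ≤ (W + 1) * D := by exact_mod_cast (hnW p hp).le
          push_cast
          rw [div_le_div_iff₀ (by positivity) Yr]; nlinarith
      _ ≤ ((W + 1 : ℝ) / Y) * (1 + ((J + 1) * (E + 3) : ℕ)) := by
          rw [← mul_sum]
          refine mul_le_mul_of_nonneg_left (le_trans ?_ (harm_le _)) (by positivity)
          refine sum_le_sum_of_subset_of_nonneg (fun p hp => ?_) fun _ _ _ => by positivity
          have := mem_Icc.1 (mem_filter.1 hp).1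
          exact mem_Icc.2 ⟨this.1, this.2.trans hN2.le⟩
      _ ≤ _ := by
          have : (4 : ℝ) * (W + 1) * (1 + ((J + 1) * (E + 3) : ℕ)) ≤ Y := by exact_mod_cast hJ2
          rw [div_mul_eq_mul_div, div_le_iff₀ Yr]; linarith
  set σ := ∑ p ∈ R, (1 : ℝ) / p with hσ
  have σ0 : 0 < σ := lt_of_lt_of_le (by positivity) hs1
  have σ4 : σ ≤ 1 / 4 := by
    refine hs2.trans ?_
    rw [mul_one_div, div_le_div_iff₀ E0 (by norm_num)]; linarith
  set S1 : ℝ := a' / (Y * D : ℕ) with hS1d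
  have S10 : 0 ≤ S1 := by positivity
  obtain ⟨t, ht, ht1, ht2⟩ := ivt (fun i => σ * (1 / (i + 1))) (S1 + 1 / 4) (1 / 4)
    (by linarith) (fun i => by
      have : (1 : ℝ) / (i + 1) ≤ 1 := by
        rw [div_le_one (by positivity)]; linarith [Nat.cast_nonneg (α := ℝ) i]
      nlinarith) T (by
      rw [← mul_sum]
      have : (E : ℝ) + 1 ≤ σ * ∑ i ∈ range T, (1 : ℝ) / (i + 1) := by
        calc (E : ℝ) + 1 = 1 / E * (E * (E + 1)) := by field_simp
          _ ≤ _ := mul_le_mul hs1 hT (by positivity) σ0.le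
      linarith)
  have t0 : 0 < t := by
    rcases t with _ | t
    · simp at ht1; linarith
    · omega
  rw [← mul_sum] at ht1 ht2
  obtain ⟨m0, u, hm1, hm2, hm3, hm4⟩ := link T t R ht t0
    fun p hp => ⟨(hR p hp).1, by have := (hR p hp).2; omega⟩
  rw [← hσ, ← hQ] at hm4
  rw [← hQ] at hm2
  have hxW : m0 * T.factorial ≤ W := le_trans (Nat.mul_le_mul_right _ hm2.le) hw1
  have x0 : 0 < m0 * T.factorial := Nat.mul_pos (by omega) hTf
  obtain ⟨y, hy⟩ : m0 * T.factorial ∣ Y * D := by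
    rw [Nat.dvd_iff_prime_pow_dvd_dvd]
    intro p j hp hj
    rcases Nat.eq_zero_or_pos j with rfl | j0
    · simp
    have h1 : p ∣ m0 * T.factorial := (dvd_pow_self p j0.ne').trans hj
    exact hS6 p j hp ((Nat.le_of_dvd x0 h1).trans hxW) (fun h => hm3 p h h1)
      ((Nat.le_of_dvd x0 hj).trans (hxW.trans hWY))
  have hz : (1 : ℝ) / (Q * m0 : ℕ) ≤ 1 / 2 := by
    refine one_div_le_one_div_of_le (by norm_num) ?_
    have : 1 * 2 ≤ Q * m0 := Nat.mul_le_mul Q0 (by omega)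
    exact_mod_cast this
  have hz0 : (0 : ℝ) ≤ 1 / (Q * m0 : ℕ) := by positivity
  have Δ0 : (0 : ℝ) < (Y * D : ℕ) := by exact_mod_cast Nat.mul_pos Y0 D0
  have hr : (u : ℝ) / (m0 * T.factorial : ℕ) = (u * y : ℕ) / (Y * D : ℕ) := by
    have y0 : (y : ℝ) ≠ 0 := by
      have : y ≠ 0 := by rintro rfl; have := Nat.mul_pos Y0 D0; omega
      exact_mod_cast this
    have : ((m0 * T.factorial : ℕ) : ℝ) ≠ 0 := by exact_mod_cast x0.ne'
    rw [hy, Nat.cast_mul (m0 * T.factorial) y, Nat.cast_mul u y]; field_simp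
  rw [hr] at hm4
  have r1 : a' + S.card * D ≤ u * y := by
    have h1 : S1 + 1 / 4 ≤ (u * y : ℕ) / (Y * D : ℕ) := by linarith
    rw [hS1d, le_div_iff₀ Δ0, add_mul, div_mul_cancel₀ _ Δ0.ne'] at h1
    have h2 : 4 * (S.card * D) ≤ Y * D := by
      rw [← mul_assoc]; exact Nat.mul_le_mul_right _ (by omega)
    have h3 : (4 : ℝ) * (S.card * D : ℕ) ≤ (Y * D : ℕ) := by exact_mod_cast h2
    have : (a' : ℝ) + (S.card * D : ℕ) ≤ (u * y : ℕ) := by linarith
    exact_mod_cast this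
  have r2 : u * y < a' + Y * D := by
    have h1 : ((u * y : ℕ) : ℝ) / (Y * D : ℕ) < S1 + 1 := by linarith
    rw [hS1d, div_lt_iff₀ Δ0, add_mul, div_mul_cancel₀ _ Δ0.ne', one_mul] at h1
    exact_mod_cast h1
  have h1P : 1 ∉ P := fun h => Nat.not_prime_one (hPm 1 h).1
  let n' := Function.update n 1 (u * y - a')
  have hn' : ∀ p ∈ insert 1 P, S.card * D ≤ n' p ∧ n' p < Y * D := by
    intro p hp
    rcases mem_insert.1 hp with rfl | hp
    · simp only [n', Function.update_self]; omega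
    · simp only [n']; rw [Function.update_of_ne (ne_of_mem_of_not_mem hp h1P)]
      exact ⟨(hn p hp).1, (hnW p hp).trans_le (Nat.mul_le_mul_right _ (by omega))⟩
  choose! F hF hFs using fun p (hp : p ∈ insert 1 P) =>
    corr J S hS1 hS2 (n' p) (hn' p hp).1 (hn' p hp).2
  rw [← hD, ← hY] at hF hFs
  set B1 := ((insert 1 P).sigma F).image (fun x => x.1 * x.2) with hB1
  have hB1m : ∀ b ∈ B1, b ∣ L ∧ b * E ≤ N := by
    intro b hb
    obtain ⟨⟨p, m⟩, hx, rfl⟩ := mem_image.1 hb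
    obtain ⟨hp, hm⟩ := mem_sigma.1 hx
    simp only at hp hm ⊢
    obtain ⟨h1, h2⟩ := hF p hp m hm
    have h3 : p ∣ ∏ p ∈ P, p ∧ p * 2 ^ (3 * J) ≤ N := by
      rcases mem_insert.1 hp with rfl | hp
      · exact ⟨one_dvd _, by omega⟩
      · exact ⟨dvd_prod_of_mem (fun x => x) hp, (hPm p hp).2.2⟩
    refine ⟨by rw [mul_comm]; exact mul_dvd_mul h1 h3.1, le_trans ?_ h3.2⟩
    rw [hY3, mul_assoc]
    exact Nat.mul_le_mul_left _ (Nat.mul_le_mul h2 (hw2.trans hWY))
  have hsum1 : ∑ b ∈ B1, (1 : ℝ) / b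
      = (u * y : ℕ) / (Y * D : ℕ) - S1 + ∑ p ∈ P, (n p : ℝ) / (Y * D : ℕ) / p := by
    rw [hB1, sum_image, sum_sigma]
    · have e1 : ∀ p ∈ insert 1 P, ∑ m ∈ F p, (1 : ℝ) / ((p * m : ℕ) : ℝ)
          = (n' p : ℝ) / (Y * D : ℕ) / p := by
        intro p hp
        rw [← hFs p hp, sum_div]
        refine sum_congr rfl fun e _ => ?_
        push_cast; rw [div_div, mul_comm]
      rw [sum_congr rfl e1, sum_insert h1P]
      congr 1
      · simp only [n', Function.update_self]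
        rw [Nat.cast_sub (by omega), hS1d, Nat.cast_one, div_one, sub_div]
      · exact sum_congr rfl fun p hp => by
          simp only [n']; rw [Function.update_of_ne (ne_of_mem_of_not_mem hp h1P)]
    · have aux : ∀ p ∈ P, ∀ q ∈ insert 1 P, ∀ m ∈ F q, p ∣ q * m → p = q := by
        intro p hp q hq m hm h
        have pp := (hPm p hp).1
        rcases pp.dvd_mul.1 h with h | h
        · rcases mem_insert.1 hq with rfl | hq
          · exact absurd h pp.not_dvd_one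
          · exact (Nat.prime_dvd_prime_iff_eq pp (hPm q hq).1).1 h
        · have := (hS5 p pp (h.trans (hF q hq m hm).1)).1
          have := (hPm p hp).2.1
          omega
      rintro ⟨p, m⟩ hx ⟨q, m'⟩ hx' h
      obtain ⟨hp, hm⟩ := mem_sigma.1 hx
      obtain ⟨hq, hm'⟩ := mem_sigma.1 hx'
      simp only at hp hm hq hm' h
      have hpq : p = q := by
        rcases mem_insert.1 hp with hp1 | hp1
        · rcases mem_insert.1 hq with hq1 | hq1
          · rw [hp1, hq1]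
          · exact (aux q hq1 p hp m hm (h ▸ Dvd.intro _ rfl)).symm
        · exact aux p hp1 q hq m' hm' (h ▸ Dvd.intro _ rfl)
      subst hpq
      have p0 : 0 < p := by
        rcases mem_insert.1 hp with rfl | hp1
        · norm_num
        · exact (hPm p hp1).1.pos
      obtain rfl := Nat.eq_of_mul_eq_mul_left p0 h
      rfl
  have hdis : Disjoint B0 B1 := disjoint_left.2 fun b h0 h1 => by
    have := (mem_filter.1 h0).2.1; have := (hB1m b h1).2; omega
  obtain ⟨A, hA1, hA2, hA3⟩ := adm T t m0 L R (B0 ∪ B1) ht (fun p hp => by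
      refine ⟨(hR p hp).1, by have := (hR p hp).2; omega, fun h => ?_⟩
      rcases (hR p hp).1.dvd_mul.1 h with h | h
      · exact (hS5 p (hR p hp).1 h).2 hp
      · obtain ⟨q, hq, h⟩ := (Prime.dvd_finsetProd_iff (hR p hp).1.prime _).1 h
        obtain rfl := (Nat.prime_dvd_prime_iff_eq (hR p hp).1 (hPm q hq).1).1 h
        have := (hPm p hq).2.1
        have := Nat.le_of_dvd Q0 (dvd_prod_of_mem (fun x => x) hp)
        omega)
    (by
      rw [nonempty_iff_ne_empty]; rintro rfl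
      simp [hσ] at σ0) hm1
    (fun b hb => by
      rcases mem_union.1 hb with h | h
      · exact (mem_filter.1 h).2.2
      · exact (hB1m b h).1) L0
    (by rw [sum_union hdis, hsum1, ← hσ, ← hQ, hm4]; linarith)
  refine ⟨A, fun b hb => ?_, hA1, hcount.trans ?_⟩
  · rcases hA3 b hb with h | h
    · rcases mem_union.1 h with h | h
      · exact (mem_filter.1 h).1
      · exact mem_Icc.2 ⟨Nat.pos_of_dvd_of_pos (hB1m b h).1 L0,
          le_trans (Nat.le_mul_of_pos_right _ (by omega)) (hB1m b h).2⟩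
    · refine mem_Icc.2 ⟨h.1, h.2.trans (le_trans ?_ (hJ3.trans hYN))⟩
      exact Nat.mul_le_mul (by omega) (by omega)
  · exact_mod_cast card_le_card (subset_union_left.trans hA2)

theorem main (E : ℕ) (hE : 8 ≤ E) : ∃ N0, ∀ N, N0 ≤ N →
    ∃ A : Finset ℕ, A ⊆ Icc 1 N ∧ Adm A ∧ (N : ℝ) * (1 - 13 / E) ≤ A.card := by
  classical
  obtain ⟨T, hT⟩ := (Real.tendsto_sum_range_one_div_nat_succ_atTop.eventually_ge_atTop
    ((E : ℝ) * (E + 1))).exists
  have E0 : (0 : ℝ) < E := by exact_mod_cast (by omega : 0 < E)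
  obtain ⟨R, hR, hs1, hs2⟩ := exR (T * T.factorial + 2) (1 / E) (by positivity)
  obtain ⟨U, hU1, hU2⟩ := Nat.infinite_setOfPred_prime.exists_subset_card_eq (R.card + 1 + (E + 4))
  set w := (T + 1 + ∏ p ∈ R, p) * T.factorial + E + U.sup id with hw
  have hw0 : w < 2 ^ w := Nat.lt_two_pow_self
  obtain ⟨J0, hJ0⟩ := lin_le (4 * (2 ^ w + 1) * (1 + (E + 3)) + 2 ^ w * 2 ^ w)
    (4 * (2 ^ w + 1) * (E + 3))
  refine ⟨2 ^ ((J0 + (w * (E + 3 + 1) + (E + 3))) * (E + 3)), fun N hN => ?_⟩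
  set J := Nat.log 2 N / (E + 3) with hJ
  have N0 : N ≠ 0 := (lt_of_lt_of_le (by positivity) hN).ne'
  have hJ1 : J0 + (w * (E + 3 + 1) + (E + 3)) ≤ J :=
    (Nat.le_div_iff_mul_le (by omega)).2 (Nat.le_log_of_pow_le (by norm_num) hN)
  have hJ2 := hJ0 J (by omega)
  refine core E T w J N R hE hT hR hs1 hs2 (by omega) (by omega) ?_ (by omega) ?_ ?_ ?_ ?_
  · have h1 : U \ insert 2 R ⊆ (Icc 1 (2 ^ w)).filter (fun p => p.Prime ∧ p ∉ R ∧ p ≠ 2) := by
      intro p hp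
      obtain ⟨h1, h2⟩ := mem_sdiff.1 hp
      have pp : p.Prime := hU1 h1
      have : p ≤ U.sup id := le_sup (f := id) h1
      rw [mem_insert, not_or] at h2
      exact mem_filter.2 ⟨mem_Icc.2 ⟨pp.one_le, by omega⟩, pp, h2.2, h2.1⟩
    have h2 := card_le_card h1
    have h3 := le_card_sdiff (insert 2 R) U
    have h4 := card_insert_le 2 R
    omega
  · have : 4 * (2 ^ w + 1) * (1 + (J + 1) * (E + 3))
        = 4 * (2 ^ w + 1) * (1 + (E + 3)) + 4 * (2 ^ w + 1) * (E + 3) * J := by ring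
    omega
  · omega
  · exact le_trans (Nat.pow_le_pow_right (by norm_num) (Nat.div_mul_le_self _ _))
      (Nat.pow_log_le_self 2 N0)
  · refine (Nat.lt_pow_succ_log_self (by norm_num) N).trans_le
      (Nat.pow_le_pow_right (by norm_num) ?_)
    rw [mul_comm]
    exact Nat.succ_le_of_lt (Nat.lt_mul_div_succ _ (by omega))

end H16.UF
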