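import Mathlib

namespace Pool.Agent.S09362Aux

open Set

section vec
variable {α F V : Type} [Field F] [AddCommGroup V] [Module F V] [Fintype α]

theorem aug (v : α → V) (I J : Set α) (hI : LinearIndepOn F v I) (hJ : LinearIndepOn F v J)
    (h : I.ncard < J.ncard) : ∃ e ∈ J, e ∉ I ∧ LinearIndepOn F v (insert e I) := by
  classical
  by_contra hc
  push Not at hc
  have h1 : Submodule.span F (v '' J) ≤ Submodule.span F (v '' I) := by
    rw [Submodule.span_le]
    rintro _ ⟨e, he, rfl⟩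
    by_cases heI : e ∈ I
    · exact Submodule.subset_span ⟨e, heI, rfl⟩
    · by_contra hn
      exact hc e he heI (hI.insert hn)
  have h2 : ∀ K : Set α, LinearIndepOn F v K →
      Module.finrank F (Submodule.span F (v '' K)) = K.ncard := by
    intro K hK
    have := finrank_span_eq_card hK
    rw [← Set.image_eq_range] at this
    rw [this, ← Nat.card_coe_set_eq, Nat.card_eq_fintype_card]
  have : Module.Finite F (Submodule.span F (v '' I)) :=
    Module.Finite.span_of_finite F (Set.toFinite _)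
  have h3 := Submodule.finrank_mono h1
  rw [h2 I hI, h2 J hJ] at h3
  omega

noncomputable def vm (F : Type) [Field F] [Module F V] (v : α → V) : Matroid α :=
  (IndepMatroid.ofFinite (E := univ) finite_univ (fun I => LinearIndepOn F v I)
    (linearIndepOn_empty F v) (fun _ _ hJ hIJ => hJ.mono hIJ)
    (fun I J hI hJ h => aug v I J hI hJ h) (fun _ _ => subset_univ _)).matroid

theorem vm_E (v : α → V) : (vm F v).E = univ := by simp [vm]

theorem vm_indep (v : α → V) (I : Set α) : (vm F v).Indep I ↔ LinearIndepOn F v I := by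
  simp [vm]

theorem card_le (v : α → Fin 3 → F) (I : Set α) (hI : LinearIndepOn F v I) : I.ncard ≤ 3 := by
  classical
  have := LinearIndependent.fintype_card_le_finrank hI
  rw [← Nat.card_coe_set_eq, Nat.card_eq_fintype_card]
  simpa using this

omit [Fintype α] in
theorem dep3 (v : α → V) (a b c : α) (hab : LinearIndepOn F v {a, b}) (hca : c ≠ a) (hcb : c ≠ b)
    (h : ¬ LinearIndepOn F v {c, a, b}) : ∃ s t : F, s • v a + t • v b = v c := by
  rw [linearIndepOn_insert (by simp [hca, hcb])] at h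
  push Not at h
  have := h hab
  rw [image_pair] at this
  exact Submodule.mem_span_pair.1 this

omit [Fintype α] in
theorem ind3 (v : α → V) (a b c : α) (hab : a ≠ b) (hac : a ≠ c) (hbc : b ≠ c)
    (h : LinearIndepOn F v {a, b, c}) : LinearIndependent F ![v a, v b, v c] := by
  have := LinearIndependent.comp h
    (![⟨a, by simp⟩, ⟨b, by simp⟩, ⟨c, by simp⟩] : Fin 3 → ({a, b, c} : Set α)) (by
      intro i j hij
      have h2 := congrArg Subtype.val hij
      fin_cases i <;> fin_cases j <;> first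
        | rfl | exact absurd h2 hab | exact absurd h2 hac | exact absurd h2 hbc
        | exact absurd h2.symm hab | exact absurd h2.symm hac | exact absurd h2.symm hbc)
  convert this using 1
  ext i
  fin_cases i <;> rfl

end vec

theorem onan {F : Type} [Field F] (σ : F →+* F) (x y z : Fin 3 → F)
    (hli : LinearIndependent F ![x, y, z]) (a b c d e f s t : F)
    (ha : a ≠ 0) (hc : c ≠ 0) (hf : f ≠ 0)
    (H : (Fin 3 → F) → Prop) (hH : ∀ u, H u ↔ u 0 * σ (u 2) + u 2 * σ (u 0) - u 1 * σ (u 1) = 0)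
    (hx : H x) (hy : H y) (hz : H z)
    (h1 : H (a • x + b • y)) (h2 : H (c • y + d • z)) (h3 : H (e • x + f • z))
    (hd : s • (a • x + b • y) + t • (c • y + d • z) = e • x + f • z) : False := by
  have hD : (Matrix.of ![x, y, z]).det ≠ 0 := by
    have : IsUnit (Matrix.of ![x, y, z]) := Matrix.linearIndependent_rows_iff_isUnit.1 hli
    exact ((Matrix.isUnit_iff_isUnit_det _).1 this).ne_zero
  rw [Matrix.det_fin_three] at hD
  simp only [Matrix.of_apply, Matrix.cons_val', Matrix.cons_val_zero, Matrix.cons_val_one,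
    Matrix.cons_val] at hD
  have hk := Fintype.linearIndependent_iff.1 hli ![s * a - e, s * b + t * c, t * d - f] (by
    rw [Fin.sum_univ_three]
    simp only [Matrix.cons_val_zero, Matrix.cons_val_one, Matrix.cons_val]
    rw [← sub_eq_zero] at hd
    rw [← hd]; module)
  have k0 : s * a - e = 0 := hk 0
  have k1 : s * b + t * c = 0 := hk 1
  have k2 : t * d - f = 0 := hk 2
  have hm : b * d * e = -(a * c * f) := by
    linear_combination (-(b * d)) * k0 + a * d * k1 - a * c * k2
  have hm' : σ b * σ d * σ e = -(σ a * σ c * σ f) := by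
    have := congrArg σ hm
    simpa using this
  have hD' := (map_ne_zero σ).2 hD
  simp only [map_add, map_sub, map_mul] at hD'
  rw [hH] at hx hy hz h1 h2 h3
  simp only [Pi.add_apply, Pi.smul_apply, smul_eq_mul, map_add, map_mul] at h1 h2 h3
  have ha' := (map_ne_zero σ).2 ha
  have hc' := (map_ne_zero σ).2 hc
  have hf' := (map_ne_zero σ).2 hf
  generalize σ (x 0) = X0 at *
  generalize σ (x 1) = X1 at *
  generalize σ (x 2) = X2 at *
  generalize σ (y 0) = Y0 at *
  generalize σ (y 1) = Y1 at *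
  generalize σ (y 2) = Y2 at *
  generalize σ (z 0) = Z0 at *
  generalize σ (z 1) = Z1 at *
  generalize σ (z 2) = Z2 at *
  generalize σ a = A at *
  generalize σ b = B at *
  generalize σ c = C at *
  generalize σ d = D at *
  generalize σ e = E at *
  generalize σ f = G at *
  obtain ⟨pxy, e1⟩ : ∃ p, p = x 0 * Y2 + x 2 * Y0 - x 1 * Y1 := ⟨_, rfl⟩
  obtain ⟨pyx, e2⟩ : ∃ p, p = y 0 * X2 + y 2 * X0 - y 1 * X1 := ⟨_, rfl⟩
  obtain ⟨pyz, e3⟩ : ∃ p, p = y 0 * Z2 + y 2 * Z0 - y 1 * Z1 := ⟨_, rfl⟩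
  obtain ⟨pzy, e4⟩ : ∃ p, p = z 0 * Y2 + z 2 * Y0 - z 1 * Y1 := ⟨_, rfl⟩
  obtain ⟨pzx, e5⟩ : ∃ p, p = z 0 * X2 + z 2 * X0 - z 1 * X1 := ⟨_, rfl⟩
  obtain ⟨pxz, e6⟩ : ∃ p, p = x 0 * Z2 + x 2 * Z0 - x 1 * Z1 := ⟨_, rfl⟩
  have g1 : a * B * pxy = -(b * A * pyx) := by
    rw [e1, e2]; linear_combination h1 - a * A * hx - b * B * hy
  have g2 : c * D * pyz = -(d * C * pzy) := by
    rw [e3, e4]; linear_combination h2 - c * C * hy - d * D * hz
  have g3 : f * E * pzx = -(e * G * pxz) := by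
    rw [e5, e6]; linear_combination h3 - e * E * hx - f * G * hz
  have g4 : (a * B * pxy) * (c * D * pyz) * (f * E * pzx) =
      -((b * A * pyx) * (d * C * pzy) * (e * G * pxz)) := by
    rw [g1, g2, g3]; ring
  have g5 : (a * c * f) * (A * C * G) * (pxy * pyz * pzx + pyx * pzy * pxz) = 0 := by
    linear_combination (-1 : F) * g4 + (a * c * f) * (pxy * pyz * pzx) * hm' +
      (A * C * G) * (pyx * pzy * pxz) * hm
  have g6 : pxy * pyz * pzx + pyx * pzy * pxz = 0 :=
    (mul_eq_zero.1 g5).resolve_left (by simp [*])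
  apply mul_ne_zero hD hD'
  obtain ⟨pxx, e7⟩ : ∃ p, p = x 0 * X2 + x 2 * X0 - x 1 * X1 := ⟨_, rfl⟩
  obtain ⟨pyy, e8⟩ : ∃ p, p = y 0 * Y2 + y 2 * Y0 - y 1 * Y1 := ⟨_, rfl⟩
  obtain ⟨pzz, e9⟩ : ∃ p, p = z 0 * Z2 + z 2 * Z0 - z 1 * Z1 := ⟨_, rfl⟩
  have g7 : pxx * pyy * pzz - pxx * pyz * pzy - pxy * pyx * pzz + pxy * pyz * pzx
      + pxz * pyx * pzy - pxz * pyy * pzx = 0 := by
    rw [e7, e8, e9, hx, hy, hz]; linear_combination g6
  rw [← g7, e1, e2, e3, e4, e5, e6, e7, e8, e9]
  ring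

theorem star_acyclic :
    (SimpleGraph.fromEdgeSet ({s(0, 1), s(0, 2), s(0, 3)} : Set (Sym2 (Fin 4)))).IsAcyclic := by
  apply SimpleGraph.IsTree.isAcyclic
  rw [SimpleGraph.isTree_iff_connected_and_card]
  constructor
  · decide
  · have : (SimpleGraph.fromEdgeSet ({s(0, 1), s(0, 2), s(0, 3)} : Set (Sym2 (Fin 4)))).edgeSet =
        {s(0, 1), s(0, 2), s(0, 3)} := by
      rw [SimpleGraph.edgeSet_fromEdgeSet]
      apply sdiff_eq_left.2
      simp [Set.disjoint_left]
    rw [this, Nat.card_coe_set_eq, ncard_eq_three.2 ⟨_, _, _, by decide, by decide, by decide, rfl⟩]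
    simp

theorem tri_cyclic (i j k : Fin 4) (hij : i ≠ j) (hik : i ≠ k) (hjk : j ≠ k) :
    ¬ (SimpleGraph.fromEdgeSet ({s(j, k), s(i, j), s(i, k)} : Set (Sym2 (Fin 4)))).IsAcyclic := by
  intro h
  apply h.cliqueFree le_rfl {i, j, k}
  rw [SimpleGraph.is3Clique_triple_iff]
  simp [*]

theorem no_minor {α F : Type} [Fintype α] [Field F] (σ : F →+* F) (v : α → Fin 3 → F)
    (hs : ∀ e f, LinearIndepOn F v {e, f})
    (hH : ∀ e, v e 0 * σ (v e 2) + v e 2 * σ (v e 0) - v e 1 * σ (v e 1) = 0) :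
    ¬ ∃ N : Matroid α, Matroid.IsMinor N (vm F v) ∧
      ∃ φ : α → Sym2 (Fin 4), Set.BijOn φ N.E {s | ¬ s.IsDiag} ∧
        ∀ I ⊆ N.E, N.Indep I ↔ (SimpleGraph.fromEdgeSet (φ '' I)).IsAcyclic := by
  rintro ⟨N, ⟨C, D, hN⟩, φ, hφ, hI⟩
  have pre : ∀ i j : Fin 4, i ≠ j → ∃ e ∈ N.E, φ e = s(i, j) := fun i j hij =>
    hφ.surjOn (by simpa using hij)
  obtain ⟨a, ha, pa⟩ := pre 0 1 (by decide)
  obtain ⟨b, hb, pb⟩ := pre 0 2 (by decide)
  obtain ⟨c, hc, pc⟩ := pre 0 3 (by decide)
  obtain ⟨d, hd, pd⟩ := pre 1 2 (by decide)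
  obtain ⟨e, he, pe⟩ := pre 2 3 (by decide)
  obtain ⟨f, hf, pf⟩ := pre 1 3 (by decide)
  have ne : ∀ {x y : α} {s t : Sym2 (Fin 4)}, φ x = s → φ y = t → s ≠ t → x ≠ y := by
    rintro x y s t rfl rfl h rfl; exact h rfl
  have hab := ne pa pb (by decide)
  have hac := ne pa pc (by decide)
  have hbc := ne pb pc (by decide)
  have star : N.Indep {a, b, c} := by
    rw [hI _ (by simp [insert_subset_iff, ha, hb, hc]), image_insert_eq, image_pair, pa, pb, pc]
    exact star_acyclic
  obtain ⟨B, hB⟩ := (vm F v).exists_isBasis' C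
  have key : ∀ J, N.Indep J ↔ ((vm F v).Indep (J ∪ B) ∧ Disjoint C J) ∧ Disjoint J D := by
    intro J
    rw [hN, Matroid.delete_indep_iff, hB.contract_indep_iff]
  have hB0 : B = ∅ := by
    obtain ⟨⟨h1, h2⟩, -⟩ := (key _).1 star
    have h3 := card_le v _ ((vm_indep v _).1 h1)
    rw [ncard_union_eq (h2.mono_left hB.subset).symm,
      ncard_eq_three.2 ⟨a, b, c, hab, hac, hbc, rfl⟩] at h3
    exact (ncard_eq_zero).1 (by omega)
  have key2 : ∀ J ⊆ N.E, N.Indep J ↔ LinearIndepOn F v J := by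
    intro J hJ
    rw [key, hB0, union_empty, vm_indep]
    rw [hN, Matroid.delete_ground, Matroid.contract_ground, subset_sdiff, subset_sdiff] at hJ
    exact ⟨fun h => h.1.1, fun h => ⟨⟨h, hJ.1.2.symm⟩, hJ.2⟩⟩
  have tri : ∀ {x y z : α} (i j k : Fin 4), x ∈ N.E → y ∈ N.E → z ∈ N.E →
      φ x = s(i, j) → φ y = s(i, k) → φ z = s(j, k) → i ≠ j → i ≠ k → j ≠ k →
      ∃ s t : F, s ≠ 0 ∧ t ≠ 0 ∧ s • v x + t • v y = v z := by
    intro x y z i j k hx hy hz px py pz hij hik hjk
    have hzx : z ≠ x := ne pz px (by simp [*, hij.symm, hik.symm])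
    have hzy : z ≠ y := ne pz py (by simp [*, hij.symm, hik.symm])
    have hsub : ({z, x, y} : Set α) ⊆ N.E := by simp [insert_subset_iff, hx, hy, hz]
    obtain ⟨s, t, h⟩ := dep3 v x y z (hs x y) hzx hzy (by
      rw [← key2 _ hsub, hI _ hsub, image_insert_eq, image_pair, px, py, pz]
      exact tri_cyclic i j k hij hik hjk)
    refine ⟨s, t, ?_, ?_, h⟩
    · rintro rfl
      have := (linearIndepOn_insert (by simpa using hzy)).1 (hs z y)
      apply this.2
      rw [image_singleton, Submodule.mem_span_singleton]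
      exact ⟨t, by simpa using h⟩
    · rintro rfl
      have := (linearIndepOn_insert (by simpa using hzx)).1 (hs z x)
      apply this.2
      rw [image_singleton, Submodule.mem_span_singleton]
      exact ⟨s, by simpa using h⟩
  obtain ⟨s1, t1, hs1, -, e1⟩ := tri 0 1 2 ha hb hd pa pb pd (by decide) (by decide) (by decide)
  obtain ⟨s2, t2, hs2, -, e2⟩ := tri 0 2 3 hb hc he pb pc pe (by decide) (by decide) (by decide)
  obtain ⟨s3, t3, -, ht3, e3⟩ := tri 0 1 3 ha hc hf pa pc pf (by decide) (by decide) (by decide)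
  obtain ⟨s4, t4, -, -, e4⟩ := tri 2 1 3 hd he hf (pd.trans Sym2.eq_swap) pe pf
    (by decide) (by decide) (by decide)
  refine onan σ (v a) (v b) (v c) (ind3 v a b c hab hac hbc ((key2 _ star.subset_ground).1 star))
    s1 t1 s2 t2 s3 t3 s4 t4 hs1 hs2 ht3 _ (fun _ => Iff.rfl) (hH a) (hH b) (hH c) ?_ ?_ ?_ ?_
  · rw [e1]; exact hH d
  · rw [e2]; exact hH e
  · rw [e3]; exact hH f
  · rw [e1, e2, e3, e4]

theorem unital (p : ℕ) [hp : Fact p.Prime] (h2 : p ≠ 2) :
    ∃ (σ : GaloisField p 2 →+* GaloisField p 2)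
      (v : GaloisField p 2 × ZMod p → Fin 3 → GaloisField p 2),
      (∀ e f, LinearIndepOn (GaloisField p 2) v {e, f}) ∧
      (∀ e, v e 0 * σ (v e 2) + v e 2 * σ (v e 0) - v e 1 * σ (v e 1) = 0) := by
  classical
  have : Fintype (GaloisField p 2) := Fintype.ofFinite _
  have hc : Fintype.card (GaloisField p 2) = p ^ 2 := by
    rw [← Nat.card_eq_fintype_card, GaloisField.card p 2 (by norm_num)]
  have hσ : ∀ x : GaloisField p 2, (x ^ p) ^ p = x := by
    intro x
    rw [← pow_mul, ← pow_two, ← hc, FiniteField.pow_card]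
  have hp2 := hp.out.two_le
  obtain ⟨w, hw⟩ : ∃ w : GaloisField p 2, w ^ p ≠ w := by
    by_contra h
    push Not at h
    have h1 : ∀ x : (GaloisField p 2)ˣ, x ^ (p - 1) = 1 := by
      intro x
      have h3 : x ^ (p - 1) * x = 1 * x := by
        rw [← pow_succ, show p - 1 + 1 = p by omega, one_mul]
        ext; simpa using h x
      exact mul_right_cancel h3
    have h4 := Nat.le_of_dvd (by omega) ((FiniteField.forall_pow_eq_one_iff _ _).1 h1)
    rw [hc] at h4
    have : p * 2 ≤ p ^ 2 := by nlinarith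
    omega
  have htwo : (2 : GaloisField p 2) ≠ 0 := by
    intro h
    have := (CharP.cast_eq_zero_iff (GaloisField p 2) p 2).1 (by exact_mod_cast h)
    exact h2 ((Nat.prime_dvd_prime_iff_eq hp.out Nat.prime_two).1 this)
  refine ⟨frobenius _ p, fun e => ![1, e.1, e.1 * e.1 ^ p / 2 +
    algebraMap (ZMod p) (GaloisField p 2) e.2 * (w - w ^ p)], ?_, ?_⟩
  · intro e f
    by_cases hef : e = f
    · subst hef
      rw [pair_eq_singleton, linearIndepOn_singleton_iff]
      intro h
      simpa using congrFun h 0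
    · rw [linearIndepOn_insert (by simpa using hef), linearIndepOn_singleton_iff, image_singleton,
        Submodule.mem_span_singleton]
      refine ⟨fun h => by simpa using congrFun h 0, ?_⟩
      rintro ⟨t, ht⟩
      have t0 : t = 1 := by simpa using congrFun ht 0
      subst t0
      have t1 : f.1 = e.1 := by simpa using congrFun ht 1
      have t2 := congrFun ht 2
      simp only [one_smul, Matrix.cons_val, t1, add_right_inj] at t2
      have t3 := (algebraMap (ZMod p) (GaloisField p 2)).injective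
        (mul_right_cancel₀ (sub_ne_zero.2 hw.symm) t2)
      exact hef (Prod.ext t1.symm t3.symm)
  · intro e
    have h3 : (algebraMap (ZMod p) (GaloisField p 2) e.2) ^ p =
        algebraMap (ZMod p) (GaloisField p 2) e.2 := by
      rw [← map_pow, ZMod.pow_card]
    simp only [Matrix.cons_val_zero, Matrix.cons_val_one, Matrix.cons_val, map_add, map_mul,
      map_div₀, map_sub, map_one, map_ofNat]
    simp only [frobenius_def, hσ, h3]
    field_simp
    ring

end Pool.Agent.S09362Aux
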